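import Pool.Agent.MP42.GZ.DkZ
import Pool.Agent.MP42.PL.Star3

/-!
# The stars of the docks of a level, restricted diagonal links

`Dkz.St`: base corners of the unused full docks and of the links `m3` / `m4` with a full third leg;
`Dkz.stars`: the star data (note 2358).
-/

set_option autoImplicit false
set_option linter.unusedSectionVars false

namespace Pool.Agent.MP42.GZ

open Pool.Agent.MP42 Pool.Agent.MP42.U Pool.Agent.MP42.PL Pool.Agent.MP42.O3 Pool.Agent.MP42.O3.BM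

/-- stars, other index set -/
def _root_.Pool.Agent.MP42.U.Stars.reix' {C α J J' : Type*} [LinearOrder α] {Ct : Contour C α}
    {cls : C → Prop} (S : Stars Ct cls J) (f : J' → J) (hf : Function.Injective f) :
    Stars Ct cls J' where
  leg j s := S.leg (f j) s
  inj i j s t h := ⟨hf (S.inj _ _ s t h).1, (S.inj _ _ s t h).2⟩
  clsA j := S.clsA (f j)
  clsB j := S.clsB (f j)
  cyc j := S.cyc (f j)
  nc i j hij s t h := S.nc (f i) (f j) (fun e => hij (hf e)) s t h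

variable {D : Type*} {M : BM D} {W : D → Prop} {x0 : D} {T : RT M.E} {cl : D → Prop}
  {rc : D → Rc D} {X : D → Prop}

/-- a selected link `y` which is a plain link and a full star with base corner `v` -/
structure StL (M : BM D) (T : RT M.E) (cl : D → Prop) (rc : D → Rc D) (y v : D) : Prop where
  lab : M.lab v = .B3
  k : ((rc y).kd = .m3 ∧ (rc y).hc = v ∧ T.G v ∧ cl v ∧ ¬ T.G (M.ν v)) ∨
    ((rc y).kd = .m4 ∧ (rc y).hc = M.ν v ∧ ¬ T.G v ∧ T.G (M.ν v) ∧ ¬ cl (M.ν v))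
  g3 : T.G (M.ν (M.ν v)) ∧ ¬ cl (M.ν (M.ν v))
  g4 : T.G (M.ν (M.ν (M.ν v))) ∧ cl (M.ν (M.ν (M.ν v)))

/-- base corners of the full stars -/
def Dkz.St (K : Dkz M W T cl rc) (v : D) : Prop := K.N v ∨ ∃ y, K.P y ∧ StL M T cl rc y v

section

variable [Finite D]

lemma StL.sv {y v : D} (h : StL M T cl rc y v) : SV M v (rc y).hc := by
  rcases h.k with ⟨-, e, -⟩ | ⟨-, e, -⟩
  · rw [e]; exact SV.refl _
  · rw [e]; exact SV.nu _

/-- `m3` with third leg in `O` -/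
lemma StL.of3 (L : LI M W x0 T cl rc) {y : D} (h : Gd M T rc y) (hk : (rc y).kd = .m3)
    (h3 : T.G (M.ν (M.ν (rc y).hc))) (hc : ¬ cl (M.ν (M.ν (rc y).hc))) :
    StL M T cl rc y (rc y).hc := by
  have hr := L.ok y h.G h.d
  have hk' := hr.k
  have hp := hr.p
  have hG1 := hr.p.G_hc h.G h.d
  have hG2 := hr.p.G_cc h.G
  unfold KdOK KdP at hk'
  rw [hk] at hk'
  unfold PlOK at hp
  rw [hk'.1] at hp
  have e : (rc y).cc = M.μ (rc y).hc := by rw [hp.1, μ_ν]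
  have e3 : M.ν (M.ν (M.ν (rc y).hc)) = (rc y).cc := by rw [e, μ_4 h.B]
  have hbx : bxl M (rc y) = M.ν (rc y).hc := by
    unfold bxl kap
    rw [hk]
    rfl
  exact ⟨hk'.2.1, Or.inl ⟨hk, rfl, hG1, hk'.2.2.1, hbx ▸ h.n⟩, ⟨h3, hc⟩,
    by rw [e3]; exact ⟨hG2, hk'.2.2.2⟩⟩

/-- `m4` with third leg in `E` -/
lemma StL.of4 (L : LI M W x0 T cl rc) {y : D} (h : Gd M T rc y) (hk : (rc y).kd = .m4)
    (h4 : T.G (M.ν (M.ν (rc y).hc))) (hc : cl (M.ν (M.ν (rc y).hc))) :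
    StL M T cl rc y (M.μ (rc y).hc) := by
  have hr := L.ok y h.G h.d
  have hk' := hr.k
  have hp := hr.p
  have hG1 := hr.p.G_hc h.G h.d
  have hG2 := hr.p.G_cc h.G
  unfold KdOK KdP at hk'
  rw [hk] at hk'
  unfold PlOK at hp
  rw [hk'.1] at hp
  have hbx : bxl M (rc y) = M.μ (rc y).hc := by
    unfold bxl kap
    rw [hk]
    rfl
  have hl : M.lab (M.μ (rc y).hc) = .B3 := (four hk'.2.1).l1
  refine ⟨hl, Or.inr ⟨hk, ?_, hbx ▸ h.n, ?_, ?_⟩, ?_, ?_⟩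
  · rw [ν_μ]
  · rw [ν_μ]; exact hG1
  · rw [ν_μ]; exact hk'.2.2.1
  · rw [ν_μ, ← hp.1]; exact ⟨hG2, hk'.2.2.2⟩
  · rw [ν_μ]; exact ⟨h4, hc⟩

/-- no diagonal at the vertex of a main link of the kind `m3`, `m4` -/
lemma nx_m34 (L : LI M W x0 T cl rc) {y : D} (h : Gd M T rc y)
    (hk : (rc y).kd = .m3 ∨ (rc y).kd = .m4) : NX M (XL T rc) (rc y).hc := by
  rintro z hz ⟨y', hy', hd', hp', hx⟩
  have hr := L.ok y' hy' hd'
  have hs : SV M (rc y').hc z := by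
    rcases hx with e | e
    · rw [e]; exact SV.refl _
    · rw [e]; exact hr.p.sv
  have hu := dia_uses hr.k hp'
  have hc := L.uniq y y' h.G h.d (h.uses L) hy' hd' hu (hz.trans hs.symm)
  have e := rc_cyc L hc
  rcases dia_kd hr.k hp' with h1 | h1 <;> rw [e] at h1 <;> rcases hk with h2 | h2 <;>
    · have := h1.1.symm.trans h2
      exact absurd this (by decide)

/-- no diagonals of the level at the stars -/
lemma Dkz.nx (K : Dkz M W T cl rc) (L : LI M W x0 T cl rc) {v : D} (h : K.St v) :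
    NX M (XL T rc) v := by
  rcases h with h | ⟨y, h, h'⟩
  · exact L.nx_unused (K.hN _ h).un
  · refine (nx_m34 L (K.hP _ h) ?_).sv h'.sv.symm
    rcases h'.k with h1 | h1
    · exact Or.inl h1.1
    · exact Or.inr h1.1

/-- the star condition -/
lemma Dkz.dkc (K : Dkz M W T cl rc) {v : D} (hX : NX M X v) (h : K.St v) :
    DkC M T cl X (M.ν v) := by
  rcases h with h | ⟨y, -, h⟩
  · have h := K.hN _ h
    refine ⟨by rw [lab_ν, h.lab]; rfl, hX.sv (SV.nu v), h.g3.1, h.g4.1, h.g3.2, h.g4.2, ?_⟩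
    rw [μ_ν]
    rcases h.k with h1 | h1
    · exact Or.inl ⟨h1.2.2, h1.1, h1.2.1⟩
    · exact Or.inr ⟨h1.2.1, h1.1, h1.2.2⟩
  · refine ⟨by rw [lab_ν, h.lab]; rfl, hX.sv (SV.nu v), h.g3.1, h.g4.1, h.g3.2, h.g4.2, ?_⟩
    rw [μ_ν]
    rcases h.k with ⟨-, -, h1⟩ | ⟨-, -, h1⟩
    · exact Or.inl ⟨h1.2.2, h1.1, h1.2.1⟩
    · exact Or.inr ⟨h1.2.1, h1.1, h1.2.2⟩

end

/-- no diagonals at the stars -/
def Dkz.NXd (K : Dkz M W T cl rc) (X : D → Prop) : Prop := ∀ v, K.St v → NX M X v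

section

variable [Fintype D]

lemma Dkz.nxd (K : Dkz M W T cl rc) (L : LI M W x0 T cl rc) : K.NXd (XL T rc) :=
  fun _ h => K.nx L h

/-- the stars with base corner `2` -/
def Dkz.St2 (K : Dkz M W T cl rc) (u : D) : Prop := K.St (M.μ u)

lemma Dkz.dkc2 (K : Dkz M W T cl rc) (hX : K.NXd X) {u : D} (h : K.St2 u) :
    DkC M T cl X u := by
  have := K.dkc (hX _ h) h
  rwa [ν_μ] at this

/-- **the full stars of a level** -/
noncomputable def Dkz.stars (K : Dkz M W T cl rc) (hX : K.NXd X) (L : LI M W x0 T cl rc)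
    (hO : XO M T rc X) (hPl : Plan M.E M.τ) :
    Stars (L.ct hO).contour (fun z => cl (pr z.1)) {v : D // K.St v} :=
  (L.stars hO hPl K.St2 fun _ h => K.dkc2 hX h).reix'
    (fun j => ⟨M.ν j.1, by show K.St (M.μ (M.ν j.1)); rw [μ_ν]; exact j.2⟩)
    (fun i j h => Subtype.ext (by
      have h1 : M.ν i.1 = M.ν j.1 := congrArg Subtype.val h
      rw [← μ_ν i.1, h1, μ_ν]))

lemma Dkz.st_g3 (K : Dkz M W T cl rc) {v : D} (h : K.St v) :
    T.G (M.ν (M.ν v)) ∧ ¬ cl (M.ν (M.ν v)) := by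
  rcases h with h | ⟨y, -, h⟩
  · exact (K.hN _ h).g3
  · exact h.g3

lemma Dkz.st_g4 (K : Dkz M W T cl rc) {v : D} (h : K.St v) :
    T.G (M.ν (M.ν (M.ν v))) ∧ cl (M.ν (M.ν (M.ν v))) := by
  rcases h with h | ⟨y, -, h⟩
  · exact (K.hN _ h).g4
  · exact h.g4

lemma Dkz.st_k (K : Dkz M W T cl rc) {v : D} (h : K.St v) :
    (T.G v ∧ cl v ∧ ¬ T.G (M.ν v)) ∨ (¬ T.G v ∧ T.G (M.ν v) ∧ ¬ cl (M.ν v)) := by
  rcases h with h | ⟨y, -, h⟩
  · exact (K.hN _ h).k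
  · rcases h.k with ⟨-, -, h⟩ | ⟨-, -, h⟩
    · exact Or.inl h
    · exact Or.inr h

lemma Dkz.st_lab (K : Dkz M W T cl rc) {v : D} (h : K.St v) : M.lab v = .B3 := by
  rcases h with h | ⟨y, -, h⟩
  · exact (K.hN _ h).lab
  · exact h.lab

variable (K : Dkz M W T cl rc) (hX : K.NXd X) (L : LI M W x0 T cl rc)
    (hO : XO M T rc X) (hPl : Plan M.E M.τ) (j : {v : D // K.St v})

/-- the corner `3` -/
lemma Dkz.stars_a : (K.stars hX L hO hPl).leg j .a =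
    L.cp hO (M.ν (M.ν j.1)) (K.st_g3 j.2).1 := rfl

/-- the corner `4` -/
lemma Dkz.stars_b : (K.stars hX L hO hPl).leg j .b =
    L.cp hO (M.ν (M.ν (M.ν j.1))) (K.st_g4 j.2).1 := rfl

/-- the corner of the host -/
lemma Dkz.stars_y : (T.G j.1 ∧ ((K.stars hX L hO hPl).leg j .y).1 = Sum.inl j.1) ∨
    (¬ T.G j.1 ∧ ((K.stars hX L hO hPl).leg j .y).1 = Sum.inl (M.ν j.1)) := by
  have e : ((K.stars hX L hO hPl).leg j .y).1 = Sum.inl (hostc M T (M.ν j.1)) := rfl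
  rw [e]
  rcases K.st_k j.2 with h | h
  · left
    refine ⟨h.1, ?_⟩
    rw [hostc_neg h.2.2, μ_ν]
  · right
    refine ⟨h.1, ?_⟩
    rw [hostc_pos h.2.1]

end

end Pool.Agent.MP42.GZ
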