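import Pool.Agent.MP42.GZ.Lvl2

/-!
# The top level (owner helper30)
-/

set_option autoImplicit false

namespace Pool.Agent.MP42.GZ

open Pool.Agent.MP42.O3 Pool.Agent.MP42.O3.BM Pool.Agent.MP42.U Pool.Agent.MP42.PL
open Pool.Agent.MP42.EO

variable {D : Type*} {T : Tbl} {M : BM D}

/-- everything -/
abbrev All : D → Prop := fun _ => True

/-- no own tokens -/
abbrev no : D → Wd := fun _ => []

/-- the word at a corner with the lanes `ex` of the root link (outermost on the edge behind the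
corner) -/
def vx (T : Tbl) (M : BM D) (mn : D → T.Q) (gt : D → M9) (ex : D → Wd) (y : D) :
    List (Bool × (D × ℕ)) :=
  tag y (ex (M.μ y)).reverse ++ (vw T M mn gt no y ++ tag y (ex y))

/-- the word of a circle -/
noncomputable def cx (T : Tbl) (M : BM D) (mn : D → T.Q) (gt : D → M9) (ex : D → Wd) (x : D) :
    List (Bool × (D × ℕ)) := (cir M x).flatMap (vx T M mn gt ex)

/-- **the root link**: one or two lanes over a real edge; `r` = a corner of the root ring -/
structure Exl (M : BM D) (r : D) (cE : D → Bool) (ex : D → Wd) (e : D) (σ : Bool) : Prop where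
  z : ∀ y, y ≠ e → ex y = []
  w : ex e = [(σ, 8)] ∨ ex e = [(σ, 8), (σ, 9)]
  k : M.ek (M.ν e) = .R
  c0 : cE e = true
  c1 : cE (M.ν e) = false
  s : (σ = false ∧ M.E.SameCycle r e) ∨ (σ = true ∧ M.E.SameCycle r (M.ν e))

open Classical in
/-- the total of a circle; `r` = a corner of the root ring -/
noncomputable def ttl (M : BM D) (r : D) (cE : D → Bool) (x : D) : ℤ :=
  (if M.E.SameCycle r x then -1 else 1) * (if cE x then 2 else -2)

/-- **a good state of all vertices**, `r` = a corner of the root ring -/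
structure RootGood (Lg : Leg (D := D) T) (r : D) (mn : D → T.Q) (gt : D → M9) (cE : D → Bool)
    (ex : D → Wd) (e : D) (σ : Bool) : Prop where
  exl : Exl M r cE ex e σ
  cEE : ∀ x, cE (M.E x) = cE x
  sM : ∀ y, mn y ≠ T.non → Full M All y
  sG : ∀ y, gt y ≠ none → M.lab y = .B2
  one : ∀ y z, mn y ≠ T.non → mn z ≠ T.non → SV M y z → y = z
  lM : ∀ y, Lg.okM cE y (mn y)
  lG : ∀ y, Lg.okG cE y (gt y)
  tot : ∀ x, hl (cx T M mn gt ex x) = ttl M r cE x
  pb : ∀ x, Bd 200 (cx T M mn gt ex x)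
  const : ∀ V : D × ℕ → B, LamInv M V → (∀ x, Cl V (cx T M mn gt ex x)) →
    ∃ k, ∀ x, ∀ q ∈ vx T M mn gt ex x, V q.2 = k

/-- **the top level** -/
structure RootOut (Lg : Leg (D := D) T) (r : D) (S : D → Prop) (mn : D → T.Q) (gt : D → M9)
    (cE : D → Bool) (b0 b1 : D → D) (m0 m1 : D → ℕ) (ex : D → Wd) (e : D) (σ : Bool) : Prop
    extends LvlCore T M All S mn gt where
  exl : Exl M r cE ex e σ
  eS : S e
  eS' : S (M.ν e)
  S0 : S r
  cEE : ∀ x, S x → cE (M.E x) = cE x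
  inv : ∀ x, ¬ S x → ∃ col, M.Inv (Cmp M All S x) col
  box : ∀ x, ¬ S x → Ifc M (Cmp M All S x) (b0 x) (b1 x) (m0 x) (m1 x)
  bcst : ∀ x y, Cmp M All S x y → b0 y = b0 x ∧ b1 y = b1 x ∧ m0 y = m0 x ∧ m1 y = m1 x
  bw : ∀ y, ¬ S y → asm M y (mw T M mn y) [] [] = own cE (b0 y) (b1 y) (m0 y) (m1 y) y
  lM : ∀ cE' : D → Bool, (∀ y, S y → cE' y = cE y) → (∀ y, ¬ S y →
    cE' (b0 y) = cE (b0 y) ∧ cE' (b1 y) = cE (b1 y)) → ∀ y, Lg.okM cE' y (mn y)
  lG : ∀ cE' : D → Bool, (∀ y, S y → cE' y = cE y) → ∀ y, Lg.okG cE' y (gt y)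
  tot : ∀ x, S x → hl (cx T M mn gt ex x) = ttl M r cE x
  pb : ∀ x, S x → Bd 200 (cx T M mn gt ex x)
  const : ∀ V : D × ℕ → B, LamInv M V → (∀ x, S x → Cl V (cx T M mn gt ex x)) →
    (∀ x, ¬ S x → V (b0 x, m0 x) = V (b1 x, m1 x)) →
    ∃ k, (∀ x, S x → ∀ q ∈ vx T M mn gt ex x, V q.2 = k) ∧ ∀ x, ¬ S x → V (b0 x, m0 x) = k

/-- the top level exists, for every prescribed class `κ` of the second own corner of a box -/
def RootThm (Lg : Leg (D := D) T) (r : D) (σ : Bool) : Prop :=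
  ∀ κ : (D → Prop) → D → D → ℕ → ℕ → Bool → Bool,
    (∀ K y0 y1 k0 k1 c, (∀ x, K (M.E x) ↔ K x) → K y0 → M.E.SameCycle y0 y1 →
      κ K y0 y1 k0 k1 c = c) →
    ∃ (S : D → Prop) (mn : D → T.Q) (gt : D → M9) (cE : D → Bool) (b0 b1 : D → D)
      (m0 m1 : D → ℕ) (ex : D → Wd) (e : D),
      RootOut (M := M) Lg r S mn gt cE b0 b1 m0 m1 ex e σ ∧
      ∀ x, ¬ S x → cE (b1 x) = κ (Cmp M All S x) (b0 x) (b1 x) (m0 x) (m1 x) (cE (b0 x))

section

variable [Finite D] {Lg : Leg (D := D) T} {r : D} {S : D → Prop}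
  {mn : D → T.Q} {gt : D → M9} {cE : D → Bool} {b0 b1 : D → D} {m0 m1 : D → ℕ}
  {imn : D → D → T.Q} {igt : D → D → M9} {ic : D → D → Bool} {ex : D → Wd} {e : D} {σ : Bool}

/-- **the union of the top level and of good states in the boxes is good** -/
theorem root_good (L : RootOut (M := M) Lg r S mn gt cE b0 b1 m0 m1 ex e σ)
    (hI : Inn Lg M All S cE b0 b1 m0 m1 imn igt ic) :
    RootGood (M := M) Lg r (uMn M All S mn imn) (uGt All S gt igt) (uC All S cE ic) ex e σ := by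
  classical
  have hex : ∀ y, ¬ S y → ex y = [] ∧ ex (M.μ y) = [] := by
    intro y hy
    refine ⟨L.exl.z y fun h => hy (h ▸ L.eS), L.exl.z _ fun h => hy ?_⟩
    have := L.eS'
    rw [← h, ν_μ] at this
    exact this
  have hW : ∀ x : D, All (M.E x) ↔ All x := fun _ => Iff.rfl
  have hvo : ∀ y, S y → vx T M (uMn M All S mn imn) (uGt All S gt igt) ex y
      = vx T M mn gt ex y := fun y hy => by
    unfold vx
    rw [vw_out L.toLvlCore hI _ hy]
  have hvi : ∀ x, ¬ S x → ∀ y, Cmp M All S x y →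
      vx T M (uMn M All S mn imn) (uGt All S gt igt) ex y
      = vw T M (imn x) (igt x) (own (ic x) (b0 x) (b1 x) (m0 x) (m1 x)) y := by
    intro x h2 y hy
    have h3 := hy.right
    have h4 : vx T M (uMn M All S mn imn) (uGt All S gt igt) ex y =
        vw T M (uMn M All S mn imn) (uGt All S gt igt) no y := by
      unfold vx
      rw [(hex y h3.2).1, (hex y h3.2).2]
      simp [tag]
    rw [h4, vw_in L.toLvlCore hI hW h3.1 h3.2 (ow' := own cE (b0 y) (b1 y) (m0 y) (m1 y))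
      (L.bw y h3.2)]
    obtain ⟨e1, e2, e3, e4⟩ := L.bcst x y hy
    obtain ⟨g1, g2, -⟩ := hI.cst x y hy
    rw [e1, e2, e3, e4, g1, g2]
    rw [own_congr (c := cE) (c' := ic x) (hI.c0 x trivial h2).symm (hI.c1 x trivial h2).symm]
  have hco : ∀ x, S x → cx T M (uMn M All S mn imn) (uGt All S gt igt) ex x
      = cx T M mn gt ex x := fun x hx => by
    unfold cx
    refine List.flatMap_congr fun y hy => hvo y ((cyc_of L.SE (mem_cir.1 hy)).2 hx)
  have hci : ∀ x, ¬ S x → ∀ y, Cmp M All S x y →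
      cx T M (uMn M All S mn imn) (uGt All S gt igt) ex y
      = cw T M (imn x) (igt x) (own (ic x) (b0 x) (b1 x) (m0 x) (m1 x)) y := by
    intro x h2 y hy
    unfold cx cw
    refine List.flatMap_congr fun z hz => hvi x h2 z ?_
    exact (cyc_of (Cmp.comp hW L.SE x).WE (mem_cir.1 hz)).2 hy
  refine ⟨?_, ?_, ?_, ?_, ?_, ?_, ?_, ?_, ?_, ?_⟩
  · -- exl
    refine ⟨L.exl.z, L.exl.w, L.exl.k, ?_, ?_, L.exl.s⟩
    · rw [uC_out L.eS]; exact L.exl.c0
    · rw [uC_out L.eS']; exact L.exl.c1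
  · -- cEE
    intro x
    by_cases h : S x
    · rw [uC_out h, uC_out ((L.SE x).2 h), L.cEE x h]
    · have h1 := Cmp.refl (M := M) (W := All) trivial h
      rw [uC_in hI h1, uC_in hI (((Cmp.comp hW L.SE x).WE x).2 h1)]
      exact (hI.good x trivial h).cEE x h1
  · -- sM
    intro y hy
    by_cases h : mn y = T.non
    · by_cases hF : ∃ x, All x ∧ ¬ S x ∧ Full M (Cmp M All S x) y
      · obtain ⟨x, h1, h2, hF⟩ := hF
        rcases hF with ⟨g1, g2⟩ | ⟨g1, u, v, g2, g3, g4, g5, g6⟩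
        · exact Or.inl ⟨g1, fun z hz => trivial⟩
        · exact Or.inr ⟨g1, u, v, g2, g3, g4, trivial, trivial⟩
      · push Not at hF
        exact absurd (uMn_none h hF) hy
    · exact (L.sM y h).1
  · -- sG
    intro y hy
    unfold uGt at hy
    split_ifs at hy with h
    · exact ((hI.good y h.1 h.2).sG y hy).1
    · exact (L.sG y hy).1
  · -- one
    intro y z hy hz hyz
    by_cases h : mn y = T.non
    · obtain ⟨x, h1, h2, hF⟩ : ∃ x, All x ∧ ¬ S x ∧ Full M (Cmp M All S x) y := by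
        by_contra hF
        push Not at hF
        exact hy (uMn_none h hF)
      have hz' : mn z = T.non := by
        by_contra h3
        exact (L.sM z h3).2 x h1 h2 ((Full.congr hyz).2 hF)
      rw [uMn_eq hI h1 h2 hF h] at hy
      rw [uMn_eq hI h1 h2 ((Full.congr hyz).2 hF) hz'] at hz
      exact (hI.good x h1 h2).one y z hy hz hyz
    · have hz' : mn z ≠ T.non := by
        intro h3
        obtain ⟨x, h1, h2, hF⟩ : ∃ x, All x ∧ ¬ S x ∧ Full M (Cmp M All S x) z := by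
          by_contra hF
          push Not at hF
          exact hz (uMn_none h3 hF)
        exact (L.sM y h).2 x h1 h2 ((Full.congr hyz).1 hF)
      exact L.one y z h hz' hyz
  · -- lM
    intro y
    have hcS : ∀ y, S y → uC All S cE ic y = cE y := fun y hy => uC_out hy
    have hcb : ∀ y, ¬ S y → uC All S cE ic (b0 y) = cE (b0 y) ∧
        uC All S cE ic (b1 y) = cE (b1 y) := by
      intro y h2
      have h3 := (L.box y h2).w0
      have h4 := (L.box y h2).w1
      exact ⟨by rw [uC_in hI h3, hI.c0 y trivial h2], by rw [uC_in hI h4, hI.c1 y trivial h2]⟩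
    by_cases h : mn y = T.non
    · by_cases hF : ∃ x, All x ∧ ¬ S x ∧ Full M (Cmp M All S x) y
      · obtain ⟨x, h1, h2, hF⟩ := hF
        rw [uMn_eq hI h1 h2 hF h]
        refine (hI.good x h1 h2).lM _ (fun z hz => ?_) y
        rw [uC_in hI hz]
      · push Not at hF
        rw [uMn_none h hF, ← h]
        exact L.lM _ hcS hcb y
    · rw [uMn_level h]
      exact L.lM _ hcS hcb y
  · -- lG
    intro y
    by_cases h : S y
    · have e : uGt All S gt igt y = gt y := if_neg fun h1 => h1.2 h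
      rw [e]
      exact L.lG _ (fun y hy => uC_out hy) y
    · have e : uGt All S gt igt y = igt y y := if_pos ⟨trivial, h⟩
      rw [e]
      exact (hI.good y trivial h).lG _ (fun z hz => uC_in hI hz) y
  · -- tot
    intro x
    unfold ttl
    by_cases h : S x
    · rw [hco x h, uC_out h]
      exact L.tot x h
    · have h1 := Cmp.refl (M := M) (W := All) trivial h
      have h2 : ¬ M.E.SameCycle r x := fun h3 => h ((cyc_of L.SE h3).2 L.S0)
      rw [if_neg h2, one_mul, hci x h x h1, uC_in hI h1]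
      exact (hI.good x trivial h).tot x h1
  · -- pb
    intro x
    by_cases h : S x
    · rw [hco x h]
      exact L.pb x h
    · have h1 := Cmp.refl (M := M) (W := All) trivial h
      rw [hci x h x h1]
      exact (hI.good x trivial h).pb x h1
  · -- const
    intro V hV hcl
    have hbox : ∀ x, ¬ S x → (∀ y, Cmp M All S x y → ∀ q ∈ vw T M (imn x) (igt x)
        (own (ic x) (b0 x) (b1 x) (m0 x) (m1 x)) y, V q.2 = V (b0 x, m0 x)) ∧
        V (b0 x, m0 x) = V (b1 x, m1 x) := by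
      intro x h2
      obtain ⟨k, hk⟩ := (hI.good x trivial h2).const V hV (by
        intro y hy
        rw [← hci x h2 y hy]
        exact hcl y)
      have e0 : V (b0 x, m0 x) = k := by
        refine hk (b0 x) (L.box x h2).w0 (ic x (b0 x), (b0 x, m0 x)) ?_
        unfold vw tag
        refine List.mem_map.2 ⟨(ic x (b0 x), m0 x), ?_, rfl⟩
        unfold asm own
        rw [if_pos rfl]
        split_ifs <;> simp
      have e1 : V (b1 x, m1 x) = k := by
        refine hk (b1 x) (L.box x h2).w1 (ic x (b1 x), (b1 x, m1 x)) ?_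
        unfold vw tag
        refine List.mem_map.2 ⟨(ic x (b1 x), m1 x), ?_, rfl⟩
        unfold asm own
        rw [if_pos (rfl : b1 x = b1 x)]
        split_ifs <;> simp
      exact ⟨fun y hy q hq => by rw [hk y hy q hq, e0], by rw [e0, e1]⟩
    obtain ⟨k, hk1, hk2⟩ := L.const V hV (by
      intro x hx
      rw [← hco x hx]
      exact hcl x) fun x h2 => (hbox x h2).2
    refine ⟨k, fun x q hq => ?_⟩
    by_cases h : S x
    · rw [hvo x h] at hq
      exact hk1 x h q hq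
    · have h1 := Cmp.refl (M := M) (W := All) trivial h
      rw [hvi x h x h1] at hq
      rw [(hbox x h).1 x h1 q hq]
      exact hk2 x h

/-- **the global state** -/
theorem root_of_level (hT : LvlThm (M := M) Lg) (hR : RootThm (M := M) Lg r σ) :
    ∃ (mn : D → T.Q) (gt : D → M9) (cE : D → Bool) (ex : D → Wd) (e : D),
      RootGood (M := M) Lg r mn gt cE ex e σ := by
  classical
  obtain ⟨P, hP⟩ : ∃ P : (D → Prop) → D → D → ℕ → ℕ → Bool → Prop, P = fun K y0 y1 k0 k1 c =>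
    ∃ (mn : D → T.Q) (gt : D → M9) (cE : D → Bool),
      Good (M := M) Lg K y0 y1 k0 k1 mn gt cE ∧ cE y0 = c := ⟨_, rfl⟩
  have hch : ∀ (K : D → Prop) (y0 y1 : D) (k0 k1 : ℕ) (c : Bool),
      ∃ (mn : D → T.Q) (gt : D → M9) (cE : D → Bool), cE y0 = c ∧ (P K y0 y1 k0 k1 c →
        Good (M := M) Lg K y0 y1 k0 k1 mn gt cE) ∧ (¬ P K y0 y1 k0 k1 c → ∀ y, cE y = c) := by
    intro K y0 y1 k0 k1 c
    by_cases h : P K y0 y1 k0 k1 c
    · rw [hP] at h
      obtain ⟨mn, gt, cE, h1, h2⟩ := h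
      exact ⟨mn, gt, cE, h2, fun _ => h1, fun h3 => absurd (by rw [hP]; exact ⟨mn, gt, cE, h1, h2⟩) h3⟩
    · exact ⟨fun _ => T.non, fun _ => none, fun _ => c, rfl, fun h1 => absurd h1 h, fun _ _ => rfl⟩
  choose fm fg fc hf1 hf2 hf3 using hch
  obtain ⟨S, mn, gt, cE, b0, b1, m0, m1, ex, e, L, hκ⟩ := hR
    (fun K y0 y1 k0 k1 c => fc K y0 y1 k0 k1 c y1) (by
      intro K y0 y1 k0 k1 c hK hy0 hs
      show fc K y0 y1 k0 k1 c y1 = c
      by_cases h : P K y0 y1 k0 k1 c
      · rw [cyc_of' hK (hf2 _ _ _ _ _ _ h).cEE hy0 hs]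
        exact hf1 _ _ _ _ _ _
      · exact hf3 _ _ _ _ _ _ h y1)
  have hPx : ∀ x, ¬ S x → P (Cmp M All S x) (b0 x) (b1 x) (m0 x) (m1 x) (cE (b0 x)) := by
    intro x h2
    rw [hP]
    exact good_of_level hT _ _ le_rfl (Cmp.comp (fun _ => Iff.rfl) L.SE x).WE (Cmp.cn x) (L.inv x h2)
      _ _ _ _ _
      (L.box x h2)
  have hI : Inn Lg M All S cE b0 b1 m0 m1
      (fun x => fm (Cmp M All S x) (b0 x) (b1 x) (m0 x) (m1 x) (cE (b0 x)))
      (fun x => fg (Cmp M All S x) (b0 x) (b1 x) (m0 x) (m1 x) (cE (b0 x)))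
      (fun x => fc (Cmp M All S x) (b0 x) (b1 x) (m0 x) (m1 x) (cE (b0 x))) := by
    refine ⟨fun x h1 h2 => hf2 _ _ _ _ _ _ (hPx x h2), fun x h1 h2 => hf1 _ _ _ _ _ _,
      fun x h1 h2 => (hκ x h2).symm, ?_⟩
    intro x y h
    obtain ⟨e1, e2, e3, e4⟩ := L.bcst x y h
    rw [h.eq, e1, e2, e3, e4]
    exact ⟨rfl, rfl, rfl⟩
  exact ⟨_, _, _, _, _, root_good L hI⟩

end

end Pool.Agent.MP42.GZ
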