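import Pool.Agent.MP42.GZ.Lvl2

/-!
# Rotations of words (owner helper30)
-/

set_option autoImplicit false

namespace Pool.Agent.MP42.GZ

open Pool.Agent.MP42.U Pool.Agent.MP42.EO

/-- `w'` is a rotation of `w` -/
def Rot {A : Type*} (w w' : List A) : Prop := ∃ a b, w = a ++ b ∧ w' = b ++ a

namespace Rot

variable {A : Type*} {B' : Type*} {w w' w'' : List A}

lemma refl (w : List A) : Rot w w := ⟨w, [], by simp, by simp⟩

lemma symm (h : Rot w w') : Rot w' w := by
  obtain ⟨a, b, rfl, rfl⟩ := h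
  exact ⟨b, a, rfl, rfl⟩

lemma mk (a b : List A) : Rot (a ++ b) (b ++ a) := ⟨a, b, rfl, rfl⟩

lemma iff_isRotated : Rot w w' ↔ w ~r w' := by
  constructor
  · rintro ⟨a, b, rfl, rfl⟩
    exact List.isRotated_append
  · rintro ⟨n, rfl⟩
    rw [List.rotate_eq_drop_append_take_mod]
    exact ⟨w.take (n % w.length), w.drop (n % w.length), (List.take_append_drop _ _).symm, rfl⟩

lemma trans (h : Rot w w') (h' : Rot w' w'') : Rot w w'' := by
  rw [iff_isRotated] at h h' ⊢
  exact h.trans h'

lemma mem (h : Rot w w') {x : A} : x ∈ w' ↔ x ∈ w := by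
  obtain ⟨a, b, rfl, rfl⟩ := h
  simp [or_comm]

lemma map (f : A → B') (h : Rot w w') : Rot (w.map f) (w'.map f) := by
  obtain ⟨a, b, rfl, rfl⟩ := h
  exact ⟨a.map f, b.map f, by simp, by simp⟩

lemma flatMap (f : A → List B') (h : Rot w w') : Rot (w.flatMap f) (w'.flatMap f) := by
  obtain ⟨a, b, rfl, rfl⟩ := h
  exact ⟨a.flatMap f, b.flatMap f, by simp, by simp⟩

lemma reverse (h : Rot w w') : Rot w.reverse w'.reverse := by
  obtain ⟨a, b, rfl, rfl⟩ := h
  exact ⟨b.reverse, a.reverse, by simp, by simp⟩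

end Rot

section

variable {T : Type*}

lemma Rot.lrv {w w' : List (Bool × T)} (h : Rot w w') :
    Rot (lrev w) (lrev w') := by
  unfold U.lrev
  exact (h.map _).reverse

lemma lrev_lrev' (w : List (Bool × T)) : lrev (lrev w) = w := by
  unfold U.lrev
  rw [List.map_reverse, List.reverse_reverse, List.map_map]
  conv_rhs => rw [← List.map_id w]
  refine List.map_congr_left fun q _ => ?_
  simp

/-- closed walks do not depend on the start -/
lemma Rot.cl {V : T → B} {w w' : List (Bool × T)} (h : Rot w w') : Cl V w ↔ Cl V w' := by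
  have key : ∀ a b : List (Bool × T), Cl V (a ++ b) → Cl V (b ++ a) := by
    intro a b ⟨S, h1, h2⟩
    rw [lv_append, run_append] at h1
    obtain ⟨S₁, h3, h4⟩ := h1
    refine ⟨S₁, ?_, ?_⟩
    · rw [lv_append, run_append]
      exact ⟨S, h4, h3⟩
    · obtain ⟨K, c, hc⟩ := h2
      exact ⟨K + (lv V a).length, c, run_deep h3 hc⟩
  obtain ⟨a, b, rfl, rfl⟩ := h
  exact ⟨key a b, key b a⟩

lemma Rot.hl {w w' : List (Bool × T)} (h : Rot w w') : hl w' = hl w := by
  obtain ⟨a, b, rfl, rfl⟩ := h
  rw [hl_append, hl_append, add_comm]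

/-- the reading direction -/
def rw' (c : Bool) (w : List (Bool × T)) : List (Bool × T) := if c then w else lrev w

lemma cl_rw {V : T → B} {c : Bool} {w : List (Bool × T)} : Cl V (rw' c w) ↔ Cl V w := by
  unfold rw'
  split_ifs
  · exact Iff.rfl
  · constructor
    · intro h
      have := h.lrev
      rwa [lrev_lrev'] at this
    · exact fun h => h.lrev

lemma hl_rw {c : Bool} {w : List (Bool × T)} : U.hl (rw' c w) = if c then U.hl w else - U.hl w := by
  unfold rw'
  split_ifs
  · rfl
  · exact hl_lrev w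

lemma mem_lrev {w : List (Bool × T)} {q : Bool × T} : q ∈ lrev w ↔ (!q.1, q.2) ∈ w := by
  unfold U.lrev
  rw [List.mem_reverse, List.mem_map]
  constructor
  · rintro ⟨p, hp, rfl⟩
    simpa using hp
  · intro h
    exact ⟨_, h, by simp⟩

/-- the same tokens -/
lemma tok_rw {c : Bool} {w : List (Bool × T)} {t : T} :
    (∃ b, (b, t) ∈ rw' c w) ↔ ∃ b, (b, t) ∈ w := by
  unfold rw'
  split_ifs
  · exact Iff.rfl
  · constructor
    · rintro ⟨b, h⟩
      exact ⟨!b, mem_lrev.1 h⟩
    · rintro ⟨b, h⟩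
      exact ⟨!b, mem_lrev.2 (by simpa using h)⟩

lemma Cl.congr {V V' : T → B} {w : List (Bool × T)} (h : ∀ q ∈ w, V q.2 = V' q.2) (hC : Cl V w) :
    Cl V' w := by
  obtain ⟨S, h1, h2⟩ := hC
  refine ⟨S, ?_, h2⟩
  have e : lv V w = lv V' w := by
    unfold lv
    refine List.map_congr_left fun q hq => ?_
    rw [h q hq]
  rwa [e] at h1

/-- change of the names of the tokens -/
lemma cl_map {T' : Type*} (f : T → T') {V : T' → B} {w : List (Bool × T)} :
    Cl V (w.map fun q => (q.1, f q.2)) ↔ Cl (V ∘ f) w := by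
  unfold Cl
  have e : lv V (w.map fun q => (q.1, f q.2)) = lv (V ∘ f) w := by
    unfold lv
    rw [List.map_map]
    rfl
  rw [e]

lemma hl_map {T' : Type*} (f : T → T') (w : List (Bool × T)) :
    U.hl (w.map fun q => (q.1, f q.2)) = U.hl w := by
  unfold U.hl
  rw [List.map_map]
  rfl

end

end Pool.Agent.MP42.GZ

namespace Pool.Agent.MP42.GZ

open Pool.Agent.MP42.U Pool.Agent.MP42.O3 Pool.Agent.MP42.PL

section Orb

variable {X Y : Type*}

lemma orb_shift (ρ : X → X) (f g : X → List Y) (x : X) (n : ℕ) :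
    ((orb ρ x n).flatMap fun y => f y ++ g y) ++ f (ρ^[n] x) =
      f x ++ (orb ρ x n).flatMap fun y => g y ++ f (ρ y) := by
  induction n generalizing x with
  | zero => simp [orb]
  | succ n ih =>
    rw [orb_cons, List.flatMap_cons, List.flatMap_cons]
    have h := ih (ρ x)
    rw [Function.iterate_succ_apply]
    simp only [List.append_assoc]
    rw [h]

/-- the start of the corner words may be moved -/
lemma rot_shift {ρ : X → X} (f g : X → List Y) {x : X} {n : ℕ} (hx : ρ^[n] x = x) :
    Rot ((orb ρ x n).flatMap fun y => f y ++ g y) ((orb ρ x n).flatMap fun y => g y ++ f (ρ y)) := by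
  rcases n with _ | n
  · simp only [orb, List.range_zero, List.map_nil, List.flatMap_nil]
    exact Rot.refl _
  · have h := orb_shift ρ f g x (n + 1)
    rw [hx] at h
    rw [orb_cons, List.flatMap_cons] at h ⊢
    rw [List.append_assoc, List.append_assoc] at h
    have h' := List.append_cancel_left h
    rw [← h']
    refine ⟨f x, g x ++ (orb ρ (ρ x) n).flatMap fun y => f y ++ g y, ?_, ?_⟩
    · simp [List.append_assoc]
    · simp [List.append_assoc]

/-- a rotated word with own letters at the start or at the end -/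
lemma orb_ends {ρ : X → X} {x : X} {n : ℕ} (hn : 0 < n) (h I : X → List Y) (o1 o2 : List Y)
    (h0 : n = 1 → h x = o1 ++ I x ++ o2)
    (h1 : 1 < n → h x = o1 ++ I x)
    (h2 : ∀ m, 0 < m → m + 1 < n → h (ρ^[m] x) = I (ρ^[m] x))
    (h3 : 1 < n → h (ρ^[n - 1] x) = I (ρ^[n - 1] x) ++ o2) :
    (orb ρ x n).flatMap h = o1 ++ (orb ρ x n).flatMap I ++ o2 := by
  rcases Nat.lt_or_ge 1 n with hn1 | hn1
  · obtain ⟨m, rfl⟩ : ∃ m, n = m + 2 := ⟨n - 2, by omega⟩
    rw [orb_succ, orb_cons]
    have e1 : ((orb ρ (ρ x) m).flatMap h) = (orb ρ (ρ x) m).flatMap I := by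
      refine List.flatMap_congr fun y hy => ?_
      unfold orb at hy
      obtain ⟨k, hk, rfl⟩ := List.mem_map.1 hy
      have hk' := List.mem_range.1 hk
      have := h2 (k + 1) (by omega) (by omega)
      rwa [Function.iterate_succ_apply] at this
    have e2 : h (ρ^[m + 1] x) = I (ρ^[m + 1] x) ++ o2 := h3 hn1
    simp only [List.flatMap_append, List.flatMap_cons, List.flatMap_nil, List.append_nil, e1, e2,
      h1 hn1, List.append_assoc]
  · obtain rfl : n = 1 := by omega
    have e : orb ρ x 1 = [x] := by simp [orb]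
    rw [e]
    simp only [List.flatMap_cons, List.flatMap_nil, List.append_nil]
    exact h0 rfl

end Orb

end Pool.Agent.MP42.GZ
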