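import Pool.Agent.MP42.GZ.LAbs
import Pool.Agent.MP42.GZ.Lvl3
import Pool.Agent.MP42.GZ.Rot

/-!
# Abstract solutions of one level, final interface (owner helper30)

`LSolX`: a solution of a closed level over a contour with chords `y j` - `x j`; `RSolX`: a solution
of the top level.
-/

set_option autoImplicit false
set_option linter.unusedSectionVars false

namespace Pool.Agent.MP42.GZ

open Pool.Agent.MP42.U Pool.Agent.MP42.EO

variable {C J α : Type*} [LinearOrder α]

/-- the circle has the class of its parent -/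
def swq (Ct : Contour C α) (cls : C → Prop) (z : C) : Prop := z ≠ Ct.r ∧ (cls z ↔ cls (Ct.par z))

/-- the items of the circles in reading order -/
structure Rds (Ct : Contour C α) (cls : C → Prop) (y x : J → α) where
  rd : C → List (α ⊕ C)
  pw : ∀ z, (rd z).Pairwise fun i i' =>
    (cls z → Ct.ihi i < Ct.ilo i') ∧ (¬ cls z → Ct.ihi i' < Ct.ilo i)
  mem : ∀ z i, i ∈ rd z ↔ (∀ p, i = Sum.inl p → ∃ j, p = y j ∨ p = x j) ∧ Ct.host i = z ∧
    i ≠ Sum.inr Ct.r

/-- **a solution of one level** -/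
structure LSolX (Ct : Contour C α) (cls real grp : C → Prop) (y x : J → α) extends
    Rds Ct cls y x where
  lk : C → LS
  lt : α → Bool
  /-- ports are pops -/
  port : ∀ j, lt (x j) = true
  /-- near and near only over real ribbons -/
  nn : ∀ c, lk c = .nn → c ≠ Ct.r ∧ real c ∧ ¬ grp c
  root : lk Ct.r = .even
  tot : ∀ z, hl (wd grp (swq Ct cls) lk lt rd z) = 2
  pb : ∀ z, Bd 40 (wd grp (swq Ct cls) lk lt rd z)
  const : ∀ V : α ⊕ (C × ℕ) → B,
    (∀ j, V (.inl (y j)) = V (.inl (x j))) →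
    (∀ c, grp c → lk c = .drop → V (.inr (c, 0)) = V (.inr (c, 1))) →
    (∀ z, Cl V (wd grp (swq Ct cls) lk lt rd z)) →
    ∃ k, ∀ z, ∀ q ∈ wd grp (swq Ct cls) lk lt rd z, V q.2 = k

/-- **a solution of the top level**: the root ring has no own tokens and the total `-2`; the link
to its child `g1` (of the other class) has the state `near` or `nn` -/
structure RSolX (Ct : Contour C α) (cls real grp : C → Prop) (y x : J → α) (g1 : C) extends
    Rds Ct cls y x where
  lk : C → LS
  lt : α → Bool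
  port : ∀ j, lt (x j) = true
  root : lk Ct.r = .drop ∧ ¬ grp Ct.r
  c1 : (lk g1 = .near ∨ lk g1 = .nn) ∧ ¬ grp g1
  nn : ∀ c, lk c = .nn → c ≠ Ct.r ∧ ¬ grp c ∧ (real c ∨ c = g1)
  tot : ∀ z, (z = Ct.r → hl (wd grp (swq Ct cls) lk lt rd z) = -2) ∧
    (z ≠ Ct.r → hl (wd grp (swq Ct cls) lk lt rd z) = 2)
  pb : ∀ z, Bd 40 (wd grp (swq Ct cls) lk lt rd z)
  const : ∀ V : α ⊕ (C × ℕ) → B,
    (∀ j, V (.inl (y j)) = V (.inl (x j))) →
    (∀ c, grp c → lk c = .drop → V (.inr (c, 0)) = V (.inr (c, 1))) →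
    (∀ z, Cl V (wd grp (swq Ct cls) lk lt rd z)) →
    ∃ k, ∀ z, ∀ q ∈ wd grp (swq Ct cls) lk lt rd z, V q.2 = k

/-! ## Bounds -/

section Bd

variable {A A' : Type*} {m : ℤ} {w w' : List (Bool × A)}

lemma Bd.nonneg (h : Bd m w) : 0 ≤ m := by
  have := h [] w rfl
  simp at this
  omega

lemma Bd.all (h : Bd m w) : -m ≤ hl w ∧ hl w ≤ m := h w [] (by simp)

lemma Bd.rot (h : Bd m w) (hr : Rot w w') : Bd (3 * m) w' := by
  obtain ⟨a, b, rfl, rfl⟩ := hr
  intro u v huv
  have ha := h a b rfl
  have hab := h (a ++ b) [] (by simp)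
  rw [hl_append] at hab
  rcases List.append_eq_append_iff.1 huv with ⟨c, h1, h2⟩ | ⟨c, h1, h2⟩
  · -- u = b ++ c
    have h3 := h c (v ++ b) (by rw [h2, List.append_assoc])
    rw [h1, hl_append]
    omega
  · -- b = u ++ c
    have h3 := h (a ++ u) c (by rw [h1, List.append_assoc])
    rw [hl_append] at h3
    omega

lemma hl_lrev' (w : List (Bool × A)) : hl (lrev w) = - hl w := hl_lrev w

lemma Bd.rv (h : Bd m w) (ht : -2 ≤ hl w ∧ hl w ≤ 2) : Bd (m + 2) (lrev w) := by
  intro u v huv
  have h1 : w = lrev v ++ lrev u := by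
    rw [← lrev_append, ← huv, lrev_lrev']
  have h2 := h (lrev v) (lrev u) h1
  have h3 : hl w = - hl v - hl u := by
    rw [h1, hl_append, hl_lrev', hl_lrev']; ring
  rw [hl_lrev'] at h2
  omega

lemma Bd.mono {m' : ℤ} (h : Bd m w) (hm : m ≤ m') : Bd m' w := fun u v huv => by
  have := h u v huv
  omega

/-- bounds depend only on the signs -/
lemma Bd.signs (h : Bd m w) {w' : List (Bool × A')} (hs : w'.map Prod.fst = w.map Prod.fst) :
    Bd m w' := by
  intro u v huv
  have e1 : w = w.take u.length ++ w.drop u.length := (List.take_append_drop _ _).symm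
  have h1 := h _ _ e1
  have e2 : (w.take u.length).map Prod.fst = u.map Prod.fst := by
    rw [List.map_take, ← hs, huv, List.map_append, List.take_append_of_le_length (by simp)]
    simp
  unfold hl at h1 ⊢
  have e3 : (w.take u.length).map (fun q => if q.1 then (1 : ℤ) else -1) =
      u.map (fun q => if q.1 then (1 : ℤ) else -1) := by
    have := congrArg (List.map fun b => if b then (1 : ℤ) else -1) e2
    rw [List.map_map, List.map_map] at this
    exact this
  rw [e3] at h1
  exact h1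

end Bd

end Pool.Agent.MP42.GZ
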