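import Pool.Agent.MP42.GZ.GeoI
import Pool.Agent.MP42.GZ.LX

/-!
# The words of a circle in reading order (owner helper30, helper50)

The part of `GeoV` without boxes.  `circle_lv`: the word of a circle is, up to rotation and riders,
own tokens ++ words of the items in reading order.
-/

set_option autoImplicit false
set_option linter.unusedSectionVars false
set_option linter.unusedVariables false

namespace Pool.Agent.MP42.GZ

open Pool.Agent.MP42 Pool.Agent.MP42.U Pool.Agent.MP42.PL Pool.Agent.MP42.O3 Pool.Agent.MP42.O3.BM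
open Pool.Agent.MP42.EO

section Basic

variable {D : Type*} {M : BM D}

lemma lv_lrev {T : Type*} (V : T → B) (w : List (Bool × T)) : lv V (lrev w) = lrev (lv V w) := by
  unfold lv U.lrev
  rw [List.map_reverse, List.map_map, List.map_map]
  rfl

lemma lv_rw {T : Type*} (V : T → B) (c : Bool) (w : List (Bool × T)) :
    lv V (rw' c w) = rw' c (lv V w) := by
  unfold rw'
  split_ifs
  · rfl
  · exact lv_lrev V w

lemma tag_dirw (x : D) (c : Bool) (w : Wd) : tag x (dirw c w) = rw' c (tag x w) := by
  unfold dirw rw'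
  split_ifs
  · rfl
  · unfold tag bk U.lrev
    rw [List.map_reverse, List.map_map, List.map_map]
    rfl

/-- the values of the letters of an item -/
lemma lv_il {C α : Type*} {lk : C → LS} {lt : α → Bool} {V : D × ℕ → B}
    {V' : α ⊕ (C × ℕ) → B} {c : C} {x : D} {f : ℕ → ℕ} {st : LS} (hs : lk c = st)
    (h : ∀ n, (st = .far → n = 1) → (st = .near → n = 0) → (st = .even → n = 0 ∨ n = 1) →
      (st = .nn → n = 0 ∨ n = 2) → st ≠ .drop → V (x, f n) = V' (.inr (c, n))) :
    lv V (tag x (ilN f st)) = lv V' (il lk lt (.inr c)) := by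
  simp only [il]
  rw [hs]
  cases st
  · rfl
  · have h1 := h 1 (fun _ => rfl) (fun h => by simp at h) (fun h => by simp at h)
      (fun h => by simp at h) (by simp)
    simp [ilN, tag, lv, h1]
  · have h1 := h 0 (fun h => by simp at h) (fun _ => rfl) (fun h => by simp at h)
      (fun h => by simp at h) (by simp)
    simp [ilN, tag, lv, h1]
  · have h0 := h 0 (fun h => by simp at h) (fun h => by simp at h) (fun _ => Or.inl rfl)
      (fun h => by simp at h) (by simp)
    have h1 := h 1 (fun h => by simp at h) (fun h => by simp at h) (fun _ => Or.inr rfl)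
      (fun h => by simp at h) (by simp)
    simp [ilN, tag, lv, h0, h1]
  · have h0 := h 0 (fun h => by simp at h) (fun h => by simp at h) (fun h => by simp at h)
      (fun _ => Or.inl rfl) (by simp)
    have h1 := h 2 (fun h => by simp at h) (fun h => by simp at h) (fun h => by simp at h)
      (fun _ => Or.inr rfl) (by simp)
    simp [ilN, tag, lv, h0, h1]

/-- the values of the own tokens -/
lemma lv_ol {C α : Type*} {grp sw : C → Prop} {lk : C → LS} {V : D × ℕ → B}
    {V' : α ⊕ (C × ℕ) → B} {c : C} {x : D} {f : ℕ → ℕ} {st : LS} {s : Bool} (hs : lk c = st)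
    (hg : ¬ grp c) (hsw : sw c ↔ s = true)
    (h : ∀ n, V (x, f n) = V' (.inr (c, n))) :
    lv V (tag x (olN s f st)) = lv V' (ol grp sw lk c) := by
  unfold ol
  rw [hs]
  cases st
  · simp [olN, tag, lv, hg]
  · simp [olN, tag, lv, h]
  · simp [olN, tag, lv, h]
  · cases s
    · have hs' : ¬ sw c := fun h => by simpa using hsw.1 h
      simp [olN, tag, lv, hs', h]
    · have hs' : sw c := hsw.2 rfl
      simp [olN, tag, lv, hs', h]
  · simp [olN, tag, lv, h]

end Basic

section Rev

variable {A T : Type*}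

/-- reading direction of a list -/
def dl (c : Bool) (l : List A) : List A := if c then l else l.reverse

lemma lrev_flatMap (l : List A) (f : A → List (Bool × T)) :
    lrev (l.flatMap f) = l.reverse.flatMap fun a => lrev (f a) := by
  induction l with
  | nil => rfl
  | cons a l ih =>
    rw [List.flatMap_cons, lrev_append, ih, List.reverse_cons, List.flatMap_append]
    simp

lemma rw_flatMap (c : Bool) (l : List A) (f : A → List (Bool × T)) :
    rw' c (l.flatMap f) = (dl c l).flatMap fun a => rw' c (f a) := by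
  unfold rw' dl
  cases c
  · simp only [Bool.false_eq_true, if_false]
    exact lrev_flatMap l f
  · simp only [if_true]

lemma Rot.rw {w w' : List (Bool × T)} (h : Rot w w') (c : Bool) : Rot (rw' c w) (rw' c w') := by
  unfold rw'
  cases c
  · simp only [Bool.false_eq_true, if_false]
    exact h.lrv
  · simp only [if_true]
    exact h

lemma Rot.lv {w w' : List (Bool × T)} (h : Rot w w') (V : T → B) :
    Rot (U.lv V w) (U.lv V w') := h.map _

lemma rw_append (c : Bool) (w w' : List (Bool × T)) (h : w = [] ∨ w' = []) :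
    rw' c (w ++ w') = rw' c w ++ rw' c w' := by
  unfold rw'
  cases c
  · simp only [Bool.false_eq_true, if_false]
    rcases h with h | h <;> rw [h] <;> simp
  · simp only [if_true]

/-- own tokens at both ends -/
lemma rot_ends (c : Bool) (o1 o2 I : List (Bool × T)) (h : o1 = [] ∨ o2 = []) :
    Rot (rw' c (o1 ++ I ++ o2)) (rw' c (o1 ++ o2) ++ rw' c I) := by
  unfold rw'
  cases c
  · simp only [Bool.false_eq_true, if_false, lrev_append]
    rcases h with h | h <;> rw [h]
    · simp only [U.lrev_nil, List.append_nil]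
      exact Rot.refl _
    · simp only [U.lrev_nil, List.nil_append]
      exact Rot.mk _ _
  · simp only [if_true]
    rcases h with h | h <;> rw [h]
    · simp only [List.nil_append]
      exact Rot.mk _ _
    · simp only [List.append_nil]
      exact Rot.refl _

end Rev

/-! ## Insertions -/

/-- `w'` is `w` with inserted pairs (pop a, push a) -/
inductive Ins : List (Bool × B) → List (Bool × B) → Prop
  | nil : Ins [] []
  | cons (q : Bool × B) {w w' : List (Bool × B)} : Ins w w' → Ins (q :: w) (q :: w')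
  | ins (a : B) {w w' : List (Bool × B)} : Ins w w' → Ins w ((true, a) :: (false, a) :: w')

namespace Ins

variable {w w' u u' : List (Bool × B)}

lemma refl (w : List (Bool × B)) : Ins w w := by
  induction w with
  | nil => exact .nil
  | cons q w ih => exact .cons q ih

lemma append (h : Ins w w') (h' : Ins u u') : Ins (w ++ u) (w' ++ u') := by
  induction h with
  | nil => exact h'
  | cons q _ ih => exact .cons q ih
  | ins a _ ih => exact .ins a ih

lemma lrev (h : Ins w w') : Ins (lrev w) (lrev w') := by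
  have hc : ∀ (q : Bool × B) (v : List (Bool × B)), U.lrev (q :: v) = U.lrev v ++ [(!q.1, q.2)] := by
    intro q v
    unfold U.lrev
    simp
  induction h with
  | nil => exact .nil
  | cons q _ ih =>
    rw [hc, hc]
    exact ih.append (.cons _ .nil)
  | @ins a v v' _ ih =>
    rw [hc, hc, List.append_assoc]
    have h1 := ih.append (.ins a .nil : Ins [] ((true, a) :: (false, a) :: []))
    rw [List.append_nil] at h1
    exact h1

lemma hl (h : Ins w w') : U.hl w' = U.hl w := by
  induction h with
  | nil => rfl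
  | cons q _ ih => rw [hl_cons, hl_cons, ih]
  | ins a _ ih =>
    rw [hl_cons, hl_cons, ih]
    simp

/-- a stack without its top and with its top again -/
lemma push_tl (S : ℕ → B) : push (S 0) (U.tl S) = S := by
  funext j
  cases j <;> rfl

lemma run (h : Ins w w') : ∀ {S S' : ℕ → B}, Run w' S S' → Run w S S' := by
  induction h with
  | nil => exact fun h => h
  | @cons q v v' _ ih =>
    intro S S' h1
    obtain ⟨b, a⟩ := q
    cases b
    · exact ih h1
    · exact ⟨h1.1, ih h1.2⟩
  | @ins a v v' _ ih =>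
    intro S S' h1
    obtain ⟨h2, h3⟩ := h1
    rw [run_push, h2, push_tl] at h3
    exact ih h3

/-- prefixes -/
lemma pre (h : Ins w w') : ∀ {v v' : List (Bool × B)}, w' = v ++ v' → ∃ z z', w = z ++ z' ∧
    (U.hl v = U.hl z ∨ U.hl v = U.hl z + 1) := by
  induction h with
  | nil =>
    intro v v' h1
    obtain ⟨rfl, rfl⟩ := List.nil_eq_append_iff.1 h1
    exact ⟨[], [], rfl, Or.inl rfl⟩
  | @cons q x x' _ ih =>
    intro v v' h1
    rcases v with _ | ⟨p, v⟩
    · exact ⟨[], q :: x, rfl, Or.inl rfl⟩
    · rw [List.cons_append, List.cons.injEq] at h1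
      obtain ⟨rfl, h1⟩ := h1
      obtain ⟨z, z', h2, h3⟩ := ih h1
      refine ⟨q :: z, z', by rw [h2]; rfl, ?_⟩
      rw [hl_cons, hl_cons]
      rcases h3 with h3 | h3 <;> rw [h3]
      · exact Or.inl rfl
      · right; ring
  | @ins a x x' _ ih =>
    intro v v' h1
    rcases v with _ | ⟨p, _ | ⟨p', v⟩⟩
    · exact ⟨[], x, rfl, Or.inl rfl⟩
    · rw [List.cons_append, List.cons.injEq] at h1
      obtain ⟨rfl, h1⟩ := h1
      exact ⟨[], x, rfl, Or.inr (by simp)⟩
    · rw [List.cons_append, List.cons_append, List.cons.injEq, List.cons.injEq] at h1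
      obtain ⟨rfl, rfl, h1⟩ := h1
      obtain ⟨z, z', h2, h3⟩ := ih h1
      refine ⟨z, z', h2, ?_⟩
      rw [hl_cons, hl_cons]
      rcases h3 with h3 | h3 <;> rw [h3]
      · left; simp
      · right; simp; ring

lemma bd (h : Ins w w') {m : ℤ} (hb : Bd m w) : Bd (m + 1) w' := by
  intro v v' h1
  obtain ⟨z, z', h2, h3⟩ := h.pre h1
  have h4 := hb z z' h2
  rcases h3 with h3 | h3 <;> rw [h3] <;> constructor <;> linarith [h4.1, h4.2]

end Ins

/-! ## Constant values -/

/-- values which are not `k` stay on the stack -/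
lemma run_ne {w : List (Bool × B)} {k : B} : ∀ {S S' : ℕ → B}, Run w S S' →
    (∀ q ∈ w, q.2 = k) → ∀ j : ℕ, S j ≠ k → ∃ i : ℕ, (i : ℤ) = j - hl w ∧ S' i ≠ k := by
  induction w with
  | nil =>
    intro S S' h _ j hj
    have : S = S' := h
    subst this
    exact ⟨j, by simp, hj⟩
  | cons q w ih =>
    intro S S' h hk j hj
    obtain ⟨b, a⟩ := q
    have ha : a = k := hk _ (List.mem_cons_self ..)
    have hk' : ∀ q ∈ w, q.2 = k := fun q hq => hk q (List.mem_cons_of_mem _ hq)
    cases b
    · obtain ⟨i, h1, h2⟩ := ih (S := push a S) h hk' (j + 1) hj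
      refine ⟨i, ?_, h2⟩
      rw [hl_cons, h1]
      show ((j + 1 : ℕ) : ℤ) - hl w = j - (-1 + hl w)
      push_cast
      ring
    · obtain ⟨h1, h2⟩ := h
      rcases j with _ | j
      · exact absurd (h1.symm.trans ha) hj
      · obtain ⟨i, h3, h4⟩ := ih (S := U.tl S) h2 hk' j hj
        refine ⟨i, ?_, h4⟩
        rw [hl_cons, h3]
        show (j : ℤ) - hl w = ((j + 1 : ℕ) : ℤ) - (1 + hl w)
        push_cast
        ring

/-- values which are not `k` were on the stack -/
lemma run_ne' {w : List (Bool × B)} {k : B} : ∀ {S S' : ℕ → B}, Run w S S' →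
    (∀ q ∈ w, q.2 = k) → ∀ i : ℕ, S' i ≠ k → ∃ j : ℕ, (j : ℤ) = i + hl w ∧ S j ≠ k := by
  induction w with
  | nil =>
    intro S S' h _ j hj
    have : S = S' := h
    subst this
    exact ⟨j, by simp, hj⟩
  | cons q w ih =>
    intro S S' h hk i hi
    obtain ⟨b, a⟩ := q
    have ha : a = k := hk _ (List.mem_cons_self ..)
    have hk' : ∀ q ∈ w, q.2 = k := fun q hq => hk q (List.mem_cons_of_mem _ hq)
    cases b
    · obtain ⟨j, h1, h2⟩ := ih (S := push a S) h hk' i hi
      rcases j with _ | j
      · exact absurd ha h2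
      · refine ⟨j, ?_, h2⟩
        rw [hl_cons]
        show (j : ℤ) = i + (-1 + hl w)
        push_cast at h1
        linarith
    · obtain ⟨h1, h2⟩ := h
      obtain ⟨j, h3, h4⟩ := ih (S := U.tl S) h2 hk' i hi
      refine ⟨j + 1, ?_, h4⟩
      rw [hl_cons]
      show ((j + 1 : ℕ) : ℤ) = i + (1 + hl w)
      push_cast
      linarith

/-- **the stack of a closed walk with constant values is constant** -/
lemma run_cst {w : List (Bool × B)} {k : B} {S : ℕ → B} (h : Run w S S)
    (hk : ∀ q ∈ w, q.2 = k) (ht : hl w = 2 ∨ hl w = -2) (j : ℕ) : S j = k := by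
  induction j using Nat.strong_induction_on with
  | _ j ih =>
    by_contra hj
    rcases ht with ht | ht
    · obtain ⟨i, h1, h2⟩ := run_ne h hk j hj
      rw [ht] at h1
      exact h2 (ih i (by omega))
    · obtain ⟨i, h1, h2⟩ := run_ne' h hk j hj
      rw [ht] at h1
      exact h2 (ih i (by omega))

lemma push_cst (k : B) : push k (fun _ => k) = fun _ => k := by
  funext j
  cases j <;> rfl

lemma Ins.cst_aux {w w' : List (Bool × B)} (h : Ins w w') {k : B} : ∀ {S' : ℕ → B},
    Run w' (fun _ => k) S' → (∀ q ∈ w, q.2 = k) → ∀ q ∈ w', q.2 = k := by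
  induction h with
  | nil => exact fun _ h => h
  | @cons q v v' _ ih =>
    intro S' h1 hk p hp
    have hq : q.2 = k := hk _ (List.mem_cons_self ..)
    have hk' : ∀ q ∈ v, q.2 = k := fun q hq => hk q (List.mem_cons_of_mem _ hq)
    rcases List.mem_cons.1 hp with hp' | hp'
    · rw [hp']; exact hq
    · obtain ⟨b, a⟩ := q
      cases b
      · rw [run_push, show a = k from hq, push_cst] at h1
        exact ih h1 hk' p hp'
      · exact ih h1.2 hk' p hp'
  | @ins a v v' _ ih =>
    intro S' h1 hk p hp
    obtain ⟨h2, h3⟩ := h1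
    have ha : a = k := h2
    have h4 : U.tl (fun _ => k) = fun _ : ℕ => k := rfl
    rw [run_push, ha, h4, push_cst] at h3
    rcases List.mem_cons.1 hp with rfl | hp
    · exact ha
    · rcases List.mem_cons.1 hp with rfl | hp
      · exact ha
      · exact ih h3 hk p hp

/-- **constant values also on the inserted pairs** -/
theorem Ins.cst {w w' : List (Bool × B)} (h : Ins w w') {k : B} (hk : ∀ q ∈ w, q.2 = k)
    (ht : U.hl w = 2 ∨ U.hl w = -2) (hC : Cl (fun b : B => b) w') : ∀ q ∈ w', q.2 = k := by
  obtain ⟨S, h1, -⟩ := hC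
  have e : lv (fun b : B => b) w' = w' := by
    unfold lv
    exact List.map_id _
  rw [e] at h1
  have h2 := run_cst (h.run h1) hk ht
  have h3 : S = fun _ => k := funext h2
  rw [h3] at h1
  exact h.cst_aux h1 hk

/-- closed walks without the inserted pairs -/
theorem Ins.cl {w w' : List (Bool × B)} (h : Ins w w') (hC : Cl (fun b : B => b) w') :
    Cl (fun b : B => b) w := by
  obtain ⟨S, h1, h2⟩ := hC
  have e : ∀ v : List (Bool × B), lv (fun b : B => b) v = v := fun v => by
    unfold lv
    exact List.map_id _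
  rw [e] at h1
  exact ⟨S, by rw [e]; exact h.run h1, h2⟩

/-! ## Words of tokens -/

section

variable {A : Type*} {V : A → B}

lemma Ins.rw {w w' : List (Bool × B)} (h : Ins w w') (c : Bool) : Ins (rw' c w) (rw' c w') := by
  unfold rw'
  split_ifs
  · exact h
  · exact h.lrev

lemma Ins.flat {X : Type*} {f g : X → List (Bool × A)} (l : List X)
    (h : ∀ x ∈ l, Ins (lv V (f x)) (lv V (g x))) :
    Ins (lv V (l.flatMap f)) (lv V (l.flatMap g)) := by
  induction l with
  | nil => exact .nil
  | cons x l ih =>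
    rw [List.flatMap_cons, List.flatMap_cons, lv_append, lv_append]
    exact (h x (List.mem_cons_self ..)).append (ih fun y hy => h y (List.mem_cons_of_mem _ hy))

end

/-- a rider: a pair (pop, push) with the same value -/
def Rider {A : Type*} (V : A → B) (w : List (Bool × A)) : Prop :=
  ∃ p q, w = [(true, p), (false, q)] ∧ V p = V q

lemma Rider.ins {A : Type*} {V : A → B} {w : List (Bool × A)} (h : Rider V w) :
    Ins [] (lv V w) := by
  obtain ⟨p, q, rfl, h⟩ := h
  rw [lv_cons, lv_cons, lv_nil, ← h]
  exact .ins _ .nil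

lemma rider_of_rw {A : Type*} {V : A → B} {c : Bool} {w : List (Bool × A)}
    (h : Rider V (rw' c w)) : Rider V w := by
  unfold rw' at h
  split_ifs at h
  · exact h
  · obtain ⟨p, q, h1, h2⟩ := h
    have h3 : w = U.lrev [(true, p), (false, q)] := by rw [← h1, lrev_lrev']
    exact ⟨q, p, by rw [h3]; rfl, h2.symm⟩

variable {D : Type*} {M : BM D} [Finite D] {T : RT M.E} {rc : D → Rc D} {lw lw0 hw : D → Wd}
  {V : D × ℕ → B}

/-- the items at a corner with riders -/
lemma ins_itW {y : D} (h : lw y = lw0 y ∨ (lw0 y = [] ∧ Rider V (tag y (lw y)))) :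
    Ins (lv V (itW M T rc lw0 hw y)) (lv V (itW M T rc lw hw y)) := by
  unfold itW
  rw [lv_append, lv_append (w := tag y (sL lw y))]
  refine Ins.append ?_ (Ins.refl _)
  unfold sL
  rcases h with h | ⟨h1, h2⟩
  · rw [h]; exact Ins.refl _
  · rw [h1, tag_nil]
    exact h2.ins

/-- **the items of a circle with riders** -/
theorem ins_items {w : D} (h : ∀ y, M.E.SameCycle w y →
    lw y = lw0 y ∨ (lw0 y = [] ∧ Rider V (tag y (lw y)))) :
    Ins (lv V ((cir M w).flatMap (itW M T rc lw0 hw)))
      (lv V ((cir M w).flatMap (itW M T rc lw hw))) :=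
  Ins.flat _ fun y hy => ins_itW (h y (mem_cirE.1 hy))

section Main

variable {D : Type*} {M : BM D} [Finite D]
variable {T : RT M.E} {cl : D → Prop} {rc : D → Rc D} {mw lw lw0 gw ow ex : D → Wd}
  {Lt : D → Prop} {hw cw' : D → Wd} {X : D → Prop}

/-- the own tokens of a circle -/
noncomputable def o1 (M : BM D) (T : RT M.E) (rc : D → Rc D) (ow cw' : D → Wd) (w : D) :
    List (Bool × (D × ℕ)) := tag w (s1 T rc ow cw' w)

/-- the own tokens of a circle -/
noncomputable def o2 (M : BM D) (T : RT M.E) (rc : D → Rc D) (cw' : D → Wd) (w : D) :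
    List (Bool × (D × ℕ)) := tag (M.E.symm w) (s2 T rc cw' (M.E.symm w))

/-- the own tokens of a circle which is not the root of the tree -/
lemma own_eq (H : LW M T cl rc mw lw gw ow ex hw cw') {w : D} (hw' : T.G w) (hb : T.ow w = w)
    (hd : T.dep w ≠ 0) : (o1 M T rc ow cw' w = [] ∨ o2 M T rc cw' w = []) ∧
      o1 M T rc ow cw' w ++ o2 M T rc cw' w = tag (rc w).cc (cw' w) := by
  classical
  have hs : M.E.SameCycle w (M.E.symm w) := by
    rw [← Equiv.Perm.sameCycle_apply_right, Equiv.apply_symm_apply]
  have e1 : rc (M.E.symm w) = rc w := H.rc_cyc hs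
  have e2 : cw' (M.E.symm w) = cw' w := cyc_const H.cwE hs
  have hp := (H.ok w hw' hd).p
  unfold PlOK at hp
  by_cases h : (rc w).pl = .bef
  · rw [h] at hp
    have hcc : (rc w).cc = M.E.symm w := by
      rw [Equiv.eq_symm_apply, ← hp.2.1, hb]
    have h1 : o1 M T rc ow cw' w = [] := by
      unfold o1 s1
      rw [if_neg fun h' => absurd (h'.2.2.1 h) (by decide), if_neg hd]
      rfl
    have h2 : o2 M T rc cw' w = tag (rc w).cc (cw' w) := by
      unfold o2 s2
      rw [if_pos, e2, hcc]
      refine ⟨by rw [RT.dep_cong hs]; exact hd, by rw [e1]; exact hcc, by rw [e1, h]; simp⟩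
    rw [h1, h2]
    exact ⟨Or.inl rfl, rfl⟩
  · have hcc : (rc w).cc = w := by
      rcases hpl : (rc w).pl with _ | _ | _
      · rw [hpl] at hp
        have := hp.2.1
        rw [hb] at this
        exact this.symm
      · exact absurd hpl h
      · rw [hpl] at hp
        have := hp.2.1
        rw [hb] at this
        exact this.symm
    have h1 : o1 M T rc ow cw' w = tag (rc w).cc (cw' w) := by
      unfold o1 s1
      rw [if_pos, hcc]
      exact ⟨hd, hcc, by simp [h]⟩
    have h2 : o2 M T rc cw' w = [] := by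
      unfold o2 s2
      rw [if_neg]
      · rfl
      · intro h'
        have h3 := h'.2.2.2 rfl
        rw [e1] at h3
        exact h h3
    rw [h1, h2, List.append_nil]
    exact ⟨Or.inr rfl, rfl⟩

lemma own_root (H : LW M T cl rc mw lw gw ow ex hw cw') {w : D} (hw' : T.G w)
    (hd : T.dep w = 0) : o1 M T rc ow cw' w = tag w (ow w) ∧ o2 M T rc cw' w = [] := by
  classical
  have hs : M.E.SameCycle w (M.E.symm w) := by
    rw [← Equiv.Perm.sameCycle_apply_right, Equiv.apply_symm_apply]
  refine ⟨?_, ?_⟩
  · unfold o1 s1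
    rw [if_neg fun h' => h'.1 hd, if_pos hd]
  · unfold o2 s2
    rw [if_neg fun h' => h'.1 (by rw [RT.dep_cong hs]; exact hd)]
    rfl

/-- **the word of a circle in reading order**, without riders -/
theorem circle_lv0 (H : LW M T cl rc mw lw gw ow ex hw cw') {w : D} (hw' : T.G w)
    (hb : T.ow w = w) (c : Bool) (V : D × ℕ → B) :
    Rot (lv V (rw' c ((cir M w).flatMap fun y =>
        tag y ((ex (M.μ y)).reverse ++ (asm M y (mw y) (ow y) (gw y) ++ ex y)))))
      (lv V (rw' c (o1 M T rc ow cw' w ++ o2 M T rc cw' w)) ++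
        lv V (rw' c ((cir M w).flatMap (itW M T rc lw hw)))) := by
  have h1 := circle_word H hw' hb
  have h2 : (o1 M T rc ow cw' w = [] ∨ o2 M T rc cw' w = []) := by
    by_cases hd : T.dep w = 0
    · exact Or.inr (own_root H hw' hd).2
    · exact (own_eq H hw' hb hd).1
  have h3 := ((h1.rw c).trans (rot_ends c _ _ _ h2)).lv V
  rw [lv_append] at h3
  exact h3

/-- **the word of a circle in reading order**; `lw0` = the letters without riders -/
theorem circle_lv (H : LW M T cl rc mw lw gw ow ex hw cw')
    (K : TD M.E M.τ T X (dgL rc)) (hz : ∀ x, T.G x → ¬ Lt x → lw0 x = []) {w : D} (hw' : T.G w)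
    (hb : T.ow w = w) (c : Bool) (V : D × ℕ → B) (hr : ∀ y, M.E.SameCycle w y →
      lw y = lw0 y ∨ (lw0 y = [] ∧ Rider V (tag y (lw y)))) :
    ∃ u, Rot (lv V (rw' c ((cir M w).flatMap fun y =>
        tag y ((ex (M.μ y)).reverse ++ (asm M y (mw y) (ow y) (gw y) ++ ex y))))) u ∧
      Ins (lv V (rw' c (o1 M T rc ow cw' w ++ o2 M T rc cw' w)) ++
        (dl c (K.ilist Lt w)).flatMap fun i => lv V (rw' c (iw K lw0 hw i))) u := by
  refine ⟨_, circle_lv0 H hw' hb c V, ?_⟩
  have h4 : (dl c (K.ilist Lt w)).flatMap (fun i => lv V (rw' c (iw K lw0 hw i))) =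
      lv V (rw' c ((K.ilist Lt w).flatMap (iw K lw0 hw))) := by
    rw [rw_flatMap]
    unfold lv
    rw [List.map_flatMap]
  rw [h4, ilist_words H K hz hw']
  refine Ins.append (Ins.refl _) ?_
  rw [lv_rw, lv_rw]
  exact (ins_items hr).rw c

end Main

end Pool.Agent.MP42.GZ
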