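import Pool.Agent.MP42.GZ.GeoS
import Pool.Agent.MP42.GZ.GeoVa

/-!
# The abstract solution and the states of a level: definitions (owner helper30, helper48)

`Mch`: the abstract solution and the geometric data belong together; `vp`: the values of the tokens of
the abstract solution.
-/

set_option autoImplicit false
set_option linter.unusedSectionVars false
set_option linter.unusedVariables false

namespace Pool.Agent.MP42.GZ

open Pool.Agent.MP42 Pool.Agent.MP42.U Pool.Agent.MP42.PL Pool.Agent.MP42.O3 Pool.Agent.MP42.O3.BM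
open Pool.Agent.MP42.EO

variable {D : Type*} {M : BM D} [Finite D]
variable {W : D → Prop} {T : RT M.E} {cl : D → Prop} {rc : D → Rc D} {J : Type*} {x0 : D}
  {X : D → Prop}

/-- the host corner of a star -/
abbrev yc (S : Bxs M W T cl rc J) (j : J) : D := cn M (S.v j) (LKd.q (S.P j) (S.t j) (S.o j)).hi

/-- the port corner of a star -/
abbrev xc (S : Bxs M W T cl rc J) (j : J) : D := cn M (S.v j) (LKd.q (S.P j) (S.t j) (S.o j)).tn

/-- the abstract solution and the geometric data -/
structure Mch (S : Bxs M W T cl rc J) (K : TD M.E M.τ T X (dgL rc))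
    (lk : K.ct.Ci → LS) (lt : K.ct.Pt → Bool) (y x : J → K.ct.Pt) : Prop where
  lk : ∀ z, lk z = S.lk (pr z.1)
  o : ∀ j, lt (y j) = S.o j
  port : ∀ j, lt (x j) = true
  y : ∀ j, (y j).1 = Sum.inl (yc S j)
  x : ∀ j, (x j).1 = Sum.inl (xc S j)

open Classical in
/-- the values of the tokens of the abstract solution; `tk` = the tokens of the own links -/
noncomputable def vp (S : Bxs M W T cl rc J) {K : TD M.E M.τ T X (dgL rc)}
    (tk : K.ct.Ci → ℕ → D × ℕ) (V : D × ℕ → B) : K.ct.Pt ⊕ (K.ct.Ci × ℕ) → B
  | .inl p => V (pr p.1, if ∃ j, pr p.1 = yc S j then 1 else 2)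
  | .inr c => V (tk c.1 c.2)

end Pool.Agent.MP42.GZ
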