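import Pool.Agent.MP42.GZ.GeoP
import Pool.Agent.MP42.GZ.GeoM
import Pool.Agent.MP42.GZ.DkZStars

/-!
# From the choice of docks to the states of a level, restricted diagonal links (owner helper92)

`Dkz.bxs`: link states, boxes at links, full stars and harmless docks of a level; `Dkz.cov`: every
missing component has exactly one box corner; `Dkz.nx_lt`: no diagonals at the letters; `Dkz.mch`:
the abstract solution and the geometric data.
-/

set_option autoImplicit false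
set_option linter.unusedSectionVars false
set_option linter.unusedVariables false

namespace Pool.Agent.MP42.GZ

open Pool.Agent.MP42 Pool.Agent.MP42.U Pool.Agent.MP42.PL Pool.Agent.MP42.O3 Pool.Agent.MP42.O3.BM
open Pool.Agent.MP42.EO

variable {D : Type*} {M : BM D} {W : D → Prop} {T : RT M.E} {cl : D → Prop}
  {rc : D → Rc D} {x0 : D} {X : D → Prop}

lemma StL.congr {y y' v : D} (e : rc y = rc y') (h : StL M T cl rc y v) :
    StL M T cl rc y' v := by
  obtain ⟨h1, h2, h3, h4⟩ := h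
  rw [e] at h2
  exact ⟨h1, h2, h3, h4⟩

open Classical in
/-- links with a box which is not a star -/
noncomputable def Dkz.wz (K : Dkz M W T cl rc) (y : D) : Option Bool :=
  if K.P y ∧ ¬ ∃ v, StL M T cl rc y v then some (decide (T.G (M.ν (M.ν (rc y).hc)))) else none

section

variable [Fintype D] (K : Dkz M W T cl rc)

/-- full stars of one vertex -/
lemma Dkz.st_inj {v v' : D} (h : K.St v) (h' : K.St v') (hs : SV M v v') : v = v' := by
  rcases b3_cases (K.st_lab h) (K.st_lab h') hs with e | e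
  · exact e.symm
  · exfalso
    have h3 := K.st_g3 h
    have e' : v' = M.ν (M.ν v) := e
    rw [← e'] at h3
    rcases K.st_k h' with k | k
    · exact h3.2 k.2.1
    · exact k.1 h3.1

/-- full stars and harmless docks -/
lemma Dkz.st_hd {b v : D} (h : K.H b) (h' : K.St v) : ¬ SV M v b := by
  intro hs
  have hb := K.hH b h
  have h3 := K.st_g3 h'
  have h4 := K.st_g4 h'
  rcases b3_cases (K.st_lab h') hb.lab hs with e | e
  · subst e
    rcases hb.k with ⟨-, -, -, k, -⟩ | ⟨-, -, -, k, -⟩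
    · exact k h3.1
    · exact k h4.1
  · have e' : b = M.ν (M.ν v) := e
    rw [← e'] at h3
    rcases hb.k with ⟨-, k, -⟩ | ⟨k, -⟩
    · exact h3.2 k
    · exact k h3.1

/-- a main link at a full star -/
lemma Dkz.st_link (L : LI M W x0 T cl rc) {v y : D} (h : K.St v) (hG : T.G y) (hd : T.dep y ≠ 0)
    (hm : mk' M (rc y)) (hs : SV M v (rc y).hc) :
    ∃ y', K.P y' ∧ StL M T cl rc y' v ∧ rc y' = rc y := by
  rcases h with h | ⟨y', h1, h2⟩
  · exact absurd ⟨y, hG, hd, mk_uses.1 hm, hs⟩ (K.hN v h).un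
  · refine ⟨y', h1, h2, ?_⟩
    have hp := K.hP y' h1
    exact (Bxs.rc_c L (L.uniq y' y hp.G hp.d (hp.uses L) hG hd (mk_uses.1 hm)
      (h2.sv.symm.trans hs))).symm

/-- the kinds at a full star -/
lemma Dkz.st_kd (L : LI M W x0 T cl rc) {v y : D} (h : K.St v) (hG : T.G y) (hd : T.dep y ≠ 0)
    (hm : mk' M (rc y)) (hs : SV M v (rc y).hc) :
    ((rc y).kd = .m3 ∧ (rc y).hc = v ∧ T.G v) ∨ ((rc y).kd = .m4 ∧ (rc y).hc = M.ν v ∧ ¬ T.G v) := by
  obtain ⟨y', -, h2, e⟩ := K.st_link L h hG hd hm hs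
  rw [← e]
  rcases h2.k with ⟨k1, k2, k3, -⟩ | ⟨k1, k2, k3, -⟩
  · exact Or.inl ⟨k1, k2, k3⟩
  · exact Or.inr ⟨k1, k2, k3⟩

open Classical in
/-- **the states of a level** -/
noncomputable def Dkz.bxs (L : LI M W x0 T cl rc) (lk : D → LS) (lkE : ∀ x, lk (M.E x) = lk x)
    (hnn : ∀ y, T.G y → T.dep y ≠ 0 → lk y = .nn → (rc y).kd = .real ∨ (rc y).kd = .root)
    (t o : {v : D // K.St v} → Bool) : Bxs M W T cl rc {v : D // K.St v} where
  lk := lk
  lkE := lkE
  wz := K.wz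
  wzE x := by
    have e : rc (M.E x) = rc x := L.rE x
    have e1 : (K.P (M.E x) ∧ ¬ ∃ v, StL M T cl rc (M.E x) v) ↔
        (K.P x ∧ ¬ ∃ v, StL M T cl rc x v) := by
      rw [K.PE]
      refine and_congr_right fun _ => not_congr (exists_congr fun v => ?_)
      exact ⟨fun h => h.congr e, fun h => h.congr e.symm⟩
    unfold Dkz.wz
    by_cases h : K.P x ∧ ¬ ∃ v, StL M T cl rc x v
    · rw [if_pos h, if_pos (e1.2 h), e]
    · rw [if_neg h, if_neg (fun h' => h (e1.1 h'))]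
  v j := j.1
  P j := decide (T.G j.1)
  t := t
  o := o
  H := K.H
  vlab j := K.st_lab j.2
  vh j := by
    by_cases h : T.G j.1
    · rw [if_pos (by simpa using h)]
      rcases K.st_k j.2 with k | k
      · refine ⟨h, ?_⟩
        show cl j.1 ↔ _
        simpa [h] using k.2.1
      · exact absurd h k.1
    · rw [if_neg (by simpa using h)]
      rcases K.st_k j.2 with k | k
      · exact absurd k.1 h
      · refine ⟨k.2.1, ?_⟩
        show cl (M.ν j.1) ↔ _
        have := k.2.2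
        simpa [h] using this
  vb j := by
    by_cases h : T.G j.1
    · rw [if_pos (by simpa using h)]
      rcases K.st_k j.2 with k | k
      · exact k.2.2
      · exact absurd h k.1
    · rw [if_neg (by simpa using h)]
      exact h
  v2 j := K.st_g3 j.2
  v3 j := K.st_g4 j.2
  vw4 j := by
    rcases j.2 with h | ⟨y, h1, h2⟩
    · exact (K.hN _ h).w4
    · have hp := K.hP y h1
      intro z hz
      exact L.w4 y hp.G hp.d (hp.mn L) z (h2.sv.symm.trans hz)
  vu j y h1 h2 h3 h4 := by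
    rcases K.st_kd L j.2 h1 h2 h3 h4 with ⟨k1, -, k2⟩ | ⟨k1, -, k2⟩
    · rw [if_pos (by simpa using k2)]; exact k1
    · rw [if_neg (by simpa using k2)]; exact k1
  inj j j' h := Subtype.ext (K.st_inj j.2 j'.2 h)
  hlab b h := (K.hH b h).lab
  hk b h := by
    rcases (K.hH b h).k with ⟨k1, k2, k3, k4, k5, -⟩ | ⟨k1, k2, k3, k4, -⟩
    · exact Or.inl ⟨k1, k2, k3, k4, k5.1, k5.2⟩
    · exact Or.inr ⟨k1, k2.1, k2.2, k3.1, k3.2, k4⟩
  hw4 b z h hz := (K.hH b h).w4 z hz
  hu b y h h1 h2 h3 h4 := (K.hH b h).un ⟨y, h1, h2, mk_uses.1 h3, h4⟩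
  hinj b b' h h' hs := (K.hH b h).inj (K.hH b' h') hs
  hvj b j h := K.st_hd h j.2
  wB y h1 h2 h3 := by
    have h4 : K.P y ∧ ¬ ∃ v, StL M T cl rc y v := by
      by_contra h4
      apply h3
      unfold Dkz.wz
      rw [if_neg h4]
    have hp := K.hP y h4.1
    refine ⟨hp.m, hp.B, hp.n, fun j hs => ?_⟩
    obtain ⟨y', -, h5, e⟩ := K.st_link L j.2 h1 h2 hp.m hs
    exact h4.2 ⟨j.1, h5.congr e⟩
  wk y z h1 h2 h3 := by
    have h4 : K.P y ∧ ¬ ∃ v, StL M T cl rc y v := by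
      by_contra h4
      unfold Dkz.wz at h3
      rw [if_neg h4] at h3
      exact absurd h3 (by simp)
    have hz : z = decide (T.G (M.ν (M.ν (rc y).hc))) := by
      unfold Dkz.wz at h3
      rw [if_pos h4] at h3
      exact (Option.some_injective _ h3).symm
    have hp := K.hP y h4.1
    have hr := L.ok y h1 h2
    have hc4 := hr.c4
    have hB := hp.B
    have hn := hp.n
    have e4 : M.ν (M.ν (M.ν (M.ν (rc y).hc))) = (rc y).hc := M.n4 _ hB
    have eμ : M.μ (rc y).hc = M.ν (M.ν (M.ν (rc y).hc)) := μ_4 hB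
    unfold C4 at hc4
    refine ⟨fun e => ?_, fun e => ?_, fun e => ?_, fun e => ?_⟩
    · have hb : bas M (rc y) = (rc y).hc := by
        unfold bas kap; rw [e]; rfl
      have hx : bxl M (rc y) = M.ν (rc y).hc := by
        unfold bxl kap; rw [e]; rfl
      rw [hx] at hn
      obtain ⟨g1, g2⟩ := hc4.1 e
      rw [hb]
      show T.G (M.ν (M.ν (M.ν (rc y).hc))) ∧ ¬ cl (M.ν (M.ν (M.ν (rc y).hc)))
      rw [← eμ]
      exact ⟨g1, fun h => hn (g2 h)⟩
    · have hb : bas M (rc y) = M.μ (rc y).hc := by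
        unfold bas kap; rw [e]; rfl
      have hx : bxl M (rc y) = M.μ (rc y).hc := by
        unfold bxl kap; rw [e]; rfl
      rw [hx] at hn
      obtain ⟨g1, g2⟩ := hc4.2 e
      rw [hb]
      show T.G (M.ν (M.ν (M.μ (rc y).hc))) ∧ cl (M.ν (M.ν (M.μ (rc y).hc)))
      rw [ν_μ]
      exact ⟨g1, by_contra fun h => hn (g2 h)⟩
    · have hb : bas M (rc y) = (rc y).hc := by
        unfold bas kap; rw [e]; rfl
      rw [hb]
      show (z = true → T.G (M.ν (M.ν (rc y).hc)) ∧ cl (M.ν (M.ν (rc y).hc))) ∧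
        (z = false → ¬ T.G (M.ν (M.ν (rc y).hc)))
      rw [hz]
      refine ⟨fun h => ?_, fun h => by simpa using h⟩
      have h5 : T.G (M.ν (M.ν (rc y).hc)) := by simpa using h
      exact ⟨h5, by_contra fun h6 => h4.2 ⟨_, StL.of3 L hp e h5 h6⟩⟩
    · have hb : bas M (rc y) = M.μ (rc y).hc := by
        unfold bas kap; rw [e]; rfl
      rw [hb]
      show (z = true → T.G (M.ν (M.ν (M.ν (M.μ (rc y).hc)))) ∧
          ¬ cl (M.ν (M.ν (M.ν (M.μ (rc y).hc))))) ∧
        (z = false → ¬ T.G (M.ν (M.ν (M.ν (M.μ (rc y).hc)))))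
      rw [ν_μ, hz]
      refine ⟨fun h => ?_, fun h => by simpa using h⟩
      have h5 : T.G (M.ν (M.ν (rc y).hc)) := by simpa using h
      exact ⟨h5, fun h6 => h4.2 ⟨_, StL.of4 L hp e h5 h6⟩⟩
  leg := hnn

end

section

variable [Fintype D] (K : Dkz M W T cl rc) (L : LI M W x0 T cl rc) (lk : D → LS)
    (lkE : ∀ x, lk (M.E x) = lk x)
    (hnn : ∀ y, T.G y → T.dep y ≠ 0 → lk y = .nn → (rc y).kd = .real ∨ (rc y).kd = .root)
    (t o : {v : D // K.St v} → Bool)

/-- a selected link has a box -/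
lemma Dkz.pbox (hWE : ∀ x, W (M.E x) ↔ W x) {y : D} (h : K.P y) :
    ∃ κ st, (K.bxs L lk lkE hnn t o).Vd (bas M (rc y)) κ st ∧ κ.bx = true ∧
      Cmp M W T.G (bxl M (rc y)) (cn M (bas M (rc y)) (κ.bi st)) := by
  classical
  set S := K.bxs L lk lkE hnn t o with hS
  have hp := K.hP y h
  have hM : S.IsM (bas M (rc y)) y := ⟨hp.G, hp.d, hp.m, rfl⟩
  have hw := L.w4 y hp.G hp.d (hp.mn L)
  have hsb : SV M (rc y).hc (bas M (rc y)) := sv_bas _
  have hsx : SV M (rc y).hc (bxl M (rc y)) := by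
    unfold bxl
    split_ifs
    · exact SV.nu _
    · exact SV.mu _
  have hrf : Cmp M W T.G (bxl M (rc y)) (bxl M (rc y)) := Cmp.refl (hw _ hsx) hp.n
  refine ⟨S.κ y, S.lk y, Or.inl ⟨y, hM, rfl, rfl⟩, ?_⟩
  by_cases hst : ∃ v, StL M T cl rc y v
  · obtain ⟨v, hv⟩ := hst
    have hj : K.St v := Or.inr ⟨y, h, hv⟩
    have hs : SV M (S.v ⟨v, hj⟩) (bas M (rc y)) := hv.sv.trans hsb
    obtain ⟨e1, e2, -⟩ := S.isM_star L hM hs
    rw [e2]
    refine ⟨rfl, ?_⟩
    rw [e1]
    show Cmp M W T.G _ (cn M v (if decide (T.G v) then 1 else 0))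
    rcases hv.k with ⟨k1, k2, k3, -⟩ | ⟨k1, k2, k3, -⟩
    · have hx : bxl M (rc y) = M.ν (rc y).hc := by
        unfold bxl kap; rw [k1]; rfl
      rw [if_pos (by simpa using k3)]
      show Cmp M W T.G _ (M.ν v)
      rw [← k2, ← hx]
      exact hrf
    · have hx : bxl M (rc y) = M.μ (rc y).hc := by
        unfold bxl kap; rw [k1]; rfl
      rw [if_neg (by simpa using k3)]
      show Cmp M W T.G _ v
      have e : v = bxl M (rc y) := by rw [hx, k2, μ_ν]
      rw [e]
      exact hrf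
  · have hz : S.wz y = some (decide (T.G (M.ν (M.ν (rc y).hc)))) := by
      show K.wz y = _
      unfold Dkz.wz
      rw [if_pos ⟨h, hst⟩]
    have hno : ∀ j, ¬ SV M (S.v j) (rc y).hc := (S.wB y hp.G hp.d (by rw [hz]; simp)).2.2.2
    have hinf : S.inf y = .w (decide (T.G (M.ν (M.ν (rc y).hc)))) := by
      rcases S.inf_not hno with ⟨h1, -⟩ | ⟨z, h1, h2⟩
      · rw [hz] at h1; exact absurd h1 (by simp)
      · rw [hz] at h1
        rw [h2, Option.some_injective _ h1]
    rcases gd_info hWE L hp rfl with ⟨e, -, -, -, hx, -⟩ | ⟨e, -, -, -, hx, -⟩ |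
      ⟨e, -, -, -, hx, hc⟩ | ⟨e, -, -, -, hx, hc⟩
    · have hκ : S.κ y = .w 0 (decide (T.G (M.ν (M.ν (rc y).hc)))) := by
        unfold Bxs.κ kap; rw [e, hinf]
      have hb : bas M (rc y) = (rc y).hc := by
        unfold bas kap; rw [e]; rfl
      rw [hκ, hb]
      refine ⟨rfl, ?_⟩
      have hbi : (LKd.w 0 (decide (T.G (M.ν (M.ν (rc y).hc))))).bi (S.lk y) = 1 := by
        simp [LKd.bi]
      rw [hbi]
      show Cmp M W T.G _ (M.ν (rc y).hc)
      rw [← hx]
      exact hrf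
    · have hκ : S.κ y = .w 1 (decide (T.G (M.ν (M.ν (rc y).hc)))) := by
        unfold Bxs.κ kap; rw [e, hinf]
      have hb : bas M (rc y) = M.μ (rc y).hc := by
        unfold bas kap; rw [e]; rfl
      rw [hκ, hb]
      refine ⟨rfl, ?_⟩
      have hbi : (LKd.w 1 (decide (T.G (M.ν (M.ν (rc y).hc))))).bi (S.lk y) = 0 := by
        simp [LKd.bi]
      rw [hbi]
      show Cmp M W T.G _ (M.μ (rc y).hc)
      rw [← hx]
      exact hrf
    · have hκ : S.κ y = .w 2 (decide (T.G (M.ν (M.ν (rc y).hc)))) := by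
        unfold Bxs.κ kap; rw [e, hinf]
      have hb : bas M (rc y) = (rc y).hc := by
        unfold bas kap; rw [e]; rfl
      rw [hκ, hb]
      refine ⟨rfl, ?_⟩
      by_cases h3 : S.lk y = .drop ∧ decide (T.G (M.ν (M.ν (rc y).hc))) = false
      · have hbi : (LKd.w 2 (decide (T.G (M.ν (M.ν (rc y).hc))))).bi (S.lk y) = 2 := by
          unfold LKd.bi
          exact if_pos ⟨h3.1, h3.2, rfl⟩
        rw [hbi]
        show Cmp M W T.G _ (M.ν (M.ν (rc y).hc))
        have h4 : ¬ T.G (M.ν (M.ν (rc y).hc)) := by simpa using h3.2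
        rcases hc with hc | hc
        · exact absurd hc h4
        · rw [hx]; exact hc.2
      · have hbi : (LKd.w 2 (decide (T.G (M.ν (M.ν (rc y).hc))))).bi (S.lk y) = 1 := by
          unfold LKd.bi
          exact (if_neg (fun h4 => h3 ⟨h4.1, h4.2.1⟩)).trans
            ((if_neg (fun h4 => absurd h4.2.2 (by decide))).trans (if_pos (Or.inr rfl)))
        rw [hbi]
        show Cmp M W T.G _ (M.ν (rc y).hc)
        rw [← hx]
        exact hrf
    · have hκ : S.κ y = .w 3 (decide (T.G (M.ν (M.ν (rc y).hc)))) := by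
        unfold Bxs.κ kap; rw [e, hinf]
      have hb : bas M (rc y) = M.μ (rc y).hc := by
        unfold bas kap; rw [e]; rfl
      rw [hκ, hb]
      refine ⟨rfl, ?_⟩
      by_cases h3 : S.lk y = .drop ∧ decide (T.G (M.ν (M.ν (rc y).hc))) = false
      · have hbi : (LKd.w 3 (decide (T.G (M.ν (M.ν (rc y).hc))))).bi (S.lk y) = 3 := by
          unfold LKd.bi
          exact (if_neg (fun h4 => absurd h4.2.2 (by decide))).trans (if_pos ⟨h3.1, h3.2, rfl⟩)
        rw [hbi]
        show Cmp M W T.G _ (M.ν (M.ν (M.ν (M.μ (rc y).hc))))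
        rw [ν_μ]
        have h4 : ¬ T.G (M.ν (M.ν (rc y).hc)) := by simpa using h3.2
        rcases hc with hc | hc
        · exact absurd hc h4
        · rw [hx]; exact hc.2
      · have hbi : (LKd.w 3 (decide (T.G (M.ν (M.ν (rc y).hc))))).bi (S.lk y) = 0 := by
          unfold LKd.bi
          exact (if_neg (fun h4 => absurd h4.2.2 (by decide))).trans
            ((if_neg (fun h4 => h3 ⟨h4.1, h4.2.1⟩)).trans (if_neg (by decide)))
        rw [hbi]
        show Cmp M W T.G _ (M.μ (rc y).hc)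
        rw [← hx]
        exact hrf

/-- the component of a box corner is the one of a selected corner -/
lemma Dkz.bc_sel (hWE : ∀ x, W (M.E x) ↔ W x) {b : D} {κ : LKd} {st : LS}
    (h : (K.bxs L lk lkE hnn t o).Vd b κ st) (hx : κ.bx = true) :
    ∃ s, Sel M T rc K.H K.N K.P s ∧ SV M b s ∧ Cmp M W T.G s (cn M b (κ.bi st)) := by
  classical
  set S := K.bxs L lk lkE hnn t o with hS
  have hG := S.vdg L h
  rcases h with ⟨y, h1, rfl, rfl⟩ | ⟨j, h0, h1, rfl, rfl⟩ | ⟨h1, h2, rfl⟩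
  · have hy : ∃ y', K.P y' ∧ rc y' = rc y := by
      by_cases hj : ∃ j, SV M (S.v j) (rc y).hc
      · obtain ⟨j, hj⟩ := hj
        obtain ⟨y', h2, -, h3⟩ := K.st_link L j.2 h1.1 h1.2.1 h1.2.2.1 hj
        exact ⟨y', h2, h3⟩
      · push Not at hj
        refine ⟨y, ?_, rfl⟩
        by_contra hP
        have hz : S.wz y = none := by
          show K.wz y = none
          unfold Dkz.wz
          rw [if_neg (fun h => hP h.1)]
        have hi : S.inf y = .n := by
          rcases S.inf_not hj with ⟨-, h2⟩ | ⟨z, h2, -⟩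
          · exact h2
          · rw [hz] at h2; exact absurd h2 (by simp)
        unfold Bxs.κ at hx
        rw [hi] at hx
        unfold kap at hx
        rcases hkd : (rc y).kd with _ | _ | _ | _ | _ | _ | _ | _ | _ | _ | _ <;>
          rw [hkd] at hx
        · simp only at hx
          split_ifs at hx <;> exact absurd hx (by simp [LKd.bx])
        all_goals exact absurd hx (by simp [LKd.bx])
    obtain ⟨y', hP, e⟩ := hy
    obtain ⟨κ', st', g1, g2, g3⟩ := K.pbox L lk lkE hnn t o hWE hP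
    have hb : bas M (rc y') = b := by rw [e]; exact h1.2.2.2
    rw [hb] at g1 g3
    obtain ⟨-, e1, e2⟩ := S.vd_uniq L (Or.inl ⟨y, h1, rfl, rfl⟩) g1 (SV.refl _)
    refine ⟨bxl M (rc y'), Or.inr (Or.inr ⟨y', hP, rfl⟩), ?_, by rw [← e1, ← e2]; exact g3⟩
    have hs : SV M (rc y').hc b := by rw [← hb]; exact sv_bas _
    refine hs.symm.trans ?_
    unfold bxl
    split_ifs
    · exact SV.nu _
    · exact SV.mu _
  · subst h0
    have hN : K.N j.1 := by
      rcases j.2 with h | ⟨y, h2, h3⟩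
      · exact h
      · exfalso
        have hp := K.hP y h2
        have hM : S.IsM (bas M (rc y)) y := ⟨hp.G, hp.d, hp.m, rfl⟩
        have hs : SV M (S.v j) (bas M (rc y)) := h3.sv.trans (sv_bas _)
        obtain ⟨e1, -⟩ := S.isM_star L hM hs
        rw [e1] at hM
        exact h1 y hM
    have hn := hG.bG rfl
    have hW : W (cn M (S.v j) ((LKd.q (S.P j) (S.t j) (S.o j)).bi .drop)) :=
      S.vw4 j _ (cn_sv _ _)
    refine ⟨_, Or.inr (Or.inl ⟨j.1, hN, ?_⟩), cn_sv _ _, Cmp.refl hW hn⟩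
    show bxc M T j.1 (cn M j.1 (if decide (T.G j.1) then 1 else 0))
    by_cases h : T.G j.1
    · rw [if_pos (by simpa using h)]; exact Or.inl ⟨h, rfl⟩
    · rw [if_neg (by simpa using h)]; exact Or.inr ⟨h, rfl⟩
  · have hn := hG.bG hx
    have hW : W (cn M b (κ.bi .drop)) := S.hw4 b _ h1 (cn_sv _ _)
    refine ⟨_, Or.inl ⟨b, h1, ?_⟩, cn_sv _ _, Cmp.refl hW hn⟩
    rcases h2 with ⟨h2, rfl⟩ | ⟨h2, rfl⟩
    · exact Or.inl ⟨h2, rfl⟩
    · exact Or.inr ⟨h2, rfl⟩

/-- **every missing component has exactly one box corner** -/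
lemma Dkz.cov (hWE : ∀ x, W (M.E x) ↔ W x) : (K.bxs L lk lkE hnn t o).Cov where
  all x h1 h2 := by
    classical
    obtain ⟨c, hc, hxc⟩ := K.all x h1 h2
    set S := K.bxs L lk lkE hnn t o with hS
    rcases hc with ⟨v, hH, hv⟩ | ⟨v, hN, hv⟩ | ⟨y, hP, rfl⟩
    · refine ⟨c, ?_, hxc⟩
      rcases hv with ⟨g1, rfl⟩ | ⟨g1, rfl⟩
      · exact ⟨v, .w 2 false, .drop, Or.inr (Or.inr ⟨hH, Or.inl ⟨g1, rfl⟩, rfl⟩), rfl, rfl⟩
      · exact ⟨v, .w 3 false, .drop, Or.inr (Or.inr ⟨hH, Or.inr ⟨g1, rfl⟩, rfl⟩), rfl, rfl⟩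
    · refine ⟨c, ?_, hxc⟩
      have hj : K.St v := Or.inl hN
      refine ⟨v, _, .drop, Or.inr (Or.inl ⟨⟨v, hj⟩, rfl, ?_, rfl, rfl⟩), rfl, ?_⟩
      · rintro y ⟨g1, g2, g3, g4⟩
        refine (K.hN v hN).un ⟨y, g1, g2, mk_uses.1 g3, ?_⟩
        have : SV M (rc y).hc (S.bs y) := sv_bas _
        rw [g4] at this
        exact this.symm
      · show c = cn M v (if decide (T.G v) then 1 else 0)
        rcases hv with ⟨g1, rfl⟩ | ⟨g1, rfl⟩
        · rw [if_pos (by simpa using g1)]; rfl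
        · rw [if_neg (by simpa using g1)]; rfl
    · obtain ⟨κ, st, g1, g2, g3⟩ := K.pbox L lk lkE hnn t o hWE hP
      exact ⟨_, ⟨_, κ, st, g1, g2, rfl⟩, hxc.trans g3⟩
  uni c c' h h' hcc := by
    obtain ⟨b, κ, st, h1, h2, rfl⟩ := h
    obtain ⟨b', κ', st', h1', h2', rfl⟩ := h'
    obtain ⟨s, g1, g2, g3⟩ := K.bc_sel L lk lkE hnn t o hWE h1 h2
    obtain ⟨s', g1', g2', g3'⟩ := K.bc_sel L lk lkE hnn t o hWE h1' h2'
    have e : s = s' := K.uni s s' g1 g1' ((g3.trans hcc).trans g3'.symm)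
    subst e
    obtain ⟨e1, e2, e3⟩ := (K.bxs L lk lkE hnn t o).vd_uniq L h1 h1' (g2.trans g2'.symm)
    rw [e1, e2, e3]

/-- no diagonals at the letters -/
lemma Dkz.nx_lt (hX : K.NXd X) : ∀ x, (K.bxs L lk lkE hnn t o).Lt x → ¬ X x := by
  rintro x ⟨j, e | e⟩
  · rw [e]; exact hX j.1 j.2 _ (cn_sv _ _)
  · rw [e]; exact hX j.1 j.2 _ (cn_sv _ _)

/-- **the abstract solution and the geometric data** -/
lemma Dkz.mch {Kt : TD M.E M.τ T X (dgL rc)} {lk' : Kt.ct.Ci → LS} {lt : Kt.ct.Pt → Bool}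
    {y a b x : {v : D // K.St v} → Kt.ct.Pt}
    (hlk : ∀ z, lk' z = lk (pr z.1))
    (hy : ∀ j, (T.G j.1 ∧ (y j).1 = Sum.inl j.1) ∨ (¬ T.G j.1 ∧ (y j).1 = Sum.inl (M.ν j.1)))
    (ha : ∀ j, (a j).1 = Sum.inl (M.ν (M.ν j.1)))
    (hb : ∀ j, (b j).1 = Sum.inl (M.ν (M.ν (M.ν j.1))))
    (hx : ∀ j, x j = if t j then b j else a j)
    (ho : ∀ j, lt (y j) = o j) (hp : ∀ j, lt (x j) = true) :
    Mch (K.bxs L lk lkE hnn t o) Kt lk' lt y x where
  lk := hlk
  o := ho
  port := hp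
  y j := by
    classical
    show (y j).1 = Sum.inl (cn M j.1 (if decide (T.G j.1) then 0 else 1))
    rcases hy j with ⟨h1, h2⟩ | ⟨h1, h2⟩
    · rw [if_pos (by simpa using h1)]; exact h2
    · rw [if_neg (by simpa using h1)]; exact h2
  x j := by
    classical
    show (x j).1 = Sum.inl (cn M j.1 (if t j then 3 else 2))
    rw [hx j]
    by_cases h : t j = true
    · rw [if_pos h, if_pos h]; exact hb j
    · rw [if_neg h, if_neg h]; exact ha j

end

end Pool.Agent.MP42.GZ
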