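import Pool.Agent.MP42.GZ.Lvl3

/-!
# Levels with extra lanes (owner helper28)

As in `Lvl`, but every level may have extra lanes `ex` (names `8`, `9`) over real edges between
circles of opposite classes.  The tokens `ex y` stand outermost on the edge behind the corner `y`.
-/

set_option autoImplicit false

namespace Pool.Agent.MP42.GZ

open Pool.Agent.MP42.O3 Pool.Agent.MP42.O3.BM Pool.Agent.MP42.U Pool.Agent.MP42.PL
open Pool.Agent.MP42.EO

variable {D : Type*}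

/-- **extra lanes** over edges with both sides in `W` -/
structure ExB (M : BM D) (W : D → Prop) (cE : D → Bool) (ex : D → Wd) : Prop where
  w : ∀ y, ex y ≠ [] → W y ∧ W (M.ν y)
  k : ∀ y, ex y ≠ [] → M.ek (M.ν y) = .R
  c : ∀ y, ex y ≠ [] → cE y = !(cE (M.ν y))
  n : ∀ y, ∀ q ∈ ex y, q.2 = 8 ∨ q.2 = 9
  nd : ∀ y, ((ex y).map Prod.snd).Nodup
  d : ∀ y z, SV M y z → y ≠ z → ∀ q ∈ ex y, ∀ q' ∈ ex z, q.2 ≠ q'.2

/-- extra lanes only at vertices with at most one corner outside `W` -/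
def ExA (M : BM D) (W : D → Prop) (ex : D → Wd) : Prop :=
  ∀ y, ex y ≠ [] → ∀ z z', SV M y z → SV M y z' → ¬ W z → ¬ W z' → z = z'

/-- the word at a corner with own tokens and extra lanes -/
def vxo (T : Tbl) (M : BM D) (mn : D → T.Q) (gt : D → M9) (ow ex : D → Wd) (y : D) :
    List (Bool × (D × ℕ)) :=
  tag y (ex (M.μ y)).reverse ++ (vw T M mn gt ow y ++ tag y (ex y))

/-- the word of a circle -/
noncomputable def cxo (T : Tbl) (M : BM D) (mn : D → T.Q) (gt : D → M9) (ow ex : D → Wd) (x : D) :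
    List (Bool × (D × ℕ)) := (cir M x).flatMap (vxo T M mn gt ow ex)

lemma vxo_no {T : Tbl} {M : BM D} {mn : D → T.Q} {gt : D → M9} {ex : D → Wd} {y : D} :
    vxo T M mn gt no ex y = vx T M mn gt ex y := rfl

lemma cxo_no {T : Tbl} {M : BM D} {mn : D → T.Q} {gt : D → M9} {ex : D → Wd} {x : D} :
    cxo T M mn gt no ex x = cx T M mn gt ex x := rfl

lemma vxo_nil {T : Tbl} {M : BM D} {mn : D → T.Q} {gt : D → M9} {ow ex : D → Wd} {y : D}
    (h1 : ex y = []) (h2 : ex (M.μ y) = []) : vxo T M mn gt ow ex y = vw T M mn gt ow y := by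
  unfold vxo
  rw [h1, h2]
  simp [tag]

/-- the part of a good state which does not concern the words -/
structure GdC {T : Tbl} (M : BM D) (Lg : Leg (D := D) T) (W : D → Prop) (mn : D → T.Q)
    (gt : D → M9) (cE : D → Bool) : Prop where
  cEE : ∀ x, W x → cE (M.E x) = cE x
  sM : ∀ y, mn y ≠ T.non → Full M W y
  sG : ∀ y, gt y ≠ none → M.lab y = .B2 ∧ W y ∧ W (M.ν y)
  one : ∀ y z, mn y ≠ T.non → mn z ≠ T.non → SV M y z → y = z
  out : ∀ y, ¬ W y → mw T M mn y = []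
  lM : ∀ cE' : D → Bool, (∀ y, W y → cE' y = cE y) → ∀ y, Lg.okM cE' y (mn y)
  lG : ∀ cE' : D → Bool, (∀ y, W y → cE' y = cE y) → ∀ y, Lg.okG cE' y (gt y)

variable {T : Tbl} {M : BM D}

/-- **a good state inside a box**, with extra lanes -/
structure GoodX (Lg : Leg (D := D) T) (W : D → Prop) (x0 x1 : D) (n0 n1 : ℕ) (mn : D → T.Q)
    (gt : D → M9) (ex : D → Wd) (cE : D → Bool) : Prop extends GdC M Lg W mn gt cE where
  exb : ExB M W cE ex
  exa : ExA M W ex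
  tot : ∀ x, W x → hl (cxo T M mn gt (own cE x0 x1 n0 n1) ex x) = if cE x then 2 else -2
  pb : ∀ x, W x → Bd 200 (cxo T M mn gt (own cE x0 x1 n0 n1) ex x)
  const : ∀ V : D × ℕ → B, LamInv M V →
    (∀ x, W x → Cl V (cxo T M mn gt (own cE x0 x1 n0 n1) ex x)) →
    ∃ k, ∀ x, W x → ∀ q ∈ vxo T M mn gt (own cE x0 x1 n0 n1) ex x, V q.2 = k

/-- **a level with own tokens `ow` and totals `tt`** (closed levels and the top level) -/
structure LvlG (Lg : Leg (D := D) T) (W : D → Prop) (ow : D → Wd) (tt : D → ℤ) (S : D → Prop)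
    (mn : D → T.Q) (gt : D → M9) (ex : D → Wd) (cE : D → Bool) (b0 b1 : D → D) (m0 m1 : D → ℕ) :
    Prop extends LvlCore T M W S mn gt where
  cEE : ∀ x, S x → cE (M.E x) = cE x
  inv : ∀ x, W x → ¬ S x → ∃ col, M.Inv (Cmp M W S x) col
  box : ∀ x, W x → ¬ S x → Ifc M (Cmp M W S x) (b0 x) (b1 x) (m0 x) (m1 x)
  bcst : ∀ x y, Cmp M W S x y → b0 y = b0 x ∧ b1 y = b1 x ∧ m0 y = m0 x ∧ m1 y = m1 x
  bw : ∀ y, W y → ¬ S y → asm M y (mw T M mn y) (ow y) [] =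
    own cE (b0 y) (b1 y) (m0 y) (m1 y) y
  lM : ∀ cE' : D → Bool, (∀ y, S y → cE' y = cE y) → (∀ y, W y → ¬ S y →
    cE' (b0 y) = cE (b0 y) ∧ cE' (b1 y) = cE (b1 y)) → ∀ y, Lg.okM cE' y (mn y)
  lG : ∀ cE' : D → Bool, (∀ y, S y → cE' y = cE y) → ∀ y, Lg.okG cE' y (gt y)
  exb : ExB M S cE ex
  tot : ∀ x, S x → hl (cxo T M mn gt ow ex x) = tt x
  pb : ∀ x, S x → Bd 200 (cxo T M mn gt ow ex x)
  const : ∀ V : D × ℕ → B, LamInv M V →
    (∀ x, S x → Cl V (cxo T M mn gt ow ex x)) →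
    (∀ x, W x → ¬ S x → V (b0 x, m0 x) = V (b1 x, m1 x)) →
    ∃ k, (∀ x, S x → ∀ q ∈ vxo T M mn gt ow ex x, V q.2 = k) ∧
      ∀ x, W x → ¬ S x → V (b0 x, m0 x) = k

/-- **a closed level with extra lanes** -/
structure LvlOutX (Lg : Leg (D := D) T) (W : D → Prop) (x0 x1 : D) (n0 n1 : ℕ) (S : D → Prop)
    (mn : D → T.Q) (gt : D → M9) (ex : D → Wd) (cE : D → Bool) (b0 b1 : D → D) (m0 m1 : D → ℕ) :
    Prop extends LvlG (M := M) Lg W (own cE x0 x1 n0 n1) (fun x => if cE x then 2 else -2) S mn gt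
      ex cE b0 b1 m0 m1 where
  S0 : S x0
  exa : ExA M S ex

/-- **levels with extra lanes exist**, for every prescribed class `κ` of the second own corner of a
box -/
def LvlThmX (Lg : Leg (D := D) T) : Prop :=
  ∀ (W : D → Prop) (x0 x1 : D) (n0 n1 : ℕ) (σ : Bool)
    (κ : (D → Prop) → D → D → ℕ → ℕ → Bool → Bool),
    (∀ x, W (M.E x) ↔ W x) → Cn M W → (∃ col, M.Inv W col) → Ifc M W x0 x1 n0 n1 →
    (∀ K y0 y1 k0 k1 c, (∀ x, K (M.E x) ↔ K x) → K y0 → M.E.SameCycle y0 y1 →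
      κ K y0 y1 k0 k1 c = c) →
    ∃ (S : D → Prop) (mn : D → T.Q) (gt : D → M9) (ex : D → Wd) (cE : D → Bool) (b0 b1 : D → D)
      (m0 m1 : D → ℕ), LvlOutX (M := M) Lg W x0 x1 n0 n1 S mn gt ex cE b0 b1 m0 m1 ∧ cE x0 = σ ∧
      ∀ x, W x → ¬ S x →
        cE (b1 x) = κ (Cmp M W S x) (b0 x) (b1 x) (m0 x) (m1 x) (cE (b0 x))

/-- **the top level with extra lanes**, `r` = a corner of the root ring -/
structure RootOutX (Lg : Leg (D := D) T) (r : D) (S : D → Prop) (mn : D → T.Q) (gt : D → M9)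
    (ex : D → Wd) (cE : D → Bool) (b0 b1 : D → D) (m0 m1 : D → ℕ) (σ : Bool) : Prop
    extends LvlG (M := M) Lg All no (ttl M r cE) S mn gt ex cE b0 b1 m0 m1 where
  S0 : S r
  cr : cE r = !σ

/-- the top level with extra lanes exists, for every prescribed class `κ` -/
def RootThmX (Lg : Leg (D := D) T) (r : D) (σ : Bool) : Prop :=
  ∀ κ : (D → Prop) → D → D → ℕ → ℕ → Bool → Bool,
    (∀ K y0 y1 k0 k1 c, (∀ x, K (M.E x) ↔ K x) → K y0 → M.E.SameCycle y0 y1 →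
      κ K y0 y1 k0 k1 c = c) →
    ∃ (S : D → Prop) (mn : D → T.Q) (gt : D → M9) (ex : D → Wd) (cE : D → Bool) (b0 b1 : D → D)
      (m0 m1 : D → ℕ),
      RootOutX (M := M) Lg r S mn gt ex cE b0 b1 m0 m1 σ ∧
      ∀ x, ¬ S x → cE (b1 x) = κ (Cmp M All S x) (b0 x) (b1 x) (m0 x) (m1 x) (cE (b0 x))

/-- **a good state of all vertices with extra lanes** -/
structure RootGoodX (Lg : Leg (D := D) T) (r : D) (mn : D → T.Q) (gt : D → M9) (ex : D → Wd)
    (cE : D → Bool) (σ : Bool) : Prop extends GdC M Lg All mn gt cE where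
  exb : ExB M All cE ex
  cr : cE r = !σ
  tot : ∀ x, hl (cx T M mn gt ex x) = ttl M r cE x
  pb : ∀ x, Bd 200 (cx T M mn gt ex x)
  const : ∀ V : D × ℕ → B, LamInv M V → (∀ x, Cl V (cx T M mn gt ex x)) →
    ∃ k, ∀ x, ∀ q ∈ vx T M mn gt ex x, V q.2 = k

end Pool.Agent.MP42.GZ
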