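import Pool.Agent.MP42.GZ.GeoW
import Pool.Agent.MP42.GZ.LvlX

/-!
# Words of a level = words of the abstract solution (owner helper30, helper50)

`word_s`: the word of a circle; `closed_wd`: closed levels.
-/

set_option autoImplicit false
set_option linter.unusedSectionVars false
set_option linter.unusedVariables false

namespace Pool.Agent.MP42.GZ

open Pool.Agent.MP42 Pool.Agent.MP42.U Pool.Agent.MP42.PL Pool.Agent.MP42.O3 Pool.Agent.MP42.O3.BM
open Pool.Agent.MP42.EO

variable {D : Type*} {M : BM D} [Finite D]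
variable {W : D → Prop} {T : RT M.E} {cl : D → Prop} {rc : D → Rc D} {J : Type*} {x0 : D}
  {X : D → Prop}
variable {S : Bxs M W T cl rc J} {K : TD M.E M.τ T X (dgL rc)}
  {real cls : K.ct.Ci → Prop} {lk : K.ct.Ci → LS} {lt : K.ct.Pt → Bool} {y x : J → K.ct.Pt}

/-- the words of the circles -/
lemma cxo_tag (mn : D → Sq) (gt : D → M9) (ow ex : D → Wd) (w : D) :
    cxo tb M mn gt ow ex w = (cir M w).flatMap fun y =>
      tag y ((ex (M.μ y)).reverse ++ (asm M y (mw tb M mn y) (ow y) (gw M gt y) ++ ex y)) := by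
  unfold cxo
  refine List.flatMap_congr fun y _ => ?_
  unfold vxo vw
  simp only [tag_append]

/-- **the word of a circle**: own tokens `OL`, words `it` of the links of the children -/
theorem word_s (L : LI M W x0 T cl rc) (hv : Val M) (R : Rds K.ct.contour cls y x)
    (hm : Mch S K lk lt y x) (hX : ∀ u, S.Lt u → ¬ X u) (hcls : ∀ z, cls z ↔ cl (pr z.1))
    {ow ex : D → Wd} {rx : Wd}
    (H : LW M T cl rc (mw tb M S.mn) S.lwd (gw M S.gt) ow ex (S.hw rx) (S.cw rx))
    (tk : K.ct.Ci → ℕ → D × ℕ) {V : D × ℕ → B} (hV : S.BoxV V) (z : K.ct.Ci) {c : Bool}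
    (hc : cl (pr z.1) ↔ c = true) {OL : List (Bool × B)}
    (hO : lv V (rw' c (o1 M T rc ow (S.cw rx) (pr z.1) ++ o2 M T rc (S.cw rx) (pr z.1))) = OL)
    (it : K.ct.Ci → List (Bool × B))
    (hit : ∀ c' : K.ct.Ci, c' ≠ K.ct.rC → M.E.SameCycle (pr z.1) (rc (pr c'.1)).hc →
      lv V (rw' c (tag (rc (pr c'.1)).hc (S.hw rx (pr c'.1)))) = it c') :
    ∃ u, Rot (lv V (rw' c (cxo tb M S.mn S.gt ow ex (pr z.1)))) u ∧
      Ins (OL ++ (R.rd z).flatMap fun i => match i with
        | .inl p => lv (vp S tk V) (il lk lt (.inl p))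
        | .inr c' => it c') u := by
  rw [cxo_tag]
  have hX' : ∀ u, LtS y x u → ¬ X u := by
    rintro u ⟨j, h | h⟩
    · refine hX u ⟨j, Or.inl ?_⟩
      rw [hm.y j] at h
      exact (Sum.inl_injective h).symm
    · refine hX u ⟨j, Or.inr ?_⟩
      rw [hm.x j] at h
      exact (Sum.inl_injective h).symm
  exact word_gen' L R hX' (fun j => ⟨_, hm.y j⟩) (fun j => ⟨_, hm.x j⟩) hcls H
    (fun u _ h => swd_zero L hv hm.y hm.x h) z hc
    (fun u _ => rider_lv L (af_of L hv) hV u) hO _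
    (fun p u hp hL _ c hc => letter_lv hv (af_of L hv) hm tk V hp hL hc) hit

/-- the tokens of the own links in a closed level; `b` = class `E` of the root circle -/
noncomputable def tkL (S : Bxs M W T cl rc J) {K : TD M.E M.τ T X (dgL rc)} (x0 : D)
    (n0 n1 : ℕ) (b : Bool) (c : K.ct.Ci) (n : ℕ) : D × ℕ :=
  if T.dep (pr c.1) = 0 then (x0, if (decide (n = 1) = b) then n0 else n1)
  else ((rc (pr c.1)).cc, (S.κ (pr c.1)).nc (S.lk (pr c.1)) n)

/-- the class of the parent -/
lemma par_cls (L : LI M W x0 T cl rc) (hcls : ∀ z, cls z ↔ cl (pr z.1)) {z : K.ct.Ci}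
    (hz : z ≠ K.ct.rC) : (cls z ↔ cls (K.ct.parC z)) ↔
      (cl (rc (pr z.1)).hc ↔ cl (rc (pr z.1)).cc) := by
  obtain ⟨-, p1, p2⟩ := par_base (K := K) L hz
  have a1 : cls z ↔ cl (rc (pr z.1)).cc := by
    rw [hcls]
    exact (cl_cyc L.cE p2).symm
  have a2 : cls (K.ct.parC z) ↔ cl (rc (pr z.1)).hc := by
    rw [hcls]
    exact (cl_cyc L.cE p1).symm
  rw [a1, a2]
  exact ⟨fun h => h.symm, fun h => h.symm⟩

/-- **words of a closed level** -/
theorem closed_wd (L : LI M W x0 T cl rc) (hv : Val M)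
    (hnr : ∀ y, T.G y → T.dep y ≠ 0 → (rc y).kd ≠ .root)
    (R : Rds K.ct.contour cls y x) (hm : Mch S K lk lt y x) (hlr : lk K.ct.rC = .even)
    (hX : ∀ u, S.Lt u → ¬ X u) (hcls : ∀ z, cls z ↔ cl (pr z.1))
    {cE : D → Bool} (hcE : ∀ x, T.G x → (cl x ↔ cE x = true)) {n0 n1 : ℕ}
    (H : LW M T cl rc (mw tb M S.mn) S.lwd (gw M S.gt) (own cE x0 x0 n0 n1) (fun _ => [])
      (S.hw []) (S.cw []))
    {V : D × ℕ → B} (hV : S.BoxV V) (z : K.ct.Ci) :
    ∃ u, Rot (lv V (rw' (cE (pr z.1))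
      (cxo tb M S.mn S.gt (own cE x0 x0 n0 n1) (fun _ => []) (pr z.1)))) u ∧
      Ins (lv (vp S (tkL S x0 n0 n1 (cE x0)) V)
        (wd (fun _ => False) (swq K.ct.contour cls) lk lt R.rd z)) u := by
  classical
  set tk := tkL S (K := K) x0 n0 n1 (cE x0) with htkd
  have hrt : T.rt = x0 := L.rt
  obtain ⟨hG, hb, hz⟩ := ci_base z
  have hc := hcE _ hG
  have htk : ∀ c : K.ct.Ci, T.dep (pr c.1) ≠ 0 → ∀ n, tk c n =
      ((rc (pr c.1)).cc, (S.κ (pr c.1)).nc (S.lk (pr c.1)) n) := fun c hd n => if_neg hd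
  have e2 : lv (vp S tk V) (wd (fun _ => False) (swq K.ct.contour cls) lk lt R.rd z) =
      lv (vp S tk V) (ol (fun _ => False) (swq K.ct.contour cls) lk z) ++
      (R.rd z).flatMap fun i => match i with
        | .inl p => lv (vp S tk V) (il lk lt (.inl p))
        | .inr c' => lv (vp S tk V) (il lk lt (.inr c')) := by
    unfold wd
    rw [lv_append]
    congr 1
    unfold lv
    rw [List.map_flatMap]
    refine List.flatMap_congr fun i _ => ?_
    rcases i with p | c <;> rfl
  rw [e2]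
  refine word_s L hv R hm hX hcls H tk hV z hc ?_ _ ?_
  · by_cases hd : T.dep (pr z.1) = 0
    · -- the root circle
      obtain ⟨g1, g2⟩ := own_root H hG hd
      have hzr : z = K.ct.rC := rC_dep hd
      have hw0 : pr z.1 = x0 := by rw [hzr]; exact hrt
      rw [g1, g2, List.append_nil, hw0]
      have hlk : lk z = .even := by rw [hzr]; exact hlr
      have hsw : ¬ swq K.ct.contour cls z := fun h => h.1 hzr
      have how0 : own cE x0 x0 n0 n1 x0 = [(cE x0, n0), (cE x0, n1)] := by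
        unfold own
        rw [if_pos rfl, if_pos rfl]
        rfl
      have hol : (ol (fun _ => False) (swq K.ct.contour cls) lk z :
          List (Bool × (K.ct.Pt ⊕ (K.ct.Ci × ℕ)))) =
          [(true, Sum.inr (z, 1)), (true, Sum.inr (z, 0))] := by
        unfold ol
        rw [hlk]
        simp only
        rw [if_neg hsw]
      rw [hol, how0]
      have t1 : tk z 1 = (x0, if cE x0 then n0 else n1) := by
        rw [htkd]
        unfold tkL
        rw [if_pos hd]
        cases cE x0 <;> simp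
      have t0 : tk z 0 = (x0, if cE x0 then n1 else n0) := by
        rw [htkd]
        unfold tkL
        rw [if_pos hd]
        cases cE x0 <;> simp
      simp only [lv, List.map_cons, List.map_nil, vp, t1, t0]
      cases cE x0 <;> simp [rw', tag, U.lrev]
    · obtain ⟨h1, h2⟩ := own_eq H hG hb hd
      rw [h2]
      have hzr : z ≠ K.ct.rC := fun h => hd (by rw [h]; exact T.dep_rt)
      obtain ⟨-, p1, p2⟩ := par_base (K := K) L hzr
      refine own_lv L hm.lk hd (hnr _ hG hd) ?_ (htk z hd) ?_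
      · rw [← par_cls L hcls hzr]
        exact ⟨fun h => h.2, fun h => ⟨hzr, h⟩⟩
      · rw [cl_cyc L.cE p2]
        exact hc
  · intro c' hc1 hc2
    obtain ⟨hd', -, -⟩ := par_base (K := K) L hc1
    refine child_lv L hm.lk hV hd' (hnr _ c'.2.1.2 hd') (htk c' hd') ?_
    rw [cl_cyc L.cE hc2]
    exact hc

end Pool.Agent.MP42.GZ
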