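import Pool.Agent.MP42.GZ.GeoXP
import Pool.Agent.MP42.GZ.GeoL

/-!
# The words of a level from an abstract solution (owner helper30, helper50)

`con_of`: constancy; `closed_w`: `LvlW` of a closed level; `top_w`: the general form at the top level.
-/

set_option autoImplicit false
set_option linter.unusedSectionVars false
set_option linter.unusedVariables false

namespace Pool.Agent.MP42.GZ

open Pool.Agent.MP42 Pool.Agent.MP42.U Pool.Agent.MP42.PL Pool.Agent.MP42.O3 Pool.Agent.MP42.O3.BM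
open Pool.Agent.MP42.EO

variable {D : Type*} {M : BM D} [Finite D]
variable {W : D → Prop} {T : RT M.E} {cl : D → Prop} {rc : D → Rc D} {J : Type*} {x0 : D}
  {X : D → Prop}
variable {S : Bxs M W T cl rc J} {K : TD M.E M.τ T X (dgL rc)}
  {real cls : K.ct.Ci → Prop} {lk : K.ct.Ci → LS} {lt : K.ct.Pt → Bool} {y x : J → K.ct.Pt}

/-- host and port of a star have the same value -/
lemma star_v (hv : Val M) (hm : Mch S K lk lt y x) (tk : K.ct.Ci → ℕ → D × ℕ)
    {V : D × ℕ → B} (hV : S.BoxV V) (j : J) :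
    vp S tk V (.inl (y j)) = vp S tk V (.inl (x j)) := by
  classical
  obtain ⟨st, hst⟩ := S.star_vd j
  have h12 := hV.bx _ _ _ hst rfl
  have e1 : pr (y j).1 = yc S j := by rw [hm.y j]; rfl
  have e2 : pr (x j).1 = xc S j := by rw [hm.x j]; rfl
  show V (pr (y j).1, if ∃ j', pr (y j).1 = yc S j' then 1 else 2) =
    V (pr (x j).1, if ∃ j', pr (x j).1 = yc S j' then 1 else 2)
  have h1 : ∃ j', pr (y j).1 = yc S j' := ⟨j, e1⟩
  have h2 : ¬ ∃ j', pr (x j).1 = yc S j' := by
    rintro ⟨j', h⟩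
    exact yc_ne_xc hv S j' j (by rw [← h, e2])
  rw [if_pos h1, if_neg h2, e1, e2, hV.inv.cn _ _ _ (by norm_num), hV.inv.cn _ _ _ (by norm_num)]
  exact h12

/-- **the words of a closed level** -/
theorem closed_w (L : LI M W x0 T cl rc) (hv : Val M)
    (hnr : ∀ y, T.G y → T.dep y ≠ 0 → (rc y).kd ≠ .root)
    (sol : LSolX K.ct.contour cls real (fun _ => False) y x) (hm : Mch S K sol.lk sol.lt y x)
    (hX : ∀ u, S.Lt u → ¬ X u) (hcls : ∀ z, cls z ↔ cl (pr z.1)) (hf : ¬ Full M W x0)
    {n0 n1 : ℕ} :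
    LvlW S K (own S.cE x0 x0 n0 n1) (fun x => if S.cE x then 2 else -2) no
      (tkL S x0 n0 n1 (S.cE x0))
      (wd (fun _ => False) (swq K.ct.contour cls) sol.lk sol.lt sol.rd) where
  wd V hV z := by
    have hcE : ∀ x, T.G x → (cl x ↔ S.cE x = true) := fun x h => Bxs.cE_in h
    refine closed_wd L hv hnr sol.toRds hm sol.root hX hcls hcE ?_ hV z
    have hrt : T.rt = x0 := L.rt
    refine S.lwH L hv (fun _ _ => rfl) (fun y h1 h2 h3 => absurd h3 (hnr y h1 h2)) ?_ ?_
    · intro x hx hne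
      unfold own
      rw [if_neg (by rw [← hrt]; exact hne), if_neg (by rw [← hrt]; exact hne)]
      rfl
    · intro _
      rw [hrt]
      exact hf
  tt z u _ := by rw [sol.tot z]
  t2 z := Or.inl (sol.tot z)
  pb := sol.pb
  con V hV hcl := sol.const (vp S _ V) (fun j => star_v hv hm _ hV j) (fun _ h => h.elim) hcl

end Pool.Agent.MP42.GZ
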