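import Pool.Agent.MP42.GZ.TypD
import Pool.Agent.MP42.GZ.Lvl3

/-!
# The layout of a global state (owner helper28)

`lgT`: the legality of states.  `GS`: main states, gate links, classes, extra lanes (the root
lanes, over real edges between corners of different classes).  `GS.lay`: the layout.
-/

set_option autoImplicit false

namespace Pool.Agent.MP42.GZ

open Pool.Agent.MP42.O3 Pool.Agent.MP42.O3.BM
open Pool.Agent.MP42.EO
open Pool.Agent.MP42.PL (SV)

variable {D : Type*}

/-- legal main states -/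
def okMn (M : BM D) (cE : D → Bool) (y : D) : Sq → Prop
  | .non => True
  | .l false a st => (M.lab y).isB = false ∧ cE y = true ∧ cE (M.ν y) = false ∧
      (if a then M.mkl (M.ν y) else M.pkl (M.ν y)) ∧
      (M.lab y = .YG → M.ek (M.ν (M.ν y)) = .R ∨ M.ek y = .R) ∧
      (st = .nn → M.ek (M.ν y) = .R)
  | .l true a _ => M.lab y = (if a then .YT else .YF) ∧ cE y = !a ∧ cE (M.ν y) = !a
  | .b m => M.lab y = .B3 ∧
      clM m (cE y) (cE (M.ν y)) (cE (M.ν (M.ν y))) (cE (M.ν (M.ν (M.ν y)))) = true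
  | .s x => M.lab y = .B3 ∧ clQ (.s x) (cE y) (cE (M.ν y)) (cE (M.ν (M.ν y)))
      (cE (M.ν (M.ν (M.ν y)))) = true

/-- legal gate links -/
def okGt (M : BM D) (cE : D → Bool) (y : D) (g : M9) : Prop :=
  ∀ a st, g = some (a, st) → M.lab y = .B2 ∧ cE y = true ∧ cE (M.ν y) = false ∧
    (if a then M.mkl (M.ν y) else M.pkl (M.ν y)) ∧ (st = .nn → M.ek (M.ν y) = .R)

/-- **the legality of states** -/
def lgT (M : BM D) : Leg (D := D) tb := ⟨fun cE y q => okMn M cE y q, fun cE y g => okGt M cE y g⟩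

/-- a global state -/
structure GS (D : Type*) where
  mn : D → Sq
  gt : D → M9
  cE : D → Bool
  ex : D → Wd

/-- the conditions on a global state -/
structure GS.Ok (M : BM D) (G : GS D) : Prop where
  n1 : ∀ x, M.ν x ≠ x
  n2 : ∀ x, M.ν (M.ν x) ≠ x
  cEE : ∀ x, G.cE (M.E x) = G.cE x
  one : ∀ y z, G.mn y ≠ .non → G.mn z ≠ .non → SV M y z → y = z
  lM : ∀ y, okMn M G.cE y (G.mn y)
  lG : ∀ y, okGt M G.cE y (G.gt y)
  exo : ∀ y, G.ex y ≠ [] → M.ek (M.ν y) = .R ∧ G.cE y = !(G.cE (M.ν y))

variable {M : BM D}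

lemma vtx_eq (x y : D) : vtx M x y ↔ SV M x y := Iff.rfl

/-- number of the corners of a vertex -/
def nco (M : BM D) (b : D) : ℕ := if (M.lab b).isB then 4 else 3

lemma nco_or (b : D) : nco M b = 3 ∨ nco M b = 4 := by
  unfold nco; split_ifs <;> simp

lemma nco_per (b : D) : M.ν^[nco M b] b = b := by
  unfold nco
  rcases h : (M.lab b).isB with _ | _
  · simp only [Bool.false_eq_true, if_false]
    exact M.n3 b h
  · simp only [if_true]
    exact M.n4 b h

lemma nu_inj : Function.Injective M.ν := fun x y h => by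
  have := congrArg M.μ h
  rwa [μ_ν, μ_ν] at this

lemma nco_inj (n1 : ∀ x, M.ν x ≠ x) (n2 : ∀ x, M.ν (M.ν x) ≠ x) (b : D) :
    ∀ j k, j < nco M b → k < nco M b → M.ν^[j] b = M.ν^[k] b → j = k := by
  have key : ∀ j k, j < k → k < nco M b → M.ν^[j] b ≠ M.ν^[k] b := by
    intro j k hjk hk h
    obtain ⟨d, rfl⟩ : ∃ d, k = d + 1 + j := ⟨k - j - 1, by omega⟩
    have h1 : M.ν^[d + 1] (M.ν^[j] b) = M.ν^[j] b := by
      rw [← Function.iterate_add_apply]
      exact h.symm
    rw [← Function.iterate_add_apply, add_comm, Function.iterate_add_apply] at h1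
    have h2 : M.ν^[d + 1] b = b := (nu_inj.iterate j) h1
    rcases d with _ | _ | _ | d
    · exact n1 b h2
    · exact n2 b h2
    · have h3 := nco_per (M := M) b
      have h4 : nco M b = 4 := by
        rcases nco_or (M := M) b with h5 | h5
        · omega
        · exact h5
      rw [h4] at h3
      have h5 : M.ν (M.ν^[3] b) = b := h3
      have h6 : M.ν^[3] b = b := h2
      rw [h6] at h5
      exact n1 b h5
    · have := nco_or (M := M) b
      omega
  intro j k hj hk h
  rcases lt_trichotomy j k with h1 | h1 | h1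
  · exact absurd h (key j k h1 hk)
  · exact h1
  · exact absurd h.symm (key k j h1 hj)

namespace GS

variable (M) (G : GS D)

/-- a good base corner -/
def gb (b : D) : Prop :=
  (∀ y, SV M b y → G.mn y ≠ .non → y = b) ∧ ((M.lab b).isB = true → M.lab b = .B3)

open Classical in
/-- the base corner of the vertex -/
noncomputable def bs (y : D) : D :=
  if h : ∃ b, SV M (rp M y) b ∧ G.gb M b then h.choose else rp M y

/-- the crossings of a vertex with the base corner `b` -/
def vl (b : D) : Loc4 :=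
  if (M.lab b).isB then locS (G.mn b) (G.gt (M.ν b)) (G.gt (M.ν (M.ν (M.ν b)))) else (G.mn b).lc

variable {M G}

lemma Ok.exists_gb (H : G.Ok M) (z : D) : ∃ b, SV M z b ∧ G.gb M b := by
  by_cases h : ∃ b, SV M z b ∧ G.mn b ≠ .non
  · obtain ⟨b, h1, h2⟩ := h
    refine ⟨b, h1, fun y hy hn => (H.one b y h2 hn hy).symm, fun hB => ?_⟩
    have h3 := H.lM b
    rcases hm : G.mn b with _ | ⟨ky, a, st⟩ | m | x_
    · exact absurd hm h2
    · rw [hm] at h3
      cases ky
      · rw [h3.1] at hB; exact absurd hB (by simp)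
      · rw [h3.1] at hB
        cases a <;> exact absurd hB (by decide)
    · rw [hm] at h3; exact h3.1
    · rw [hm] at h3; exact h3.1
  · push Not at h
    rcases hB : (M.lab z).isB with _ | _
    · exact ⟨z, SV.refl z, fun y hy hn => absurd (h y hy) hn, fun h' => by
        rw [hB] at h'; exact absurd h' (by simp)⟩
    · by_cases h3 : M.lab z = .B3
      · exact ⟨z, SV.refl z, fun y hy hn => absurd (h y hy) hn, fun _ => h3⟩
      · refine ⟨M.ν z, SV.nu z, fun y hy hn => absurd (h y ((SV.nu z).trans hy)) hn, fun _ => ?_⟩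
        rw [lab_ν]
        revert hB h3
        cases M.lab z <;> simp [Lab.isB, Lab.nx]

lemma Ok.bs_spec (H : G.Ok M) (y : D) : SV M (rp M y) (G.bs M y) ∧ G.gb M (G.bs M y) := by
  have h := H.exists_gb (rp M y)
  unfold bs
  rw [dif_pos h]
  exact h.choose_spec

lemma Ok.bs_sv (H : G.Ok M) (y : D) : SV M (G.bs M y) y :=
  (H.bs_spec y).1.symm.trans (rp_vtx y)

lemma bs_congr {x y : D} (h : SV M x y) : G.bs M x = G.bs M y := by
  have h1 : rp M x = rp M y := rp_eq h
  unfold bs
  rw [h1]

lemma Ok.bs_bs (H : G.Ok M) (y : D) : G.bs M (G.bs M y) = G.bs M y := bs_congr (H.bs_sv y)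

lemma Ok.bs_iter (H : G.Ok M) (y : D) (k : ℕ) : G.bs M (M.ν^[k] (G.bs M y)) = G.bs M y := by
  rw [← bs_congr (G := G) (⟨k, rfl⟩ : SV M (G.bs M y) (M.ν^[k] (G.bs M y))), H.bs_bs]

lemma ixf_iter (n1 : ∀ x, M.ν x ≠ x) (n2 : ∀ x, M.ν (M.ν x) ≠ x) {b : D} {k : ℕ}
    (hk : k < nco M b) : ixf M b (M.ν^[k] b) = k := by
  have key : ∀ j, j < nco M b → M.ν^[k] b = M.ν^[j] b → k = j := fun j hj h =>
    nco_inj n1 n2 b k j hk hj h
  have h3 := nco_or (M := M) b
  unfold ixf
  split_ifs with h0 h1 h2
  · exact (key 0 (by omega) h0).symm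
  · exact (key 1 (by omega) h1).symm
  · exact (key 2 (by omega) h2).symm
  · have n0 : k ≠ 0 := by rintro rfl; exact h0 rfl
    have n1 : k ≠ 1 := by rintro rfl; exact h1 rfl
    have n2 : k ≠ 2 := by rintro rfl; exact h2 rfl
    omega

/-- main states at vertices of valence three -/
lemma Ok.mn3 (H : G.Ok M) {b : D} (hb : (M.lab b).isB = false) :
    G.mn b = .non ∨ ∃ ky a st, G.mn b = .l ky a st := by
  have h3 := H.lM b
  rcases hm : G.mn b with _ | ⟨ky, a, st⟩ | m | x_
  · exact Or.inl rfl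
  · exact Or.inr ⟨ky, a, st, rfl⟩
  · rw [hm] at h3
    rw [h3.1] at hb
    exact absurd hb (by decide)
  · rw [hm] at h3
    rw [h3.1] at hb
    exact absurd hb (by decide)

/-- main states at vertices of valence four -/
lemma Ok.mn4 (H : G.Ok M) {b : D} (hb : (M.lab b).isB = true) : ∀ ky a st, G.mn b ≠ .l ky a st := by
  intro ky a st hm
  have h3 := H.lM b
  rw [hm] at h3
  cases ky
  · rw [h3.1] at hb; exact absurd hb (by simp)
  · rw [h3.1] at hb
    cases a <;> exact absurd hb (by decide)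

lemma Ok.vl3 (H : G.Ok M) {b : D} (hb : (M.lab b).isB = false) :
    (G.vl M b).e4 = [] ∧ (G.vl M b).t1 = [] ∧ (G.vl M b).t2 = [] := by
  unfold vl
  rw [if_neg (by rw [hb]; simp)]
  rcases H.mn3 hb with h | ⟨ky, a, st, h⟩
  · rw [h]; exact ⟨rfl, rfl, rfl⟩
  · rw [h]; exact ⟨rfl, rfl, rfl⟩

/-- **the layout** -/
noncomputable def lay (H : G.Ok M) : Layt M where
  w y := (G.vl M (G.bs M y)).e (ixf M (G.bs M y) y) ++ G.ex y
  th y := (G.vl M (G.bs M y)).t (ixf M (G.bs M y) y)
  dl y _ := (G.gt y).isSome || (match G.mn y with | .l false _ _ => true | _ => false)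
  thr y := by
    obtain ⟨k, hk, hy⟩ : ∃ k < nco M (G.bs M y), y = M.ν^[k] (G.bs M y) :=
      vtx_lt (by have := nco_or (M := M) (G.bs M y); omega) (nco_per _) (H.bs_sv y)
    obtain ⟨b, hb⟩ : ∃ b, b = G.bs M y := ⟨_, rfl⟩
    have hbb : ∀ j, G.bs M (M.ν^[j] b) = b := fun j => by rw [hb]; exact H.bs_iter y j
    rw [← hb] at hk hy
    rw [hy]
    have e1 : M.ν (M.ν (M.ν^[k] b)) = M.ν^[k + 2] b := by
      rw [Function.iterate_succ_apply', Function.iterate_succ_apply']
    rw [e1, hbb, hbb, ixf_iter H.n1 H.n2 hk]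
    rcases hB : (M.lab b).isB with _ | _
    · obtain ⟨-, h1, h2⟩ := H.vl3 hB
      have h3 : ∀ j, (G.vl M b).t j = [] := by
        intro j
        rcases j with _ | _ | _ | _ | j <;> simp [Loc4.t, h1, h2]
      rw [h3, h3]; rfl
    · have h4 : nco M b = 4 := by unfold nco; rw [hB]; rfl
      have e2 : M.ν^[k + 2] b = M.ν^[(k + 2) % 4] b := by
        have h5 := nco_per (M := M) b
        rw [h4] at h5 hk
        by_cases h6 : k + 2 < 4
        · rw [Nat.mod_eq_of_lt h6]
        · obtain ⟨j, hj⟩ : ∃ j, k + 2 = j + 4 := ⟨k - 2, by omega⟩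
          rw [hj, Function.iterate_add_apply, h5]
          congr 1
          omega
      rw [e2, ixf_iter H.n1 H.n2 (by rw [h4]; omega)]
      rw [h4] at hk
      have hk' : k = 0 ∨ k = 1 ∨ k = 2 ∨ k = 3 := by omega
      rcases hk' with rfl | rfl | rfl | rfl <;> simp [Loc4.t]

lemma lay_w (H : G.Ok M) {b : D} (hb : G.bs M b = b) {k : ℕ} (hk : k < nco M b) :
    (lay H).w (M.ν^[k] b) = (G.vl M b).e k ++ G.ex (M.ν^[k] b) := by
  show (G.vl M (G.bs M (M.ν^[k] b))).e (ixf M (G.bs M (M.ν^[k] b)) (M.ν^[k] b)) ++ _ = _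
  have h1 := H.bs_iter b k
  rw [hb] at h1
  rw [h1, ixf_iter H.n1 H.n2 hk]

lemma lay_th (H : G.Ok M) {b : D} (hb : G.bs M b = b) {k : ℕ} (hk : k < nco M b) :
    (lay H).th (M.ν^[k] b) = (G.vl M b).t k := by
  show (G.vl M (G.bs M (M.ν^[k] b))).t (ixf M (G.bs M (M.ν^[k] b)) (M.ν^[k] b)) = _
  have h1 := H.bs_iter b k
  rw [hb] at h1
  rw [h1, ixf_iter H.n1 H.n2 hk]

end GS

/-! ## Relations -/

/-- a real unit at this end -/
lemma ek_real {x : D} (h : M.pos x = .r) : M.ek x = .R := by
  have h1 := M.ekok x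
  have h2 : (M.lab x).pos = .r := h
  rw [h2] at h1
  revert h1
  cases M.ek x <;> cases (M.lab (M.τ x)).pos <;> simp [EK.ok]

lemma relS_ok {L : Layt M} {x : D} {i : ℕ} {a c : Bool}
    (h : relS (M.ek (M.ν x)) (M.pos (M.ν x)) ((L.w x).getD i (true, 0)).1 a c = true) :
    L.okc x i a c := by
  unfold Layt.okc
  have h1 := M.ekok (M.ν x)
  have h2 : (M.lab (M.ν x)).pos = M.pos (M.ν x) := rfl
  rw [h2] at h1
  generalize M.ek (M.ν x) = k at h h1 ⊢
  generalize M.pos (M.ν x) = p at h h1 ⊢
  generalize (M.lab (M.τ (M.ν x))).pos = q at h1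
  generalize ((L.w x).getD i (true, 0)).1 = s at h ⊢
  by_cases hk : k = .R
  · rw [if_pos hk]
    subst hk
    simpa [relS, rK] using h
  · rw [if_neg hk]
    left
    revert h h1 hk
    cases k <;> cases p <;> cases q <;> cases s <;> cases a <;> cases c <;>
      simp [relS, rK, rZ, rX, rO, rI, EK.ok, okP, posOp]

lemma relD_ok {L : Layt M} {x : D} {i : ℕ} {a c : Bool} (hd : L.dl x i = true)
    (h : relD (M.ek (M.ν x)) (M.pos (M.ν x)) ((L.w x).getD i (true, 0)).1 a c = true) :
    L.okc x i a c := by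
  unfold Layt.okc
  have h1 := M.ekok (M.ν x)
  have h2 : (M.lab (M.ν x)).pos = M.pos (M.ν x) := rfl
  have h3 : (M.lab (M.τ (M.ν x))).pos = M.pos (M.E x) := by
    have : M.τ (M.ν x) = M.E x := M.ττ _
    rw [this]; rfl
  rw [h2, h3] at h1
  rw [hd]
  generalize M.ek (M.ν x) = k at h h1 ⊢
  generalize M.pos (M.ν x) = p at h h1 ⊢
  generalize M.pos (M.E x) = q at h1 ⊢
  generalize ((L.w x).getD i (true, 0)).1 = s at h ⊢
  by_cases hk : k = .R
  · rw [if_pos hk]
    subst hk
    simpa [relD, rK] using h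
  · rw [if_neg hk]
    revert h h1 hk
    cases k <;> cases p <;> cases q <;> cases s <;> cases a <;> cases c <;>
      simp [relD, rK, rF, rZ, rX, rO, rI, EK.ok, okP, posOp]

/-- an empty system -/
lemma lty_empty {S : Sy} (h : S.cr = []) (c : ℕ → Bool) :
    ∃ sw Pos a0, S.LTy c [] sw Pos a0 := by
  have h1 : S.toks = [] := by
    unfold Sy.toks
    rw [h]
    rfl
  refine ⟨fun _ => False, fun _ _ => True, fun _ => true, ?_, ?_, ?_, ?_, ?_, ?_, ?_, ?_⟩
  · intro t ht; rw [h1] at ht; exact absurd ht (by simp)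
  · intro t ht; rw [h1] at ht; exact absurd ht (by simp)
  · intro t ht; rw [h1] at ht; exact absurd ht (by simp)
  · intro t ht; rw [h1] at ht; exact absurd ht (by simp)
  · intro t ht; exact ht.elim
  · intro t ht; rw [h1] at ht; exact absurd ht (by simp)
  · intro t ht; exact absurd ht (by simp)
  · intro t ht; exact absurd ht (by simp)

lemma thp_to4 (l : Loc3) : thp l.to4 = [] := rfl

lemma mkl_mk {x : D} : M.mkl x ↔ mk (M.ek x) (M.pos x) = true := by
  unfold BM.mkl
  generalize M.ek x = k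
  generalize M.pos x = p
  cases k <;> cases p <;> simp [mk]

lemma pkl_pk {x : D} : M.pkl x ↔ pk (M.ek x) (M.pos x) = true := by
  unfold BM.pkl
  generalize M.ek x = k
  generalize M.pos x = p
  cases k <;> cases p <;> simp [pk]

lemma okp_ek (x : D) : okp (M.ek x) (M.pos x) = true := okp_of _ _ _ (M.ekok x)

namespace GS

variable {G : GS D}

/-- the vertex of the layout -/
theorem Ok.vx (H : G.Ok M) {b : D} (hb : G.bs M b = b) {R : ℕ → ℕ → Bool → Rel}
    (hr : ∀ k < nco M b, ∀ i (h : i < ((G.vl M b).e k).length), ∀ a c,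
      R k ((G.vl M b).e k)[i].2 ((G.vl M b).e k)[i].1 a c = true →
      (lay H).okc (M.ν^[k] b) i a c) :
    VxOK (lay H) (fun x => G.cE x = true) b (nco M b) (G.vl M b) R where
  N34 := nco_or b
  per := nco_per b
  inj := nco_inj H.n1 H.n2 b
  w k hk := by
    refine ⟨G.ex (M.ν^[k] b), lay_w H hb hk, fun h => ?_⟩
    obtain ⟨h1, h2⟩ := H.exo _ h
    rw [Function.iterate_succ_apply']
    refine ⟨h1, ?_⟩
    rw [h2]
    simp
  th k hk := lay_th H hb hk
  rl := hr

lemma Ok.getw (H : G.Ok M) {b : D} (hb : G.bs M b = b) {k : ℕ} (hk : k < nco M b) {i : ℕ}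
    (h : i < ((G.vl M b).e k).length) :
    ((lay H).w (M.ν^[k] b)).getD i (true, 0) = ((G.vl M b).e k)[i] := by
  rw [lay_w H hb hk, List.getD_eq_getElem _ _ (by rw [List.length_append]; omega),
    List.getElem_append_left h]

/-- **types at vertices of valence three** -/
theorem Ok.vty3 (H : G.Ok M) {b : D} (hb : G.bs M b = b) (hB : (M.lab b).isB = false) :
    ∃ sw Pos a0, VTy (lay H) (fun x => G.cE x = true) (vtx M b) sw Pos a0 := by
  have hN : nco M b = 3 := by unfold nco; rw [hB]; rfl
  have hvl : G.vl M b = (G.mn b).lc := by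
    unfold vl; rw [if_neg (by rw [hB]; simp)]
  have hper : M.ν (M.ν (M.ν b)) = b := M.n3 b hB
  rcases H.mn3 hB with hm | ⟨ky, a, st, hm⟩
  · -- nothing
    have h0 : G.vl M b = (⟨[], [], []⟩ : Loc3).to4 := by rw [hvl, hm]; rfl
    have hV := H.vx hb (R := R4 (fun _ _ => rK) (fun _ _ => rK) (fun _ _ => rK) (fun _ _ => rK))
      (by
        intro k hk i h
        rw [h0] at h
        exfalso
        rcases k with _ | _ | _ | _ | k <;> simp [Loc4.e, Loc3.to4] at h)
    rw [hN, h0] at hV
    refine hV.vty (sy3_of ⟨[], [], []⟩ (fun _ _ => rK) (fun _ _ => rK) (fun _ _ => rK))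
      (c := fun k => G.cE (M.ν^[k] b)) (fun k hk => Iff.rfl) ?_
    exact lty_empty rfl _
  · have hl := H.lM b
    rw [hm] at hl
    have p0 : M.pos (M.ν b) = (M.lab b).nx.pos := by unfold BM.pos; rw [lab_ν]
    have p1 : M.pos (M.ν (M.ν b)) = (M.lab b).nx.nx.pos := by unfold BM.pos; rw [lab_ν, lab_ν]
    have p2 : M.pos b = (M.lab b).pos := rfl
    have q0 := okp_ek (M := M) (M.ν b)
    have q1 := okp_ek (M := M) (M.ν (M.ν b))
    have q2 := okp_ek (M := M) b
    rw [p0] at q0
    rw [p1] at q1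
    rw [p2] at q2
    cases ky
    · -- link between circles of different classes
      obtain ⟨-, c0, c1, hmk, hY, hnn⟩ := hl
      have h0 : G.vl M b = (eo3 a st).to4 := by rw [hvl, hm]; rfl
      have hd : ∀ i, (lay H).dl b i = true := by
        intro i
        show ((G.gt b).isSome || (match G.mn b with | .l false _ _ => true | _ => false)) = true
        rw [hm]
        simp
      have hV := H.vx hb (R := R4 (Rl (M.ek (M.ν b)) (M.lab b).nx.pos)
        (Rl (M.ek (M.ν (M.ν b))) (M.lab b).nx.nx.pos) (Rl (M.ek b) (M.lab b).pos)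
        (Rl (M.ek b) (M.lab b).pos)) (by
        intro k hk i h a' c' hr
        have hg := H.getw hb hk h
        rw [hN] at hk
        have hk' : k = 0 ∨ k = 1 ∨ k = 2 := by omega
        rcases hk' with rfl | rfl | rfl
        · have hr' : Rl (M.ek (M.ν b)) (M.lab b).nx.pos ((G.vl M b).e 0)[i].2
            ((G.vl M b).e 0)[i].1 a' c' = true := hr
          unfold Rl at hr'
          rw [← hg, ← p0] at hr'
          split_ifs at hr' with h1
          · exact relS_ok hr'
          · exact relD_ok (hd i) hr'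
        · have h2 : ((G.vl M b).e 1)[i].2 = 1 := by
            have h3 : ∀ (w : Wd) (i : ℕ) (h : i < w.length), (∀ q ∈ w, q.2 = 1) → w[i].2 = 1 :=
              fun w i h hw => hw _ (List.getElem_mem h)
            refine h3 _ _ _ ?_
            rw [h0]
            cases st <;> simp [Loc4.e, Loc3.to4, eo3, lnk3]
          have hr' : Rl (M.ek (M.ν (M.ν b))) (M.lab b).nx.nx.pos ((G.vl M b).e 1)[i].2
            ((G.vl M b).e 1)[i].1 a' c' = true := hr
          unfold Rl at hr'
          rw [if_pos h2, ← hg, ← p1] at hr'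
          exact relS_ok (x := M.ν b) hr'
        · have h2 : ((G.vl M b).e 2)[i].2 = 1 := by
            have h3 : ∀ (w : Wd) (i : ℕ) (h : i < w.length), (∀ q ∈ w, q.2 = 1) → w[i].2 = 1 :=
              fun w i h hw => hw _ (List.getElem_mem h)
            refine h3 _ _ _ ?_
            rw [h0]
            cases st <;> simp [Loc4.e, Loc3.to4, eo3, lnk3]
          have hr' : Rl (M.ek b) (M.lab b).pos ((G.vl M b).e 2)[i].2
            ((G.vl M b).e 2)[i].1 a' c' = true := hr
          unfold Rl at hr'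
          rw [if_pos h2, ← hg, ← p2] at hr'
          refine relS_ok (x := M.ν (M.ν b)) ?_
          rw [hper]
          exact hr')
      rw [hN, h0] at hV
      have hleg : legEO (M.lab b) (M.ek (M.ν b)) (M.ek (M.ν (M.ν b))) (M.ek b) a st = true := by
        unfold legEO
        simp only [Bool.and_eq_true]
        refine ⟨⟨⟨⟨⟨⟨?_, q0⟩, q1⟩, q2⟩, ?_⟩, ?_⟩, ?_⟩
        · rw [hB]; rfl
        · cases a
          · simp only [Bool.false_eq_true, if_false] at hmk ⊢
            rw [← p0]
            exact pkl_pk.1 hmk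
          · simp only [if_true] at hmk ⊢
            rw [← p0]
            exact mkl_mk.1 hmk
        · by_cases hY' : M.lab b = .YG
          · rcases hY hY' with h | h
            · rw [h]; simp
            · rw [h]; simp
          · have : (M.lab b != .YG) = true := by simpa using hY'
            rw [this]; rfl
        · by_cases hn' : st = .nn
          · rw [hnn hn']; simp
          · have : (st != .nn) = true := by simpa using hn'
            rw [this]; rfl
      obtain ⟨sw, Pos, a0, hT⟩ := eo_types (c := G.cE (M.ν (M.ν b))) hleg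
      refine hV.vty (sy3_of (eo3 a st) _ _ _) (c := clEO (G.cE (M.ν (M.ν b)))) ?_
        ⟨sw, Pos, a0, hT⟩
      intro k hk
      have hk' : k = 0 ∨ k = 1 ∨ k = 2 := by omega
      rcases hk' with rfl | rfl | rfl
      · show G.cE b = true ↔ true = true
        rw [c0]
      · show G.cE (M.ν b) = true ↔ false = true
        rw [c1]
      · exact Iff.rfl
    · -- completing link
      obtain ⟨hlab, c0, c1⟩ := hl
      have h0 : G.vl M b = (ky3 a st).to4 := by rw [hvl, hm]; rfl
      have hV := H.vx hb (R := R4 (Rl (M.ek (M.ν b)) (M.lab b).nx.pos)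
        (Rl (M.ek (M.ν (M.ν b))) (M.lab b).nx.nx.pos) (Rl (M.ek b) (M.lab b).pos)
        (Rl (M.ek b) (M.lab b).pos)) (by
        intro k hk i h a' c' hr
        have hg := H.getw hb hk h
        rw [hN] at hk
        have hk' : k = 0 ∨ k = 1 ∨ k = 2 := by omega
        rcases hk' with rfl | rfl | rfl
        · have hr' : Rl (M.ek (M.ν b)) (M.lab b).nx.pos ((G.vl M b).e 0)[i].2
            ((G.vl M b).e 0)[i].1 a' c' = true := hr
          have h2 : ((G.vl M b).e 0)[i].1 = !a := by
            have h3 : ∀ (w : Wd) (i : ℕ) (h : i < w.length), (∀ q ∈ w, q.1 = !a) →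
                w[i].1 = !a := fun w i h hw => hw _ (List.getElem_mem h)
            refine h3 _ _ _ ?_
            rw [h0]
            cases st <;> simp [Loc4.e, Loc3.to4, ky3, lnk3]
          unfold Rl at hr'
          split_ifs at hr' with h1
          · rw [← hg, ← p0] at hr'
            exact relS_ok hr'
          · have h5 : relS (M.ek (M.ν b)) (M.lab b).nx.pos ((G.vl M b).e 0)[i].1 a' c' = true := by
              rw [h2] at hr' ⊢
              rw [hlab] at hr' q0 ⊢
              revert hr' q0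
              generalize M.ek (M.ν b) = kk
              cases a <;> cases kk <;> cases a' <;> cases c' <;>
                simp [relD, relS, Lab.nx, Lab.pos, okp, rK, rZ, rX]
            rw [← hg, ← p0] at h5
            exact relS_ok h5
        · have h2 : ((G.vl M b).e 1)[i].2 = 1 := by
            have h3 : ∀ (w : Wd) (i : ℕ) (h : i < w.length), (∀ q ∈ w, q.2 = 1) → w[i].2 = 1 :=
              fun w i h hw => hw _ (List.getElem_mem h)
            refine h3 _ _ _ ?_
            rw [h0]
            cases st <;> simp [Loc4.e, Loc3.to4, ky3, lnk3]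
          have hr' : Rl (M.ek (M.ν (M.ν b))) (M.lab b).nx.nx.pos ((G.vl M b).e 1)[i].2
            ((G.vl M b).e 1)[i].1 a' c' = true := hr
          unfold Rl at hr'
          rw [if_pos h2, ← hg, ← p1] at hr'
          exact relS_ok (x := M.ν b) hr'
        · have h2 : ((G.vl M b).e 2)[i].2 = 1 := by
            have h3 : ∀ (w : Wd) (i : ℕ) (h : i < w.length), (∀ q ∈ w, q.2 = 1) → w[i].2 = 1 :=
              fun w i h hw => hw _ (List.getElem_mem h)
            refine h3 _ _ _ ?_
            rw [h0]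
            cases st <;> simp [Loc4.e, Loc3.to4, ky3, lnk3]
          have hr' : Rl (M.ek b) (M.lab b).pos ((G.vl M b).e 2)[i].2
            ((G.vl M b).e 2)[i].1 a' c' = true := hr
          unfold Rl at hr'
          rw [if_pos h2, ← hg, ← p2] at hr'
          refine relS_ok (x := M.ν (M.ν b)) ?_
          rw [hper]
          exact hr')
      rw [hN, h0] at hV
      rw [hlab] at q0 q1 q2
      obtain ⟨sw, Pos, a0, hT⟩ := ky_types (k0 := M.ek (M.ν b)) (k1 := M.ek (M.ν (M.ν b)))
        (k2 := M.ek b) (a := a) st (G.cE (M.ν (M.ν b))) q0 q1 q2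
      refine hV.vty (sy3_of (ky3 a st) _ _ _) (c := clKY a (G.cE (M.ν (M.ν b)))) ?_
        ⟨sw, Pos, a0, ?_⟩
      · intro k hk
        have hk' : k = 0 ∨ k = 1 ∨ k = 2 := by omega
        rcases hk' with rfl | rfl | rfl
        · show G.cE b = true ↔ (!a) = true
          rw [c0]
        · show G.cE (M.ν b) = true ↔ (!a) = true
          rw [c1]
        · exact Iff.rfl
      · rw [hlab]
        exact hT

/-- legal gate links at a corner before a gate -/
lemma legG_of {y : D} {g : M9} (h : okGt M G.cE y g) (hp : M.pos (M.ν y) = .t) :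
    legG (M.ek (M.ν y)) g = true := by
  rcases g with _ | ⟨a, st⟩
  · rfl
  · obtain ⟨-, -, -, h4, h5⟩ := h a st rfl
    unfold legG
    simp only [Bool.and_eq_true]
    constructor
    · rw [← hp]
      cases a
      · simp only [Bool.false_eq_true, if_false] at h4 ⊢
        exact pkl_pk.1 h4
      · simp only [if_true] at h4 ⊢
        exact mkl_mk.1 h4
    · by_cases hn' : st = .nn
      · rw [h5 hn']; simp
      · have : (st != .nn) = true := by simpa using hn'
        rw [this]; rfl

lemma gtC_of {y : D} {g : M9} (h : okGt M G.cE y g) :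
    (g.isNone || (G.cE y && !(G.cE (M.ν y)))) = true := by
  rcases g with _ | ⟨a, st⟩
  · rfl
  · obtain ⟨-, h2, h3, -⟩ := h a st rfl
    rw [h2, h3]
    rfl

/-- the corners of a bad tripod -/
lemma Ok.lab4 (H : G.Ok M) {b : D} (hb : G.bs M b = b) (hB : (M.lab b).isB = true) :
    M.lab b = .B3 ∧ M.lab (M.ν b) = .B2 ∧ M.lab (M.ν (M.ν b)) = .B3 ∧
      M.lab (M.ν (M.ν (M.ν b))) = .B2 := by
  have h1 : M.lab b = .B3 := by
    have h2 := (H.bs_spec b).2.2
    rw [hb] at h2
    exact h2 hB
  refine ⟨h1, ?_, ?_, ?_⟩ <;> simp only [lab_ν, h1, Lab.nx]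

/-- **the legal state at a bad tripod** -/
theorem Ok.legQ4 (H : G.Ok M) {b : D} (hb : G.bs M b = b) (hB : (M.lab b).isB = true) :
    legQ (G.mn b) (G.gt (M.ν b)) (G.gt (M.ν (M.ν (M.ν b)))) (M.ek (M.ν (M.ν b))) (M.ek b)
      (G.cE b) (G.cE (M.ν b)) (G.cE (M.ν (M.ν b))) (G.cE (M.ν (M.ν (M.ν b)))) = true := by
  obtain ⟨l1, l2, l3, l4⟩ := H.lab4 hb hB
  have hper : M.ν (M.ν (M.ν (M.ν b))) = b := M.n4 b hB
  have p2 : M.pos (M.ν (M.ν b)) = .t := by unfold BM.pos; rw [l3]; rfl
  have p4 : M.pos b = .t := by unfold BM.pos; rw [l1]; rfl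
  unfold legQ
  simp only [Bool.and_eq_true]
  refine ⟨⟨⟨⟨⟨⟨?_, ?_⟩, ?_⟩, ?_⟩, ?_⟩, ?_⟩, ?_⟩
  · rw [← p2]; exact okp_ek _
  · rw [← p4]; exact okp_ek _
  · exact legG_of (H.lG _) p2
  · have h := legG_of (H.lG (M.ν (M.ν (M.ν b)))) (by rw [hper]; exact p4)
    rwa [hper] at h
  · have h := H.lM b
    rcases hm : G.mn b with _ | ⟨ky, a, st⟩ | m | x_
    · rfl
    · exact absurd hm (H.mn4 hB ky a st)
    · rw [hm] at h; exact h.2
    · rw [hm] at h; exact h.2
  · exact gtC_of (H.lG _)
  · have h := gtC_of (H.lG (M.ν (M.ν (M.ν b))))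
    rwa [hper] at h

theorem lc_ltX : (allX.all fun x => (x.loc.e2 ++ x.loc.e4).all fun p => decide (p.2 < 10)) = true := by
  decide +kernel

/-- names of the main lanes -/
lemma lc_lt (q : Sq) : ∀ p ∈ q.lc.e2 ++ q.lc.e4, p.2 < 10 := by
  rcases q with _ | ⟨ky, a, st⟩ | m | x_
  · simp [Sq.lc]
  · cases ky <;> cases a <;> cases st <;> simp [Sq.lc, Loc3.to4, ky3, eo3, lnk3]
  · rcases m with _ | s | s | s | s | s | s | s | s
    · simp [Sq.lc, Mn.loc]
    all_goals cases s <;> simp [Sq.lc, Mn.loc]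
  · have t := lc_ltX
    simp only [List.all_eq_true, decide_eq_true_eq] at t
    exact fun p hp => t x_ (mem_allX x_) p hp

/-- **types at bad tripods** -/
theorem Ok.vty4 (H : G.Ok M) {b : D} (hb : G.bs M b = b) (hB : (M.lab b).isB = true) :
    ∃ sw Pos a0, VTy (lay H) (fun x => G.cE x = true) (vtx M b) sw Pos a0 := by
  obtain ⟨l1, l2, l3, l4⟩ := H.lab4 hb hB
  have hN : nco M b = 4 := by unfold nco; rw [hB]; rfl
  have hvl : G.vl M b = locS (G.mn b) (G.gt (M.ν b)) (G.gt (M.ν (M.ν (M.ν b)))) := by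
    unfold vl; rw [if_pos hB]
  have hper : M.ν (M.ν (M.ν (M.ν b))) = b := M.n4 b hB
  have p1 : M.pos (M.ν b) = .r := by unfold BM.pos; rw [l2]; rfl
  have p2 : M.pos (M.ν (M.ν b)) = .t := by unfold BM.pos; rw [l3]; rfl
  have p3 : M.pos (M.ν (M.ν (M.ν b))) = .r := by unfold BM.pos; rw [l4]; rfl
  have p4 : M.pos b = .t := by unfold BM.pos; rw [l1]; rfl
  have hd : ∀ y i, G.gt y ≠ none → (lay H).dl y i = true := by
    intro y i h
    show ((G.gt y).isSome || (match G.mn y with | .l false _ _ => true | _ => false)) = true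
    rcases hg : G.gt y with _ | g
    · exact absurd hg h
    · rfl
  have key : ∀ (x : D) (k : EK) (i : ℕ) (q : Bool × ℕ) (a' c' : Bool),
      M.ek (M.ν x) = k → M.pos (M.ν x) = .t → ((lay H).w x).getD i (true, 0) = q →
      (G.gt x = none → q.2 < 10) → RB k q.2 q.1 a' c' = true → (lay H).okc x i a' c' := by
    intro x k i q a' c' h1 h2 h3 h4 hr
    unfold RB at hr
    split_ifs at hr with h5
    · have h6 : G.gt x ≠ none := fun h => by have := h4 h; omega
      rw [← h1, ← h2, ← h3] at hr
      exact relD_ok (hd x i h6) hr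
    · rw [← h1, ← h2, ← h3] at hr
      exact relS_ok hr
  have hV := H.vx hb (R := R4 (fun _ _ => rK) (RB (M.ek (M.ν (M.ν b)))) (fun _ _ => rK)
    (RB (M.ek b))) (by
      intro k hk i h a' c' hr
      have hg := H.getw hb hk h
      rw [hN] at hk
      have hk' : k = 0 ∨ k = 1 ∨ k = 2 ∨ k = 3 := by omega
      rcases hk' with rfl | rfl | rfl | rfl
      · show (lay H).okc b i a' c'
        unfold Layt.okc
        rw [if_pos (ek_real p1)]
        have hr' : (a' == c') = true := hr
        simpa using hr'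
      · have h' : i < ((G.gt (M.ν b)).D 10 ++ (G.mn b).lc.e2).length := by
          have := h
          rw [hvl] at this
          exact this
        refine key (M.ν b) _ i _ a' c' rfl p2 hg ?_ hr
        intro hn
        have h3 : ((G.vl M b).e 1) = (G.gt (M.ν b)).D 10 ++ (G.mn b).lc.e2 := by rw [hvl]; rfl
        have h4 : ∀ (w : Wd) (i : ℕ) (h : i < w.length), (∀ q ∈ w, q.2 < 10) → w[i].2 < 10 :=
          fun w i h hw => hw _ (List.getElem_mem h)
        refine h4 _ _ _ ?_
        rw [h3, hn]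
        intro q hq
        exact lc_lt _ q (List.mem_append_left _ hq)
      · show (lay H).okc (M.ν (M.ν b)) i a' c'
        unfold Layt.okc
        rw [if_pos (ek_real p3)]
        have hr' : (a' == c') = true := hr
        simpa using hr'
      · refine key (M.ν (M.ν (M.ν b))) _ i _ a' c' (by rw [hper]) (by rw [hper]; exact p4) hg ?_ hr
        intro hn
        have h3 : ((G.vl M b).e 3) = (G.gt (M.ν (M.ν (M.ν b)))).D 20 ++ (G.mn b).lc.e4 := by
          rw [hvl]; rfl
        have h4 : ∀ (w : Wd) (i : ℕ) (h : i < w.length), (∀ q ∈ w, q.2 < 10) → w[i].2 < 10 :=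
          fun w i h hw => hw _ (List.getElem_mem h)
        refine h4 _ _ _ ?_
        rw [h3, hn]
        intro q hq
        exact lc_lt _ q (List.mem_append_right _ hq))
  rw [hN, hvl] at hV
  obtain ⟨sw, Pos, a0, hT⟩ := q_types (H.legQ4 hb hB)
  refine hV.vty (sy4_of _ _ _ _ _) (c := cl4 (G.cE b) (G.cE (M.ν b)) (G.cE (M.ν (M.ν b)))
    (G.cE (M.ν (M.ν (M.ν b))))) ?_ ⟨sw, Pos, a0, hT⟩
  intro k hk
  have hk' : k = 0 ∨ k = 1 ∨ k = 2 ∨ k = 3 := by omega
  rcases hk' with rfl | rfl | rfl | rfl <;> exact Iff.rfl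

/-- **types of the layout** -/
theorem Ok.vty (H : G.Ok M) :
    ∃ sw Pos a0, VTy (lay H) (fun x => G.cE x = true) (fun _ => True) sw Pos a0 := by
  refine glue fun x => ?_
  have h1 := H.bs_sv x
  have h2 : vtx M x = vtx M (G.bs M x) := by
    funext y
    exact propext ⟨fun h => h1.trans h, fun h => h1.symm.trans h⟩
  rw [h2]
  rcases hB : (M.lab (G.bs M x)).isB with _ | _
  · exact H.vty3 (H.bs_bs x) hB
  · exact H.vty4 (H.bs_bs x) hB

/-- the corner with its number -/
lemma Ok.num (H : G.Ok M) (x : D) : ∃ b k, G.bs M b = b ∧ k < nco M b ∧ x = M.ν^[k] b ∧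
    G.bs M x = b := by
  obtain ⟨k, hk, hy⟩ : ∃ k < nco M (G.bs M x), x = M.ν^[k] (G.bs M x) :=
    vtx_lt (by have := nco_or (M := M) (G.bs M x); omega) (nco_per _) (H.bs_sv x)
  exact ⟨G.bs M x, k, H.bs_bs x, hk, hy, rfl⟩

lemma Ok.okQ4 (H : G.Ok M) {b : D} (hb : G.bs M b = b) (hB : (M.lab b).isB = true) :
    okQ (G.mn b) (G.gt (M.ν b)) (G.gt (M.ν (M.ν (M.ν b)))) = true := by
  have h := H.legQ4 hb hB
  unfold legQ at h
  simp only [Bool.and_eq_true] at h
  obtain ⟨⟨⟨⟨⟨⟨-, -⟩, -⟩, -⟩, h1⟩, h2⟩, h3⟩ := h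
  exact okQ_of h1 h2 h3

lemma Ok.vl4 (H : G.Ok M) {b : D} (hB : (M.lab b).isB = true) :
    G.vl M b = locS (G.mn b) (G.gt (M.ν b)) (G.gt (M.ν (M.ν (M.ν b)))) := by
  unfold vl; rw [if_pos hB]

/-- all checks at a vertex -/
lemma Ok.chkb (H : G.Ok M) {b : D} (hb : G.bs M b = b) : (G.vl M b).chk (nco M b) = true := by
  rcases hB : (M.lab b).isB with _ | _
  · have hN : nco M b = 3 := by unfold nco; rw [hB]; rfl
    have hvl : G.vl M b = (G.mn b).lc := by
      unfold vl; rw [if_neg (by rw [hB]; simp)]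
    rw [hN, hvl]
    rcases H.mn3 hB with hm | ⟨ky, a, st, hm⟩
    · rw [hm]; decide
    · rw [hm]; exact (q3 ky a st).1
  · have hN : nco M b = 4 := by unfold nco; rw [hB]; rfl
    rw [hN, H.vl4 hB]
    exact (q4 (H.okQ4 hb hB)).1

/-- the classes at a lane whose unit is chosen after the types -/
lemma Ok.dl_cls (H : G.Ok M) {x : D} {i : ℕ} (h : (lay H).dl x i = true) :
    G.cE x = true ∧ G.cE (M.ν x) = false := by
  have h' : ((G.gt x).isSome || (match G.mn x with | .l false _ _ => true | _ => false)) = true := h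
  rw [Bool.or_eq_true] at h'
  rcases h' with h1 | h1
  · have h2 := H.lG x
    rcases hg : G.gt x with _ | ⟨a, st⟩
    · rw [hg] at h1; exact absurd h1 (by simp)
    · obtain ⟨-, h3, h4, -⟩ := h2 a st hg
      exact ⟨h3, h4⟩
  · have h2 := H.lM x
    rcases hm : G.mn x with _ | ⟨ky, a, st⟩ | m | x_
    · rw [hm] at h1; exact absurd h1 (by simp)
    · cases ky
      · rw [hm] at h2
        exact ⟨h2.2.1, h2.2.2.1⟩
      · rw [hm] at h1; exact absurd h1 (by simp)
    · rw [hm] at h1; exact absurd h1 (by simp)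
    · rw [hm] at h1; exact absurd h1 (by simp)

/-- **the conditions on the layout** -/
theorem Ok.ok (H : G.Ok M) : (lay H).OK where
  thB x h := by
    obtain ⟨b, k, hb, hk, rfl, -⟩ := H.num x
    rcases hB : (M.lab b).isB with _ | _
    · exfalso
      apply h
      rw [lay_th H hb hk]
      obtain ⟨-, h1, h2⟩ := H.vl3 hB
      rcases k with _ | _ | _ | _ | k <;> simp [Loc4.t, h1, h2]
    · rw [← hB]
      exact PL.isB_iter b k
  th2 x h q hq := by
    obtain ⟨b, k, hb, hk, rfl, -⟩ := H.num x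
    have hB : (M.lab b).isB = true := by
      have := PL.isB_iter (M := M) b k
      rw [h] at this
      exact this.symm
    obtain ⟨l1, l2, l3, l4⟩ := H.lab4 hb hB
    have hN : nco M b = 4 := by unfold nco; rw [hB]; rfl
    obtain ⟨h1, h2, -⟩ := Loc4.chk_thin (H.chkb hb)
    rw [lay_th H hb hk] at hq
    rw [hN] at hk
    have hk' : k = 0 ∨ k = 1 ∨ k = 2 ∨ k = 3 := by omega
    rcases hk' with rfl | rfl | rfl | rfl
    · exact absurd (l1.symm.trans h) (by simp)
    · exact h2 q hq
    · exact absurd (l3.symm.trans h) (by simp)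
    · exact h2 q (List.mem_reverse.1 hq)
  th3 x h q hq := by
    obtain ⟨b, k, hb, hk, rfl, -⟩ := H.num x
    have hB : (M.lab b).isB = true := by
      have := PL.isB_iter (M := M) b k
      rw [h] at this
      exact this.symm
    obtain ⟨l1, l2, l3, l4⟩ := H.lab4 hb hB
    have hN : nco M b = 4 := by unfold nco; rw [hB]; rfl
    obtain ⟨h1, h2, -⟩ := Loc4.chk_thin (H.chkb hb)
    rw [lay_th H hb hk] at hq
    rw [hN] at hk
    have hk' : k = 0 ∨ k = 1 ∨ k = 2 ∨ k = 3 := by omega
    rcases hk' with rfl | rfl | rfl | rfl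
    · exact h1 q hq
    · exact absurd (l2.symm.trans h) (by simp)
    · exact h1 q (List.mem_reverse.1 hq)
    · exact absurd (l4.symm.trans h) (by simp)
  thx x h := by
    obtain ⟨b, k, hb, hk, rfl, -⟩ := H.num x
    have hB : (M.lab b).isB = true := by
      have := PL.isB_iter (M := M) b k
      rw [h] at this
      exact this.symm
    obtain ⟨l1, l2, l3, l4⟩ := H.lab4 hb hB
    have hN : nco M b = 4 := by unfold nco; rw [hB]; rfl
    obtain ⟨-, -, h3⟩ := Loc4.chk_thin (H.chkb hb)
    have e1 : M.ν (M.ν^[k] b) = M.ν^[k + 1] b := (Function.iterate_succ_apply' M.ν k b).symm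
    have hk' : k = 0 ∨ k = 1 ∨ k = 2 ∨ k = 3 := by rw [hN] at hk; omega
    rcases hk' with rfl | rfl | rfl | rfl
    · rw [e1, lay_th H hb hk, lay_th H hb (by rw [hN]; norm_num)]
      exact h3
    · exact absurd (l2.symm.trans h) (by simp)
    · rw [e1, lay_th H hb hk, lay_th H hb (by rw [hN]; norm_num)]
      refine h3.imp (fun h => ?_) (fun h => ?_)
      · show (G.vl M b).t1.reverse = []
        rw [h]; rfl
      · show (G.vl M b).t2.reverse = []
        rw [h]; rfl
    · exact absurd (l4.symm.trans h) (by simp)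
  dl1 x i hi hd hR := by
    obtain ⟨c1, c2⟩ := H.dl_cls hd
    constructor
    · obtain ⟨b, k, hb, hk, rfl, -⟩ := H.num x
      have hex : G.ex (M.ν^[k] b) = [] := by
        by_contra h
        exact hR (H.exo _ h).1
      rw [lay_w H hb hk, hex, List.append_nil] at hi ⊢
      have hd' : ((G.gt (M.ν^[k] b)).isSome ||
        (match G.mn (M.ν^[k] b) with | .l false _ _ => true | _ => false)) = true := hd
      rw [Bool.or_eq_true] at hd'
      have hD : ∀ (a : Bool) (st : LS) (m : ℕ), st ≠ .nn → (M9.D (some (a, st)) m).length ≤ 1 := by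
        intro a st m h
        cases st <;> simp [M9.D] at h ⊢
      rcases hd' with h1 | h1
      · rcases hg : G.gt (M.ν^[k] b) with _ | ⟨a, st⟩
        · rw [hg] at h1; exact absurd h1 (by simp)
        · obtain ⟨g1, -, -, -, g5⟩ := H.lG _ a st hg
          have hst : st ≠ .nn := fun h => hR (g5 h)
          have hB : (M.lab b).isB = true := by
            have := PL.isB_iter (M := M) b k
            rw [g1] at this
            exact this.symm
          obtain ⟨l1, l2, l3, l4⟩ := H.lab4 hb hB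
          have hN : nco M b = 4 := by unfold nco; rw [hB]; rfl
          obtain ⟨-, o1, o2, -⟩ := q4 (H.okQ4 hb hB)
          have hk' : k = 0 ∨ k = 1 ∨ k = 2 ∨ k = 3 := by rw [hN] at hk; omega
          rw [H.vl4 hB] at hi ⊢
          rcases hk' with rfl | rfl | rfl | rfl
          · exact absurd (l1.symm.trans g1) (by simp)
          · have hg' : G.gt (M.ν b) = some (a, st) := hg
            have e : (locS (G.mn b) (G.gt (M.ν b)) (G.gt (M.ν (M.ν (M.ν b))))).e 1 =
                (G.gt (M.ν b)).D 10 ++ (G.mn b).lc.e2 := rfl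
            rw [e, hg'] at hi ⊢
            rcases o1 with o1 | o1
            · rw [hg'] at o1; exact absurd o1 (by simp)
            · rw [o1, List.append_nil] at hi ⊢
              have := hD a st 10 hst
              omega
          · exact absurd (l3.symm.trans g1) (by simp)
          · have hg' : G.gt (M.ν (M.ν (M.ν b))) = some (a, st) := hg
            have e : (locS (G.mn b) (G.gt (M.ν b)) (G.gt (M.ν (M.ν (M.ν b))))).e 3 =
                (G.gt (M.ν (M.ν (M.ν b)))).D 20 ++ (G.mn b).lc.e4 := rfl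
            rw [e, hg'] at hi ⊢
            rcases o2 with o2 | o2
            · rw [hg'] at o2; exact absurd o2 (by simp)
            · rw [o2, List.append_nil] at hi ⊢
              have := hD a st 20 hst
              omega
      · have h2 := H.lM (M.ν^[k] b)
        rcases hm : G.mn (M.ν^[k] b) with _ | ⟨ky, a, st⟩ | m | x_
        · rw [hm] at h1; exact absurd h1 (by simp)
        · cases ky
          · rw [hm] at h2
            obtain ⟨g1, -, -, -, -, g6⟩ := h2
            have hst : st ≠ .nn := fun h => hR (g6 h)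
            have hkb : M.ν^[k] b = b := by
              have h3 := (H.bs_spec b).2.1
              rw [hb] at h3
              exact h3 _ ⟨k, rfl⟩ (by rw [hm]; simp)
            have hk0 : k = 0 := nco_inj H.n1 H.n2 b k 0 hk (by
              have := nco_or (M := M) b; omega) hkb
            subst hk0
            have hB : (M.lab b).isB = false := g1
            have hvl : G.vl M b = (eo3 a st).to4 := by
              unfold vl
              rw [if_neg (by rw [hB]; simp)]
              have : G.mn b = .l false a st := hm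
              rw [this]; rfl
            rw [hvl] at hi ⊢
            revert hi hst
            cases st <;> simp [Loc4.e, Loc3.to4, eo3, lnk3]
          · rw [hm] at h1; exact absurd h1 (by simp)
        · rw [hm] at h1; exact absurd h1 (by simp)
        · rw [hm] at h1; exact absurd h1 (by simp)
    · intro j hj
      by_contra hc
      have hc' : (lay H).dl (opp M x) j = true := by simpa using hc
      have h1 := (H.dl_cls hc').1
      have h2 : G.cE (opp M x) = G.cE (M.ν x) := by
        rw [← H.cEE (opp M x)]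
        unfold opp
        rw [E_μ]
        rfl
      rw [h2, c2] at h1
      exact absurd h1 (by simp)

end GS

end Pool.Agent.MP42.GZ
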