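import Pool.Agent.MP42.GZ.GeoP
import Pool.Agent.MP42.GZ.LyC

/-!
# Legality of the states of a level (owner helper28)

`leg_mn`, `leg_gt`, `legT`: the main states and the gate links of a level are legal.
-/

set_option autoImplicit false
set_option linter.unusedSectionVars false
set_option linter.unusedVariables false

namespace Pool.Agent.MP42.GZ

open Pool.Agent.MP42 Pool.Agent.MP42.U Pool.Agent.MP42.PL Pool.Agent.MP42.O3 Pool.Agent.MP42.O3.BM
open Pool.Agent.MP42.EO

/-- classes at the corners of a bad tripod -/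
lemma clQ_of (κ : LKd) (st : LS) (c : ℕ → Bool) (hok : κ.ok st = true)
    (hk : (∃ i, κ = .m i) ∨ (∃ i z, κ = .w i z) ∨ ∃ P t o, κ = .q P t o)
    (hh : c κ.hi = κ.hc) (hc : c κ.ci = κ.cc) (hb : κ.bx = true → c (κ.bi st) = κ.bc st)
    (ht : ∀ n b, κ.th = some (n, b) → c n = b) :
    (∃ m, κ.sq st = .b m ∧ clM m (c 0) (c 1) (c 2) (c 3) = true) ∨
    (∃ x, κ.sq st = .s x ∧ clQ (.s x) (c 0) (c 1) (c 2) (c 3) = true) := by
  rcases hk with ⟨i, rfl⟩ | ⟨i, z, rfl⟩ | ⟨P, t, o, rfl⟩
  · left
    fin_cases i <;> cases st <;>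
      first
      | exact absurd hok (by decide)
      | refine ⟨_, rfl, ?_⟩
        simp [LKd.hi, LKd.hc, LKd.ci, LKd.cc, clM] at hh hc ⊢
        simp_all
  · fin_cases i <;> cases z <;> cases st <;>
      first
      | exact absurd hok (by decide)
      | left
        refine ⟨_, rfl, ?_⟩
        have hb' := hb rfl
        simp [LKd.hi, LKd.hc, LKd.ci, LKd.cc, LKd.bi, LKd.bc, LKd.th, clM] at hh hc hb' ht ⊢
        simp_all
      | right
        refine ⟨_, rfl, ?_⟩
        have hb' := hb rfl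
        simp [LKd.hi, LKd.hc, LKd.ci, LKd.cc, LKd.bi, LKd.bc, LKd.th, clQ, Sx.cl] at hh hc hb' ht ⊢
        simp_all
  · right
    refine ⟨_, rfl, ?_⟩
    have hb' := hb rfl
    cases P <;>
    · simp [LKd.hi, LKd.hc, LKd.ci, LKd.cc, LKd.bi, LKd.bc, LKd.th, clQ, Sx.cl] at hh hc hb' ht ⊢
      simp_all

variable {D : Type*} {M : BM D} [Finite D]
variable {W : D → Prop} {T : RT M.E} {cl : D → Prop} {rc : D → Rc D} {J : Type*} {x0 : D}

/-- the class as a Boolean -/
lemma cls_b {cE' : D → Bool} (h1 : ∀ y, T.G y → (cl y ↔ cE' y = true)) {y : D} {b : Bool}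
    (hy : T.G y) (h2 : cl y ↔ b = true) : cE' y = b :=
  Bool.eq_iff_iff.2 ((h1 y hy).symm.trans h2)

/-- **the main states are legal** -/
theorem leg_mn (L : LI M W x0 T cl rc) (S : Bxs M W T cl rc J) {cE' : D → Bool}
    (h1 : ∀ y, T.G y → (cl y ↔ cE' y = true))
    (h2 : ∀ b κ st, S.Vd b κ st → κ.bx = true → cE' (cn M b (κ.bi st)) = κ.bc st) (b : D) :
    okMn M cE' b (S.mn b) := by
  by_cases hn : S.mn b = .non
  · rw [hn]; trivial
  obtain ⟨κ, st, hV⟩ := S.mn_ne hn
  have hF := S.vdg L hV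
  rw [S.mn_vd L hV]
  have ch : cE' (cn M b κ.hi) = κ.hc := cls_b h1 hF.hG.1 hF.hG.2
  have cc : cE' (cn M b κ.ci) = κ.cc := cls_b h1 hF.cG.1 hF.cG.2
  rcases hB : (M.lab b).isB with _ | _
  · -- valence three
    obtain ⟨a, hκ⟩ := hF.b3 hB
    have hy : ∃ y, S.IsM b y ∧ S.κ y = κ ∧ S.lk y = st := by
      rcases hV with h | ⟨j, rfl, h⟩ | ⟨h, -⟩
      · exact h
      · rw [S.vlab j] at hB; exact absurd hB (by decide)
      · rw [S.hlab b h] at hB; exact absurd hB (by decide)
    obtain ⟨y, hy, hyκ, hyst⟩ := hy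
    have hG := hy.1
    have hd := hy.2.1
    have hm := hy.2.2.1
    have hbs : bas M (rc y) = b := hy.2.2.2
    have hK := S.kok L hG hd hm.2
    have hp := (L.ok y hG hd).p
    have hk := (L.ok y hG hd).k
    have e1 : (rc y).hc = cn M b κ.hi := by rw [← hbs, ← hyκ]; exact hK.h
    have e2 : (rc y).cc = cn M b κ.ci := by rw [← hbs, ← hyκ]; exact hK.c
    have hs := S.sv_bs L (y := y)
    rw [hy.2.2.2] at hs
    have hBh : (M.lab (rc y).hc).isB = false := by rw [← hs.isB]; exact hB
    have hnn' : st = .nn → (rc y).kd = .real ∨ (rc y).kd = .root := by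
      rw [← hyst]; exact S.leg y hG hd
    have hkap : κ = kap M (rc y) (S.inf y) := hyκ.symm
    unfold KdOK KdP at hk
    rcases hkd : (rc y).kd with _ | _ | _ | _ | _ | _ | _ | _ | _ | _ | _ <;>
      rw [hkd] at hk hnn'
    · -- real
      have e : κ = .e (decide ((rc y).pl = .aft)) := by
        rw [hkap]; unfold kap; rw [hkd]; simp [hBh]
      rcases hk with ⟨q1, q2, q3, q4⟩ | ⟨q1, q2, q3, q4⟩
      · rw [q1] at e
        rw [e] at ch cc e1 e2 ⊢
        have e2' : (rc y).cc = M.ν b := e2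
        rw [e2'] at q4
        refine ⟨hB, ch, cc, ?_, ?_, fun _ => q4.1⟩
        · exact Or.inl q4.1
        · intro hY
          rcases q4.2 with ⟨-, r1 | r1 | r1⟩ | r1
          · rw [μ_ν] at r1; exact absurd hY r1
          · exact Or.inl r1
          · rw [μ_ν] at r1; exact Or.inr r1
          · have : (M.lab (M.ν b)).isB = (M.lab b).isB := isB_ν b
            rw [r1, hB] at this
            exact absurd this (by decide)
      · rw [q1] at e
        rw [e] at ch cc e1 e2 ⊢
        have e1' : (rc y).hc = M.ν b := e1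
        rw [e1'] at q4
        refine ⟨hB, cc, ch, ?_, ?_, fun _ => q4.1⟩
        · exact Or.inl q4.1
        · intro hY
          rcases q4.2 with ⟨-, r1 | r1 | r1⟩ | r1
          · rw [μ_ν] at r1; exact absurd hY r1
          · exact Or.inl r1
          · rw [μ_ν] at r1; exact Or.inr r1
          · have : (M.lab (M.ν b)).isB = (M.lab b).isB := isB_ν b
            rw [r1, hB] at this
            exact absurd this (by decide)
    · -- m
      have e : κ = .e true := by
        rw [hkap]; unfold kap; rw [hkd]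
      rw [e] at ch cc e1 e2 ⊢
      have e2' : (rc y).cc = M.ν b := e2
      have e1' : (rc y).hc = b := e1
      obtain ⟨q1, q2, q3, q4, q5, q6⟩ := hk
      rw [e2'] at q5 q6
      rw [e1'] at q6
      refine ⟨hB, ch, cc, q5, ?_, fun h => by simp at hnn'; exact absurd h hnn'⟩
      intro hY
      rcases q6 with r1 | r1 | r1
      · exact absurd hY r1
      · exact Or.inl r1
      · exact Or.inr r1
    · -- p
      have e : κ = .e false := by
        rw [hkap]; unfold kap; rw [hkd]
      rw [e] at ch cc e1 e2 ⊢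
      have e2' : (rc y).cc = b := e2
      have e1' : (rc y).hc = M.ν b := e1
      obtain ⟨q1, q2, q3, q4, q5, q6⟩ := hk
      rw [e1'] at q5 q6
      rw [e2'] at q6
      refine ⟨hB, cc, ch, q5, ?_, fun h => by simp at hnn'; exact absurd h hnn'⟩
      intro hY
      rcases q6 with r1 | r1 | r1
      · exact absurd hY r1
      · exact Or.inl r1
      · exact Or.inr r1
    · -- k1
      have e : κ = .k false := by
        rw [hkap]; unfold kap; rw [hkd]
      rw [e] at ch cc e1 e2 ⊢
      have e2' : (rc y).cc = b := e2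
      rw [e2'] at hk
      exact ⟨hk.2.1, cc, ch⟩
    · -- k2
      have e : κ = .k true := by
        rw [hkap]; unfold kap; rw [hkd]
      rw [e] at ch cc e1 e2 ⊢
      have e1' : (rc y).hc = b := e1
      rw [e1'] at hk
      exact ⟨hk.2.1, ch, cc⟩
    · rw [hk.2.1] at hBh; exact absurd hBh (by decide)
    · rw [hk.2.1] at hBh; exact absurd hBh (by decide)
    · rw [hk.2.1] at hBh; exact absurd hBh (by decide)
    · rw [hk.2.1] at hBh; exact absurd hBh (by decide)
    · exact absurd (Or.inl hkd) hm.1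
    · exact absurd hkd hm.2
  · -- bad tripod
    obtain ⟨hlab, -, hkk⟩ := hF.b4 hB
    rcases clQ_of κ st (fun n => cE' (cn M b n)) hF.ok hkk ch cc (h2 b κ st hV)
      (fun n c hn => cls_b h1 (hF.th n c hn).1 (hF.th n c hn).2) with ⟨m, hm1, hm2⟩ | ⟨x, hx1, hx2⟩
    · rw [hm1]
      exact ⟨hlab, hm2⟩
    · rw [hx1]
      exact ⟨hlab, hx2⟩

/-- **the gate links are legal** -/
theorem leg_gt (L : LI M W x0 T cl rc) (S : Bxs M W T cl rc J) {cE' : D → Bool}
    (h1 : ∀ y, T.G y → (cl y ↔ cE' y = true)) (b : D) : okGt M cE' b (S.gt b) := by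
  intro a st hg
  unfold Bxs.gt at hg
  split_ifs at hg with h
  obtain hz := h.choose_spec
  set y := h.choose with hy
  have hG := hz.1
  have hd := hz.2.1
  have hgk := hz.2.2.1
  have hbs : bas M (rc y) = b := hz.2.2.2
  have hr : (rc y).kd ≠ .root := by
    intro h3
    rcases hgk with h4 | h4
    · rw [h3] at h4; exact absurd h4 (by decide)
    · rw [h3] at h4; exact absurd h4.1 (by decide)
  have hK := S.kok L hG hd hr
  obtain ⟨a', ha', hlab⟩ := hK.gt hgk
  have ha : S.κ y = .g a' := ha'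
  rw [ha] at hg
  simp only [Option.some.injEq, Prod.mk.injEq] at hg
  obtain ⟨rfl, rfl⟩ := hg
  have hlab' : M.lab b = .B2 := by rw [← hbs]; exact hlab
  have hp := (L.ok y hG hd).p
  have hk := (L.ok y hG hd).k
  have gh := hp.G_hc hG hd
  have gc := hp.G_cc hG
  have e1 : (rc y).hc = cn M b (S.κ y).hi := by rw [← hbs]; exact hK.h
  have e2 : (rc y).cc = cn M b (S.κ y).ci := by rw [← hbs]; exact hK.c
  have ch : cE' (cn M b (S.κ y).hi) = (S.κ y).hc := by
    rw [← e1]; exact cls_b h1 gh hK.ch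
  have cc : cE' (cn M b (S.κ y).ci) = (S.κ y).cc := by
    rw [← e2]; exact cls_b h1 gc hK.cc
  rw [ha] at e1 e2 ch cc
  have hnn' := S.leg y hG hd
  have hkap : S.κ y = kap M (rc y) (S.inf y) := rfl
  unfold KdOK KdP at hk
  rcases hgk with h4 | ⟨h4, h5⟩
  · rw [h4] at hk hnn'
    have e : S.κ y = .g (decide ((rc y).pl = .aft)) := by
      rw [hkap]; unfold kap; rw [h4]
    rw [ha] at e
    rcases hk with ⟨q1, q2, q3, q4, q5⟩ | ⟨q1, q2, q3, q4, q5⟩
    · rw [q1] at e
      simp at e
      subst e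
      have e2' : (rc y).cc = M.ν b := e2
      rw [e2'] at q5
      refine ⟨hlab', ch, cc, ?_, fun h => by simp at hnn'; exact absurd h hnn'⟩
      rcases q5 with q5 | q5
      · exact Or.inr (Or.inl q5)
      · exact Or.inr (Or.inr (Or.inr (Or.inl q5)))
    · rw [q1] at e
      simp at e
      subst e
      have e1' : (rc y).hc = M.ν b := e1
      rw [e1'] at q5
      refine ⟨hlab', cc, ch, ?_, fun h => by simp at hnn'; exact absurd h hnn'⟩
      rcases q5 with q5 | q5
      · exact Or.inr (Or.inl q5)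
      · exact Or.inr (Or.inr (Or.inr (Or.inl q5)))
  · rw [h4] at hk hnn'
    have e : S.κ y = .g (decide ((rc y).pl = .aft)) := by
      rw [hkap]; unfold kap; rw [h4]; simp [h5]
    rw [ha] at e
    rcases hk with ⟨q1, q2, q3, q4⟩ | ⟨q1, q2, q3, q4⟩
    · rw [q1] at e
      simp at e
      subst e
      have e2' : (rc y).cc = M.ν b := e2
      rw [e2'] at q4
      exact ⟨hlab', ch, cc, Or.inl q4.1, fun _ => q4.1⟩
    · rw [q1] at e
      simp at e
      subst e
      have e1' : (rc y).hc = M.ν b := e1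
      rw [e1'] at q4
      exact ⟨hlab', cc, ch, Or.inl q4.1, fun _ => q4.1⟩

/-- **legality** -/
theorem legT (L : LI M W x0 T cl rc) (hv : Val M) (S : Bxs M W T cl rc J) : LegH (lgT M) S :=
  ⟨fun cE' h1 h2 b => leg_mn L S h1 (fun b κ st h hb => by
    rw [h2 _ ⟨b, κ, st, h, hb, rfl⟩, S.cE_bc L hv h hb]) b,
   fun cE' h1 b => leg_gt L S h1 b⟩

end Pool.Agent.MP42.GZ
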