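import Pool.Agent.MP42.GZ.LyG
import Pool.Agent.MP42.TQ.LayH

/-!
# The layout theorem from good states of all vertices (owner helper28)

`RtG M G r`: a good global state with the root ring of `r`.  `RtG.layout`: the layout with a token
system.  `root_layout`: the same from `RootGood`.
-/

set_option autoImplicit false
set_option linter.unusedSectionVars false

namespace Pool.Agent.MP42.GZ

open Pool.Agent.MP42.O3 (EK Lab BM)
open Pool.Agent.MP42.O3.BM
open Pool.Agent.MP42.EO
open Pool.Agent.MP42.NE (TS)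
open Pool.Agent.MP42.PL (SV)
open Pool.Agent.MP42.U

variable {D : Type*} {M : BM D}

open Classical in
/-- the sign of a circle -/
noncomputable def sgn (M : BM D) (G : GS D) (r x : D) : ℤ :=
  (if M.E.SameCycle r x then -1 else 1) * (if G.cE x then 1 else -1)

lemma ttl_sgn {G : GS D} {r x : D} : ttl M r G.cE x = 2 * sgn M G r x := by
  unfold ttl sgn
  split_ifs <;> norm_num

lemma sgn_or {G : GS D} {r x : D} : sgn M G r x = 1 ∨ sgn M G r x = -1 := by
  unfold sgn
  split_ifs <;> norm_num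

/-- **a good global state** -/
structure RtG (M : BM D) (G : GS D) (r : D) : Prop where
  ok : G.Ok M
  exn : G.Exn M
  tot : ∀ x, hl (cx tb M G.mn G.gt G.ex x) = ttl M r G.cE x
  pb : ∀ x, Bd 200 (cx tb M G.mn G.gt G.ex x)
  const : ∀ V : D × ℕ → B, LamInv M V → (∀ x, Cl V (cx tb M G.mn G.gt G.ex x)) →
    ∃ k, ∀ x, ∀ q ∈ GZ.vx tb M G.mn G.gt G.ex x, V q.2 = k

namespace GS

variable {G : GS D}

/-- both reductions are the same -/
lemma Ok.red_vsB (H : G.Ok M) {b : D} (hb : G.bs M b = b) {k : ℕ} (hk : k < nco M b) :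
    red ((G.vl M b).cwN (nco M b) k) = (G.vl M b).vsB (nco M b) k := by
  rcases hB : (M.lab b).isB with _ | _
  · have hN : nco M b = 3 := by unfold nco; rw [hB]; rfl
    have hvl : G.vl M b = (G.mn b).lc := by
      unfold vl; rw [if_neg (by rw [hB]; simp)]
    rw [hN, hvl]
    rw [hN] at hk
    rcases H.mn3 hB with hm | ⟨ky, a, st, hm⟩
    · rw [hm]
      interval_cases k <;> decide
    · rw [hm, (q3 ky a st).2 k hk, (uq3 ky a st).2 k hk]
  · have hN : nco M b = 4 := by unfold nco; rw [hB]; rfl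
    rw [hN, H.vl4 hB]
    rw [hN] at hk
    rw [(q4 (H.okQ4 hb hB)).2.2.2 k hk, (uq4 (H.okQ4 hb hB)).2 k hk]

/-- **every token is visible at its vertex** -/
theorem Ok.tok_vis (H : G.Ok M) (E : G.Exn M) {t : (lay H).Tok} (ht : (lay H).wt t ≠ 0) :
    ∃ z, vtx M z ((lay H).home t) ∧ ∃ q ∈ vwd M G z, G.nmv M z q.2.2 = nmT t := by
  obtain ⟨b, hb0⟩ : ∃ b, b = G.bs M ((lay H).home t) := ⟨_, rfl⟩
  have hb : G.bs M b = b := by rw [hb0]; exact H.bs_bs _
  have hVt : vtx M b ((lay H).home t) := by rw [hb0]; exact H.bs_sv _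
  obtain ⟨R, S, hVx, hS⟩ := H.vxs hb
  by_cases hX : exk (G.vl M b) (ixf M b) t
  · obtain ⟨k, hk, -, j, hj, -, hq⟩ := H.ex_tok hb hVt hX
    refine ⟨M.ν^[k] b, vtx_trans (vtx_symm ⟨k, rfl⟩) hVt,
      ((G.ex (M.ν^[k] b))[j].1, (M.ν^[k] b, (G.ex (M.ν^[k] b))[j].2)), ?_, ?_⟩
    · unfold vwd GZ.vx
      refine List.mem_append_right _ (List.mem_append_right _ ?_)
      unfold tag
      rw [List.mem_map]
      exact ⟨_, List.getElem_mem hj, rfl⟩
    · have h1 := E.e89 _ _ (List.getElem_mem hj)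
      show G.nmv M (M.ν^[k] b) (G.ex (M.ν^[k] b))[j].2 = nmT t
      rw [nmv_low (by omega)]
      unfold nmT
      rw [hq]
  · obtain ⟨-, h1⟩ := hVx.qt_eq hS hVt hX ht
    obtain ⟨k, hk, q, hq, h2⟩ := Loc4.vsb_spec (H.chkb hb) h1
    rw [H.red_vsB hb hk, ← H.asm_eq hb hk, List.mem_map] at hq
    obtain ⟨q0, hq0, rfl⟩ := hq
    refine ⟨M.ν^[k] b, vtx_trans (vtx_symm ⟨k, rfl⟩) hVt, (q0.1, (M.ν^[k] b, q0.2)), ?_, ?_⟩
    · unfold vwd GZ.vx
      refine List.mem_append_right _ (List.mem_append_left _ ?_)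
      unfold vw tag
      rw [List.mem_map]
      exact ⟨q0, hq0, rfl⟩
    · show G.nmv M (M.ν^[k] b) q0.2 = nmT t
      rw [hVx.nm_eq hS hVt hX ht]
      exact h2

/-- the number of the extra lanes -/
lemma Exn.len (E : G.Exn M) (y : D) : (G.ex y).length ≤ 2 := by
  have h1 := E.nd y
  have h2 : ((G.ex y).map Prod.snd) ⊆ [8, 9] := by
    intro n hn
    rw [List.mem_map] at hn
    obtain ⟨q, hq, rfl⟩ := hn
    rcases E.e89 y q hq with h | h <;> rw [h] <;> simp
  have h3 := (h1.subperm h2).length_le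
  simpa using h3

/-- the length of the word of a corner -/
lemma Ok.wd_len (H : G.Ok M) (E : G.Exn M) (x : D) : ((lay H).wd x).length ≤ 12 := by
  obtain ⟨b, k, hb, hk, rfl, -⟩ := H.num x
  obtain ⟨R, S, hVx, hS⟩ := H.vxs hb
  have hjN : (k + nco M b - 1) % nco M b < nco M b := Nat.mod_lt _ hVx.pos
  have hμ := hVx.dn hk
  unfold Layt.wd
  rw [hμ, lay_w H hb hjN, lay_w H hb hk, lay_th H hb hk]
  have h1 := Loc4.chk_len (H.chkb hb) k hk
  have h2 := E.len (M.ν^[(k + nco M b - 1) % nco M b] b)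
  have h3 := E.len (M.ν^[k] b)
  unfold Loc4.cwN at h1
  simp only [List.length_append, List.length_reverse] at h1 ⊢
  omega

end GS

section

variable [Fintype D] {G : GS D} {r : D}

lemma RtG.htot (H : RtG M G r) (x : D) : hl (cx tb M G.mn G.gt G.ex x) = 2 ∨
    hl (cx tb M G.mn G.gt G.ex x) = -2 := by
  rw [H.tot, ttl_sgn]
  rcases sgn_or (M := M) (G := G) (r := r) (x := x) with h | h <;> rw [h] <;> norm_num

/-- **constant values** -/
theorem RtG.const_tok (H : RtG M G r) {S : (GS.lay H.ok).Tok → ℕ → Prop}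
    (hS : TS (GS.lay H.ok).F (GS.lay H.ok).lam (GS.lay H.ok).wt S)
    (hd : ∀ x, ¬ M.E.SameCycle r x → Deep (Sxy S x)) :
    ∃ k, ∀ t, (GS.lay H.ok).wt t ≠ 0 → tvl S t = k := by
  obtain ⟨k, hk⟩ := H.const (GS.VS H.ok S) (GS.Vn_lam H.ok _)
    (H.ok.cl_all H.exn H.htot hS hd)
  refine ⟨k, fun t ht => ?_⟩
  obtain ⟨z, hz, q, hq, hn⟩ := H.ok.tok_vis H.exn ht
  obtain ⟨-, -, -, -, h4, -⟩ := H.ok.word_eq H.exn z
  have h1 := hk z q hq
  have h2 := h4 q hq
  obtain ⟨s, y, n⟩ := q
  change y = z at h2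
  subst h2
  rw [← h1]
  exact (GS.Vn_eq H.ok H.exn (tvl_val hS) hz ht hn.symm).symm

/-- the sums of the circles -/
lemma RtG.sum_cir (H : RtG M G r) (x : D) [DecidablePred fun y => M.E.SameCycle x y] :
    ∑ y ∈ Finset.univ.filter (fun y => M.E.SameCycle x y),
      (((GS.lay H.ok).W y).map (GS.lay H.ok).wt).sum = 2 * sgn M G r x := by
  rw [Finset.sum_congr rfl fun y _ => (H.ok.hl_cor H.exn y).symm, cir_sum]
  rw [← ttl_sgn, ← H.tot]
  exact (hl_flatMap _ _).symm

lemma sgn_E (H : RtG M G r) (x : D) : sgn M G r (M.E x) = sgn M G r x := by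
  unfold sgn
  rw [H.ok.cEE]
  have h1 : M.E.SameCycle r (M.E x) ↔ M.E.SameCycle r x := Equiv.Perm.sameCycle_apply_right
  by_cases h : M.E.SameCycle r x
  · rw [if_pos h, if_pos (h1.2 h)]
  · rw [if_neg h, if_neg (fun h2 => h (h1.1 h2))]

/-- a bound of the sum of a word -/
lemma abs_sgq (u : Wd) : |(u.map sgq).sum| ≤ u.length := by
  induction u with
  | nil => simp
  | cons q u ih =>
    rw [List.map_cons, List.sum_cons, List.length_cons]
    have h1 : |sgq q| = 1 := by
      rcases sgq_or q with h | h <;> rw [h] <;> norm_num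
    have h2 := abs_add_le (sgq q) (u.map sgq).sum
    push_cast
    linarith

/-- **bounded sums** -/
theorem RtG.pbs (H : RtG M G r) : PB (GS.lay H.ok).F (GS.lay H.ok).wt (3 * 212) := by
  refine Layt.pb_of fun x => ⟨x, Equiv.Perm.SameCycle.refl _ _, fun n hn v hv => ?_⟩
  have hn' : n ≤ Function.minimalPeriod M.E x := by
    by_contra hc
    push Not at hc
    refine hn _ (per_pos x) hc ?_
    rw [← iter_E]
    exact Function.iterate_minimalPeriod
  have key : ∀ n v, v <+: (GS.lay H.ok).wn x n → ∃ j ≤ n, ∃ u : Wd, u.length ≤ 12 ∧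
      (v.map sgq).sum = hl ((orb M.E x j).flatMap (GS.vwd M G)) + (u.map sgq).sum := by
    intro n
    induction n with
    | zero =>
      intro v hv
      have h' : v <+: [] := hv
      rw [List.prefix_nil] at h'
      exact ⟨0, le_rfl, [], by simp, by rw [h']; rfl⟩
    | succ n ih =>
      intro v hv
      rw [Layt.wn_succ] at hv
      rcases prefix_cases hv with h | ⟨u', hu, h⟩
      · obtain ⟨j, hj, u, h1, h2⟩ := ih v h
        exact ⟨j, by omega, u, h1, h2⟩
      · refine ⟨n, by omega, u', h.length_le.trans (H.ok.wd_len H.exn _), ?_⟩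
        rw [hu, List.map_append, List.sum_append]
        congr 1
        clear hu h hv ih
        have h3 : ∀ m, (((GS.lay H.ok).wn x m).map sgq).sum =
            hl ((orb M.E x m).flatMap (GS.vwd M G)) := by
          intro m
          induction m with
          | zero => rfl
          | succ m ih =>
            rw [Layt.wn_succ, List.map_append, List.sum_append, ih, orb_succ,
              List.flatMap_append, hl_append]
            congr 1
            rw [List.flatMap_cons, List.flatMap_nil, List.append_nil, H.ok.hl_cor H.exn,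
              Layt.sum_W, iter_E]
        exact h3 n
  obtain ⟨j, hj, u, h1, h2⟩ := key n v hv
  have h3 : ∃ w, cx tb M G.mn G.gt G.ex x = (orb M.E x j).flatMap (GS.vwd M G) ++ w := by
    obtain ⟨d, hd⟩ : ∃ d, Function.minimalPeriod M.E x = j + d := ⟨_, (Nat.add_sub_of_le
      (hj.trans hn')).symm⟩
    refine ⟨(((List.range d).map (j + ·)).map fun m => M.E^[m] x).flatMap (GS.vwd M G), ?_⟩
    unfold cx cir orb
    rw [hd, List.range_add, List.map_append, List.flatMap_append]
  obtain ⟨w, hw⟩ := h3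
  obtain ⟨h4, h5⟩ := H.pb x _ _ hw
  have h6 := abs_sgq u
  have h7 : (u.length : ℤ) ≤ 12 := by exact_mod_cast h1
  rw [h2, abs_le]
  rw [abs_le] at h6
  push_cast
  constructor <;> linarith [h6.1, h6.2]

/-- **the layout and the token system of a good global state** -/
theorem RtG.layout (H : RtG M G r) : ∃ (sw : (GS.lay H.ok).Tok → Prop)
    (Pos : (GS.lay H.ok).Tok → Bool → Prop) (a0 : (GS.lay H.ok).Tok → Bool),
    (GS.lay H.ok).Mono Pos ∧ TkE (GS.lay H.ok).F (GS.lay H.ok).lam (GS.lay H.ok).wt 636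
      ((GS.lay H.ok).idt r) (sgn M G r r) (fun t => sgn M G r ((GS.lay H.ok).home t))
      (fun t => G.cE ((GS.lay H.ok).home t) = true) sw (GS.lay H.ok).okt Pos a0 := by
  classical
  obtain ⟨sw, Pos, a0, hV⟩ := H.ok.vty
  have hsum : ∀ t : (GS.lay H.ok).Tok, ∑ u ∈ Finset.univ.filter
      (fun u => (GS.lay H.ok).F.SameCycle t u), (GS.lay H.ok).wt u =
        2 * sgn M G r ((GS.lay H.ok).home t) := by
    intro t
    have h1 := (Layt.fol (L := GS.lay H.ok)).sum Layt.W_blk (GS.lay H.ok).wt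
      (Layt.mem_W.2 rfl : t ∈ (GS.lay H.ok).W ((GS.lay H.ok).home t))
    rw [← H.sum_cir]
    refine Eq.trans (Finset.sum_congr (by ext; simp) (fun _ _ => rfl)) (h1.trans ?_)
    exact Finset.sum_congr (by ext; simp) (fun _ _ => rfl)
  have hadj : ∀ {t u : (GS.lay H.ok).Tok}, AdjL (GS.lay H.ok) u t ∨ AdjL (GS.lay H.ok) t u →
      AdjT (GS.lay H.ok).F (GS.lay H.ok).wt u t ∨ AdjT (GS.lay H.ok).F (GS.lay H.ok).wt t u :=
    fun h => h.imp AdjL.adj AdjL.adj
  refine ⟨sw, Pos, a0, ?_, ?_⟩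
  · intro t u h1 h2 h3 h4 a b ha hb hab
    exact hV.mono t u trivial h1 h2 h3 h4 a b ha hb hab
  refine
    { ll := ?_, wl := Layt.wt_lam, w1 := Layt.wt_or, sg1 := fun t => sgn_or, sgF := ?_, sgr := rfl,
      sum := ?_, pb := H.pbs, conn := ?_, clsF := ?_, swp := ?_, oks := Layt.okt_symm _,
      nosink := fun t ht => hV.nosink t trivial ht,
      src := fun t ht => hV.src t trivial ht,
      flow := fun t ht => hV.flow t trivial ht,
      strand := ?_, root := ?_, pos := fun t ht => hV.pos t trivial ht }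
  · intro t
    refine Layt.lam_lam (fun x hx => ?_) t
    by_contra hc
    have := H.ok.ok.thB x hc
    rw [hx] at this
    exact absurd this (by simp)
  · intro t
    exact Layt.cst_F (g := fun x => sgn M G r x) (sgn_E H) t
  · intro t
    refine Eq.trans (Finset.sum_congr (by ext; simp) (fun _ _ => rfl)) (hsum t)
  · -- conn
    intro S ρ hS hρ hdp
    obtain ⟨K, hK⟩ := hdp
    have hd : ∀ x, ¬ M.E.SameCycle r x → Deep (Sxy S x) := by
      intro x hx
      obtain ⟨t, ht⟩ : ∃ t, t = (GS.lay H.ok).F.symm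
        (((GS.lay H.ok).W x).head (Layt.W_ne x)) := ⟨_, rfl⟩
      refine ⟨K, U.ind (ρ t), fun j hj => ?_⟩
      unfold Sxy
      rw [← ht]
      refine U.ind_congr (hK t (fun h => hx ?_) j hj)
      have h1 : (GS.lay H.ok).F.SameCycle (((GS.lay H.ok).W x).head (Layt.W_ne x))
          ((GS.lay H.ok).idt r) := by
        refine Equiv.Perm.SameCycle.trans ?_ h
        rw [ht]
        exact Equiv.Perm.SameCycle.symm ⟨1, by simp⟩
      have h2 := ((Layt.fol (L := GS.lay H.ok)).same_iff Layt.W_blk (List.head_mem (Layt.W_ne x))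
        (Layt.mem_W.2 rfl : (GS.lay H.ok).idt r ∈ (GS.lay H.ok).W
          ((GS.lay H.ok).home ((GS.lay H.ok).idt r)))).1 h1
      exact h2.symm
    obtain ⟨k, hk⟩ := H.const_tok hS hd
    refine ⟨k = 1, fun t j => ?_⟩
    obtain ⟨N, hN⟩ := cir_of_sum t sgn_or
      (Eq.trans (Finset.sum_congr (by ext; simp) (fun _ _ => rfl)) (hsum t)) H.pbs
    have h1 := const_of_val Layt.wt_or (Layt.stA_of_TS hS) hN sgn_or (c := (k = 1)) (by
      intro u _ hu
      have h2 := hk u hu
      rw [tvl_ne hu] at h2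
      refine propext ?_
      change tv (GS.lay H.ok).F (GS.lay H.ok).wt S u ↔ k = 1
      rw [← h2]
      unfold U.ind
      split_ifs with h3
      · exact ⟨fun _ => rfl, fun _ => h3⟩
      · exact ⟨fun h4 => absurd h4 h3, fun h4 => absurd h4 (by decide)⟩) j
    rw [h1]
  · intro t
    show G.cE _ = true ↔ G.cE _ = true
    rw [Layt.cst_F (g := fun x => G.cE x) H.ok.cEE t]
  · intro t ht
    obtain ⟨u, h1, h2⟩ := hV.swp t trivial ht
    exact ⟨u, hadj h1, h2⟩
  · intro t ht h1
    rcases hV.strand t trivial ht h1 with h2 | ⟨u, h2, h3⟩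
    · exact Or.inl h2
    · exact Or.inr ⟨u, hadj h2, h3⟩
  · show sgn M G r r = 1 ↔ ¬ (G.cE r = true)
    unfold sgn
    rw [if_pos (Equiv.Perm.SameCycle.refl _ _)]
    rcases h : G.cE r with _ | _ <;> simp

end

/-! ## From good states -/

/-- good states as global states -/
theorem rtG_of {r : D} (n1 : ∀ x, M.ν x ≠ x) (n2 : ∀ x, M.ν (M.ν x) ≠ x) {mn : D → Sq}
    {gt : D → M9} {cE : D → Bool} {ex : D → Wd} {e : D} {σ : Bool}
    (h : RootGood (T := tb) (M := M) (lgT M) r mn gt cE ex e σ) :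
    RtG M ⟨mn, gt, cE, ex⟩ r where
  ok :=
    { n1 := n1
      n2 := n2
      cEE := h.cEE
      one := h.one
      lM := h.lM
      lG := h.lG
      exo := by
        intro y hy
        have h1 : y = e := by
          by_contra hc
          exact hy (h.exl.z y hc)
        rw [h1]
        refine ⟨h.exl.k, ?_⟩
        show cE e = !(cE (M.ν e))
        rw [h.exl.c0, h.exl.c1]
        rfl }
  exn :=
    { e89 := by
        intro y q hq
        have h1 : y = e := by
          by_contra hc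
          have h2 : ex y = [] := h.exl.z y hc
          change q ∈ ex y at hq
          rw [h2] at hq
          simp at hq
        subst h1
        change q ∈ ex y at hq
        rcases h.exl.w with h2 | h2 <;> rw [h2] at hq
        · simp at hq; rw [hq]; exact Or.inl rfl
        · simp at hq
          rcases hq with hq | hq <;> rw [hq]
          · exact Or.inl rfl
          · exact Or.inr rfl
      nd := by
        intro y
        show ((ex y).map Prod.snd).Nodup
        by_cases hy : y = e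
        · subst hy
          rcases h.exl.w with h2 | h2 <;> rw [h2] <;> simp
        · rw [h.exl.z y hy]; simp
      dis := by
        intro y z _ hyz q hq q' hq'
        exfalso
        change q ∈ ex y at hq
        change q' ∈ ex z at hq'
        by_cases hy : y = e
        · have hz : z ≠ e := fun hz => hyz (hy.trans hz.symm)
          rw [h.exl.z z hz] at hq'
          simp at hq'
        · rw [h.exl.z y hy] at hq
          simp at hq }
  tot := h.tot
  pb := h.pb
  const := h.const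

/-- **the layout theorem for one map** -/
theorem root_layout [Fintype D] {r : D} (n1 : ∀ x, M.ν x ≠ x) (n2 : ∀ x, M.ν (M.ν x) ≠ x)
    {mn : D → Sq} {gt : D → M9} {cE : D → Bool} {ex : D → Wd} {e : D} {σ : Bool}
    (h : RootGood (T := tb) (M := M) (lgT M) r mn gt cE ex e σ) :
    ∃ (L : Layt M) (sg : L.Tok → ℤ) (cls sw : L.Tok → Prop) (Pos : L.Tok → Bool → Prop)
      (a0 : L.Tok → Bool), L.OK ∧ L.Mono Pos ∧
      TkE L.F L.lam L.wt 636 (L.idt r) (if σ then 1 else -1) sg cls sw L.okt Pos a0 := by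
  have H := rtG_of n1 n2 h
  obtain ⟨sw, Pos, a0, h1, h2⟩ := H.layout
  have h3 : sgn M ⟨mn, gt, cE, ex⟩ r r = if σ then 1 else -1 := by
    unfold sgn
    rw [if_pos (Equiv.Perm.SameCycle.refl _ _)]
    show -1 * (if cE r = true then (1 : ℤ) else -1) = _
    have hc : ∀ x y, M.E.SameCycle x y → cE y = cE x := by
      intro x y hxy
      obtain ⟨n, rfl⟩ := hxy
      have key : ∀ (n : ℕ) (x : D), cE ((M.E ^ n) x) = cE x := by
        intro n
        induction n with
        | zero => intro x; rfl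
        | succ n ih => intro x; rw [pow_succ', Equiv.Perm.mul_apply, h.cEE, ih]
      rcases n with n | n
      · exact key n x
      · have h4 := key (n + 1) ((M.E ^ (Int.negSucc n)) x)
        rw [← h4, zpow_negSucc, ← Equiv.Perm.mul_apply, mul_inv_cancel, Equiv.Perm.one_apply]
    rcases h.exl.s with ⟨rfl, h4⟩ | ⟨rfl, h4⟩
    · rw [← hc r e h4, h.exl.c0]; norm_num
    · rw [← hc r _ h4, h.exl.c1]; norm_num
  rw [h3] at h2
  exact ⟨GS.lay H.ok, _, _, sw, Pos, a0, H.ok.ok, h1, h2⟩

/-- **the layout theorem from good states of all vertices** -/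
theorem layoutThm_of (h : ∀ (D : Type) [Fintype D] (M : BM D) (r : D) (σ : Bool),
    PL.Plan M.E M.τ → (∃ ru rd : D → ℕ, M.Rank ru rd) → (∀ x, M.ν x ≠ x) → (∀ x, M.ν (M.ν x) ≠ x) →
    (∀ x y, Reg M.E M.τ x y) → M.ek (M.ν r) = .R → ¬ M.E.SameCycle r (M.ν r) →
    ∃ (mn : D → Sq) (gt : D → M9) (cE : D → Bool) (ex : D → Wd) (e : D),
      RootGood (T := tb) (M := M) (lgT M) r mn gt cE ex e σ) : LayoutThm 636 := by
  intro D _ M r s h1 h2 h3 h4 h5 h6 h7 h8
  rcases h8 with rfl | rfl
  · obtain ⟨mn, gt, cE, ex, e, h9⟩ := h D M r true h1 h2 h3 h4 h5 h6 h7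
    exact root_layout h3 h4 h9
  · obtain ⟨mn, gt, cE, ex, e, h9⟩ := h D M r false h1 h2 h3 h4 h5 h6 h7
    exact root_layout h3 h4 h9

end Pool.Agent.MP42.GZ
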