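import Pool.Agent.MP42.GZ.Lvl2X
import Pool.Agent.MP42.GZ.LyH

/-!
# Good states of all vertices from levels with extra lanes (owner helper28)

`good_of_levelX`, `root_of_levelX`: levels for all boxes and a top level give a good state of all
vertices.  `layoutThm_ofX`: the layout theorem.  `LvlOut.toX`, `RootOut.toX`: levels without extra
lanes.
-/

set_option autoImplicit false

namespace Pool.Agent.MP42.GZ

open Pool.Agent.MP42.O3 Pool.Agent.MP42.O3.BM Pool.Agent.MP42.U Pool.Agent.MP42.PL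
open Pool.Agent.MP42.EO

variable {D : Type*} {T : Tbl} {M : BM D}

/-! ## levels without extra lanes -/

section NoEx

variable {Lg : Leg (D := D) T} {W : D → Prop} {S : D → Prop} {x0 x1 : D} {n0 n1 : ℕ}
  {mn : D → T.Q} {gt : D → M9} {cE : D → Bool} {b0 b1 : D → D} {m0 m1 : D → ℕ}

lemma exB_no {W : D → Prop} {cE : D → Bool} : ExB M W cE no :=
  ⟨fun _ h => absurd rfl h, fun _ h => absurd rfl h, fun _ h => absurd rfl h,
    fun _ q hq => absurd hq (by simp), fun _ => by simp, fun _ _ _ _ q hq => absurd hq (by simp)⟩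

lemma vxo_ow {ow : D → Wd} {y : D} : vxo T M mn gt ow no y = vw T M mn gt ow y :=
  vxo_nil rfl rfl

lemma cxo_ow {ow : D → Wd} {x : D} : cxo T M mn gt ow no x = cw T M mn gt ow x := by
  unfold cxo cw
  exact List.flatMap_congr fun y _ => vxo_ow

/-- a level without extra lanes -/
theorem LvlOut.toX (L : LvlOut (M := M) Lg W x0 x1 n0 n1 S mn gt cE b0 b1 m0 m1) :
    LvlOutX (M := M) Lg W x0 x1 n0 n1 S mn gt no cE b0 b1 m0 m1 where
  toLvlCore := L.toLvlCore
  cEE := L.cEE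
  inv := L.inv
  box := L.box
  bcst := L.bcst
  bw := L.bw
  lM := L.lM
  lG := L.lG
  exb := exB_no
  tot := fun x hx => by rw [cxo_ow]; exact L.tot x hx
  pb := fun x hx => by rw [cxo_ow]; exact L.pb x hx
  const := fun V hV h1 h2 => by
    obtain ⟨k, h3, h4⟩ := L.const V hV (fun x hx => by rw [← cxo_ow]; exact h1 x hx) h2
    exact ⟨k, fun x hx q hq => h3 x hx q (by rw [← vxo_ow]; exact hq), h4⟩
  S0 := L.S0
  exa := fun _ h => absurd rfl h

/-- the lanes of a root link are extra lanes -/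
theorem Exl.exB {r : D} {ex : D → Wd} {e : D} {σ : Bool} (h : Exl M r cE ex e σ)
    (h1 : S e) (h2 : S (M.ν e)) : ExB M S cE ex := by
  have he : ∀ y, ex y ≠ [] → y = e := fun y hy => by
    by_contra hc
    exact hy (h.z y hc)
  refine ⟨?_, ?_, ?_, ?_, ?_, ?_⟩
  · intro y hy
    rw [he y hy]
    exact ⟨h1, h2⟩
  · intro y hy
    rw [he y hy]
    exact h.k
  · intro y hy
    rw [he y hy, h.c0, h.c1]
    rfl
  · intro y q hq
    rw [he y (List.ne_nil_of_mem hq)] at hq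
    rcases h.w with h2 | h2 <;> rw [h2] at hq
    · simp at hq; rw [hq]; exact Or.inl rfl
    · simp at hq
      rcases hq with hq | hq <;> rw [hq]
      · exact Or.inl rfl
      · exact Or.inr rfl
  · intro y
    by_cases hy : ex y = []
    · rw [hy]; simp
    · rw [he y hy]
      rcases h.w with h2 | h2 <;> rw [h2] <;> simp
  · intro y z _ hyz q hq q' hq'
    exact absurd ((he y (List.ne_nil_of_mem hq)).trans (he z (List.ne_nil_of_mem hq')).symm) hyz

/-- a top level without other extra lanes -/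
theorem RootOut.toX [Finite D] {r : D} {ex : D → Wd} {e : D} {σ : Bool}
    (L : RootOut (M := M) Lg r S mn gt cE b0 b1 m0 m1 ex e σ) :
    RootOutX (M := M) Lg r S mn gt ex cE b0 b1 m0 m1 σ where
  toLvlCore := L.toLvlCore
  cEE := L.cEE
  inv := fun x _ h => L.inv x h
  box := fun x _ h => L.box x h
  bcst := L.bcst
  bw := fun x _ h => L.bw x h
  lM := fun cE' h1 h2 => L.lM cE' h1 fun y hy => h2 y trivial hy
  lG := L.lG
  exb := L.exl.exB L.eS L.eS'
  tot := L.tot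
  pb := L.pb
  const := fun V hV h1 h2 => by
    obtain ⟨k, h3, h4⟩ := L.const V hV h1 fun x hx => h2 x trivial hx
    exact ⟨k, h3, fun x _ hx => h4 x hx⟩
  S0 := L.S0
  cr := by
    rcases L.exl.s with ⟨rfl, h4⟩ | ⟨rfl, h4⟩
    · rw [← cyc_of' L.SE L.cEE L.S0 h4, L.exl.c0]; rfl
    · rw [← cyc_of' L.SE L.cEE L.S0 h4, L.exl.c1]; rfl

end NoEx

/-! ## the union is good -/

section Main

variable [Finite D] {Lg : Leg (D := D) T} {W : D → Prop} {x0 x1 : D} {n0 n1 : ℕ} {S : D → Prop}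
  {mn : D → T.Q} {gt : D → M9} {ex : D → Wd} {cE : D → Bool} {b0 b1 : D → D} {m0 m1 : D → ℕ}
  {imn : D → D → T.Q} {igt : D → D → M9} {iex : D → D → Wd} {ic : D → D → Bool}

omit [Finite D] in
/-- the class of the second own corner -/
lemma uC_x1X (hx1 : W x1) (L : LvlOutX (M := M) Lg W x0 x1 n0 n1 S mn gt ex cE b0 b1 m0 m1)
    (hI : InnX Lg M W S cE b0 b1 m0 m1 imn igt iex ic) : uC W S cE ic x1 = cE x1 := by
  classical
  by_cases h : S x1
  · exact uC_out h
  · have h1 := L.bw x1 hx1 h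
    have h2 : asm M x1 (mw T M mn x1) (own cE x0 x1 n0 n1 x1) [] ≠ [] := by
      unfold asm own
      rw [if_pos (rfl : x1 = x1)]
      split_ifs <;> simp
    rw [h1] at h2
    have h3 : x1 = b0 x1 ∨ x1 = b1 x1 := by
      by_contra h3
      push Not at h3
      apply h2
      unfold own
      rw [if_neg h3.1, if_neg h3.2]; rfl
    rw [uC_inX hI (Cmp.refl hx1 h)]
    rcases h3 with h3 | h3
    · have h4 := hI.c0 x1 hx1 h
      rw [← h3] at h4
      exact h4
    · have h4 := hI.c1 x1 hx1 h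
      rw [← h3] at h4
      exact h4

/-- **the union of a level and of good states in the boxes is good** -/
theorem union_goodX (n1' : ∀ x, M.ν x ≠ x) (hW : ∀ x, W (M.E x) ↔ W x) (hx1 : W x1)
    (L : LvlOutX (M := M) Lg W x0 x1 n0 n1 S mn gt ex cE b0 b1 m0 m1)
    (hI : InnX Lg M W S cE b0 b1 m0 m1 imn igt iex ic) :
    GoodX (M := M) Lg W x0 x1 n0 n1 (uMn M W S mn imn) (uGt W S gt igt) (uEx W S ex iex)
      (uC W S cE ic) := by
  classical
  have hown : own (uC W S cE ic) x0 x1 n0 n1 = own cE x0 x1 n0 n1 :=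
    own_congr (uC_out L.S0) (uC_x1X hx1 L hI)
  obtain ⟨hco, hci, hconst⟩ := union_words hW L.toLvlG hI
  refine
    { toGdC := union_core L.toLvlG hW hI, exb := union_exb n1' L.toLvlG hI,
      exa := union_exa L.toLvlG L.exa hI, tot := ?_, pb := ?_, const := ?_ }
  · intro x hx
    rw [hown]
    by_cases h : S x
    · rw [hco x h, uC_out h]
      exact L.tot x h
    · have h1 := Cmp.refl (M := M) hx h
      rw [hci x hx h x h1, uC_inX hI h1]
      exact (hI.good x hx h).tot x h1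
  · intro x hx
    rw [hown]
    by_cases h : S x
    · rw [hco x h]
      exact L.pb x h
    · have h1 := Cmp.refl (M := M) hx h
      rw [hci x hx h x h1]
      exact (hI.good x hx h).pb x h1
  · rw [hown]
    exact hconst

/-- **good states in all boxes** -/
theorem good_of_levelX (n1' : ∀ x, M.ν x ≠ x) (hT : LvlThmX (M := M) Lg) :
    ∀ (n : ℕ) (W : D → Prop),
    Nat.card {x // W x} ≤ n → (∀ x, W (M.E x) ↔ W x) → Cn M W → (∃ col, M.Inv W col) →
    ∀ (x0 x1 : D) (n0 n1 : ℕ) (σ : Bool), Ifc M W x0 x1 n0 n1 →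
    ∃ (mn : D → T.Q) (gt : D → M9) (ex : D → Wd) (cE : D → Bool),
      GoodX (M := M) Lg W x0 x1 n0 n1 mn gt ex cE ∧ cE x0 = σ := by
  classical
  intro n
  induction n with
  | zero =>
    intro W hc _ _ _ x0 x1 n0 n1 σ hi
    exfalso
    have h1 : IsEmpty {x // W x} := by
      rw [← Finite.card_eq_zero_iff]
      omega
    exact h1.false ⟨x0, hi.w0⟩
  | succ n ih =>
    intro W hc hW hcn hinv x0 x1 n0 n1 σ hi
    obtain ⟨P, hP⟩ : ∃ P : (D → Prop) → D → D → ℕ → ℕ → Bool → Prop, P = fun K y0 y1 k0 k1 c =>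
      ∃ (mn : D → T.Q) (gt : D → M9) (ex : D → Wd) (cE : D → Bool),
        GoodX (M := M) Lg K y0 y1 k0 k1 mn gt ex cE ∧ cE y0 = c := ⟨_, rfl⟩
    -- a fixed choice
    have hch : ∀ (K : D → Prop) (y0 y1 : D) (k0 k1 : ℕ) (c : Bool),
        ∃ (mn : D → T.Q) (gt : D → M9) (ex : D → Wd) (cE : D → Bool), cE y0 = c ∧
          (P K y0 y1 k0 k1 c → GoodX (M := M) Lg K y0 y1 k0 k1 mn gt ex cE) ∧
          (¬ P K y0 y1 k0 k1 c → ∀ y, cE y = c) := by
      intro K y0 y1 k0 k1 c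
      by_cases h : P K y0 y1 k0 k1 c
      · rw [hP] at h
        obtain ⟨mn, gt, ex, cE, h1, h2⟩ := h
        exact ⟨mn, gt, ex, cE, h2, fun _ => h1,
          fun h3 => absurd (by rw [hP]; exact ⟨mn, gt, ex, cE, h1, h2⟩) h3⟩
      · exact ⟨fun _ => T.non, fun _ => none, no, fun _ => c, rfl, fun h1 => absurd h1 h,
          fun _ _ => rfl⟩
    choose fm fg fx fc hf1 hf2 hf3 using hch
    obtain ⟨S, mn, gt, ex, cE, b0, b1, m0, m1, L, hσ, hκ⟩ := hT W x0 x1 n0 n1 σ
      (fun K y0 y1 k0 k1 c => fc K y0 y1 k0 k1 c y1) hW hcn hinv hi (by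
        intro K y0 y1 k0 k1 c hK hy0 hs
        show fc K y0 y1 k0 k1 c y1 = c
        by_cases h : P K y0 y1 k0 k1 c
        · rw [cyc_of' hK (hf2 _ _ _ _ _ _ h).cEE hy0 hs]
          exact hf1 _ _ _ _ _ _
        · exact hf3 _ _ _ _ _ _ h y1)
    have hcard : ∀ x, W x → ¬ S x → Nat.card {y // Cmp M W S x y} ≤ n := by
      intro x h1 h2
      have h3 : Nat.card {y // Cmp M W S x y} < Nat.card {x // W x} := by
        have h4 : ∀ y, Cmp M W S x y → W y := fun y hy => hy.right.1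
        have e1 : Nat.card {y // Cmp M W S x y} = (Set.ncard {y | Cmp M W S x y}) := rfl
        have e2 : Nat.card {y // W y} = (Set.ncard {y | W y}) := rfl
        rw [e1, e2]
        refine Set.ncard_lt_ncard ?_ (Set.toFinite _)
        refine ⟨fun y hy => h4 y hy, fun h5 => ?_⟩
        exact (h5 (show x0 ∈ {y | W y} from hi.w0) : Cmp M W S x x0).right.2 L.S0
      omega
    have hPx : ∀ x, W x → ¬ S x → P (Cmp M W S x) (b0 x) (b1 x) (m0 x) (m1 x) (cE (b0 x)) := by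
      intro x h1 h2
      rw [hP]
      exact ih _ (hcard x h1 h2) (Cmp.comp hW L.SE x).WE (Cmp.cn x) (L.inv x h1 h2) _ _ _ _ _
        (L.box x h1 h2)
    have hI : InnX Lg M W S cE b0 b1 m0 m1
        (fun x => fm (Cmp M W S x) (b0 x) (b1 x) (m0 x) (m1 x) (cE (b0 x)))
        (fun x => fg (Cmp M W S x) (b0 x) (b1 x) (m0 x) (m1 x) (cE (b0 x)))
        (fun x => fx (Cmp M W S x) (b0 x) (b1 x) (m0 x) (m1 x) (cE (b0 x)))
        (fun x => fc (Cmp M W S x) (b0 x) (b1 x) (m0 x) (m1 x) (cE (b0 x))) := by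
      refine ⟨fun x h1 h2 => hf2 _ _ _ _ _ _ (hPx x h1 h2), fun x h1 h2 => hf1 _ _ _ _ _ _,
        fun x h1 h2 => (hκ x h1 h2).symm, ?_⟩
      intro x y h
      obtain ⟨e1, e2, e3, e4⟩ := L.bcst x y h
      rw [h.eq, e1, e2, e3, e4]
      exact ⟨rfl, rfl, rfl, rfl⟩
    exact ⟨_, _, _, _, union_goodX n1' hW hi.w1 L hI, by rw [uC_out L.S0]; exact hσ⟩

/-- **the union of the top level and of good states in the boxes is good** -/
theorem root_goodX (n1' : ∀ x, M.ν x ≠ x) {r : D} {σ : Bool}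
    (L : RootOutX (M := M) Lg r S mn gt ex cE b0 b1 m0 m1 σ)
    (hI : InnX Lg M All S cE b0 b1 m0 m1 imn igt iex ic) :
    RootGoodX (M := M) Lg r (uMn M All S mn imn) (uGt All S gt igt) (uEx All S ex iex)
      (uC All S cE ic) σ := by
  classical
  have hW : ∀ x : D, All (M.E x) ↔ All x := fun _ => Iff.rfl
  obtain ⟨hco, hci, hconst⟩ := union_words hW L.toLvlG hI
  refine
    { toGdC := union_core L.toLvlG hW hI, exb := union_exb n1' L.toLvlG hI,
      cr := ?_, tot := ?_, pb := ?_, const := ?_ }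
  · rw [uC_out L.S0]
    exact L.cr
  · intro x
    rw [← cxo_no]
    by_cases h : S x
    · rw [hco x h, L.tot x h]
      unfold ttl
      rw [uC_out h]
    · have h1 := Cmp.refl (M := M) (W := All) trivial h
      have h2 : ¬ M.E.SameCycle r x := fun h3 => h ((cyc_of L.SE h3).2 L.S0)
      unfold ttl
      rw [if_neg h2, one_mul, hci x trivial h x h1, uC_inX hI h1]
      exact (hI.good x trivial h).tot x h1
  · intro x
    rw [← cxo_no]
    by_cases h : S x
    · rw [hco x h]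
      exact L.pb x h
    · have h1 := Cmp.refl (M := M) (W := All) trivial h
      rw [hci x trivial h x h1]
      exact (hI.good x trivial h).pb x h1
  · intro V hV hcl
    obtain ⟨k, hk⟩ := hconst V hV fun x _ => hcl x
    exact ⟨k, fun x => hk x trivial⟩

/-- **the global state** -/
theorem root_of_levelX (n1' : ∀ x, M.ν x ≠ x) {r : D} {σ : Bool} (hT : LvlThmX (M := M) Lg)
    (hR : RootThmX (M := M) Lg r σ) :
    ∃ (mn : D → T.Q) (gt : D → M9) (ex : D → Wd) (cE : D → Bool),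
      RootGoodX (M := M) Lg r mn gt ex cE σ := by
  classical
  obtain ⟨P, hP⟩ : ∃ P : (D → Prop) → D → D → ℕ → ℕ → Bool → Prop, P = fun K y0 y1 k0 k1 c =>
    ∃ (mn : D → T.Q) (gt : D → M9) (ex : D → Wd) (cE : D → Bool),
      GoodX (M := M) Lg K y0 y1 k0 k1 mn gt ex cE ∧ cE y0 = c := ⟨_, rfl⟩
  have hch : ∀ (K : D → Prop) (y0 y1 : D) (k0 k1 : ℕ) (c : Bool),
      ∃ (mn : D → T.Q) (gt : D → M9) (ex : D → Wd) (cE : D → Bool), cE y0 = c ∧
        (P K y0 y1 k0 k1 c → GoodX (M := M) Lg K y0 y1 k0 k1 mn gt ex cE) ∧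
        (¬ P K y0 y1 k0 k1 c → ∀ y, cE y = c) := by
    intro K y0 y1 k0 k1 c
    by_cases h : P K y0 y1 k0 k1 c
    · rw [hP] at h
      obtain ⟨mn, gt, ex, cE, h1, h2⟩ := h
      exact ⟨mn, gt, ex, cE, h2, fun _ => h1,
        fun h3 => absurd (by rw [hP]; exact ⟨mn, gt, ex, cE, h1, h2⟩) h3⟩
    · exact ⟨fun _ => T.non, fun _ => none, no, fun _ => c, rfl, fun h1 => absurd h1 h,
        fun _ _ => rfl⟩
  choose fm fg fx fc hf1 hf2 hf3 using hch
  obtain ⟨S, mn, gt, ex, cE, b0, b1, m0, m1, L, hκ⟩ := hR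
    (fun K y0 y1 k0 k1 c => fc K y0 y1 k0 k1 c y1) (by
      intro K y0 y1 k0 k1 c hK hy0 hs
      show fc K y0 y1 k0 k1 c y1 = c
      by_cases h : P K y0 y1 k0 k1 c
      · rw [cyc_of' hK (hf2 _ _ _ _ _ _ h).cEE hy0 hs]
        exact hf1 _ _ _ _ _ _
      · exact hf3 _ _ _ _ _ _ h y1)
  have hPx : ∀ x, ¬ S x → P (Cmp M All S x) (b0 x) (b1 x) (m0 x) (m1 x) (cE (b0 x)) := by
    intro x h2
    rw [hP]
    exact good_of_levelX n1' hT _ _ le_rfl (Cmp.comp (fun _ => Iff.rfl) L.SE x).WE (Cmp.cn x)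
      (L.inv x trivial h2) _ _ _ _ _ (L.box x trivial h2)
  have hI : InnX Lg M All S cE b0 b1 m0 m1
      (fun x => fm (Cmp M All S x) (b0 x) (b1 x) (m0 x) (m1 x) (cE (b0 x)))
      (fun x => fg (Cmp M All S x) (b0 x) (b1 x) (m0 x) (m1 x) (cE (b0 x)))
      (fun x => fx (Cmp M All S x) (b0 x) (b1 x) (m0 x) (m1 x) (cE (b0 x)))
      (fun x => fc (Cmp M All S x) (b0 x) (b1 x) (m0 x) (m1 x) (cE (b0 x))) := by
    refine ⟨fun x h1 h2 => hf2 _ _ _ _ _ _ (hPx x h2), fun x h1 h2 => hf1 _ _ _ _ _ _,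
      fun x h1 h2 => (hκ x h2).symm, ?_⟩
    intro x y h
    obtain ⟨e1, e2, e3, e4⟩ := L.bcst x y h
    rw [h.eq, e1, e2, e3, e4]
    exact ⟨rfl, rfl, rfl, rfl⟩
  exact ⟨_, _, _, _, root_goodX n1' L hI⟩

end Main

/-! ## the layout theorem -/

section Lay

variable {r : D} {σ : Bool}

/-- good states as global states -/
theorem rtG_ofX (n1 : ∀ x, M.ν x ≠ x) (n2 : ∀ x, M.ν (M.ν x) ≠ x) {mn : D → Sq}
    {gt : D → M9} {ex : D → Wd} {cE : D → Bool}
    (h : RootGoodX (T := tb) (M := M) (lgT M) r mn gt ex cE σ) :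
    RtG M ⟨mn, gt, cE, ex⟩ r where
  ok :=
    { n1 := n1
      n2 := n2
      cEE := fun x => h.cEE x trivial
      one := h.one
      lM := fun y => h.lM cE (fun _ _ => rfl) y
      lG := fun y => h.lG cE (fun _ _ => rfl) y
      exo := fun y hy => ⟨h.exb.k y hy, h.exb.c y hy⟩ }
  exn :=
    { e89 := h.exb.n
      nd := h.exb.nd
      dis := h.exb.d }
  tot := h.tot
  pb := h.pb
  const := h.const

/-- **the layout theorem for one map** -/
theorem root_layoutX [Fintype D] (n1 : ∀ x, M.ν x ≠ x) (n2 : ∀ x, M.ν (M.ν x) ≠ x)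
    {mn : D → Sq} {gt : D → M9} {ex : D → Wd} {cE : D → Bool}
    (h : RootGoodX (T := tb) (M := M) (lgT M) r mn gt ex cE σ) :
    ∃ (L : Layt M) (sg : L.Tok → ℤ) (cls sw : L.Tok → Prop) (Pos : L.Tok → Bool → Prop)
      (a0 : L.Tok → Bool), L.OK ∧ L.Mono Pos ∧
      TkE L.F L.lam L.wt 636 (L.idt r) (if σ then 1 else -1) sg cls sw L.okt Pos a0 := by
  have H := rtG_ofX n1 n2 h
  obtain ⟨sw, Pos, a0, h1, h2⟩ := H.layout
  have h3 : sgn M ⟨mn, gt, cE, ex⟩ r r = if σ then 1 else -1 := by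
    unfold sgn
    rw [if_pos (Equiv.Perm.SameCycle.refl _ _)]
    show -1 * (if cE r = true then (1 : ℤ) else -1) = _
    rw [h.cr]
    cases σ <;> norm_num
  rw [h3] at h2
  exact ⟨GS.lay H.ok, _, _, sw, Pos, a0, H.ok.ok, h1, h2⟩

/-- **the layout theorem from levels** -/
theorem layoutThm_ofX (h : ∀ (D : Type) [Fintype D] (M : BM D) (r : D) (σ : Bool),
    PL.Plan M.E M.τ → (∃ ru rd : D → ℕ, M.Rank ru rd) → (∀ x, M.ν x ≠ x) → (∀ x, M.ν (M.ν x) ≠ x) →
    (∀ x y, Reg M.E M.τ x y) → M.ek (M.ν r) = .R → ¬ M.E.SameCycle r (M.ν r) →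
    LvlThmX (T := tb) (M := M) (lgT M) ∧ RootThmX (T := tb) (M := M) (lgT M) r σ) :
    LayoutThm 636 := by
  intro D _ M r s h1 h2 h3 h4 h5 h6 h7 h8
  rcases h8 with rfl | rfl
  · obtain ⟨hL, hR⟩ := h D M r true h1 h2 h3 h4 h5 h6 h7
    obtain ⟨mn, gt, ex, cE, h9⟩ := root_of_levelX h3 hL hR
    exact root_layoutX h3 h4 h9
  · obtain ⟨hL, hR⟩ := h D M r false h1 h2 h3 h4 h5 h6 h7
    obtain ⟨mn, gt, ex, cE, h9⟩ := root_of_levelX h3 hL hR
    exact root_layoutX h3 h4 h9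

end Lay

end Pool.Agent.MP42.GZ
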