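import Pool.Agent.MP42.GZ.Hole
import Pool.Agent.MP42.GZ.DkZB
import Pool.Agent.MP42.GZ.LegT
import Pool.Agent.MP42.GZ.GeoXC
import Pool.Agent.MP42.GZ.Lvl3X
import Pool.Agent.MP42.PL.Level2

/-!
# Closed levels from abstract solutions (owner helper30)

`lvlThmX_of`: closed levels exist, from `AbsC`.
-/

set_option autoImplicit false
set_option linter.unusedSectionVars false
set_option linter.unusedVariables false

namespace Pool.Agent.MP42.GZ

open Pool.Agent.MP42 Pool.Agent.MP42.U Pool.Agent.MP42.PL Pool.Agent.MP42.O3 Pool.Agent.MP42.O3.BM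
open Pool.Agent.MP42.EO

/-- no extra lanes -/
lemma exb_no {D : Type*} {M : BM D} {W : D → Prop} {cE : D → Bool} :
    ExB M W cE (no : D → Wd) :=
  ⟨fun _ h => absurd rfl h, fun _ h => absurd rfl h, fun _ h => absurd rfl h,
    fun _ q hq => absurd hq (by simp [no]), fun _ => by simp [no],
    fun _ _ _ _ q hq => absurd hq (by simp [no])⟩

/-- **closed levels exist** -/
theorem lvlThmX_of {D : Type} {M : BM D} [Fintype D] (hv : Val M) (hPl : Plan M.E M.τ)
    (hRk : ∃ ru rd : D → ℕ, M.Rank ru rd) (hH : AbsC) : LvlThmX (M := M) (lgT M) := by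
  classical
  intro W x0 x1 n0 n1 σ κ hWE hCn hinv hifc hκ
  obtain ⟨T, cl, rc, L, hc0, hD2, hLev, hnr⟩ := exists_level' (M := M) hWE hifc.w0 (σ = true)
  obtain ⟨K⟩ := exists_dkz M W x0 T cl rc hWE hCn hinv hRk hifc.w0 L hLev
  obtain ⟨xb, ⟨sol⟩⟩ := absC_use hH L hPl K
  obtain ⟨col, hI⟩ := hinv
  have hnn : ∀ y, T.G y → T.dep y ≠ 0 → lkz L sol.lk y = .nn →
      (rc y).kd = .real ∨ (rc y).kd = .root := by
    intro y h1 h2 h3
    obtain ⟨z, e1, e2⟩ := lkz_eq L sol.lk h1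
    rw [cyc_const L.rE e2]
    exact Or.inl (sol.nn z (by rw [← e1]; exact h3)).2.1
  set o : {v // K.St v} → Bool := fun j => sol.lt ((K.stars (K.nxd L) L L.xo hPl).y j) with ho
  set S := K.bxs L (lkz L sol.lk) (lkz_E L sol.lk) hnn xb o with hS
  have hC : S.Cov := K.cov L (lkz L sol.lk) (lkz_E L sol.lk) hnn xb o hWE
  have hm : Mch S (L.td L.xo) sol.lk sol.lt (K.stars (K.nxd L) L L.xo hPl).y
      (fun j => if xb j then (K.stars (K.nxd L) L L.xo hPl).b j else
        (K.stars (K.nxd L) L L.xo hPl).a j) :=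
    K.mch L (lkz L sol.lk) (lkz_E L sol.lk) hnn xb o
      (fun z => (lkz_base L sol.lk z).symm)
      (fun j => K.stars_y (K.nxd L) L L.xo hPl j)
      (fun j => congrArg Subtype.val (K.stars_a (K.nxd L) L L.xo hPl j))
      (fun j => congrArg Subtype.val (K.stars_b (K.nxd L) L L.xo hPl j))
      (fun _ => rfl) (fun _ => rfl) sol.port
  have hX : ∀ x, S.Lt x → ¬ XL T rc x :=
    K.nx_lt L (lkz L sol.lk) (lkz_E L sol.lk) hnn xb o (K.nxd L)
  have hLg : LegH (lgT M) S := legT L hv S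
  have hG0 : T.G x0 := by rw [← L.rt]; exact T.G_rt
  have hx1 : x1 = x0 := hifc.e
  subst hx1
  have hw := closed_w (K := L.td L.xo) L hv hnr sol hm hX (fun z => Iff.rfl) hifc.f0 (n0 := n0)
    (n1 := n1)
  have hG := lvl_g hWE hI hLev L hv hC hLg (ow := own S.cE x1 x1 n0 n1)
    (tt := fun x => if S.cE x then 2 else -2) (fun u _ hu => by
      have hne : u ≠ x1 := fun h => hu (h ▸ hG0)
      unfold own
      rw [if_neg hne, if_neg hne]; rfl) exb_no hw
  refine ⟨T.G, S.mn, S.gt, no, S.cE, S.b0, S.b0, _, _,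
    ⟨hG, hG0, fun _ h => absurd rfl h⟩, ?_, ?_⟩
  · have h1 : cl x1 ↔ S.cE x1 = true := Bxs.cE_in hG0
    exact Bool.eq_iff_iff.2 (h1.symm.trans hc0)
  · intro x h1 h2
    have hb := hC.b0_spec h1 h2
    exact (hκ (Cmp M W T.G x) (S.b0 x) (S.b0 x) _ _ (S.cE (S.b0 x))
      (Cmp.comp hWE T.G_E x).WE hb.2 (Equiv.Perm.SameCycle.refl _ _)).symm

end Pool.Agent.MP42.GZ
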