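import Pool.Agent.MP42.GZ.GeoLa

/-!
# The values of the links and letters of a level (owner helper67)

`WdV`: the facts about the words of one level which are needed for the words of the circles;
`Ins.split`, `Ins.rot`: insertions and rotations.
-/

set_option autoImplicit false
set_option linter.unusedSectionVars false
set_option linter.unusedVariables false

namespace Pool.Agent.MP42.GZ

open Pool.Agent.MP42 Pool.Agent.MP42.U Pool.Agent.MP42.PL Pool.Agent.MP42.O3 Pool.Agent.MP42.O3.BM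
open Pool.Agent.MP42.EO

variable {D : Type*} {M : BM D} [Finite D]
variable {W : D → Prop} {T : RT M.E} {rc : D → Rc D} {J : Type*} {x0 : D} {X : D → Prop}

/-- **the values of the links and letters of a level**: `lw` = letters and riders, `lw0` = letters,
`hw`, `cw'` = words of the links at the host and at the circle, `vp` = values of the tokens of the
abstract solution -/
structure WdV (K : TD M.E M.τ T X (dgL rc)) (cl : D → Prop) (grp : K.ct.Ci → Prop)
    (lk : K.ct.Ci → LS) (lt : K.ct.Pt → Bool) (y x : J → K.ct.Pt) (lw lw0 hw cw' : D → Wd)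
    (V : D × ℕ → B) (vp : K.ct.Pt ⊕ (K.ct.Ci × ℕ) → B) : Prop where
  lz : ∀ u, T.G u → ¬ LtS y x u → lw0 u = []
  rd : ∀ u, T.G u → lw u = lw0 u ∨ (lw0 u = [] ∧ Rider V (tag u (lw u)))
  le : ∀ (p : K.ct.Pt) (u : D), p.1 = Sum.inl u → LtS y x u → T.G u → ∀ c : Bool,
    (cl u ↔ c = true) → lv V (rw' c (tag u (lw0 u))) = lv vp (il lk lt (.inl p))
  ch : ∀ c : K.ct.Ci, T.dep (pr c.1) ≠ 0 → (rc (pr c.1)).kd ≠ .root → ∀ b : Bool,
    (cl (rc (pr c.1)).hc ↔ b = true) →
    lv V (rw' b (tag (rc (pr c.1)).hc (hw (pr c.1)))) = lv vp (il lk lt (.inr c))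
  ow : ∀ (sw : K.ct.Ci → Prop) (c : K.ct.Ci), T.dep (pr c.1) ≠ 0 → (rc (pr c.1)).kd ≠ .root →
    (sw c ↔ (cl (rc (pr c.1)).hc ↔ cl (rc (pr c.1)).cc)) → ∀ b : Bool,
    (cl (rc (pr c.1)).cc ↔ b = true) →
    lv V (rw' b (tag (rc (pr c.1)).cc (cw' (pr c.1)))) = lv vp (ol grp sw lk c)

/-! ## Insertions and rotations -/

/-- splitting an insertion -/
lemma Ins.split {b w u : List (Bool × B)} (h : Ins w u) : ∀ {a : List (Bool × B)}, w = a ++ b →
    ∃ ua ub, u = ua ++ ub ∧ Ins a ua ∧ Ins b ub := by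
  induction h with
  | nil =>
    intro a h1
    obtain ⟨rfl, rfl⟩ := List.nil_eq_append_iff.1 h1
    exact ⟨[], [], rfl, .nil, .nil⟩
  | @cons q w w' hq ih =>
    intro a h1
    rcases a with _ | ⟨p, a⟩
    · rw [List.nil_append] at h1
      exact ⟨[], q :: w', rfl, .nil, h1 ▸ .cons q hq⟩
    · rw [List.cons_append, List.cons.injEq] at h1
      obtain ⟨rfl, h1⟩ := h1
      obtain ⟨ua, ub, h2, h3, h4⟩ := ih h1
      exact ⟨q :: ua, ub, by rw [h2]; rfl, .cons q h3, h4⟩
  | @ins v w w' _ ih =>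
    intro a h1
    obtain ⟨ua, ub, h2, h3, h4⟩ := ih h1
    exact ⟨(true, v) :: (false, v) :: ua, ub, by rw [h2]; rfl, .ins v h3, h4⟩

/-- **insertions after rotation** -/
lemma Ins.rot {w w' u : List (Bool × B)} (h : Ins w u) (hr : Rot w w') :
    ∃ u', Rot u u' ∧ Ins w' u' := by
  obtain ⟨a, b, h1, rfl⟩ := hr
  obtain ⟨ua, ub, h2, h3, h4⟩ := h.split h1
  exact ⟨ub ++ ua, ⟨ua, ub, h2, rfl⟩, h4.append h3⟩

end Pool.Agent.MP42.GZ
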