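import Pool.Agent.MP42.GZ.GeoTa
import Pool.Agent.MP42.GZ.WdV

/-!
# The words of the top level (owner helper30, helper67)

`top_word`: the words of all circles; `k` = the circle of the root link (class `O`), the root of the
tree has the class `E`; `σ` = sign of the lanes of the root link at the root of the tree, `two` =
two lanes.  The facts about the links and letters of the level are the structure `WdV`.
`topE_word`, `topO_word`: the words of the abstract solutions.
-/

set_option autoImplicit false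
set_option linter.unusedSectionVars false
set_option linter.unusedVariables false

namespace Pool.Agent.MP42.GZ

open Pool.Agent.MP42 Pool.Agent.MP42.U Pool.Agent.MP42.PL Pool.Agent.MP42.O3 Pool.Agent.MP42.O3.BM
open Pool.Agent.MP42.EO

variable {D : Type*} {M : BM D} [Finite D]
variable {W : D → Prop} {T : RT M.E} {cl : D → Prop} {rc : D → Rc D} {J : Type*} {x0 : D}
  {X : D → Prop}
variable {K : TD M.E M.τ T X (dgL rc)} {real grp cls : K.ct.Ci → Prop} {lk : K.ct.Ci → LS}
  {lt : K.ct.Pt → Bool} {y a : J → K.ct.Pt} {mw lw lw0 gw ow hw cw' : D → Wd} {V : D × ℕ → B}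
  {vp : K.ct.Pt ⊕ (K.ct.Ci × ℕ) → B}

open Classical in
/-- own tokens of the circles of the top level -/
noncomputable def otv (grp sw : K.ct.Ci → Prop) (lk : K.ct.Ci → LS) (k : K.ct.Ci) (x : D)
    (σ two : Bool) (vp : K.ct.Pt ⊕ (K.ct.Ci × ℕ) → B) (V : D × ℕ → B) (z : K.ct.Ci) :
    List (Bool × B) :=
  if z = K.ct.rC then [] else if z = k then rlv V x (!σ) two else lv vp (ol grp sw lk z)

open Classical in
/-- words of the items of the circles of the top level -/
noncomputable def itf (lk : K.ct.Ci → LS) (lt : K.ct.Pt → Bool) (k : K.ct.Ci) (x : D)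
    (σ two : Bool) (vp : K.ct.Pt ⊕ (K.ct.Ci × ℕ) → B) (V : D × ℕ → B)
    (i : K.ct.Pt ⊕ K.ct.Ci) : List (Bool × B) :=
  if i = .inr k then rlv V x σ two else lv vp (il lk lt i)

/-- **the words of the top level** -/
theorem top_word {x : D} (L : LI M W x0 T cl rc) (F : TopF M T cl rc x)
    {k : K.ct.Ci} (hk : M.E.SameCycle (pr k.1) (M.ν x))
    (R : Rds K.ct.contour cls y a) (hX : ∀ u, LtS y a u → ¬ X u)
    (hy : ∀ j, ∃ u, (y j).1 = Sum.inl u) (ha : ∀ j, ∃ u, (a j).1 = Sum.inl u)
    (hcls : ∀ z, cls z ↔ cl (pr z.1)) {σ two : Bool}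
    (H : LW M T cl rc mw lw gw ow (rex x σ two) hw cw') (how : ow T.rt = [])
    (hV : ∀ n, n < 10 → V (M.ν x, n) = V (x, n))
    (hW : WdV K cl grp lk lt y a lw lw0 hw cw' V vp)
    {sw : K.ct.Ci → Prop} (hsw : ∀ z : K.ct.Ci, z ≠ K.ct.rC → z ≠ k →
      (sw z ↔ (cls z ↔ cls (K.ct.parC z)))) (z : K.ct.Ci) {c : Bool}
    (hc : cl (pr z.1) ↔ c = true) :
    ∃ u, Rot (lv V (rw' c ((cir M (pr z.1)).flatMap fun y =>
        tag y ((rex x σ two (M.μ y)).reverse ++
          (asm M y (mw y) (ow y) (gw y) ++ rex x σ two y))))) u ∧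
      Ins (otv grp sw lk k x σ two vp V z ++ (R.rd z).flatMap (itf lk lt k x σ two vp V)) u := by
  classical
  obtain ⟨hdk, hk0⟩ := F.kne hk
  have hrk : rc (pr k.1) = ⟨x, M.ν x, .aft, .root⟩ := F.rck L hk.symm
  have hrex : rex x σ two x = rlw σ two := if_pos rfl
  have hx := H.hx (pr k.1) k.2.1.2 hdk (by rw [hrk])
  rw [hrk] at hx
  simp only [hrex] at hx
  obtain ⟨hG, hb, hz⟩ := ci_base z
  refine word_gen' L R hX hy ha hcls H hW.lz z hc hW.rd ?_ _ ?_ ?_
  · unfold otv
    by_cases hzr : z = K.ct.rC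
    · rw [if_pos hzr]
      have hd : T.dep (pr z.1) = 0 := by rw [hzr]; exact T.dep_rt
      obtain ⟨g1, g2⟩ := own_root H hG hd
      have e0 : pr z.1 = T.rt := by rw [hzr]; rfl
      rw [g1, g2, e0, how]
      unfold rw'
      split_ifs <;> rfl
    · rw [if_neg hzr]
      have hd : T.dep (pr z.1) ≠ 0 := fun h => hzr (rC_dep h)
      obtain ⟨h1, h2⟩ := own_eq H hG hb hd
      rw [h2]
      by_cases hzk : z = k
      · subst hzk
        rw [if_pos rfl, hrk, ← hx.2]
        have hcf : c = false := by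
          cases c
          · rfl
          · exact absurd ((cl_cyc L.cE hk.symm).1 (hc.2 rfl)) F.c1
        rw [hcf]
        have e2 : ∀ n, n < 10 → V (M.ν x, n) = V (x, n) := hV
        unfold rlv rlw
        cases two
        · simp [rw', U.lrev, tag, lv, e2]
        · simp [rw', U.lrev, tag, lv, e2]
      · rw [if_neg hzk]
        have hr : (rc (pr z.1)).kd ≠ .root := fun h => hzk (F.kk L hk hd h)
        obtain ⟨-, p1, p2⟩ := par_base (K := K) L hzr
        refine hW.ow sw z hd hr ?_ c ?_
        · rw [hsw z hzr hzk]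
          have a1 : cls z ↔ cl (rc (pr z.1)).cc := by
            rw [hcls]
            exact (cl_cyc L.cE p2).symm
          have a2 : cls (K.ct.parC z) ↔ cl (rc (pr z.1)).hc := by
            rw [hcls]
            exact (cl_cyc L.cE p1).symm
          rw [a1, a2]
          exact ⟨fun h => h.symm, fun h => h.symm⟩
        · rw [cl_cyc L.cE p2]
          exact hc
  · intro p u h1 h2 h3 c' h4
    unfold itf
    rw [if_neg (by simp)]
    exact hW.le p u h1 h2 h3 c' h4
  · intro c' g1 g2
    obtain ⟨hd', -, -⟩ := par_base (K := K) L g1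
    unfold itf
    by_cases hck : c' = k
    · rw [if_pos (by rw [hck]), hck, hrk, ← hx.1]
      have hcf : c = true := by
        rw [hck, hrk] at g2
        exact hc.1 ((cl_cyc L.cE g2).1 F.c0)
      rw [hcf]
      unfold rlv rlw
      cases two <;> rfl
    · rw [if_neg fun h => hck (Sum.inr_injective h)]
      have hr : (rc (pr c'.1)).kd ≠ .root := fun h => hck (F.kk L hk hd' h)
      refine hW.ch c' hd' hr c ?_
      rw [cl_cyc L.cE g2]
      exact hc

/-- the words of items which are not the root link -/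
lemma itf_flat {k : K.ct.Ci} {x : D} {σ two : Bool} {l : List (K.ct.Pt ⊕ K.ct.Ci)}
    (h : Sum.inr k ∉ l) : l.flatMap (itf lk lt k x σ two vp V) = lv vp (l.flatMap (il lk lt)) := by
  classical
  unfold lv
  rw [List.map_flatMap]
  refine List.flatMap_congr fun i hi => ?_
  unfold itf
  rw [if_neg]
  · rfl
  · rintro rfl
    exact h hi

/-- the lanes of the root link as item and as own tokens -/
lemma rlv_il {x : D} {k' : K.ct.Ci} (hl : lk k' = .near ∨ lk k' = .nn) (hg : ¬ grp k')
    (hv : ∀ n, vp (.inr (k', n)) = V (x, if n = 0 then 8 else 9)) {sw : K.ct.Ci → Prop} :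
    rlv V x false (decide (lk k' = .nn)) = lv vp (il lk lt (.inr k')) ∧
      rlv V x true (decide (lk k' = .nn)) = lv vp (ol grp sw lk k') := by
  have hv0 : vp (.inr (k', 0)) = V (x, 8) := hv 0
  have hv2 : vp (.inr (k', 2)) = V (x, 9) := hv 2
  unfold rlv
  rcases hl with h | h
  · rw [h]
    simp [il, ol, h, lv, hv0]
  · rw [h]
    simp [il, ol, h, lv, hv0, hv2]

/-- **the words of the top level, root ring of class `E`** -/
theorem topE_word {x : D} (L : LI M W x0 T cl rc) (F : TopF M T cl rc x)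
    {k : K.ct.Ci} (hk : M.E.SameCycle (pr k.1) (M.ν x))
    (sol : RSolX K.ct.contour cls real grp y a k) (hX : ∀ u, LtS y a u → ¬ X u)
    (hy : ∀ j, ∃ u, (y j).1 = Sum.inl u) (ha : ∀ j, ∃ u, (a j).1 = Sum.inl u)
    (hcls : ∀ z, cls z ↔ cl (pr z.1))
    (H : LW M T cl rc mw lw gw ow (rex x false (decide (sol.lk k = .nn))) hw cw')
    (how : ow T.rt = []) (hV : ∀ n, n < 10 → V (M.ν x, n) = V (x, n))
    (hW : WdV K cl grp sol.lk sol.lt y a lw lw0 hw cw' V vp)
    (hv : ∀ n, vp (.inr (k, n)) = V (x, if n = 0 then 8 else 9))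
    (z : K.ct.Ci) {c : Bool} (hc : cl (pr z.1) ↔ c = true) :
    ∃ u, Rot (lv V (rw' c ((cir M (pr z.1)).flatMap fun y =>
        tag y ((rex x false (decide (sol.lk k = .nn)) (M.μ y)).reverse ++
          (asm M y (mw y) (ow y) (gw y) ++ rex x false (decide (sol.lk k = .nn)) y))))) u ∧
      Ins (lv vp (wd grp (swq K.ct.contour cls) sol.lk sol.lt sol.rd z)) u := by
  classical
  obtain ⟨hdk, hk0⟩ := F.kne hk
  obtain ⟨u, h1, h2⟩ := top_word L F hk sol.toRds hX hy ha hcls H how hV hW
    (sw := swq K.ct.contour cls) (fun z hz _ => ⟨fun h => h.2, fun h => ⟨hz, h⟩⟩) z hc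
  refine ⟨u, h1, ?_⟩
  obtain ⟨e2, e3⟩ := rlv_il (lt := sol.lt) (sw := swq K.ct.contour cls) sol.c1.1 sol.c1.2 hv
  have e4 : otv grp (swq K.ct.contour cls) sol.lk k x false (decide (sol.lk k = .nn)) vp V z =
      lv vp (ol grp (swq K.ct.contour cls) sol.lk z) := by
    unfold otv
    by_cases hz : z = K.ct.rC
    · rw [if_pos hz, hz]
      have h3 : sol.lk K.ct.rC = .drop := sol.root.1
      have h4 : ¬ grp K.ct.rC := sol.root.2
      simp [ol, h3, h4, lv]
    · rw [if_neg hz]
      by_cases hzk : z = k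
      · rw [if_pos hzk, hzk]; exact e3
      · rw [if_neg hzk]
  have e5 : (sol.rd z).flatMap (itf sol.lk sol.lt k x false (decide (sol.lk k = .nn)) vp V) =
      lv vp ((sol.rd z).flatMap (il sol.lk sol.lt)) := by
    unfold lv
    rw [List.map_flatMap]
    refine List.flatMap_congr fun i hi => ?_
    unfold itf
    by_cases hik : i = .inr k
    · rw [if_pos hik, hik]; exact e2
    · rw [if_neg hik]
      rfl
  rw [e4, e5, ← lv_append] at h2
  exact h2

/-- **the words of the top level, root ring of class `O`** -/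
theorem topO_word {x : D} (L : LI M W x0 T cl rc) (F : TopF M T cl rc x)
    {k : K.ct.Ci} (hk : M.E.SameCycle (pr k.1) (M.ν x))
    {h1 : k ≠ K.ct.contour.r} {h2 : K.ct.contour.par k = K.ct.contour.r}
    {h3 : K.ct.contour.hi k = K.ct.contour.hi K.ct.contour.r} {e : K.ct.Pt}
    {h4 : e < K.ct.contour.lo k} {h5 : ∀ p, p < K.ct.contour.lo k → p ≤ e}
    (sol : RSolX (K.ct.contour.reroot k h1 h2 h3 e h4 h5) cls real grp y a K.ct.rC)
    (hX : ∀ u, LtS y a u → ¬ X u)
    (hy : ∀ j, ∃ u, (y j).1 = Sum.inl u) (ha : ∀ j, ∃ u, (a j).1 = Sum.inl u)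
    (hcls : ∀ z, cls z ↔ cl (pr z.1))
    (H : LW M T cl rc mw lw gw ow (rex x true (decide (sol.lk K.ct.rC = .nn))) hw cw')
    (how : ow T.rt = []) (hV : ∀ n, n < 10 → V (M.ν x, n) = V (x, n))
    (hW : WdV K cl grp sol.lk sol.lt y a lw lw0 hw cw' V vp)
    (hv : ∀ n, vp (.inr (K.ct.rC, n)) = V (x, if n = 0 then 8 else 9))
    (z : K.ct.Ci) {c : Bool} (hc : cl (pr z.1) ↔ c = true) :
    ∃ u, Rot (lv V (rw' c ((cir M (pr z.1)).flatMap fun y =>
        tag y ((rex x true (decide (sol.lk K.ct.rC = .nn)) (M.μ y)).reverse ++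
          (asm M y (mw y) (ow y) (gw y) ++ rex x true (decide (sol.lk K.ct.rC = .nn)) y))))) u ∧
      Ins (lv vp (wd grp (swq (K.ct.contour.reroot k h1 h2 h3 e h4 h5) cls) sol.lk sol.lt
        sol.rd z)) u := by
  classical
  obtain ⟨hdk, hk0⟩ := F.kne hk
  have hck : ¬ cls k := by
    rw [hcls]
    exact fun h => F.c1 ((cl_cyc L.cE hk).2 h)
  have hcr : cls K.ct.contour.r := by
    show cls K.ct.rC
    rw [hcls]
    exact (cl_cyc L.cE (rC_cyc F.G0 F.d0)).2 F.c0
  obtain ⟨u, g1, g2⟩ := top_word L F hk (rrR sol.toRds hck hcr) hX hy ha hcls H how hV hW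
    (sw := swq (K.ct.contour.reroot k h1 h2 h3 e h4 h5) cls) (fun z hz hzk => by
        have e1 : (K.ct.contour.reroot k h1 h2 h3 e h4 h5).par z = K.ct.contour.par z := rr_par hz
        constructor
        · intro h
          have h6 := h.2
          rw [e1] at h6
          exact h6
        · intro h
          refine ⟨hzk, ?_⟩
          rw [e1]
          exact h) z hc
  obtain ⟨e2, e3⟩ := rlv_il (lt := sol.lt) (sw := swq (K.ct.contour.reroot k h1 h2 h3 e h4 h5) cls) sol.c1.1 sol.c1.2 hv
  have e6 : ∀ z, Sum.inr k ∉ sol.rd z := by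
    intro z hz
    exact ((sol.mem z _).1 hz).2.2 rfl
  -- the word is a rotation of the word over the old contour
  have key : Rot (otv grp (swq (K.ct.contour.reroot k h1 h2 h3 e h4 h5) cls) sol.lk k x true (decide (sol.lk K.ct.rC = .nn)) vp V z ++
      ((rrR sol.toRds hck hcr).rd z).flatMap
        (itf sol.lk sol.lt k x true (decide (sol.lk K.ct.rC = .nn)) vp V))
      (lv vp (wd grp (swq (K.ct.contour.reroot k h1 h2 h3 e h4 h5) cls) sol.lk sol.lt sol.rd z)) := by
    show Rot (_ ++ (rrd K.ct.contour k sol.rd z).flatMap _) (lv vp (_ ++ _))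
    unfold otv rrd
    by_cases hz : z = K.ct.rC
    · rw [if_pos hz, if_pos (show z = K.ct.contour.r from hz), List.nil_append,
        List.flatMap_append, itf_flat (e6 z)]
      have h7 : [Sum.inr k].flatMap (itf sol.lk sol.lt k x true
          (decide (sol.lk K.ct.rC = .nn)) vp V) = rlv V x true (decide (sol.lk K.ct.rC = .nn)) := by
        rw [List.flatMap_cons, List.flatMap_nil, List.append_nil]
        unfold itf
        rw [if_pos rfl]
      rw [h7, e3, lv_append, hz]
      exact Rot.mk _ _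
    · rw [if_neg hz, if_neg (show ¬ z = K.ct.contour.r from hz)]
      by_cases hzk : z = k
      · rw [if_pos hzk, if_pos hzk, hzk]
        obtain ⟨l, g1, g2⟩ := rr_last sol.toRds hck
        have g1' : sol.rd k = l ++ [.inr K.ct.rC] := g1
        rw [g1', List.dropLast_concat, itf_flat (fun h => e6 k (by
          rw [g1']; exact List.mem_append_left _ h))]
        have h8 : ol grp (swq (K.ct.contour.reroot k h1 h2 h3 e h4 h5) cls) sol.lk k =
            ([] : List (Bool × (K.ct.Pt ⊕ (K.ct.Ci × ℕ)))) := by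
          have h9 : sol.lk k = .drop := sol.root.1
          have h10 : ¬ grp k := sol.root.2
          simp [ol, h9, h10]
        rw [h8, List.flatMap_append, List.nil_append, lv_append]
        have h11 : lv vp ([Sum.inr K.ct.rC].flatMap (il sol.lk sol.lt)) =
            rlv V x false (decide (sol.lk K.ct.rC = .nn)) := by
          rw [List.flatMap_cons, List.flatMap_nil, List.append_nil]
          exact e2.symm
        rw [h11]
        exact Rot.mk _ _
      · rw [if_neg hzk, if_neg hzk, itf_flat (e6 z), lv_append]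
        exact Rot.refl _
  obtain ⟨u', h7, h8⟩ := g2.rot key
  exact ⟨u', g1.trans h7, h8⟩

end Pool.Agent.MP42.GZ
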