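import Pool.Agent.MP42.GZ.GeoXC
import Pool.Agent.MP42.GZ.GeoXT

/-!
# The top level from an abstract solution (owner helper30, helper48)

`wdV_of`: the values of links and letters; `lwTop`: the words of the top level; `topE_w`, `topO_w`.
-/

set_option autoImplicit false
set_option linter.unusedSectionVars false
set_option linter.unusedVariables false

namespace Pool.Agent.MP42.GZ

open Pool.Agent.MP42 Pool.Agent.MP42.U Pool.Agent.MP42.PL Pool.Agent.MP42.O3 Pool.Agent.MP42.O3.BM
open Pool.Agent.MP42.EO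

variable {D : Type*} {M : BM D} [Finite D]
variable {W : D → Prop} {T : RT M.E} {cl : D → Prop} {rc : D → Rc D} {J : Type*} {x0 : D}
  {X : D → Prop}

/-- the lanes of the root link -/
theorem exb_rex {x : D} (F : TopF M T cl rc x) (S : Bxs M W T cl rc J) {σ two : Bool} :
    ExB M T.G S.cE (rex x σ two) := by
  classical
  have hne : ∀ y, rex x σ two y ≠ [] → y = x := by
    intro y hy
    by_contra h
    apply hy
    unfold rex
    rw [if_neg h]
  refine ⟨?_, ?_, ?_, ?_, ?_, ?_⟩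
  · intro y hy
    rw [hne y hy]
    exact ⟨F.G0, F.G1⟩
  · intro y hy
    rw [hne y hy]
    exact F.ek
  · intro y hy
    rw [hne y hy]
    have h1 : cl x ↔ S.cE x = true := Bxs.cE_in F.G0
    have h2 : cl (M.ν x) ↔ S.cE (M.ν x) = true := Bxs.cE_in F.G1
    have h3 : S.cE x = true := h1.1 F.c0
    have h4 : S.cE (M.ν x) = false := by
      cases h5 : S.cE (M.ν x)
      · rfl
      · exact absurd (h2.2 h5) F.c1
    rw [h3, h4]; rfl
  · intro y q hq
    have hy := hne y (List.ne_nil_of_mem hq)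
    rw [hy] at hq
    unfold rex rlw at hq
    rw [if_pos rfl] at hq
    cases two
    · simp at hq; rw [hq]; exact Or.inl rfl
    · simp at hq
      rcases hq with hq | hq <;> rw [hq]
      · exact Or.inl rfl
      · exact Or.inr rfl
  · intro y
    unfold rex rlw
    split_ifs
    · cases two <;> simp
    · simp
    · simp
  · intro y z hs hyz q hq q' hq'
    have h1 := hne y (List.ne_nil_of_mem hq)
    have h2 := hne z (List.ne_nil_of_mem hq')
    exact absurd (h1.trans h2.symm) hyz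

variable {S : Bxs M W T cl rc J} {K : TD M.E M.τ T X (dgL rc)}
  {real cls : K.ct.Ci → Prop} {lk : K.ct.Ci → LS} {lt : K.ct.Pt → Bool} {y x' : J → K.ct.Pt}

/-- **the values of the links and letters** -/
theorem wdV_of (L : LI M W x0 T cl rc) (hv : Val M) (hm : Mch S K lk lt y x')
    {tk : K.ct.Ci → ℕ → D × ℕ} {V : D × ℕ → B} (hV : S.BoxV V) {rx : Wd}
    (htk : ∀ c : K.ct.Ci, T.dep (pr c.1) ≠ 0 → (rc (pr c.1)).kd ≠ .root → ∀ n,
      tk c n = ((rc (pr c.1)).cc, (S.κ (pr c.1)).nc (S.lk (pr c.1)) n)) :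
    WdV K cl (fun _ => False) lk lt y x' S.lwd S.swd (S.hw rx) (S.cw rx) V (vp S tk V) where
  lz u _ h := swd_zero L hv hm.y hm.x h
  rd u _ := rider_lv L (af_of L hv) hV u
  le p u hp hL _ c hc := letter_lv hv (af_of L hv) hm tk V hp hL hc
  ch c hd hr b hb := child_lv L hm.lk hV hd hr (htk c hd hr) hb
  ow sw c hd hr hsw b hb := own_lv L hm.lk hd hr hsw (htk c hd hr) hb

/-- the words of the top level -/
theorem lwTop (L : LI M W x0 T cl rc) (hv : Val M) {x : D} (F : TopF M T cl rc x)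
    {σ two : Bool} :
    LW M T cl rc (mw tb M S.mn) S.lwd (gw M S.gt) no (rex x σ two) (S.hw (rlw σ two))
      (S.cw (rlw σ two)) := by
  classical
  refine S.lwH L hv ?_ ?_ (fun _ _ _ => rfl) (fun h => absurd rfl h)
  · intro u hu
    unfold rex
    rw [if_neg]
    intro h
    refine hu (M.ν x) F.G1 F.d1 (by rw [F.rc1]) ?_
    rw [F.rc1]
    exact h
  · intro u h1 h2 h3
    rw [F.rck L (F.un u h1 h2 h3)]
    unfold rex
    rw [if_pos rfl]

/-- the tokens of the own links, root link at the circle `k0` -/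
noncomputable def tkT (S : Bxs M W T cl rc J) {K : TD M.E M.τ T X (dgL rc)} (k0 : K.ct.Ci) (x : D)
    (c : K.ct.Ci) (n : ℕ) : D × ℕ := by
  classical
  exact if c = k0 then (x, if n = 0 then 8 else 9) else
    ((rc (pr c.1)).cc, (S.κ (pr c.1)).nc (S.lk (pr c.1)) n)

lemma tkT_eq (S : Bxs M W T cl rc J) (k0 : K.ct.Ci) (x : D) (n : ℕ) :
    tkT S (K := K) k0 x k0 n = (x, if n = 0 then 8 else 9) := by
  unfold tkT
  rw [if_pos rfl]

lemma tkT_ne (S : Bxs M W T cl rc J) {k0 c : K.ct.Ci} (h : c ≠ k0) (x : D) (n : ℕ) :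
    tkT S (K := K) k0 x c n = ((rc (pr c.1)).cc, (S.κ (pr c.1)).nc (S.lk (pr c.1)) n) := by
  unfold tkT
  rw [if_neg h]

/-- the letters are not at the corners with diagonals -/
lemma lts_of (hm : Mch S K lk lt y x') (hX : ∀ u, S.Lt u → ¬ X u) :
    ∀ u, LtS y x' u → ¬ X u := by
  rintro u ⟨j, h | h⟩
  · refine hX u ⟨j, Or.inl ?_⟩
    rw [hm.y j] at h
    exact (Sum.inl_injective h).symm
  · refine hX u ⟨j, Or.inr ?_⟩
    rw [hm.x j] at h
    exact (Sum.inl_injective h).symm

/-- **the top level, root ring of class `E`** -/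
theorem topE_w {x r : D} (L : LI M W x0 T cl rc) (hv : Val M) (F : TopF M T cl rc x)
    {k : K.ct.Ci} (hk : M.E.SameCycle (pr k.1) (M.ν x)) (hr : M.E.SameCycle r x)
    (sol : RSolX K.ct.contour cls real (fun _ => False) y x' k) (hm : Mch S K sol.lk sol.lt y x')
    (hX : ∀ u, S.Lt u → ¬ X u) (hcls : ∀ z, cls z ↔ cl (pr z.1)) :
    LvlW S K no (ttl M r S.cE) (rex x false (decide (sol.lk k = .nn))) (tkT S k x)
      (wd (fun _ => False) (swq K.ct.contour cls) sol.lk sol.lt sol.rd) where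
  wd V hV z := by
    rw [cxo_tag]
    refine topE_word L F hk sol (lts_of hm hX) (fun j => ⟨_, hm.y j⟩) (fun j => ⟨_, hm.x j⟩) hcls
      (lwTop L hv F) rfl (fun n hn => hV.inv.m x n hn) (wdV_of L hv hm hV fun c hd hr' n => ?_)
      (fun n => ?_) z (Bxs.cE_in (ci_base z).1)
    · refine tkT_ne S ?_ x n
      rintro rfl
      exact hr' (by rw [F.rck L hk.symm])
    · show V (tkT S k x k n) = _
      rw [tkT_eq]
  tt := ttl_of' (hr.trans (rC_cyc F.G0 F.d0)) sol.tot
  t2 z := by
    by_cases hz : z = K.ct.contour.r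
    · exact Or.inr ((sol.tot z).1 hz)
    · exact Or.inl ((sol.tot z).2 hz)
  pb := sol.pb
  con V hV hcl := sol.const (vp S _ V) (fun j => star_v hv hm _ hV j) (fun _ h => h.elim) hcl

/-- **the top level, root ring of class `O`** -/
theorem topO_w {x r : D} (L : LI M W x0 T cl rc) (hv : Val M) (F : TopF M T cl rc x)
    {k : K.ct.Ci} (hk : M.E.SameCycle (pr k.1) (M.ν x)) (hr : M.E.SameCycle r (M.ν x))
    {h1 : k ≠ K.ct.contour.r} {h2 : K.ct.contour.par k = K.ct.contour.r}
    {h3 : K.ct.contour.hi k = K.ct.contour.hi K.ct.contour.r} {e : K.ct.Pt}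
    {h4 : e < K.ct.contour.lo k} {h5 : ∀ p, p < K.ct.contour.lo k → p ≤ e}
    (sol : RSolX (K.ct.contour.reroot k h1 h2 h3 e h4 h5) cls real (fun _ => False) y x' K.ct.rC)
    (hm : Mch S K sol.lk sol.lt y x')
    (hX : ∀ u, S.Lt u → ¬ X u) (hcls : ∀ z, cls z ↔ cl (pr z.1)) :
    LvlW S K no (ttl M r S.cE) (rex x true (decide (sol.lk K.ct.rC = .nn))) (tkT S K.ct.rC x)
      (wd (fun _ => False) (swq (K.ct.contour.reroot k h1 h2 h3 e h4 h5) cls) sol.lk sol.lt
        sol.rd) where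
  wd V hV z := by
    rw [cxo_tag]
    refine topO_word L F hk sol (lts_of hm hX) (fun j => ⟨_, hm.y j⟩) (fun j => ⟨_, hm.x j⟩) hcls
      (lwTop L hv F) rfl (fun n hn => hV.inv.m x n hn) (wdV_of L hv hm hV fun c hd hr' n => ?_)
      (fun n => ?_) z (Bxs.cE_in (ci_base z).1)
    · refine tkT_ne S ?_ x n
      rintro rfl
      exact hd T.dep_rt
    · show V (tkT S K.ct.rC x K.ct.rC n) = _
      rw [tkT_eq]
  tt := ttl_of' (hr.trans hk.symm) sol.tot
  t2 z := by
    by_cases hz : z = (K.ct.contour.reroot k h1 h2 h3 e h4 h5).r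
    · exact Or.inr ((sol.tot z).1 hz)
    · exact Or.inl ((sol.tot z).2 hz)
  pb := sol.pb
  con V hV hcl := sol.const (vp S _ V) (fun j => star_v hv hm _ hV j) (fun _ h => h.elim) hcl

end Pool.Agent.MP42.GZ
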