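import Pool.Agent.MP42.GZ.Hole
import Pool.Agent.MP42.GZ.DkZB
import Pool.Agent.MP42.GZ.LegT
import Pool.Agent.MP42.GZ.Lvl3X
import Pool.Agent.MP42.PL.Level2
import Pool.Agent.MP42.GZ.GeoXS
import Pool.Agent.MP42.PL.TopInst

/-!
# The top level from abstract solutions (owner helper30, helper48)

`rootThmX_E`, `rootThmX_O`: the top level from `AbsR`; `layoutThm_abs`: the layout theorem from the
two statements `AbsC`, `AbsR` about contours.
-/

set_option autoImplicit false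
set_option linter.unusedSectionVars false
set_option linter.unusedVariables false

namespace Pool.Agent.MP42.GZ

open Pool.Agent.MP42 Pool.Agent.MP42.U Pool.Agent.MP42.PL Pool.Agent.MP42.O3 Pool.Agent.MP42.O3.BM
open Pool.Agent.MP42.EO

/-- the boundary of the full set of corners -/
lemma inv_full {D : Type*} (M : BM D) : ∃ col, M.Inv All col :=
  ⟨fun _ => True, fun _ _ h => absurd trivial h, fun _ _ h => absurd trivial h,
    fun _ _ h => absurd trivial h, fun _ _ h => absurd trivial h, fun _ _ h => absurd trivial h,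
    fun _ _ _ _ => ⟨trivial, trivial⟩⟩

/-- connected maps -/
lemma cn_of_reg {D : Type*} {M : BM D} (h : ∀ x y, Reg M.E M.τ x y) : Cn M All := by
  intro x y _ _
  have h1 := h x y
  unfold Reg at h1
  exact Relation.EqvGen.mono (p := fun a b => (b = M.E a ∨ b = M.τ a) ∧ All a ∧ All b)
    (fun a b hab => ⟨hab, trivial, trivial⟩) x y h1

section Fin

variable {D : Type*} {M : BM D} [Finite D]
variable {T : RT M.E} {cl : D → Prop} {rc : D → Rc D} {x0 x r : D} {J : Type*} {X : D → Prop}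

/-- **the top level from the words** -/
theorem root_fin {σ : Bool} (hv : Val M)
    (L : LI M All x0 T cl rc) (hLev : M.Lev All T.G cl (Used M T rc)) (F : TopF M T cl rc x)
    (hrT : T.G r) (hrc : cl r ↔ σ = false)
    (S : Bxs M All T cl rc J) (hC : S.Cov) {K : TD M.E M.τ T X (dgL rc)}
    (σ' two : Bool) {tk : K.ct.Ci → ℕ → D × ℕ}
    {wt : K.ct.Ci → List (Bool × (K.ct.Pt ⊕ (K.ct.Ci × ℕ)))}
    (hw : LvlW S K no (ttl M r S.cE) (rex x σ' two) tk wt)
    (κ : (D → Prop) → D → D → ℕ → ℕ → Bool → Bool)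
    (hκ : ∀ K y0 y1 k0 k1 c, (∀ x, K (M.E x) ↔ K x) → K y0 → M.E.SameCycle y0 y1 →
      κ K y0 y1 k0 k1 c = c) :
    ∃ (S : D → Prop) (mn : D → Sq) (gt : D → M9) (ex : D → Wd) (cE : D → Bool) (b0 b1 : D → D)
      (m0 m1 : D → ℕ),
      RootOutX (T := tb) (M := M) (lgT M) r S mn gt ex cE b0 b1 m0 m1 σ ∧
      ∀ x, ¬ S x → cE (b1 x) = κ (Cmp M All S x) (b0 x) (b1 x) (m0 x) (m1 x) (cE (b0 x)) := by
  classical
  have hLg : LegH (lgT M) S := legT L hv S
  obtain ⟨col, hI⟩ := inv_full M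
  have hG := lvl_g (fun _ => Iff.rfl) hI hLev L hv hC hLg (ow := no) (tt := ttl M r S.cE)
    (fun u _ _ => rfl) (exb_rex F S) hw
  refine ⟨T.G, S.mn, S.gt, _, S.cE, S.b0, S.b0, _, _, ⟨hG, hrT, ?_⟩, ?_⟩
  · have h1 : cl r ↔ S.cE r = true := Bxs.cE_in hrT
    have h2 := h1.symm.trans hrc
    show S.cE r = !σ
    cases hs : S.cE r <;> cases σ <;> simp_all
  · intro z h2
    have hb := hC.b0_spec (x := z) trivial h2
    exact (hκ (Cmp M All T.G z) (S.b0 z) (S.b0 z) _ _ (S.cE (S.b0 z))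
      (Cmp.comp (fun _ => Iff.rfl) T.G_E z).WE hb.2 (Equiv.Perm.SameCycle.refl _ _)).symm

/-- the facts of the top level -/
lemma topF_of (L : LI M All (M.E x) T cl rc) (hcx : cl (M.E x)) (hG1 : T.G (M.ν x))
    (hd1 : T.dep (M.ν x) = 1) (hc1 : ¬ cl (M.ν x)) (hrc : rc (M.ν x) = ⟨x, M.ν x, .aft, .root⟩)
    (hun : ∀ y, T.G y → T.dep y ≠ 0 → (rc y).kd = .root → M.E.SameCycle (M.ν x) y)
    (hek : M.ek (M.ν x) = .R) : TopF M T cl rc x := by
  have hG0' : T.G (M.E x) := by rw [← L.rt]; exact T.G_rt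
  have hG0 : T.G x := (T.G_E x).1 hG0'
  refine ⟨hG0, hG1, ?_, by rw [hd1]; decide, (L.cE x).1 hcx, hc1, hrc, hun, hek⟩
  rw [← T.dep_E, ← L.rt]
  exact T.dep_rt

end Fin

variable {D : Type} {M : BM D} [Fintype D] {r : D}

/-- **the top level**, root ring of class `E` -/
theorem rootThmX_E (hv : Val M) (hPl : Plan M.E M.τ) (hRk : ∃ ru rd : D → ℕ, M.Rank ru rd)
    (hcn : Cn M All) (hR : M.ek (M.ν r) = .R) (hne : ¬ M.E.SameCycle r (M.ν r))
    (hH : AbsR) : RootThmX (T := tb) (M := M) (lgT M) r false := by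
  classical
  intro κ hκ
  obtain ⟨T, cl, rc, L, hc0, hD2, hLev, hG1, hd1, how, hpd, hpc, hc1, hrc, hun⟩ :=
    exists_top' (M := M) (x := r) hR (fun h => hne ((Equiv.Perm.sameCycle_apply_left).1 h))
  have F := topF_of L hc0 hG1 hd1 hc1 hrc hun hR
  obtain ⟨K⟩ := exists_dkz M All (M.E r) T cl rc (fun _ => Iff.rfl) hcn (inv_full M) hRk trivial
    L hLev
  obtain ⟨k, hk1, hk2, hk3, hk4, e, he1, he2⟩ := L.top_k L.xo hG1 (by rw [hd1]; decide) how
    (by rw [hrc]) hpd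
  have hks : M.E.SameCycle (pr k.1) (M.ν r) := by
    rw [hk1]; exact Equiv.Perm.SameCycle.refl _ _
  have hcr : clz L (L.ct L.xo).contour.r := by
    show cl (pr (L.ct L.xo).rC.1)
    have h1 := rC_cyc (K := L.td L.xo) F.G0 F.d0
    exact (cl_cyc L.cE h1).2 F.c0
  have hck : ¬ clz L k := by
    intro h
    exact F.c1 ((cl_cyc L.cE hks).2 h)
  obtain ⟨xb, ⟨sol⟩⟩ := absE_use hH L hPl K hk2 hk3 hk4 hcr hck
  have hnn : ∀ y, T.G y → T.dep y ≠ 0 → lkz L sol.lk y = .nn →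
      (rc y).kd = .real ∨ (rc y).kd = .root := by
    intro y h1 h2 h3
    obtain ⟨z, e1, e2⟩ := lkz_eq L sol.lk h1
    rw [cyc_const L.rE e2]
    rcases (sol.nn z (by rw [← e1]; exact h3)).2.2 with h4 | h4
    · exact Or.inl h4
    · right
      rw [h4, hk1]
      show (rc (M.ν r)).kd = _
      rw [hrc]
  set o : {v // K.St v} → Bool := fun j => sol.lt ((K.stars (K.nxd L) L L.xo hPl).y j) with ho
  set S := K.bxs L (lkz L sol.lk) (lkz_E L sol.lk) hnn xb o with hS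
  have hC : S.Cov := K.cov L (lkz L sol.lk) (lkz_E L sol.lk) hnn xb o (fun _ => Iff.rfl)
  have hm : Mch S (L.td L.xo) sol.lk sol.lt (K.stars (K.nxd L) L L.xo hPl).y
      (fun j => if xb j then (K.stars (K.nxd L) L L.xo hPl).b j else
        (K.stars (K.nxd L) L L.xo hPl).a j) :=
    K.mch L (lkz L sol.lk) (lkz_E L sol.lk) hnn xb o
      (fun z => (lkz_base L sol.lk z).symm)
      (fun j => K.stars_y (K.nxd L) L L.xo hPl j)
      (fun j => congrArg Subtype.val (K.stars_a (K.nxd L) L L.xo hPl j))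
      (fun j => congrArg Subtype.val (K.stars_b (K.nxd L) L L.xo hPl j))
      (fun _ => rfl) (fun _ => rfl) sol.port
  have hX : ∀ x, S.Lt x → ¬ XL T rc x :=
    K.nx_lt L (lkz L sol.lk) (lkz_E L sol.lk) hnn xb o (K.nxd L)
  have hw := topE_w (K := L.td L.xo) L hv F hks (Equiv.Perm.SameCycle.refl _ r) sol hm hX
    (fun z => Iff.rfl)
  exact root_fin hv L hLev F F.G0 ⟨fun _ => rfl, fun _ => F.c0⟩ S hC _ _ hw κ hκ

/-- **the top level**, root ring of class `O` -/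
theorem rootThmX_O (hv : Val M) (hPl : Plan M.E M.τ) (hRk : ∃ ru rd : D → ℕ, M.Rank ru rd)
    (hcn : Cn M All) (hR : M.ek (M.ν r) = .R) (hne : ¬ M.E.SameCycle r (M.ν r))
    (hH : AbsR) : RootThmX (T := tb) (M := M) (lgT M) r true := by
  classical
  intro κ hκ
  obtain ⟨x, hx⟩ : ∃ x, M.ν x = M.E r := ⟨M.μ (M.E r), ν_μ _⟩
  have hEx : M.E x = M.ν r := by
    have h1 : M.τ (M.E x) = M.E r := hx
    have h2 := congrArg M.τ h1
    rw [M.ττ] at h2
    exact h2
  have hR' : M.ek (M.ν x) = .R := by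
    rw [hx, ← M.ekτ]
    exact hR
  have hEr : M.E.SameCycle r (M.E r) :=
    Equiv.Perm.sameCycle_apply_right.2 (Equiv.Perm.SameCycle.refl _ _)
  have hne' : ¬ M.E.SameCycle (M.E x) (M.ν x) := by
    rw [hEx, hx]
    intro h
    exact hne (hEr.trans h.symm)
  obtain ⟨T, cl, rc, L, hc0, hD2, hLev, hG1, hd1, how, hpd, hpc, hc1, hrc, hun⟩ :=
    exists_top' (M := M) (x := x) hR' hne'
  have F := topF_of L hc0 hG1 hd1 hc1 hrc hun hR'
  obtain ⟨K⟩ := exists_dkz M All (M.E x) T cl rc (fun _ => Iff.rfl) hcn (inv_full M) hRk trivial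
    L hLev
  obtain ⟨k, hk1, hk2, hk3, hk4, e, he1, he2⟩ := L.top_k L.xo hG1 (by rw [hd1]; decide) how
    (by rw [hrc]) hpd
  have hks : M.E.SameCycle (pr k.1) (M.ν x) := by
    rw [hk1]; exact Equiv.Perm.SameCycle.refl _ _
  have hrs : M.E.SameCycle r (M.ν x) := by rw [hx]; exact hEr
  have hcr : clz L (L.ct L.xo).contour.r := by
    show cl (pr (L.ct L.xo).rC.1)
    have h1 := rC_cyc (K := L.td L.xo) F.G0 F.d0
    exact (cl_cyc L.cE h1).2 F.c0
  have hck : ¬ clz L k := by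
    intro h
    exact F.c1 ((cl_cyc L.cE hks).2 h)
  obtain ⟨xb, ⟨sol⟩⟩ := absO_use hH L hPl K hk2 hk3 hk4 e he1 he2 hcr hck
  have hnn : ∀ y, T.G y → T.dep y ≠ 0 → lkz L sol.lk y = .nn →
      (rc y).kd = .real ∨ (rc y).kd = .root := by
    intro y h1 h2 h3
    obtain ⟨z, e1, e2⟩ := lkz_eq L sol.lk h1
    rw [cyc_const L.rE e2]
    rcases (sol.nn z (by rw [← e1]; exact h3)).2.2 with h4 | h4
    · exact Or.inl h4
    · exfalso
      apply h2
      rw [RT.dep_cong e2, h4]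
      exact T.dep_rt
  set o : {v // K.St v} → Bool := fun j => sol.lt ((K.stars (K.nxd L) L L.xo hPl).y j) with ho
  set S := K.bxs L (lkz L sol.lk) (lkz_E L sol.lk) hnn xb o with hS
  have hC : S.Cov := K.cov L (lkz L sol.lk) (lkz_E L sol.lk) hnn xb o (fun _ => Iff.rfl)
  have hm : Mch S (L.td L.xo) sol.lk sol.lt (K.stars (K.nxd L) L L.xo hPl).y
      (fun j => if xb j then (K.stars (K.nxd L) L L.xo hPl).b j else
        (K.stars (K.nxd L) L L.xo hPl).a j) :=
    K.mch L (lkz L sol.lk) (lkz_E L sol.lk) hnn xb o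
      (fun z => (lkz_base L sol.lk z).symm)
      (fun j => K.stars_y (K.nxd L) L L.xo hPl j)
      (fun j => congrArg Subtype.val (K.stars_a (K.nxd L) L L.xo hPl j))
      (fun j => congrArg Subtype.val (K.stars_b (K.nxd L) L L.xo hPl j))
      (fun _ => rfl) (fun _ => rfl) sol.port
  have hX : ∀ x, S.Lt x → ¬ XL T rc x :=
    K.nx_lt L (lkz L sol.lk) (lkz_E L sol.lk) hnn xb o (K.nxd L)
  have hw := topO_w (K := L.td L.xo) L hv F hks hrs sol hm hX (fun z => Iff.rfl)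
  have hrG : T.G r := by
    have h1 := F.G1
    rw [hx] at h1
    exact (T.G_E r).1 h1
  have hcr' : ¬ cl r := fun h => F.c1 (by rw [hx]; exact (L.cE r).2 h)
  exact root_fin hv L hLev F hrG ⟨fun h => absurd h hcr', fun h => absurd h (by decide)⟩
    S hC _ _ hw κ hκ

end Pool.Agent.MP42.GZ
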