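import Pool.Agent.MP42.GZ.AsmC
import Pool.Agent.MP42.GZ.AsmR

/-!
# The layout theorem from the two statements about contours (owner helper30, helper48)
-/

set_option autoImplicit false

namespace Pool.Agent.MP42.GZ

open Pool.Agent.MP42 Pool.Agent.MP42.U Pool.Agent.MP42.PL Pool.Agent.MP42.O3 Pool.Agent.MP42.O3.BM
open Pool.Agent.MP42.EO

/-- **the layout theorem from the statements about contours** -/
theorem layoutThm_abs (hC : AbsC) (hR : AbsR) : LayoutThm 636 := by
  refine layoutThm_ofX fun D _ M r σ h1 h2 h3 h4 h5 h6 h7 => ?_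
  have hv : Val M := fun x => ⟨h3 x, h4 x⟩
  refine ⟨lvlThmX_of hv h1 h2 hC, ?_⟩
  cases σ
  · exact rootThmX_E hv h1 h2 (cn_of_reg h5) h6 h7 hR
  · exact rootThmX_O hv h1 h2 (cn_of_reg h5) h6 h7 hR

end Pool.Agent.MP42.GZ
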