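import Pool.Agent.MP42.GZ.GeoS
import Pool.Agent.MP42.O3.Dock
import Pool.Agent.MP42.O3.Inv

/-!
# Corners of docks (owner helper30, helper50)

`bxc`: the corner of the child at an unused full dock.
-/

set_option autoImplicit false
set_option linter.unusedSectionVars false

namespace Pool.Agent.MP42.GZ

open Pool.Agent.MP42 Pool.Agent.MP42.U Pool.Agent.MP42.PL Pool.Agent.MP42.O3 Pool.Agent.MP42.O3.BM

variable {D : Type*}

/-- the corner of the box of an unused dock with base corner `v` -/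
def bxc (M : BM D) (T : RT M.E) (v c : D) : Prop := (T.G v ∧ c = M.ν v) ∨ (¬ T.G v ∧ c = v)

lemma mk_uses' {M : BM D} {r : Rc D} : mk' M r ↔ Uses M r := by
  unfold mk' gk Uses
  constructor
  · rintro ⟨h1, h2⟩
    push Not at h1
    exact ⟨⟨h1.1, h2⟩, fun h => by simpa using h1.2 h⟩
  · rintro ⟨⟨h1, h2⟩, h3⟩
    refine ⟨?_, h2⟩
    rintro (h | ⟨h, h'⟩)
    · exact h1 h
    · rw [h3 h] at h'; exact absurd h' (by decide)

end Pool.Agent.MP42.GZ
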