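import Pool.Agent.MP42.GZ.Dk0

/-!
# Docks can be chosen, restricted diagonal links

`exists_dkz`: for every missing component an unused full dock (`Nd`), an unused harmless dock (`Hd`)
or a main link at a bad tripod (`Gd`); `gd_info`: the third leg of the last kind.
-/

set_option autoImplicit false
set_option linter.unusedSectionVars false

namespace Pool.Agent.MP42.GZ

open Pool.Agent.MP42 Pool.Agent.MP42.U Pool.Agent.MP42.PL Pool.Agent.MP42.O3 Pool.Agent.MP42.O3.BM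

variable {D : Type*} {M : BM D} {W : D → Prop} {x0 : D} {T : RT M.E} {cl : D → Prop}
  {rc : D → Rc D}

/-- an unused dock with base corner `v` -/
structure Nd (M : BM D) (W : D → Prop) (T : RT M.E) (cl : D → Prop) (rc : D → Rc D) (v : D) :
    Prop where
  lab : M.lab v = .B3
  k : (T.G v ∧ cl v ∧ ¬ T.G (M.ν v)) ∨ (¬ T.G v ∧ T.G (M.ν v) ∧ ¬ cl (M.ν v))
  g3 : T.G (M.ν (M.ν v)) ∧ ¬ cl (M.ν (M.ν v))
  g4 : T.G (M.ν (M.ν (M.ν v))) ∧ cl (M.ν (M.ν (M.ν v)))
  w4 : ∀ z, SV M v z → W z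
  un : ¬ Used M T rc v

/-- an unused harmless dock with base corner `v`: two neighbouring corners are missing -/
structure Hd (M : BM D) (W : D → Prop) (T : RT M.E) (cl : D → Prop) (rc : D → Rc D) (v : D) :
    Prop where
  lab : M.lab v = .B3
  k : (T.G v ∧ cl v ∧ ¬ T.G (M.ν v) ∧ ¬ T.G (M.ν (M.ν v)) ∧
      (T.G (M.ν (M.ν (M.ν v))) ∧ cl (M.ν (M.ν (M.ν v)))) ∧
      Cmp M W T.G (M.ν v) (M.ν (M.ν v))) ∨
    (¬ T.G v ∧ (T.G (M.ν v) ∧ ¬ cl (M.ν v)) ∧ (T.G (M.ν (M.ν v)) ∧ ¬ cl (M.ν (M.ν v))) ∧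
      ¬ T.G (M.ν (M.ν (M.ν v))) ∧ Cmp M W T.G v (M.ν (M.ν (M.ν v))))
  w4 : ∀ z, SV M v z → W z
  un : ¬ Used M T rc v

/-- the corner of the child at a harmless dock: `3`, an `M1`-child of `1`, or `4`, an `M2`-child
of `2` -/
def hxc (M : BM D) (T : RT M.E) (v c : D) : Prop :=
  (T.G v ∧ c = M.ν (M.ν v)) ∨ (¬ T.G v ∧ c = M.ν (M.ν (M.ν v)))

/-- a link which may get a box -/
structure Gd (M : BM D) (T : RT M.E) (rc : D → Rc D) (y : D) : Prop where
  G : T.G y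
  d : T.dep y ≠ 0
  m : mk' M (rc y)
  B : (M.lab (rc y).hc).isB = true
  n : ¬ T.G (bxl M (rc y))

lemma Nd.inj {v v' : D} (h : Nd M W T cl rc v) (h' : Nd M W T cl rc v') (hs : SV M v v') :
    v = v' := by
  have hB : (M.lab v).isB = true := by rw [h.lab]; rfl
  rcases hs.cases4 hB with e | e | e | e
  · exact e.symm
  · have := h'.lab
    rw [e, lab_ν, h.lab] at this
    exact absurd this (by decide)
  · exfalso
    have h1 := h.g3
    rw [← e] at h1
    rcases h'.k with h2 | h2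
    · exact h1.2 h2.2.1
    · exact h2.1 h1.1
  · have := h'.lab
    rw [e, lab_ν, lab_ν, lab_ν, h.lab] at this
    exact absurd this (by decide)

lemma bxc_un {v c c' : D} (h : bxc M T v c) (h' : bxc M T v c') : c = c' := by
  rcases h with ⟨h1, h2⟩ | ⟨h1, h2⟩ <;> rcases h' with ⟨h3, h4⟩ | ⟨h3, h4⟩
  · rw [h2, h4]
  · exact absurd h1 h3
  · exact absurd h3 h1
  · rw [h2, h4]

lemma bxc_inj {v v' c : D} (hl : M.lab v = .B3) (hl' : M.lab v' = .B3) (h : bxc M T v c)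
    (h' : bxc M T v' c) : v = v' := by
  rcases h with ⟨h1, h2⟩ | ⟨h1, h2⟩ <;> rcases h' with ⟨h3, h4⟩ | ⟨h3, h4⟩
  · rw [← μ_ν v, ← μ_ν v', ← h2, h4]
  · exfalso
    have : M.lab v' = (M.lab v).nx := by rw [← h4, h2, lab_ν]
    rw [hl, hl'] at this
    exact absurd this (by decide)
  · exfalso
    have : M.lab v = (M.lab v').nx := by rw [← h2, h4, lab_ν]
    rw [hl, hl'] at this
    exact absurd this (by decide)
  · rw [← h2, ← h4]

section

variable [Finite D]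

/-- the link at a used dock -/
lemma grp_of (L : LI M W x0 T cl rc) {y c : D} (hy : T.G y) (hd : T.dep y ≠ 0)
    (hu : Uses M (rc y)) (hB : (M.lab (rc y).hc).isB = true) (hs : SV M (rc y).hc c)
    (hc : ¬ T.G c)
    (h : (M.lab c = .B2 ∧ cl (M.μ c)) ∨ (M.lab c = .B3 ∧ ¬ cl (M.ν c))) :
    mk' M (rc y) ∧ bxl M (rc y) = c := by
  have hr := L.ok y hy hd
  have hk := hr.k
  have hp := hr.p
  have hG1 := hr.p.G_hc hy hd
  have hG2 := hr.p.G_cc hy
  have hmk : mk' M (rc y) := by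
    refine ⟨?_, hu.1.2⟩
    rintro (h1 | h1)
    · exact hu.1.1 h1
    · have := hu.2 h1.1
      rw [hB] at this
      exact absurd this (by decide)
  refine ⟨hmk, ?_⟩
  have hccB : (M.lab (rc y).cc).isB = true := by rw [hr.p.sv.isB]; exact hB
  set a := (rc y).hc with ha
  have hne : ∀ z, T.G z → z ≠ c := fun z h1 h2 => hc (h2 ▸ h1)
  have e4 : M.ν (M.ν (M.ν (M.ν a))) = a := M.n4 a hB
  have eμ : M.μ a = M.ν (M.ν (M.ν a)) := μ_4 hB
  have hcase := hs.cases4 hB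
  unfold KdOK KdP at hk
  unfold PlOK at hp
  rcases hkd : (rc y).kd with _ | _ | _ | _ | _ | _ | _ | _ | _ | _ | _
  · rw [hu.2 hkd] at hB; exact absurd hB (by decide)
  · rw [hkd] at hk
    rw [hk.2.2.2.1] at hB
    exact absurd hB (by decide)
  · rw [hkd] at hk
    rw [hk.2.2.2.1] at hB
    exact absurd hB (by decide)
  · rw [hkd] at hk
    rw [hk.2.1] at hccB
    exact absurd hccB (by decide)
  · rw [hkd] at hk
    rw [hk.2.1] at hB
    exact absurd hB (by decide)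
  · -- M1
    rw [hkd] at hk
    rw [hk.1] at hp
    have hbx : bxl M (rc y) = M.ν a := by
      unfold bxl kap
      rw [hkd]
      rfl
    have hla : M.lab a = .B3 := hk.2.1
    rw [hbx]
    rcases hcase with e | e | e | e
    · exact absurd e.symm (hne _ hG1)
    · exact e.symm
    · exfalso
      refine hne _ hG2 ?_
      rw [hp.1, e]
    · exfalso
      rcases h with h | h
      · have h1 : M.μ c = (rc y).cc := by rw [e, μ_ν, hp.1]
        rw [h1] at h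
        exact hk.2.2.2 h.2
      · have := h.1
        rw [e, lab_ν, lab_ν, lab_ν, hla] at this
        exact absurd this (by decide)
  · -- M2
    rw [hkd] at hk
    rw [hk.1] at hp
    have hbx : bxl M (rc y) = M.μ a := by
      unfold bxl kap
      rw [hkd]
      rfl
    have hla : M.lab a = .B2 := hk.2.1
    rw [hbx, eμ]
    rcases hcase with e | e | e | e
    · exact absurd e.symm (hne _ hG1)
    · exfalso
      rcases h with h | h
      · have := h.1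
        rw [e, lab_ν, hla] at this
        exact absurd this (by decide)
      · have h1 : M.ν c = (rc y).cc := by rw [e, hp.1]
        rw [h1] at h
        exact h.2 hk.2.2.2
    · exfalso
      refine hne _ hG2 ?_
      rw [hp.1, e]
    · exact e.symm
  · -- M3
    rw [hkd] at hk
    rw [hk.1] at hp
    have hbx : bxl M (rc y) = M.ν a := by
      unfold bxl kap
      rw [hkd]
      rfl
    have hla : M.lab a = .B3 := hk.2.1
    have hcc : (rc y).cc = M.ν (M.ν (M.ν a)) := by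
      rw [← eμ]
      rw [show a = M.ν (rc y).cc from hp.1, μ_ν]
    rw [hbx]
    rcases hcase with e | e | e | e
    · exact absurd e.symm (hne _ hG1)
    · exact e.symm
    · exfalso
      rcases h with h | h
      · have := h.1
        rw [e, lab_ν, lab_ν, hla] at this
        exact absurd this (by decide)
      · have h1 : M.ν c = (rc y).cc := by rw [e, hcc]
        rw [h1] at h
        exact h.2 hk.2.2.2
    · exfalso
      refine hne _ hG2 ?_
      rw [hcc, e]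
  · -- M4
    rw [hkd] at hk
    rw [hk.1] at hp
    have hbx : bxl M (rc y) = M.μ a := by
      unfold bxl kap
      rw [hkd]
      rfl
    have hla : M.lab a = .B2 := hk.2.1
    rw [hbx, eμ]
    rcases hcase with e | e | e | e
    · exact absurd e.symm (hne _ hG1)
    · exfalso
      refine hne _ hG2 ?_
      rw [hp.1, e]
    · exfalso
      rcases h with h | h
      · have h1 : M.μ c = (rc y).cc := by rw [e, μ_ν, hp.1]
        rw [h1] at h
        exact hk.2.2.2 h.2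
      · have := h.1
        rw [e, lab_ν, lab_ν, hla] at this
        exact absurd this (by decide)
    · exact e.symm
  · exact absurd hkd hu.1.1
  · exact absurd hkd hu.1.2

/-- a boundary corner of a missing component -/
lemma exists_bd (hWE : ∀ x, W (M.E x) ↔ W x) (hcn : Cn M W) (hx0 : W x0) (hG0 : T.G x0) {x : D}
    (hx : W x) (hn : ¬ T.G x) : ∃ z, Cmp M W T.G x z ∧ T.G (M.τ z) := by
  by_contra hno
  push Not at hno
  have hC := Cmp.comp (M := M) hWE T.G_E x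
  have key : ∀ a b, Relation.EqvGen (fun a b => (b = M.E a ∨ b = M.τ a) ∧ W a ∧ W b) a b →
      (Cmp M W T.G x a ↔ Cmp M W T.G x b) := by
    intro a b h
    induction h with
    | rel a b h =>
      obtain ⟨h1 | h1, h2, h3⟩ := h
      · rw [h1]; exact (hC.WE a).symm
      · constructor
        · intro h4
          rw [h1]
          exact hC.cl a h4 (by rw [← h1]; exact h3) (hno a h4)
        · intro h4
          have h5 : M.τ b = a := by rw [h1, M.ττ]
          rw [← h5]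
          exact hC.cl b h4 (by rw [h5]; exact h2) (hno b h4)
    | refl a => exact Iff.rfl
    | symm a b _ ih => exact ih.symm
    | trans a b c _ _ ih ih' => exact ih.trans ih'
  have h1 := (key x x0 (hcn x x0 hx hx0)).1 (Cmp.refl hx hn)
  exact h1.right.2 hG0

/-- the kind of a link which may get a box -/
lemma gd_kd (L : LI M W x0 T cl rc) {y : D} (h : Gd M T rc y) :
    (rc y).kd = .m1 ∨ (rc y).kd = .m2 ∨ (rc y).kd = .m3 ∨ (rc y).kd = .m4 := by
  have hr := L.ok y h.G h.d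
  have hk := hr.k
  have hB := h.B
  have hccB : (M.lab (rc y).cc).isB = true := by rw [hr.p.sv.isB]; exact hB
  unfold KdOK KdP at hk
  rcases hkd : (rc y).kd with _ | _ | _ | _ | _ | _ | _ | _ | _ | _ | _
  · exact absurd (Or.inr ⟨hkd, hB⟩) h.m.1
  · rw [hkd] at hk
    rw [hk.2.2.2.1] at hB
    exact absurd hB (by decide)
  · rw [hkd] at hk
    rw [hk.2.2.2.1] at hB
    exact absurd hB (by decide)
  · rw [hkd] at hk
    rw [hk.2.1] at hccB
    exact absurd hccB (by decide)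
  · rw [hkd] at hk
    rw [hk.2.1] at hB
    exact absurd hB (by decide)
  · exact Or.inl rfl
  · exact Or.inr (Or.inl rfl)
  · exact Or.inr (Or.inr (Or.inl rfl))
  · exact Or.inr (Or.inr (Or.inr rfl))
  · exact absurd (Or.inl hkd) h.m.1
  · exact absurd hkd h.m.2

lemma Gd.mn (L : LI M W x0 T cl rc) {y : D} (h : Gd M T rc y) : (rc y).kd.mn := by
  rcases gd_kd L h with e | e | e | e <;> rw [e] <;> trivial

lemma Gd.uses (L : LI M W x0 T cl rc) {y : D} (h : Gd M T rc y) : Uses M (rc y) := by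
  rcases gd_kd L h with e | e | e | e <;>
    exact ⟨by rw [e]; decide, fun h' => absurd (e.symm.trans h') (by decide)⟩

/-- links of one vertex which may get a box -/
lemma Gd.uniq (L : LI M W x0 T cl rc) {y y' : D} (h : Gd M T rc y) (h' : Gd M T rc y')
    (hs : SV M (rc y).hc (rc y').hc) : M.E.SameCycle y y' :=
  L.uniq y y' h.G h.d (h.uses L) h'.G h'.d (h'.uses L) hs

/-- the missing corner next to a missing corner -/
lemma cmp_nu (hWE : ∀ x, W (M.E x) ↔ W x) {x : D} (h1 : W x) (h2 : ¬ T.G x) (h3 : W (M.ν x))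
    (h4 : ¬ T.G (M.ν x)) : Cmp M W T.G x (M.ν x) := by
  have hC := Cmp.comp (M := M) hWE T.G_E x
  exact hC.cl (M.E x) ((hC.WE x).2 (Cmp.refl h1 h2)) h3 h4

/-- **the third leg of a link which may get a box**; `a` = host corner -/
lemma gd_info (hWE : ∀ x, W (M.E x) ↔ W x) (L : LI M W x0 T cl rc) {y : D}
    (h : Gd M T rc y) {a : D} (ha : a = (rc y).hc) :
    ((rc y).kd = .m1 ∧ M.lab a = .B3 ∧ cl a ∧ ((rc y).cc = M.ν (M.ν a) ∧ ¬ cl (M.ν (M.ν a))) ∧
      bxl M (rc y) = M.ν a ∧ T.G (M.μ a) ∧ ¬ cl (M.μ a)) ∨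
    ((rc y).kd = .m2 ∧ M.lab a = .B2 ∧ ¬ cl a ∧ ((rc y).cc = M.ν (M.ν a) ∧ cl (M.ν (M.ν a))) ∧
      bxl M (rc y) = M.μ a ∧ T.G (M.ν a) ∧ cl (M.ν a)) ∨
    ((rc y).kd = .m3 ∧ M.lab a = .B3 ∧ cl a ∧ ((rc y).cc = M.μ a ∧ cl (M.μ a)) ∧
      bxl M (rc y) = M.ν a ∧ (T.G (M.ν (M.ν a)) ∨
        (¬ T.G (M.ν (M.ν a)) ∧ Cmp M W T.G (M.ν a) (M.ν (M.ν a))))) ∨
    ((rc y).kd = .m4 ∧ M.lab a = .B2 ∧ ¬ cl a ∧ ((rc y).cc = M.ν a ∧ ¬ cl (M.ν a)) ∧
      bxl M (rc y) = M.μ a ∧ (T.G (M.ν (M.ν a)) ∨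
        (¬ T.G (M.ν (M.ν a)) ∧ Cmp M W T.G (M.μ a) (M.ν (M.ν a))))) := by
  have hr := L.ok y h.G h.d
  have hk := hr.k
  have hp := hr.p
  have hB := h.B
  have hn := h.n
  have hw := L.w4 y h.G h.d (h.mn L)
  have hc4 := hr.c4
  unfold KdOK KdP at hk
  unfold PlOK at hp
  unfold C4 at hc4
  rw [← ha] at hB hw hc4
  have e4 : M.ν (M.ν (M.ν (M.ν a))) = a := M.n4 a hB
  have eμ : M.μ a = M.ν (M.ν (M.ν a)) := μ_4 hB
  rcases gd_kd L h with e | e | e | e
  · left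
    rw [e] at hk
    rw [hk.1] at hp
    have hbx : bxl M (rc y) = M.ν a := by
      unfold bxl kap
      rw [e, ha]
      rfl
    rw [hbx] at hn
    obtain ⟨h1, h2⟩ := hc4.1 e
    rw [← ha] at hk hp
    exact ⟨e, hk.2.1, hk.2.2.1, ⟨hp.1, hp.1 ▸ hk.2.2.2⟩, hbx, h1, fun h3 => hn (h2 h3)⟩
  · right; left
    rw [e] at hk
    rw [hk.1] at hp
    have hbx : bxl M (rc y) = M.μ a := by
      unfold bxl kap
      rw [e, ha]
      rfl
    rw [hbx] at hn
    obtain ⟨h1, h2⟩ := hc4.2 e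
    rw [← ha] at hk hp
    exact ⟨e, hk.2.1, hk.2.2.1, ⟨hp.1, hp.1 ▸ hk.2.2.2⟩, hbx, h1,
      by_contra fun h3 => hn (h2 h3)⟩
  · right; right; left
    rw [e] at hk
    rw [hk.1] at hp
    have hbx : bxl M (rc y) = M.ν a := by
      unfold bxl kap
      rw [e, ha]
      rfl
    rw [hbx] at hn
    rw [← ha] at hk hp
    have hcc : (rc y).cc = M.μ a := by rw [hp.1, μ_ν]
    refine ⟨e, hk.2.1, hk.2.2.1, ⟨hcc, hcc ▸ hk.2.2.2⟩, hbx, ?_⟩
    by_cases h3 : T.G (M.ν (M.ν a))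
    · exact Or.inl h3
    · exact Or.inr ⟨h3, cmp_nu hWE (hw _ (SV.nu a)) hn (hw _ ((SV.nu a).trans (SV.nu _))) h3⟩
  · right; right; right
    rw [e] at hk
    rw [hk.1] at hp
    have hbx : bxl M (rc y) = M.μ a := by
      unfold bxl kap
      rw [e, ha]
      rfl
    rw [hbx] at hn
    rw [← ha] at hk hp
    refine ⟨e, hk.2.1, hk.2.2.1, ⟨hp.1, hp.1 ▸ hk.2.2.2⟩, hbx, ?_⟩
    by_cases h3 : T.G (M.ν (M.ν a))
    · exact Or.inl h3
    · refine Or.inr ⟨h3, ?_⟩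
      have h5 : M.μ a = M.ν (M.ν (M.ν a)) := eμ
      have h6 := cmp_nu (T := T) hWE (hw _ ((SV.nu a).trans (SV.nu _))) h3
        (hw _ (((SV.nu a).trans (SV.nu _)).trans (SV.nu _))) (by rw [← h5]; exact hn)
      rw [← h5] at h6
      exact h6.symm

/-- every missing component has a dock -/
lemma dock_at (hWE : ∀ x, W (M.E x) ↔ W x) (hcn : Cn M W) {col : D → Prop} (hI : M.Inv W col)
    {ru rd : D → ℕ} (hR : M.Rank ru rd) (hx0 : W x0) (L : LI M W x0 T cl rc)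
    (hLev : M.Lev W T.G cl (Used M T rc)) {x : D} (hx : W x) (hn : ¬ T.G x) :
    ∃ c, Cmp M W T.G x c ∧ ((∃ v, Hd M W T cl rc v ∧ hxc M T v c) ∨
      (∃ v, Nd M W T cl rc v ∧ bxc M T v c) ∨ ∃ y, Gd M T rc y ∧ c = bxl M (rc y)) := by
  have hused : ∀ x, Used M T rc (M.ν x) ↔ Used M T rc x := fun x =>
    ⟨fun h => used_sv (SV.nu x) h, fun h => used_sv (nu_symm x) h⟩
  have hC := Cmp.comp (M := M) hWE T.G_E x
  have hG0 : T.G x0 := by rw [← L.rt]; exact T.G_rt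
  obtain ⟨z, hz, hS⟩ := exists_bd hWE hcn hx0 hG0 hx hn
  -- the vertex
  have w4 : ∀ {a : D}, M.lab a = .B2 → W a → W (M.μ a) → W (M.ν a) → W (M.ν (M.ν a)) →
      ∀ z, SV M (M.μ a) z → W z := by
    intro a hl h2 h1 h3 h4 z hz
    have hB : (M.lab a).isB = true := by rw [hl]; rfl
    rcases ((SV.mu a).trans hz).cases4 hB with e | e | e | e
    · rw [e]; exact h2
    · rw [e]; exact h3
    · rw [e]; exact h4
    · rw [e, ← μ_4 hB]; exact h1
  rcases exists_dock hLev hused hC hI hR hz hS with ⟨a, ha⟩ | ⟨a, ha⟩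
  · obtain ⟨hl, h2, hS1, hc1, hor⟩ := ha
    have F := four hl
    have hna : ¬ T.G a := hC.nS a h2
    rcases hor with ⟨hus, h3, hc3, h4, hc4⟩ | ⟨hus, h3, h4, hc4⟩ | ⟨hus, -⟩
    · refine ⟨a, h2, Or.inr (Or.inl ?_)⟩
      refine ⟨M.μ a, ⟨F.l1, Or.inl ⟨hS1, hc1, by rw [ν_μ]; exact hna⟩, ?_, ?_, ?_, ?_⟩,
        Or.inl ⟨hS1, by rw [ν_μ]⟩⟩
      · rw [ν_μ]; exact ⟨h3, hc3⟩
      · rw [ν_μ]; exact ⟨h4, hc4⟩
      · exact w4 hl (hC.sub a h2) (L.sub _ hS1) (L.sub _ h3) (L.sub _ h4)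
      · exact fun h => hus (used_sv (SV.mu a) h)
    · refine ⟨M.ν a, h3, Or.inl ?_⟩
      refine ⟨M.μ a, ⟨F.l1, Or.inl ?_, ?_, ?_⟩, Or.inl ⟨hS1, by rw [ν_μ]⟩⟩
      · rw [ν_μ]
        exact ⟨hS1, hc1, hna, hC.nS _ h3, ⟨h4, hc4⟩, h2.symm.trans h3⟩
      · exact w4 hl (hC.sub a h2) (L.sub _ hS1) (hC.sub _ h3) (L.sub _ h4)
      · exact fun h => hus (used_sv (SV.mu a) h)
    · refine ⟨a, h2, Or.inr (Or.inr ?_)⟩
      obtain ⟨y, hy, hd, hu, hsv⟩ := hus
      have hB : (M.lab (rc y).hc).isB = true := by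
        rw [hsv.isB, hl]; rfl
      obtain ⟨g1, g2⟩ := grp_of L hy hd hu hB hsv.symm hna (Or.inl ⟨hl, hc1⟩)
      exact ⟨y, ⟨hy, hd, g1, hB, by rw [g2]; exact hna⟩, g2.symm⟩
  · obtain ⟨hl, h1, hS2, hc2, hor⟩ := ha
    have F := four hl
    have hna : ¬ T.G (M.μ a) := hC.nS _ h1
    rcases hor with ⟨hus, h3, hc3, h4, hc4⟩ | ⟨hus, h4, h3, hc3⟩ | ⟨hus, -⟩
    · refine ⟨M.μ a, h1, Or.inr (Or.inl ?_)⟩
      refine ⟨M.μ a, ⟨F.l1, Or.inr ⟨hna, by rw [ν_μ]; exact hS2, by rw [ν_μ]; exact hc2⟩, ?_, ?_,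
        ?_, ?_⟩, Or.inr ⟨hna, rfl⟩⟩
      · rw [ν_μ]; exact ⟨h3, hc3⟩
      · rw [ν_μ]; exact ⟨h4, hc4⟩
      · exact w4 hl (L.sub _ hS2) (hC.sub _ h1) (L.sub _ h3) (L.sub _ h4)
      · exact fun h => hus (used_sv (SV.mu a) h)
    · refine ⟨M.ν (M.ν a), h4, Or.inl ?_⟩
      refine ⟨M.μ a, ⟨F.l1, Or.inr ?_, ?_, ?_⟩, Or.inr ⟨hna, by rw [ν_μ]⟩⟩
      · rw [ν_μ]
        exact ⟨hna, ⟨hS2, hc2⟩, ⟨h3, hc3⟩, hC.nS _ h4, h1.symm.trans h4⟩
      · exact w4 hl (L.sub _ hS2) (hC.sub _ h1) (L.sub _ h3) (hC.sub _ h4)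
      · exact fun h => hus (used_sv (SV.mu a) h)
    · refine ⟨M.μ a, h1, Or.inr (Or.inr ?_)⟩
      obtain ⟨y, hy, hd, hu, hsv⟩ := hus
      have hB : (M.lab (rc y).hc).isB = true := by
        rw [hsv.isB, hl]; rfl
      obtain ⟨g1, g2⟩ := grp_of L hy hd hu hB (hsv.symm.trans (SV.mu a)) hna
        (Or.inr ⟨F.l1, by rw [ν_μ]; exact hc2⟩)
      exact ⟨y, ⟨hy, hd, g1, hB, by rw [g2]; exact hna⟩, g2.symm⟩

end

/-! ## The structure -/

/-- selected corners: of harmless docks `H`, of unused full docks `N`, of links `P` -/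
def Sel (M : BM D) (T : RT M.E) (rc : D → Rc D) (H N P : D → Prop) (c : D) : Prop :=
  (∃ v, H v ∧ hxc M T v c) ∨ (∃ v, N v ∧ bxc M T v c) ∨ ∃ y, P y ∧ c = bxl M (rc y)

/-- the choice of the docks -/
structure Dkz (M : BM D) (W : D → Prop) (T : RT M.E) (cl : D → Prop) (rc : D → Rc D) where
  /-- base corners of the selected harmless docks -/
  H : D → Prop
  /-- base corners of the selected unused full docks -/
  N : D → Prop
  /-- selected links -/
  P : D → Prop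
  PE : ∀ x, P (M.E x) ↔ P x
  hH : ∀ v, H v → Hd M W T cl rc v
  hN : ∀ v, N v → Nd M W T cl rc v
  hP : ∀ y, P y → Gd M T rc y
  /-- exactly one dock for every missing component -/
  all : ∀ x, W x → ¬ T.G x → ∃ c, Sel M T rc H N P c ∧ Cmp M W T.G x c
  uni : ∀ c c', Sel M T rc H N P c → Sel M T rc H N P c' → Cmp M W T.G c c' → c = c'
  /-- harmless docks first, unused docks before links -/
  pri : ∀ c v v', N v → bxc M T v c → Hd M W T cl rc v' → ∀ c', hxc M T v' c' →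
    ¬ Cmp M W T.G c c'
  pri2 : ∀ y, P y → (∀ v c', Hd M W T cl rc v → hxc M T v c' →
      ¬ Cmp M W T.G (bxl M (rc y)) c') ∧
    ∀ v c', Nd M W T cl rc v → bxc M T v c' → ¬ Cmp M W T.G (bxl M (rc y)) c'

lemma hxc_un {v c c' : D} (h : hxc M T v c) (h' : hxc M T v c') : c = c' := by
  rcases h with ⟨h1, h2⟩ | ⟨h1, h2⟩ <;> rcases h' with ⟨h3, h4⟩ | ⟨h3, h4⟩
  · rw [h2, h4]
  · exact absurd h1 h3
  · exact absurd h3 h1
  · rw [h2, h4]

/-- harmless docks of one vertex -/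
lemma Hd.inj {v v' : D} (h : Hd M W T cl rc v) (h' : Hd M W T cl rc v') (hs : SV M v v') :
    v = v' := by
  have hB : (M.lab v).isB = true := by rw [h.lab]; rfl
  have e4 : M.ν (M.ν (M.ν (M.ν v))) = v := M.n4 v hB
  rcases hs.cases4 hB with e | e | e | e
  · exact e.symm
  · have := h'.lab
    rw [e, lab_ν, h.lab] at this
    exact absurd this (by decide)
  · exfalso
    subst e
    rcases h.k with ⟨k1, k2, k3, k4, k5, -⟩ | ⟨k1, k2, k3, k4, -⟩
    · rcases h'.k with ⟨l1, l2, l3, l4, l5, -⟩ | ⟨l1, l2, l3, l4, -⟩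
      · exact k4 l1
      · exact l2.2 k5.2
    · rcases h'.k with ⟨l1, l2, l3, l4, l5, -⟩ | ⟨l1, l2, l3, l4, -⟩
      · exact k3.2 l2
      · exact l1 k3.1
  · have := h'.lab
    rw [e, lab_ν, lab_ν, lab_ν, h.lab] at this
    exact absurd this (by decide)

/-- a full dock and a harmless one have different vertices -/
lemma Nd.ne_hd {v v' : D} (h : Nd M W T cl rc v) (h' : Hd M W T cl rc v') : ¬ SV M v v' := by
  intro hs
  have hB : (M.lab v).isB = true := by rw [h.lab]; rfl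
  have e4 : M.ν (M.ν (M.ν (M.ν v))) = v := M.n4 v hB
  have g3 := h.g3
  have g4 := h.g4
  rcases hs.cases4 hB with e | e | e | e
  · subst e
    rcases h'.k with ⟨l1, l2, l3, l4, l5, -⟩ | ⟨l1, l2, l3, l4, -⟩
    · exact l4 g3.1
    · exact l4 g4.1
  · have := h'.lab
    rw [e, lab_ν, h.lab] at this
    exact absurd this (by decide)
  · subst e
    rcases h'.k with ⟨l1, l2, l3, l4, l5, -⟩ | ⟨l1, l2, l3, l4, -⟩
    · exact l3 g4.1
    · exact l1 g3.1
  · have := h'.lab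
    rw [e, lab_ν, lab_ν, lab_ν, h.lab] at this
    exact absurd this (by decide)

/-- **docks can be chosen** -/
theorem exists_dkz [Finite D] (M : BM D) (W : D → Prop) (x0 : D) (T : RT M.E) (cl : D → Prop)
    (rc : D → Rc D) (hWE : ∀ x, W (M.E x) ↔ W x) (hcn : Cn M W) (hI : ∃ col, M.Inv W col)
    (hR : ∃ ru rd : D → ℕ, M.Rank ru rd) (hx0 : W x0) (L : LI M W x0 T cl rc)
    (hLev : M.Lev W T.G cl (Used M T rc)) : Nonempty (Dkz M W T cl rc) := by
  classical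
  obtain ⟨col, hI⟩ := hI
  obtain ⟨ru, rd, hR⟩ := hR
  -- the kinds of corners
  let qH : D → Prop := fun c => ∃ v, Hd M W T cl rc v ∧ hxc M T v c
  let qN : D → Prop := fun c => ∃ v, Nd M W T cl rc v ∧ bxc M T v c
  let qP : D → Prop := fun c => ∃ y, Gd M T rc y ∧ c = bxl M (rc y)
  -- the choice depends on the component only
  let Q : (D → Prop) → D → Prop := fun C c => C c ∧ (qH c ∨ ((∀ c', C c' → ¬ qH c') ∧
    (qN c ∨ ((∀ c', C c' → ¬ qN c') ∧ qP c))))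
  have hdk : ∀ x, W x → ¬ T.G x → ∃ c, Q (Cmp M W T.G x) c := by
    intro x hx hn
    by_cases hH : ∃ c, Cmp M W T.G x c ∧ qH c
    · obtain ⟨c, h1, h2⟩ := hH
      exact ⟨c, h1, Or.inl h2⟩
    · have hH' : ∀ c', Cmp M W T.G x c' → ¬ qH c' := fun c' h1 h2 => hH ⟨c', h1, h2⟩
      by_cases hN : ∃ c, Cmp M W T.G x c ∧ qN c
      · obtain ⟨c, h1, h2⟩ := hN
        exact ⟨c, h1, Or.inr ⟨hH', Or.inl h2⟩⟩
      · have hN' : ∀ c', Cmp M W T.G x c' → ¬ qN c' := fun c' h1 h2 => hN ⟨c', h1, h2⟩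
        obtain ⟨c, h1, h2 | h2 | h2⟩ := dock_at hWE hcn hI hR hx0 L hLev hx hn
        · exact absurd h2 (hH' c h1)
        · exact absurd h2 (hN' c h1)
        · exact ⟨c, h1, Or.inr ⟨hH', Or.inr ⟨hN', h2⟩⟩⟩
  let cs : (D → Prop) → D := fun C => if h : ∃ c, Q C c then h.choose else x0
  have hcs : ∀ x, W x → ¬ T.G x → Q (Cmp M W T.G x) (cs (Cmp M W T.G x)) := by
    intro x hx hn
    have h : ∃ c, Q (Cmp M W T.G x) c := hdk x hx hn
    show Q _ (if h : ∃ c, Q (Cmp M W T.G x) c then h.choose else x0)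
    rw [dif_pos h]
    exact h.choose_spec
  let H : D → Prop := fun v => Hd M W T cl rc v ∧ ∃ x, W x ∧ ¬ T.G x ∧
    hxc M T v (cs (Cmp M W T.G x))
  let N : D → Prop := fun v => Nd M W T cl rc v ∧ ∃ x, W x ∧ ¬ T.G x ∧
    ¬ qH (cs (Cmp M W T.G x)) ∧ bxc M T v (cs (Cmp M W T.G x))
  let P : D → Prop := fun y => Gd M T rc y ∧ ∃ x, W x ∧ ¬ T.G x ∧
    ¬ qH (cs (Cmp M W T.G x)) ∧ ¬ qN (cs (Cmp M W T.G x)) ∧ cs (Cmp M W T.G x) = bxl M (rc y)
  have rcE : ∀ x, rc (M.E x) = rc x := L.rE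
  have hPE : ∀ y, P (M.E y) ↔ P y := by
    intro y
    have h1 : ∀ y, Gd M T rc (M.E y) ↔ Gd M T rc y := by
      intro y
      constructor
      · intro h
        refine ⟨(T.G_E y).1 h.G, by rw [← T.dep_E]; exact h.d, ?_, ?_, ?_⟩
        · rw [← rcE]; exact h.m
        · rw [← rcE]; exact h.B
        · rw [← rcE]; exact h.n
      · intro h
        refine ⟨(T.G_E y).2 h.G, by rw [T.dep_E]; exact h.d, ?_, ?_, ?_⟩
        · rw [rcE]; exact h.m
        · rw [rcE]; exact h.B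
        · rw [rcE]; exact h.n
    show (Gd M T rc (M.E y) ∧ _) ↔ (Gd M T rc y ∧ _)
    rw [h1, rcE]
  -- every selected corner is the chosen one of its component
  have hsel : ∀ c, Sel M T rc H N P c → ∃ x, W x ∧ ¬ T.G x ∧ c = cs (Cmp M W T.G x) := by
    rintro c (⟨v, ⟨h1, x, hx, hn, h2⟩, h3⟩ | ⟨v, ⟨h1, x, hx, hn, -, h2⟩, h3⟩ |
      ⟨y, ⟨g1, x, hx, hn, -, -, h6⟩, h4⟩)
    · exact ⟨x, hx, hn, hxc_un h3 h2⟩
    · exact ⟨x, hx, hn, bxc_un h3 h2⟩
    · exact ⟨x, hx, hn, by rw [h4, h6]⟩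
  refine ⟨⟨H, N, P, hPE, fun v h => h.1, fun v h => h.1, fun v h => h.1, ?_, ?_, ?_, ?_⟩⟩
  · intro x hx hn
    have hq := hcs x hx hn
    refine ⟨cs (Cmp M W T.G x), ?_, hq.1⟩
    by_cases hi : qH (cs (Cmp M W T.G x))
    · left
      obtain ⟨v, h1, h2⟩ := hi
      exact ⟨v, ⟨h1, x, hx, hn, h2⟩, h2⟩
    · right
      rcases hq.2 with h1 | ⟨-, h1⟩
      · exact absurd h1 hi
      · by_cases hj : qN (cs (Cmp M W T.G x))
        · left
          obtain ⟨v, h3, h4⟩ := hj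
          exact ⟨v, ⟨h3, x, hx, hn, hi, h4⟩, h4⟩
        · right
          rcases h1 with h1 | ⟨-, y, h1, h2⟩
          · exact absurd h1 hj
          · exact ⟨y, ⟨h1, x, hx, hn, hi, hj, h2⟩, h2⟩
  · intro c c' h h' hcc
    obtain ⟨x, hx, hn, e⟩ := hsel c h
    obtain ⟨x', hx', hn', e'⟩ := hsel c' h'
    have h1 : Cmp M W T.G c = Cmp M W T.G x := by
      rw [e]; exact (hcs x hx hn).1.eq
    have h2 : Cmp M W T.G c' = Cmp M W T.G x' := by
      rw [e']; exact (hcs x' hx' hn').1.eq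
    have h3 : Cmp M W T.G c' = Cmp M W T.G c := hcc.eq
    rw [e, e', ← h1, ← h2, h3]
  · rintro c v v' ⟨h1, x, hx, hn, h2, h3⟩ h4 h5 c' h6 h7
    have e := bxc_un h4 h3
    subst e
    have hq := hcs x hx hn
    rcases hq.2 with h8 | ⟨h8, -⟩
    · exact h2 h8
    · exact h8 c' (hq.1.trans h7) ⟨v', h5, h6⟩
  · rintro y ⟨h1, x, hx, hn, h2, h3, h4⟩
    rw [← h4]
    have hq := hcs x hx hn
    rcases hq.2 with h8 | ⟨h8, h9 | ⟨h9, -⟩⟩
    · exact absurd h8 h2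
    · exact absurd h9 h3
    · exact ⟨fun v c' h5 h6 h7 => h8 c' (hq.1.trans h7) ⟨v, h5, h6⟩,
        fun v c' h5 h6 h7 => h9 c' (hq.1.trans h7) ⟨v, h5, h6⟩⟩

end Pool.Agent.MP42.GZ
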