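import Pool.Agent.MP42.PD.Sol1
import Pool.Agent.MP42.PD.Out9
import Pool.Agent.MP42.GZ.AsmF

/-!
# The two statements about contours, and the layout theorem (owner helper30)
-/

set_option autoImplicit false

namespace Pool.Agent.MP42.GZ

open Pool.Agent.MP42.U Pool.Agent.MP42.EO

/-- **closed levels** -/
theorem absC : AbsC := by
  intro C J α _ _ _ _ Ct cls real S
  have := Fintype.ofFinite C
  have := Fintype.ofFinite J
  obtain ⟨x, h1, h2⟩ := PD.conn_closed Ct cls S
  exact ⟨S.port x, fun j => S.port_eq x j,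
    PD.sound_closed (PD.lvC Ct cls S) (by norm_num) (by norm_num) (fun _ => Iff.rfl) h1 h2 real⟩

/-- **top levels** -/
theorem absR : AbsR := by
  intro C J α _ _ _ _ Ct cls real S g hg hp hc h1 h2
  have := Fintype.ofFinite C
  have := Fintype.ofFinite J
  obtain ⟨x, h3, h4⟩ := PD.conn_top Ct cls S g hg hp hc h1 h2
  exact ⟨S.port x, fun j => S.port_eq x j,
    PD.sound_top (PD.lvT Ct cls S g hg hp hc h1 h2) (by norm_num) (by norm_num) g hg
      (fun _ => Iff.rfl) (PD.lvT_cp Ct cls S g hg hp hc h1 h2).1 h3 h4 real⟩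

/-- **the layout theorem** -/
theorem layoutThm : LayoutThm 636 := layoutThm_abs absC absR

end Pool.Agent.MP42.GZ
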