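import Pool.Agent.MP42.GZ.Slots
import Pool.Agent.MP42.GZ.Rot
import Pool.Agent.MP42.PL.Level2
import Pool.Agent.MP42.PL.Items

/-!
# The words of the circles of one level (owner helper30)

`corner`: the word at a corner = [child before the corner] ++ [own tokens] ++ [letter or diagonal] ++
[own tokens] ++ [child behind the corner].  `circle_word`: the word of a circle is a rotation of
own tokens ++ words of the items in contour order ++ own tokens.
-/

set_option autoImplicit false
set_option linter.unusedSectionVars false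

namespace Pool.Agent.MP42.GZ

open Pool.Agent.MP42 Pool.Agent.MP42.U Pool.Agent.MP42.PL Pool.Agent.MP42.O3 Pool.Agent.MP42.O3.BM

variable {D : Type*} {M : BM D}

/-- links over gates -/
def gk (M : BM D) (r : Rc D) : Prop :=
  r.kd = .g ∨ (r.kd = .real ∧ (M.lab r.hc).isB = true)

/-- main links -/
def mk' (M : BM D) (r : Rc D) : Prop := ¬ gk M r ∧ r.kd ≠ .root

/-- the labels of the corners of links at a bad tripod -/
lemma lab_of {cl : D → Prop} {T : RT M.E} {r : Rc D} {y : D} (hr : RecOK M cl T r y)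
    (hroot : r.kd ≠ .root) (hB : (M.lab r.hc).isB = true) :
    (r.pl = .aft → M.lab r.hc = .B2 ∧ M.lab r.cc = .B3) ∧
    (r.pl = .bef → M.lab r.hc = .B3 ∧ M.lab r.cc = .B2) ∧
    (r.pl = .dia → M.lab r.cc = M.lab r.hc ∧ ¬ gk M r) := by
  have hk := hr.k
  have hp := hr.p
  unfold KdOK KdP at hk
  unfold PlOK at hp
  have hccB : (M.lab r.cc).isB = true := by rw [hr.p.sv.isB]; exact hB
  have n2 : Lab.B2.nx = .B3 := rfl
  have n3 : Lab.B3.nx = .B2 := rfl
  refine ⟨fun h => ?_, fun h => ?_, fun h => ?_⟩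
  · rw [h] at hp
    have key : M.lab r.hc = .B2 → M.lab r.hc = .B2 ∧ M.lab r.cc = .B3 := fun h1 =>
      ⟨h1, by rw [hp.1, lab_ν, h1, n2]⟩
    rcases hkd : r.kd with _ | _ | _ | _ | _ | _ | _ | _ | _ | _ <;> rw [hkd] at hk
    · rcases hk with hk | hk
      · rcases hk.2.2.2.2 with h1 | h1
        · rw [hccB] at h1; exact absurd h1.1 (by decide)
        · have h2 : M.lab r.hc = .B2 := by
            rw [hp.1, lab_ν] at h1
            cases h3 : M.lab r.hc <;> rw [h3] at h1 <;> first | rfl | exact absurd h1 (by decide)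
          exact key h2
      · rw [h] at hk; exact absurd hk.1 (by decide)
    · rw [hk.2.2.2.1] at hB; exact absurd hB (by decide)
    · rw [h] at hk; exact absurd hk.1 (by decide)
    · rw [h] at hk; exact absurd hk.1 (by decide)
    · rw [hk.2.1] at hB; exact absurd hB (by decide)
    · rw [h] at hk; exact absurd hk.1 (by decide)
    · rw [h] at hk; exact absurd hk.1 (by decide)
    · rw [h] at hk; exact absurd hk.1 (by decide)
    · exact key hk.2.1
    · rcases hk with hk | hk
      · exact key hk.2.1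
      · rw [h] at hk; exact absurd hk.1 (by decide)
    · exact absurd hkd hroot
  · rw [h] at hp
    have key : M.lab r.cc = .B2 → M.lab r.hc = .B3 ∧ M.lab r.cc = .B2 := fun h1 =>
      ⟨by rw [hp.1, lab_ν, h1, n2], h1⟩
    have key' : M.lab r.hc = .B3 → M.lab r.hc = .B3 ∧ M.lab r.cc = .B2 := fun h1 => by
      refine key ?_
      rw [hp.1, lab_ν] at h1
      cases h3 : M.lab r.cc <;> rw [h3] at h1 <;> first | rfl | exact absurd h1 (by decide)
    rcases hkd : r.kd with _ | _ | _ | _ | _ | _ | _ | _ | _ | _ <;> rw [hkd] at hk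
    · rcases hk with hk | hk
      · rw [h] at hk; exact absurd hk.1 (by decide)
      · rcases hk.2.2.2.2 with h1 | h1
        · rw [hB] at h1; exact absurd h1.1 (by decide)
        · exact key' h1
    · rw [h] at hk; exact absurd hk.1 (by decide)
    · rw [hk.2.2.2.1] at hB; exact absurd hB (by decide)
    · rw [hk.2.1] at hccB; exact absurd hccB (by decide)
    · rw [h] at hk; exact absurd hk.1 (by decide)
    · rw [h] at hk; exact absurd hk.1 (by decide)
    · rw [h] at hk; exact absurd hk.1 (by decide)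
    · exact key' hk.2.1
    · rw [h] at hk; exact absurd hk.1 (by decide)
    · rcases hk with hk | hk
      · rw [h] at hk; exact absurd hk.1 (by decide)
      · exact key hk.2.1
    · rw [h] at hk; exact absurd hk.1 (by decide)
  · rw [h] at hp
    refine ⟨?_, ?_⟩
    · rw [hp.1, lab_ν, lab_ν]
      cases h3 : M.lab r.hc <;> rw [h3] at hB <;> first | rfl | exact absurd hB (by decide)
    · rintro (h1 | ⟨h1, -⟩)
      · rw [h1] at hk
        rcases hk with hk | hk <;> (rw [h] at hk; exact absurd hk.1 (by decide))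
      · rw [h1] at hk
        rcases hk with hk | hk <;> (rw [h] at hk; exact absurd hk.1 (by decide))

/-- diagonals are at bad tripods -/
lemma dia_B {cl : D → Prop} {T : RT M.E} {r : Rc D} {y : D} (hr : RecOK M cl T r y)
    (h : r.pl = .dia) : (M.lab r.hc).isB = true ∧ r.kd ≠ .root := by
  refine ⟨dia_isB hr.k h, fun h1 => ?_⟩
  have hk := hr.k
  unfold KdOK KdP at hk
  rw [h1] at hk
  rw [h] at hk
  exact absurd hk.1 (by decide)

lemma root_aft {cl : D → Prop} {T : RT M.E} {r : Rc D} {y : D} (hr : RecOK M cl T r y)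
    (h : r.kd = .root) : r.pl = .aft := by
  have hk := hr.k
  unfold KdOK KdP at hk
  rw [h] at hk
  exact hk.1

lemma gk_ne {r : Rc D} (h : gk M r) : r.kd ≠ .root := by
  rcases h with h | h
  · rw [h]; decide
  · rw [h.1]; decide

lemma g_B {cl : D → Prop} {T : RT M.E} {r : Rc D} {y : D} (hr : RecOK M cl T r y)
    (h : gk M r) : (M.lab r.hc).isB = true := by
  rcases h with h | h
  · have hk := hr.k
    have hs := hr.p.sv
    unfold KdOK KdP at hk
    rw [h] at hk
    rcases hk with hk | hk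
    · rw [hk.2.1]; rfl
    · rw [← hs.isB, hk.2.1]; rfl
  · exact h.2

/-! ## Slots -/

/-- the own tokens at the corner `x`; `b`: the circle is behind the corner -/
def OwnS (T : RT M.E) (rc : D → Rc D) (b : Bool) (x : D) : Prop :=
  T.dep x ≠ 0 ∧ (rc x).cc = x ∧ ((rc x).pl = .bef ↔ b = true)

/-- the circle of `y` hangs at the corner `x` with the place `p` -/
def HostS (T : RT M.E) (rc : D → Rc D) (p : Pl) (x y : D) : Prop :=
  T.G y ∧ T.dep y ≠ 0 ∧ (rc y).hc = x ∧ (rc y).pl = p

/-- the words at the corners of a level: `mw` = main words, `lw` = letters, `gw` = words at the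
gates, `ow` = own tokens of the box, `ex` = lanes of the root link; `hw`, `cw'` = words of the link
of a circle at the host and at the circle.  At a corner the letter stands behind the child before
the corner and before the child behind the corner. -/
structure LW (M : BM D) (T : RT M.E) (cl : D → Prop) (rc : D → Rc D) (mw lw gw ow ex : D → Wd)
    (hw cw' : D → Wd) : Prop where
  ok : ∀ y, T.G y → T.dep y ≠ 0 → RecOK M cl T (rc y) y
  rE : ∀ x, rc (M.E x) = rc x
  uniq : ∀ y y', T.G y → T.dep y ≠ 0 → mk' M (rc y) → T.G y' → T.dep y' ≠ 0 → mk' M (rc y') →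
    SV M (rc y).hc (rc y').hc → M.E.SameCycle y y'
  hwE : ∀ x, hw (M.E x) = hw x
  cwE : ∀ x, cw' (M.E x) = cw' x
  hm : ∀ y, T.G y → T.dep y ≠ 0 → mk' M (rc y) →
    mw (rc y).hc = (if (rc y).pl = .bef then hw y ++ lw (rc y).hc else lw (rc y).hc ++ hw y) ∧
    mw (rc y).cc = (if (rc y).pl = .bef then lw (rc y).cc ++ cw' y else cw' y ++ lw (rc y).cc)
  hd : ∀ y, T.G y → T.dep y ≠ 0 → (rc y).pl = .dia → lw (rc y).hc = []
  hg : ∀ y, T.G y → T.dep y ≠ 0 → gk M (rc y) → gw (rc y).hc = hw y ∧ gw (rc y).cc = cw' y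
  hx : ∀ y, T.G y → T.dep y ≠ 0 → (rc y).kd = .root → ex (rc y).hc = hw y ∧
    (ex (rc y).hc).reverse = cw' y
  mz : ∀ x, T.G x → (∀ y, T.G y → T.dep y ≠ 0 → mk' M (rc y) → x ≠ (rc y).hc ∧
    x ≠ (rc y).cc) → mw x = lw x
  gz : ∀ x, T.G x → (∀ y, T.G y → T.dep y ≠ 0 → gk M (rc y) → x ≠ (rc y).hc ∧
    x ≠ (rc y).cc) → gw x = []
  xz : ∀ x, (∀ y, T.G y → T.dep y ≠ 0 → (rc y).kd = .root → x ≠ (rc y).hc) → ex x = []
  owz : ∀ x, T.G x → x ≠ T.rt → ow x = []
  owm : ow T.rt ≠ [] → mw T.rt = []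

/-- the abstract form of `corner` -/
lemma slots {B2 B3 a ka d kd c o1 o2 ko z : Prop} [Decidable B3] [Decidable a] [Decidable d]
    [Decidable c] [Decidable o1] [Decidable o2] [Decidable z] [Decidable ka]
    [Decidable kd] [Decidable ko] {wa wd wc wo wm wl wg wow : Wd}
    (hmw : wm = if a ∧ ¬ ka then wa ++ wl else if d ∧ ¬ kd then wl ++ wd else
      if c then wc else if o1 ∧ ¬ ko then wo ++ wl else if o2 ∧ ¬ ko then wl ++ wo else wl)
    (hgw : wg = if a ∧ ka then wa else if d ∧ kd then wd else if (o1 ∨ o2) ∧ ko then wo else [])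
    (how : wow = [] ∨ (z ∧ wm = [])) (oz : o1 ∨ o2 → ¬ z) (hcl : c → wl = [])
    (fa : a → ¬ B2) (fd : d → ¬ B3) (f2 : o2 → ¬ B3)
    (ga : a → ka → B3) (gd : d → kd → B2) (g1 : o1 → ko → B3) (g2 : o2 → ko → B2)
    (e12 : ¬ (o1 ∧ o2)) (ed2 : o2 → ¬ d) (ea1 : o1 → a → ¬ ko)
    (x1 : a → ¬ ka → d → ¬ kd → False) (x2 : a → ¬ ka → c → False) (x3 : d → ¬ kd → c → False)
    (x4 : a → ¬ ka → (o1 ∨ o2) → ¬ ko → False) (x5 : d → ¬ kd → (o1 ∨ o2) → ¬ ko → False)
    (x6 : c → (o1 ∨ o2) → ¬ ko → False) :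
    (if B3 then wg ++ (wow ++ wm) else (wm ++ wow) ++ wg) =
      (if a then wa else []) ++ ((if o1 then wo else if z then wow else []) ++
        ((wl ++ (if c then wc else [])) ++ ((if o2 then wo else []) ++
          (if d then wd else [])))) := by
  by_cases hB : B3
  · have hd : ¬ d := fun h => fd h hB
    have h2 : ¬ o2 := fun h => f2 h hB
    by_cases ha : a
    · by_cases hka : ka
      · by_cases h1 : o1
        · have hko := ea1 h1 ha
          have hc : ¬ c := fun h => x6 h (Or.inl h1) hko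
          have hw := how.resolve_right fun h => oz (Or.inl h1) h.1
          simp_all
        · by_cases hc : c
          · rcases how with h | ⟨h, h'⟩ <;> simp_all
          · rcases how with h | ⟨h, h'⟩ <;> simp_all
      · have h1 : ¬ o1 := fun h => x4 ha hka (Or.inl h) (ea1 h ha)
        have hc : ¬ c := x2 ha hka
        rcases how with h | ⟨h, h'⟩ <;> simp_all
    · by_cases h1 : o1
      · have hw := how.resolve_right fun h => oz (Or.inl h1) h.1
        by_cases hko : ko
        · by_cases hc : c <;> simp_all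
        · have hc : ¬ c := fun h => x6 h (Or.inl h1) hko
          simp_all
      · by_cases hc : c
        · rcases how with h | ⟨h, h'⟩ <;> simp_all
        · rcases how with h | ⟨h, h'⟩ <;> simp_all
  · rw [if_neg hB]
    have hka : a → ¬ ka := fun h h' => hB (ga h h')
    have hko1 : o1 → ¬ ko := fun h h' => hB (g1 h h')
    by_cases ha : a
    · have hka' := hka ha
      have h1 : ¬ o1 := fun h => x4 ha hka' (Or.inl h) (hko1 h)
      have hc : ¬ c := x2 ha hka'
      have hnB : ¬ B2 := fa ha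
      have hd : ¬ d := fun h => by
        by_cases h' : kd
        · exact hnB (gd h h')
        · exact x1 ha hka' h h'
      have h2 : ¬ o2 := fun h => by
        by_cases h' : ko
        · exact hnB (g2 h h')
        · exact x4 ha hka' (Or.inr h) h'
      rcases how with h | ⟨h, h'⟩ <;> simp_all
    · by_cases h1 : o1
      · have hko := hko1 h1
        have h2 : ¬ o2 := fun h => e12 ⟨h1, h⟩
        have hc : ¬ c := fun h => x6 h (Or.inl h1) hko
        have hw := how.resolve_right fun h => oz (Or.inl h1) h.1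
        by_cases hd : d
        · have hkd : kd := by by_contra h'; exact x5 hd h' (Or.inl h1) hko
          simp_all
        · simp_all
      · by_cases h2 : o2
        · have hw := how.resolve_right fun h => oz (Or.inr h2) h.1
          have hz := oz (Or.inr h2)
          have hd : ¬ d := ed2 h2
          by_cases hko : ko
          · by_cases hc : c <;> simp_all
          · have hc : ¬ c := fun h => x6 h (Or.inr h2) hko
            simp_all
        · by_cases hd : d
          · by_cases hkd : kd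
            · by_cases hc : c
              · rcases how with h | ⟨h, h'⟩ <;> simp_all
              · rcases how with h | ⟨h, h'⟩ <;> simp_all
            · have hc : ¬ c := x3 hd hkd
              rcases how with h | ⟨h, h'⟩ <;> simp_all
          · by_cases hc : c
            · rcases how with h | ⟨h, h'⟩ <;> simp_all
            · rcases how with h | ⟨h, h'⟩ <;> simp_all


section Corner

variable {T : RT M.E} {cl : D → Prop} {rc : D → Rc D} {mw lw gw ow ex : D → Wd}
  {hw cw' : D → Wd}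

open Classical in
/-- the child before the corner -/
noncomputable def sA (T : RT M.E) (rc : D → Rc D) (hw : D → Wd) (x : D) : Wd :=
  if HostS T rc .bef x (M.μ x) then hw (M.μ x) else []

open Classical in
/-- the child behind the corner -/
noncomputable def sD (T : RT M.E) (rc : D → Rc D) (hw : D → Wd) (x : D) : Wd :=
  if HostS T rc .aft x (M.ν x) then hw (M.ν x) else []

open Classical in
/-- the child on the diagonal -/
noncomputable def sC (T : RT M.E) (rc : D → Rc D) (hw : D → Wd) (x : D) : Wd :=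
  if HostS T rc .dia x (M.ν (M.ν x)) then hw (M.ν (M.ν x)) else []

/-- the letter -/
def sL (lw : D → Wd) (x : D) : Wd := lw x

open Classical in
/-- own tokens at the beginning -/
noncomputable def s1 (T : RT M.E) (rc : D → Rc D) (ow cw' : D → Wd) (x : D) : Wd :=
  if OwnS T rc false x then cw' x else if T.dep x = 0 then ow x else []

open Classical in
/-- own tokens at the end -/
noncomputable def s2 (T : RT M.E) (rc : D → Rc D) (cw' : D → Wd) (x : D) : Wd :=
  if OwnS T rc true x then cw' x else []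

variable [Finite D]

lemma LW.rc_cyc (H : LW M T cl rc mw lw gw ow ex hw cw') {x y : D} (h : M.E.SameCycle x y) :
    rc y = rc x := cyc_const H.rE h

/-- the record of a circle at its corner -/
lemma HostS.aft' (H : LW M T cl rc mw lw gw ow ex hw cw') {x y : D} (h : HostS T rc .aft x y) :
    (rc y).cc = M.ν x ∧ M.E.SameCycle y (M.ν x) := by
  have hp := (H.ok y h.1 h.2.1).p
  have h1 := hp.child h.1
  unfold PlOK at hp
  rw [h.2.2.2] at hp
  have e : (rc y).cc = M.ν x := by rw [hp.1, h.2.2.1]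
  rw [e] at h1
  exact ⟨e, h1⟩

lemma HostS.bef' (H : LW M T cl rc mw lw gw ow ex hw cw') {x y : D} (h : HostS T rc .bef x y) :
    (rc y).cc = M.μ x ∧ M.E.SameCycle y (M.μ x) := by
  have hp := (H.ok y h.1 h.2.1).p
  have h1 := hp.child h.1
  unfold PlOK at hp
  rw [h.2.2.2] at hp
  have e : (rc y).cc = M.μ x := by rw [← h.2.2.1, hp.1, μ_ν]
  rw [e] at h1
  exact ⟨e, h1⟩

lemma HostS.dia' (H : LW M T cl rc mw lw gw ow ex hw cw') {x y : D} (h : HostS T rc .dia x y) :
    (rc y).cc = M.ν (M.ν x) ∧ M.E.SameCycle y (M.ν (M.ν x)) := by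
  have hp := (H.ok y h.1 h.2.1).p
  have h1 := hp.child h.1
  unfold PlOK at hp
  rw [h.2.2.2] at hp
  have e : (rc y).cc = M.ν (M.ν x) := by rw [hp.1, h.2.2.1]
  rw [e] at h1
  exact ⟨e, h1⟩

lemma HostS.cyc (H : LW M T cl rc mw lw gw ow ex hw cw') {p : Pl} {x y z : D}
    (h : HostS T rc p x y) (hs : M.E.SameCycle y z) : HostS T rc p x z := by
  refine ⟨(RT.G_cyc hs).2 h.1, ?_, ?_, ?_⟩
  · rw [RT.dep_cong hs]; exact h.2.1
  · rw [H.rc_cyc hs]; exact h.2.2.1
  · rw [H.rc_cyc hs]; exact h.2.2.2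

/-- a host corner has one of the three forms -/
lemma host_cases (H : LW M T cl rc mw lw gw ow ex hw cw') {y : D} (hy : T.G y)
    (hd : T.dep y ≠ 0) :
    HostS T rc .bef (rc y).hc (M.μ (rc y).hc) ∧ M.E.SameCycle y (M.μ (rc y).hc) ∨
    HostS T rc .aft (rc y).hc (M.ν (rc y).hc) ∧ M.E.SameCycle y (M.ν (rc y).hc) ∨
    HostS T rc .dia (rc y).hc (M.ν (M.ν (rc y).hc)) ∧
      M.E.SameCycle y (M.ν (M.ν (rc y).hc)) := by
  rcases hp : (rc y).pl with _ | _ | _
  · have h : HostS T rc .aft (rc y).hc y := ⟨hy, hd, rfl, hp⟩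
    exact Or.inr (Or.inl ⟨h.cyc H (h.aft' H).2, (h.aft' H).2⟩)
  · have h : HostS T rc .bef (rc y).hc y := ⟨hy, hd, rfl, hp⟩
    exact Or.inl ⟨h.cyc H (h.bef' H).2, (h.bef' H).2⟩
  · have h : HostS T rc .dia (rc y).hc y := ⟨hy, hd, rfl, hp⟩
    exact Or.inr (Or.inr ⟨h.cyc H (h.dia' H).2, (h.dia' H).2⟩)

lemma own_of (H : LW M T cl rc mw lw gw ow ex hw cw') {y : D} (hy : T.G y) (hd : T.dep y ≠ 0) :
    OwnS T rc false (rc y).cc ∨ OwnS T rc true (rc y).cc := by
  have h1 := (H.ok y hy hd).p.child hy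
  have e := H.rc_cyc h1
  unfold OwnS
  rw [RT.dep_cong h1, e]
  by_cases h : (rc y).pl = .bef
  · exact Or.inr ⟨hd, rfl, by simp [h]⟩
  · exact Or.inl ⟨hd, rfl, by simp [h]⟩

lemma bef_ne {x y : D} (H : LW M T cl rc mw lw gw ow ex hw cw') (h : HostS T rc .bef x y) :
    (rc y).kd ≠ .root := fun h1 => by
  have := root_aft (H.ok _ h.1 h.2.1) h1
  rw [h.2.2.2] at this
  exact absurd this (by decide)

lemma dia_ne {x y : D} (H : LW M T cl rc mw lw gw ow ex hw cw') (h : HostS T rc .dia x y) :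
    mk' M (rc y) := by
  have h1 := dia_B (H.ok _ h.1 h.2.1) h.2.2.2
  exact ⟨((lab_of (H.ok _ h.1 h.2.1) h1.2 h1.1).2.2 h.2.2.2).2, h1.2⟩

/-- the own link of the circle of `x` -/
abbrev Ow (M : BM D) (T : RT M.E) (rc : D → Rc D) (b : Bool) (x : D) : Prop :=
  OwnS T rc b x ∧ (rc x).kd ≠ .root

lemma LW.hm1 (H : LW M T cl rc mw lw gw ow ex hw cw') {x y : D} (h : HostS T rc .bef x y)
    (hg : mk' M (rc y)) : mw x = hw y ++ lw x := by
  have := (H.hm _ h.1 h.2.1 hg).1
  rwa [h.2.2.2, if_pos rfl, h.2.2.1] at this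

lemma LW.hm2 (H : LW M T cl rc mw lw gw ow ex hw cw') {x y : D} (h : HostS T rc .aft x y)
    (hg : mk' M (rc y)) : mw x = lw x ++ hw y := by
  have := (H.hm _ h.1 h.2.1 hg).1
  rwa [h.2.2.2, if_neg (by decide), h.2.2.1] at this

lemma LW.hm3 (H : LW M T cl rc mw lw gw ow ex hw cw') {x y : D} (h : HostS T rc .dia x y)
    (hg : mk' M (rc y)) : mw x = hw y := by
  have := (H.hm _ h.1 h.2.1 hg).1
  rw [h.2.2.2, if_neg (by decide), H.hd y h.1 h.2.1 h.2.2.2, h.2.2.1] at this
  exact this

lemma LW.hm4 (H : LW M T cl rc mw lw gw ow ex hw cw') {x : D} (hx : T.G x)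
    (h : OwnS T rc false x) (hg : mk' M (rc x)) : mw x = cw' x ++ lw x := by
  have := (H.hm x hx h.1 hg).2
  rwa [if_neg fun h' => absurd (h.2.2.1 h') (by decide), h.2.1] at this

lemma LW.hm5 (H : LW M T cl rc mw lw gw ow ex hw cw') {x : D} (hx : T.G x)
    (h : OwnS T rc true x) (hg : mk' M (rc x)) : mw x = lw x ++ cw' x := by
  have := (H.hm x hx h.1 hg).2
  rwa [if_pos (h.2.2.2 rfl), h.2.1] at this

open Classical in
/-- the main word at a corner -/
lemma mw_eq (H : LW M T cl rc mw lw gw ow ex hw cw') {x : D} (hx : T.G x) :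
    mw x =
      if HostS T rc .bef x (M.μ x) ∧ ¬ gk M (rc (M.μ x)) then hw (M.μ x) ++ lw x else
      if (HostS T rc .aft x (M.ν x) ∧ (rc (M.ν x)).kd ≠ .root) ∧ ¬ gk M (rc (M.ν x)) then
        lw x ++ hw (M.ν x) else
      if HostS T rc .dia x (M.ν (M.ν x)) then hw (M.ν (M.ν x)) else
      if Ow M T rc false x ∧ ¬ gk M (rc x) then cw' x ++ lw x else
      if Ow M T rc true x ∧ ¬ gk M (rc x) then lw x ++ cw' x else lw x := by
  split_ifs with h2 h3 h4 h5 h5'
  · exact H.hm1 h2.1 ⟨h2.2, bef_ne H h2.1⟩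
  · exact H.hm2 h3.1.1 ⟨h3.2, h3.1.2⟩
  · exact H.hm3 h4 (dia_ne H h4)
  · exact H.hm4 hx h5.1.1 ⟨h5.2, h5.1.2⟩
  · exact H.hm5 hx h5'.1.1 ⟨h5'.2, h5'.1.2⟩
  · refine H.mz x hx fun y hy hd hg => ⟨fun e => ?_, fun e => ?_⟩
    · rcases host_cases H hy hd with ⟨h, hs⟩ | ⟨h, hs⟩ | ⟨h, hs⟩
      · rw [← e] at h hs
        exact h2 ⟨h, by rw [H.rc_cyc hs]; exact hg.1⟩
      · rw [← e] at h hs
        exact h3 ⟨⟨h, by rw [H.rc_cyc hs]; exact hg.2⟩, by rw [H.rc_cyc hs]; exact hg.1⟩
      · rw [← e] at h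
        exact h4 h
    · have h6 := own_of H hy hd
      have h7 := (H.ok y hy hd).p.child hy
      rw [← e] at h6 h7
      have h8 : (rc x).kd ≠ .root := by rw [H.rc_cyc h7]; exact hg.2
      have h9 : ¬ gk M (rc x) := by rw [H.rc_cyc h7]; exact hg.1
      rcases h6 with h6 | h6
      · exact h5 ⟨⟨h6, h8⟩, h9⟩
      · exact h5' ⟨⟨h6, h8⟩, h9⟩

open Classical in
/-- the word at a gate -/
lemma gw_eq (H : LW M T cl rc mw lw gw ow ex hw cw') {x : D} (hx : T.G x) :
    gw x =
      if HostS T rc .bef x (M.μ x) ∧ gk M (rc (M.μ x)) then hw (M.μ x) else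
      if (HostS T rc .aft x (M.ν x) ∧ (rc (M.ν x)).kd ≠ .root) ∧ gk M (rc (M.ν x)) then
        hw (M.ν x) else
      if (Ow M T rc false x ∨ Ow M T rc true x) ∧ gk M (rc x) then cw' x else [] := by
  split_ifs with h2 h3 h5
  · have := (H.hg _ h2.1.1 h2.1.2.1 h2.2).1
    rwa [h2.1.2.2.1] at this
  · have := (H.hg _ h3.1.1.1 h3.1.1.2.1 h3.2).1
    rwa [h3.1.1.2.2.1] at this
  · have hd : T.dep x ≠ 0 := by
      rcases h5.1 with h | h <;> exact h.1.1
    have e : (rc x).cc = x := by
      rcases h5.1 with h | h <;> exact h.1.2.1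
    have := (H.hg x hx hd h5.2).2
    rwa [e] at this
  · refine H.gz x hx fun y hy hd hg => ⟨fun e => ?_, fun e => ?_⟩
    · rcases host_cases H hy hd with ⟨h, hs⟩ | ⟨h, hs⟩ | ⟨h, hs⟩
      · rw [← e] at h hs
        exact h2 ⟨h, by rw [H.rc_cyc hs]; exact hg⟩
      · rw [← e] at h hs
        exact h3 ⟨⟨h, by rw [H.rc_cyc hs]; exact gk_ne hg⟩, by rw [H.rc_cyc hs]; exact hg⟩
      · rw [← e] at h hs
        have hg' := (dia_ne H h).1
        rw [H.rc_cyc hs] at hg'
        exact hg' hg
    · have h6 := own_of H hy hd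
      have h7 := (H.ok y hy hd).p.child hy
      rw [← e] at h6 h7
      have h8 : (rc x).kd ≠ .root := by rw [H.rc_cyc h7]; exact gk_ne hg
      exact h5 ⟨h6.imp (fun h => ⟨h, h8⟩) fun h => ⟨h, h8⟩, by rw [H.rc_cyc h7]; exact hg⟩

/-- two main hosts at one corner -/
lemma host_host (H : LW M T cl rc mw lw gw ow ex hw cw') {p p' : Pl} {x y y' : D}
    (h : HostS T rc p x y) (hg : mk' M (rc y)) (h' : HostS T rc p' x y')
    (hg' : mk' M (rc y')) : p = p' := by
  have h1 := H.uniq y y' h.1 h.2.1 hg h'.1 h'.2.1 hg' (by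
    rw [h.2.2.1, h'.2.2.1]; exact SV.refl _)
  rw [← h.2.2.2, ← h'.2.2.2, H.rc_cyc h1]

lemma own_host (H : LW M T cl rc mw lw gw ow ex hw cw') {p : Pl} {x y : D} (hx : T.G x)
    (hd : T.dep x ≠ 0) (ho : (rc x).cc = x) (hg' : mk' M (rc x))
    (h : HostS T rc p x y) (hg : mk' M (rc y)) : False := by
  have h1 := H.uniq y x h.1 h.2.1 hg hx hd hg' (by
    rw [h.2.2.1]
    have := (H.ok x hx hd).p.sv
    rw [ho] at this
    exact this.symm)
  have h2 := (H.ok y h.1 h.2.1).p.dep h.1 h.2.1
  have h3 := (H.ok y h.1 h.2.1).p.child h.1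
  rw [h.2.2.1, RT.dep_cong h3, RT.dep_cong h1.symm] at h2
  omega

/-- the same edge: the child before the corner and the own link -/
lemma bef_own (H : LW M T cl rc mw lw gw ow ex hw cw') {x : D} (hx : T.G x)
    (hd : T.dep x ≠ 0) (ho : (rc x).cc = x) (hp : (rc x).pl = .aft)
    (h : HostS T rc .bef x (M.μ x)) : False := by
  have hpo := (H.ok x hx hd).p
  have h1 := hpo.dep hx hd
  unfold PlOK at hpo
  rw [hp] at hpo
  have e : (rc x).hc = M.μ x := by
    have := hpo.1
    rw [ho] at this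
    rw [this, μ_ν, ← this]
  have h2 := (H.ok _ h.1 h.2.1).p.dep h.1 h.2.1
  have h3 := (H.ok _ h.1 h.2.1).p.child h.1
  rw [h.2.2.1, RT.dep_cong h3] at h2
  rw [ho, e] at h1
  omega

/-- the same edge: the child behind the corner and the own link -/
lemma aft_own (H : LW M T cl rc mw lw gw ow ex hw cw') {x : D} (hx : T.G x)
    (hd : T.dep x ≠ 0) (ho : (rc x).cc = x) (hp : (rc x).pl = .bef)
    (h : HostS T rc .aft x (M.ν x)) : False := by
  have hpo := (H.ok x hx hd).p
  have h1 := hpo.dep hx hd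
  unfold PlOK at hpo
  rw [hp] at hpo
  have e : (rc x).hc = M.ν x := by
    have := hpo.1
    rwa [ho] at this
  have h2 := (H.ok _ h.1 h.2.1).p.dep h.1 h.2.1
  have h3 := (H.ok _ h.1 h.2.1).p.child h.1
  rw [h.2.2.1, RT.dep_cong h3] at h2
  rw [ho, e] at h1
  omega

lemma isB_cases {l : Lab} (h : l.isB = true) : l = .B2 ∨ l = .B3 := by
  cases l <;> first | exact Or.inl rfl | exact Or.inr rfl | exact absurd h (by decide)

/-- **the word at a corner** -/
theorem corner (H : LW M T cl rc mw lw gw ow ex hw cw') {x : D} (hx : T.G x) :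
    (ex (M.μ x)).reverse ++ (asm M x (mw x) (ow x) (gw x) ++ ex x) =
      sA T rc hw x ++ (s1 T rc ow cw' x ++
        ((sL lw x ++ sC T rc hw x) ++ (s2 T rc cw' x ++ sD T rc hw x))) := by
  classical
  have how : ow x = [] ∨ (T.dep x = 0 ∧ mw x = []) := by
    by_cases h : x = T.rt
    · by_cases h1 : ow x = []
      · exact Or.inl h1
      · right
        rw [h] at h1 ⊢
        exact ⟨T.dep_rt, H.owm h1⟩
    · exact Or.inl (H.owz x hx h)
  have gB : ∀ {p : Pl} {y : D}, HostS T rc p x y → gk M (rc y) → (M.lab x).isB = true := by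
    intro p y h h1
    have := g_B (H.ok _ h.1 h.2.1) h1
    rwa [h.2.2.1] at this
  have goB : T.dep x ≠ 0 → (rc x).cc = x → gk M (rc x) → (M.lab x).isB = true := by
    intro hd ho hg
    have h1 := g_B (H.ok _ hx hd) hg
    have h2 := (H.ok _ hx hd).p.sv.isB
    rw [ho] at h2
    rw [h2]; exact h1
  have fa : HostS T rc .bef x (M.μ x) → ¬ M.lab x = .B2 := by
    intro h h1
    have h2 := (lab_of (H.ok _ h.1 h.2.1) (bef_ne H h) (by rw [h.2.2.1, h1]; rfl)).2.1 h.2.2.2
    rw [h.2.2.1, h1] at h2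
    exact absurd h2.1 (by decide)
  have fd : (HostS T rc .aft x (M.ν x) ∧ (rc (M.ν x)).kd ≠ .root) → ¬ M.lab x = .B3 := by
    intro h h1
    have h2 := (lab_of (H.ok _ h.1.1 h.1.2.1) h.2 (by rw [h.1.2.2.1, h1]; rfl)).1 h.1.2.2.2
    rw [h.1.2.2.1, h1] at h2
    exact absurd h2.1 (by decide)
  have f2 : Ow M T rc true x → ¬ M.lab x = .B3 := by
    intro h h1
    have hp : (rc x).pl = .bef := h.1.2.2.2 rfl
    have hB : (M.lab (rc x).hc).isB = true := by
      have h2 := (H.ok _ hx h.1.1).p.sv.isB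
      rw [h.1.2.1, h1] at h2
      rw [← h2]; rfl
    have h3 := ((lab_of (H.ok _ hx h.1.1) h.2 hB).2.1 hp).2
    rw [h.1.2.1, h1] at h3
    exact absurd h3 (by decide)
  have g1 : Ow M T rc false x → gk M (rc x) → M.lab x = .B3 := by
    intro h h2
    have hB : (M.lab (rc x).hc).isB = true := g_B (H.ok _ hx h.1.1) h2
    have h3 := lab_of (H.ok _ hx h.1.1) h.2 hB
    rcases hp : (rc x).pl with _ | _ | _
    · have h4 := (h3.1 hp).2
      rwa [h.1.2.1] at h4
    · exact absurd (h.1.2.2.1 hp) (by decide)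
    · exact absurd h2 (h3.2.2 hp).2
  have g2 : Ow M T rc true x → gk M (rc x) → M.lab x = .B2 := by
    intro h h2
    have hB : (M.lab (rc x).hc).isB = true := g_B (H.ok _ hx h.1.1) h2
    have h3 := ((lab_of (H.ok _ hx h.1.1) h.2 hB).2.1 (h.1.2.2.2 rfl)).2
    rwa [h.1.2.1] at h3
  have ed2 : Ow M T rc true x → ¬ HostS T rc .aft x (M.ν x) := fun h h' =>
    aft_own H hx h.1.1 h.1.2.1 (h.1.2.2.2 rfl) h'
  have ea1 : OwnS T rc false x → HostS T rc .bef x (M.μ x) → (rc x).pl = .dia := by
    intro h h'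
    rcases hp : (rc x).pl with _ | _ | _
    · exact absurd h' (fun h' => bef_own H hx h.1 h.2.1 hp h')
    · exact absurd (h.2.2.1 hp) (by decide)
    · rfl
  have hmk : ∀ y, ¬ gk M (rc y) → (rc y).kd ≠ .root → mk' M (rc y) := fun y h h' => ⟨h, h'⟩
  have hO : ∀ {p : Pl} {y : D}, HostS T rc p x y → mk' M (rc y) →
      (Ow M T rc false x ∨ Ow M T rc true x) → ¬ gk M (rc x) → False := by
    intro p y h hg ho hk
    rcases ho with ho | ho
    · exact own_host H hx ho.1.1 ho.1.2.1 ⟨hk, ho.2⟩ h hg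
    · exact own_host H hx ho.1.1 ho.1.2.1 ⟨hk, ho.2⟩ h hg
  have hs := slots (B2 := M.lab x = .B2) (B3 := M.lab x = .B3)
    (a := HostS T rc .bef x (M.μ x)) (ka := gk M (rc (M.μ x)))
    (d := HostS T rc .aft x (M.ν x) ∧ (rc (M.ν x)).kd ≠ .root) (kd := gk M (rc (M.ν x)))
    (c := HostS T rc .dia x (M.ν (M.ν x))) (o1 := Ow M T rc false x) (o2 := Ow M T rc true x)
    (ko := gk M (rc x)) (z := T.dep x = 0) (wa := hw (M.μ x)) (wd := hw (M.ν x))
    (wc := hw (M.ν (M.ν x))) (wo := cw' x) (wm := mw x) (wl := lw x) (wg := gw x) (wow := ow x)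
    (mw_eq H hx) (gw_eq H hx) how (by rintro (h | h) <;> exact h.1.1)
    (fun h => by rw [← h.2.2.1]; exact H.hd _ h.1 h.2.1 h.2.2.2) fa fd f2
    (fun h h' => (isB_cases (gB h h')).resolve_left (fa h))
    (fun h h' => (isB_cases (gB h.1 h')).resolve_right (fd h)) g1 g2
    (fun h => absurd (h.1.1.2.2.1 (h.2.1.2.2.2 rfl)) (by decide)) (fun h h' => ed2 h h'.1)
    (fun h h' hg => by
      have h1 := ea1 h.1 h'
      exact ((lab_of (H.ok _ hx h.1.1) h.2 (g_B (H.ok _ hx h.1.1) hg)).2.2 h1).2 hg)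
    (fun h hg h' hg' => absurd (host_host H h ⟨hg, bef_ne H h⟩ h'.1 ⟨hg', h'.2⟩) (by decide))
    (fun h hg h' => absurd (host_host H h ⟨hg, bef_ne H h⟩ h' (dia_ne H h')) (by decide))
    (fun h hg h' => absurd (host_host H h.1 ⟨hg, h.2⟩ h' (dia_ne H h')) (by decide))
    (fun h hg ho hk => hO h ⟨hg, bef_ne H h⟩ ho hk) (fun h hg ho hk => hO h.1 ⟨hg, h.2⟩ ho hk)
    (fun h ho hk => hO h (dia_ne H h) ho hk)
  have hsL : sL lw x = lw x := rfl
  have hasm : asm M x (mw x) (ow x) (gw x) =
      if M.lab x = .B3 then gw x ++ (ow x ++ mw x) else (mw x ++ ow x) ++ gw x := by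
    unfold asm
    split_ifs <;> rfl
  rw [hasm, hs]
  -- the lanes of the root link
  have exx : ex x = if HostS T rc .aft x (M.ν x) ∧ (rc (M.ν x)).kd = .root then hw (M.ν x)
      else [] := by
    split_ifs with h
    · have := (H.hx _ h.1.1 h.1.2.1 h.2).1
      rwa [h.1.2.2.1] at this
    · refine H.xz x fun y hy hd hr e => h ?_
      have hh : HostS T rc .aft x y := ⟨hy, hd, e.symm, root_aft (H.ok y hy hd) hr⟩
      have hc := (hh.aft' H).2
      exact ⟨hh.cyc H hc, by rw [H.rc_cyc hc]; exact hr⟩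
  have exm : (ex (M.μ x)).reverse = if OwnS T rc false x ∧ (rc x).kd = .root then cw' x
      else [] := by
    split_ifs with h
    · have h1 := (H.hx x hx h.1.1 h.2).2
      have hp := (H.ok x hx h.1.1).p
      unfold PlOK at hp
      rw [root_aft (H.ok x hx h.1.1) h.2] at hp
      have e : (rc x).hc = M.μ x := by
        have := hp.1
        rw [h.1.2.1] at this
        rw [this, μ_ν, ← this]
      rwa [e] at h1
    · rw [H.xz (M.μ x) fun y hy hd hr e => h ?_, List.reverse_nil]
      have hh : HostS T rc .aft (M.μ x) y := ⟨hy, hd, e.symm, root_aft (H.ok y hy hd) hr⟩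
      have hc := hh.aft' H
      rw [ν_μ] at hc
      have e1 : rc x = rc y := H.rc_cyc hc.2
      refine ⟨⟨?_, ?_, ?_⟩, ?_⟩
      · rw [RT.dep_cong hc.2]; exact hd
      · rw [e1]; exact hc.1
      · rw [e1, root_aft (H.ok y hy hd) hr]
        exact ⟨fun h => absurd h (by decide), fun h => absurd h (by decide)⟩
      · rw [e1]; exact hr
  rw [exx, exm, hsL]
  unfold sA s1 sC s2 sD
  -- own link of the kind `root`
  by_cases hr : OwnS T rc false x ∧ (rc x).kd = .root
  · have ha : ¬ HostS T rc .bef x (M.μ x) := fun h =>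
      bef_own H hx hr.1.1 hr.1.2.1 (root_aft (H.ok x hx hr.1.1) hr.2) h
    have h2 : ¬ OwnS T rc true x := fun h => absurd (hr.1.2.2.1 (h.2.2.2 rfl)) (by decide)
    have hz : T.dep x ≠ 0 := hr.1.1
    have n1 : ¬ Ow M T rc false x := fun h => h.2 hr.2
    have n2 : ¬ Ow M T rc true x := fun h => h.2 hr.2
    rw [if_pos hr, if_pos hr.1, if_neg ha, if_neg n1, if_neg n2, if_neg h2, if_neg hz]
    by_cases hd : HostS T rc .aft x (M.ν x)
    · by_cases hdr : (rc (M.ν x)).kd = .root <;>
        simp [hd, hdr]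
    · simp [hd]
  · have h1 : Ow M T rc false x ↔ OwnS T rc false x := by
      constructor
      · exact fun h => h.1
      · exact fun h => ⟨h, fun h' => hr ⟨h, h'⟩⟩
    have h2 : Ow M T rc true x ↔ OwnS T rc true x := by
      constructor
      · exact fun h => h.1
      · intro h
        refine ⟨h, fun h' => ?_⟩
        have h3 := root_aft (H.ok x hx h.1) h'
        rw [h.2.2.2 rfl] at h3
        exact absurd h3 (by decide)
    rw [if_neg hr, List.nil_append]
    simp only [h1, h2]
    by_cases hd : HostS T rc .aft x (M.ν x)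
    · by_cases hdr : (rc (M.ν x)).kd = .root
      · simp [hd, hdr, List.append_assoc]
      · simp [hd, hdr, List.append_assoc]
    · simp [hd, List.append_assoc]

end Corner

end Pool.Agent.MP42.GZ

namespace Pool.Agent.MP42.GZ

open Pool.Agent.MP42 Pool.Agent.MP42.U Pool.Agent.MP42.PL Pool.Agent.MP42.O3 Pool.Agent.MP42.O3.BM

variable {D : Type*} {M : BM D} [Finite D]

section Circle

variable {T : RT M.E} {cl : D → Prop} {rc : D → Rc D} {mw lw gw ow ex : D → Wd}
  {hw cw' : D → Wd}

lemma tag_append (y : D) (a b : Wd) : tag y (a ++ b) = tag y a ++ tag y b := by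
  unfold tag
  exact List.map_append

lemma tag_nil (y : D) : tag y [] = [] := rfl

/-- the items at a corner and on the next edge -/
noncomputable def itW (M : BM D) (T : RT M.E) (rc : D → Rc D) (lw hw : D → Wd)
    (y : D) : List (Bool × (D × ℕ)) :=
  tag y (sL lw y) ++ (tag y (sC T rc hw y) ++
    (tag y (sD T rc hw y) ++ tag (M.E y) (sA T rc hw (M.E y))))

/-- **the word of a circle** -/
theorem circle_word (H : LW M T cl rc mw lw gw ow ex hw cw') {w : D} (hw' : T.G w)
    (hb : T.ow w = w) :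
    Rot ((cir M w).flatMap fun y =>
        tag y ((ex (M.μ y)).reverse ++ (asm M y (mw y) (ow y) (gw y) ++ ex y)))
      (tag w (s1 T rc ow cw' w) ++ (cir M w).flatMap (itW M T rc lw hw) ++
        tag (M.E.symm w) (s2 T rc cw' (M.E.symm w))) := by
  classical
  set n := Function.minimalPeriod M.E w with hn
  have hn0 : 0 < n := per_pos' w
  have hper : M.E^[n] w = w := Function.iterate_minimalPeriod
  have hcyc : ∀ m : ℕ, M.E.SameCycle w (M.E^[m] w) := fun m => by
    rw [iter_pow]; exact ⟨(m : ℕ), by rw [zpow_natCast]⟩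
  -- first step: the corner words
  have e1 : ((cir M w).flatMap fun y =>
        tag y ((ex (M.μ y)).reverse ++ (asm M y (mw y) (ow y) (gw y) ++ ex y))) =
      (orb M.E w n).flatMap fun y => tag y (sA T rc hw y) ++
        (tag y (s1 T rc ow cw' y) ++ (tag y (sL lw y) ++ (tag y (sC T rc hw y) ++
          (tag y (s2 T rc cw' y) ++ tag y (sD T rc hw y))))) := by
    refine List.flatMap_congr fun y hy => ?_
    have hy' : T.G y := (RT.G_cyc (mem_cirE.1 hy)).2 hw'
    rw [corner H hy']
    simp only [tag_append, List.append_assoc]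
  rw [e1]
  refine (rot_shift (fun y => tag y (sA T rc hw y)) _ hper).trans ?_
  -- second step: the own tokens
  have hG : ∀ y, M.E.SameCycle w y → T.G y := fun y h => (RT.G_cyc h).2 hw'
  have how : ∀ y, M.E.SameCycle w y → T.ow y = w := fun y h => by rw [RT.ow_cong h, hb]
  have k1 : ∀ y, M.E.SameCycle w y → y ≠ w → s1 T rc ow cw' y = [] := by
    intro y hy hne
    unfold s1
    split_ifs with h1 h2
    · exfalso
      have hp := (H.ok y (hG y hy) h1.1).p
      unfold PlOK at hp
      rcases hpl : (rc y).pl with _ | _ | _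
      · rw [hpl] at hp
        have := hp.2.1
        rw [how y hy, h1.2.1] at this
        exact hne this.symm
      · exact absurd (h1.2.2.1 hpl) (by decide)
      · rw [hpl] at hp
        have := hp.2.1
        rw [how y hy, h1.2.1] at this
        exact hne this.symm
    · refine H.owz y (hG y hy) fun h3 => hne ?_
      have h4 := T.root y (hG y hy) h2
      rw [how y hy] at h4
      rw [h4, h3]
    · rfl
  have k2' : ∀ y, M.E.SameCycle w y → OwnS T rc true y → M.E y = w := by
    intro y hy h1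
    have hp := (H.ok y (hG y hy) h1.1).p
    unfold PlOK at hp
    rw [h1.2.2.2 rfl] at hp
    have := hp.2.1
    rw [how y hy, h1.2.1] at this
    exact this.symm
  have k2 : ∀ y, M.E.SameCycle w y → M.E y ≠ w → s2 T rc cw' y = [] := by
    intro y hy hne
    unfold s2
    rw [if_neg fun h1 => hne (k2' y hy h1)]
  have k3 : ∀ y, M.E.SameCycle w y → s2 T rc cw' y ≠ [] → sD T rc hw y = [] ∧
      sA T rc hw (M.E y) = [] := by
    intro y hy hne
    have h1 : OwnS T rc true y := by
      by_contra h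
      exact hne (if_neg h)
    have hEy := k2' y hy h1
    refine ⟨if_neg fun h => aft_own H (hG y hy) h1.1 h1.2.1 (h1.2.2.2 rfl) h, ?_⟩
    refine if_neg fun h => ?_
    have hpo := (H.ok y (hG y hy) h1.1).p
    have g1 := hpo.dep (hG y hy) h1.1
    unfold PlOK at hpo
    rw [h1.2.2.2 rfl] at hpo
    have e : (rc y).hc = M.ν y := by
      have := hpo.1
      rwa [h1.2.1] at this
    have g2 := (H.ok _ h.1 h.2.1).p.dep h.1 h.2.1
    have g3 := (H.ok _ h.1 h.2.1).p.child h.1
    rw [h.2.2.1, RT.dep_cong g3] at g2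
    rw [h1.2.1, e] at g1
    have g4 : T.dep (M.μ (M.E y)) = T.dep (M.ν y) := by
      have : M.E (M.μ (M.E y)) = M.ν y := by rw [E_μ]; rfl
      rw [← this, T.dep_E]
    have g5 : T.dep (M.E y) = T.dep y := T.dep_E y
    omega
  have key : ∀ y, M.E.SameCycle w y →
      (tag y (s1 T rc ow cw' y) ++ (tag y (sL lw y) ++ (tag y (sC T rc hw y) ++
          (tag y (s2 T rc cw' y) ++ tag y (sD T rc hw y))))) ++
        tag (M.E y) (sA T rc hw (M.E y)) =
      (if y = w then tag w (s1 T rc ow cw' w) else []) ++ itW M T rc lw hw y ++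
        (if M.E y = w then tag (M.E.symm w) (s2 T rc cw' (M.E.symm w)) else []) := by
    intro y hy
    have a1 : tag y (s1 T rc ow cw' y) = if y = w then tag w (s1 T rc ow cw' w) else [] := by
      split_ifs with h
      · rw [h]
      · rw [k1 y hy h, tag_nil]
    have a2 : tag y (s2 T rc cw' y) =
        if M.E y = w then tag (M.E.symm w) (s2 T rc cw' (M.E.symm w)) else [] := by
      split_ifs with h
      · rw [← h, Equiv.symm_apply_apply]
      · rw [k2 y hy h, tag_nil]
    unfold itW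
    rw [a1, ← a2]
    by_cases h : s2 T rc cw' y = []
    · rw [h, tag_nil]
      simp [List.append_assoc]
    · obtain ⟨h1, h2⟩ := k3 y hy h
      rw [h1, h2, tag_nil, tag_nil]
      simp [List.append_assoc]
  have ho := orb_ends (ρ := M.E) (x := w) hn0
    (fun y => (tag y (s1 T rc ow cw' y) ++ (tag y (sL lw y) ++ (tag y (sC T rc hw y) ++
          (tag y (s2 T rc cw' y) ++ tag y (sD T rc hw y))))) ++
        tag (M.E y) (sA T rc hw (M.E y)))
    (itW M T rc lw hw) (tag w (s1 T rc ow cw' w))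
    (tag (M.E.symm w) (s2 T rc cw' (M.E.symm w))) ?_ ?_ ?_ ?_
  · rw [ho]
    exact Rot.refl _
  · intro h1
    rw [h1] at hper
    simp only [Function.iterate_one] at hper
    show _ = _
    rw [key w (Equiv.Perm.SameCycle.refl _ _), if_pos rfl, if_pos hper]
  · intro h1
    show _ = _
    have h2 : M.E w ≠ w := by
      intro h3
      have : Function.minimalPeriod M.E w = 1 := by
        rw [Function.minimalPeriod_eq_one_iff_isFixedPt]; exact h3
      omega
    rw [key w (Equiv.Perm.SameCycle.refl _ _), if_pos rfl, if_neg h2, List.append_nil]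
  · intro m h1 h2
    show _ = _
    have h3 : M.E^[m] w ≠ w :=
      Function.not_isPeriodicPt_of_pos_of_lt_minimalPeriod (by omega) (by omega)
    have h4 : M.E (M.E^[m] w) ≠ w := by
      rw [← Function.iterate_succ_apply' (f := M.E)]
      exact Function.not_isPeriodicPt_of_pos_of_lt_minimalPeriod (by omega) (by omega)
    rw [key _ (hcyc m), if_neg h3, if_neg h4, List.append_nil, List.nil_append]
  · intro h1
    show _ = _
    have h3 : M.E^[n - 1] w ≠ w :=
      Function.not_isPeriodicPt_of_pos_of_lt_minimalPeriod (by omega) (by omega)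
    have h4 : M.E (M.E^[n - 1] w) = w := by
      rw [← Function.iterate_succ_apply' (f := M.E), show (n - 1).succ = n by omega]
      exact hper
    rw [key _ (hcyc _), if_neg h3, if_pos h4, List.nil_append]

end Circle

end Pool.Agent.MP42.GZ
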