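import Pool.Agent.MP42.GZ.Geo
import Pool.Agent.MP42.PL.Td

/-!
# The words of the items in contour order (owner helper30)
-/

set_option autoImplicit false
set_option linter.unusedSectionVars false

namespace Pool.Agent.MP42.GZ

open Pool.Agent.MP42 Pool.Agent.MP42.U Pool.Agent.MP42.PL Pool.Agent.MP42.O3 Pool.Agent.MP42.O3.BM

variable {D : Type*} {M : BM D} [Finite D]

section

variable {T : RT M.E} {cl : D → Prop} {rc : D → Rc D} {mw lw lw0 gw ow ex : D → Wd}
  {Lt : D → Prop} {hw cw' : D → Wd} {X : D → Prop}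

/-- the word of an item, in the direction of the circle -/
def iw (K : TD M.E M.τ T X (dgL rc)) (lw0 hw : D → Wd) (i : K.ct.Pt ⊕ K.ct.Ci) :
    List (Bool × (D × ℕ)) :=
  Sum.elim (fun p : K.ct.Pt => tag (pr p.1) (lw0 (pr p.1)))
    (fun c : K.ct.Ci => tag (rc (pr c.1)).hc (hw (pr c.1))) i

/-- the items at a corner; `lw0` = words of the letters of the contour -/
lemma itl_words (H : LW M T cl rc mw lw gw ow ex hw cw')
    (K : TD M.E M.τ T X (dgL rc)) (hz : ∀ x, T.G x → ¬ Lt x → lw0 x = []) {x : D} (hx : T.G x) :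
    (K.itl Lt x).flatMap (iw K lw0 hw) = itW M T rc lw0 hw x := by
  classical
  have h1 : (K.ltr Lt x).flatMap (iw K lw0 hw) = tag x (sL lw0 x) := by
    unfold TD.ltr sL
    by_cases h : Lt x
    · rw [dif_pos ⟨hx, h⟩]
      exact List.append_nil _
    · rw [dif_neg fun h' => h h'.2, hz x hx h]
      rfl
  have h2 : (K.dch x).flatMap (iw K lw0 hw) = tag x (sC T rc hw x) := by
    unfold TD.dch sC
    by_cases h : HostS T rc .dia x (M.ν (M.ν x))
    · have hX : X (M.ν (M.ν x)) ∧ X x := by
        have h3 := (K.dia _ h.1 h.2.1 h.2.2.2)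
        have h4 := (H.ok _ h.1 h.2.1).p
        unfold PlOK at h4
        rw [h.2.2.2] at h4
        rw [h4.2.1, (h.dia' H).1, h4.2.2.1, h.2.2.1] at h3
        exact ⟨h3.1, h3.2.1⟩
      have e : tX M.E M.τ X (Sum.inr x) = Sum.inr (M.ν (M.ν x)) := tX_inr_pos hX.2
      have ho : K.ct.Own (tX M.E M.τ X (Sum.inr x)) := by
        rw [e]
        refine ⟨?_, ?_, ?_⟩
        · rw [ct_G_inr]; exact ⟨hX.1, h.1⟩
        · rw [ct_dep]; exact h.2.1
        · rw [ct_ow]
          show owX T (dgL rc) (M.ν (M.ν x)) = _
          rw [owX_dia h.2.1 h.2.2.2]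
          have h4 := (H.ok _ h.1 h.2.1).p
          unfold PlOK at h4
          rw [h.2.2.2] at h4
          rw [h4.2.1, (h.dia' H).1]
      rw [dif_pos ho, if_pos h]
      refine (List.append_nil _).trans ?_
      show tag (rc (pr (tX M.E M.τ X (Sum.inr x)))).hc (hw (pr (tX M.E M.τ X (Sum.inr x)))) = _
      rw [e, pr_inr, h.2.2.1]
    · rw [if_neg h, dif_neg]
      · rfl
      · intro ho
        apply h
        have hX : X x := by
          by_contra hX
          rw [tX_inr_neg hX] at ho
          exact hX ho.1.1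
        have e : tX M.E M.τ X (Sum.inr x) = Sum.inr (M.ν (M.ν x)) := tX_inr_pos hX
        rw [e] at ho
        have hd : T.dep (M.ν (M.ν x)) ≠ 0 := ho.2.1
        have how : owX T (dgL rc) (M.ν (M.ν x)) = Sum.inr (M.ν (M.ν x)) := ho.2.2
        have hpl : (rc (M.ν (M.ν x))).pl = .dia := by
          by_contra hn
          unfold owX at how
          rw [if_neg fun h' => hn h'.2] at how
          exact absurd how (by simp)
        refine ⟨ho.1.2, hd, ?_, hpl⟩
        rw [owX_dia hd hpl] at how
        have how' := Sum.inr_injective how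
        have hok := H.ok _ ho.1.2 hd
        have h4 := hok.p
        unfold PlOK at h4
        rw [show (rc (pr (Sum.inr (M.ν (M.ν x))))).pl = .dia from hpl] at h4
        rw [pr_inr] at h4
        have h5 := h4.2.1
        rw [how', h4.1] at h5
        -- nu nu x = nu nu hc
        have h6 := congrArg M.μ (congrArg M.μ h5)
        simp only [μ_ν] at h6
        exact h6.symm
  have h3 : (K.ech x).flatMap (iw K lw0 hw) = tag x (sD T rc hw x) ++
      tag (M.E x) (sA T rc hw (M.E x)) := by
    have eμ : M.E.SameCycle (M.μ (M.E x)) (M.ν x) := by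
      have : M.E (M.μ (M.E x)) = M.ν x := by rw [E_μ]; rfl
      rw [← this]
      exact Equiv.Perm.sameCycle_apply_right.2 (Equiv.Perm.SameCycle.refl _ _)
    unfold TD.ech
    by_cases ho : K.ct.Own (Sum.inl (M.τ (M.E x)))
    · rw [dif_pos ho]
      refine (List.append_nil _).trans ?_
      show tag (rc (M.ν x)).hc (hw (M.ν x)) = _
      have hG : T.G (M.ν x) := (ct_G_inl K _).1 ho.1
      have hd : T.dep (M.ν x) ≠ 0 := ho.2.1
      have how : owX T (dgL rc) (M.ν x) = Sum.inl (M.ν x) := ho.2.2
      have hok := H.ok _ hG hd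
      have hp := hok.p
      unfold PlOK at hp
      unfold sD sA
      rcases hpl : (rc (M.ν x)).pl with _ | _ | _
      · rw [hpl] at hp
        have h4 : T.ow (M.ν x) = M.ν x := by
          rw [owX_edge (by intro h; rw [dgL, hpl] at h; exact absurd h (by decide))] at how
          exact Sum.inl_injective how
        have h5 : (rc (M.ν x)).hc = x := by
          have h6 := hp.1
          rw [← hp.2.1, h4] at h6
          have := congrArg M.μ h6
          rw [μ_ν, μ_ν] at this
          exact this.symm
        rw [if_pos ⟨hG, hd, h5, hpl⟩, if_neg, tag_nil, List.append_nil]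
        · show tag (rc (M.ν x)).hc (hw (M.ν x)) = _
          rw [h5]
        · intro h
          have h6 := h.2.2.2
          rw [← H.rc_cyc eμ, hpl] at h6
          exact absurd h6 (by decide)
      · rw [hpl] at hp
        have h4 : T.ow (M.ν x) = M.ν x := by
          rw [owX_edge (by intro h; rw [dgL, hpl] at h; exact absurd h (by decide))] at how
          exact Sum.inl_injective how
        have h5 : (rc (M.ν x)).hc = M.E x := by
          rw [hp.1]
          show M.τ (M.E (rc (M.ν x)).cc) = _
          rw [← hp.2.1, h4]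
          show M.τ (M.τ (M.E x)) = _
          rw [M.ττ]
        rw [if_neg (fun h => by rw [h.2.2.2] at hpl; exact absurd hpl (by decide)), tag_nil,
          List.nil_append, if_pos]
        · show tag (rc (M.ν x)).hc (hw (M.ν x)) = _
          rw [h5]
          congr 1
          exact (cyc_const H.hwE eμ)
        · refine ⟨(RT.G_cyc eμ).1 hG, ?_, ?_, ?_⟩
          · rw [← RT.dep_cong eμ]; exact hd
          · rw [← H.rc_cyc eμ]; exact h5
          · rw [← H.rc_cyc eμ]; exact hpl
      · exfalso
        rw [owX_dia hd (by rw [dgL]; exact hpl)] at how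
        exact absurd how (by simp)
    · rw [dif_neg ho]
      have key : ∀ {p : Pl}, T.G (M.ν x) → T.dep (M.ν x) ≠ 0 → (rc (M.ν x)).pl = p →
          p ≠ .dia → T.ow (M.ν x) ≠ M.ν x := by
        intro p h1 h2 h3 h4 h5
        apply ho
        refine ⟨(ct_G_inl K _).2 h1, h2, ?_⟩
        rw [ct_ow]
        show owX T (dgL rc) (M.ν x) = _
        rw [owX_edge (by intro h; rw [dgL, h3] at h; exact h4 h), h5]
        rfl
      unfold sD sA
      rw [if_neg, if_neg]
      · rfl
      · intro h
        have h4 : T.G (M.ν x) := (RT.G_cyc eμ).2 h.1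
        have h5 : T.dep (M.ν x) ≠ 0 := by rw [RT.dep_cong eμ]; exact h.2.1
        have h6 : (rc (M.ν x)).pl = .bef := by rw [H.rc_cyc eμ]; exact h.2.2.2
        have h7 : (rc (M.ν x)).hc = M.E x := by rw [H.rc_cyc eμ]; exact h.2.2.1
        refine key h4 h5 h6 (by decide) ?_
        have hp := (H.ok _ h4 h5).p
        unfold PlOK at hp
        rw [h6] at hp
        rw [hp.2.1]
        have h8 := hp.1
        rw [h7] at h8
        show M.E (rc (M.ν x)).cc = M.τ (M.E x)
        rw [h8]
        show _ = M.τ (M.τ (M.E (rc (M.ν x)).cc))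
        rw [M.ττ]
      · intro h
        refine key h.1 h.2.1 h.2.2.2 (by decide) ?_
        have hp := (H.ok _ h.1 h.2.1).p
        unfold PlOK at hp
        rw [h.2.2.2] at hp
        rw [hp.2.1, hp.1, h.2.2.1]
  have e : (K.itl Lt x).flatMap (iw K lw0 hw) = (K.ltr Lt x).flatMap (iw K lw0 hw) ++
      ((K.dch x).flatMap (iw K lw0 hw) ++ (K.ech x).flatMap (iw K lw0 hw)) := by
    have e1 : K.itl Lt x = K.ltr Lt x ++ (K.dch x ++ K.ech x) := rfl
    rw [e1, List.flatMap_append, List.flatMap_append]
  rw [e, h1, h2, h3]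
  rfl

/-- **the items of a circle** -/
theorem ilist_words (H : LW M T cl rc mw lw gw ow ex hw cw')
    (K : TD M.E M.τ T X (dgL rc)) (hz : ∀ x, T.G x → ¬ Lt x → lw0 x = []) {w : D} (hw' : T.G w) :
    (K.ilist Lt w).flatMap (iw K lw0 hw) = (cir M w).flatMap (itW M T rc lw0 hw) := by
  have e1 : K.ilist Lt w = (cir M w).flatMap (K.itl Lt) := rfl
  rw [e1, List.flatMap_assoc]
  refine List.flatMap_congr fun y hy => itl_words H K hz ?_
  exact (RT.G_cyc (mem_cirE.1 hy)).2 hw'

end

end Pool.Agent.MP42.GZ
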