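import Pool.Agent.MP42.GZ.GeoVa

/-!
# The words of a level, general part (owner helper30, helper50)

The part of `GeoL` without boxes.  `rd_eq'`: the reading order of the abstract solution is the order
of the items of the level; `word_gen'`: the word of a circle.
-/

set_option autoImplicit false
set_option linter.unusedSectionVars false
set_option linter.unusedVariables false

namespace Pool.Agent.MP42.GZ

open Pool.Agent.MP42 Pool.Agent.MP42.U Pool.Agent.MP42.PL Pool.Agent.MP42.O3 Pool.Agent.MP42.O3.BM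
open Pool.Agent.MP42.EO

variable {D : Type*} {M : BM D} [Finite D]
variable {W : D → Prop} {T : RT M.E} {cl : D → Prop} {rc : D → Rc D} {J : Type*} {x0 : D}
  {X : D → Prop}
variable {K : TD M.E M.τ T X (dgL rc)} {cls : K.ct.Ci → Prop} {y x : J → K.ct.Pt}

/-- the base corner of a circle -/
lemma ci_base (z : K.ct.Ci) : T.G (pr z.1) ∧ T.ow (pr z.1) = pr z.1 ∧
    z.1 = owX T (dgL rc) (pr z.1) := by
  have h2 : K.ct.ow z.1 = z.1 := z.2.2
  rw [ct_ow] at h2
  refine ⟨z.2.1.2, ?_, h2.symm⟩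
  have h3 := congrArg pr h2
  rw [pr_owX] at h3
  exact h3

/-- the corners of the letters -/
def LtS (y x : J → K.ct.Pt) (u : D) : Prop := ∃ j, (y j).1 = Sum.inl u ∨ (x j).1 = Sum.inl u

/-- **the items in reading order** -/
theorem rd_eq' (R : Rds K.ct.contour cls y x) (hX : ∀ u, LtS y x u → ¬ X u)
    (hy : ∀ j, ∃ u, (y j).1 = Sum.inl u) (hx : ∀ j, ∃ u, (x j).1 = Sum.inl u)
    (hcls : ∀ z, cls z ↔ cl (pr z.1)) (z : K.ct.Ci) {c : Bool} (hc : cl (pr z.1) ↔ c = true) :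
    R.rd z = dl c (K.ilist (LtS y x) (pr z.1)) := by
  obtain ⟨hG, hb, hz⟩ := ci_base z
  have hmem : ∀ i, i ∈ R.rd z ↔ (∀ p, i = Sum.inl p → ∃ u, LtS y x u ∧ p.1 = Sum.inl u) ∧
      (K.ct.contour.host i).1 = owX T (dgL rc) (pr z.1) ∧ i ≠ Sum.inr K.ct.rC := by
    intro i
    rw [R.mem z i]
    refine and_congr ?_ (and_congr ?_ Iff.rfl)
    · refine forall_congr' fun p => forall_congr' fun hp => ?_
      constructor
      · rintro ⟨j, h | h⟩
        · obtain ⟨u, hu⟩ := hy j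
          exact ⟨u, ⟨j, Or.inl hu⟩, by rw [h, hu]⟩
        · obtain ⟨u, hu⟩ := hx j
          exact ⟨u, ⟨j, Or.inr hu⟩, by rw [h, hu]⟩
      · rintro ⟨u, ⟨j, h | h⟩, hu⟩
        · exact ⟨j, Or.inl (Subtype.ext (by rw [hu, h]))⟩
        · exact ⟨j, Or.inr (Subtype.ext (by rw [hu, h]))⟩
    · rw [← hz]
      exact ⟨fun h => by rw [h], fun h => Subtype.ext h⟩
  have hcz := hcls z
  cases c
  · have hn : ¬ cls z := by rw [hcz, hc]; decide
    unfold dl
    simp only [Bool.false_eq_true, if_false]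
    rw [← List.reverse_eq_iff]
    refine ilist_unique hX hG hb ?_ fun i => by rw [List.mem_reverse]; exact hmem i
    rw [List.pairwise_reverse]
    refine (R.pw z).imp fun h => h.2 hn
  · have hn : cls z := by rw [hcz, hc]
    unfold dl
    simp only [if_true]
    exact ilist_unique hX hG hb ((R.pw z).imp fun h => h.1 hn) hmem

/-- the parent circle -/
lemma par_base (L : LI M W x0 T cl rc) {z : K.ct.Ci} (hz : z ≠ K.ct.rC) :
    T.dep (pr z.1) ≠ 0 ∧ M.E.SameCycle (pr (K.ct.parC z).1) (rc (pr z.1)).hc ∧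
      M.E.SameCycle (pr z.1) (rc (pr z.1)).cc := by
  have hown := K.ct.ci_own hz
  have hd : T.dep (pr z.1) ≠ 0 := hown.2.1
  obtain ⟨hG, hb, hz'⟩ := ci_base z
  have hp := (L.ok _ hG hd).p
  refine ⟨hd, ?_, hp.child hG⟩
  rw [CT.parC_own hown]
  show M.E.SameCycle (pr (K.ct.ow (tX M.E M.τ X z.1))) _
  have e : pr (tX M.E M.τ X z.1) = T.pd (pr z.1) := by
    have := pr_par K hown.1 hown.2.1
    rwa [hown.2.2] at this
  rw [ct_ow, pr_owX, e]
  have h1 := T.ow_cyc _ (T.par _ hG hd).1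
  exact h1.symm.trans hp.host

lemma rC_dep {z : K.ct.Ci} (h : T.dep (pr z.1) = 0) : z = K.ct.rC := by
  by_contra h1
  exact (K.ct.ci_own h1).2.1 h

/-- children of a circle hang at corners of the circle -/
lemma item_host (L : LI M W x0 T cl rc) {Lt : D → Prop} {w : D} (hw : T.G w)
    (hb : T.ow w = w) {c : K.ct.Ci} (h : Sum.inr c ∈ K.ilist Lt w) :
    c ≠ K.ct.rC ∧ M.E.SameCycle w (rc (pr c.1)).hc := by
  rw [mem_ilist hw] at h
  have hc : c ≠ K.ct.rC := fun h1 => h.2.2 (by rw [h1])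
  obtain ⟨h1, h2, h3⟩ := par_base (K := K) L hc
  refine ⟨hc, ?_⟩
  have h4 : (K.ct.parC c).1 = owX T (dgL rc) w := h.2.1
  have h5 := congrArg pr h4
  rw [pr_owX, hb] at h5
  rw [h5] at h2
  exact h2

/-- the class of a letter -/
lemma lt_cls (L : LI M W x0 T cl rc) {Lt : D → Prop} {w : D} (hw : T.G w) (hb : T.ow w = w)
    {p : K.ct.Pt} {u : D} (hp : p.1 = Sum.inl u) (h : Sum.inl p ∈ K.ilist Lt w) :
    T.G u ∧ M.E.SameCycle w u := by
  have h3 := (mem_ilist hw).1 h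
  have h4 : K.ct.ow p.1 = owX T (dgL rc) w := h3.2.1
  rw [hp, ct_ow, pr_inl] at h4
  have h5 := congrArg pr h4
  rw [pr_owX, pr_owX, hb] at h5
  have hGu : T.G u := by
    have := p.2
    rw [hp] at this
    exact (ct_G_inl K u).1 this
  have h6 := T.ow_cyc u hGu
  rw [h5] at h6
  exact ⟨hGu, h6.symm⟩

variable {mw lw lw0 gw ow ex hw cw' : D → Wd}

/-- **the word of a circle**: own tokens `OL`, words `iv` of the items, riders -/
theorem word_gen' (L : LI M W x0 T cl rc) (R : Rds K.ct.contour cls y x)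
    (hX : ∀ u, LtS y x u → ¬ X u) (hy : ∀ j, ∃ u, (y j).1 = Sum.inl u)
    (hx : ∀ j, ∃ u, (x j).1 = Sum.inl u) (hcls : ∀ z, cls z ↔ cl (pr z.1))
    (H : LW M T cl rc mw lw gw ow ex hw cw') (hz : ∀ u, T.G u → ¬ LtS y x u → lw0 u = [])
    (z : K.ct.Ci) {c : Bool} (hc : cl (pr z.1) ↔ c = true) {V : D × ℕ → B}
    (hr : ∀ u, T.G u → lw u = lw0 u ∨ (lw0 u = [] ∧ Rider V (tag u (lw u))))
    {OL : List (Bool × B)}
    (hO : lv V (rw' c (o1 M T rc ow cw' (pr z.1) ++ o2 M T rc cw' (pr z.1))) = OL)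
    (iv : K.ct.Pt ⊕ K.ct.Ci → List (Bool × B))
    (hlt : ∀ (p : K.ct.Pt) u, p.1 = Sum.inl u → LtS y x u → T.G u → ∀ c : Bool,
      (cl u ↔ c = true) → lv V (rw' c (tag u (lw0 u))) = iv (.inl p))
    (hit : ∀ c' : K.ct.Ci, c' ≠ K.ct.rC → M.E.SameCycle (pr z.1) (rc (pr c'.1)).hc →
      lv V (rw' c (tag (rc (pr c'.1)).hc (hw (pr c'.1)))) = iv (.inr c')) :
    ∃ u, Rot (lv V (rw' c ((cir M (pr z.1)).flatMap fun y =>
        tag y ((ex (M.μ y)).reverse ++ (asm M y (mw y) (ow y) (gw y) ++ ex y))))) u ∧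
      Ins (OL ++ (R.rd z).flatMap iv) u := by
  obtain ⟨hG, hb, hz'⟩ := ci_base z
  obtain ⟨u, h1, h2⟩ := circle_lv H K hz hG hb c V fun y hy => hr y ((RT.G_cyc hy).2 hG)
  refine ⟨u, h1, ?_⟩
  rw [hO] at h2
  have h3 : ((dl c (K.ilist (LtS y x) (pr z.1))).flatMap fun i => lv V (rw' c (iw K lw0 hw i))) =
      (R.rd z).flatMap iv := by
    rw [rd_eq' R hX hy hx hcls z hc]
    refine List.flatMap_congr fun i hi => ?_
    have hi' : i ∈ K.ilist (LtS y x) (pr z.1) := by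
      unfold dl at hi
      cases c
      · simpa using hi
      · simpa using hi
    rcases i with p | c'
    · have h3 := (mem_ilist hG).1 hi'
      obtain ⟨v, hv, hp⟩ := h3.1 p rfl
      obtain ⟨g1, g2⟩ := lt_cls (K := K) L hG hb hp hi'
      show lv V (rw' c (tag (pr p.1) (lw0 (pr p.1)))) = _
      have e0 : pr p.1 = v := by rw [hp]; rfl
      rw [e0]
      refine hlt p v hp hv g1 c ?_
      rw [cl_cyc L.cE g2]
      exact hc
    · obtain ⟨g1, g2⟩ := item_host (K := K) L hG hb hi'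
      exact hit c' g1 g2
  rw [h3] at h2
  exact h2

end Pool.Agent.MP42.GZ
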