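import Pool.Agent.MP42.GZ.GeoS
import Pool.Agent.MP42.GZ.GeoVa
import Pool.Agent.MP42.O3.Inv

/-!
# Facts about the states of one level (owner helper30, helper48)

Words outside of the level, used vertices, gate links; `Bxs.lwH`: the words of the level.
-/

set_option autoImplicit false
set_option linter.unusedSectionVars false
set_option linter.unusedVariables false

namespace Pool.Agent.MP42.GZ

open Pool.Agent.MP42 Pool.Agent.MP42.U Pool.Agent.MP42.PL Pool.Agent.MP42.O3 Pool.Agent.MP42.O3.BM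
open Pool.Agent.MP42.EO

/-! ## Values of words -/

section Val

variable {A A' : Type*}

lemma hl_lv (V : A → B) (w : List (Bool × A)) : hl (lv V w) = hl w := by
  unfold hl lv
  rw [List.map_map]
  rfl

lemma cl_lv (V : A → B) (w : List (Bool × A)) : Cl V w ↔ Cl (fun b : B => b) (lv V w) := by
  unfold Cl
  have e : lv (fun b : B => b) (lv V w) = lv V w := by
    unfold lv
    rw [List.map_map]
    rfl
  rw [e]

/-- words with the same values, up to the start -/
lemma rot_cl {V : A → B} {V' : A' → B} {w : List (Bool × A)} {w' : List (Bool × A')}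
    (h : Rot (lv V w) (lv V' w')) : Cl V w ↔ Cl V' w' :=
  (cl_lv V w).trans (h.cl.trans (cl_lv V' w').symm)

lemma rot_hl {V : A → B} {V' : A' → B} {w : List (Bool × A)} {w' : List (Bool × A')}
    (h : Rot (lv V w) (lv V' w')) : hl w' = hl w := by
  rw [← hl_lv V', ← hl_lv V]
  exact h.hl

lemma lv_fst (V : A → B) (w : List (Bool × A)) : (lv V w).map Prod.fst = w.map Prod.fst := by
  unfold lv
  rw [List.map_map]
  rfl

lemma rot_bd {V : A → B} {V' : A' → B} {w : List (Bool × A)} {w' : List (Bool × A')} {m : ℤ}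
    (h : Rot (lv V w) (lv V' w')) (hb : Bd m w') : Bd (3 * m) w := by
  have h1 : Bd m (lv V' w') := hb.signs (lv_fst V' w')
  have h2 := h1.rot h.symm
  exact h2.signs (lv_fst V w).symm

lemma rot_mem {V : A → B} {V' : A' → B} {w : List (Bool × A)} {w' : List (Bool × A')}
    (h : Rot (lv V w) (lv V' w')) {q : Bool × A} (hq : q ∈ w) : ∃ q' ∈ w', V' q'.2 = V q.2 := by
  have h1 : (q.1, V q.2) ∈ lv V w := List.mem_map.2 ⟨q, hq, rfl⟩
  obtain ⟨q', h2, h3⟩ := List.mem_map.1 (h.mem.2 h1)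
  refine ⟨q', h2, ?_⟩
  exact (Prod.mk.inj h3).2

end Val

variable {D : Type*} {M : BM D} [Finite D]

/-- the same circle from another corner -/
lemma cir_rot {x x' : D} (h : M.E.SameCycle x x') : Rot (cir M x) (cir M x') := by
  have key : ∀ x : D, Rot (cir M x) (cir M (M.E x)) := by
    intro x
    have hp : Function.minimalPeriod M.E (M.E x) = Function.minimalPeriod M.E x := by
      exact Function.minimalPeriod_apply (M.E.injective.mem_periodicPts x)
    have h0 := per_pos (M := M) x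
    obtain ⟨n, hn⟩ : ∃ n, Function.minimalPeriod M.E x = n + 1 := ⟨_, (Nat.succ_pred_eq_of_pos h0).symm⟩
    unfold cir
    rw [hp, hn, orb_cons, orb_succ]
    have e : M.E^[n] (M.E x) = x := by
      rw [← Function.iterate_succ_apply]
      have := Function.iterate_minimalPeriod (f := M.E) (x := x)
      rwa [hn] at this
    rw [e]
    exact Rot.mk [x] _
  obtain ⟨n, rfl⟩ := h.exists_nat_pow_eq
  clear h
  induction n with
  | zero => exact Rot.refl _
  | succ n ih =>
    rw [pow_succ', Equiv.Perm.mul_apply]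
    exact ih.trans (key _)

/-- the corners of a bad tripod are different -/
lemma cn_inj (hv : Val M) {v : D} (hB : (M.lab v).isB = true) {k k' : ℕ} (hk : k < 4)
    (hk' : k' < 4) (h : cn M v k = cn M v k') : k = k' := by
  have n1 := (hv v).1
  have n2 := (hv v).2
  have n3 : M.ν (M.ν (M.ν v)) ≠ v := by
    rcases hv.n3 v with h | h
    · exact h
    · rw [hB] at h; exact absurd h (by decide)
  have hinj : ∀ {a b : D}, M.ν a = M.ν b → a = b := fun {a b} h => by
    have := congrArg M.μ h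
    rwa [μ_ν, μ_ν] at this
  interval_cases k <;> interval_cases k' <;> first
    | rfl
    | exact absurd h.symm n1
    | exact absurd h n1
    | exact absurd h.symm n2
    | exact absurd h n2
    | exact absurd h.symm n3
    | exact absurd h n3
    | exact absurd (hinj h.symm) n1
    | exact absurd (hinj h) n1
    | exact absurd (hinj h.symm) n2
    | exact absurd (hinj h) n2
    | exact absurd (hinj (hinj h.symm)) n1
    | exact absurd (hinj (hinj h)) n1

namespace LKd

theorem supp_all : (allκ.all fun κ => allS'.all fun st => (List.range 4).all fun i =>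
    decide (κ.lv' st i = []) || i == κ.hi || i == κ.ci || κ.th == some (i, true) ||
      κ.th == some (i, false)) = true := by
  decide +kernel

/-- letters and riders are at corners of the level -/
lemma lv'_supp (κ : LKd) (st : LS) {k : ℕ} (h : κ.lv' st k ≠ []) :
    k = κ.hi ∨ k = κ.ci ∨ ∃ c, κ.th = some (k, c) := by
  have hk : k < 4 := by
    by_contra h1
    exact h (lv'_ge κ st h1)
  have h1 := supp_all
  simp only [List.all_eq_true] at h1
  have h2 := h1 κ (mem_allκ κ) st (mem_allS' st) k (List.mem_range.2 hk)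
  simp only [Bool.or_eq_true, decide_eq_true_eq, beq_iff_eq] at h2
  rcases h2 with (((h2 | h2) | h2) | h2) | h2
  · exact absurd h2 h
  · exact Or.inl h2
  · exact Or.inr (Or.inl h2)
  · exact Or.inr (Or.inr ⟨_, h2⟩)
  · exact Or.inr (Or.inr ⟨_, h2⟩)

end LKd

variable {W : D → Prop} {T : RT M.E} {cl : D → Prop} {rc : D → Rc D} {J : Type*} {x0 : D}
  {X : D → Prop}

namespace Bxs

variable (S : Bxs M W T cl rc J)
variable (L : LI M W x0 T cl rc) (hv : Val M)
include L

/-- a kind with a star is at a star -/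
lemma vd_q {b : D} {P t o : Bool} {st : LS} (h : S.Vd b (.q P t o) st) :
    ∃ j, b = S.v j ∧ P = S.P j ∧ t = S.t j ∧ o = S.o j := by
  rcases h with ⟨y, h1, h2, -⟩ | ⟨j, h1, -, h2, -⟩ | ⟨-, ⟨-, h2⟩ | ⟨-, h2⟩, -⟩
  · rcases S.isM_kap L h1 with ⟨-, a', h3 | h3⟩ | ⟨-, -, i, -, -, ⟨-, h3⟩ | ⟨z, -, h3⟩⟩ |
      ⟨j, h4, h3, -⟩
    · exact absurd (h2.symm.trans h3) (by simp)
    · exact absurd (h2.symm.trans h3) (by simp)
    · exact absurd (h2.symm.trans h3) (by simp)
    · exact absurd (h2.symm.trans h3) (by simp)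
    · have h5 := h2.symm.trans h3
      injection h5 with a1 a2 a3
      exact ⟨j, h4, a1, a2, a3⟩
  · injection h2 with a1 a2 a3
    exact ⟨j, h1.symm, a1, a2, a3⟩
  · exact absurd h2 (by simp)
  · exact absurd h2 (by simp)

include hv

/-- the words at the corners of a used vertex -/
lemma vd_mw {b : D} {κ : LKd} {st : LS} (h : S.Vd b κ st) {k : ℕ} (hk : k < 4)
    (hk3 : (M.lab b).isB = false → k < 3) :
    mw tb M S.mn (cn M b k) = κ.wv st k ∧ S.lwd (cn M b k) = κ.lv' st k ∧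
    (S.swd (cn M b k) = if κ.isR st then [] else κ.lv' st k) := (S.vdF L hv h).wd k hk hk3

/-- the word at the corner of a box -/
lemma bc_word {b : D} {κ : LKd} {st : LS} (h : S.Vd b κ st) (hb : κ.bx = true) :
    mw tb M S.mn (cn M b (κ.bi st)) = [(κ.bc st, 1), (κ.bc st, 2)] ∨
    mw tb M S.mn (cn M b (κ.bi st)) = [(κ.bc st, 2), (κ.bc st, 1)] := by
  have hF := S.vdF L hv h
  rw [(hF.wd _ (κ.hi_lt st).2.2 fun hB => ?_).1]
  · exact (κ.chk_of st hF.ok).box hb
  · obtain ⟨a, rfl | rfl⟩ := hF.b3 hB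
    · exact absurd hb (by simp [LKd.bx])
    · exact absurd hb (by simp [LKd.bx])

/-- the vertex with a box is a bad tripod -/
lemma bx_isB {b : D} {κ : LKd} {st : LS} (h : S.Vd b κ st) (hb : κ.bx = true) :
    (M.lab b).isB = true := by
  have hg := S.vdg L h
  cases hB : (M.lab b).isB
  · obtain ⟨a, rfl | rfl⟩ := hg.b3 hB
    · exact absurd hb (by simp [LKd.bx])
    · exact absurd hb (by simp [LKd.bx])
  · rfl

/-- words outside the level -/
lemma mw_out' {u : D} (hu : ¬ T.G u) (h : mw tb M S.mn u ≠ []) : S.IsBC u := by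
  by_contra hn
  apply h
  by_cases h1 : ∃ z, SV M u z ∧ S.mn z ≠ .non
  · obtain ⟨z, hz, hnz⟩ := h1
    obtain ⟨κ, st, hvd⟩ := S.mn_ne hnz
    have hF := S.vdF L hv hvd
    obtain ⟨k, hk, hk3, rfl⟩ := cn_of_sv (M := M) hz.symm
    rw [(hF.wd k hk hk3).1]
    have h2 : k ≠ κ.hi := fun h => hu (h ▸ hF.hG.1)
    have h3 : k ≠ κ.ci := fun h => hu (h ▸ hF.cG.1)
    rw [κ.otherW st hF.ok k h2 h3]
    · by_contra h4
      rcases κ.lv'_supp st h4 with h5 | h5 | ⟨c, h5⟩
      · exact h2 h5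
      · exact h3 h5
      · exact hu (hF.th _ _ h5).1
    · by_cases hb : κ.bx = true
      · right
        rintro rfl
        exact hn ⟨z, κ, st, hvd, hb, rfl⟩
      · left
        simpa using hb
  · push Not at h1
    exact mwf_zero (fun _ => rfl) h1

/-- used vertices -/
lemma used_full {b : D} (h : S.mn b ≠ .non) : Full M W b ∧
    ∀ P : D → Prop, (∀ x, P x → ¬ T.G x) → ¬ Full M P b := by
  obtain ⟨κ, st, hvd⟩ := S.mn_ne h
  have hF := S.vdF L hv hvd
  cases hB : (M.lab b).isB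
  · have h01 : T.G b ∧ T.G (M.ν b) := by
      have g1 := hF.hG.1
      have g2 := hF.cG.1
      obtain ⟨a, rfl | rfl⟩ := hF.b3 hB <;> cases a
      · exact ⟨g2, g1⟩
      · exact ⟨g1, g2⟩
      · exact ⟨g2, g1⟩
      · exact ⟨g1, g2⟩
    refine ⟨Or.inr ⟨hB, b, M.ν b, SV.refl _, SV.nu _, (hv b).1.symm, L.sub _ h01.1,
      L.sub _ h01.2⟩, ?_⟩
    rintro P hP (⟨h1, -⟩ | ⟨-, u, v, h1, h2, h3, h4, h5⟩)
    · rw [hB] at h1; exact absurd h1 (by decide)
    · have n1 := hP u h4
      have n2 := hP v h5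
      have hu1 : u ≠ b := fun h => n1 (h ▸ h01.1)
      have hu2 : u ≠ M.ν b := fun h => n1 (h ▸ h01.2)
      have hv1 : v ≠ b := fun h => n2 (h ▸ h01.1)
      have hv2 : v ≠ M.ν b := fun h => n2 (h ▸ h01.2)
      have c1 : u = M.ν (M.ν b) := by
        rcases h1.cases3 hB with h | h | h
        · exact absurd h hu1
        · exact absurd h hu2
        · exact h
      have c2 : v = M.ν (M.ν b) := by
        rcases h2.cases3 hB with h | h | h
        · exact absurd h hv1
        · exact absurd h hv2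
        · exact h
      exact h3 (c1.trans c2.symm)
  · refine ⟨Or.inl ⟨hB, (hF.b4 hB).2.1⟩, ?_⟩
    rintro P hP (⟨-, h1⟩ | ⟨h1, -⟩)
    · exact hP _ (h1 _ (cn_sv b _)) hF.hG.1
    · rw [hB] at h1; exact absurd h1 (by decide)

omit hv in
/-- one main state at a vertex -/
lemma mn_one {b c : D} (h : S.mn b ≠ .non) (h' : S.mn c ≠ .non) (hs : SV M b c) : b = c := by
  obtain ⟨κ, st, hvd⟩ := S.mn_ne h
  obtain ⟨κ', st', hvd'⟩ := S.mn_ne h'
  exact (S.vd_uniq L hvd hvd' hs).1.symm

/-- words outside `W` -/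
lemma mw_outW (hGW : ∀ x, T.G x → W x) {u : D} (hu : ¬ W u) : mw tb M S.mn u = [] := by
  by_contra h
  obtain ⟨b, κ, st, h1, h2, rfl⟩ := S.mw_out' L hv (fun h => hu (hGW u h)) h
  exact hu (((S.vdg L h1).b4 (S.bx_isB L hv h1 h2)).2.1 _ (cn_sv _ _))

/-- corners without letters of stars -/
lemma swd_zero {x : D} (hx : ¬ S.Lt x) : S.swd x = [] := by
  by_cases h1 : ∃ z, SV M x z ∧ S.mn z ≠ .non
  · obtain ⟨z, hz, hnz⟩ := h1
    obtain ⟨κ, st, hvd⟩ := S.mn_ne hnz
    obtain ⟨k, hk, hk3, rfl⟩ := cn_of_sv (M := M) hz.symm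
    rw [(S.vd_mw L hv hvd hk hk3).2.2]
    cases hr : κ.isR st
    · simp only [Bool.false_eq_true, if_false]
      by_cases hq : ∃ P t o, κ = .q P t o
      · obtain ⟨P, t, o, rfl⟩ := hq
        obtain ⟨j, rfl, rfl, rfl, rfl⟩ := S.vd_q L hvd
        rcases LKd.starW (S.P j) (S.t j) (S.o j) st k with ⟨h2, -⟩ | ⟨h2, -⟩ | ⟨-, -, h2⟩
        · exact absurd ⟨j, Or.inl (by rw [h2])⟩ hx
        · exact absurd ⟨j, Or.inr (by rw [h2])⟩ hx
        · exact h2
      · exact κ.noL st hr (fun P t o h => hq ⟨P, t, o, h⟩) k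
    · simp
  · push Not at h1
    exact mwf_zero (fun _ => rfl) h1

/-- corners without the word of a link -/
lemma mw_none {x : D} (hx : T.G x) (h : ∀ y, T.G y → T.dep y ≠ 0 → mk' M (rc y) →
    x ≠ (rc y).hc ∧ x ≠ (rc y).cc) : mw tb M S.mn x = S.lwd x := by
  by_cases h1 : ∃ z, SV M x z ∧ S.mn z ≠ .non
  · obtain ⟨z, hz, hnz⟩ := h1
    obtain ⟨κ, st, hvd⟩ := S.mn_ne hnz
    obtain ⟨k, hk, hk3, rfl⟩ := cn_of_sv (M := M) hz.symm
    have hF := S.vdF L hv hvd
    rw [(hF.wd k hk hk3).1, (hF.wd k hk hk3).2.1]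
    have hC := κ.chk_of st hF.ok
    have hdr : ∀ k, st = .drop → (κ.bx = true → k ≠ κ.bi st) → κ.wv st k = κ.lv' st k := by
      rintro k hd hk'
      by_cases h2 : k = κ.hi
      · rw [h2, hC.host]
        unfold LKd.wh
        rw [hd, κ.hv_drop]
        split_ifs <;> simp
      · by_cases h3 : k = κ.ci
        · rw [h3, hC.child]
          unfold LKd.wc
          rw [hd, κ.cv_drop]
          split_ifs <;> simp
        · refine κ.otherW st hF.ok k h2 h3 ?_
          cases hb : κ.bx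
          · exact Or.inl rfl
          · exact Or.inr (hk' hb)
    have hbi : κ.bx = true → k ≠ κ.bi st := by
      rintro hb rfl
      exact hF.bG hb hx
    rcases hvd with ⟨y, h2, rfl, rfl⟩ | ⟨j, rfl, -, rfl, rfl⟩ | ⟨-, -, rfl⟩
    · obtain ⟨g1, g2⟩ := h y h2.1 h2.2.1 h2.2.2.1
      have hK := S.kok L h2.1 h2.2.1 h2.2.2.1.2
      have hb : bas M (rc y) = z := h2.2.2.2
      have e1 : (rc y).hc = cn M z (S.κ y).hi := by rw [← hb]; exact hK.h
      have e2 : (rc y).cc = cn M z (S.κ y).ci := by rw [← hb]; exact hK.c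
      refine (S.κ y).otherW _ hF.ok k ?_ ?_ ?_
      · rintro rfl; exact g1 e1.symm
      · rintro rfl; exact g2 e2.symm
      · cases hb : (S.κ y).bx
        · exact Or.inl rfl
        · exact Or.inr (hbi hb)
    · exact hdr k rfl hbi
    · exact hdr k rfl hbi
  · push Not at h1
    have h2 : mw tb M S.mn x = [] := mwf_zero (fun _ => rfl) h1
    have h3 : S.lwd x = [] := mwf_zero (fun _ => rfl) h1
    rw [h2, h3]

omit hv

/-! ## Gate links -/

/-- the base corner of a gate link -/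
lemma isG_lab {b y : D} (h : S.IsG b y) : M.lab b = .B2 ∧ ∃ a, S.κ y = .g a := by
  have hK := S.kok L h.1 h.2.1 (gk_ne h.2.2.1)
  obtain ⟨a, ha, hb⟩ := hK.gt h.2.2.1
  have hb' : bas M (rc y) = b := h.2.2.2
  rw [hb'] at hb
  exact ⟨hb, a, ha⟩

lemma isG_cn {b y : D} {a : Bool} (h : S.IsG b y) (ha : S.κ y = .g a) :
    (rc y).hc = (if a then b else M.ν b) ∧ (rc y).cc = (if a then M.ν b else b) := by
  have hK := S.kok L h.1 h.2.1 (gk_ne h.2.2.1)
  have e1 := hK.h
  have e2 := hK.c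
  have hb' : bas M (rc y) = b := h.2.2.2
  have ha' : kap M (rc y) (S.inf y) = .g a := ha
  rw [hb', ha'] at e1 e2
  cases a
  · exact ⟨e1, e2⟩
  · exact ⟨e1, e2⟩

lemma isG_uniq {b y y' : D} (h : S.IsG b y) (h' : S.IsG b y') : M.E.SameCycle y y' := by
  obtain ⟨-, a, ha⟩ := S.isG_lab L h
  obtain ⟨-, a', ha'⟩ := S.isG_lab L h'
  obtain ⟨e1, e2⟩ := S.isG_cn L h ha
  obtain ⟨e1', e2'⟩ := S.isG_cn L h' ha'
  have c1 := (L.ok y h.1 h.2.1).p.child h.1
  have c2 := (L.ok y' h'.1 h'.2.1).p.child h'.1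
  have d1 := (L.ok y h.1 h.2.1).p.dep h.1 h.2.1
  have d2 := (L.ok y' h'.1 h'.2.1).p.dep h'.1 h'.2.1
  cases a <;> cases a' <;> simp only [Bool.false_eq_true, if_false, if_true] at e1 e2 e1' e2'
  · rw [e2] at c1; rw [e2'] at c2; exact c1.trans c2.symm
  · rw [e1, e2] at d1; rw [e1', e2'] at d2; omega
  · rw [e1, e2] at d1; rw [e1', e2'] at d2; omega
  · rw [e2] at c1; rw [e2'] at c2; exact c1.trans c2.symm

lemma gt_val {b y : D} {a : Bool} (h : S.IsG b y) (ha : S.κ y = .g a) :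
    S.gt b = some (a, S.lk y) := by
  unfold gt
  have h1 : ∃ y, S.IsG b y := ⟨y, h⟩
  rw [dif_pos h1]
  have h2 := S.isG_uniq L h h1.choose_spec
  rw [(S.κ_c L h2).1, (S.lk_c L h2).1, ha]

omit L in
lemma gt_ne {b : D} (h : S.gt b ≠ none) : ∃ y, S.IsG b y := by
  by_contra h1
  unfold gt at h
  rw [dif_neg h1] at h
  exact h rfl

lemma gt_lab {b : D} (h : M.lab b ≠ .B2) : S.gt b = none := by
  by_contra h1
  obtain ⟨y, hy⟩ := S.gt_ne h1
  exact h (S.isG_lab L hy).1

omit L in
lemma gv_none (i : ℕ) : gv none i = [] := by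
  rcases i with _ | _ | i <;> rfl

/-- words at the corners of a gate link -/
lemma gw_main {b y : D} (h : S.IsG b y) {k : ℕ} (hk : k < 2) :
    gw M S.gt (cn M b k) = (S.κ y).wv (S.lk y) k := by
  obtain ⟨hb, a, ha⟩ := S.isG_lab L h
  have e := S.gt_val L h ha
  rw [ha]
  unfold gw
  interval_cases k
  · show gv (S.gt b) 0 ++ gv (S.gt (M.μ b)) 1 = _
    rw [S.gt_lab L (b := M.μ b), gv_none, e, List.append_nil]
    · rfl
    · intro h1
      have h2 : M.lab (M.ν (M.μ b)) = .B2 := by rw [ν_μ]; exact hb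
      rw [lab_ν, h1] at h2
      exact absurd h2 (by decide)
  · show gv (S.gt (M.ν b)) 0 ++ gv (S.gt (M.μ (M.ν b))) 1 = _
    rw [S.gt_lab L (b := M.ν b), gv_none, μ_ν, e, List.nil_append]
    · rfl
    · rw [lab_ν, hb]; decide

lemma gw_none {x : D} (h : ∀ y, T.G y → T.dep y ≠ 0 → gk M (rc y) → x ≠ (rc y).hc ∧
    x ≠ (rc y).cc) : gw M S.gt x = [] := by
  have key : ∀ b, (b = x ∨ M.ν b = x) → S.gt b = none := by
    intro b hb
    by_contra h1
    obtain ⟨y, hy⟩ := S.gt_ne h1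
    obtain ⟨-, a, ha⟩ := S.isG_lab L hy
    obtain ⟨e1, e2⟩ := S.isG_cn L hy ha
    obtain ⟨g1, g2⟩ := h y hy.1 hy.2.1 hy.2.2.1
    cases a <;> simp only [Bool.false_eq_true, if_false, if_true] at e1 e2
    · rcases hb with hb | hb
      · exact g2 (by rw [e2, hb])
      · exact g1 (by rw [e1, hb])
    · rcases hb with hb | hb
      · exact g1 (by rw [e1, hb])
      · exact g2 (by rw [e2, hb])
  unfold gw
  rw [key x (Or.inl rfl), key (M.μ x) (Or.inr (ν_μ x)), gv_none, gv_none]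
  rfl

/-- a main link with `pl = dia` has no letters at its corners -/
lemma dia_lv {b y : D} (h : S.IsM b y) (hp : (rc y).pl = .dia) (k : ℕ)
    (hk : k = (S.κ y).hi ∨ k = (S.κ y).ci) : (S.κ y).lv' (S.lk y) k = [] := by
  by_contra hne
  rcases S.isM_kap L h with ⟨-, a, h2 | h2⟩ | ⟨-, -, i, hi, hd, ⟨-, h2⟩ | ⟨z, -, h2⟩⟩ |
      ⟨j, h4, h2, -, -, h5⟩
  · rw [h2] at hne
    exact hne (LKd.noL _ _ rfl (fun _ _ _ => by simp) _)
  · rw [h2] at hne
    exact hne (LKd.noL _ _ rfl (fun _ _ _ => by simp) _)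
  · rw [h2] at hne
    exact hne (LKd.noL _ _ rfl (fun _ _ _ => by simp) _)
  · have hK := S.kok L h.1 h.2.1 h.2.2.1.2
    have hB : (M.lab (rc y).hc).isB = true := by
      have h6 := (S.isM_kap L h)
      have hs := S.sv_bs L (y := y)
      rw [h.2.2.2] at hs
      rw [← hs.isB]
      rcases h6 with ⟨-, a, h7 | h7⟩ | ⟨h7, -⟩ | ⟨j, -, h7, -⟩
      · exact absurd (h2.symm.trans h7) (by simp)
      · exact absurd (h2.symm.trans h7) (by simp)
      · rw [h7]; rfl
      · exact absurd (h2.symm.trans h7) (by simp)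
    have h4 := (hK.b4 h.2.2.1 hB).2
    have hi2 : i = 0 ∨ i = 1 := by
      rcases h4 with ⟨-, -, h5⟩ | ⟨-, -, h5⟩ | ⟨-, h5, -⟩ | ⟨-, h5, -⟩
      · rw [hi] at h5; injection h5 with h5; exact Or.inl h5
      · rw [hi] at h5; injection h5 with h5; exact Or.inr h5
      · rw [hp] at h5; exact absurd h5 (by decide)
      · rw [hp] at h5; exact absurd h5 (by decide)
    rw [h2] at hk hne
    cases hr : (LKd.w i z).isR (S.lk y)
    · exact hne (LKd.noL _ _ hr (fun _ _ _ => by simp) _)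
    · have h6 := LKd.isR_iff.1 hr
      rw [h6.2] at hne
      have hok : (LKd.w i z).ok .drop = true := rfl
      have hk4 : k < 4 := by
        rcases hk with rfl | rfl
        · exact ((LKd.w i z).hi_lt .drop).1
        · exact ((LKd.w i z).hi_lt .drop).2.1
      rcases ((LKd.w i z).chk_of .drop hok).rid rfl k hk4 with ⟨-, h7⟩ | ⟨h7, -⟩
      · exact hne h7
      · rcases hi2 with rfl | rfl <;> rcases hk with hk | hk <;> rw [hk] at h7 <;>
          exact absurd h7 (by simp [LKd.hi, LKd.ci, LKd.rn])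
  · exact h5 hp

include hv

/-- **the words of the level** -/
theorem lwH {rx : Wd} {ow ex : D → Wd}
    (hex : ∀ x, (∀ y, T.G y → T.dep y ≠ 0 → (rc y).kd = .root → x ≠ (rc y).hc) → ex x = [])
    (hex' : ∀ y, T.G y → T.dep y ≠ 0 → (rc y).kd = .root → ex (rc y).hc = rx)
    (how : ∀ x, T.G x → x ≠ T.rt → ow x = []) (hof : ow T.rt ≠ [] → ¬ Full M W T.rt) :
    LW M T cl rc (mw tb M S.mn) S.lwd (gw M S.gt) ow ex (S.hw rx) (S.cw rx) where
  ok := L.ok
  rE := L.rE
  uniq y y' h1 h2 h3 h4 h5 h6 h7 :=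
    L.uniq y y' h1 h2 (mk_uses.1 h3) h4 h5 (mk_uses.1 h6) h7
  hwE x := by
    have hs : M.E.SameCycle x (M.E x) :=
      Equiv.Perm.sameCycle_apply_right.2 (Equiv.Perm.SameCycle.refl _ _)
    unfold hw
    rw [(S.κ_c L hs).1, (S.lk_c L hs).1, L.rE]
  cwE x := by
    have hs : M.E.SameCycle x (M.E x) :=
      Equiv.Perm.sameCycle_apply_right.2 (Equiv.Perm.SameCycle.refl _ _)
    unfold cw
    rw [(S.κ_c L hs).1, (S.lk_c L hs).1, L.rE]
  hm y hy hd hg := by
    have hM : S.IsM (S.bs y) y := ⟨hy, hd, hg, rfl⟩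
    have hvd : S.Vd (S.bs y) (S.κ y) (S.lk y) := Or.inl ⟨y, hM, rfl, rfl⟩
    have hK := S.kok L hy hd hg.2
    have hF := S.vdF L hv hvd
    have hC := (S.κ y).chk_of (S.lk y) hF.ok
    have hlt := (S.κ y).hi_lt (S.lk y)
    have h3 : ∀ k, (k = (S.κ y).hi ∨ k = (S.κ y).ci) → (M.lab (S.bs y)).isB = false → k < 3 := by
      intro k hk hB
      obtain ⟨a, ha⟩ := hF.b3 hB
      have : (S.κ y).hi < 3 ∧ (S.κ y).ci < 3 := by
        rcases ha with ha | ha <;> rw [ha] <;> cases a <;> decide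
      rcases hk with rfl | rfl
      · exact this.1
      · exact this.2
    unfold hw cw
    rw [if_neg hg.2, if_neg hg.2]
    have e1 : (rc y).hc = cn M (S.bs y) (S.κ y).hi := hK.h
    have e2 : (rc y).cc = cn M (S.bs y) (S.κ y).ci := hK.c
    have w1 := hF.wd _ hlt.1 (h3 _ (Or.inl rfl))
    have w2 := hF.wd _ hlt.2.1 (h3 _ (Or.inr rfl))
    have hb : ∀ P t o, S.κ y = .q P t o → ((rc y).pl = .bef ↔ P = true) := by
      intro P t o h
      rcases S.isM_kap L hM with ⟨-, a', h4 | h4⟩ | ⟨-, -, i, -, -, ⟨-, h4⟩ | ⟨z, -, h4⟩⟩ |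
        ⟨j, -, h4, -, h5, -⟩
      · exact absurd (h.symm.trans h4) (by simp)
      · exact absurd (h.symm.trans h4) (by simp)
      · exact absurd (h.symm.trans h4) (by simp)
      · exact absurd (h.symm.trans h4) (by simp)
      · have h6 := h.symm.trans h4
        injection h6 with a1 a2 a3
        rw [a1]
        exact h5
    have hpl := (S.κ y).wh_pl (S.lk y) ((rc y).pl = .bef) hb
    refine ⟨?_, ?_⟩
    · rw [e1, w1.1, w1.2.1, hC.host]
      exact hpl.1
    · rw [e2, w2.1, w2.2.1, hC.child]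
      exact hpl.2
  hd y hy hd hp := by
    by_cases hg : gk M (rc y)
    · exfalso
      have hk := (L.ok y hy hd).k
      unfold KdOK KdP at hk
      rcases hg with h | ⟨h, -⟩
      · rw [h] at hk
        rcases hk with hk | hk
        · rw [hp] at hk; exact absurd hk.1 (by decide)
        · rw [hp] at hk; exact absurd hk.1 (by decide)
      · rw [h] at hk
        rcases hk with hk | hk
        · rw [hp] at hk; exact absurd hk.1 (by decide)
        · rw [hp] at hk; exact absurd hk.1 (by decide)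
    · by_cases hr : (rc y).kd = .root
      · exfalso
        have hk := (L.ok y hy hd).k
        unfold KdOK KdP at hk
        rw [hr] at hk
        rw [hp] at hk
        exact absurd hk.1 (by decide)
      · have hM : S.IsM (S.bs y) y := ⟨hy, hd, ⟨hg, hr⟩, rfl⟩
        have hvd : S.Vd (S.bs y) (S.κ y) (S.lk y) := Or.inl ⟨y, hM, rfl, rfl⟩
        have hK := S.kok L hy hd hr
        have hF := S.vdF L hv hvd
        have e1 : (rc y).hc = cn M (S.bs y) (S.κ y).hi := hK.h
        have hlt := (S.κ y).hi_lt (S.lk y)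
        rw [e1, (hF.wd _ hlt.1 fun hB => ?_).2.1]
        · exact S.dia_lv L hM hp _ (Or.inl rfl)
        · obtain ⟨a, ha | ha⟩ := hF.b3 hB <;> rw [ha] <;> cases a <;> decide
  hg y hy hd hg := by
    have hM : S.IsG (S.bs y) y := ⟨hy, hd, hg, rfl⟩
    have hK := S.kok L hy hd (gk_ne hg)
    obtain ⟨a, ha, -⟩ := hK.gt hg
    have ha' : S.κ y = .g a := ha
    have hlt : (S.κ y).hi < 2 ∧ (S.κ y).ci < 2 := by
      rw [ha']; cases a <;> decide
    have hC := (S.κ y).chk_of (S.lk y) (by rw [ha']; rfl)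
    have hL : ∀ i, (S.κ y).lv' (S.lk y) i = [] := by
      intro i
      rw [ha']
      exact LKd.noL _ _ rfl (fun _ _ _ => by simp) _
    have hbe : (S.κ y).bef = true := by rw [ha']; rfl
    unfold hw cw
    rw [if_neg (gk_ne hg), if_neg (gk_ne hg)]
    have e1 : (rc y).hc = cn M (S.bs y) (S.κ y).hi := hK.h
    have e2 : (rc y).cc = cn M (S.bs y) (S.κ y).ci := hK.c
    refine ⟨?_, ?_⟩
    · rw [e1, S.gw_main L hM hlt.1, hC.host]
      unfold LKd.wh
      rw [hbe, hL]
      simp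
    · rw [e2, S.gw_main L hM hlt.2, hC.child]
      unfold LKd.wc
      rw [hbe, hL]
      simp
  hx y hy hd hr := by
    unfold hw cw
    rw [if_pos hr, if_pos hr, hex' y hy hd hr]
    exact ⟨rfl, rfl⟩
  mz x hx h := S.mw_none L hv hx h
  gz x hx h := S.gw_none L h
  xz := hex
  owz := how
  owm h := by
    have hF := hof h
    by_contra h1
    apply hF
    obtain ⟨z, hz, hn⟩ : ∃ z, SV M T.rt z ∧ S.mn z ≠ .non := by
      by_contra h2
      push Not at h2
      exact h1 (mwf_zero (fun _ => rfl) h2)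
    exact (Full.congr hz).1 (S.used_full L hv hn).1

end Bxs

end Pool.Agent.MP42.GZ
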