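import Pool.Agent.MP42.GZ.GeoO

/-!
# Boxes of a level (owner helper30, helper48)

Classes and lanes of the boxes; `Cov`: every missing component has exactly one box; `LegH`: legality.
-/

set_option autoImplicit false
set_option linter.unusedSectionVars false
set_option linter.unusedVariables false

namespace Pool.Agent.MP42.GZ

open Pool.Agent.MP42 Pool.Agent.MP42.U Pool.Agent.MP42.PL Pool.Agent.MP42.O3 Pool.Agent.MP42.O3.BM
open Pool.Agent.MP42.EO

variable {D : Type*} {M : BM D} [Finite D]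
variable {W : D → Prop} {T : RT M.E} {cl : D → Prop} {rc : D → Rc D} {J : Type*} {x0 : D}
  {X : D → Prop}

namespace Bxs

variable (S : Bxs M W T cl rc J)

open Classical in
/-- the classes of the circles and of the boxes -/
noncomputable def cE (x : D) : Bool :=
  if T.G x then decide (cl x) else
    match mw tb M S.mn x with
    | q :: _ => q.1
    | [] => true

/-- the numbers of the lanes of a box -/
noncomputable def m0 (c : D) : ℕ :=
  match mw tb M S.mn c with
  | q :: _ => q.2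
  | [] => 1

/-- the numbers of the lanes of a box -/
noncomputable def m1 (c : D) : ℕ :=
  match mw tb M S.mn c with
  | _ :: q :: _ => q.2
  | _ => 2

open Classical in
/-- the corner of the own tokens of the component of `x` -/
noncomputable def b0 (x : D) : D :=
  if h : ∃ c, S.IsBC c ∧ Cmp M W T.G x c then h.choose else x

/-- every missing component has exactly one box corner -/
structure Cov : Prop where
  all : ∀ x, W x → ¬ T.G x → ∃ c, S.IsBC c ∧ Cmp M W T.G x c
  uni : ∀ c c', S.IsBC c → S.IsBC c' → Cmp M W T.G c c' → c = c'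

variable {S}

lemma cE_in {x : D} (h : T.G x) : cl x ↔ S.cE x = true := by
  classical
  unfold cE
  rw [if_pos h]
  simp

lemma Cov.b0_spec (hC : S.Cov) {x : D} (h1 : W x) (h2 : ¬ T.G x) :
    S.IsBC (S.b0 x) ∧ Cmp M W T.G x (S.b0 x) := by
  unfold b0
  have h := hC.all x h1 h2
  rw [dif_pos h]
  exact h.choose_spec

lemma Cov.b0_eq (hC : S.Cov) {x c : D} (hc : S.IsBC c) (h : Cmp M W T.G x c) :
    S.b0 x = c := by
  obtain ⟨h1, h2⟩ := hC.b0_spec h.1 h.2.1
  exact hC.uni _ _ h1 hc (h2.symm.trans h)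

lemma Cov.b0_cst (hC : S.Cov) {x y : D} (h : Cmp M W T.G x y) : S.b0 y = S.b0 x := by
  obtain ⟨h1, h2⟩ := hC.b0_spec h.1 h.2.1
  exact hC.b0_eq h1 (h.symm.trans h2)

variable (L : LI M W x0 T cl rc) (hv : Val M)

lemma bc_nG (S : Bxs M W T cl rc J) (L : LI M W x0 T cl rc) (hv : Val M) {c : D}
    (h : S.IsBC c) : ¬ T.G c ∧ W c ∧ mw tb M S.mn c = [(S.cE c, S.m0 c), (S.cE c, S.m1 c)] ∧
      ((S.m0 c = 1 ∧ S.m1 c = 2) ∨ (S.m0 c = 2 ∧ S.m1 c = 1)) := by
  obtain ⟨b, κ, st, h1, h2, rfl⟩ := h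
  have hg := S.vdg L h1
  have hB := S.bx_isB L hv h1 h2
  refine ⟨hg.bG h2, (hg.b4 hB).2.1 _ (cn_sv _ _), ?_⟩
  unfold cE m0 m1
  rw [if_neg (hg.bG h2)]
  rcases S.bc_word L hv h1 h2 with h | h <;> rw [h]
  · exact ⟨rfl, Or.inl ⟨rfl, rfl⟩⟩
  · exact ⟨rfl, Or.inr ⟨rfl, rfl⟩⟩

/-- the class of a box -/
lemma cE_bc (S : Bxs M W T cl rc J) (L : LI M W x0 T cl rc) (hv : Val M) {b : D} {κ : LKd}
    {st : LS} (h : S.Vd b κ st) (hb : κ.bx = true) : S.cE (cn M b (κ.bi st)) = κ.bc st := by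
  have hg := S.vdg L h
  unfold cE
  rw [if_neg (hg.bG hb)]
  rcases S.bc_word L hv h hb with h1 | h1 <;> rw [h1]

end Bxs

/-- legal states -/
structure LegH (Lg : Leg (D := D) tb) (S : Bxs M W T cl rc J) : Prop where
  m : ∀ cE' : D → Bool, (∀ y, T.G y → (cl y ↔ cE' y = true)) → (∀ c, S.IsBC c → cE' c = S.cE c) →
    ∀ y, Lg.okM cE' y (S.mn y)
  g : ∀ cE' : D → Bool, (∀ y, T.G y → (cl y ↔ cE' y = true)) → ∀ y, Lg.okG cE' y (S.gt y)

end Pool.Agent.MP42.GZ
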