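import Pool.Agent.MP42.GZ.GeoI
import Pool.Agent.MP42.GZ.Lvl3

/-!
# The states of one level (owner helper30, helper48)

`kap`: the kind of a link; `Bxs`: link states, boxes at links, stars, harmless docks of a level;
`Bxs.Vd b κ st`: the used vertex with the base corner `b` has the kind `κ` and the state `st`;
`Bxs.mn`, `Bxs.gt`: the global state; `Bxs.lw`: the words of the level.
-/

set_option autoImplicit false
set_option linter.unusedSectionVars false

namespace Pool.Agent.MP42.GZ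

open Pool.Agent.MP42 Pool.Agent.MP42.U Pool.Agent.MP42.PL Pool.Agent.MP42.O3 Pool.Agent.MP42.O3.BM

variable {D : Type*} {M : BM D}

/-- what is at a bad tripod besides the link: nothing, a box (`z`: the fourth corner is present), a
star -/
inductive BI
  | n
  | w (z : Bool)
  | q (t o : Bool)
  deriving DecidableEq

/-- the kind of a link -/
def kap (M : BM D) (r : Rc D) (g : BI) : LKd :=
  match r.kd with
  | .real => if (M.lab r.hc).isB = true then .g (decide (r.pl = .aft)) else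
      .e (decide (r.pl = .aft))
  | .m => .e true
  | .p => .e false
  | .k1 => .k false
  | .k2 => .k true
  | .m1 => match g with
    | .w z => .w 0 z
    | _ => .m 0
  | .m2 => match g with
    | .w z => .w 1 z
    | _ => .m 1
  | .m3 => match g with
    | .w z => .w 2 z
    | .q t o => .q true t o
    | _ => .m 2
  | .m4 => match g with
    | .w z => .w 3 z
    | .q t o => .q false t o
    | _ => .m 3
  | .g => .g (decide (r.pl = .aft))
  | .root => .g true

/-- the base corner of a link -/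
def bas (M : BM D) (r : Rc D) : D := (M.μ)^[(kap M r .n).hi] r.hc

/-- the corner of a box at a main link of a bad tripod -/
def bxl (M : BM D) (r : Rc D) : D := if (kap M r .n).hi = 0 then M.ν r.hc else M.μ r.hc

lemma kap_hi (r : Rc D) (g : BI) : (kap M r g).hi = (kap M r .n).hi ∧
    (kap M r g).ci = (kap M r .n).ci ∧ (kap M r g).hc = (kap M r .n).hc ∧
    (kap M r g).cc = (kap M r .n).cc := by
  unfold kap
  rcases r.kd with _ | _ | _ | _ | _ | _ | _ | _ | _ | _ | _ <;> rcases g with _ | z | ⟨t, o⟩ <;>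
    first | exact ⟨rfl, rfl, rfl, rfl⟩ | decide

/-- the facts about a kind -/
structure KapOK (M : BM D) (cl : D → Prop) (r : Rc D) (g : BI) : Prop where
  h : r.hc = (M.ν)^[(kap M r g).hi] (bas M r)
  c : r.cc = (M.ν)^[(kap M r g).ci] (bas M r)
  ch : cl r.hc ↔ (kap M r g).hc = true
  cc : cl r.cc ↔ (kap M r g).cc = true
  gt : gk M r → ∃ a, kap M r g = .g a ∧ M.lab (bas M r) = .B2
  b4 : mk' M r → (M.lab r.hc).isB = true → M.lab (bas M r) = .B3 ∧
    ((r.kd = .m1 ∧ r.pl = .dia ∧ (kap M r .n) = .m 0) ∨ (r.kd = .m2 ∧ r.pl = .dia ∧ (kap M r .n) = .m 1) ∨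
      (r.kd = .m3 ∧ r.pl = .bef ∧ (kap M r .n) = .m 2) ∨ (r.kd = .m4 ∧ r.pl = .aft ∧ (kap M r .n) = .m 3))
  b3 : mk' M r → (M.lab r.hc).isB = false → (∃ a, kap M r g = .e a ∨ kap M r g = .k a) ∧
    (M.lab (bas M r)).isB = false

lemma sv_bas (r : Rc D) : SV M r.hc (bas M r) := by
  unfold bas
  generalize (kap M r .n).hi = n
  induction n with
  | zero => exact SV.refl _
  | succ n ih =>
    rw [Function.iterate_succ_apply']
    exact ih.trans (SV.mu _)

theorem kap_ok {cl : D → Prop} {T : RT M.E} {r : Rc D} {y : D} (hr : RecOK M cl T r y)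
    (hroot : r.kd ≠ .root) (g : BI) : KapOK M cl r g := by
  obtain ⟨q1, q2, q3, q4⟩ := kap_hi (M := M) r g
  have hk := hr.k
  have hp := hr.p
  have hl := lab_of hr hroot
  unfold KdOK KdP at hk
  unfold PlOK at hp
  have key : ∀ κ : LKd, kap M r .n = κ → r.hc = (M.ν)^[κ.hi] ((M.μ)^[κ.hi] r.hc) →
      r.cc = (M.ν)^[κ.ci] ((M.μ)^[κ.hi] r.hc) → (cl r.hc ↔ κ.hc = true) →
      (cl r.cc ↔ κ.cc = true) →
      (gk M r → ∃ a, kap M r g = .g a ∧ M.lab ((M.μ)^[κ.hi] r.hc) = .B2) →
      (mk' M r → (M.lab r.hc).isB = true →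
        M.lab ((M.μ)^[κ.hi] r.hc) = .B3 ∧
    ((r.kd = .m1 ∧ r.pl = .dia ∧ κ = .m 0) ∨ (r.kd = .m2 ∧ r.pl = .dia ∧ κ = .m 1) ∨
      (r.kd = .m3 ∧ r.pl = .bef ∧ κ = .m 2) ∨ (r.kd = .m4 ∧ r.pl = .aft ∧ κ = .m 3))) →
      (mk' M r → (M.lab r.hc).isB = false → (∃ a, kap M r g = .e a ∨ kap M r g = .k a) ∧
        (M.lab ((M.μ)^[κ.hi] r.hc)).isB = false) → KapOK M cl r g := by
    rintro κ rfl h1 h2 h3 h4 h5 h6 h7
    refine ⟨?_, ?_, ?_, ?_, h5, h6, h7⟩
    · rw [q1]; exact h1
    · rw [q2]; exact h2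
    · rw [q3]; exact h3
    · rw [q4]; exact h4
  have hgk : ¬ (r.kd = .g ∨ r.kd = .real) → ¬ gk M r := by
    rintro h (h1 | ⟨h1, -⟩)
    · exact h (Or.inl h1)
    · exact h (Or.inr h1)
  have lmu : ∀ {x : D}, M.lab x = .B2 → M.lab (M.μ x) = .B3 := by
    intro x hx
    have h1 : M.lab (M.ν (M.μ x)) = .B2 := by rw [ν_μ]; exact hx
    rw [lab_ν] at h1
    cases h3 : M.lab (M.μ x) <;> rw [h3] at h1 <;> first | rfl | exact absurd h1 (by decide)
  rcases hkd : r.kd with _ | _ | _ | _ | _ | _ | _ | _ | _ | _ | _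
  · -- real
    rw [hkd] at hk
    have hg0 : gk M r ↔ (M.lab r.hc).isB = true := by
      unfold gk
      rw [hkd]
      constructor
      · rintro (h | h)
        · exact absurd h (by decide)
        · exact h.2
      · exact fun h => Or.inr ⟨rfl, h⟩
    rcases hk with ⟨h1, h2, h3, -⟩ | ⟨h1, h2, h3, -⟩
    · rw [h1] at hp
      by_cases hB : (M.lab r.hc).isB = true
      · refine key (.g true) (by simp [kap, hkd, hB, h1]) rfl hp.1 (by simp [LKd.hc, h2])
          (by simp [LKd.cc, h3]) (fun _ => ⟨true, by simp [kap, hkd, hB, h1], ((hl hB).1 h1).1⟩)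
          (fun h => absurd (hg0.2 hB) h.1) (fun h => absurd (hg0.2 hB) h.1)
      · refine key (.e true) (by simp [kap, hkd, hB, h1]) rfl hp.1 (by simp [LKd.hc, h2])
          (by simp [LKd.cc, h3]) (fun h => absurd (hg0.1 h) hB) (fun _ h => absurd h hB)
          (fun _ h => ⟨⟨true, Or.inl (by simp [kap, hkd, hB, h1])⟩, h⟩)
    · rw [h1] at hp
      have e : M.μ r.hc = r.cc := by rw [hp.1, μ_ν]
      by_cases hB : (M.lab r.hc).isB = true
      · refine key (.g false) (by simp [kap, hkd, hB, h1]) ?_ ?_ (by simp [LKd.hc, h3])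
          (by simp [LKd.cc, h2]) (fun _ => ⟨false, by simp [kap, hkd, hB, h1], ?_⟩)
          (fun h => absurd (hg0.2 hB) h.1) (fun h => absurd (hg0.2 hB) h.1)
        · show r.hc = M.ν (M.μ r.hc); rw [ν_μ]
        · show r.cc = M.μ r.hc; rw [e]
        · show M.lab (M.μ r.hc) = .B2
          rw [e]; exact ((hl hB).2.1 h1).2
      · refine key (.e false) (by simp [kap, hkd, hB, h1]) ?_ ?_ (by simp [LKd.hc, h3])
          (by simp [LKd.cc, h2]) (fun h => absurd (hg0.1 h) hB) (fun _ h => absurd h hB)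
          (fun _ h => ⟨⟨false, Or.inl (by simp [kap, hkd, hB, h1])⟩, ?_⟩)
        · show r.hc = M.ν (M.μ r.hc); rw [ν_μ]
        · show r.cc = M.μ r.hc; rw [e]
        · show (M.lab (M.μ r.hc)).isB = false
          rw [isB_μ]; exact h
  · -- m
    rw [hkd] at hk
    obtain ⟨h1, h2, h3, h4, -⟩ := hk
    rw [h1] at hp
    refine key (.e true) (by simp [kap, hkd]) rfl hp.1 (by simp [LKd.hc, h2])
      (by simp [LKd.cc, h3]) (fun h => absurd h (hgk (by rw [hkd]; decide)))
      (fun _ h => by rw [h4] at h; exact absurd h (by decide))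
      (fun _ h => ⟨⟨true, Or.inl (by simp [kap, hkd])⟩, h⟩)
  · -- p
    rw [hkd] at hk
    obtain ⟨h1, h2, h3, h4, -⟩ := hk
    rw [h1] at hp
    have e : M.μ r.hc = r.cc := by rw [hp.1, μ_ν]
    refine key (.e false) (by simp [kap, hkd]) ?_ ?_ (by simp [LKd.hc, h3])
      (by simp [LKd.cc, h2]) (fun h => absurd h (hgk (by rw [hkd]; decide)))
      (fun _ h => by rw [h4] at h; exact absurd h (by decide))
      (fun _ h => ⟨⟨false, Or.inl (by simp [kap, hkd])⟩, ?_⟩)
    · show r.hc = M.ν (M.μ r.hc); rw [ν_μ]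
    · show r.cc = M.μ r.hc; rw [e]
    · show (M.lab (M.μ r.hc)).isB = false
      rw [isB_μ]; exact h
  · -- k1
    rw [hkd] at hk
    obtain ⟨h1, h2, h3, h4⟩ := hk
    rw [h1] at hp
    have e : M.μ r.hc = r.cc := by rw [hp.1, μ_ν]
    have hB : (M.lab r.hc).isB = false := by
      rw [hp.1, isB_ν, h2]; rfl
    refine key (.k false) (by simp [kap, hkd]) ?_ ?_ (by simp [LKd.hc, h4])
      (by simp [LKd.cc, h3]) (fun h => absurd h (hgk (by rw [hkd]; decide)))
      (fun _ h => by rw [hB] at h; exact absurd h (by decide))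
      (fun _ h => ⟨⟨false, Or.inr (by simp [kap, hkd])⟩, ?_⟩)
    · show r.hc = M.ν (M.μ r.hc); rw [ν_μ]
    · show r.cc = M.μ r.hc; rw [e]
    · show (M.lab (M.μ r.hc)).isB = false
      rw [isB_μ]; exact h
  · -- k2
    rw [hkd] at hk
    obtain ⟨h1, h2, h3, h4⟩ := hk
    rw [h1] at hp
    have hB : (M.lab r.hc).isB = false := by rw [h2]; rfl
    refine key (.k true) (by simp [kap, hkd]) rfl hp.1 (by simp [LKd.hc, h3])
      (by simp [LKd.cc, h4]) (fun h => absurd h (hgk (by rw [hkd]; decide)))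
      (fun _ h => by rw [hB] at h; exact absurd h (by decide))
      (fun _ h => ⟨⟨true, Or.inr (by simp [kap, hkd])⟩, h⟩)
  · -- m1
    rw [hkd] at hk
    obtain ⟨h1, h2, h3, h4⟩ := hk
    rw [h1] at hp
    have hB : (M.lab r.hc).isB = true := by rw [h2]; rfl
    refine key (.m 0) (by simp [kap, hkd]) rfl hp.1 (by simp [LKd.hc, h3])
      (by simp [LKd.cc, h4]) (fun h => absurd h (hgk (by rw [hkd]; decide)))
      (fun _ h => ⟨h2, Or.inl ⟨hkd, h1, rfl⟩⟩)
      (fun _ h => by rw [hB] at h; exact absurd h (by decide))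
  · -- m2
    rw [hkd] at hk
    obtain ⟨h1, h2, h3, h4⟩ := hk
    rw [h1] at hp
    have hB : (M.lab r.hc).isB = true := by rw [h2]; rfl
    refine key (.m 1) (by simp [kap, hkd]) ?_ ?_ (by simp [LKd.hc, h3])
      (by simp [LKd.cc, h4]) (fun h => absurd h (hgk (by rw [hkd]; decide)))
      (fun _ h => ⟨?_, Or.inr (Or.inl ⟨hkd, h1, rfl⟩)⟩)
      (fun _ h => by rw [hB] at h; exact absurd h (by decide))
    · show r.hc = M.ν (M.μ r.hc); rw [ν_μ]
    · show r.cc = M.ν (M.ν (M.ν (M.μ r.hc))); rw [ν_μ, hp.1]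
    · show M.lab (M.μ r.hc) = .B3; exact lmu h2
  · -- m3
    rw [hkd] at hk
    obtain ⟨h1, h2, h3, h4⟩ := hk
    rw [h1] at hp
    have hB : (M.lab r.hc).isB = true := by rw [h2]; rfl
    refine key (.m 2) (by simp [kap, hkd]) rfl ?_ (by simp [LKd.hc, h3])
      (by simp [LKd.cc, h4]) (fun h => absurd h (hgk (by rw [hkd]; decide)))
      (fun _ h => ⟨h2, Or.inr (Or.inr (Or.inl ⟨hkd, h1, rfl⟩))⟩)
      (fun _ h => by rw [hB] at h; exact absurd h (by decide))
    show r.cc = M.ν (M.ν (M.ν r.hc))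
    rw [← μ_4 hB, hp.1, μ_ν]
  · -- m4
    rw [hkd] at hk
    obtain ⟨h1, h2, h3, h4⟩ := hk
    rw [h1] at hp
    have hB : (M.lab r.hc).isB = true := by rw [h2]; rfl
    refine key (.m 3) (by simp [kap, hkd]) ?_ ?_ (by simp [LKd.hc, h3])
      (by simp [LKd.cc, h4]) (fun h => absurd h (hgk (by rw [hkd]; decide)))
      (fun _ h => ⟨?_, Or.inr (Or.inr (Or.inr ⟨hkd, h1, rfl⟩))⟩)
      (fun _ h => by rw [hB] at h; exact absurd h (by decide))
    · show r.hc = M.ν (M.μ r.hc); rw [ν_μ]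
    · show r.cc = M.ν (M.ν (M.μ r.hc)); rw [ν_μ, hp.1]
    · show M.lab (M.μ r.hc) = .B3; exact lmu h2
  · -- g
    rw [hkd] at hk
    have hg0 : gk M r := Or.inl hkd
    rcases hk with ⟨h1, h2, h3, h4, -⟩ | ⟨h1, h2, h3, h4, -⟩
    · rw [h1] at hp
      refine key (.g true) (by simp [kap, hkd, h1]) rfl hp.1 (by simp [LKd.hc, h3])
        (by simp [LKd.cc, h4]) (fun _ => ⟨true, by simp [kap, hkd, h1], h2⟩)
        (fun h => absurd hg0 h.1) (fun h => absurd hg0 h.1)
    · rw [h1] at hp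
      have e : M.μ r.hc = r.cc := by rw [hp.1, μ_ν]
      refine key (.g false) (by simp [kap, hkd, h1]) ?_ ?_ (by simp [LKd.hc, h4])
        (by simp [LKd.cc, h3]) (fun _ => ⟨false, by simp [kap, hkd, h1], ?_⟩)
        (fun h => absurd hg0 h.1) (fun h => absurd hg0 h.1)
      · show r.hc = M.ν (M.μ r.hc); rw [ν_μ]
      · show r.cc = M.μ r.hc; rw [e]
      · show M.lab (M.μ r.hc) = .B2
        rw [e]; exact h2
  · exact absurd hkd hroot

/-! ## Words of the main states -/

/-- all vertices have valence three or four -/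
def Val (M : BM D) : Prop := ∀ x, M.ν x ≠ x ∧ M.ν (M.ν x) ≠ x

lemma Val.n3 (h : Val M) (x : D) : M.ν (M.ν (M.ν x)) ≠ x ∨ (M.lab x).isB = false := by
  cases hB : (M.lab x).isB
  · exact Or.inr rfl
  · left
    intro h1
    have h2 : M.ν (M.ν (M.ν (M.ν x))) = x := M.n4 x hB
    rw [h1] at h2
    exact (h x).1 h2

/-- the word at a corner for a word function of the main states -/
def mwf (f : Sq → ℕ → Wd) (M : BM D) (mn : D → Sq) (y : D) : Wd :=
  (List.range 4).flatMap fun i => f (mn ((M.μ)^[i] y)) i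

lemma mwf_vis (mn : D → Sq) (y : D) : mw tb M mn y = mwf Sq.vis M mn y := rfl

lemma mwf_eq4 (f : Sq → ℕ → Wd) (mn : D → Sq) (x : D) : mwf f M mn x = f (mn x) 0 ++
    (f (mn (M.μ x)) 1 ++ (f (mn (M.μ (M.μ x))) 2 ++ f (mn (M.μ (M.μ (M.μ x)))) 3)) := by
  unfold mwf
  simp [List.range, List.range.loop]

/-- an unused vertex -/
lemma mwf_zero {f : Sq → ℕ → Wd} (hf : ∀ i, f .non i = []) {mn : D → Sq} {x : D}
    (h : ∀ z, SV M x z → mn z = .non) : mwf f M mn x = [] := by
  have h0 := h x (SV.refl _)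
  have h1 := h _ (SV.mu x)
  have h2 := h _ ((SV.mu x).trans (SV.mu _))
  have h3 := h _ (((SV.mu x).trans (SV.mu _)).trans (SV.mu _))
  rw [mwf_eq4, h0, h1, h2, h3, hf, hf, hf, hf]
  rfl

/-- a used vertex with the base corner `b` -/
lemma mwf_at (hv : Val M) {f : Sq → ℕ → Wd} (hf : ∀ i, f .non i = []) {mn : D → Sq} {b : D}
    {k : ℕ} (hk : k < 4) (h : ∀ z, SV M b z → z ≠ b → mn z = .non)
    (h3 : (M.lab b).isB = false → k < 3 ∧ f (mn b) 3 = []) :
    mwf f M mn ((M.ν)^[k] b) = f (mn b) k := by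
  have n1 := (hv b).1
  have n2 := (hv b).2
  have hν1 : mn (M.ν b) = .non := h _ (SV.nu b) n1
  have hν2 : mn (M.ν (M.ν b)) = .non := h _ ((SV.nu b).trans (SV.nu _)) n2
  have hμ1 : mn (M.μ b) = .non := h _ (SV.mu b) fun h1 => n1 (by
    have := congrArg M.ν h1
    rw [ν_μ] at this
    exact this.symm)
  have hμ2 : mn (M.μ (M.μ b)) = .non := h _ ((SV.mu b).trans (SV.mu _)) fun h1 => n2 (by
    have := congrArg M.ν (congrArg M.ν h1)
    rw [ν_μ, ν_μ] at this
    exact this.symm)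
  cases hB : (M.lab b).isB
  · obtain ⟨hk3, hv3⟩ := h3 hB
    have e3 : M.μ (M.μ (M.μ b)) = b := by
      have h1 : M.ν (M.ν (M.ν b)) = b := M.n3 b hB
      conv_lhs => rw [← h1]
      rw [μ_ν, μ_ν, μ_ν]
    interval_cases k
    · show mwf f M mn b = _
      rw [mwf_eq4, e3, hμ1, hμ2, hv3]
      simp [hf]
    · show mwf f M mn (M.ν b) = _
      rw [mwf_eq4, μ_ν, hν1, hμ1, hμ2]
      simp [hf]
    · show mwf f M mn (M.ν (M.ν b)) = _
      rw [mwf_eq4, μ_ν, μ_ν, hν1, hν2, hμ1]
      simp [hf]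
  · have h4 : M.ν (M.ν (M.ν (M.ν b))) = b := M.n4 b hB
    have n3 : M.ν (M.ν (M.ν b)) ≠ b := by
      rcases hv.n3 b with h | h
      · exact h
      · rw [hB] at h; exact absurd h (by decide)
    have hν3 : mn (M.ν (M.ν (M.ν b))) = .non :=
      h _ (((SV.nu b).trans (SV.nu _)).trans (SV.nu _)) n3
    have hμ3 : mn (M.μ (M.μ (M.μ b))) = .non := h _ (((SV.mu b).trans (SV.mu _)).trans (SV.mu _))
      fun h1 => n3 (by
        have := congrArg M.ν (congrArg M.ν (congrArg M.ν h1))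
        rw [ν_μ, ν_μ, ν_μ] at this
        exact this.symm)
    interval_cases k
    · show mwf f M mn b = _
      rw [mwf_eq4, hμ1, hμ2, hμ3]
      simp [hf]
    · show mwf f M mn (M.ν b) = _
      rw [mwf_eq4, μ_ν, hν1, hμ1, hμ2]
      simp [hf]
    · show mwf f M mn (M.ν (M.ν b)) = _
      rw [mwf_eq4, μ_ν, μ_ν, hν1, hν2, hμ1]
      simp [hf]
    · show mwf f M mn (M.ν (M.ν (M.ν b))) = _
      rw [mwf_eq4, μ_ν, μ_ν, μ_ν, hν1, hν2, hν3]
      simp [hf]

/-! ## Link states, boxes, stars and harmless docks of a level -/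

/-- the corner number `k` of the vertex with the base corner `b` -/
abbrev cn (M : BM D) (b : D) (k : ℕ) : D := (M.ν)^[k] b

/-- the states of a level -/
structure Bxs (M : BM D) (W : D → Prop) (T : RT M.E) (cl : D → Prop) (rc : D → Rc D)
    (J : Type*) where
  lk : D → LS
  lkE : ∀ x, lk (M.E x) = lk x
  /-- links with a box; `some z`: the fourth corner is present (and of the class of the child for
  `M3`, `M4`, of the other class for `M1`, `M2`) -/
  wz : D → Option Bool
  wzE : ∀ x, wz (M.E x) = wz x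
  /-- base corners of the stars, side of the host, port at the corner `4`, sign of the letter at the
  host in reading order -/
  v : J → D
  P : J → Bool
  t : J → Bool
  o : J → Bool
  /-- base corners of the harmless docks -/
  H : D → Prop
  vlab : ∀ j, M.lab (v j) = .B3
  vh : ∀ j, T.G (cn M (v j) (if P j then 0 else 1)) ∧
    (cl (cn M (v j) (if P j then 0 else 1)) ↔ P j = true)
  vb : ∀ j, ¬ T.G (cn M (v j) (if P j then 1 else 0))
  v2 : ∀ j, T.G (cn M (v j) 2) ∧ ¬ cl (cn M (v j) 2)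
  v3 : ∀ j, T.G (cn M (v j) 3) ∧ cl (cn M (v j) 3)
  vw4 : ∀ j z, SV M (v j) z → W z
  /-- the main link at a star is `M3` (`P = true`) or `M4` -/
  vu : ∀ j y, T.G y → T.dep y ≠ 0 → mk' M (rc y) → SV M (v j) (rc y).hc →
    (rc y).kd = (if P j then .m3 else .m4)
  inj : ∀ j j', SV M (v j) (v j') → j = j'
  hlab : ∀ b, H b → M.lab b = .B3
  hk : ∀ b, H b → (T.G b ∧ cl b ∧ ¬ T.G (cn M b 1) ∧ ¬ T.G (cn M b 2) ∧ T.G (cn M b 3) ∧
      cl (cn M b 3)) ∨
    (¬ T.G b ∧ T.G (cn M b 1) ∧ ¬ cl (cn M b 1) ∧ T.G (cn M b 2) ∧ ¬ cl (cn M b 2) ∧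
      ¬ T.G (cn M b 3))
  hw4 : ∀ b z, H b → SV M b z → W z
  hu : ∀ b y, H b → T.G y → T.dep y ≠ 0 → mk' M (rc y) → ¬ SV M b (rc y).hc
  hinj : ∀ b b', H b → H b' → SV M b b' → b = b'
  hvj : ∀ b j, H b → ¬ SV M (v j) b
  /-- links with a box are main links at bad tripods without a star -/
  wB : ∀ y, T.G y → T.dep y ≠ 0 → wz y ≠ none → mk' M (rc y) ∧ (M.lab (rc y).hc).isB = true ∧
    ¬ T.G (bxl M (rc y)) ∧ ∀ j, ¬ SV M (v j) (rc y).hc
  /-- the fourth corner -/
  wk : ∀ y z, T.G y → T.dep y ≠ 0 → wz y = some z →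
    ((rc y).kd = .m1 → T.G (cn M (bas M (rc y)) 3) ∧ ¬ cl (cn M (bas M (rc y)) 3)) ∧
    ((rc y).kd = .m2 → T.G (cn M (bas M (rc y)) 2) ∧ cl (cn M (bas M (rc y)) 2)) ∧
    ((rc y).kd = .m3 → (z = true → T.G (cn M (bas M (rc y)) 2) ∧ cl (cn M (bas M (rc y)) 2)) ∧
      (z = false → ¬ T.G (cn M (bas M (rc y)) 2))) ∧
    ((rc y).kd = .m4 → (z = true → T.G (cn M (bas M (rc y)) 3) ∧ ¬ cl (cn M (bas M (rc y)) 3)) ∧
      (z = false → ¬ T.G (cn M (bas M (rc y)) 3)))
  /-- near and near only at real links and at the root link -/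
  leg : ∀ y, T.G y → T.dep y ≠ 0 → lk y = .nn → (rc y).kd = .real ∨ (rc y).kd = .root

namespace Bxs

variable {W : D → Prop} {T : RT M.E} {cl : D → Prop} {rc : D → Rc D} {J : Type*}
  (S : Bxs M W T cl rc J)

open Classical in
/-- what is at the vertex of the link of `y` -/
noncomputable def inf (y : D) : BI :=
  if h : ∃ j, SV M (S.v j) (rc y).hc then .q (S.t h.choose) (S.o h.choose)
  else match S.wz y with
    | some z => .w z
    | none => .n

/-- the kind of the link of `y` -/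
noncomputable def κ (y : D) : LKd := kap M (rc y) (S.inf y)

/-- the base corner of the link of `y` -/
def bs (_ : Bxs M W T cl rc J) (y : D) : D := bas M (rc y)

/-- `b` is the base corner of the main link of `y` -/
def IsM (b y : D) : Prop := T.G y ∧ T.dep y ≠ 0 ∧ mk' M (rc y) ∧ S.bs y = b

/-- `b` is the base corner of the gate link of `y` -/
def IsG (b y : D) : Prop := T.G y ∧ T.dep y ≠ 0 ∧ gk M (rc y) ∧ S.bs y = b

/-- **the vertex with the base corner `b` has the kind `κ` and the state `st`** -/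
def Vd (b : D) (κ : LKd) (st : LS) : Prop :=
  (∃ y, S.IsM b y ∧ S.κ y = κ ∧ S.lk y = st) ∨
  (∃ j, S.v j = b ∧ (∀ y, ¬ S.IsM b y) ∧ κ = .q (S.P j) (S.t j) (S.o j) ∧ st = .drop) ∨
  (S.H b ∧ ((T.G b ∧ κ = .w 2 false) ∨ (¬ T.G b ∧ κ = .w 3 false)) ∧ st = .drop)

open Classical in
/-- the main states -/
noncomputable def mn (b : D) : Sq :=
  if h : ∃ p : LKd × LS, S.Vd b p.1 p.2 then h.choose.1.sq h.choose.2 else .non

open Classical in
/-- the gate links -/
noncomputable def gt (b : D) : M9 :=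
  if h : ∃ y, S.IsG b y then
    match S.κ h.choose with
    | .g a => some (a, S.lk h.choose)
    | _ => none
  else none

/-- the letters of the stars and the riders at the corners of the level -/
noncomputable def lwd (x : D) : Wd := mwf Sq.lvis M S.mn x

/-- the letters of the stars -/
noncomputable def swd (x : D) : Wd := mwf Sq.svis M S.mn x

/-- corners of the letters -/
def Lt (x : D) : Prop := ∃ j, x = cn M (S.v j) (LKd.q (S.P j) (S.t j) (S.o j)).hi ∨
  x = cn M (S.v j) (LKd.q (S.P j) (S.t j) (S.o j)).tn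

/-- the corner of a box -/
def IsBC (c : D) : Prop := ∃ b κ st, S.Vd b κ st ∧ κ.bx = true ∧ c = cn M b (κ.bi st)

/-- values of the lanes in which both lanes of every box have the same value -/
structure BoxV (V : D × ℕ → B) : Prop where
  inv : LamInv M V
  bx : ∀ b κ st, S.Vd b κ st → κ.bx = true → V (b, 1) = V (b, 2)

/-- the word of a link at its host and at its circle; `rx` = the lanes of the root link -/
noncomputable def hw (rx : Wd) (y : D) : Wd :=
  if (rc y).kd = .root then rx else (S.κ y).hv (S.lk y)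

/-- the word of a link at its circle -/
noncomputable def cw (rx : Wd) (y : D) : Wd :=
  if (rc y).kd = .root then rx.reverse else (S.κ y).cv (S.lk y)

/-- **the facts about a used vertex** -/
structure VdF (b : D) (κ : LKd) (st : LS) : Prop where
  mn : S.mn b = κ.sq st
  nn : S.mn b ≠ .non
  ok : κ.ok st = true
  oth : ∀ z, SV M b z → z ≠ b → S.mn z = .non
  hG : T.G (cn M b κ.hi) ∧ (cl (cn M b κ.hi) ↔ κ.hc = true)
  cG : T.G (cn M b κ.ci) ∧ (cl (cn M b κ.ci) ↔ κ.cc = true)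
  bG : κ.bx = true → ¬ T.G (cn M b (κ.bi st))
  th : ∀ n c, κ.th = some (n, c) → T.G (cn M b n) ∧ (cl (cn M b n) ↔ c = true)
  b3 : (M.lab b).isB = false → ∃ a, κ = .e a ∨ κ = .k a
  b4 : (M.lab b).isB = true → M.lab b = .B3 ∧ (∀ z, SV M b z → W z) ∧
    ((∃ i, κ = .m i) ∨ (∃ i z, κ = .w i z) ∨ ∃ P t o, κ = .q P t o)
  /-- the words at the corners -/
  wd : ∀ k, k < 4 → ((M.lab b).isB = false → k < 3) →
    mw tb M S.mn (cn M b k) = κ.wv st k ∧ S.lwd (cn M b k) = κ.lv' st k ∧
    (S.swd (cn M b k) = if κ.isR st then [] else κ.lv' st k)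

end Bxs


/-! ## Facts about kinds and words of the states -/

namespace LKd

lemma svis_eq (κ : LKd) (st : LS) (k : ℕ) :
    Sq.svis (κ.sq st) k = if κ.isR st then [] else κ.lv' st k := by
  unfold lv'
  rcases κ with a | a | j | ⟨j, z⟩ | ⟨P, t, o⟩ | a
  · rfl
  · rfl
  · fin_cases j <;> rfl
  · fin_cases j <;> cases z <;> cases st <;> rfl
  · rfl
  · rfl

lemma sq_ne (κ : LKd) (st : LS) (h : ∀ a, κ ≠ .g a) : κ.sq st ≠ .non := by
  rcases κ with a | a | j | ⟨j, z⟩ | ⟨P, t, o⟩ | a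
  · intro h; cases h
  · intro h; cases h
  · fin_cases j <;> (intro h; cases h)
  · fin_cases j <;> cases z <;> cases st <;> (intro h; cases h)
  · intro h; cases h
  · exact absurd rfl (h a)

lemma wv_eq (κ : LKd) (st : LS) (k : ℕ) (h : ∀ a, κ ≠ .g a) :
    (κ.sq st).vis k = κ.wv st k := by
  rcases κ with a | a | j | ⟨j, z⟩ | ⟨P, t, o⟩ | a
  · rfl
  · rfl
  · rfl
  · rfl
  · rfl
  · exact absurd rfl (h a)

lemma hi_lt (κ : LKd) (st : LS) : κ.hi < 4 ∧ κ.ci < 4 ∧ κ.bi st < 4 := by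
  rcases κ with a | a | j | ⟨j, z⟩ | ⟨P, t, o⟩ | a
  · cases a <;> cases st <;> decide
  · cases a <;> cases st <;> decide
  · fin_cases j <;> cases st <;> decide
  · fin_cases j <;> cases z <;> cases st <;> decide
  · cases P <;> cases t <;> cases o <;> cases st <;> decide
  · cases a <;> cases st <;> decide

lemma isR_iff {κ : LKd} {st : LS} : κ.isR st = true ↔ (∃ i z, κ = .w i z) ∧ st = .drop := by
  rcases κ with a | a | j | ⟨j, z⟩ | ⟨P, t, o⟩ | a
  · simp [isR]
  · simp [isR]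
  · simp [isR]
  · simp [isR]
  · simp [isR]
  · simp [isR]

/-- the words at the corners of the link; `b`: the word of the link is before the letter -/
lemma wh_pl (κ : LKd) (st : LS) (b : Prop) [Decidable b]
    (hb : ∀ P t o, κ = .q P t o → (b ↔ P = true)) :
    κ.wh st = (if b then κ.hv st ++ κ.lv' st κ.hi else κ.lv' st κ.hi ++ κ.hv st) ∧
    κ.wc st = (if b then κ.lv' st κ.ci ++ κ.cv st else κ.cv st ++ κ.lv' st κ.ci) := by
  by_cases hq : ∃ P t o, κ = .q P t o
  · obtain ⟨P, t, o, rfl⟩ := hq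
    have h1 := hb P t o rfl
    unfold wh wc
    have h2 : (LKd.q P t o).bef = P := rfl
    rw [h2]
    by_cases h : b
    · rw [if_pos (h1.1 h), if_pos (h1.1 h), if_pos h, if_pos h]
      exact ⟨rfl, rfl⟩
    · have h3 : ¬ P = true := fun h' => h (h1.2 h')
      rw [if_neg h3, if_neg h3, if_neg h, if_neg h]
      exact ⟨rfl, rfl⟩
  · cases hr : κ.isR st
    · have h1 : ∀ i, κ.lv' st i = [] := κ.noL st hr fun P t o h => hq ⟨P, t, o, h⟩
      unfold wh wc
      rw [h1, h1]
      constructor <;> split_ifs <;> simp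
    · obtain ⟨-, rfl⟩ := isR_iff.1 hr
      unfold wh wc
      rw [hv_drop, cv_drop]
      constructor <;> split_ifs <;> simp

end LKd

section Facts

lemma mk_uses {r : Rc D} : mk' M r ↔ Uses M r := by
  unfold mk' gk Uses
  constructor
  · rintro ⟨h1, h2⟩
    push Not at h1
    exact ⟨⟨h1.1, h2⟩, fun h => by simpa using h1.2 h⟩
  · rintro ⟨⟨h1, h2⟩, h3⟩
    refine ⟨?_, h2⟩
    rintro (h | ⟨h, h'⟩)
    · exact h1 h
    · rw [h3 h] at h'; exact absurd h' (by decide)

lemma b3_cases {b b' : D} (h : M.lab b = .B3) (h' : M.lab b' = .B3) (hs : SV M b b') :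
    b' = b ∨ b' = cn M b 2 := by
  have hB : (M.lab b).isB = true := by rw [h]; rfl
  rcases hs.cases4 hB with e | e | e | e
  · exact Or.inl e
  · exfalso
    rw [e, lab_ν, h] at h'
    exact absurd h' (by decide)
  · exact Or.inr e
  · exfalso
    rw [e, lab_ν, lab_ν, lab_ν, h] at h'
    exact absurd h' (by decide)

lemma cn_of_sv {x b : D} (h : SV M b x) : ∃ k, k < 4 ∧ ((M.lab b).isB = false → k < 3) ∧
    x = cn M b k := by
  cases hB : (M.lab b).isB
  · rcases h.cases3 hB with e | e | e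
    · exact ⟨0, by omega, fun _ => by omega, e⟩
    · exact ⟨1, by omega, fun _ => by omega, e⟩
    · exact ⟨2, by omega, fun _ => by omega, e⟩
  · rcases h.cases4 hB with e | e | e | e
    · exact ⟨0, by omega, fun h => by simp at h, e⟩
    · exact ⟨1, by omega, fun h => by simp at h, e⟩
    · exact ⟨2, by omega, fun h => by simp at h, e⟩
    · exact ⟨3, by omega, fun h => by simp at h, e⟩

lemma cn4 {b : D} (h : (M.lab b).isB = true) (k : ℕ) : cn M b (k + 4) = cn M b k := by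
  show (M.ν)^[k + 4] b = _
  rw [Function.iterate_add_apply]
  show (M.ν)^[k] (M.ν (M.ν (M.ν (M.ν b)))) = _
  have h4 : M.ν (M.ν (M.ν (M.ν b))) = b := M.n4 b h
  rw [h4]

lemma cn_add (b : D) (k l : ℕ) : cn M (cn M b k) l = cn M b (l + k) := by
  show (M.ν)^[l] ((M.ν)^[k] b) = _
  rw [← Function.iterate_add_apply]

lemma cn_sv (b : D) (k : ℕ) : SV M b (cn M b k) := ⟨_, rfl⟩

end Facts

namespace Bxs

variable {W : D → Prop} {T : RT M.E} {cl : D → Prop} {rc : D → Rc D} {J : Type*}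
  (S : Bxs M W T cl rc J)

variable [Finite D] {x0 : D}

section

variable (L : LI M W x0 T cl rc)
include L

omit S in
lemma rc_c {x y : D} (h : M.E.SameCycle x y) : rc y = rc x := cyc_const L.rE h

lemma lk_c {x y : D} (h : M.E.SameCycle x y) : S.lk y = S.lk x ∧ S.wz y = S.wz x :=
  ⟨cyc_const S.lkE h, cyc_const S.wzE h⟩

lemma inf_c {x y : D} (h : M.E.SameCycle x y) : S.inf y = S.inf x := by
  have h1 := rc_c L h
  have h2 := (S.lk_c L h).2
  unfold inf
  rw [h1, h2]

lemma κ_c {x y : D} (h : M.E.SameCycle x y) : S.κ y = S.κ x ∧ S.bs y = S.bs x := by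
  unfold κ bs
  rw [rc_c L h, S.inf_c L h]
  exact ⟨rfl, rfl⟩

lemma kok {y : D} (hy : T.G y) (hd : T.dep y ≠ 0) (hr : (rc y).kd ≠ .root) :
    KapOK M cl (rc y) (S.inf y) := kap_ok (L.ok y hy hd) hr _

lemma sv_bs {y : D} : SV M (rc y).hc (S.bs y) := sv_bas _

lemma isM_uniq {b b' y y' : D} (h : S.IsM b y) (h' : S.IsM b' y') (hs : SV M b b') :
    M.E.SameCycle y y' ∧ b' = b := by
  have h1 : M.E.SameCycle y y' := by
    refine L.uniq y y' h.1 h.2.1 (mk_uses.1 h.2.2.1) h'.1 h'.2.1 (mk_uses.1 h'.2.2.1) ?_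
    have e1 := S.sv_bs L (y := y)
    have e2 := S.sv_bs L (y := y')
    rw [h.2.2.2] at e1
    rw [h'.2.2.2] at e2
    exact (e1.trans hs).trans e2.symm
  exact ⟨h1, by rw [← h.2.2.2, ← h'.2.2.2, (S.κ_c L h1).2]⟩

omit L in
/-- `inf` at a star -/
lemma inf_star {y : D} {j : J} (h : SV M (S.v j) (rc y).hc) : S.inf y = .q (S.t j) (S.o j) := by
  have h1 : ∃ j, SV M (S.v j) (rc y).hc := ⟨j, h⟩
  unfold inf
  rw [dif_pos h1]
  have h2 : h1.choose = j := S.inj _ _ (h1.choose_spec.trans h.symm)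
  rw [h2]

omit L in
/-- `inf` without a star -/
lemma inf_not {y : D} (h : ∀ j, ¬ SV M (S.v j) (rc y).hc) :
    (S.wz y = none ∧ S.inf y = .n) ∨ ∃ z, S.wz y = some z ∧ S.inf y = .w z := by
  have h1 : ¬ ∃ j, SV M (S.v j) (rc y).hc := fun ⟨j, hj⟩ => h j hj
  unfold inf
  rw [dif_neg h1]
  cases hz : S.wz y with
  | none => exact Or.inl ⟨rfl, rfl⟩
  | some z => exact Or.inr ⟨z, rfl, rfl⟩

/-- a main link at a star -/
lemma isM_star {b y : D} {j : J} (h : S.IsM b y) (hs : SV M (S.v j) b) :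
    b = S.v j ∧ S.κ y = .q (S.P j) (S.t j) (S.o j) ∧ (rc y).kd = (if S.P j then .m3 else .m4) ∧
      ((rc y).pl = .bef ↔ S.P j = true) ∧ (rc y).pl ≠ .dia := by
  obtain ⟨hy, hd, hm, rfl⟩ := h
  have hsv : SV M (S.v j) (rc y).hc := hs.trans (S.sv_bs L).symm
  have hi := S.inf_star hsv
  have hk := S.vu j y hy hd hm hsv
  have hB : (M.lab (rc y).hc).isB = true := by rw [hsv.isB, S.vlab j]; rfl
  have hK := S.kok L hy hd hm.2
  obtain ⟨hlab, hc⟩ := hK.b4 hm hB
  have e1 := hK.h
  have e2 := hK.c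
  have e3 := hK.ch
  have e4 := hK.cc
  have hh := S.vh j
  have h2 := S.v2 j
  have h3 := S.v3 j
  have hG := (L.ok y hy hd).p.G_hc hy hd
  have hbs : S.bs y = bas M (rc y) := rfl
  cases hP : S.P j
  · rw [hP] at hk hh
    simp only [Bool.false_eq_true, if_false] at hk hh
    have hκ : kap M (rc y) (S.inf y) = .q false (S.t j) (S.o j) := by
      rw [hi]; unfold kap; rw [hk]
    have hpl : (rc y).pl = .aft := by
      rcases hc with ⟨h1, -⟩ | ⟨h1, -⟩ | ⟨h1, -⟩ | ⟨h1, h2, -⟩
      · rw [hk] at h1; exact absurd h1 (by decide)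
      · rw [hk] at h1; exact absurd h1 (by decide)
      · rw [hk] at h1; exact absurd h1 (by decide)
      · exact h2
    refine ⟨?_, by unfold κ; rw [hκ], hk, by rw [hpl]; decide, by rw [hpl]; decide⟩
    rcases b3_cases (S.vlab j) (hbs ▸ hlab) hs with e | e
    · exact e
    · exfalso
      rw [hκ] at e1 e3
      have e5 : (rc y).hc = cn M (S.v j) 3 := by
        rw [e1, ← hbs, e]
        rfl
      have : ¬ cl (rc y).hc := fun h => absurd (e3.1 h) (by simp [LKd.hc])
      rw [e5] at this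
      exact this h3.2
  · rw [hP] at hk hh
    simp only [if_true] at hk hh
    have hκ : kap M (rc y) (S.inf y) = .q true (S.t j) (S.o j) := by
      rw [hi]; unfold kap; rw [hk]
    have hpl : (rc y).pl = .bef := by
      rcases hc with ⟨h1, -⟩ | ⟨h1, -⟩ | ⟨h1, h2, -⟩ | ⟨h1, -⟩
      · rw [hk] at h1; exact absurd h1 (by decide)
      · rw [hk] at h1; exact absurd h1 (by decide)
      · exact h2
      · rw [hk] at h1; exact absurd h1 (by decide)
    refine ⟨?_, by unfold κ; rw [hκ], hk, by rw [hpl]; decide, by rw [hpl]; decide⟩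
    rcases b3_cases (S.vlab j) (hbs ▸ hlab) hs with e | e
    · exact e
    · exfalso
      rw [hκ] at e1 e3
      have e5 : (rc y).hc = cn M (S.v j) 2 := by
        rw [e1, ← hbs, e]
        rfl
      have : cl (rc y).hc := e3.2 (by simp [LKd.hc])
      rw [e5] at this
      exact h2.2 this

/-- the kinds of the main links -/
lemma isM_kap {b y : D} (h : S.IsM b y) :
    ((M.lab b).isB = false ∧ ∃ a, S.κ y = .e a ∨ S.κ y = .k a) ∨
    (M.lab b = .B3 ∧ (∀ j, ¬ SV M (S.v j) b) ∧ ∃ i, kap M (rc y) .n = .m i ∧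
      ((rc y).pl = .dia ∨ (rc y).kd = .m3 ∨ (rc y).kd = .m4) ∧
      ((S.wz y = none ∧ S.κ y = .m i) ∨ ∃ z, S.wz y = some z ∧ S.κ y = .w i z)) ∨
    (∃ j, b = S.v j ∧ S.κ y = .q (S.P j) (S.t j) (S.o j) ∧
      (rc y).kd = (if S.P j then .m3 else .m4) ∧
      ((rc y).pl = .bef ↔ S.P j = true) ∧ (rc y).pl ≠ .dia) := by
  have hs := S.sv_bs L (y := y)
  rw [h.2.2.2] at hs
  have hK := S.kok L h.1 h.2.1 h.2.2.1.2
  have hb : bas M (rc y) = b := h.2.2.2
  cases hB : (M.lab (rc y).hc).isB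
  · left
    obtain ⟨h1, h2⟩ := hK.b3 h.2.2.1 hB
    rw [hb] at h2
    exact ⟨h2, h1⟩
  · right
    by_cases hj : ∃ j, SV M (S.v j) b
    · right
      obtain ⟨j, hj⟩ := hj
      exact ⟨j, S.isM_star L h hj⟩
    · left
      push Not at hj
      obtain ⟨h1, h2⟩ := hK.b4 h.2.2.1 hB
      rw [hb] at h1
      refine ⟨h1, hj, ?_⟩
      have hinf := S.inf_not (y := y) fun j hj' => hj j (hj'.trans hs)
      rcases h2 with ⟨h2, h3, h4⟩ | ⟨h2, h3, h4⟩ | ⟨h2, h3, h4⟩ | ⟨h2, h3, h4⟩
      · refine ⟨0, h4, Or.inl h3, ?_⟩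
        rcases hinf with ⟨h5, h6⟩ | ⟨z, h5, h6⟩
        · left; refine ⟨h5, ?_⟩; unfold κ kap; rw [h2, h6]
        · right; refine ⟨z, h5, ?_⟩; unfold κ kap; rw [h2, h6]
      · refine ⟨1, h4, Or.inl h3, ?_⟩
        rcases hinf with ⟨h5, h6⟩ | ⟨z, h5, h6⟩
        · left; refine ⟨h5, ?_⟩; unfold κ kap; rw [h2, h6]
        · right; refine ⟨z, h5, ?_⟩; unfold κ kap; rw [h2, h6]
      · refine ⟨2, h4, Or.inr (Or.inl h2), ?_⟩
        rcases hinf with ⟨h5, h6⟩ | ⟨z, h5, h6⟩
        · left; refine ⟨h5, ?_⟩; unfold κ kap; rw [h2, h6]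
        · right; refine ⟨z, h5, ?_⟩; unfold κ kap; rw [h2, h6]
      · refine ⟨3, h4, Or.inr (Or.inr h2), ?_⟩
        rcases hinf with ⟨h5, h6⟩ | ⟨z, h5, h6⟩
        · left; refine ⟨h5, ?_⟩; unfold κ kap; rw [h2, h6]
        · right; refine ⟨z, h5, ?_⟩; unfold κ kap; rw [h2, h6]

/-- the kind of a used vertex is not that of a gate link -/
lemma vd_ng {b : D} {κ : LKd} {st : LS} (h : S.Vd b κ st) (a : Bool) : κ ≠ .g a := by
  rcases h with ⟨y, h1, rfl, -⟩ | ⟨j, -, -, rfl, -⟩ | ⟨-, ⟨-, rfl⟩ | ⟨-, rfl⟩, -⟩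
  · rcases S.isM_kap L h1 with ⟨-, a', h2 | h2⟩ | ⟨-, -, i, -, -, ⟨-, h2⟩ | ⟨z, -, h2⟩⟩ |
      ⟨j, -, h2, -⟩ <;> rw [h2] <;> simp
  · simp
  · simp
  · simp

/-- **one kind and one state at a vertex** -/
lemma vd_uniq {b b' : D} {κ κ' : LKd} {st st' : LS} (h : S.Vd b κ st) (h' : S.Vd b' κ' st')
    (hs : SV M b b') : b' = b ∧ κ' = κ ∧ st' = st := by
  rcases h with ⟨y, h1, rfl, rfl⟩ | ⟨j, rfl, h1, rfl, rfl⟩ | ⟨h1, h2, rfl⟩
  · rcases h' with ⟨y', h1', rfl, rfl⟩ | ⟨j', rfl, h1', rfl, rfl⟩ | ⟨h1', h2', rfl⟩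
    · obtain ⟨h3, h4⟩ := S.isM_uniq L h1 h1' hs
      exact ⟨h4, (S.κ_c L h3).1, (S.lk_c L h3).1⟩
    · exfalso
      obtain ⟨h3, -⟩ := S.isM_star L h1 hs.symm
      rw [h3] at h1
      exact h1' y h1
    · exfalso
      refine S.hu b' y h1' h1.1 h1.2.1 h1.2.2.1 ?_
      have := S.sv_bs L (y := y)
      rw [h1.2.2.2] at this
      exact (this.trans hs).symm
  · rcases h' with ⟨y', h1', rfl, rfl⟩ | ⟨j', rfl, h1', rfl, rfl⟩ | ⟨h1', h2', rfl⟩
    · exfalso
      obtain ⟨h3, -⟩ := S.isM_star L h1' hs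
      rw [h3] at h1'
      exact h1 y' h1'
    · have := S.inj _ _ hs
      subst this
      exact ⟨rfl, rfl, rfl⟩
    · exact absurd hs (S.hvj b' j h1')
  · rcases h' with ⟨y', h1', rfl, rfl⟩ | ⟨j', rfl, h1', rfl, rfl⟩ | ⟨h1', h2', rfl⟩
    · exfalso
      refine S.hu b y' h1 h1'.1 h1'.2.1 h1'.2.2.1 ?_
      have := S.sv_bs L (y := y')
      rw [h1'.2.2.2] at this
      exact hs.trans this.symm
    · exact absurd hs.symm (S.hvj b j' h1)
    · have := S.hinj b b' h1 h1' hs
      subst this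
      refine ⟨rfl, ?_, rfl⟩
      rcases h2 with ⟨h2, h3⟩ | ⟨h2, h3⟩ <;> rcases h2' with ⟨h4, h5⟩ | ⟨h4, h5⟩
      · rw [h3, h5]
      · exact absurd h2 h4
      · exact absurd h4 h2
      · rw [h3, h5]

/-- the main state of a used vertex -/
lemma mn_vd {b : D} {κ : LKd} {st : LS} (h : S.Vd b κ st) : S.mn b = κ.sq st := by
  unfold mn
  have h1 : ∃ p : LKd × LS, S.Vd b p.1 p.2 := ⟨(κ, st), h⟩
  rw [dif_pos h1]
  obtain ⟨-, h2, h3⟩ := S.vd_uniq L h h1.choose_spec (SV.refl _)
  rw [h2, h3]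

omit L in
/-- a vertex with a main state is used -/
lemma mn_ne {b : D} (h : S.mn b ≠ .non) : ∃ κ st, S.Vd b κ st := by
  unfold mn at h
  split_ifs at h with h1
  · obtain ⟨p, hp⟩ := h1
    exact ⟨p.1, p.2, hp⟩
  · exact absurd rfl h

/-- the other corners of a used vertex -/
lemma mn_oth {b z : D} {κ : LKd} {st : LS} (h : S.Vd b κ st) (hs : SV M b z) (hz : z ≠ b) :
    S.mn z = .non := by
  by_contra h1
  obtain ⟨κ', st', h2⟩ := S.mn_ne h1
  exact hz (S.vd_uniq L h h2 hs).1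

/-- the kind of a main link at a bad tripod -/
lemma kd_mn {y : D} (hy : T.G y) (hd : T.dep y ≠ 0) (hm : mk' M (rc y))
    (hB : (M.lab (rc y).hc).isB = true) : (rc y).kd.mn := by
  have hk := (L.ok y hy hd).k
  have hccB : (M.lab (rc y).cc).isB = true := by
    rw [(L.ok y hy hd).p.sv.isB]; exact hB
  unfold KdOK KdP at hk
  unfold Kd.mn
  rcases hkd : (rc y).kd with _ | _ | _ | _ | _ | _ | _ | _ | _ | _ | _ <;> rw [hkd] at hk
  · exact absurd (Or.inr ⟨hkd, hB⟩) hm.1
  · rw [hk.2.2.2.1] at hB; exact absurd hB (by decide)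
  · rw [hk.2.2.2.1] at hB; exact absurd hB (by decide)
  · rw [hk.2.1] at hccB; exact absurd hccB (by decide)
  · rw [hk.2.1] at hB; exact absurd hB (by decide)
  · trivial
  · trivial
  · trivial
  · trivial
  · exact absurd (Or.inl hkd) hm.1
  · exact absurd hkd hm.2

/-- the facts without the words -/
structure VdG (b : D) (κ : LKd) (st : LS) : Prop where
  ok : κ.ok st = true
  hG : T.G (cn M b κ.hi) ∧ (cl (cn M b κ.hi) ↔ κ.hc = true)
  cG : T.G (cn M b κ.ci) ∧ (cl (cn M b κ.ci) ↔ κ.cc = true)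
  bG : κ.bx = true → ¬ T.G (cn M b (κ.bi st))
  th : ∀ n c, κ.th = some (n, c) → T.G (cn M b n) ∧ (cl (cn M b n) ↔ c = true)
  b3 : (M.lab b).isB = false → ∃ a, κ = .e a ∨ κ = .k a
  b4 : (M.lab b).isB = true → M.lab b = .B3 ∧ (∀ z, SV M b z → W z) ∧
    ((∃ i, κ = .m i) ∨ (∃ i z, κ = .w i z) ∨ ∃ P t o, κ = .q P t o)

omit L [Finite D] in
/-- the facts about stars -/
lemma vdg_star (j : J) {st : LS} (hst : st ≠ .nn) :
    VdG (W := W) (T := T) (cl := cl) (S.v j) (.q (S.P j) (S.t j) (S.o j)) st := by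
  have hh := S.vh j
  have hb := S.vb j
  have h2 := S.v2 j
  have h3 := S.v3 j
  refine ⟨by simp [LKd.ok, hst], ?_, ?_, ?_, ?_, ?_, ?_⟩
  · show T.G (cn M (S.v j) (if S.P j then 0 else 1)) ∧
      (cl (cn M (S.v j) (if S.P j then 0 else 1)) ↔ S.P j = true)
    exact hh
  · show T.G (cn M (S.v j) (if S.P j then 3 else 2)) ∧
      (cl (cn M (S.v j) (if S.P j then 3 else 2)) ↔ S.P j = true)
    cases hP : S.P j
    · simp only [Bool.false_eq_true, if_false, iff_false]
      exact h2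
    · simp only [if_true, iff_true]
      exact h3
  · intro _
    show ¬ T.G (cn M (S.v j) (if S.P j then 1 else 0))
    exact hb
  · intro n c h
    have h4 : (if S.P j then some (2, false) else some (3, true)) = some (n, c) := h
    cases hP : S.P j
    · rw [hP] at h4
      simp only [Bool.false_eq_true, if_false, Option.some.injEq, Prod.mk.injEq] at h4
      rw [← h4.1, ← h4.2]
      simp only [iff_true]
      exact h3
    · rw [hP] at h4
      simp only [if_true, Option.some.injEq, Prod.mk.injEq] at h4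
      rw [← h4.1, ← h4.2]
      simp only [Bool.false_eq_true, iff_false]
      exact h2
  · intro h
    rw [S.vlab j] at h
    exact absurd h (by decide)
  · intro _
    exact ⟨S.vlab j, S.vw4 j, Or.inr (Or.inr ⟨_, _, _, rfl⟩)⟩

/-- **the facts about a used vertex, without the words** -/
theorem vdg {b : D} {κ : LKd} {st : LS} (h : S.Vd b κ st) :
    VdG (W := W) (T := T) (cl := cl) b κ st := by
  rcases h with ⟨y, h1, rfl, rfl⟩ | ⟨j, rfl, h1, rfl, rfl⟩ | ⟨h1, h2, rfl⟩
  · -- a main link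
    have hK := S.kok L h1.1 h1.2.1 h1.2.2.1.2
    have hb : bas M (rc y) = b := h1.2.2.2
    have e1 : (rc y).hc = cn M b (S.κ y).hi := by rw [← hb]; exact hK.h
    have e2 : (rc y).cc = cn M b (S.κ y).ci := by rw [← hb]; exact hK.c
    have e3 : cl (rc y).hc ↔ (S.κ y).hc = true := hK.ch
    have e4 : cl (rc y).cc ↔ (S.κ y).cc = true := hK.cc
    have g1 := (L.ok y h1.1 h1.2.1).p.G_hc h1.1 h1.2.1
    have g2 := (L.ok y h1.1 h1.2.1).p.G_cc h1.1
    have hs : SV M (rc y).hc b := by rw [← hb]; exact sv_bas _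
    rw [e1] at e3 g1
    rw [e2] at e4 g2
    have hnn : (M.lab b).isB = true → S.lk y ≠ .nn := by
      intro hB h
      have hB' : (M.lab (rc y).hc).isB = true := by rw [← hs.isB]; exact hB
      rcases S.leg y h1.1 h1.2.1 h with h | h
      · exact h1.2.2.1.1 (Or.inr ⟨h, hB'⟩)
      · exact h1.2.2.1.2 h
    have hW : (M.lab b).isB = true → ∀ z, SV M b z → W z := by
      intro hB z hz
      have hB' : (M.lab (rc y).hc).isB = true := by rw [← hs.isB]; exact hB
      exact L.w4 y h1.1 h1.2.1 (kd_mn L h1.1 h1.2.1 h1.2.2.1 hB') z (hs.trans hz)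
    rcases S.isM_kap L h1 with ⟨hl, a, hκ⟩ | ⟨hl, hj, i, hi, hpl, hκ⟩ | ⟨j, hj, hκ, -⟩
    · refine ⟨?_, ⟨g1, e3⟩, ⟨g2, e4⟩, ?_, ?_, fun _ => ⟨a, hκ⟩, fun h => ?_⟩
      · rcases hκ with hκ | hκ
        · rw [hκ]; rfl
        · rw [hκ]
          have : S.lk y ≠ .nn := by
            intro h
            rcases S.leg y h1.1 h1.2.1 h with h2 | h2
            · have h3 : kap M (rc y) (S.inf y) = .k a := hκ
              unfold kap at h3
              rw [h2] at h3
              simp only at h3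
              split_ifs at h3
            · exact h1.2.2.1.2 h2
          simp [LKd.ok, this]
      · rcases hκ with hκ | hκ <;> rw [hκ] <;> intro h <;> exact absurd h (by simp [LKd.bx])
      · rcases hκ with hκ | hκ <;> rw [hκ] <;> intro n c h <;> exact absurd h (by simp [LKd.th])
      · rw [hl] at h; exact absurd h (by decide)
    · have hB : (M.lab b).isB = true := by rw [hl]; rfl
      rcases hκ with ⟨-, hκ⟩ | ⟨z, hz, hκ⟩
      · refine ⟨?_, ⟨g1, e3⟩, ⟨g2, e4⟩, ?_, ?_, fun h => ?_,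
          fun _ => ⟨hl, hW hB, Or.inl ⟨i, hκ⟩⟩⟩
        · rw [hκ]; simp [LKd.ok, hnn hB]
        · rw [hκ]; intro h; exact absurd h (by simp [LKd.bx])
        · rw [hκ]; intro n c h; exact absurd h (by simp [LKd.th])
        · rw [hl] at h; exact absurd h (by decide)
      · obtain ⟨-, hB', hnb, -⟩ := S.wB y h1.1 h1.2.1 (by rw [hz]; simp)
        obtain ⟨w1, w2, w3, w4⟩ := S.wk y z h1.1 h1.2.1 hz
        rw [hb] at w1 w2 w3 w4
        have hk4 := (hK.b4 h1.2.2.1 hB').2
        have hbx : ¬ T.G (cn M b (if i = 0 ∨ i = 2 then 1 else 0)) := by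
          have h3 := hnb
          unfold bxl at h3
          rw [hi] at h3
          have e5 : (rc y).hc = cn M b (LKd.w i z).hi := by rw [e1, hκ]
          by_cases h4 : i = 0 ∨ i = 2
          · have h5 : (LKd.m i).hi = 0 := by simp [LKd.hi, h4]
            have h6 : (LKd.w i z).hi = 0 := by simp [LKd.hi, h4]
            rw [if_pos h5, e5, h6] at h3
            rw [if_pos h4]
            exact h3
          · have h5 : (LKd.m i).hi = 1 := by simp [LKd.hi, h4]
            have h6 : (LKd.w i z).hi = 1 := by simp [LKd.hi, h4]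
            rw [if_neg (by rw [h5]; decide), e5, h6] at h3
            rw [if_neg h4]
            have h7 : M.μ (cn M b 1) = cn M b 0 := μ_ν b
            rw [← h7]
            exact h3
        have hki : ∀ i', kap M (rc y) .n = .m i' → i' = i := by
          intro i' h
          rw [hi] at h
          injection h with h
          exact h.symm
        refine ⟨?_, ⟨g1, e3⟩, ⟨g2, e4⟩, ?_, ?_, fun h => ?_,
          fun _ => ⟨hl, hW hB, Or.inr (Or.inl ⟨i, z, hκ⟩)⟩⟩
        · rw [hκ]; simp [LKd.ok, hnn hB]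
        · intro _
          rw [hκ]
          show ¬ T.G (cn M b (if S.lk y = .drop ∧ z = false ∧ i = 2 then 2 else
            if S.lk y = .drop ∧ z = false ∧ i = 3 then 3 else if i = 0 ∨ i = 2 then 1 else 0))
          split_ifs with c1 c2 c3
          · rcases hk4 with ⟨k1, -, k3⟩ | ⟨k1, -, k3⟩ | ⟨k1, -, k3⟩ | ⟨k1, -, k3⟩
            · have := hki _ k3; rw [c1.2.2] at this; exact absurd this (by decide)
            · have := hki _ k3; rw [c1.2.2] at this; exact absurd this (by decide)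
            · exact (w3 k1).2 c1.2.1
            · have := hki _ k3; rw [c1.2.2] at this; exact absurd this (by decide)
          · rcases hk4 with ⟨k1, -, k3⟩ | ⟨k1, -, k3⟩ | ⟨k1, -, k3⟩ | ⟨k1, -, k3⟩
            · have := hki _ k3; rw [c2.2.2] at this; exact absurd this (by decide)
            · have := hki _ k3; rw [c2.2.2] at this; exact absurd this (by decide)
            · have := hki _ k3; rw [c2.2.2] at this; exact absurd this (by decide)
            · exact (w4 k1).2 c2.2.1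
          · rw [if_pos c3] at hbx; exact hbx
          · rw [if_neg c3] at hbx; exact hbx
        · intro n c h
          rw [hκ] at h
          rcases hk4 with ⟨k1, -, k3⟩ | ⟨k1, -, k3⟩ | ⟨k1, -, k3⟩ | ⟨k1, -, k3⟩
          · have h5 := hki _ k3
            subst h5
            have h4 : some (3, false) = some (n, c) := h
            simp only [Option.some.injEq, Prod.mk.injEq] at h4
            rw [← h4.1, ← h4.2]
            simp only [Bool.false_eq_true, iff_false]
            exact w1 k1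
          · have h5 := hki _ k3
            subst h5
            have h4 : some (2, true) = some (n, c) := h
            simp only [Option.some.injEq, Prod.mk.injEq] at h4
            rw [← h4.1, ← h4.2]
            simp only [iff_true]
            exact w2 k1
          · have h5 := hki _ k3
            subst h5
            cases z
            · exact absurd h (by simp [LKd.th])
            · have h4 : some (2, true) = some (n, c) := h
              simp only [Option.some.injEq, Prod.mk.injEq] at h4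
              rw [← h4.1, ← h4.2]
              simp only [iff_true]
              exact (w3 k1).1 rfl
          · have h5 := hki _ k3
            subst h5
            cases z
            · exact absurd h (by simp [LKd.th])
            · have h4 : some (3, false) = some (n, c) := h
              simp only [Option.some.injEq, Prod.mk.injEq] at h4
              rw [← h4.1, ← h4.2]
              simp only [Bool.false_eq_true, iff_false]
              exact (w4 k1).1 rfl
        · rw [hl] at h; exact absurd h (by decide)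
    · rw [hj, hκ]
      exact S.vdg_star j (hnn (by rw [hj, S.vlab j]; rfl))
  · exact S.vdg_star j (by decide)
  · have hk := S.hk b h1
    have hl := S.hlab b h1
    rcases h2 with ⟨h2, rfl⟩ | ⟨h2, rfl⟩
    · rcases hk with hk | hk
      · refine ⟨rfl, ⟨hk.1, ?_⟩, ⟨hk.2.2.2.2.1, ?_⟩, fun _ => hk.2.2.2.1, fun n c h => ?_,
          fun h => ?_, fun _ => ⟨hl, fun z => S.hw4 b z h1, Or.inr (Or.inl ⟨_, _, rfl⟩)⟩⟩
        · exact ⟨fun _ => by decide, fun _ => hk.2.1⟩
        · exact ⟨fun _ => by decide, fun _ => hk.2.2.2.2.2⟩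
        · exact absurd h (by simp [LKd.th])
        · rw [hl] at h; exact absurd h (by decide)
      · exact absurd h2 hk.1
    · rcases hk with hk | hk
      · exact absurd hk.1 h2
      · refine ⟨rfl, ⟨hk.2.1, ?_⟩, ⟨hk.2.2.2.1, ?_⟩, fun _ => hk.2.2.2.2.2, fun n c h => ?_,
          fun h => ?_, fun _ => ⟨hl, fun z => S.hw4 b z h1, Or.inr (Or.inl ⟨_, _, rfl⟩)⟩⟩
        · exact ⟨fun h => absurd h hk.2.2.1, fun h => absurd h (by decide)⟩
        · exact ⟨fun h => absurd h hk.2.2.2.2.1, fun h => absurd h (by decide)⟩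
        · exact absurd h (by simp [LKd.th])
        · rw [hl] at h; exact absurd h (by decide)

/-- **the facts about a used vertex** -/
theorem vdF (hv : Val M) {b : D} {κ : LKd} {st : LS} (h : S.Vd b κ st) : S.VdF b κ st := by
  have hg := S.vdg L h
  have hng := S.vd_ng L h
  have hmn := S.mn_vd L h
  refine ⟨hmn, ?_, hg.ok, fun z hz hzb => S.mn_oth L h hz hzb, hg.hG, hg.cG, hg.bG, hg.th, hg.b3,
    hg.b4, ?_⟩
  · rw [hmn]; exact κ.sq_ne st hng
  · intro k hk hk3
    have ho : ∀ z, SV M b z → z ≠ b → S.mn z = .non := fun z hz hzb => S.mn_oth L h hz hzb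
    have e : ∀ f : Sq → ℕ → Wd, (∀ i, f .non i = []) → (∀ ky a s, f (.l ky a s) 3 = []) →
        mwf f M S.mn (cn M b k) = f (κ.sq st) k := by
      intro f hf hf'
      rw [← hmn]
      refine mwf_at hv hf hk ho fun hB => ⟨hk3 hB, ?_⟩
      rw [hmn]
      obtain ⟨a, rfl | rfl⟩ := hg.b3 hB
      · exact hf' _ _ _
      · exact hf' _ _ _
    refine ⟨?_, ?_, ?_⟩
    · rw [mwf_vis, e Sq.vis (fun _ => rfl) (fun _ _ _ => rfl)]
      exact κ.wv_eq st k hng
    · exact e Sq.lvis (fun _ => rfl) (fun _ _ _ => rfl)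
    · rw [← κ.svis_eq st k]
      exact e Sq.svis (fun _ => rfl) (fun _ _ _ => rfl)

end

end Bxs

end Pool.Agent.MP42.GZ
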