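import Pool.Agent.MP42.GZ.GeoLa
import Pool.Agent.MP42.PL.TopInst
import Pool.Agent.MP42.PL.Reroot
import Pool.Agent.MP42.U.Stars

/-!
# The top level, general part (owner helper30, helper50)

The part of `GeoXT`, `GeoXR` without boxes: the facts about the root link, reading lists over the
rerooted contour (`rrR`), stars over the rerooted contour (`Stars.rr`).
-/

set_option autoImplicit false
set_option linter.unusedSectionVars false
set_option linter.unusedVariables false

namespace Pool.Agent.MP42.GZ

open Pool.Agent.MP42 Pool.Agent.MP42.U Pool.Agent.MP42.PL Pool.Agent.MP42.O3 Pool.Agent.MP42.O3.BM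
open Pool.Agent.MP42.EO

section Top

variable {D : Type*} {M : BM D}
variable {T : RT M.E} {cl : D → Prop} {rc : D → Rc D}

/-- the facts about the top level: the root link lies over the edge behind `x` -/
structure TopF (M : BM D) (T : RT M.E) (cl : D → Prop) (rc : D → Rc D) (x : D) : Prop where
  G0 : T.G x
  G1 : T.G (M.ν x)
  d0 : T.dep x = 0
  d1 : T.dep (M.ν x) ≠ 0
  c0 : cl x
  c1 : ¬ cl (M.ν x)
  rc1 : rc (M.ν x) = ⟨x, M.ν x, .aft, .root⟩
  un : ∀ y, T.G y → T.dep y ≠ 0 → (rc y).kd = .root → M.E.SameCycle (M.ν x) y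
  ek : M.ek (M.ν x) = .R

/-- the lanes of the root link -/
def rlw (σ two : Bool) : Wd := (σ, 8) :: (if two then [(σ, 9)] else [])

open Classical in
/-- the lanes of the root link at their corner -/
noncomputable def rex (x : D) (σ two : Bool) (y : D) : Wd := if y = x then rlw σ two else []

/-- values of the lanes of the root link -/
def rlv (V : D × ℕ → B) (x : D) (σ two : Bool) : List (Bool × B) :=
  (σ, V (x, 8)) :: (if two then [(σ, V (x, 9))] else [])

/-- the root link -/
lemma TopF.rck [Finite D] {W : D → Prop} {x0 x : D} (L : LI M W x0 T cl rc) (F : TopF M T cl rc x) {u : D}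
    (hu : M.E.SameCycle (M.ν x) u) : rc u = ⟨x, M.ν x, .aft, .root⟩ := by
  rw [cyc_const L.rE hu, F.rc1]

end Top

section Tot

variable {D : Type*} {M : BM D} [Finite D]
variable {W : D → Prop} {T : RT M.E} {cl : D → Prop} {rc : D → Rc D} {x0 : D}
  {X : D → Prop} {K : TD M.E M.τ T X (dgL rc)}

/-- circles are determined by their cycles -/
lemma ci_eq {z z' : K.ct.Ci} (h : M.E.SameCycle (pr z.1) (pr z'.1)) : z = z' := by
  obtain ⟨-, b1, z1⟩ := ci_base z
  obtain ⟨-, b2, z2⟩ := ci_base z'
  have h3 : pr z.1 = pr z'.1 := by rw [← b1, ← b2]; exact RT.ow_cong h.symm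
  exact Subtype.ext (by rw [z1, z2, h3])

/-- the circle of a corner -/
lemma ci_of {u : D} (hu : T.G u) : ∃ z : K.ct.Ci, M.E.SameCycle (pr z.1) u := by
  have hu' : K.ct.G (Sum.inl u) := (ct_G_inl K u).2 hu
  refine ⟨K.ct.ciOf (Sum.inl u) hu', ?_⟩
  have h2 : pr (K.ct.ciOf (Sum.inl u) hu').1 = T.ow u := by
    show pr (K.ct.ow (Sum.inl u)) = _
    rw [ct_ow, pr_owX, pr_inl]
  rw [h2]
  exact (T.ow_cyc u hu).symm

/-- the root circle -/
lemma rC_cyc {u : D} (hu : T.G u) (hd : T.dep u = 0) : M.E.SameCycle u (pr K.ct.rC.1) := by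
  obtain ⟨z, hz⟩ := ci_of (K := K) hu
  have : z = K.ct.rC := rC_dep (by rw [RT.dep_cong hz.symm]; exact hd)
  rw [← this]
  exact hz.symm

/-- the total of a circle of the top level -/
lemma ttl_of' {r : D} {cE : D → Bool} {z0 : K.ct.Ci} (hr : M.E.SameCycle r (pr z0.1))
    {h : K.ct.Ci → ℤ} (hh : ∀ z, (z = z0 → h z = -2) ∧ (z ≠ z0 → h z = 2)) (z : K.ct.Ci) (u : D)
    (hu : M.E.SameCycle (pr z.1) u) : ttl M r cE u = if cE u then h z else - h z := by
  classical
  unfold ttl
  by_cases hz : z = z0
  · have h1 : M.E.SameCycle r u := by rw [hz] at hu; exact hr.trans hu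
    rw [if_pos h1, (hh z).1 hz]
    cases cE u <;> norm_num
  · have h1 : ¬ M.E.SameCycle r u := fun h1 => hz (ci_eq (hu.trans (h1.symm.trans hr)))
    rw [if_neg h1, (hh z).2 hz]
    cases cE u <;> norm_num

/-- the root link is the link of one circle -/
lemma TopF.kk {x : D} (L : LI M W x0 T cl rc) (F : TopF M T cl rc x) {k : K.ct.Ci}
    (hk : M.E.SameCycle (pr k.1) (M.ν x)) {c : K.ct.Ci} (hd : T.dep (pr c.1) ≠ 0)
    (hr : (rc (pr c.1)).kd = .root) : c = k :=
  ci_eq ((F.un _ c.2.1.2 hd hr).symm.trans hk.symm)

lemma TopF.kne {x : D} (F : TopF M T cl rc x) {k : K.ct.Ci}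
    (hk : M.E.SameCycle (pr k.1) (M.ν x)) : T.dep (pr k.1) ≠ 0 ∧ k ≠ K.ct.rC := by
  have hdk : T.dep (pr k.1) ≠ 0 := by rw [← RT.dep_cong hk]; exact F.d1
  exact ⟨hdk, fun h => hdk (by rw [h]; exact T.dep_rt)⟩

end Tot

/-! ## Root ring of class `O` -/

section Reroot

variable {C α : Type*} [LinearOrder α] {Ct : Contour C α} {cls : C → Prop} {J : Type*}
  {y x : J → α} {k : C} {hk : k ≠ Ct.r} {hp : Ct.par k = Ct.r} {hl : Ct.hi k = Ct.hi Ct.r}
  {e : α} {he : e < Ct.lo k} {hme : ∀ p, p < Ct.lo k → p ≤ e}

lemma rr_lo {c : C} (h : c ≠ k) : (Ct.reroot k hk hp hl e he hme).lo c = Ct.lo c := by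
  classical
  show (if c = k then Ct.lo Ct.r else Ct.lo c) = _
  rw [if_neg h]

lemma rr_hi {c : C} (h : c ≠ k) (h' : c ≠ Ct.r) :
    (Ct.reroot k hk hp hl e he hme).hi c = Ct.hi c := by
  classical
  show (if c = k then Ct.hi Ct.r else if c = Ct.r then e else Ct.hi c) = _
  rw [if_neg h, if_neg h']

lemma rr_par {c : C} (h : c ≠ Ct.r) : (Ct.reroot k hk hp hl e he hme).par c = Ct.par c := by
  classical
  show (if c = Ct.r then k else Ct.par c) = _
  rw [if_neg h]

lemma rr_par0 : (Ct.reroot k hk hp hl e he hme).par Ct.r = k := by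
  classical
  show (if Ct.r = Ct.r then k else Ct.par Ct.r) = _
  rw [if_pos rfl]

lemma rr_ilo {i : α ⊕ C} (h : i ≠ .inr k) :
    (Ct.reroot k hk hp hl e he hme).ilo i = Ct.ilo i := by
  rcases i with p | c
  · rfl
  · exact rr_lo fun h1 => h (by rw [h1])

lemma rr_ihi {i : α ⊕ C} (h : i ≠ .inr k) (h' : i ≠ .inr Ct.r) :
    (Ct.reroot k hk hp hl e he hme).ihi i = Ct.ihi i := by
  rcases i with p | c
  · rfl
  · exact rr_hi (fun h1 => h (by rw [h1])) fun h1 => h' (by rw [h1])

open Classical in
/-- the lists of the items over the old contour -/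
noncomputable def rrd (Ct : Contour C α) (k : C) (rd : C → List (α ⊕ C)) (z : C) :
    List (α ⊕ C) :=
  if z = Ct.r then rd z ++ [.inr k] else if z = k then (rd z).dropLast else rd z

lemma rr_last (R : Rds (Ct.reroot k hk hp hl e he hme) cls y x) (hck : ¬ cls k) :
    ∃ l, R.rd k = l ++ [.inr Ct.r] ∧ Sum.inr Ct.r ∉ l := by
  have hmem : Sum.inr Ct.r ∈ R.rd k := by
    rw [R.mem]
    refine ⟨by simp, rr_par0, ?_⟩
    intro h
    exact hk (Sum.inr_injective h).symm
  obtain ⟨l1, l2, h⟩ := List.append_of_mem hmem
  have hpw := R.pw k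
  rw [h, List.pairwise_append, List.pairwise_cons] at hpw
  have h2 : l2 = [] := by
    rcases l2 with _ | ⟨i, l2⟩
    · rfl
    · exfalso
      have h3 := (hpw.2.1.1 i (by simp)).2 hck
      have h4 : (Ct.reroot k hk hp hl e he hme).ilo (.inr Ct.r) = Ct.lo Ct.r := rr_lo hk.symm
      rw [h4] at h3
      have hi : i ∈ R.rd k := by rw [h]; simp
      have hin := (R.mem k i).1 hi
      rcases i with p | c
      · exact absurd h3 (not_lt.2 (Ct.top p).1)
      · have h5 : (Ct.reroot k hk hp hl e he hme).ihi (.inr c) =
            (Ct.reroot k hk hp hl e he hme).hi c := rfl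
        rw [h5] at h3
        exact absurd h3 (not_lt.2 (Ct.top _).1)
  subst h2
  refine ⟨l1, h, fun h3 => ?_⟩
  have h4 := (hpw.2.2 _ h3 (Sum.inr Ct.r) (by simp)).2 hck
  have h6 := (Ct.reroot k hk hp hl e he hme).le Ct.r
  exact absurd h4 (not_lt.2 h6)

/-- **the items over the old contour** -/
noncomputable def rrR (R : Rds (Ct.reroot k hk hp hl e he hme) cls y x) (hck : ¬ cls k)
    (hcr : cls Ct.r) : Rds Ct cls y x where
  rd := rrd Ct k R.rd
  pw := by
    classical
    have hold : ∀ z i, i ∈ R.rd z → i ≠ .inr k := by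
      intro z i hi
      exact ((R.mem z i).1 hi).2.2
    have hroot : ∀ z i, i ∈ R.rd z → z ≠ k → i ≠ .inr Ct.r := by
      rintro z i hi hz rfl
      have h1 : (Ct.reroot k hk hp hl e he hme).par Ct.r = z := ((R.mem z _).1 hi).2.1
      rw [rr_par0] at h1
      exact hz h1.symm
    have key : ∀ (z : C) (l : List (α ⊕ C)),
        (∀ i ∈ l, i ≠ Sum.inr k ∧ i ≠ Sum.inr Ct.r) → l.Pairwise (fun i i' => (cls z → (Ct.reroot k hk hp hl e he hme).ihi i <
          (Ct.reroot k hk hp hl e he hme).ilo i') ∧
          (¬ cls z → (Ct.reroot k hk hp hl e he hme).ihi i' <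
          (Ct.reroot k hk hp hl e he hme).ilo i)) →
        l.Pairwise fun i i' => (cls z → Ct.ihi i < Ct.ilo i') ∧
          (¬ cls z → Ct.ihi i' < Ct.ilo i) := by
      intro z l h1 h2
      refine h2.imp_of_mem fun {i i'} hi hi' h => ?_
      obtain ⟨g1, g2⟩ := h1 i hi
      obtain ⟨g3, g4⟩ := h1 i' hi'
      rw [rr_ihi g1 g2, rr_ilo g3, rr_ihi g3 g4, rr_ilo g1] at h
      exact h
    intro z
    unfold rrd
    split_ifs with h1 h2
    · rw [List.pairwise_append]
      refine ⟨key z _ (fun i hi => ⟨hold z i hi, hroot z i hi (by rw [h1]; exact hk.symm)⟩)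
        (R.pw z), List.pairwise_singleton _ _, ?_⟩
      intro i hi i' hi'
      rw [List.mem_singleton] at hi'
      subst hi'
      refine ⟨fun _ => ?_, fun h => absurd (by rw [h1]; exact hcr) h⟩
      show Ct.ihi i < Ct.lo k
      have g1 := hold z i hi
      have g2 := hroot z i hi (by rw [h1]; exact hk.symm)
      have g3 := ((R.mem z i).1 hi).2.1
      rcases i with p | c
      · have g4 : Ct.pt p = Ct.r := g3.trans h1
        rcases Ct.pt_disj k p hk (by rw [hp]; exact g4) with g5 | g5
        · exact g5
        · rw [hl] at g5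
          exact absurd (Ct.top p).2 (not_le.2 g5)
      · have hc1 : c ≠ k := fun h => g1 (by rw [h])
        have hc2 : c ≠ Ct.r := fun h => g2 (by rw [h])
        have g4 : Ct.par c = Ct.r := by
          have : (Ct.reroot k hk hp hl e he hme).par c = z := g3
          rw [rr_par hc2] at this
          exact this.trans h1
        rcases Ct.disj c k hc2 hk (by rw [g4, hp]) hc1 with g5 | g5
        · exact g5
        · rw [hl] at g5
          exact absurd (Ct.top (Ct.lo c)).2 (not_le.2 g5)
    · rw [h2]
      obtain ⟨l, h3, h4⟩ := rr_last R hck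
      rw [h3, List.dropLast_concat]
      have h5 := R.pw k
      rw [h3, List.pairwise_append] at h5
      refine key k l (fun i hi => ⟨?_, ?_⟩) h5.1
      · exact hold k i (by rw [h3]; exact List.mem_append_left _ hi)
      · rintro rfl
        exact h4 hi
    · exact key z _ (fun i hi => ⟨hold z i hi, hroot z i hi h2⟩) (R.pw z)
  mem := by
    classical
    intro z i
    unfold rrd
    split_ifs with h1 h2
    · rw [List.mem_append, List.mem_singleton, R.mem]
      constructor
      · rintro (⟨g1, g2, g3⟩ | rfl)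
        · refine ⟨g1, ?_, ?_⟩
          · rcases i with p | c
            · exact g2
            · have hc2 : c ≠ Ct.r := by
                rintro rfl
                have : (Ct.reroot k hk hp hl e he hme).par Ct.r = z := g2
                rw [rr_par0, h1] at this
                exact hk this
              have : (Ct.reroot k hk hp hl e he hme).par c = z := g2
              rw [rr_par hc2] at this
              exact this
          · rintro rfl
            have : (Ct.reroot k hk hp hl e he hme).par Ct.r = z := g2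
            rw [rr_par0, h1] at this
            exact hk this
        · refine ⟨by simp, ?_, ?_⟩
          · show Ct.par k = z
            rw [hp, h1]
          · intro h
            exact hk (Sum.inr_injective h)
      · rintro ⟨g1, g2, g3⟩
        by_cases h : i = .inr k
        · exact Or.inr h
        · left
          refine ⟨g1, ?_, h⟩
          rcases i with p | c
          · exact g2
          · show (Ct.reroot k hk hp hl e he hme).par c = z
            rw [rr_par fun h => g3 (by rw [h])]
            exact g2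
    · rw [h2]
      obtain ⟨l, h3, h4⟩ := rr_last R hck
      have h5 : ∀ i, i ∈ l ↔ i ∈ R.rd k ∧ i ≠ .inr Ct.r := by
        intro i
        rw [h3, List.mem_append, List.mem_singleton]
        constructor
        · intro h
          exact ⟨Or.inl h, fun h' => h4 (h' ▸ h)⟩
        · rintro ⟨h | h, h'⟩
          · exact h
          · exact absurd h h'
      rw [show (R.rd k).dropLast = l by rw [h3, List.dropLast_concat], h5, R.mem]
      constructor
      · rintro ⟨⟨g1, g2, g3⟩, g4⟩
        refine ⟨g1, ?_, g4⟩
        rcases i with p | c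
        · exact g2
        · have : (Ct.reroot k hk hp hl e he hme).par c = k := g2
          rw [rr_par fun h => g4 (by rw [h])] at this
          exact this
      · rintro ⟨g1, g2, g3⟩
        refine ⟨⟨g1, ?_, ?_⟩, g3⟩
        · rcases i with p | c
          · exact g2
          · show (Ct.reroot k hk hp hl e he hme).par c = k
            rw [rr_par fun h => g3 (by rw [h])]
            exact g2
        · rintro rfl
          have h6 : Ct.par k = k := g2
          rw [hp] at h6
          exact hk h6.symm
    · rw [R.mem]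
      refine and_congr Iff.rfl ?_
      constructor
      · rintro ⟨g2, g3⟩
        have hne : i ≠ .inr Ct.r := by
          rintro rfl
          have : (Ct.reroot k hk hp hl e he hme).par Ct.r = z := g2
          rw [rr_par0] at this
          exact h2 this.symm
        refine ⟨?_, hne⟩
        rcases i with p | c
        · exact g2
        · have : (Ct.reroot k hk hp hl e he hme).par c = z := g2
          rw [rr_par fun h => hne (by rw [h])] at this
          exact this
      · rintro ⟨g2, g3⟩
        refine ⟨?_, ?_⟩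
        · rcases i with p | c
          · exact g2
          · show (Ct.reroot k hk hp hl e he hme).par c = z
            rw [rr_par fun h => g3 (by rw [h])]
            exact g2
        · rintro rfl
          have h6 : Ct.par k = z := g2
          rw [hp] at h6
          exact h1 h6.symm

end Reroot

/-- the stars over the rerooted contour -/
def _root_.Pool.Agent.MP42.U.Stars.rr {C α J : Type*} [LinearOrder α] {Ct : Contour C α}
    {cls : C → Prop} (S : Stars Ct cls J) {k : C} (hk : k ≠ Ct.r) (hp : Ct.par k = Ct.r)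
    (hl : Ct.hi k = Ct.hi Ct.r) (e : α) (he : e < Ct.lo k) (hme : ∀ p, p < Ct.lo k → p ≤ e) :
    Stars (Ct.reroot k hk hp hl e he hme) cls J where
  leg := S.leg
  inj := S.inj
  clsA := S.clsA
  clsB := S.clsB
  cyc := S.cyc
  nc := S.nc

end Pool.Agent.MP42.GZ
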