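import Pool.Agent.MP42.GZ.GeoM

/-!
# The words of a level and the words of the abstract solution: values at boxes
(owner helper30, helper50)
-/

set_option autoImplicit false
set_option linter.unusedSectionVars false
set_option linter.unusedVariables false

namespace Pool.Agent.MP42.GZ

open Pool.Agent.MP42 Pool.Agent.MP42.U Pool.Agent.MP42.PL Pool.Agent.MP42.O3 Pool.Agent.MP42.O3.BM
open Pool.Agent.MP42.EO

section Basic

variable {D : Type*} {M : BM D}

lemma LamInv.cn {V : D × ℕ → B} (hV : LamInv M V) (b : D) (k n : ℕ) (hn : n < 10) :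
    V (cn M b k, n) = V (b, n) := by
  induction k with
  | zero => rfl
  | succ k ih =>
    show V ((M.ν)^[k + 1] b, n) = _
    rw [Function.iterate_succ_apply', hV.m _ _ hn]
    exact ih

end Basic

namespace Bxs

variable {D : Type*} {M : BM D} [Finite D]
variable {W : D → Prop} {T : RT M.E} {cl : D → Prop} {rc : D → Rc D} {J : Type*}
  (S : Bxs M W T cl rc J) {x0 : D} (L : LI M W x0 T cl rc)

/-- the kind of a main link at a bad tripod -/
lemma κ_b4 {y : D} (hK : KapOK M cl (rc y) (S.inf y)) (hm : mk' M (rc y))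
    (hB : (M.lab (rc y).hc).isB = true) : (∃ i, S.κ y = .m i) ∨ (∃ i z, S.κ y = .w i z) ∨
      ∃ P t o, S.κ y = .q P t o := by
  have h1 := (hK.b4 hm hB).2
  unfold κ kap
  rcases h1 with ⟨h, -⟩ | ⟨h, -⟩ | ⟨h, -⟩ | ⟨h, -⟩ <;> rw [h] <;>
    rcases S.inf y with _ | z | ⟨t, o⟩
  · exact Or.inl ⟨0, rfl⟩
  · exact Or.inr (Or.inl ⟨0, z, rfl⟩)
  · exact Or.inl ⟨0, rfl⟩
  · exact Or.inl ⟨1, rfl⟩
  · exact Or.inr (Or.inl ⟨1, z, rfl⟩)
  · exact Or.inl ⟨1, rfl⟩
  · exact Or.inl ⟨2, rfl⟩
  · exact Or.inr (Or.inl ⟨2, z, rfl⟩)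
  · exact Or.inr (Or.inr ⟨true, t, o, rfl⟩)
  · exact Or.inl ⟨3, rfl⟩
  · exact Or.inr (Or.inl ⟨3, z, rfl⟩)
  · exact Or.inr (Or.inr ⟨false, t, o, rfl⟩)

include L

/-- the host side and the circle side of a link have the same values -/
lemma nh_eq {V : D × ℕ → B} (hV : S.BoxV V) {y : D} (hy : T.G y) (hd : T.dep y ≠ 0)
    (hr : (rc y).kd ≠ .root) (n : ℕ) (h1 : S.lk y = .far → n = 1) (h2 : S.lk y = .near → n = 0)
    (h3 : S.lk y = .even → n = 0 ∨ n = 1) (h4 : S.lk y = .nn → n = 0 ∨ n = 2)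
    (h5 : S.lk y ≠ .drop) :
    V ((rc y).hc, (S.κ y).nh (S.lk y) n) = V ((rc y).cc, (S.κ y).nc (S.lk y) n) := by
  have hK := kap_ok (L.ok y hy hd) hr (S.inf y)
  have e1 := hK.h
  have e2 := hK.c
  have hκ : kap M (rc y) (S.inf y) = S.κ y := rfl
  have hb : bas M (rc y) = S.bs y := rfl
  rw [hb, hκ] at e1 e2
  have hn3 : n < 3 := by
    cases hst : S.lk y
    · exact absurd hst h5
    · rw [h1 hst]; omega
    · rw [h2 hst]; omega
    · rcases h3 hst with h | h <;> omega
    · rcases h4 hst with h | h <;> omega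
  by_cases hg : gk M (rc y)
  · obtain ⟨a, ha, hl⟩ := hK.gt hg
    rw [hκ] at ha
    rw [hb] at hl
    rw [e1, e2, ha]
    have hv := hV.inv.g (S.bs y) (10 + n) (by omega) hl
    cases a
    · show V (M.ν (S.bs y), 10 + n) = V (S.bs y, 10 + n)
      exact hv
    · show V (S.bs y, 10 + n) = V (M.ν (S.bs y), 10 + n)
      exact hv.symm
  · have hm : mk' M (rc y) := ⟨hg, hr⟩
    have key : ∀ m m', m < 10 → m' < 10 → V (S.bs y, m) = V (S.bs y, m') →
        V ((rc y).hc, m) = V ((rc y).cc, m') := by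
      intro m m' hm1 hm2 he
      rw [e1, e2, hV.inv.cn _ _ _ hm1, hV.inv.cn _ _ _ hm2]
      exact he
    cases hB : (M.lab (rc y).hc).isB
    · obtain ⟨a, ha⟩ := (hK.b3 hm hB).1
      rw [hκ] at ha
      rcases ha with ha | ha
      · rw [ha]
        exact key n n (by omega) (by omega) rfl
      · rw [ha]
        exact key (1 - n) (1 - n) (by omega) (by omega) rfl
    · have hnn : S.lk y ≠ .nn := by
        intro h
        rcases S.leg y hy hd h with h6 | h6
        · exact hg (Or.inr ⟨h6, hB⟩)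
        · exact hr h6
      rcases S.κ_b4 hK hm hB with ⟨i, ha⟩ | ⟨i, z, ha⟩ | ⟨P, t, o, ha⟩
      · rw [ha]
        exact key (1 - n) (1 - n) (by omega) (by omega) rfl
      · have hbx := hV.bx (S.bs y) (S.κ y) (S.lk y) (Or.inl ⟨y, ⟨hy, hd, hm, rfl⟩, rfl, rfl⟩)
          (by rw [ha]; rfl)
        rw [ha]
        cases hst : S.lk y
        · exact absurd hst h5
        · rw [h1 hst]
          exact key 1 2 (by omega) (by omega) hbx
        · rw [h2 hst]
          exact key 1 2 (by omega) (by omega) hbx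
        · rcases h3 hst with h | h
          · rw [h]
            exact key 1 2 (by omega) (by omega) hbx
          · rw [h]
            exact key 0 0 (by omega) (by omega) rfl
        · exact absurd hst hnn
      · rw [ha]
        show V ((rc y).hc, if n = 1 then 0 else 3) = V ((rc y).cc, if n = 1 then 0 else 3)
        split_ifs
        · exact key 0 0 (by omega) (by omega) rfl
        · exact key 3 3 (by omega) (by omega) rfl

end Bxs

end Pool.Agent.MP42.GZ
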