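import Pool.Agent.MP42.GZ.GeoV
import Pool.Agent.MP42.GZ.GeoLa

/-!
# From the abstract solution to the words of a level (owner helper30, helper50)

`letter_lv`: the letters; `child_lv`: the children; `own_lv`: the own tokens; `rider_lv`: riders.
-/

set_option autoImplicit false
set_option linter.unusedSectionVars false
set_option linter.unusedVariables false

namespace Pool.Agent.MP42.GZ

open Pool.Agent.MP42 Pool.Agent.MP42.U Pool.Agent.MP42.PL Pool.Agent.MP42.O3 Pool.Agent.MP42.O3.BM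
open Pool.Agent.MP42.EO

variable {D : Type*} {M : BM D} [Finite D]
variable {W : D → Prop} {T : RT M.E} {cl : D → Prop} {rc : D → Rc D} {J : Type*} {x0 : D}
  {X : D → Prop}

/-- all used vertices have the facts -/
def Bxs.AF (S : Bxs M W T cl rc J) : Prop := ∀ b κ st, S.Vd b κ st → S.VdF b κ st

namespace Bxs

variable {S : Bxs M W T cl rc J}

/-- the kind of the vertex of a star -/
lemma star_vd (S : Bxs M W T cl rc J) (j : J) :
    ∃ st, S.Vd (S.v j) (.q (S.P j) (S.t j) (S.o j)) st := by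
  by_cases h : ∃ y, S.IsM (S.v j) y
  · obtain ⟨y, hy⟩ := h
    refine ⟨S.lk y, Or.inl ⟨y, hy, ?_, rfl⟩⟩
    have hs : SV M (S.v j) (rc y).hc := by
      have h1 := (sv_bas (M := M) (rc y)).symm
      have h2 : bas M (rc y) = S.v j := hy.2.2.2
      rwa [h2] at h1
    have hkd := S.vu j y hy.1 hy.2.1 hy.2.2.1 hs
    have he : ∃ j', SV M (S.v j') (rc y).hc := ⟨j, hs⟩
    have hi : S.inf y = .q (S.t j) (S.o j) := by
      unfold inf
      rw [dif_pos he]
      have h3 : he.choose = j := S.inj _ _ (he.choose_spec.trans hs.symm)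
      rw [h3]
    unfold κ kap
    rw [hkd, hi]
    cases S.P j <;> rfl
  · exact ⟨.drop, Or.inr (Or.inl ⟨j, rfl, fun y hy => h ⟨y, hy⟩, rfl, rfl⟩)⟩

end Bxs

variable {S : Bxs M W T cl rc J} {K : TD M.E M.τ T X (dgL rc)}
  {lk : K.ct.Ci → LS} {lt : K.ct.Pt → Bool} {y x : J → K.ct.Pt}

lemma q_hi_lt (P t o : Bool) : (LKd.q P t o).hi < 4 ∧ (LKd.q P t o).tn < 4 ∧
    (LKd.q P t o).hi ≠ (LKd.q P t o).tn := by
  cases P <;> cases t <;> cases o <;> decide

lemma star_B (S : Bxs M W T cl rc J) (j : J) : (M.lab (S.v j)).isB = true := by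
  rw [S.vlab j]; rfl

lemma yc_ne_xc (hv : Val M) (S : Bxs M W T cl rc J) (j j' : J) : yc S j ≠ xc S j' := by
  intro h
  have h1 : SV M (S.v j) (yc S j) := ⟨_, rfl⟩
  have h2 : SV M (S.v j') (xc S j') := ⟨_, rfl⟩
  have h3 : j = j' := S.inj j j' (by rw [h] at h1; exact h1.trans h2.symm)
  subst h3
  have hB := star_B S j
  have n1 := hv (S.v j)
  have n3 : M.ν (M.ν (M.ν (S.v j))) ≠ S.v j := by
    rcases hv.n3 (S.v j) with h | h
    · exact h
    · rw [hB] at h; exact absurd h (by decide)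
  have hinj : ∀ {a b : D}, M.ν a = M.ν b → a = b := fun {a b} h => by
    have := congrArg M.μ h
    rwa [μ_ν, μ_ν] at this
  unfold yc xc at h
  cases hP : S.P j <;> cases ht : S.t j <;> rw [hP, ht] at h
  · have h' : M.ν (S.v j) = M.ν (M.ν (S.v j)) := h
    exact n1.1 (hinj h').symm
  · have h' : M.ν (S.v j) = M.ν (M.ν (M.ν (S.v j))) := h
    exact n1.2 (hinj h').symm
  · have h' : S.v j = M.ν (M.ν (S.v j)) := h
    exact n1.2 h'.symm
  · have h' : S.v j = M.ν (M.ν (M.ν (S.v j))) := h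
    exact n3 h'.symm

/-- the letters of a star in reading order -/
lemma star_w (hF : S.AF) (j : J) (k : ℕ) (hk : k < 4) : ∃ st,
    S.swd (cn M (S.v j) k) = (LKd.q (S.P j) (S.t j) (S.o j)).lv' st k := by
  obtain ⟨st, hst⟩ := S.star_vd j
  refine ⟨st, ?_⟩
  have h1 := (hF _ _ _ hst).wd k hk (fun h => by rw [star_B S j] at h; exact absurd h (by decide))
  rw [h1.2.2]
  rfl

/-- **the letters** -/
lemma letter_lv (hv : Val M) (hF : S.AF) (H : Mch S K lk lt y x)
    (tk : K.ct.Ci → ℕ → D × ℕ) (V : D × ℕ → B) {p : K.ct.Pt} {u : D} (hp : p.1 = Sum.inl u)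
    (hL : LtS y x u) {c : Bool} (hc : cl u ↔ c = true) :
    lv V (rw' c (tag u (S.swd u))) = lv (vp S tk V) (il lk lt (.inl p)) := by
  classical
  have e0 : pr p.1 = u := by rw [hp]; rfl
  have ei : il lk lt (Sum.inl p : K.ct.Pt ⊕ K.ct.Ci) = [(lt p, Sum.inl p)] := rfl
  rw [ei]
  obtain ⟨j, hj | hj⟩ := hL
  · have hju : u = yc S j := by
      rw [H.y j] at hj
      exact (Sum.inl_injective hj).symm
    have hpy : p = y j := Subtype.ext (by rw [hp, hj])
    obtain ⟨q1, q2, q3⟩ := q_hi_lt (S.P j) (S.t j) (S.o j)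
    obtain ⟨st, hst⟩ := star_w hF j _ q1
    have hcl : c = S.P j := by
      rw [hju] at hc
      exact Bool.eq_iff_iff.2 (hc.symm.trans (S.vh j).2)
    have hw : dirw (S.P j) (S.swd u) = [(S.o j, 1)] := by
      rw [hju, hst]
      rcases LKd.starW (S.P j) (S.t j) (S.o j) st (LKd.q (S.P j) (S.t j) (S.o j)).hi with
        ⟨-, h⟩ | ⟨h, -⟩ | ⟨h, -⟩
      · exact h
      · exact absurd h q3
      · exact absurd rfl h
    rw [hcl, ← tag_dirw, hw]
    have hex : ∃ j', u = yc S j' := ⟨j, hju⟩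
    simp only [lv, tag, List.map_cons, List.map_nil, vp]
    rw [e0, if_pos hex, hpy, H.o j]
  · have hju : u = xc S j := by
      rw [H.x j] at hj
      exact (Sum.inl_injective hj).symm
    have hpx : p = x j := Subtype.ext (by rw [hp, hj])
    obtain ⟨q1, q2, q3⟩ := q_hi_lt (S.P j) (S.t j) (S.o j)
    obtain ⟨st, hst⟩ := star_w hF j _ q2
    have hcl : c = S.t j := by
      rw [hju] at hc
      have h3 : cl (xc S j) ↔ S.t j = true := by
        cases ht : S.t j
        · have e : xc S j = cn M (S.v j) 2 := by unfold xc; rw [ht]; rfl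
          rw [e]
          simpa using (S.v2 j).2
        · have e : xc S j = cn M (S.v j) 3 := by unfold xc; rw [ht]; rfl
          rw [e]
          simpa using (S.v3 j).2
      exact Bool.eq_iff_iff.2 (hc.symm.trans h3)
    have hw : dirw (S.t j) (S.swd u) = [pl 2] := by
      rw [hju, hst]
      rcases LKd.starW (S.P j) (S.t j) (S.o j) st (LKd.q (S.P j) (S.t j) (S.o j)).tn with
        ⟨h, -⟩ | ⟨-, h⟩ | ⟨-, h, -⟩
      · exact absurd h.symm q3
      · exact h
      · exact absurd rfl h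
    rw [hcl, ← tag_dirw, hw]
    have hex : ¬ ∃ j', u = yc S j' := by
      rintro ⟨j', h⟩
      exact yc_ne_xc hv S j' j (by rw [← h, hju])
    simp only [lv, tag, pl, List.map_cons, List.map_nil, vp]
    rw [e0, if_neg hex, hpx, H.port j]

/-- **the children** -/
lemma child_lv (L : LI M W x0 T cl rc) (hlk : ∀ z, lk z = S.lk (pr z.1))
    {tk : K.ct.Ci → ℕ → D × ℕ} {V : D × ℕ → B} (hV : S.BoxV V) {rx : Wd} {c : K.ct.Ci}
    (hd : T.dep (pr c.1) ≠ 0) (hr : (rc (pr c.1)).kd ≠ .root)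
    (htk : ∀ n, tk c n = ((rc (pr c.1)).cc, (S.κ (pr c.1)).nc (S.lk (pr c.1)) n)) {b : Bool}
    (hb : cl (rc (pr c.1)).hc ↔ b = true) :
    lv V (rw' b (tag (rc (pr c.1)).hc (S.hw rx (pr c.1)))) =
      lv (vp S tk V) (il lk lt (.inr c)) := by
  set u := pr c.1 with hu
  have hG : T.G u := c.2.1.2
  have hK := kap_ok (L.ok u hG hd) hr (S.inf u)
  have hcl : b = (S.κ u).hc := Bool.eq_iff_iff.2 (hb.symm.trans hK.ch)
  have hw' : S.hw rx u = dirw (S.κ u).hc (ilN ((S.κ u).nh (S.lk u)) (S.lk u)) := by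
    unfold Bxs.hw
    rw [if_neg hr]
    rfl
  rw [hw', hcl, ← tag_dirw, dirw_dirw]
  refine lv_il (hlk c) fun n h1 h2 h3 h4 h5 => ?_
  have := S.nh_eq L hV hG hd hr n h1 h2 h3 h4 h5
  rw [this]
  show _ = V (tk c n)
  rw [htk]

/-- **the own tokens** -/
lemma own_lv (L : LI M W x0 T cl rc) (hlk : ∀ z, lk z = S.lk (pr z.1))
    {tk : K.ct.Ci → ℕ → D × ℕ} {V : D × ℕ → B} {rx : Wd} {sw : K.ct.Ci → Prop} {c : K.ct.Ci}
    (hd : T.dep (pr c.1) ≠ 0) (hr : (rc (pr c.1)).kd ≠ .root)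
    (hsw : sw c ↔ (cl (rc (pr c.1)).hc ↔ cl (rc (pr c.1)).cc))
    (htk : ∀ n, tk c n = ((rc (pr c.1)).cc, (S.κ (pr c.1)).nc (S.lk (pr c.1)) n)) {b : Bool}
    (hb : cl (rc (pr c.1)).cc ↔ b = true) :
    lv V (rw' b (tag (rc (pr c.1)).cc (S.cw rx (pr c.1)))) =
      lv (vp S tk V) (ol (fun _ => False) sw lk c) := by
  set u := pr c.1 with hu
  have hG : T.G u := c.2.1.2
  have hK := kap_ok (L.ok u hG hd) hr (S.inf u)
  have hcl : b = (S.κ u).cc := Bool.eq_iff_iff.2 (hb.symm.trans hK.cc)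
  have hw' : S.cw rx u = dirw (S.κ u).cc
      (olN ((S.κ u).hc == (S.κ u).cc) ((S.κ u).nc (S.lk u)) (S.lk u)) := by
    unfold Bxs.cw
    rw [if_neg hr]
    rfl
  rw [hw', hcl, ← tag_dirw, dirw_dirw]
  refine lv_ol (hlk c) (fun h => h) ?_ fun n => ?_
  · rw [hsw, beq_iff_eq]
    have e1 : cl (rc u).hc ↔ (S.κ u).hc = true := hK.ch
    have e2 : cl (rc u).cc ↔ (S.κ u).cc = true := hK.cc
    rw [e1, e2]
    constructor
    · exact fun h => Bool.eq_iff_iff.2 h
    · exact fun h => Bool.eq_iff_iff.1 h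
  · show _ = V (tk c n)
    rw [htk]

/-- **riders** -/
lemma rider_lv (L : LI M W x0 T cl rc) (hF : S.AF) {V : D × ℕ → B} (hV : S.BoxV V) (u : D) :
    S.lwd u = S.swd u ∨ (S.swd u = [] ∧ Rider V (tag u (S.lwd u))) := by
  by_cases h1 : ∃ z, SV M u z ∧ S.mn z ≠ .non
  · obtain ⟨z, hz, hn⟩ := h1
    obtain ⟨κ, st, hd⟩ := S.mn_ne hn
    have hF' := hF _ _ _ hd
    obtain ⟨k, hk, hk3, rfl⟩ := cn_of_sv (M := M) hz.symm
    obtain ⟨-, w1, w2⟩ := hF'.wd k hk hk3
    cases hR : κ.isR st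
    · left
      rw [w1, w2, hR]
      rfl
    · rw [hR] at w2
      have hbx : κ.bx = true := by
        revert hR
        rcases κ with a | a | i | ⟨i, z⟩ | ⟨P, t, o⟩ | a <;> simp [LKd.isR, LKd.bx]
      have h12 : V (cn M z k, 1) = V (cn M z k, 2) := by
        rw [hV.inv.cn _ _ _ (by norm_num), hV.inv.cn _ _ _ (by norm_num)]
        exact hV.bx z κ st hd hbx
      rcases (κ.chk_of st hF'.ok).rid hR k hk with ⟨-, h2⟩ | ⟨-, h2⟩
      · left
        rw [w1, w2, h2]
        rfl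
      · right
        refine ⟨by rw [w2]; rfl, ?_⟩
        rw [w1]
        refine rider_of_rw (c := κ.rcl) ?_
        rw [← tag_dirw]
        rcases h2 with h2 | h2 <;> rw [h2]
        · exact ⟨_, _, rfl, h12⟩
        · exact ⟨_, _, rfl, h12.symm⟩
  · left
    push Not at h1
    have e1 : S.lwd u = [] := mwf_zero (fun _ => rfl) h1
    have e2 : S.swd u = [] := mwf_zero (fun _ => rfl) h1
    rw [e1, e2]

/-- all used vertices have the facts -/
lemma af_of (L : LI M W x0 T cl rc) (hv : Val M) : S.AF := fun _ _ _ h => S.vdF L hv h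

/-- no letters of stars at the other corners -/
lemma swd_zero (L : LI M W x0 T cl rc) (hv : Val M)
    (hy : ∀ j, (y j).1 = Sum.inl (yc S j)) (hx : ∀ j, (x j).1 = Sum.inl (xc S j)) {u : D}
    (hL : ¬ LtS y x u) : S.swd u = [] := by
  by_cases h1 : ∃ z, SV M u z ∧ S.mn z ≠ .non
  · obtain ⟨z, hz, hn⟩ := h1
    obtain ⟨κ, st, hd⟩ := S.mn_ne hn
    have hF' := S.vdF L hv hd
    obtain ⟨k, hk, hk3, rfl⟩ := cn_of_sv (M := M) hz.symm
    obtain ⟨-, -, w2⟩ := hF'.wd k hk hk3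
    rw [w2]
    split_ifs with hR
    · rfl
    · have hR' : κ.isR st = false := by simpa using hR
      by_cases hq : ∀ P t o, κ ≠ .q P t o
      · exact LKd.noL κ st hR' hq k
      · push Not at hq
        obtain ⟨P, t, o, hq⟩ := hq
        -- the star
        obtain ⟨j, hj1, hj2⟩ : ∃ j, z = S.v j ∧ κ = .q (S.P j) (S.t j) (S.o j) := by
          rcases hd with ⟨y', h1, h2, h3⟩ | ⟨j, h1, h2, h3, h4⟩ | ⟨h1, h2, h3⟩
          · rcases S.isM_kap L h1 with ⟨-, a, h4⟩ | ⟨-, -, i, -, -, h4⟩ | ⟨j, h4, h5, -⟩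
            · exfalso
              rw [h2, hq] at h4
              rcases h4 with h4 | h4 <;> exact absurd h4 (by simp)
            · exfalso
              rw [h2, hq] at h4
              rcases h4 with ⟨-, h4⟩ | ⟨z, -, h4⟩ <;> exact absurd h4 (by simp)
            · exact ⟨j, h4, h2.symm.trans h5⟩
          · exact ⟨j, h1.symm, h3⟩
          · exfalso
            rw [hq] at h2
            rcases h2 with ⟨-, h2⟩ | ⟨-, h2⟩ <;> exact absurd h2 (by simp)
        subst hj1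
        rw [hj2]
        rcases LKd.starW (S.P j) (S.t j) (S.o j) st k with ⟨h4, -⟩ | ⟨h4, -⟩ | ⟨-, -, h4⟩
        · exact absurd ⟨j, Or.inl (by rw [hy j, h4])⟩ hL
        · exact absurd ⟨j, Or.inr (by rw [hx j, h4])⟩ hL
        · exact h4
  · push Not at h1
    exact mwf_zero (fun _ => rfl) h1

end Pool.Agent.MP42.GZ
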