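import Pool.Agent.MP42.GZ.GeoP
import Pool.Agent.MP42.GZ.GeoM
import Pool.Agent.MP42.GZ.GeoV
import Pool.Agent.MP42.GZ.GeoLa
import Pool.Agent.MP42.GZ.LvlX

/-!
# `LvlG` from the words of the circles (owner helper30, helper48)
-/

set_option autoImplicit false
set_option linter.unusedSectionVars false
set_option linter.unusedVariables false

namespace Pool.Agent.MP42.GZ

open Pool.Agent.MP42 Pool.Agent.MP42.U Pool.Agent.MP42.PL Pool.Agent.MP42.O3 Pool.Agent.MP42.O3.BM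
open Pool.Agent.MP42.EO

variable {D : Type*} {M : BM D} [Finite D]
variable {W : D → Prop} {T : RT M.E} {cl : D → Prop} {rc : D → Rc D} {J : Type*} {x0 : D}
  {X : D → Prop}
variable {S : Bxs M W T cl rc J} {K : TD M.E M.τ T X (dgL rc)}

/-- the input of `lvl_g` which concerns the words -/
structure LvlW (S : Bxs M W T cl rc J) (K : TD M.E M.τ T X (dgL rc)) (ow : D → Wd) (tt : D → ℤ)
    (ex : D → Wd) (tk : K.ct.Ci → ℕ → D × ℕ)
    (wt : K.ct.Ci → List (Bool × (K.ct.Pt ⊕ (K.ct.Ci × ℕ)))) : Prop where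
  wd : ∀ V, S.BoxV V → ∀ z, ∃ u, Rot (lv V (rw' (S.cE (pr z.1))
    (cxo tb M S.mn S.gt ow ex (pr z.1)))) u ∧ Ins (lv (vp S tk V) (wt z)) u
  tt : ∀ (z : K.ct.Ci) u, M.E.SameCycle (pr z.1) u →
    tt u = if S.cE u then hl (wt z) else - hl (wt z)
  t2 : ∀ z, hl (wt z) = 2 ∨ hl (wt z) = -2
  pb : ∀ z, Bd 40 (wt z)
  con : ∀ V, S.BoxV V → (∀ z, Cl (vp S tk V) (wt z)) →
    ∃ k, ∀ z, ∀ q ∈ wt z, vp S tk V q.2 = k

namespace Bxs

/-- a corner of the level with a lane of the box -/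
lemma vk_G {b : D} {κ : LKd} {st : LS} (h : VdG (W := W) (T := T) (cl := cl) b κ st)
    (hb : κ.bx = true) : T.G (cn M b (κ.vk st)) ∧ κ.vk st < 4 := by
  unfold LKd.vk
  cases hr : κ.isR st
  · simp only [Bool.false_eq_true, if_false]
    exact ⟨h.hG.1, (κ.hi_lt st).1⟩
  · simp only [if_true]
    obtain ⟨⟨i, z, rfl⟩, rfl⟩ := LKd.isR_iff.1 hr
    fin_cases i
    · cases z <;> exact ⟨(h.th 3 false rfl).1, by decide⟩
    · cases z <;> exact ⟨(h.th 2 true rfl).1, by decide⟩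
    · cases z
      · exact ⟨h.hG.1, by decide⟩
      · exact ⟨(h.th 2 true rfl).1, by decide⟩
    · cases z
      · exact ⟨h.hG.1, by decide⟩
      · exact ⟨(h.th 3 false rfl).1, by decide⟩

end Bxs

/-- a level from the words of its circles -/
theorem lvl_g {col : D → Prop} (hWE : ∀ x, W (M.E x) ↔ W x) (hI : M.Inv W col)
    (hLev : M.Lev W T.G cl (Used M T rc))
    (L : LI M W x0 T cl rc) (hv : Val M) (hC : S.Cov)
    {Lg : Leg (D := D) tb} (hLg : LegH Lg S)
    {ow ex : D → Wd} {tt : D → ℤ} (how : ∀ u, W u → ¬ T.G u → ow u = [])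
    (hexb : ExB M T.G S.cE ex) {tk : K.ct.Ci → ℕ → D × ℕ}
    {wt : K.ct.Ci → List (Bool × (K.ct.Pt ⊕ (K.ct.Ci × ℕ)))} (hw : LvlW S K ow tt ex tk wt) :
    LvlG (M := M) Lg W ow tt T.G S.mn S.gt ex S.cE S.b0 S.b0 (fun x => S.m0 (S.b0 x))
      (fun x => S.m1 (S.b0 x)) := by
  classical
  have hused : ∀ x, Used M T rc (M.ν x) ↔ Used M T rc x := by
    intro x
    constructor
    · exact fun h => used_sv (SV.nu x) h
    · exact fun h => used_sv (nu_symm x) h
  have hcEin : ∀ x, T.G x → (cl x ↔ S.cE x = true) := fun x h => Bxs.cE_in h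
  -- the words
  have hword : ∀ {V : D × ℕ → B}, S.BoxV V → ∀ u, T.G u → ∃ (z : K.ct.Ci) (w : List (Bool × B)),
      M.E.SameCycle (pr z.1) u ∧
      Rot (lv V (rw' (S.cE u) (cxo tb M S.mn S.gt ow ex u))) w ∧
      Ins (lv (vp S tk V) (wt z)) w := by
    intro V hV u hu
    have hu' : K.ct.G (Sum.inl u) := (ct_G_inl K u).2 hu
    have h1 : M.E.SameCycle (pr (K.ct.ciOf (Sum.inl u) hu').1) u := by
      have h2 : pr (K.ct.ciOf (Sum.inl u) hu').1 = T.ow u := by
        show pr (K.ct.ow (Sum.inl u)) = _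
        rw [ct_ow, pr_owX, pr_inl]
      rw [h2]
      exact (T.ow_cyc u hu).symm
    set z := K.ct.ciOf (Sum.inl u) hu' with hz
    have hGz : T.G (pr z.1) := (ci_base z).1
    have hce : S.cE (pr z.1) = S.cE u := by
      have a1 := hcEin _ hGz
      have a2 := hcEin _ hu
      have a3 := cl_cyc L.cE h1
      exact Bool.eq_iff_iff.2 (a1.symm.trans (a3.symm.trans a2))
    obtain ⟨w, hw1, hw2⟩ := hw.wd V hV z
    refine ⟨z, w, h1, ?_, hw2⟩
    rw [hce] at hw1
    refine Rot.trans ?_ hw1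
    exact (((cir_rot h1.symm).flatMap _).rw (S.cE u)).lv V
  have hV0 : S.BoxV (fun _ => (0 : B)) := ⟨⟨fun _ _ _ => rfl, fun _ _ _ _ => rfl⟩,
    fun _ _ _ _ _ => rfl⟩
  refine
    { SE := T.G_E
      SW := L.sub
      sM := ?_
      sG := ?_
      one := fun y z h1 h2 h3 => S.mn_one L h1 h2 h3
      out := fun y h => S.mw_outW L hv L.sub h
      cEE := ?_
      inv := ?_
      box := ?_
      bcst := ?_
      bw := ?_
      lM := ?_
      lG := ?_
      exb := hexb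
      tot := ?_
      pb := ?_
      const := ?_ }
  · -- sM
    intro u hu
    obtain ⟨h1, h2⟩ := S.used_full L hv hu
    exact ⟨h1, fun x _ _ => h2 _ fun z hz => hz.right.2⟩
  · -- sG
    intro u hu
    obtain ⟨z, hz⟩ := S.gt_ne hu
    obtain ⟨hb, a, ha⟩ := S.isG_lab L hz
    obtain ⟨e1, e2⟩ := S.isG_cn L hz ha
    have g1 := (L.ok z hz.1 hz.2.1).p.G_hc hz.1 hz.2.1
    have g2 := (L.ok z hz.1 hz.2.1).p.G_cc hz.1
    rw [e1] at g1
    rw [e2] at g2
    refine ⟨hb, ?_⟩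
    cases a
    · exact ⟨g2, g1⟩
    · exact ⟨g1, g2⟩
  · -- cEE
    intro u hu
    have a1 := hcEin _ hu
    have a2 := hcEin _ ((T.G_E u).2 hu)
    exact Bool.eq_iff_iff.2 (a2.symm.trans ((L.cE u).trans a1))
  · -- inv
    intro u h1 h2
    exact ⟨_, inv_comp hLev hused (Cmp.comp hWE T.G_E u) hI⟩
  · -- box
    intro u h1 h2
    obtain ⟨g1, g2⟩ := hC.b0_spec h1 h2
    obtain ⟨g3, g4, g5, g6⟩ := Bxs.bc_nG S L hv g1
    have hf : ¬ Full M (Cmp M W T.G u) (S.b0 u) := by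
      obtain ⟨b, κ, st, hb, hbx, hbe⟩ := g1
      have hF := S.vdF L hv hb
      have h3 := (S.used_full L hv hF.nn).2 (Cmp M W T.G u) fun z hz => hz.right.2
      have hs : SV M b (S.b0 u) := by rw [hbe]; exact ⟨_, rfl⟩
      rwa [← Full.congr hs] at h3
    refine ⟨g2, g2, hf, hf, ?_, ?_, ?_, rfl⟩
    · rcases g6 with ⟨h, -⟩ | ⟨h, -⟩ <;> rw [h] <;> norm_num
    · rcases g6 with ⟨-, h⟩ | ⟨-, h⟩ <;> rw [h] <;> norm_num
    · rintro ⟨-, h⟩
      rcases g6 with ⟨h3, h4⟩ | ⟨h3, h4⟩ <;> rw [h3, h4] at h <;> exact absurd h (by norm_num)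
  · -- bcst
    intro u v huv
    rw [hC.b0_cst huv]
    exact ⟨rfl, rfl, rfl, rfl⟩
  · -- bw
    intro u h1 h2
    rw [how u h1 h2]
    have e2 : asm M u (mw tb M S.mn u) [] [] = mw tb M S.mn u := by
      unfold asm
      split_ifs <;> simp
    rw [e2]
    by_cases h : S.IsBC u
    · have e3 : S.b0 u = u := hC.b0_eq h (Cmp.refl h1 h2)
      show _ = own S.cE (S.b0 u) (S.b0 u) (S.m0 (S.b0 u)) (S.m1 (S.b0 u)) u
      rw [e3, (Bxs.bc_nG S L hv h).2.2.1]
      unfold own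
      rw [if_pos rfl, if_pos rfl]
      rfl
    · have e3 : mw tb M S.mn u = [] := by
        by_contra h3
        exact h (S.mw_out' L hv h2 h3)
      have e4 : u ≠ S.b0 u := fun h3 => h (by
        rw [h3]; exact (hC.b0_spec h1 h2).1)
      rw [e3]
      unfold own
      rw [if_neg e4, if_neg e4]; rfl
  · -- lM
    intro cE' h1 h2
    refine hLg.m cE' (fun u hu => ?_) fun c hc => ?_
    · rw [h1 u hu]; exact hcEin u hu
    · obtain ⟨g3, g4, -⟩ := Bxs.bc_nG S L hv hc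
      have e3 : S.b0 c = c := hC.b0_eq hc (Cmp.refl g4 g3)
      have := (h2 c g4 g3).1
      rwa [e3] at this
  · -- lG
    intro cE' h1
    refine hLg.g cE' fun u hu => ?_
    rw [h1 u hu]; exact hcEin u hu
  · -- tot
    intro u hu
    obtain ⟨z, w, hs, hr, hi⟩ := hword hV0 u hu
    have h1 : hl (wt z) = hl (rw' (S.cE u) (cxo tb M S.mn S.gt ow ex u)) := by
      rw [← hl_lv (vp S tk fun _ => (0 : B)) (wt z), ← hi.hl, hr.hl, hl_lv]
    have h2 := hl_rw (c := S.cE u) (w := cxo tb M S.mn S.gt ow ex u)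
    rw [hw.tt z u hs, h1, h2]
    cases hc : S.cE u <;> simp
  · -- pb
    intro u hu
    obtain ⟨z, w, hs, hr, hi⟩ := hword hV0 u hu
    have h0 : Bd 40 (lv (vp S tk fun _ => (0 : B)) (wt z)) := (hw.pb z).signs (lv_fst _ _)
    have h1 : Bd (3 * 41) (rw' (S.cE u) (cxo tb M S.mn S.gt ow ex u)) := by
      have h2 := (hi.bd h0).rot hr.symm
      exact (h2.mono (by norm_num)).signs (lv_fst _ _).symm
    have h3 : hl (wt z) = hl (rw' (S.cE u) (cxo tb M S.mn S.gt ow ex u)) := by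
      rw [← hl_lv (vp S tk fun _ => (0 : B)) (wt z), ← hi.hl, hr.hl, hl_lv]
    have h4 := hw.t2 z
    cases hc : S.cE u <;> rw [hc] at h1 h3
    · have h2 := h1.rv (by
        rw [← h3]; rcases h4 with h4 | h4 <;> rw [h4] <;> norm_num)
      have e : lrev (rw' false (cxo tb M S.mn S.gt ow ex u)) =
          cxo tb M S.mn S.gt ow ex u := by
        unfold rw'
        simp only [Bool.false_eq_true, if_false]
        exact lrev_lrev' _
      rw [e] at h2
      exact h2.mono (by norm_num)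
    · exact h1.mono (by norm_num)
  · -- const
    intro V hV hcl hbx
    have hB : S.BoxV V := by
      refine ⟨hV, ?_⟩
      intro b κ st hb hx
      have hbc : S.IsBC (cn M b (κ.bi st)) := ⟨b, κ, st, hb, hx, rfl⟩
      obtain ⟨g3, g4, g5, g6⟩ := Bxs.bc_nG S L hv hbc
      have e3 := hC.b0_eq hbc (Cmp.refl g4 g3)
      have h1 := hbx _ g4 g3
      simp only [e3] at h1
      rcases g6 with ⟨a1, a2⟩ | ⟨a1, a2⟩ <;> rw [a1, a2] at h1
      · rwa [hV.cn _ _ _ (by norm_num), hV.cn _ _ _ (by norm_num)] at h1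
      · rw [hV.cn _ _ _ (by norm_num), hV.cn _ _ _ (by norm_num)] at h1
        exact h1.symm
    have hcl' : ∀ z, Cl (fun b : B => b) (lv (vp S tk V) (wt z)) ∧
        ∃ w, Rot (lv V (rw' (S.cE (pr z.1)) (cxo tb M S.mn S.gt ow ex (pr z.1)))) w ∧
          Ins (lv (vp S tk V) (wt z)) w := by
      intro z
      have hGz := (ci_base z).1
      obtain ⟨w, hw1, hw2⟩ := hw.wd V hB z
      refine ⟨hw2.cl ?_, w, hw1, hw2⟩
      rw [← hw1.cl, ← cl_lv, cl_rw]
      exact hcl _ hGz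
    obtain ⟨k, hk⟩ := hw.con V hB (fun z => (cl_lv _ _).2 (hcl' z).1)
    have hall : ∀ u, T.G u → ∀ q ∈ vxo tb M S.mn S.gt ow ex u, V q.2 = k := by
      intro u hu q hq
      obtain ⟨z, w, hs, hr, hi⟩ := hword hB u hu
      have hq1 : q ∈ cxo tb M S.mn S.gt ow ex u := by
        unfold cxo
        exact List.mem_flatMap.2 ⟨u, mem_cir.2 (Equiv.Perm.SameCycle.refl _ _), hq⟩
      obtain ⟨b, hb⟩ : ∃ b, (b, q.2) ∈ rw' (S.cE u) (cxo tb M S.mn S.gt ow ex u) :=
        tok_rw.2 ⟨q.1, hq1⟩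
      have hb' : (b, V q.2) ∈ lv V (rw' (S.cE u) (cxo tb M S.mn S.gt ow ex u)) :=
        List.mem_map.2 ⟨_, hb, rfl⟩
      have hb2 : (b, V q.2) ∈ w := hr.mem.2 hb'
      have hck : Cl (fun b : B => b) w := by
        rw [← hr.cl, ← cl_lv, cl_rw]
        exact hcl _ hu
      have hk' : ∀ q ∈ lv (vp S tk V) (wt z), q.2 = k := by
        intro p hp
        obtain ⟨p', hp1, rfl⟩ := List.mem_map.1 hp
        exact hk z p' hp1
      have ht : hl (lv (vp S tk V) (wt z)) = 2 ∨ hl (lv (vp S tk V) (wt z)) = -2 := by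
        rw [hl_lv]; exact hw.t2 z
      exact hi.cst hk' ht hck _ hb2
    refine ⟨k, hall, ?_⟩
    intro u h1 h2
    obtain ⟨g1, g2⟩ := hC.b0_spec h1 h2
    obtain ⟨g3, g4, g5, g6⟩ := Bxs.bc_nG S L hv g1
    show V (S.b0 u, S.m0 (S.b0 u)) = k
    obtain ⟨b, κ, st, hb, hx, hbe⟩ := g1
    have hb12 : V (b, 1) = V (b, 2) := hB.bx b κ st hb hx
    have hb1 : V (b, 1) = k := by
      have hF := S.vdF L hv hb
      have hg := S.vdg L hb
      obtain ⟨v1, v2⟩ := Bxs.vk_G hg hx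
      obtain ⟨q, q1, q2⟩ := (κ.chk_of st hF.ok).vk hx
      have hB4 := S.bx_isB L hv hb hx
      rw [← (hF.wd _ v2 fun h => by rw [hB4] at h; exact absurd h (by decide)).1] at q1
      have q3 : (q.1, (cn M b (κ.vk st), q.2)) ∈ vxo tb M S.mn S.gt ow ex (cn M b (κ.vk st)) := by
        unfold vxo vw tag asm
        simp only [List.mem_append, List.mem_map]
        refine Or.inr (Or.inl ⟨q, ?_, rfl⟩)
        split_ifs
        · simp only [List.mem_append]
          exact Or.inr (Or.inr q1)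
        · simp only [List.mem_append]
          exact Or.inl (Or.inl q1)
      have h3 := hall _ v1 _ q3
      simp only at h3
      rcases q2 with q2 | q2 <;> rw [q2, hV.cn _ _ _ (by norm_num)] at h3
      · exact h3
      · rw [hb12]; exact h3
    rcases g6 with ⟨a1, -⟩ | ⟨a1, -⟩ <;> rw [a1, hbe, hV.cn _ _ _ (by norm_num)]
    · exact hb1
    · rw [← hb12]; exact hb1

end Pool.Agent.MP42.GZ
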