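import Pool.Agent.MP42.GZ.GeoTa
import Pool.Agent.MP42.GZ.DkZStars

/-!
# The two statements about contours (owner helper30, helper50)

`AbsC`: closed levels; `AbsR`: top levels.  `absC_use`, `absE_use`, `absO_use`: the use of the
statements for a level with the docks `Dkz`.
-/

set_option autoImplicit false
set_option linter.unusedSectionVars false
set_option linter.unusedVariables false

namespace Pool.Agent.MP42.GZ

open Pool.Agent.MP42 Pool.Agent.MP42.U Pool.Agent.MP42.PL Pool.Agent.MP42.O3 Pool.Agent.MP42.O3.BM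
open Pool.Agent.MP42.EO

/-- **closed levels**: every contour with full stars has a solution -/
def AbsC : Prop :=
  ∀ (C J α : Type) [LinearOrder α] [Finite C] [Finite J] [Finite α] (Ct : Contour C α)
    (cls real : C → Prop) (S : Stars Ct cls J),
    ∃ x : J → α, (∀ j, x j = S.a j ∨ x j = S.b j) ∧
      Nonempty (LSolX Ct cls real (fun _ => False) S.y x)

/-- **top levels**: `g` = the circle of the root link, a child of the root of the other class at the
end of the contour in reading order -/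
def AbsR : Prop :=
  ∀ (C J α : Type) [LinearOrder α] [Finite C] [Finite J] [Finite α] (Ct : Contour C α)
    (cls real : C → Prop) (S : Stars Ct cls J) (g : C), g ≠ Ct.r → Ct.par g = Ct.r →
    (cls g ↔ ¬ cls Ct.r) → (cls Ct.r → Ct.hi g = Ct.hi Ct.r) →
    (¬ cls Ct.r → Ct.lo g = Ct.lo Ct.r) →
    ∃ x : J → α, (∀ j, x j = S.a j ∨ x j = S.b j) ∧
      Nonempty (RSolX Ct cls real (fun _ => False) S.y x g)

variable {D : Type} {M : BM D} [Fintype D]
variable {W : D → Prop} {T : RT M.E} {cl : D → Prop} {rc : D → Rc D} {x0 x : D}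

/-- class `E` -/
def clz (L : LI M W x0 T cl rc) (z : (L.ct L.xo).Ci) : Prop := cl (pr z.1)

/-- the link of the circle is real -/
def rez (L : LI M W x0 T cl rc) (z : (L.ct L.xo).Ci) : Prop := (rc (pr z.1)).kd = .real

/-- the link state of the corners -/
noncomputable def lkz (L : LI M W x0 T cl rc) (lk : (L.ct L.xo).Ci → LS) (x : D) : LS := by
  classical
  exact if h : T.G x then lk ((L.ct L.xo).ciOf (Sum.inl x) ((L.ctG L.xo x).2 h)) else .drop

lemma lkz_E (L : LI M W x0 T cl rc) (lk : (L.ct L.xo).Ci → LS) (x : D) :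
    lkz L lk (M.E x) = lkz L lk x := by
  classical
  unfold lkz
  by_cases h : T.G x
  · have h' : T.G (M.E x) := (T.G_E x).2 h
    rw [dif_pos h, dif_pos h']
    have h1 : (L.ct L.xo).ow (Sum.inl (M.E x)) = (L.ct L.xo).ow (Sum.inl x) :=
      L.ow_inl L.xo (Equiv.Perm.sameCycle_apply_left.2 (Equiv.Perm.SameCycle.refl _ _))
    congr 1
    exact Subtype.ext h1
  · have h' : ¬ T.G (M.E x) := fun h1 => h ((T.G_E x).1 h1)
    rw [dif_neg h, dif_neg h']

lemma lkz_base (L : LI M W x0 T cl rc) (lk : (L.ct L.xo).Ci → LS) (z : (L.ct L.xo).Ci) :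
    lkz L lk (pr z.1) = lk z := by
  classical
  unfold lkz
  have h : T.G (pr z.1) := z.2.1.2
  rw [dif_pos h]
  congr 1
  refine Subtype.ext ?_
  show owX T (dgL rc) (pr z.1) = z.1
  exact z.2.2

lemma lkz_eq (L : LI M W x0 T cl rc) (lk : (L.ct L.xo).Ci → LS) {x : D}
    (h : T.G x) : ∃ z : (L.ct L.xo).Ci, lkz L lk x = lk z ∧ M.E.SameCycle (pr z.1) x := by
  classical
  refine ⟨(L.ct L.xo).ciOf (Sum.inl x) ((L.ctG L.xo x).2 h), ?_, ?_⟩
  · unfold lkz
    rw [dif_pos h]
  · have h2 : pr ((L.ct L.xo).ciOf (Sum.inl x) ((L.ctG L.xo x).2 h)).1 = T.ow x := pr_owX _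
    rw [h2]
    exact (T.ow_cyc x h).symm

/-- the ports `x` from the corners `a`, `b` -/
lemma port_b {J α : Type*} {a b x : J → α} (h : ∀ j, x j = a j ∨ x j = b j) :
    ∃ xb : J → Bool, ∀ j, x j = if xb j then b j else a j := by
  classical
  refine ⟨fun j => decide (x j = b j), fun j => ?_⟩
  by_cases h1 : x j = b j
  · simp [h1]
  · rcases h j with h2 | h2
    · rw [if_neg (by simpa using h1)]; exact h2
    · exact absurd h2 h1

/-- **closed levels** -/
theorem absC_use (hH : AbsC) (L : LI M W x0 T cl rc) (hPl : Plan M.E M.τ) (K : Dkz M W T cl rc) :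
    ∃ xb : {v : D // K.St v} → Bool, Nonempty (LSolX (L.ct L.xo).contour (clz L) (rez L)
      (fun _ => False) (K.stars (K.nxd L) L L.xo hPl).y
      (fun j => if xb j then (K.stars (K.nxd L) L L.xo hPl).b j else
        (K.stars (K.nxd L) L L.xo hPl).a j)) := by
  obtain ⟨x, hx, hs⟩ := hH _ _ _ (L.ct L.xo).contour (clz L) (rez L)
    (K.stars (K.nxd L) L L.xo hPl)
  obtain ⟨xb, hxb⟩ := port_b hx
  refine ⟨xb, ?_⟩
  have e : x = fun j => if xb j then (K.stars (K.nxd L) L L.xo hPl).b j else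
      (K.stars (K.nxd L) L L.xo hPl).a j := funext hxb
  rwa [e] at hs

/-- **the top level, root ring of class `E`** -/
theorem absE_use (hH : AbsR) (L : LI M W x0 T cl rc) (hPl : Plan M.E M.τ) (K : Dkz M W T cl rc)
    {k : (L.ct L.xo).Ci} (h1 : k ≠ (L.ct L.xo).contour.r)
    (h2 : (L.ct L.xo).contour.par k = (L.ct L.xo).contour.r)
    (h3 : (L.ct L.xo).contour.hi k = (L.ct L.xo).contour.hi (L.ct L.xo).contour.r)
    (hcr : clz L (L.ct L.xo).contour.r) (hck : ¬ clz L k) :
    ∃ xb : {v : D // K.St v} → Bool, Nonempty (RSolX (L.ct L.xo).contour (clz L) (rez L)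
      (fun _ => False) (K.stars (K.nxd L) L L.xo hPl).y
      (fun j => if xb j then (K.stars (K.nxd L) L L.xo hPl).b j else
        (K.stars (K.nxd L) L L.xo hPl).a j) k) := by
  obtain ⟨x, hx, hs⟩ := hH _ _ _ (L.ct L.xo).contour (clz L) (rez L)
    (K.stars (K.nxd L) L L.xo hPl) k h1 h2
    ⟨fun h => absurd h hck, fun h => absurd hcr h⟩ (fun _ => h3) (fun h => absurd hcr h)
  obtain ⟨xb, hxb⟩ := port_b hx
  refine ⟨xb, ?_⟩
  have e : x = fun j => if xb j then (K.stars (K.nxd L) L L.xo hPl).b j else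
      (K.stars (K.nxd L) L L.xo hPl).a j := funext hxb
  rwa [e] at hs

/-- **the top level, root ring of class `O`** -/
theorem absO_use (hH : AbsR) (L : LI M W x0 T cl rc) (hPl : Plan M.E M.τ) (K : Dkz M W T cl rc)
    {k : (L.ct L.xo).Ci} (h1 : k ≠ (L.ct L.xo).contour.r)
    (h2 : (L.ct L.xo).contour.par k = (L.ct L.xo).contour.r)
    (h3 : (L.ct L.xo).contour.hi k = (L.ct L.xo).contour.hi (L.ct L.xo).contour.r)
    (e : (L.ct L.xo).Pt) (h4 : e < (L.ct L.xo).contour.lo k)
    (h5 : ∀ p, p < (L.ct L.xo).contour.lo k → p ≤ e)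
    (hcr : clz L (L.ct L.xo).contour.r) (hck : ¬ clz L k) :
    ∃ xb : {v : D // K.St v} → Bool,
      Nonempty (RSolX ((L.ct L.xo).contour.reroot k h1 h2 h3 e h4 h5) (clz L) (rez L)
      (fun _ => False) (K.stars (K.nxd L) L L.xo hPl).y
      (fun j => if xb j then (K.stars (K.nxd L) L L.xo hPl).b j else
        (K.stars (K.nxd L) L L.xo hPl).a j) (L.ct L.xo).rC) := by
  obtain ⟨x, hx, hs⟩ := hH _ _ _ ((L.ct L.xo).contour.reroot k h1 h2 h3 e h4 h5) (clz L) (rez L)
    ((K.stars (K.nxd L) L L.xo hPl).rr h1 h2 h3 e h4 h5) (L.ct L.xo).rC (fun h => h1 h.symm)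
    rr_par0 ⟨fun _ => hck, fun _ => hcr⟩ (fun h => absurd h hck)
    (fun _ => (rr_lo (fun h => h1 h.symm)).trans (by
      classical
      show _ = (if k = k then _ else _)
      rw [if_pos rfl]))
  obtain ⟨xb, hxb⟩ := port_b hx
  refine ⟨xb, ?_⟩
  have e : x = fun j => if xb j then (K.stars (K.nxd L) L L.xo hPl).b j else
      (K.stars (K.nxd L) L L.xo hPl).a j := funext hxb
  rwa [e] at hs

end Pool.Agent.MP42.GZ
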