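import Pool.Agent.MP42.GZ.Tab
import Pool.Agent.MP42.U.Inst
import Pool.Agent.MP42.TQ.Hide

/-!
# One level, abstract form: the interface between words and geometry (owner helper30)

`il`: the letters of an item in reading order; `ol`: the own tokens of a circle; the word of a circle
is `ol z ++ items in reading order` (cyclic).  Tokens: letters `inl p`, lanes `inr (c, n)` of the own
link of the circle `c`: `n = 1` far (short strand), `n = 0` near, `n = 2` second near lane.
-/

set_option autoImplicit false
set_option linter.unusedSectionVars false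

namespace Pool.Agent.MP42.GZ

open Pool.Agent.MP42.U

variable {C J α : Type*} [LinearOrder α] [Fintype C] [Fintype J] [DecidableEq α]

/-- the letters of an item; `lk` = states of the own links, `lt` = letters -/
def il (lk : C → LS) (lt : α → Bool) : α ⊕ C → List (Bool × (α ⊕ (C × ℕ)))
  | .inl p => [(lt p, .inl p)]
  | .inr c => match lk c with
    | .drop => []
    | .far => [(true, .inr (c, 1))]
    | .near => [(false, .inr (c, 0))]
    | .even => [(true, .inr (c, 1)), (false, .inr (c, 0))]
    | .nn => [(false, .inr (c, 0)), (false, .inr (c, 2))]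

open Classical in
/-- the own tokens; a dropped group link leaves both tokens.  `sw z` = the circle has the class of its
parent: then the near lane is read first. -/
noncomputable def ol (grp sw : C → Prop) (lk : C → LS) (z : C) : List (Bool × (α ⊕ (C × ℕ))) :=
  match lk z with
    | .drop => if grp z then
        (if sw z then [(true, .inr (z, 0)), (true, .inr (z, 1))]
          else [(true, .inr (z, 1)), (true, .inr (z, 0))]) else []
    | .far => [(true, .inr (z, 1))]
    | .near => [(true, .inr (z, 0))]
    | .even => if sw z then [(true, .inr (z, 0)), (true, .inr (z, 1))]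
        else [(true, .inr (z, 1)), (true, .inr (z, 0))]
    | .nn => [(true, .inr (z, 0)), (true, .inr (z, 2))]

/-- the word of a circle -/
noncomputable def wd (grp sw : C → Prop) (lk : C → LS) (lt : α → Bool) (rd : C → List (α ⊕ C))
    (z : C) : List (Bool × (α ⊕ (C × ℕ))) := ol grp sw lk z ++ (rd z).flatMap (il lk lt)

/-- the circle has the class of its parent -/
def swp (G : Inst C J α) (z : C) : Prop := z ≠ G.r ∧ (G.cls z ↔ G.cls (G.par z))

/-- **a solution of one level** -/
structure LSol (G : Inst C J α) (grp : C → Prop) where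
  R : G.Reading
  lk : C → LS
  lt : α → Bool
  /-- ports are pops -/
  port : ∀ j, lt (R.x j) = true
  portN : ∀ z, ∀ p ∈ G.xN z, lt p = true
  /-- near and near only over real ribbons -/
  nn : ∀ c, lk c = .nn → c ≠ G.r ∧ G.real c ∧ ¬ grp c
  root : lk G.r = .even
  tot : ∀ z, hl (wd grp (swp G) lk lt R.rd z) = 2
  const : ∀ V : α ⊕ (C × ℕ) → B,
    (∀ j, V (.inl (G.y j)) = V (.inl (R.x j))) →
    (∀ q ∈ G.L0, V (.inl (G.mate q)) = V (.inl q)) →
    (∀ c, grp c → lk c = .drop → V (.inr (c, 0)) = V (.inr (c, 1))) →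
    (∀ z, Cl V (wd grp (swp G) lk lt R.rd z)) →
    ∃ k, ∀ z, ∀ q ∈ wd grp (swp G) lk lt R.rd z, V q.2 = k

/-- **a solution of the top level**: the root ring `G.r` (class `E`) has no own tokens and the total
`-2`; the link to its last child `g1` (class `O`) has the state `near` or `nn` -/
structure RSol (G : Inst C J α) (grp : C → Prop) (g1 : C) where
  R : G.Reading
  lk : C → LS
  lt : α → Bool
  port : ∀ j, lt (R.x j) = true
  portN : ∀ z, ∀ p ∈ G.xN z, lt p = true
  root : lk G.r = .drop ∧ ¬ grp G.r
  c1 : lk g1 = .near ∨ lk g1 = .nn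
  nn : ∀ c, lk c = .nn → c ≠ G.r ∧ ¬ grp c ∧ (G.real c ∨ c = g1)
  tot : ∀ z, (z = G.r → hl (wd grp (swp G) lk lt R.rd z) = -2) ∧
    (z ≠ G.r → hl (wd grp (swp G) lk lt R.rd z) = 2)
  const : ∀ V : α ⊕ (C × ℕ) → B,
    (∀ j, V (.inl (G.y j)) = V (.inl (R.x j))) →
    (∀ q ∈ G.L0, V (.inl (G.mate q)) = V (.inl q)) →
    (∀ c, grp c → lk c = .drop → V (.inr (c, 0)) = V (.inr (c, 1))) →
    (∀ z, Cl V (wd grp (swp G) lk lt R.rd z)) →
    ∃ k, ∀ z, ∀ q ∈ wd grp (swp G) lk lt R.rd z, V q.2 = k

end Pool.Agent.MP42.GZ
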