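import Pool.Agent.MP42.GZ.LX

/-!
# Abstract solutions with ribbons (owner helper30)

A star `j` has the corners `y j`, `a j` (class `O`), `b j` (class `E`).  Letters: `y j` (any sign), a
port at `b j` (`xb j`) or at `a j`, always a pop, and the lanes of the ribbon between `b j` and `a j`:
`rb j` = their signs at `b j`, in reading order; at `a j` they have the opposite signs, in the same
order.  The lanes of the ribbon are read before the port.
-/

set_option autoImplicit false
set_option linter.unusedSectionVars false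

namespace Pool.Agent.MP42.GZ

open Pool.Agent.MP42.U Pool.Agent.MP42.EO

variable {C J α : Type*} [LinearOrder α]

/-- tokens: letters and own lanes, lanes of ribbons -/
abbrev TkR (C J α : Type*) := (α ⊕ (C × ℕ)) ⊕ (J × ℕ)

/-- the items of the circles in reading order; `us` = the letters which are items -/
structure Rd3 (Ct : Contour C α) (cls : C → Prop) (y a b : J → α) where
  us : α → Prop
  usS : ∀ p, us p → ∃ j, p = y j ∨ p = a j ∨ p = b j
  rd : C → List (α ⊕ C)
  pw : ∀ z, (rd z).Pairwise fun i i' =>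
    (cls z → Ct.ihi i < Ct.ilo i') ∧ (¬ cls z → Ct.ihi i' < Ct.ilo i)
  mem : ∀ z i, i ∈ rd z ↔ (∀ p, i = Sum.inl p → us p) ∧ Ct.host i = z ∧ i ≠ Sum.inr Ct.r

/-- lanes of a ribbon at the side `E` -/
def ribE (C : Type*) {J : Type*} (α : Type*) (rb : J → List Bool) (j : J) :
    List (Bool × TkR C J α) := (rb j).zipIdx.map fun q => (q.1, .inr (j, q.2))

/-- lanes of a ribbon at the side `O` -/
def ribO (C : Type*) {J : Type*} (α : Type*) (rb : J → List Bool) (j : J) :
    List (Bool × TkR C J α) := (rb j).zipIdx.map fun q => (!q.1, .inr (j, q.2))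

/-- the states of the stars -/
structure Sts (C : Type*) {J α : Type*} (y a b : J → α) where
  ly : J → Bool
  xb : J → Bool
  rb : J → List Bool
  len : ∀ j, (rb j).length ≤ 2
  lw : α → List (Bool × TkR C J α)
  lwy : ∀ j, lw (y j) = [(ly j, .inl (.inl (y j)))]
  lwb : ∀ j, lw (b j) = ribE C α rb j ++ (if xb j then [(true, .inl (.inl (b j)))] else [])
  lwa : ∀ j, lw (a j) = ribO C α rb j ++ (if xb j then [] else [(true, .inl (.inl (a j)))])

/-- the port of a star -/
def Sts.x {y a b : J → α} (s : Sts C y a b) (j : J) : α := if s.xb j then b j else a j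

/-- the letters of an item -/
def ilr (lk : C → LS) (lw : α → List (Bool × TkR C J α)) : α ⊕ C → List (Bool × TkR C J α)
  | .inl p => lw p
  | .inr c => (il lk (fun _ : α => true) (.inr c)).map fun q => (q.1, Sum.inl q.2)

/-- the word of a circle -/
noncomputable def wdr (grp sw : C → Prop) (lk : C → LS) (lw : α → List (Bool × TkR C J α))
    (rd : C → List (α ⊕ C)) (z : C) : List (Bool × TkR C J α) :=
  (ol grp sw lk z).map (fun q => (q.1, Sum.inl q.2)) ++ (rd z).flatMap (ilr lk lw)

/-- **a solution of one level** -/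
structure LSolR (Ct : Contour C α) (cls real grp : C → Prop) (y a b : J → α) extends
    Rd3 Ct cls y a b, Sts C y a b where
  lk : C → LS
  /-- the letters which are not items have the empty word -/
  usN : ∀ j p, (p = y j ∨ p = a j ∨ p = b j) → ¬ us p → lw p = []
  /-- near and near only over real ribbons -/
  nn : ∀ c, lk c = .nn → c ≠ Ct.r ∧ real c ∧ ¬ grp c
  root : lk Ct.r = .even
  tot : ∀ z, hl (wdr grp (swq Ct cls) lk lw rd z) = 2
  pb : ∀ z, Bd 40 (wdr grp (swq Ct cls) lk lw rd z)
  const : ∀ V : TkR C J α → B,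
    (∀ j, V (.inl (.inl (y j))) = V (.inl (.inl (toSts.x j)))) →
    (∀ c, grp c → lk c = .drop → V (.inl (.inr (c, 0))) = V (.inl (.inr (c, 1)))) →
    (∀ z, Cl V (wdr grp (swq Ct cls) lk lw rd z)) →
    ∃ k, ∀ z, ∀ q ∈ wdr grp (swq Ct cls) lk lw rd z, V q.2 = k

/-- **a solution of the top level**: the root ring has no own tokens and the total `-2`; the link
to its child `g1` (of the other class) has the state `near` or `nn` -/
structure RSolR (Ct : Contour C α) (cls real grp : C → Prop) (y a b : J → α) (g1 : C) extends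
    Rd3 Ct cls y a b, Sts C y a b where
  lk : C → LS
  usN : ∀ j p, (p = y j ∨ p = a j ∨ p = b j) → ¬ us p → lw p = []
  root : lk Ct.r = .drop ∧ ¬ grp Ct.r
  c1 : (lk g1 = .near ∨ lk g1 = .nn) ∧ ¬ grp g1
  nn : ∀ c, lk c = .nn → c ≠ Ct.r ∧ ¬ grp c ∧ (real c ∨ c = g1)
  tot : ∀ z, (z = Ct.r → hl (wdr grp (swq Ct cls) lk lw rd z) = -2) ∧
    (z ≠ Ct.r → hl (wdr grp (swq Ct cls) lk lw rd z) = 2)
  pb : ∀ z, Bd 40 (wdr grp (swq Ct cls) lk lw rd z)
  const : ∀ V : TkR C J α → B,
    (∀ j, V (.inl (.inl (y j))) = V (.inl (.inl (toSts.x j)))) →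
    (∀ c, grp c → lk c = .drop → V (.inl (.inr (c, 0))) = V (.inl (.inr (c, 1)))) →
    (∀ z, Cl V (wdr grp (swq Ct cls) lk lw rd z)) →
    ∃ k, ∀ z, ∀ q ∈ wdr grp (swq Ct cls) lk lw rd z, V q.2 = k

/-! ## Solutions without ribbons -/

section NoRib

variable {Ct : Contour C α} {cls real grp : C → Prop} {y x a b : J → α}

open Classical in
/-- the words of the letters without ribbons -/
noncomputable def lw0 (lt : α → Bool) (y x : J → α) (p : α) : List (Bool × TkR C J α) :=
  if ∃ j, p = y j ∨ p = x j then [(lt p, .inl (.inl p))] else []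

open Classical in
/-- the states of the stars without ribbons -/
noncomputable def sts0 (lt : α → Bool) (hx : ∀ j, x j = a j ∨ x j = b j)
    (hport : ∀ j, lt (x j) = true) (ha : ∀ i j, y i ≠ a j) (hb : ∀ i j, y i ≠ b j)
    (hab : ∀ i j, a i ≠ b j) (hai : Function.Injective a) (hbi : Function.Injective b) :
    Sts C y a b where
  ly j := lt (y j)
  xb j := decide (x j = b j)
  rb _ := []
  len _ := by simp
  lw := lw0 lt y x
  lwy j := by
    unfold lw0
    rw [if_pos ⟨j, Or.inl rfl⟩]
  lwb j := by
    unfold lw0 ribE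
    by_cases h : x j = b j
    · rw [if_pos ⟨j, Or.inr h.symm⟩, decide_eq_true h, ← h, hport]
      simp
    · rw [if_neg, decide_eq_false h]
      · simp
      · rintro ⟨i, h1 | h1⟩
        · exact hb i j h1.symm
        · rcases hx i with h2 | h2
          · exact hab i j (h2.symm.trans h1.symm)
          · have : j = i := hbi (h1.trans h2)
            subst this
            exact h h2
  lwa j := by
    unfold lw0 ribO
    by_cases h : x j = b j
    · rw [if_neg, decide_eq_true h]
      · simp
      · rintro ⟨i, h1 | h1⟩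
        · exact ha i j h1.symm
        · rcases hx i with h2 | h2
          · have : j = i := hai (h1.trans h2)
            subst this
            exact hab j j (h2.symm.trans h)
          · exact hab j i (h1.trans h2)
    · have h' := (hx j).resolve_right h
      rw [if_pos ⟨j, Or.inr h'.symm⟩, decide_eq_false h, ← h', hport]
      simp

lemma sts0_x {lt : α → Bool} {hx : ∀ j, x j = a j ∨ x j = b j}
    {hport : ∀ j, lt (x j) = true} {ha : ∀ i j, y i ≠ a j} {hb : ∀ i j, y i ≠ b j}
    {hab : ∀ i j, a i ≠ b j} {hai : Function.Injective a} {hbi : Function.Injective b} (j : J) :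
    (sts0 (C := C) lt hx hport ha hb hab hai hbi).x j = x j := by
  classical
  unfold Sts.x sts0
  simp only
  by_cases h : x j = b j
  · rw [if_pos (decide_eq_true h), h]
  · rw [if_neg (by simpa using h), (hx j).resolve_right h]

/-- the old word is the new one -/
lemma wdr_eq (lt : α → Bool) (grp sw : C → Prop) (lk : C → LS) (rd : C → List (α ⊕ C))
    (hrd : ∀ z i, i ∈ rd z → ∀ p, i = Sum.inl p → ∃ j, p = y j ∨ p = x j) (z : C) :
    wdr grp sw lk (lw0 (C := C) lt y x) rd z =
      (wd grp sw lk lt rd z).map fun q => (q.1, (Sum.inl q.2 : TkR C J α)) := by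
  classical
  unfold wdr wd
  rw [List.map_append]
  congr 1
  rw [List.map_flatMap]
  refine List.flatMap_congr fun i hi => ?_
  rcases i with p | c
  · have h := hrd z _ hi p rfl
    show lw0 lt y x p = _
    unfold lw0
    rw [if_pos h]
    rfl
  · show (il lk (fun _ : α => true) (.inr c)).map _ = _
    rfl

lemma Bd.map {A A' : Type*} (f : A → A') {w : List (Bool × A)} {m : ℤ} (h : Bd m w) :
    Bd m (w.map fun q => (q.1, f q.2)) := h.signs (by rw [List.map_map]; rfl)

/-- **a solution without ribbons is a solution** -/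
noncomputable def LSolX.toR (s : LSolX Ct cls real grp y x) (hx : ∀ j, x j = a j ∨ x j = b j)
    (ha : ∀ i j, y i ≠ a j) (hb : ∀ i j, y i ≠ b j)
    (hab : ∀ i j, a i ≠ b j) (hai : Function.Injective a) (hbi : Function.Injective b) :
    LSolR Ct cls real grp y a b where
  us p := ∃ j, p = y j ∨ p = x j
  usS := by
    rintro p ⟨j, h | h⟩
    · exact ⟨j, Or.inl h⟩
    · rcases hx j with h1 | h1
      · exact ⟨j, Or.inr (Or.inl (h.trans h1))⟩
      · exact ⟨j, Or.inr (Or.inr (h.trans h1))⟩
  rd := s.rd
  pw := s.pw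
  mem := s.mem
  toSts := sts0 s.lt hx s.port ha hb hab hai hbi
  lk := s.lk
  usN j p _ hp := by
    show lw0 s.lt y x p = []
    unfold lw0
    rw [if_neg hp]
  nn := s.nn
  root := s.root
  tot z := by
    have h := wdr_eq (C := C) (x := x) (y := y) s.lt grp (swq Ct cls) s.lk s.rd
      (fun z i hi p hp => ((s.mem z i).1 hi).1 p hp) z
    show hl (wdr grp (swq Ct cls) s.lk (lw0 s.lt y x) s.rd z) = 2
    rw [h, hl_map]
    exact s.tot z
  pb z := by
    have h := wdr_eq (C := C) (x := x) (y := y) s.lt grp (swq Ct cls) s.lk s.rd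
      (fun z i hi p hp => ((s.mem z i).1 hi).1 p hp) z
    show Bd 40 (wdr grp (swq Ct cls) s.lk (lw0 s.lt y x) s.rd z)
    rw [h]
    exact (s.pb z).map _
  const V hV hg hC := by
    have h := fun z => wdr_eq (C := C) (x := x) (y := y) s.lt grp (swq Ct cls) s.lk s.rd
      (fun z i hi p hp => ((s.mem z i).1 hi).1 p hp) z
    obtain ⟨k, hk⟩ := s.const (fun t => V (.inl t)) (fun j => by
      have := hV j
      rw [sts0_x] at this
      exact this) hg (fun z => by
      have h1 := hC z
      have h2 : Cl V (wdr grp (swq Ct cls) s.lk (lw0 s.lt y x) s.rd z) := h1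
      rw [h z, cl_map] at h2
      exact h2)
    refine ⟨k, fun z q hq => ?_⟩
    have h2 : q ∈ wdr grp (swq Ct cls) s.lk (lw0 s.lt y x) s.rd z := hq
    rw [h z] at h2
    obtain ⟨q', h3, rfl⟩ := List.mem_map.1 h2
    exact hk z q' h3

end NoRib

end Pool.Agent.MP42.GZ
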