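import Pool.Agent.MP42.GZ.Tab
import Pool.Agent.MP42.PL.Rec
import Pool.Agent.MP42.O3.Inv
import Pool.Agent.MP42.TQ.Hide

/-!
# Levels: states of the vertices inside a box (owner helper30)

A `Tbl` is a table of main states of a vertex, given relative to a base corner.  A global state is a
function `mn` (main states, at the base corner) and `gt` (links over the gates of bad tripods, at the
corner before the gate).  Tokens are pairs (corner, number of the lane).

`Good W x0 x1`: a state of all vertices inside a box `W` with one own token at the corner `x0` and one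
at the corner `x1` such that every solution is constant.  `LvlOut`: the same for one level, with
boxes for the components of the missing circles.  `good_of_level`: levels for all boxes give good
states for all boxes.
-/

set_option autoImplicit false

namespace Pool.Agent.MP42.GZ

open Pool.Agent.MP42.O3 Pool.Agent.MP42.O3.BM Pool.Agent.MP42.U Pool.Agent.MP42.PL
open Pool.Agent.MP42.EO

/-- a table of main states -/
structure Tbl where
  Q : Type
  non : Q
  /-- the visible word at the corner number `i`, counted from the base corner -/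
  vis : Q → ℕ → Wd
  vis_non : ∀ i, vis non i = []

variable {D : Type*} (T : Tbl) (M : BM D)

/-- the tokens of a corner -/
def tag (y : D) (w : Wd) : List (Bool × (D × ℕ)) := w.map fun q => (q.1, (y, q.2))

/-- the visible word of the main states -/
def mw (mn : D → T.Q) (y : D) : Wd := (List.range 4).flatMap fun i => T.vis (mn ((M.μ)^[i] y)) i

/-- visible words of a link over a gate -/
def gv (g : M9) : ℕ → Wd
  | 0 => (if g.R then [pl 11] else []) ++ g.D 10
  | 1 => (g.D 10).reverse ++ (if g.R then [mi 11] else [])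
  | _ => []

/-- the visible word of the links over the gates -/
def gw (gt : D → M9) (y : D) : Wd := gv (gt y) 0 ++ gv (gt (M.μ y)) 1

/-- the word at a corner: gate tokens stand next to the gate -/
def asm (y : D) (m o g : Wd) : Wd := if M.lab y = .B3 then g ++ (o ++ m) else (m ++ o) ++ g

/-- the visible word at a corner; `ow` = own tokens of the box -/
def vw (mn : D → T.Q) (gt : D → M9) (ow : D → Wd) (y : D) : List (Bool × (D × ℕ)) :=
  tag y (asm M y (mw T M mn y) (ow y) (gw M gt y))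

/-- the corners of a circle -/
noncomputable def cir (x : D) : List D := orb M.E x (Function.minimalPeriod M.E x)

/-- the word of a circle, in the direction of the circle -/
noncomputable def cw (mn : D → T.Q) (gt : D → M9) (ow : D → Wd) (x : D) : List (Bool × (D × ℕ)) :=
  (cir M x).flatMap (vw T M mn gt ow)

/-- values of the lanes -/
structure LamInv (V : D × ℕ → B) : Prop where
  m : ∀ y n, n < 10 → V (M.ν y, n) = V (y, n)
  g : ∀ y n, 10 ≤ n → M.lab y = .B2 → V (M.ν y, n) = V (y, n)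

open Classical in
/-- own tokens: one at `x0`, one at `x1` -/
noncomputable def own (cE : D → Bool) (x0 x1 : D) (n0 n1 : ℕ) (y : D) : Wd :=
  (if y = x0 then [(cE x0, n0)] else []) ++ (if y = x1 then [(cE x1, n1)] else [])

/-- the vertex of `y` can be used inside `W` -/
def Full (W : D → Prop) (y : D) : Prop :=
  ((M.lab y).isB = true ∧ ∀ z, SV M y z → W z) ∨
    ((M.lab y).isB = false ∧ ∃ z z', SV M y z ∧ SV M y z' ∧ z ≠ z' ∧ W z ∧ W z')

/-- the corners of the own tokens of a box -/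
structure Ifc (W : D → Prop) (x0 x1 : D) (n0 n1 : ℕ) : Prop where
  w0 : W x0
  w1 : W x1
  f0 : ¬ Full M W x0
  f1 : ¬ Full M W x1
  l0 : n0 < 10
  l1 : n1 < 10
  ne : ¬ (SV M x0 x1 ∧ n0 = n1)
  e : x1 = x0

/-- bounded partial sums -/
def Bd {A : Type*} (m : ℤ) (w : List (Bool × A)) : Prop :=
  ∀ u v, w = u ++ v → -m ≤ hl u ∧ hl u ≤ m

/-- the legality of states -/
structure Leg where
  okM : (D → Bool) → D → T.Q → Prop
  okG : (D → Bool) → D → M9 → Prop

variable {T M}

/-- **a good state inside a box** -/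
structure Good (Lg : Leg (D := D) T) (W : D → Prop) (x0 x1 : D) (n0 n1 : ℕ) (mn : D → T.Q)
    (gt : D → M9) (cE : D → Bool) : Prop where
  cEE : ∀ x, W x → cE (M.E x) = cE x
  sM : ∀ y, mn y ≠ T.non → Full M W y
  sG : ∀ y, gt y ≠ none → M.lab y = .B2 ∧ W y ∧ W (M.ν y)
  one : ∀ y z, mn y ≠ T.non → mn z ≠ T.non → SV M y z → y = z
  out : ∀ y, ¬ W y → mw T M mn y = []
  lM : ∀ cE' : D → Bool, (∀ y, W y → cE' y = cE y) → ∀ y, Lg.okM cE' y (mn y)
  lG : ∀ cE' : D → Bool, (∀ y, W y → cE' y = cE y) → ∀ y, Lg.okG cE' y (gt y)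
  tot : ∀ x, W x → hl (cw T M mn gt (own cE x0 x1 n0 n1) x) = if cE x then 2 else -2
  pb : ∀ x, W x → Bd 200 (cw T M mn gt (own cE x0 x1 n0 n1) x)
  const : ∀ V : D × ℕ → B, LamInv M V →
    (∀ x, W x → Cl V (cw T M mn gt (own cE x0 x1 n0 n1) x)) →
    ∃ k, ∀ x, W x → ∀ q ∈ vw T M mn gt (own cE x0 x1 n0 n1) x, V q.2 = k

/-- one step inside the missing circles -/
def StepC (M : BM D) (W S : D → Prop) (x y : D) : Prop :=
  (y = M.E x ∨ y = M.τ x) ∧ W x ∧ ¬ S x ∧ W y ∧ ¬ S y

/-- the component of a missing corner -/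
def Cmp (M : BM D) (W S : D → Prop) (x y : D) : Prop :=
  W x ∧ ¬ S x ∧ Relation.EqvGen (StepC M W S) x y

/-- the part of a level which concerns the supports -/
structure LvlCore (T : Tbl) (M : BM D) (W S : D → Prop) (mn : D → T.Q) (gt : D → M9) : Prop where
  SE : ∀ x, S (M.E x) ↔ S x
  SW : ∀ x, S x → W x
  sM : ∀ y, mn y ≠ T.non → Full M W y ∧ ∀ x, W x → ¬ S x → ¬ Full M (Cmp M W S x) y
  sG : ∀ y, gt y ≠ none → M.lab y = .B2 ∧ S y ∧ S (M.ν y)
  one : ∀ y z, mn y ≠ T.non → mn z ≠ T.non → SV M y z → y = z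
  out : ∀ y, ¬ W y → mw T M mn y = []

/-- **a level**: states of the vertices, boxes `b0`, `b1` (corners of the own tokens of the
component), `m0`, `m1` (numbers of their lanes) -/
structure LvlOut (Lg : Leg (D := D) T) (W : D → Prop) (x0 x1 : D) (n0 n1 : ℕ) (S : D → Prop)
    (mn : D → T.Q) (gt : D → M9) (cE : D → Bool) (b0 b1 : D → D) (m0 m1 : D → ℕ) : Prop
    extends LvlCore T M W S mn gt where
  S0 : S x0
  cEE : ∀ x, S x → cE (M.E x) = cE x
  inv : ∀ x, W x → ¬ S x → ∃ col, M.Inv (Cmp M W S x) col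
  box : ∀ x, W x → ¬ S x → Ifc M (Cmp M W S x) (b0 x) (b1 x) (m0 x) (m1 x)
  bcst : ∀ x y, Cmp M W S x y → b0 y = b0 x ∧ b1 y = b1 x ∧ m0 y = m0 x ∧ m1 y = m1 x
  bw : ∀ y, W y → ¬ S y → asm M y (mw T M mn y) (own cE x0 x1 n0 n1 y) [] =
    own cE (b0 y) (b1 y) (m0 y) (m1 y) y
  lM : ∀ cE' : D → Bool, (∀ y, S y → cE' y = cE y) → (∀ y, W y → ¬ S y →
    cE' (b0 y) = cE (b0 y) ∧ cE' (b1 y) = cE (b1 y)) → ∀ y, Lg.okM cE' y (mn y)
  lG : ∀ cE' : D → Bool, (∀ y, S y → cE' y = cE y) → ∀ y, Lg.okG cE' y (gt y)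
  tot : ∀ x, S x → hl (cw T M mn gt (own cE x0 x1 n0 n1) x) = if cE x then 2 else -2
  pb : ∀ x, S x → Bd 200 (cw T M mn gt (own cE x0 x1 n0 n1) x)
  const : ∀ V : D × ℕ → B, LamInv M V →
    (∀ x, S x → Cl V (cw T M mn gt (own cE x0 x1 n0 n1) x)) →
    (∀ x, W x → ¬ S x → V (b0 x, m0 x) = V (b1 x, m1 x)) →
    ∃ k, (∀ x, S x → ∀ q ∈ vw T M mn gt (own cE x0 x1 n0 n1) x, V q.2 = k) ∧
      ∀ x, W x → ¬ S x → V (b0 x, m0 x) = k

/-- connected sets of corners -/
def Cn (M : BM D) (W : D → Prop) : Prop :=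
  ∀ x y, W x → W y → Relation.EqvGen (fun a b => (b = M.E a ∨ b = M.τ a) ∧ W a ∧ W b) x y

/-- **levels exist**, for every prescribed class `κ` of the second own corner of a box -/
def LvlThm (Lg : Leg (D := D) T) : Prop :=
  ∀ (W : D → Prop) (x0 x1 : D) (n0 n1 : ℕ) (σ : Bool)
    (κ : (D → Prop) → D → D → ℕ → ℕ → Bool → Bool),
    (∀ x, W (M.E x) ↔ W x) → Cn M W → (∃ col, M.Inv W col) → Ifc M W x0 x1 n0 n1 →
    (∀ K y0 y1 k0 k1 c, (∀ x, K (M.E x) ↔ K x) → K y0 → M.E.SameCycle y0 y1 →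
      κ K y0 y1 k0 k1 c = c) →
    ∃ (S : D → Prop) (mn : D → T.Q) (gt : D → M9) (cE : D → Bool) (b0 b1 : D → D)
      (m0 m1 : D → ℕ), LvlOut (M := M) Lg W x0 x1 n0 n1 S mn gt cE b0 b1 m0 m1 ∧ cE x0 = σ ∧
      ∀ x, W x → ¬ S x →
        cE (b1 x) = κ (Cmp M W S x) (b0 x) (b1 x) (m0 x) (m1 x) (cE (b0 x))

end Pool.Agent.MP42.GZ
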