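import Pool.Agent.MP42.GZ.Lvl

/-!
# Boxes inside boxes (owner helper30)
-/

set_option autoImplicit false

namespace Pool.Agent.MP42.GZ

open Pool.Agent.MP42.O3 Pool.Agent.MP42.O3.BM Pool.Agent.MP42.U Pool.Agent.MP42.PL
open Pool.Agent.MP42.EO

variable {D : Type*} {T : Tbl} {M : BM D}

/-! ## components -/

section Cmp

variable {W S : D → Prop}

lemma Cmp.refl {x : D} (h1 : W x) (h2 : ¬ S x) : Cmp M W S x x := ⟨h1, h2, .refl _⟩

lemma StepC.symm_eqv {x y : D} (h : StepC M W S x y) : Relation.EqvGen (StepC M W S) y x :=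
  .symm _ _ (.rel _ _ h)

lemma eqv_in {x y : D} (h : Relation.EqvGen (StepC M W S) x y) :
    (W x ∧ ¬ S x) ↔ (W y ∧ ¬ S y) := by
  induction h with
  | rel x y h => exact ⟨fun _ => ⟨h.2.2.2.1, h.2.2.2.2⟩, fun _ => ⟨h.2.1, h.2.2.1⟩⟩
  | refl x => exact Iff.rfl
  | symm x y _ ih => exact ih.symm
  | trans x y z _ _ ih ih' => exact ih.trans ih'

lemma Cmp.right {x y : D} (h : Cmp M W S x y) : W y ∧ ¬ S y := (eqv_in h.2.2).1 ⟨h.1, h.2.1⟩

lemma Cmp.symm {x y : D} (h : Cmp M W S x y) : Cmp M W S y x :=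
  ⟨h.right.1, h.right.2, .symm _ _ h.2.2⟩

lemma Cmp.trans {x y z : D} (h : Cmp M W S x y) (h' : Cmp M W S y z) : Cmp M W S x z :=
  ⟨h.1, h.2.1, .trans _ _ _ h.2.2 h'.2.2⟩

lemma Cmp.eq {x y : D} (h : Cmp M W S x y) : Cmp M W S y = Cmp M W S x := by
  funext z
  exact propext ⟨fun h' => h.trans h', fun h' => h.symm.trans h'⟩

/-- the components are unions of circles and closed under the step over an edge -/
lemma Cmp.comp (hW : ∀ x, W (M.E x) ↔ W x) (hS : ∀ x, S (M.E x) ↔ S x) (x : D) :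
    M.Comp W S (Cmp M W S x) where
  WE y := by
    constructor
    · intro h
      have h1 := h.right
      have h2 : W y ∧ ¬ S y := ⟨(hW y).1 h1.1, fun h3 => h1.2 ((hS y).2 h3)⟩
      exact h.trans ⟨h1.1, h1.2, .symm _ _ (.rel _ _ ⟨Or.inl rfl, h2.1, h2.2, h1.1, h1.2⟩)⟩
    · intro h
      have h1 := h.right
      exact h.trans ⟨h1.1, h1.2, .rel _ _ ⟨Or.inl rfl, h1.1, h1.2, (hW y).2 h1.1,
        fun h3 => h1.2 ((hS y).1 h3)⟩⟩
  sub y h := h.right.1
  nS y h := h.right.2
  cl y h h1 h2 := by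
    have h3 := h.right
    exact h.trans ⟨h3.1, h3.2, .rel _ _ ⟨Or.inr rfl, h3.1, h3.2, h1, h2⟩⟩

/-- the components are connected -/
lemma Cmp.cn (x : D) : Cn M (Cmp M W S x) := by
  intro y z hy hz
  have key : ∀ {a b : D}, Relation.EqvGen (StepC M W S) a b → Cmp M W S x a →
      Relation.EqvGen (fun a b => (b = M.E a ∨ b = M.τ a) ∧ Cmp M W S x a ∧ Cmp M W S x b) a b := by
    intro a b h
    induction h with
    | rel a b h =>
      intro ha
      exact .rel _ _ ⟨h.1, ha, ha.trans ⟨h.2.1, h.2.2.1, .rel _ _ h⟩⟩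
    | refl a => exact fun _ => .refl _
    | symm a b h ih =>
      intro hb
      have hb' := hb.right
      exact .symm _ _ (ih (hb.trans ⟨hb'.1, hb'.2, .symm _ _ h⟩))
    | trans a b c h h' ih ih' =>
      intro ha
      have ha' := ha.right
      exact .trans _ _ _ (ih ha) (ih' (ha.trans ⟨ha'.1, ha'.2, h⟩))
  have h1 := hy.symm.trans hz
  exact key h1.2.2 hy

end Cmp

/-! ## vertices -/

lemma SV.muk (y : D) (i : ℕ) : SV M y ((M.μ)^[i] y) := by
  induction i with
  | zero => exact SV.refl _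
  | succ i ih =>
    rw [Function.iterate_succ_apply']
    exact ih.trans (SV.mu _)

lemma Full.congr {W : D → Prop} {y z : D} (h : SV M y z) : Full M W z ↔ Full M W y := by
  have key : ∀ {y z : D}, SV M y z → Full M W z → Full M W y := by
    intro y z h hf
    have hb := h.isB
    rcases hf with ⟨h1, h2⟩ | ⟨h1, u, v, h2, h3, h4⟩
    · left
      refine ⟨by rw [← hb]; exact h1, fun w hw => h2 w (h.symm.trans hw)⟩
    · right
      exact ⟨by rw [← hb]; exact h1, u, v, h.trans h2, h.trans h3, h4⟩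
  exact ⟨key h, key h.symm⟩

/-- two disjoint sets cannot both use a vertex -/
lemma Full.meet {W W' : D → Prop} {y : D} (h : Full M W y) (h' : Full M W' y) :
    ∃ z, W z ∧ W' z := by
  rcases h with ⟨h1, h2⟩ | ⟨h1, u, v, h2, h3, h4, h5, h6⟩
  · rcases h' with ⟨-, h3⟩ | ⟨h3, -⟩
    · exact ⟨y, h2 y (SV.refl _), h3 y (SV.refl _)⟩
    · rw [h1] at h3; exact absurd h3 (by decide)
  · rcases h' with ⟨h7, -⟩ | ⟨-, u', v', g2, g3, g4, g5, g6⟩
    · rw [h1] at h7; exact absurd h7 (by decide)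
    · have c1 := h2.cases3 h1
      have c2 := h3.cases3 h1
      have c3 := g2.cases3 h1
      have c4 := g3.cases3 h1
      by_contra hn
      push Not at hn
      have hu : ∀ z, W z → W' z → False := fun z h1 h2 => hn z h1 h2
      have n1 : u ≠ u' := fun e => hu u h5 (e ▸ g5)
      have n2 : u ≠ v' := fun e => hu u h5 (e ▸ g6)
      have n3 : v ≠ u' := fun e => hu v h6 (e ▸ g5)
      have n4 : v ≠ v' := fun e => hu v h6 (e ▸ g6)
      rcases c1 with c1 | c1 | c1 <;> rcases c2 with c2 | c2 | c2 <;>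
        rcases c3 with c3 | c3 | c3 <;> rcases c4 with c4 | c4 | c4 <;>
        first
          | exact h4 (c1.trans c2.symm)
          | exact g4 (c3.trans c4.symm)
          | exact n1 (c1.trans c3.symm)
          | exact n2 (c1.trans c4.symm)
          | exact n3 (c2.trans c3.symm)
          | exact n4 (c2.trans c4.symm)

lemma gv_none (i : ℕ) : gv none i = [] := by
  rcases i with _ | _ | i <;> rfl

lemma mw_nil {mn : D → T.Q} {y : D} (h : ∀ z, SV M y z → mn z = T.non) : mw T M mn y = [] := by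
  unfold mw
  rw [List.flatMap_eq_nil_iff]
  intro i _
  rw [h _ (SV.muk y i), T.vis_non]

lemma mw_congr {mn mn' : D → T.Q} {y : D} (h : ∀ z, SV M y z → mn z = mn' z) :
    mw T M mn y = mw T M mn' y := by
  unfold mw
  congr 1
  funext i
  rw [h _ (SV.muk y i)]

lemma asm_nil (y : D) (m o g : Wd) (h : m = [] ∨ o = []) : asm M y m o g =
    if M.lab y = .B3 then g ++ (m ++ o) else (m ++ o) ++ g := by
  unfold asm
  rcases h with h | h <;> rw [h] <;> simp

/-- the inner level -/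
lemma asm_inner {y : D} {m m' o g : Wd} (h : m = [] ∨ m' = []) :
    asm M y (m ++ m') o g = asm M y m' (asm M y m o []) g := by
  unfold asm
  rcases h with h | h <;> rw [h] <;> split_ifs <;> simp

/-! ## the union of the states -/

section Union

variable {Lg : Leg (D := D) T} {W : D → Prop} {x0 x1 : D} {n0 n1 : ℕ} {S : D → Prop}
  {mn : D → T.Q} {gt : D → M9} {cE : D → Bool} {b0 b1 : D → D} {m0 m1 : D → ℕ}

/-- the states inside the components -/
structure Inn (Lg : Leg (D := D) T) (M : BM D) (W S : D → Prop) (cE : D → Bool) (b0 b1 : D → D)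
    (m0 m1 : D → ℕ) (imn : D → D → T.Q) (igt : D → D → M9) (ic : D → D → Bool) : Prop where
  good : ∀ x, W x → ¬ S x → Good (M := M) Lg (Cmp M W S x) (b0 x) (b1 x) (m0 x) (m1 x) (imn x)
    (igt x) (ic x)
  c0 : ∀ x, W x → ¬ S x → ic x (b0 x) = cE (b0 x)
  c1 : ∀ x, W x → ¬ S x → ic x (b1 x) = cE (b1 x)
  cst : ∀ x y, Cmp M W S x y → imn y = imn x ∧ igt y = igt x ∧ ic y = ic x

open Classical in
/-- main states of the union -/
noncomputable def uMn (M : BM D) (W S : D → Prop) (mn : D → T.Q) (imn : D → D → T.Q) (y : D) :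
    T.Q :=
  if mn y ≠ T.non then mn y
  else if h : ∃ x, W x ∧ ¬ S x ∧ Full M (Cmp M W S x) y then imn h.choose y else T.non

open Classical in
/-- gate states of the union -/
noncomputable def uGt (W S : D → Prop) (gt : D → M9) (igt : D → D → M9) (y : D) : M9 :=
  if W y ∧ ¬ S y then igt y y else gt y

open Classical in
/-- classes of the union -/
noncomputable def uC (W S : D → Prop) (cE : D → Bool) (ic : D → D → Bool) (y : D) : Bool :=
  if W y ∧ ¬ S y then ic y y else cE y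

variable {imn : D → D → T.Q} {igt : D → D → M9} {ic : D → D → Bool}

lemma uMn_eq (hI : Inn Lg M W S cE b0 b1 m0 m1 imn igt ic) {x y : D} (h1 : W x) (h2 : ¬ S x)
    (hF : Full M (Cmp M W S x) y) (hm : mn y = T.non) : uMn M W S mn imn y = imn x y := by
  classical
  have h : ∃ x, W x ∧ ¬ S x ∧ Full M (Cmp M W S x) y := ⟨x, h1, h2, hF⟩
  unfold uMn
  rw [if_neg (by rw [hm]; simp), dif_pos h]
  obtain ⟨z, h3, h4⟩ := Full.meet h.choose_spec.2.2 hF
  have h5 : Cmp M W S x h.choose := h4.trans h3.symm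
  rw [(hI.cst _ _ h5).1]

lemma uMn_level {y : D} (h : mn y ≠ T.non) : uMn M W S mn imn y = mn y := by
  unfold uMn
  rw [if_pos h]

lemma uMn_none {y : D} (hm : mn y = T.non) (hn : ∀ x, W x → ¬ S x → ¬ Full M (Cmp M W S x) y) :
    uMn M W S mn imn y = T.non := by
  unfold uMn
  rw [if_neg (by rw [hm]; simp), dif_neg (by push Not; exact hn)]

/-- inner states vanish at the vertices which cannot be used inside -/
lemma imn_non (hI : Inn Lg M W S cE b0 b1 m0 m1 imn igt ic) {x y : D} (h1 : W x) (h2 : ¬ S x)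
    (hn : ¬ Full M (Cmp M W S x) y) : imn x y = T.non := by
  by_contra h
  exact hn ((hI.good x h1 h2).sM y h)

lemma mw_level (L : LvlCore T M W S mn gt)
    (hI : Inn Lg M W S cE b0 b1 m0 m1 imn igt ic) {y z : D} (hz : SV M y z) (hm : mn z ≠ T.non) :
    mw T M (uMn M W S mn imn) y = mw T M mn y ∧ ∀ x, W x → ¬ S x → mw T M (imn x) y = [] := by
  have hF : ∀ w, SV M y w → ∀ x, W x → ¬ S x → ¬ Full M (Cmp M W S x) w := by
    intro w hw x h1 h2 h3
    exact (L.sM z hm).2 x h1 h2 ((Full.congr (hz.symm.trans hw)).1 h3)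
  constructor
  · refine mw_congr fun w hw => ?_
    by_cases hmw : mn w = T.non
    · rw [uMn_none hmw (hF w hw), hmw]
    · exact uMn_level hmw
  · intro x h1 h2
    exact mw_nil fun w hw => imn_non hI h1 h2 (hF w hw x h1 h2)

lemma mw_inner (hI : Inn Lg M W S cE b0 b1 m0 m1 imn igt ic) {x y : D} (hm : ∀ z, SV M y z →
    mn z = T.non) (h1 : W x) (h2 : ¬ S x) (hF : Full M (Cmp M W S x) y) :
    mw T M (uMn M W S mn imn) y = mw T M (imn x) y :=
  mw_congr fun w hw => uMn_eq hI h1 h2 ((Full.congr hw).2 hF) (hm w hw)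

lemma mw_none {y : D} (hm : ∀ z, SV M y z → mn z = T.non)
    (hn : ∀ x, W x → ¬ S x → ¬ Full M (Cmp M W S x) y) :
    mw T M (uMn M W S mn imn) y = [] :=
  mw_nil fun w hw => uMn_none (hm w hw) fun x h1 h2 h3 => hn x h1 h2 ((Full.congr hw).1 h3)

/-- the main words of the union -/
lemma mw_out (L : LvlCore T M W S mn gt)
    (hI : Inn Lg M W S cE b0 b1 m0 m1 imn igt ic) {y : D} (hy : ¬ (W y ∧ ¬ S y)) :
    mw T M (uMn M W S mn imn) y = mw T M mn y := by
  by_cases hl : ∃ z, SV M y z ∧ mn z ≠ T.non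
  · obtain ⟨z, hz, hm⟩ := hl
    exact (mw_level L hI hz hm).1
  · push Not at hl
    rw [mw_nil hl]
    by_cases hF : ∃ x, W x ∧ ¬ S x ∧ Full M (Cmp M W S x) y
    · obtain ⟨x, h1, h2, hF⟩ := hF
      rw [mw_inner hI hl h1 h2 hF]
      exact (hI.good x h1 h2).out y fun h => hy h.right
    · push Not at hF
      exact mw_none hl hF

lemma mw_in (L : LvlCore T M W S mn gt)
    (hI : Inn Lg M W S cE b0 b1 m0 m1 imn igt ic) {y : D} (h1 : W y) (h2 : ¬ S y) :
    mw T M (uMn M W S mn imn) y = mw T M mn y ++ mw T M (imn y) y ∧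
      (mw T M mn y = [] ∨ mw T M (imn y) y = []) := by
  by_cases hl : ∃ z, SV M y z ∧ mn z ≠ T.non
  · obtain ⟨z, hz, hm⟩ := hl
    obtain ⟨h3, h4⟩ := mw_level L hI hz hm
    rw [h3, h4 y h1 h2, List.append_nil]
    exact ⟨rfl, Or.inr rfl⟩
  · push Not at hl
    rw [mw_nil (mn := mn) hl, List.nil_append]
    refine ⟨?_, Or.inl rfl⟩
    by_cases hF : Full M (Cmp M W S y) y
    · exact mw_inner hI hl h1 h2 hF
    · have h3 : mw T M (imn y) y = [] :=
        mw_nil fun w hw => imn_non hI h1 h2 fun h => hF ((Full.congr hw).1 h)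
      rw [h3]
      by_cases hF' : ∃ x, W x ∧ ¬ S x ∧ Full M (Cmp M W S x) y
      · obtain ⟨x, g1, g2, hF'⟩ := hF'
        rw [mw_inner hI hl g1 g2 hF']
        refine (hI.good x g1 g2).out y fun h => hF ?_
        rw [h.eq]
        exact hF'
      · push Not at hF'
        exact mw_none hl hF'

/-- the gate words of the union -/
lemma gw_out (L : LvlCore T M W S mn gt)
    (hI : Inn Lg M W S cE b0 b1 m0 m1 imn igt ic) {y : D} (hy : ¬ (W y ∧ ¬ S y)) :
    gw M (uGt W S gt igt) y = gw M gt y := by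
  unfold gw uGt
  rw [if_neg hy]
  congr 1
  split_ifs with h
  · have h1 : igt (M.μ y) (M.μ y) = none := by
      by_contra h3
      have h4 := (hI.good _ h.1 h.2).sG _ h3
      have h5 := h4.2.2
      rw [ν_μ] at h5
      exact hy h5.right
    have h2 : gt (M.μ y) = none := by
      by_contra h3
      exact h.2 (L.sG _ h3).2.1
    rw [h1, h2]
  · rfl

lemma gw_in (L : LvlCore T M W S mn gt)
    (hI : Inn Lg M W S cE b0 b1 m0 m1 imn igt ic) (hW : ∀ x, W (M.E x) ↔ W x) {y : D}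
    (h1 : W y) (h2 : ¬ S y) : gw M (uGt W S gt igt) y = gw M (igt y) y := by
  unfold gw uGt
  rw [if_pos ⟨h1, h2⟩]
  congr 1
  have hC := Cmp.comp (M := M) hW L.SE y
  split_ifs with h
  · -- the same component
    have h3 : Cmp M W S y (M.μ y) := by
      have e : M.E (M.μ y) = M.τ y := E_μ y
      rw [← hC.WE, e]
      refine hC.cl y (Cmp.refl h1 h2) ?_ ?_
      · rw [← e, hW]; exact h.1
      · rw [← e, L.SE]; exact h.2
    rw [(hI.cst _ _ h3).2.1]
  · have h3 : gt (M.μ y) = none := by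
      by_contra h3
      have h4 := (L.sG _ h3).2.2
      rw [ν_μ] at h4
      exact h2 h4
    have h5 : igt y (M.μ y) = none := by
      by_contra h5
      exact h ((hI.good y h1 h2).sG _ h5).2.1.right
    rw [h3, h5]

lemma gwl_in (L : LvlCore T M W S mn gt) {y : D}
    (h2 : ¬ S y) : gw M gt y = [] := by
  unfold gw
  have h3 : gt y = none := by
    by_contra h3
    exact h2 (L.sG _ h3).2.1
  have h4 : gt (M.μ y) = none := by
    by_contra h3
    have h4 := (L.sG _ h3).2.2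
    rw [ν_μ] at h4
    exact h2 h4
  rw [h3, h4]; rfl

/-- the words of the union at the reached corners -/
lemma vw_out (L : LvlCore T M W S mn gt)
    (hI : Inn Lg M W S cE b0 b1 m0 m1 imn igt ic) (ow : D → Wd) {y : D} (hy : S y) :
    vw T M (uMn M W S mn imn) (uGt W S gt igt) ow y = vw T M mn gt ow y := by
  unfold vw
  rw [mw_out L hI fun h => h.2 hy, gw_out L hI fun h => h.2 hy]

/-- the words of the union at the missing corners -/
lemma vw_in (L : LvlCore T M W S mn gt)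
    (hI : Inn Lg M W S cE b0 b1 m0 m1 imn igt ic) (hW : ∀ x, W (M.E x) ↔ W x) {y : D}
    (h1 : W y) (h2 : ¬ S y) {ow ow' : D → Wd} (hw : asm M y (mw T M mn y) (ow y) [] = ow' y) :
    vw T M (uMn M W S mn imn) (uGt W S gt igt) ow y = vw T M (imn y) (igt y) ow' y := by
  unfold vw
  obtain ⟨h3, h4⟩ := mw_in L hI h1 h2
  rw [h3, gw_in L hI hW h1 h2, asm_inner h4, hw]

end Union

/-! ## circles -/

section Circles

variable [Finite D]

omit [Finite D] in
lemma iter_E (f : Equiv.Perm D) (x : D) (n : ℕ) : f^[n] x = (f ^ n) x := by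
  rw [← Equiv.Perm.iterate_eq_pow]

lemma per_pos (x : D) : 0 < Function.minimalPeriod M.E x := by
  refine Function.minimalPeriod_pos_of_mem_periodicPts ?_
  exact M.E.injective.mem_periodicPts x

lemma mem_cir {x y : D} : y ∈ cir M x ↔ M.E.SameCycle x y := by
  unfold cir orb
  rw [List.mem_map]
  constructor
  · rintro ⟨n, -, rfl⟩
    rw [iter_E]
    exact ⟨n, rfl⟩
  · intro h
    obtain ⟨n, hn⟩ := h.exists_nat_pow_eq
    refine ⟨n % Function.minimalPeriod M.E x, List.mem_range.2 (Nat.mod_lt _ (per_pos x)), ?_⟩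
    rw [Function.iterate_mod_minimalPeriod_eq, iter_E, hn]

lemma cyc_of {P : D → Prop} (hP : ∀ x, P (M.E x) ↔ P x) {x y : D} (h : M.E.SameCycle x y) :
    P y ↔ P x := by
  obtain ⟨n, rfl⟩ := h.exists_nat_pow_eq
  clear h
  induction n with
  | zero => exact Iff.rfl
  | succ n ih =>
    rw [pow_succ', Equiv.Perm.mul_apply, hP]
    exact ih

lemma cyc_of' {P : D → Prop} {c : D → Bool} (hP : ∀ x, P (M.E x) ↔ P x)
    (hc : ∀ x, P x → c (M.E x) = c x) {x y : D} (hx : P x) (h : M.E.SameCycle x y) :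
    c y = c x := by
  obtain ⟨n, rfl⟩ := h.exists_nat_pow_eq
  have key : P ((M.E ^ n) x) ∧ c ((M.E ^ n) x) = c x := by
    clear h
    induction n with
    | zero => exact ⟨hx, rfl⟩
    | succ n ih =>
      rw [pow_succ', Equiv.Perm.mul_apply]
      exact ⟨(hP _).2 ih.1, by rw [hc _ ih.1]; exact ih.2⟩
  exact key.2

lemma cw_congr {mn mn' : D → T.Q} {gt gt' : D → M9} {ow ow' : D → Wd} {P : D → Prop}
    (hP : ∀ x, P (M.E x) ↔ P x)
    (h : ∀ y, P y → vw T M mn gt ow y = vw T M mn' gt' ow' y) {x : D} (hx : P x) :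
    cw T M mn gt ow x = cw T M mn' gt' ow' x := by
  unfold cw
  refine List.flatMap_congr fun y hy => ?_
  exact h y ((cyc_of hP (mem_cir.1 hy)).2 hx)

end Circles

/-! ## the union is good -/

section Main

variable [Finite D] {Lg : Leg (D := D) T} {W : D → Prop} {x0 x1 : D} {n0 n1 : ℕ} {S : D → Prop}
  {mn : D → T.Q} {gt : D → M9} {cE : D → Bool} {b0 b1 : D → D} {m0 m1 : D → ℕ}
  {imn : D → D → T.Q} {igt : D → D → M9} {ic : D → D → Bool}

omit [Finite D] in
lemma uC_out {y : D} (h : S y) : uC W S cE ic y = cE y := if_neg fun h1 => h1.2 h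

omit [Finite D] in
lemma uC_in (hI : Inn Lg M W S cE b0 b1 m0 m1 imn igt ic) {x y : D} (h : Cmp M W S x y) :
    uC W S cE ic y = ic x y := by
  unfold uC
  rw [if_pos h.right, (hI.cst _ _ h).2.2]

omit [Finite D] in
lemma own_congr {c c' : D → Bool} {x0 x1 : D} {n0 n1 : ℕ} (h0 : c x0 = c' x0) (h1 : c x1 = c' x1) :
    own c x0 x1 n0 n1 = own c' x0 x1 n0 n1 := by
  funext y
  unfold own
  rw [h0, h1]

omit [Finite D] in
/-- the class of the second own corner -/
lemma uC_x1 (hx1 : W x1) (L : LvlOut (M := M) Lg W x0 x1 n0 n1 S mn gt cE b0 b1 m0 m1)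
    (hI : Inn Lg M W S cE b0 b1 m0 m1 imn igt ic) : uC W S cE ic x1 = cE x1 := by
  classical
  by_cases h : S x1
  · exact uC_out h
  · have h1 := L.bw x1 hx1 h
    have h2 : asm M x1 (mw T M mn x1) (own cE x0 x1 n0 n1 x1) [] ≠ [] := by
      unfold asm own
      rw [if_pos (rfl : x1 = x1)]
      split_ifs <;> simp
    rw [h1] at h2
    have h3 : x1 = b0 x1 ∨ x1 = b1 x1 := by
      by_contra h3
      push Not at h3
      apply h2
      unfold own
      rw [if_neg h3.1, if_neg h3.2]; rfl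
    rw [uC_in hI (Cmp.refl hx1 h)]
    rcases h3 with h3 | h3
    · have h4 := hI.c0 x1 hx1 h
      rw [← h3] at h4
      exact h4
    · have h4 := hI.c1 x1 hx1 h
      rw [← h3] at h4
      exact h4

/-- **the union of a level and of good states in the boxes is good** -/
theorem union_good (hW : ∀ x, W (M.E x) ↔ W x) (hx1 : W x1)
    (L : LvlOut (M := M) Lg W x0 x1 n0 n1 S mn gt cE b0 b1 m0 m1)
    (hI : Inn Lg M W S cE b0 b1 m0 m1 imn igt ic) :
    Good (M := M) Lg W x0 x1 n0 n1 (uMn M W S mn imn) (uGt W S gt igt) (uC W S cE ic) := by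
  classical
  have hown : own (uC W S cE ic) x0 x1 n0 n1 = own cE x0 x1 n0 n1 :=
    own_congr (uC_out L.S0) (uC_x1 hx1 L hI)
  -- the words
  have hvo : ∀ y, S y → vw T M (uMn M W S mn imn) (uGt W S gt igt) (own (uC W S cE ic) x0 x1 n0 n1) y
      = vw T M mn gt (own cE x0 x1 n0 n1) y := by
    intro y hy
    rw [hown]
    exact vw_out L.toLvlCore hI _ hy
  have hvi : ∀ x, W x → ¬ S x → ∀ y, Cmp M W S x y →
      vw T M (uMn M W S mn imn) (uGt W S gt igt) (own (uC W S cE ic) x0 x1 n0 n1) y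
      = vw T M (imn x) (igt x) (own (ic x) (b0 x) (b1 x) (m0 x) (m1 x)) y := by
    intro x h1 h2 y hy
    rw [hown]
    have h3 := hy.right
    rw [vw_in L.toLvlCore hI hW h3.1 h3.2 (ow' := own cE (b0 y) (b1 y) (m0 y) (m1 y)) (L.bw y h3.1 h3.2)]
    obtain ⟨e1, e2, e3, e4⟩ := L.bcst x y hy
    obtain ⟨g1, g2, -⟩ := hI.cst x y hy
    rw [e1, e2, e3, e4, g1, g2]
    rw [own_congr (c := cE) (c' := ic x) (hI.c0 x h1 h2).symm (hI.c1 x h1 h2).symm]
  have hco : ∀ x, S x → cw T M (uMn M W S mn imn) (uGt W S gt igt) (own (uC W S cE ic) x0 x1 n0 n1) x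
      = cw T M mn gt (own cE x0 x1 n0 n1) x := fun x hx => cw_congr L.SE hvo hx
  have hci : ∀ x, W x → ¬ S x → ∀ y, Cmp M W S x y →
      cw T M (uMn M W S mn imn) (uGt W S gt igt) (own (uC W S cE ic) x0 x1 n0 n1) y
      = cw T M (imn x) (igt x) (own (ic x) (b0 x) (b1 x) (m0 x) (m1 x)) y := by
    intro x h1 h2 y hy
    exact cw_congr (Cmp.comp hW L.SE x).WE (hvi x h1 h2) hy
  refine ⟨?_, ?_, ?_, ?_, ?_, ?_, ?_, ?_, ?_, ?_⟩
  · -- cEE
    intro x hx
    by_cases h : S x
    · rw [uC_out h, uC_out ((L.SE x).2 h), L.cEE x h]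
    · have h1 := Cmp.refl (M := M) hx h
      rw [uC_in hI h1, uC_in hI (((Cmp.comp hW L.SE x).WE x).2 h1)]
      exact (hI.good x hx h).cEE x h1
  · -- sM
    intro y hy
    by_cases h : mn y = T.non
    · by_cases hF : ∃ x, W x ∧ ¬ S x ∧ Full M (Cmp M W S x) y
      · obtain ⟨x, h1, h2, hF⟩ := hF
        rcases hF with ⟨g1, g2⟩ | ⟨g1, u, v, g2, g3, g4, g5, g6⟩
        · exact Or.inl ⟨g1, fun z hz => (g2 z hz).right.1⟩
        · exact Or.inr ⟨g1, u, v, g2, g3, g4, g5.right.1, g6.right.1⟩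
      · push Not at hF
        exact absurd (uMn_none h hF) hy
    · exact (L.sM y h).1
  · -- sG
    intro y hy
    unfold uGt at hy
    split_ifs at hy with h
    · obtain ⟨h1, h2, h3⟩ := (hI.good y h.1 h.2).sG y hy
      exact ⟨h1, h2.right.1, h3.right.1⟩
    · obtain ⟨h1, h2, h3⟩ := L.sG y hy
      exact ⟨h1, L.SW _ h2, L.SW _ h3⟩
  · -- one
    intro y z hy hz hyz
    by_cases h : mn y = T.non
    · obtain ⟨x, h1, h2, hF⟩ : ∃ x, W x ∧ ¬ S x ∧ Full M (Cmp M W S x) y := by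
        by_contra hF
        push Not at hF
        exact hy (uMn_none h hF)
      have hz' : mn z = T.non := by
        by_contra h3
        exact (L.sM z h3).2 x h1 h2 ((Full.congr hyz).2 hF)
      rw [uMn_eq hI h1 h2 hF h] at hy
      rw [uMn_eq hI h1 h2 ((Full.congr hyz).2 hF) hz'] at hz
      exact (hI.good x h1 h2).one y z hy hz hyz
    · have hz' : mn z ≠ T.non := by
        intro h3
        obtain ⟨x, h1, h2, hF⟩ : ∃ x, W x ∧ ¬ S x ∧ Full M (Cmp M W S x) z := by
          by_contra hF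
          push Not at hF
          exact hz (uMn_none h3 hF)
        exact (L.sM y h).2 x h1 h2 ((Full.congr hyz).1 hF)
      exact L.one y z h hz' hyz
  · -- out
    intro y hy
    rw [mw_out L.toLvlCore hI fun h => hy h.1]
    exact L.out y hy
  · -- lM
    intro cE' hc y
    have hcS : ∀ y, S y → cE' y = cE y := fun y hy => by rw [hc y (L.SW y hy), uC_out hy]
    have hcb : ∀ y, W y → ¬ S y → cE' (b0 y) = cE (b0 y) ∧ cE' (b1 y) = cE (b1 y) := by
      intro y h1 h2
      have h3 := (L.box y h1 h2).w0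
      have h4 := (L.box y h1 h2).w1
      constructor
      · rw [hc _ h3.right.1, uC_in hI h3, hI.c0 y h1 h2]
      · rw [hc _ h4.right.1, uC_in hI h4, hI.c1 y h1 h2]
    by_cases h : mn y = T.non
    · by_cases hF : ∃ x, W x ∧ ¬ S x ∧ Full M (Cmp M W S x) y
      · obtain ⟨x, h1, h2, hF⟩ := hF
        rw [uMn_eq hI h1 h2 hF h]
        refine (hI.good x h1 h2).lM cE' (fun z hz => ?_) y
        rw [hc z hz.right.1, uC_in hI hz]
      · push Not at hF
        rw [uMn_none h hF, ← h]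
        exact L.lM cE' hcS hcb y
    · rw [uMn_level h]
      exact L.lM cE' hcS hcb y
  · -- lG
    intro cE' hc y
    unfold uGt
    split_ifs with h
    · refine (hI.good y h.1 h.2).lG cE' (fun z hz => ?_) y
      rw [hc z hz.right.1, uC_in hI hz]
    · exact L.lG cE' (fun y hy => by rw [hc y (L.SW y hy), uC_out hy]) y
  · -- tot
    intro x hx
    by_cases h : S x
    · rw [hco x h, uC_out h]
      exact L.tot x h
    · have h1 := Cmp.refl (M := M) hx h
      rw [hci x hx h x h1, uC_in hI h1]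
      exact (hI.good x hx h).tot x h1
  · -- pb
    intro x hx
    by_cases h : S x
    · rw [hco x h]
      exact L.pb x h
    · have h1 := Cmp.refl (M := M) hx h
      rw [hci x hx h x h1]
      exact (hI.good x hx h).pb x h1
  · -- const
    intro V hV hcl
    have hbox : ∀ x, W x → ¬ S x → (∀ y, Cmp M W S x y → ∀ q ∈ vw T M (imn x) (igt x)
        (own (ic x) (b0 x) (b1 x) (m0 x) (m1 x)) y, V q.2 = V (b0 x, m0 x)) ∧
        V (b0 x, m0 x) = V (b1 x, m1 x) := by
      intro x h1 h2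
      obtain ⟨k, hk⟩ := (hI.good x h1 h2).const V hV (by
        intro y hy
        rw [← hci x h1 h2 y hy]
        exact hcl y hy.right.1)
      have e0 : V (b0 x, m0 x) = k := by
        refine hk (b0 x) (L.box x h1 h2).w0 (ic x (b0 x), (b0 x, m0 x)) ?_
        unfold vw tag
        refine List.mem_map.2 ⟨(ic x (b0 x), m0 x), ?_, rfl⟩
        unfold asm own
        rw [if_pos rfl]
        split_ifs <;> simp
      have e1 : V (b1 x, m1 x) = k := by
        refine hk (b1 x) (L.box x h1 h2).w1 (ic x (b1 x), (b1 x, m1 x)) ?_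
        unfold vw tag
        refine List.mem_map.2 ⟨(ic x (b1 x), m1 x), ?_, rfl⟩
        unfold asm own
        rw [if_pos (rfl : b1 x = b1 x)]
        split_ifs <;> simp
      exact ⟨fun y hy q hq => by rw [hk y hy q hq, e0], by rw [e0, e1]⟩
    obtain ⟨k, hk1, hk2⟩ := L.const V hV (by
      intro x hx
      rw [← hco x hx]
      exact hcl x (L.SW x hx)) fun x h1 h2 => (hbox x h1 h2).2
    refine ⟨k, fun x hx q hq => ?_⟩
    by_cases h : S x
    · rw [hvo x h] at hq
      exact hk1 x h q hq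
    · have h1 := Cmp.refl (M := M) hx h
      rw [hvi x hx h x h1] at hq
      rw [(hbox x hx h).1 x h1 q hq]
      exact hk2 x hx h

/-- **good states in all boxes** -/
theorem good_of_level (hT : LvlThm (M := M) Lg) : ∀ (n : ℕ) (W : D → Prop),
    Nat.card {x // W x} ≤ n → (∀ x, W (M.E x) ↔ W x) → Cn M W → (∃ col, M.Inv W col) →
    ∀ (x0 x1 : D) (n0 n1 : ℕ) (σ : Bool), Ifc M W x0 x1 n0 n1 →
    ∃ (mn : D → T.Q) (gt : D → M9) (cE : D → Bool),
      Good (M := M) Lg W x0 x1 n0 n1 mn gt cE ∧ cE x0 = σ := by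
  classical
  intro n
  induction n with
  | zero =>
    intro W hc _ _ _ x0 x1 n0 n1 σ hi
    exfalso
    have h1 : IsEmpty {x // W x} := by
      rw [← Finite.card_eq_zero_iff]
      omega
    exact h1.false ⟨x0, hi.w0⟩
  | succ n ih =>
    intro W hc hW hcn hinv x0 x1 n0 n1 σ hi
    obtain ⟨P, hP⟩ : ∃ P : (D → Prop) → D → D → ℕ → ℕ → Bool → Prop, P = fun K y0 y1 k0 k1 c =>
      ∃ (mn : D → T.Q) (gt : D → M9) (cE : D → Bool),
        Good (M := M) Lg K y0 y1 k0 k1 mn gt cE ∧ cE y0 = c := ⟨_, rfl⟩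
    -- a fixed choice
    have hch : ∀ (K : D → Prop) (y0 y1 : D) (k0 k1 : ℕ) (c : Bool),
        ∃ (mn : D → T.Q) (gt : D → M9) (cE : D → Bool), cE y0 = c ∧ (P K y0 y1 k0 k1 c →
          Good (M := M) Lg K y0 y1 k0 k1 mn gt cE) ∧ (¬ P K y0 y1 k0 k1 c → ∀ y, cE y = c) := by
      intro K y0 y1 k0 k1 c
      by_cases h : P K y0 y1 k0 k1 c
      · rw [hP] at h
        obtain ⟨mn, gt, cE, h1, h2⟩ := h
        exact ⟨mn, gt, cE, h2, fun _ => h1, fun h3 => absurd (by rw [hP]; exact ⟨mn, gt, cE, h1, h2⟩) h3⟩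
      · exact ⟨fun _ => T.non, fun _ => none, fun _ => c, rfl, fun h1 => absurd h1 h, fun _ _ => rfl⟩
    choose fm fg fc hf1 hf2 hf3 using hch
    obtain ⟨S, mn, gt, cE, b0, b1, m0, m1, L, hσ, hκ⟩ := hT W x0 x1 n0 n1 σ
      (fun K y0 y1 k0 k1 c => fc K y0 y1 k0 k1 c y1) hW hcn hinv hi (by
        intro K y0 y1 k0 k1 c hK hy0 hs
        show fc K y0 y1 k0 k1 c y1 = c
        by_cases h : P K y0 y1 k0 k1 c
        · rw [cyc_of' hK (hf2 _ _ _ _ _ _ h).cEE hy0 hs]
          exact hf1 _ _ _ _ _ _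
        · exact hf3 _ _ _ _ _ _ h y1)
    have hcard : ∀ x, W x → ¬ S x → Nat.card {y // Cmp M W S x y} ≤ n := by
      intro x h1 h2
      have h3 : Nat.card {y // Cmp M W S x y} < Nat.card {x // W x} := by
        have h4 : ∀ y, Cmp M W S x y → W y := fun y hy => hy.right.1
        have e1 : Nat.card {y // Cmp M W S x y} = (Set.ncard {y | Cmp M W S x y}) := rfl
        have e2 : Nat.card {y // W y} = (Set.ncard {y | W y}) := rfl
        rw [e1, e2]
        refine Set.ncard_lt_ncard ?_ (Set.toFinite _)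
        refine ⟨fun y hy => h4 y hy, fun h5 => ?_⟩
        exact (h5 (show x0 ∈ {y | W y} from hi.w0) : Cmp M W S x x0).right.2 L.S0
      omega
    have hPx : ∀ x, W x → ¬ S x → P (Cmp M W S x) (b0 x) (b1 x) (m0 x) (m1 x) (cE (b0 x)) := by
      intro x h1 h2
      rw [hP]
      exact ih _ (hcard x h1 h2) (Cmp.comp hW L.SE x).WE (Cmp.cn x) (L.inv x h1 h2) _ _ _ _ _
        (L.box x h1 h2)
    have hI : Inn Lg M W S cE b0 b1 m0 m1
        (fun x => fm (Cmp M W S x) (b0 x) (b1 x) (m0 x) (m1 x) (cE (b0 x)))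
        (fun x => fg (Cmp M W S x) (b0 x) (b1 x) (m0 x) (m1 x) (cE (b0 x)))
        (fun x => fc (Cmp M W S x) (b0 x) (b1 x) (m0 x) (m1 x) (cE (b0 x))) := by
      refine ⟨fun x h1 h2 => hf2 _ _ _ _ _ _ (hPx x h1 h2), fun x h1 h2 => hf1 _ _ _ _ _ _,
        fun x h1 h2 => (hκ x h1 h2).symm, ?_⟩
      intro x y h
      obtain ⟨e1, e2, e3, e4⟩ := L.bcst x y h
      rw [h.eq, e1, e2, e3, e4]
      exact ⟨rfl, rfl, rfl⟩
    exact ⟨_, _, _, union_good hW hi.w1 L hI, by rw [uC_out L.S0]; exact hσ⟩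

end Main

end Pool.Agent.MP42.GZ
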