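import Pool.Agent.MP42.GZ.LvlX

/-!
# The union of a level and of good states in its boxes, with extra lanes (owner helper28)
-/

set_option autoImplicit false

namespace Pool.Agent.MP42.GZ

open Pool.Agent.MP42.O3 Pool.Agent.MP42.O3.BM Pool.Agent.MP42.U Pool.Agent.MP42.PL
open Pool.Agent.MP42.EO

variable {D : Type*} {T : Tbl} {M : BM D}

/-! ## the union of the states -/

section Union

variable {Lg : Leg (D := D) T} {W : D → Prop} {S : D → Prop}
  {mn : D → T.Q} {gt : D → M9} {ex : D → Wd} {cE : D → Bool} {b0 b1 : D → D} {m0 m1 : D → ℕ}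

/-- the states inside the components -/
structure InnX (Lg : Leg (D := D) T) (M : BM D) (W S : D → Prop) (cE : D → Bool) (b0 b1 : D → D)
    (m0 m1 : D → ℕ) (imn : D → D → T.Q) (igt : D → D → M9) (iex : D → D → Wd)
    (ic : D → D → Bool) : Prop where
  good : ∀ x, W x → ¬ S x → GoodX (M := M) Lg (Cmp M W S x) (b0 x) (b1 x) (m0 x) (m1 x) (imn x)
    (igt x) (iex x) (ic x)
  c0 : ∀ x, W x → ¬ S x → ic x (b0 x) = cE (b0 x)
  c1 : ∀ x, W x → ¬ S x → ic x (b1 x) = cE (b1 x)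
  cst : ∀ x y, Cmp M W S x y → imn y = imn x ∧ igt y = igt x ∧ iex y = iex x ∧ ic y = ic x

open Classical in
/-- extra lanes of the union -/
noncomputable def uEx (W S : D → Prop) (ex : D → Wd) (iex : D → D → Wd) (y : D) : Wd :=
  if W y ∧ ¬ S y then iex y y else ex y

variable {imn : D → D → T.Q} {igt : D → D → M9} {iex : D → D → Wd} {ic : D → D → Bool}

lemma uMn_eqX (hI : InnX Lg M W S cE b0 b1 m0 m1 imn igt iex ic) {x y : D} (h1 : W x) (h2 : ¬ S x)
    (hF : Full M (Cmp M W S x) y) (hm : mn y = T.non) : uMn M W S mn imn y = imn x y := by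
  classical
  have h : ∃ x, W x ∧ ¬ S x ∧ Full M (Cmp M W S x) y := ⟨x, h1, h2, hF⟩
  unfold uMn
  rw [if_neg (by rw [hm]; simp), dif_pos h]
  obtain ⟨z, h3, h4⟩ := Full.meet h.choose_spec.2.2 hF
  have h5 : Cmp M W S x h.choose := h4.trans h3.symm
  rw [(hI.cst _ _ h5).1]

/-- inner states vanish at the vertices which cannot be used inside -/
lemma imn_nonX (hI : InnX Lg M W S cE b0 b1 m0 m1 imn igt iex ic) {x y : D} (h1 : W x)
    (h2 : ¬ S x) (hn : ¬ Full M (Cmp M W S x) y) : imn x y = T.non := by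
  by_contra h
  exact hn ((hI.good x h1 h2).sM y h)

lemma mw_levelX (L : LvlCore T M W S mn gt)
    (hI : InnX Lg M W S cE b0 b1 m0 m1 imn igt iex ic) {y z : D} (hz : SV M y z)
    (hm : mn z ≠ T.non) :
    mw T M (uMn M W S mn imn) y = mw T M mn y ∧ ∀ x, W x → ¬ S x → mw T M (imn x) y = [] := by
  have hF : ∀ w, SV M y w → ∀ x, W x → ¬ S x → ¬ Full M (Cmp M W S x) w := by
    intro w hw x h1 h2 h3
    exact (L.sM z hm).2 x h1 h2 ((Full.congr (hz.symm.trans hw)).1 h3)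
  constructor
  · refine mw_congr fun w hw => ?_
    by_cases hmw : mn w = T.non
    · rw [uMn_none hmw (hF w hw), hmw]
    · exact uMn_level hmw
  · intro x h1 h2
    exact mw_nil fun w hw => imn_nonX hI h1 h2 (hF w hw x h1 h2)

lemma mw_innerX (hI : InnX Lg M W S cE b0 b1 m0 m1 imn igt iex ic) {x y : D}
    (hm : ∀ z, SV M y z → mn z = T.non) (h1 : W x) (h2 : ¬ S x) (hF : Full M (Cmp M W S x) y) :
    mw T M (uMn M W S mn imn) y = mw T M (imn x) y :=
  mw_congr fun w hw => uMn_eqX hI h1 h2 ((Full.congr hw).2 hF) (hm w hw)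

/-- the main words of the union -/
lemma mw_outX (L : LvlCore T M W S mn gt)
    (hI : InnX Lg M W S cE b0 b1 m0 m1 imn igt iex ic) {y : D} (hy : ¬ (W y ∧ ¬ S y)) :
    mw T M (uMn M W S mn imn) y = mw T M mn y := by
  by_cases hl : ∃ z, SV M y z ∧ mn z ≠ T.non
  · obtain ⟨z, hz, hm⟩ := hl
    exact (mw_levelX L hI hz hm).1
  · push Not at hl
    rw [mw_nil hl]
    by_cases hF : ∃ x, W x ∧ ¬ S x ∧ Full M (Cmp M W S x) y
    · obtain ⟨x, h1, h2, hF⟩ := hF
      rw [mw_innerX hI hl h1 h2 hF]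
      exact (hI.good x h1 h2).out y fun h => hy h.right
    · push Not at hF
      exact mw_none hl hF

lemma mw_inX (L : LvlCore T M W S mn gt)
    (hI : InnX Lg M W S cE b0 b1 m0 m1 imn igt iex ic) {y : D} (h1 : W y) (h2 : ¬ S y) :
    mw T M (uMn M W S mn imn) y = mw T M mn y ++ mw T M (imn y) y ∧
      (mw T M mn y = [] ∨ mw T M (imn y) y = []) := by
  by_cases hl : ∃ z, SV M y z ∧ mn z ≠ T.non
  · obtain ⟨z, hz, hm⟩ := hl
    obtain ⟨h3, h4⟩ := mw_levelX L hI hz hm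
    rw [h3, h4 y h1 h2, List.append_nil]
    exact ⟨rfl, Or.inr rfl⟩
  · push Not at hl
    rw [mw_nil (mn := mn) hl, List.nil_append]
    refine ⟨?_, Or.inl rfl⟩
    by_cases hF : Full M (Cmp M W S y) y
    · exact mw_innerX hI hl h1 h2 hF
    · have h3 : mw T M (imn y) y = [] :=
        mw_nil fun w hw => imn_nonX hI h1 h2 fun h => hF ((Full.congr hw).1 h)
      rw [h3]
      by_cases hF' : ∃ x, W x ∧ ¬ S x ∧ Full M (Cmp M W S x) y
      · obtain ⟨x, g1, g2, hF'⟩ := hF'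
        rw [mw_innerX hI hl g1 g2 hF']
        refine (hI.good x g1 g2).out y fun h => hF ?_
        rw [h.eq]
        exact hF'
      · push Not at hF'
        exact mw_none hl hF'

/-- the gate words of the union -/
lemma gw_outX (L : LvlCore T M W S mn gt)
    (hI : InnX Lg M W S cE b0 b1 m0 m1 imn igt iex ic) {y : D} (hy : ¬ (W y ∧ ¬ S y)) :
    gw M (uGt W S gt igt) y = gw M gt y := by
  unfold gw uGt
  rw [if_neg hy]
  congr 1
  split_ifs with h
  · have h1 : igt (M.μ y) (M.μ y) = none := by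
      by_contra h3
      have h4 := (hI.good _ h.1 h.2).sG _ h3
      have h5 := h4.2.2
      rw [ν_μ] at h5
      exact hy h5.right
    have h2 : gt (M.μ y) = none := by
      by_contra h3
      exact h.2 (L.sG _ h3).2.1
    rw [h1, h2]
  · rfl

lemma cmp_mu (hW : ∀ x, W (M.E x) ↔ W x) (hS : ∀ x, S (M.E x) ↔ S x) {y : D}
    (h1 : W y) (h2 : ¬ S y) (h : W (M.μ y) ∧ ¬ S (M.μ y)) : Cmp M W S y (M.μ y) := by
  have hC := Cmp.comp (M := M) hW hS y
  have e : M.E (M.μ y) = M.τ y := E_μ y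
  rw [← hC.WE, e]
  refine hC.cl y (Cmp.refl h1 h2) ?_ ?_
  · rw [← e, hW]; exact h.1
  · rw [← e, hS]; exact h.2

lemma gw_inX (L : LvlCore T M W S mn gt)
    (hI : InnX Lg M W S cE b0 b1 m0 m1 imn igt iex ic) (hW : ∀ x, W (M.E x) ↔ W x) {y : D}
    (h1 : W y) (h2 : ¬ S y) : gw M (uGt W S gt igt) y = gw M (igt y) y := by
  unfold gw uGt
  rw [if_pos ⟨h1, h2⟩]
  congr 1
  split_ifs with h
  · rw [(hI.cst _ _ (cmp_mu hW L.SE h1 h2 h)).2.1]
  · have h3 : gt (M.μ y) = none := by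
      by_contra h3
      have h4 := (L.sG _ h3).2.2
      rw [ν_μ] at h4
      exact h2 h4
    have h5 : igt y (M.μ y) = none := by
      by_contra h5
      exact h ((hI.good y h1 h2).sG _ h5).2.1.right
    rw [h3, h5]

/-- the extra lanes of the union at the reached corners -/
lemma uEx_out (hX : ExB M S cE ex)
    (hI : InnX Lg M W S cE b0 b1 m0 m1 imn igt iex ic) {y : D} (hy : S y) :
    uEx W S ex iex y = ex y ∧ uEx W S ex iex (M.μ y) = ex (M.μ y) := by
  have h0 : ¬ (W y ∧ ¬ S y) := fun h => h.2 hy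
  unfold uEx
  refine ⟨if_neg h0, ?_⟩
  split_ifs with h
  · have h1 : iex (M.μ y) (M.μ y) = [] := by
      by_contra h3
      have h5 := ((hI.good _ h.1 h.2).exb.w _ h3).2
      rw [ν_μ] at h5
      exact h0 h5.right
    have h2 : ex (M.μ y) = [] := by
      by_contra h3
      exact h.2 (hX.w _ h3).1
    rw [h1, h2]
  · rfl

/-- the extra lanes of the union at the missing corners -/
lemma uEx_in (L : LvlCore T M W S mn gt) (hX : ExB M S cE ex)
    (hI : InnX Lg M W S cE b0 b1 m0 m1 imn igt iex ic) (hW : ∀ x, W (M.E x) ↔ W x) {y : D}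
    (h1 : W y) (h2 : ¬ S y) :
    uEx W S ex iex y = iex y y ∧ uEx W S ex iex (M.μ y) = iex y (M.μ y) := by
  unfold uEx
  refine ⟨if_pos ⟨h1, h2⟩, ?_⟩
  split_ifs with h
  · rw [(hI.cst _ _ (cmp_mu hW L.SE h1 h2 h)).2.2.1]
  · have h3 : ex (M.μ y) = [] := by
      by_contra h3
      have h4 := (hX.w _ h3).2
      rw [ν_μ] at h4
      exact h2 h4
    have h5 : iex y (M.μ y) = [] := by
      by_contra h5
      exact h (((hI.good y h1 h2).exb.w _ h5).1).right
    rw [h3, h5]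

/-- the words of the union at the reached corners -/
lemma vxo_out (L : LvlCore T M W S mn gt) (hX : ExB M S cE ex)
    (hI : InnX Lg M W S cE b0 b1 m0 m1 imn igt iex ic) (ow : D → Wd) {y : D} (hy : S y) :
    vxo T M (uMn M W S mn imn) (uGt W S gt igt) ow (uEx W S ex iex) y =
      vxo T M mn gt ow ex y := by
  obtain ⟨h1, h2⟩ := uEx_out hX hI hy
  unfold vxo vw
  rw [mw_outX L hI fun h => h.2 hy, gw_outX L hI fun h => h.2 hy, h1, h2]

/-- the words of the union at the missing corners -/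
lemma vxo_in (L : LvlCore T M W S mn gt) (hX : ExB M S cE ex)
    (hI : InnX Lg M W S cE b0 b1 m0 m1 imn igt iex ic) (hW : ∀ x, W (M.E x) ↔ W x) {y : D}
    (h1 : W y) (h2 : ¬ S y) {ow ow' : D → Wd} (hw : asm M y (mw T M mn y) (ow y) [] = ow' y) :
    vxo T M (uMn M W S mn imn) (uGt W S gt igt) ow (uEx W S ex iex) y =
      vxo T M (imn y) (igt y) ow' (iex y) y := by
  obtain ⟨h5, h6⟩ := uEx_in L hX hI hW h1 h2
  unfold vxo vw
  obtain ⟨h3, h4⟩ := mw_inX L hI h1 h2
  rw [h3, gw_inX L hI hW h1 h2, asm_inner h4, hw, h5, h6]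

end Union

/-! ## the union is good -/

section Main

variable [Finite D] {Lg : Leg (D := D) T} {W : D → Prop} {ow : D → Wd} {tt : D → ℤ} {S : D → Prop}
  {mn : D → T.Q} {gt : D → M9} {ex : D → Wd} {cE : D → Bool} {b0 b1 : D → D} {m0 m1 : D → ℕ}
  {imn : D → D → T.Q} {igt : D → D → M9} {iex : D → D → Wd} {ic : D → D → Bool}

omit [Finite D] in
lemma uC_inX (hI : InnX Lg M W S cE b0 b1 m0 m1 imn igt iex ic) {x y : D} (h : Cmp M W S x y) :
    uC W S cE ic y = ic x y := by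
  unfold uC
  rw [if_pos h.right, (hI.cst _ _ h).2.2.2]

omit [Finite D] in
/-- the core of the union -/
theorem union_core (L : LvlG (M := M) Lg W ow tt S mn gt ex cE b0 b1 m0 m1)
    (hW : ∀ x, W (M.E x) ↔ W x)
    (hI : InnX Lg M W S cE b0 b1 m0 m1 imn igt iex ic) :
    GdC M Lg W (uMn M W S mn imn) (uGt W S gt igt) (uC W S cE ic) := by
  classical
  refine ⟨?_, ?_, ?_, ?_, ?_, ?_, ?_⟩
  · -- cEE
    intro x hx
    by_cases h : S x
    · rw [uC_out h, uC_out ((L.SE x).2 h), L.cEE x h]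
    · have h1 := Cmp.refl (M := M) hx h
      rw [uC_inX hI h1, uC_inX hI (((Cmp.comp hW L.SE x).WE x).2 h1)]
      exact (hI.good x hx h).cEE x h1
  · -- sM
    intro y hy
    by_cases h : mn y = T.non
    · by_cases hF : ∃ x, W x ∧ ¬ S x ∧ Full M (Cmp M W S x) y
      · obtain ⟨x, h1, h2, hF⟩ := hF
        rcases hF with ⟨g1, g2⟩ | ⟨g1, u, v, g2, g3, g4, g5, g6⟩
        · exact Or.inl ⟨g1, fun z hz => (g2 z hz).right.1⟩
        · exact Or.inr ⟨g1, u, v, g2, g3, g4, g5.right.1, g6.right.1⟩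
      · push Not at hF
        exact absurd (uMn_none h hF) hy
    · exact (L.sM y h).1
  · -- sG
    intro y hy
    unfold uGt at hy
    split_ifs at hy with h
    · obtain ⟨h1, h2, h3⟩ := (hI.good y h.1 h.2).sG y hy
      exact ⟨h1, h2.right.1, h3.right.1⟩
    · obtain ⟨h1, h2, h3⟩ := L.sG y hy
      exact ⟨h1, L.SW _ h2, L.SW _ h3⟩
  · -- one
    intro y z hy hz hyz
    by_cases h : mn y = T.non
    · obtain ⟨x, h1, h2, hF⟩ : ∃ x, W x ∧ ¬ S x ∧ Full M (Cmp M W S x) y := by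
        by_contra hF
        push Not at hF
        exact hy (uMn_none h hF)
      have hz' : mn z = T.non := by
        by_contra h3
        exact (L.sM z h3).2 x h1 h2 ((Full.congr hyz).2 hF)
      rw [uMn_eqX hI h1 h2 hF h] at hy
      rw [uMn_eqX hI h1 h2 ((Full.congr hyz).2 hF) hz'] at hz
      exact (hI.good x h1 h2).one y z hy hz hyz
    · have hz' : mn z ≠ T.non := by
        intro h3
        obtain ⟨x, h1, h2, hF⟩ : ∃ x, W x ∧ ¬ S x ∧ Full M (Cmp M W S x) z := by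
          by_contra hF
          push Not at hF
          exact hz (uMn_none h3 hF)
        exact (L.sM y h).2 x h1 h2 ((Full.congr hyz).1 hF)
      exact L.one y z h hz' hyz
  · -- out
    intro y hy
    rw [mw_outX L.toLvlCore hI fun h => hy h.1]
    exact L.out y hy
  · -- lM
    intro cE' hc y
    have hcS : ∀ y, S y → cE' y = cE y := fun y hy => by rw [hc y (L.SW y hy), uC_out hy]
    have hcb : ∀ y, W y → ¬ S y → cE' (b0 y) = cE (b0 y) ∧ cE' (b1 y) = cE (b1 y) := by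
      intro y h1 h2
      have h3 := (L.box y h1 h2).w0
      have h4 := (L.box y h1 h2).w1
      constructor
      · rw [hc _ h3.right.1, uC_inX hI h3, hI.c0 y h1 h2]
      · rw [hc _ h4.right.1, uC_inX hI h4, hI.c1 y h1 h2]
    by_cases h : mn y = T.non
    · by_cases hF : ∃ x, W x ∧ ¬ S x ∧ Full M (Cmp M W S x) y
      · obtain ⟨x, h1, h2, hF⟩ := hF
        rw [uMn_eqX hI h1 h2 hF h]
        refine (hI.good x h1 h2).lM cE' (fun z hz => ?_) y
        rw [hc z hz.right.1, uC_inX hI hz]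
      · push Not at hF
        rw [uMn_none h hF, ← h]
        exact L.lM cE' hcS hcb y
    · rw [uMn_level h]
      exact L.lM cE' hcS hcb y
  · -- lG
    intro cE' hc y
    unfold uGt
    split_ifs with h
    · refine (hI.good y h.1 h.2).lG cE' (fun z hz => ?_) y
      rw [hc z hz.right.1, uC_inX hI hz]
    · exact L.lG cE' (fun y hy => by rw [hc y (L.SW y hy), uC_out hy]) y

omit [Finite D] in
lemma uEx_ne {y : D} (h : uEx W S ex iex y ≠ []) :
    (W y ∧ ¬ S y ∧ iex y y ≠ [] ∧ uEx W S ex iex y = iex y y) ∨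
      (¬ (W y ∧ ¬ S y) ∧ ex y ≠ [] ∧ uEx W S ex iex y = ex y) := by
  unfold uEx at h ⊢
  split_ifs at h ⊢ with h1
  · exact Or.inl ⟨h1.1, h1.2, h, rfl⟩
  · exact Or.inr ⟨h1, h, rfl⟩

omit [Finite D] in
/-- the extra lanes of the union -/
theorem union_exb (n1 : ∀ x, M.ν x ≠ x) (L : LvlG (M := M) Lg W ow tt S mn gt ex cE b0 b1 m0 m1)
    (hI : InnX Lg M W S cE b0 b1 m0 m1 imn igt iex ic) :
    ExB M W (uC W S cE ic) (uEx W S ex iex) := by
  classical
  have hsv : ∀ y, SV M y (M.ν y) := fun y => SV.nu _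
  refine ⟨?_, ?_, ?_, ?_, ?_, ?_⟩
  · intro y hy
    rcases uEx_ne hy with ⟨h1, h2, h3, -⟩ | ⟨-, h3, -⟩
    · obtain ⟨h4, h5⟩ := (hI.good y h1 h2).exb.w y h3
      exact ⟨h4.right.1, h5.right.1⟩
    · obtain ⟨h4, h5⟩ := L.exb.w y h3
      exact ⟨L.SW _ h4, L.SW _ h5⟩
  · intro y hy
    rcases uEx_ne hy with ⟨h1, h2, h3, -⟩ | ⟨-, h3, -⟩
    · exact (hI.good y h1 h2).exb.k y h3
    · exact L.exb.k y h3
  · intro y hy
    rcases uEx_ne hy with ⟨h1, h2, h3, -⟩ | ⟨-, h3, -⟩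
    · obtain ⟨h4, h5⟩ := (hI.good y h1 h2).exb.w y h3
      rw [uC_inX hI h4, uC_inX hI h5]
      exact (hI.good y h1 h2).exb.c y h3
    · obtain ⟨h4, h5⟩ := L.exb.w y h3
      rw [uC_out h4, uC_out h5]
      exact L.exb.c y h3
  · intro y q hq
    rcases uEx_ne (List.ne_nil_of_mem hq) with ⟨h1, h2, h3, h4⟩ | ⟨-, h3, h4⟩
    · rw [h4] at hq
      exact (hI.good y h1 h2).exb.n y q hq
    · rw [h4] at hq
      exact L.exb.n y q hq
  · intro y
    by_cases h : uEx W S ex iex y = []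
    · rw [h]; simp
    · rcases uEx_ne h with ⟨h1, h2, h3, h4⟩ | ⟨-, h3, h4⟩
      · rw [h4]
        exact (hI.good y h1 h2).exb.nd y
      · rw [h4]
        exact L.exb.nd y
  · intro y z hyz hne q hq q' hq'
    -- an inner lane excludes all other levels
    have key : ∀ y z, SV M y z → W y → ¬ S y → iex y y ≠ [] → ∀ z', SV M y z' →
        ¬ Cmp M W S y z → ¬ Cmp M W S y z' → z = z' := by
      intro y z hyz h1 h2 h3 z' hz' h4 h5
      exact (hI.good y h1 h2).exa y h3 z z' hyz hz' h4 h5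
    rcases uEx_ne (List.ne_nil_of_mem hq) with ⟨h1, h2, h3, h4⟩ | ⟨h0, h3, h4⟩ <;>
      rcases uEx_ne (List.ne_nil_of_mem hq') with ⟨g1, g2, g3, g4⟩ | ⟨g0, g3, g4⟩
    · rw [h4] at hq
      rw [g4] at hq'
      by_cases hc : Cmp M W S y z
      · rw [(hI.cst _ _ hc).2.2.1] at hq'
        exact (hI.good y h1 h2).exb.d y z hyz hne q hq q' hq'
      · exfalso
        have h5 := ((hI.good z g1 g2).exb.w z g3).2
        refine n1 z (key y z hyz h1 h2 h3 (M.ν z) (hyz.trans (hsv z)) hc ?_).symm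
        intro h6
        exact hc (h6.trans h5.symm)
    · exfalso
      obtain ⟨h5, h6⟩ := L.exb.w z g3
      refine n1 z (key y z hyz h1 h2 h3 (M.ν z) (hyz.trans (hsv z)) ?_ ?_).symm
      · exact fun h => h.right.2 h5
      · exact fun h => h.right.2 h6
    · exfalso
      obtain ⟨h5, h6⟩ := L.exb.w y h3
      refine n1 y (key z y hyz.symm g1 g2 g3 (M.ν y) (hyz.symm.trans (hsv y)) ?_ ?_).symm
      · exact fun h => h.right.2 h5
      · exact fun h => h.right.2 h6
    · rw [h4] at hq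
      rw [g4] at hq'
      exact L.exb.d y z hyz hne q hq q' hq'

omit [Finite D] in
/-- at most one corner outside -/
theorem union_exa (L : LvlG (M := M) Lg W ow tt S mn gt ex cE b0 b1 m0 m1) (hA : ExA M S ex)
    (hI : InnX Lg M W S cE b0 b1 m0 m1 imn igt iex ic) : ExA M W (uEx W S ex iex) := by
  intro y hy z z' hz hz' h1 h2
  rcases uEx_ne hy with ⟨g1, g2, g3, -⟩ | ⟨-, g3, -⟩
  · exact (hI.good y g1 g2).exa y g3 z z' hz hz' (fun h => h1 h.right.1) (fun h => h2 h.right.1)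
  · exact hA y g3 z z' hz hz' (fun h => h1 (L.SW _ h)) (fun h => h2 (L.SW _ h))

/-- the words of the union, and constant values -/
theorem union_words (hW : ∀ x, W (M.E x) ↔ W x)
    (L : LvlG (M := M) Lg W ow tt S mn gt ex cE b0 b1 m0 m1)
    (hI : InnX Lg M W S cE b0 b1 m0 m1 imn igt iex ic) :
    (∀ x, S x → cxo T M (uMn M W S mn imn) (uGt W S gt igt) ow (uEx W S ex iex) x
      = cxo T M mn gt ow ex x) ∧
    (∀ x, W x → ¬ S x → ∀ y, Cmp M W S x y →
      cxo T M (uMn M W S mn imn) (uGt W S gt igt) ow (uEx W S ex iex) y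
      = cxo T M (imn x) (igt x) (own (ic x) (b0 x) (b1 x) (m0 x) (m1 x)) (iex x) y) ∧
    (∀ V : D × ℕ → B, LamInv M V →
      (∀ x, W x → Cl V (cxo T M (uMn M W S mn imn) (uGt W S gt igt) ow (uEx W S ex iex) x)) →
      ∃ k, ∀ x, W x → ∀ q ∈ vxo T M (uMn M W S mn imn) (uGt W S gt igt) ow (uEx W S ex iex) x,
        V q.2 = k) := by
  classical
  -- the words
  have hvo : ∀ y, S y → vxo T M (uMn M W S mn imn) (uGt W S gt igt) ow (uEx W S ex iex) y
      = vxo T M mn gt ow ex y := fun y hy => vxo_out L.toLvlCore L.exb hI _ hy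
  have hvi : ∀ x, W x → ¬ S x → ∀ y, Cmp M W S x y →
      vxo T M (uMn M W S mn imn) (uGt W S gt igt) ow (uEx W S ex iex) y
      = vxo T M (imn x) (igt x) (own (ic x) (b0 x) (b1 x) (m0 x) (m1 x)) (iex x) y := by
    intro x h1 h2 y hy
    have h3 := hy.right
    rw [vxo_in L.toLvlCore L.exb hI hW h3.1 h3.2
      (ow' := own cE (b0 y) (b1 y) (m0 y) (m1 y)) (L.bw y h3.1 h3.2)]
    obtain ⟨e1, e2, e3, e4⟩ := L.bcst x y hy
    obtain ⟨g1, g2, g3, -⟩ := hI.cst x y hy
    rw [e1, e2, e3, e4, g1, g2, g3]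
    rw [own_congr (c := cE) (c' := ic x) (hI.c0 x h1 h2).symm (hI.c1 x h1 h2).symm]
  have hco : ∀ x, S x → cxo T M (uMn M W S mn imn) (uGt W S gt igt) ow (uEx W S ex iex) x
      = cxo T M mn gt ow ex x := fun x hx => by
    unfold cxo
    exact List.flatMap_congr fun y hy => hvo y ((cyc_of L.SE (mem_cir.1 hy)).2 hx)
  have hci : ∀ x, W x → ¬ S x → ∀ y, Cmp M W S x y →
      cxo T M (uMn M W S mn imn) (uGt W S gt igt) ow (uEx W S ex iex) y
      = cxo T M (imn x) (igt x) (own (ic x) (b0 x) (b1 x) (m0 x) (m1 x)) (iex x) y := by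
    intro x h1 h2 y hy
    unfold cxo
    exact List.flatMap_congr fun z hz => hvi x h1 h2 z
      ((cyc_of (Cmp.comp hW L.SE x).WE (mem_cir.1 hz)).2 hy)
  refine ⟨hco, hci, ?_⟩
  intro V hV hcl
  have hmem : ∀ {x : D} {y : D} {s : Bool} {n : ℕ}, (s, n) ∈ own (ic x) (b0 x) (b1 x) (m0 x)
      (m1 x) y → (s, (y, n)) ∈ vxo T M (imn x) (igt x)
        (own (ic x) (b0 x) (b1 x) (m0 x) (m1 x)) (iex x) y := by
    intro x y s n h
    unfold vxo vw
    refine List.mem_append_right _ (List.mem_append_left _ ?_)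
    unfold tag
    refine List.mem_map.2 ⟨(s, n), ?_, rfl⟩
    unfold asm
    split_ifs <;> simp [h]
  have hbox : ∀ x, W x → ¬ S x → (∀ y, Cmp M W S x y → ∀ q ∈ vxo T M (imn x) (igt x)
      (own (ic x) (b0 x) (b1 x) (m0 x) (m1 x)) (iex x) y, V q.2 = V (b0 x, m0 x)) ∧
      V (b0 x, m0 x) = V (b1 x, m1 x) := by
    intro x h1 h2
    obtain ⟨k, hk⟩ := (hI.good x h1 h2).const V hV (by
      intro y hy
      rw [← hci x h1 h2 y hy]
      exact hcl y hy.right.1)
    have e0 : V (b0 x, m0 x) = k := by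
      refine hk (b0 x) (L.box x h1 h2).w0 (ic x (b0 x), (b0 x, m0 x)) (hmem ?_)
      unfold own
      rw [if_pos rfl]
      simp
    have e1 : V (b1 x, m1 x) = k := by
      refine hk (b1 x) (L.box x h1 h2).w1 (ic x (b1 x), (b1 x, m1 x)) (hmem ?_)
      unfold own
      rw [if_pos (rfl : b1 x = b1 x)]
      simp
    exact ⟨fun y hy q hq => by rw [hk y hy q hq, e0], by rw [e0, e1]⟩
  obtain ⟨k, hk1, hk2⟩ := L.const V hV (by
    intro x hx
    rw [← hco x hx]
    exact hcl x (L.SW x hx)) fun x h1 h2 => (hbox x h1 h2).2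
  refine ⟨k, fun x hx q hq => ?_⟩
  by_cases h : S x
  · rw [hvo x h] at hq
    exact hk1 x h q hq
  · have h1 := Cmp.refl (M := M) hx h
    rw [hvi x hx h x h1] at hq
    rw [(hbox x hx h).1 x h1 q hq]
    exact hk2 x hx h

end Main

end Pool.Agent.MP42.GZ
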