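import Pool.Agent.MP42.GZ.TypA

/-!
# The types at the bad tripods (owner helper28)

`b_types`: every allowed state of a bad tripod: main use, links over the two gates, both modes, all
kinds of the edges over the gates, all classes of the free corners.
-/

set_option autoImplicit false

namespace Pool.Agent.MP42.GZ

open Pool.Agent.MP42.O3 (EK Lab)

/-- the check for one state -/
def tstB (m : Bool) (M : Mn) (gm ga : M9) (km ka : EK) (c1 c2 c3 c4 : Bool) : Bool :=
  !(legB m M gm ga km ka c1 c2 c3 c4) ||
    (sB km ka (loc4 m M gm ga)).srch (cl4 c1 c2 c3 c4) (thp (loc4 m M gm ga))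
      (chs (sB km ka (loc4 m M gm ga)).cr.length)

/-- the kinds which have to be checked -/
def ks (w : Wd) : List EK := if w.isEmpty then [.R] else kof .t

/-- the configurations which are possible -/
def pre0 (m : Bool) (M : Mn) (gm ga : M9) : Bool :=
  (M == .non || m == M.mode) && (gm.isNone || okGM M) && (ga.isNone || okGA M) &&
    (M == .non || gm.isNone || ga.isNone)

/-- the check for one configuration -/
def tstC (m : Bool) (M : Mn) (gm ga : M9) : Bool :=
  !(pre0 m M gm ga) || (ks (loc4 m M gm ga).e2).all fun km => (ks (loc4 m M gm ga).e4).all fun ka =>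
    bb.all fun c1 => bb.all fun c2 => bb.all fun c3 => bb.all fun c4 =>
      tstB m M gm ga km ka c1 c2 c3 c4

/-- the main states with the link state `s` -/
def tM (s : LS) : List Mn := [.m1 s, .m2 s, .m3 s, .m4 s, .g1 s, .g2 s, .g3 s, .g4 s]

/-- the checks without a main state -/
def tNN (gm ga : M9) : Bool := bb.all fun m => tstC m .non gm ga

/-- the checks with a link over the gate `(2,3)` -/
def tGM (g : M9) (s : LS) : Bool := (tM s).all fun M => bb.all fun m => tstC m M g none

/-- the checks with a link over the gate `(4,1)` -/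
def tGA (g : M9) (s : LS) : Bool := (tM s).all fun M => bb.all fun m => tstC m M none g

theorem tGM_n (s : LS) : tGM none s = true := by
  cases s <;> decide +kernel

theorem tGM_t (t s : LS) : tGM (some (true, t)) s = true := by
  cases t <;> cases s <;> decide +kernel

theorem tGM_f (t s : LS) : tGM (some (false, t)) s = true := by
  cases t <;> cases s <;> decide +kernel

theorem tGA_t (t s : LS) : tGA (some (true, t)) s = true := by
  cases t <;> cases s <;> decide +kernel

theorem tGA_f (t s : LS) : tGA (some (false, t)) s = true := by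
  cases t <;> cases s <;> decide +kernel

theorem tNN_n (g : M9) : tNN none g = true := by
  rcases g with _ | ⟨b, t⟩
  · decide +kernel
  · cases b <;> cases t <;> decide +kernel

theorem tNN_g (g : M9) : tNN g none = true := by
  rcases g with _ | ⟨b, t⟩
  · decide +kernel
  · cases b <;> cases t <;> decide +kernel

theorem tNN_t (t : LS) (b : Bool) (t' : LS) : tNN (some (true, t)) (some (b, t')) = true := by
  cases t <;> cases b <;> cases t' <;> decide +kernel

theorem tNN_f (t : LS) (b : Bool) (t' : LS) : tNN (some (false, t)) (some (b, t')) = true := by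
  cases t <;> cases b <;> cases t' <;> decide +kernel

theorem tGM_all (g : M9) (s : LS) : tGM g s = true := by
  rcases g with _ | ⟨b, t⟩
  · exact tGM_n s
  · cases b
    · exact tGM_f t s
    · exact tGM_t t s

theorem tGA_all (g : M9) (s : LS) : tGA g s = true := by
  rcases g with _ | ⟨b, t⟩
  · exact tGM_n s
  · cases b
    · exact tGA_f t s
    · exact tGA_t t s

theorem tNN_all (g g' : M9) : tNN g g' = true := by
  rcases g with _ | ⟨b, t⟩
  · exact tNN_n g'
  · rcases g' with _ | ⟨b', t'⟩
    · exact tNN_g _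
    · cases b
      · exact tNN_f t b' t'
      · exact tNN_t t b' t'

theorem mem_allM (M : Mn) : M ∈ allM := by
  rcases M with _ | s | s | s | s | s | s | s | s
  · decide
  all_goals cases s <;> decide

theorem mem_allG (g : M9) : g ∈ allG := by
  rcases g with _ | ⟨a, s⟩
  · decide
  · cases a <;> cases s <;> decide

theorem mem_bb (b : Bool) : b ∈ bb := by cases b <;> decide

theorem legG_R (g : M9) : legG .R g = true := by
  rcases g with _ | ⟨a, s⟩
  · rfl
  · cases a <;> cases s <;> rfl

theorem mem_tM {M : Mn} (h : M ≠ .non) : ∃ s, M ∈ tM s := by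
  rcases M with _ | s | s | s | s | s | s | s | s
  · exact absurd rfl h
  all_goals exact ⟨s, by simp [tM]⟩

theorem tstC_all {m : Bool} {M : Mn} {gm ga : M9} (h : pre0 m M gm ga = true) :
    tstC m M gm ga = true := by
  by_cases hM : M = .non
  · subst hM
    have t := tNN_all gm ga
    unfold tNN at t
    simp only [List.all_eq_true] at t
    exact t m (mem_bb m)
  · obtain ⟨s, hs⟩ := mem_tM hM
    rcases gm with _ | g
    · have t := tGA_all ga s
      unfold tGA at t
      simp only [List.all_eq_true] at t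
      exact t M hs m (mem_bb m)
    · rcases ga with _ | g'
      · have t := tGM_all (some g) s
        unfold tGM at t
        simp only [List.all_eq_true] at t
        exact t M hs m (mem_bb m)
      · exfalso
        unfold pre0 at h
        simp only [Option.isNone_some, Bool.or_false, Bool.and_eq_true] at h
        exact hM (beq_iff_eq.1 h.2)

theorem sB_e2 {km ka : EK} {l : Loc4} (h : l.e2 = []) : sB km ka l = sB .R ka l := by
  unfold sB sy4
  rw [h]
  rfl

theorem sB_e4 {km ka : EK} {l : Loc4} (h : l.e4 = []) : sB km ka l = sB km .R l := by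
  unfold sB sy4
  rw [h]
  rfl

/-- **types for the states of a bad tripod** -/
theorem b_types {m : Bool} {M : Mn} {gm ga : M9} {km ka : EK} {c1 c2 c3 c4 : Bool}
    (h : legB m M gm ga km ka c1 c2 c3 c4 = true) :
    ∃ sw Pos a0, (sB km ka (loc4 m M gm ga)).LTy (cl4 c1 c2 c3 c4) (thp (loc4 m M gm ga))
      sw Pos a0 := by
  have h0 := h
  unfold legB at h0
  simp only [Bool.and_eq_true] at h0
  obtain ⟨⟨⟨⟨⟨⟨⟨⟨k1, k2⟩, g1⟩, g2⟩, hc⟩, hm⟩, hgm⟩, hga⟩, hn⟩ := h0
  have hpre : pre0 m M gm ga = true := by
    unfold pre0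
    simp only [Bool.and_eq_true]
    refine ⟨⟨⟨hm, ?_⟩, ?_⟩, hn⟩
    · rw [Bool.or_eq_true] at hgm ⊢
      rcases hgm with h1 | h1
      · exact Or.inl h1
      · simp only [Bool.and_eq_true] at h1
        exact Or.inr h1.1.1
    · rw [Bool.or_eq_true] at hga ⊢
      rcases hga with h1 | h1
      · exact Or.inl h1
      · simp only [Bool.and_eq_true] at h1
        exact Or.inr h1.1.1
  have t := tstC_all hpre
  unfold tstC at t
  rw [hpre, Bool.not_true, Bool.false_or] at t
  simp only [List.all_eq_true] at t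
  -- reduction to the kinds which are checked
  have key : ∀ km' ∈ ks (loc4 m M gm ga).e2, ∀ ka' ∈ ks (loc4 m M gm ga).e4,
      legB m M gm ga km' ka' c1 c2 c3 c4 = true →
      ∃ sw Pos a0, (sB km' ka' (loc4 m M gm ga)).LTy (cl4 c1 c2 c3 c4) (thp (loc4 m M gm ga))
        sw Pos a0 := by
    intro km' hk ka' hk' hl
    have t1 := t km' hk ka' hk' c1 (mem_bb _) c2 (mem_bb _) c3 (mem_bb _) c4 (mem_bb _)
    unfold tstB at t1
    rw [hl, Bool.not_true, Bool.false_or] at t1
    exact Sy.srch_spec t1
  have hR1 : legB m M gm ga .R ka c1 c2 c3 c4 = true := by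
    unfold legB
    simp only [Bool.and_eq_true]
    exact ⟨⟨⟨⟨⟨⟨⟨⟨rfl, k2⟩, legG_R gm⟩, g2⟩, hc⟩, hm⟩, hgm⟩, hga⟩, hn⟩
  have hR2 : legB m M gm ga km .R c1 c2 c3 c4 = true := by
    unfold legB
    simp only [Bool.and_eq_true]
    exact ⟨⟨⟨⟨⟨⟨⟨⟨k1, rfl⟩, g1⟩, legG_R ga⟩, hc⟩, hm⟩, hgm⟩, hga⟩, hn⟩
  have hR3 : legB m M gm ga .R .R c1 c2 c3 c4 = true := by
    unfold legB
    simp only [Bool.and_eq_true]
    exact ⟨⟨⟨⟨⟨⟨⟨⟨rfl, rfl⟩, legG_R gm⟩, legG_R ga⟩, hc⟩, hm⟩, hgm⟩, hga⟩, hn⟩
  have ks0 : ∀ {w : Wd}, w = [] → EK.R ∈ ks w := by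
    intro w hw
    rw [hw]
    exact List.mem_singleton.2 rfl
  have ks1 : ∀ {w : Wd} {k : EK}, w ≠ [] → okp k .t = true → k ∈ ks w := by
    intro w k hw hk
    unfold ks
    rw [if_neg (by simpa using hw)]
    exact mem_kof hk
  by_cases e2 : (loc4 m M gm ga).e2 = []
  · by_cases e4 : (loc4 m M gm ga).e4 = []
    · rw [sB_e2 e2, sB_e4 e4]
      exact key .R (ks0 e2) .R (ks0 e4) hR3
    · rw [sB_e2 e2]
      exact key .R (ks0 e2) ka (ks1 e4 k2) hR1
  · by_cases e4 : (loc4 m M gm ga).e4 = []
    · rw [sB_e4 e4]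
      exact key km (ks1 e2 k1) .R (ks0 e4) hR2
    · exact key km (ks1 e2 k1) ka (ks1 e4 k2) h

end Pool.Agent.MP42.GZ
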