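import Pool.Agent.MP42.TQ.LayO
import Pool.Agent.MP42.GZ.TypB

/-!
# Types of the tokens of a layout from the vertices (owner helper28)

`VTy L cE V sw Pos a0`: the local conditions of `TkE` for the tokens at the corners in `V`.
`Rep`: the tokens at the corners of one vertex are the tokens of a system `S : Sy`.
-/

set_option autoImplicit false

namespace Pool.Agent.MP42.GZ

open Pool.Agent.MP42.O3 (EK Lab BM)
open Pool.Agent.MP42.EO

variable {X : Type*} {M : BM X} (L : Layt M)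

/-- the push `u` and the pop `t` are neighbours at a corner, up to idle tokens -/
def AdjL (u t : L.Tok) : Prop :=
  L.wt u = -1 ∧ L.wt t = 1 ∧ ∃ x l₁ l₂, nz L.wt (L.W x) = l₁ ++ u :: t :: l₂

/-- the tokens which determine the types; `cE` = classes of the corners -/
def dtL (cE : X → Prop) (sw : L.Tok → Prop) (t : L.Tok) : Prop :=
  dts L.wt (fun t => cE (L.home t)) sw t

/-- **local conditions** for the tokens at the corners in `V` -/
structure VTy (cE V : X → Prop) (sw : L.Tok → Prop) (Pos : L.Tok → Bool → Prop)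
    (a0 : L.Tok → Bool) : Prop where
  swp : ∀ t, V (L.home t) → sw t → ∃ u, (AdjL L u t ∨ AdjL L t u) ∧ sw u
  nosink : ∀ t, V (L.home t) → L.wt t ≠ 0 → dtL L cE sw t ∨ dtL L cE sw (L.lam t)
  src : ∀ t, V (L.home t) → L.wt t ≠ 0 → dtL L cE sw t → dtL L cE sw (L.lam t) →
    L.okt t (a0 t) (a0 (L.lam t)) ∧ Pos t (a0 t)
  flow : ∀ t, V (L.home t) → L.wt t ≠ 0 → dtL L cE sw t → ¬ dtL L cE sw (L.lam t) →
    ∀ b, Pos (L.lam t) b → ∃ a, Pos t a ∧ L.okt t a b
  strand : ∀ t, V (L.home t) → L.wt t ≠ 0 → ¬ dtL L cE sw t → (∀ a, Pos t a) ∨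
    ∃ u, (AdjL L u t ∨ AdjL L t u) ∧ ∀ a, Pos u a → Pos t a
  pos : ∀ t, V (L.home t) → L.wt t ≠ 0 → ∃ a, Pos t a
  mono : ∀ t u : L.Tok, V (L.home t) → t.1.1 = .tn → u.1.1 = .tn → t.1.2.1 = u.1.2.1 →
    t.1.2.2 < u.1.2.2 → ∀ a b, Pos t a → Pos u b → a = true → b = true

variable {L}

lemma AdjL.home {u t : L.Tok} (h : AdjL L u t) : L.home u = L.home t := by
  obtain ⟨-, -, x, l₁, l₂, h⟩ := h
  have h1 : u ∈ L.W x := (mem_nz.1 (h ▸ (by simp : u ∈ l₁ ++ u :: t :: l₂))).1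
  have h2 : t ∈ L.W x := (mem_nz.1 (h ▸ (by simp : t ∈ l₁ ++ u :: t :: l₂))).1
  rw [Layt.mem_W.1 h1, Layt.mem_W.1 h2]

lemma AdjL.adj [Finite X] {u t : L.Tok} (h : AdjL L u t) : AdjT L.F L.wt u t := by
  obtain ⟨h1, h2, x, l₁, l₂, h⟩ := h
  exact adj_of_nz (Layt.fol (L := L) x).left_of_append h h1 h2

variable (M) in
/-- the corners of the vertex of `x` -/
def vtx (x y : X) : Prop := ∃ k : ℕ, y = M.ν^[k] x

lemma vtx_refl (x : X) : vtx M x x := ⟨0, rfl⟩

lemma vtx_symm {x y : X} (h : vtx M x y) : vtx M y x := by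
  obtain ⟨k, rfl⟩ := h
  have h12 : ∀ y : X, M.ν^[12] y = y := by
    intro y
    rcases hb : (M.lab y).isB with _ | _
    · have h3 : M.ν^[3] y = y := M.n3 y hb
      show M.ν^[3] (M.ν^[3] (M.ν^[3] (M.ν^[3] y))) = y
      rw [h3, h3, h3, h3]
    · have h4 : M.ν^[4] y = y := M.n4 y hb
      show M.ν^[4] (M.ν^[4] (M.ν^[4] y)) = y
      rw [h4, h4, h4]
  refine ⟨11 * k, ?_⟩
  have h1 : ∀ k : ℕ, M.ν^[12 * k] x = x := by
    intro k
    induction k with
    | zero => rfl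
    | succ k ih => rw [Nat.mul_succ, Function.iterate_add_apply, h12, ih]
  rw [← Function.iterate_add_apply, show 11 * k + k = 12 * k by omega, h1]

lemma vtx_trans {x y z : X} (h : vtx M x y) (h' : vtx M y z) : vtx M x z := by
  obtain ⟨k, rfl⟩ := h
  obtain ⟨l, rfl⟩ := h'
  exact ⟨l + k, by rw [Function.iterate_add_apply]⟩

lemma vtx_ν (x : X) : vtx M x (M.ν x) := ⟨1, rfl⟩

lemma home_lam (t : L.Tok) : vtx M (L.home t) (L.home (L.lam t)) := by
  obtain ⟨⟨k, x, i⟩, h⟩ := t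
  cases k
  · exact ⟨1, rfl⟩
  · exact vtx_symm ⟨1, rfl⟩
  · exact ⟨2, rfl⟩
  · exact ⟨0, rfl⟩

variable (M) in
/-- a representative of the vertex -/
noncomputable def rp (x : X) : X :=
  (Quotient.mk (⟨vtx M, vtx_refl, vtx_symm, vtx_trans⟩ : Setoid X) x).out

lemma rp_vtx (x : X) : vtx M (rp M x) x := by
  have h := Quotient.out_eq (Quotient.mk (⟨vtx M, vtx_refl, vtx_symm, vtx_trans⟩ : Setoid X) x)
  exact Quotient.exact h

lemma rp_eq {x y : X} (h : vtx M x y) : rp M x = rp M y := by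
  have h1 : Quotient.mk (⟨vtx M, vtx_refl, vtx_symm, vtx_trans⟩ : Setoid X) x =
      Quotient.mk (⟨vtx M, vtx_refl, vtx_symm, vtx_trans⟩ : Setoid X) y := Quotient.sound h
  unfold rp
  rw [h1]

/-- **from the vertices to the layout** -/
theorem glue {cE : X → Prop}
    (h : ∀ x, ∃ sw Pos a0, VTy L cE (vtx M x) sw Pos a0) :
    ∃ sw Pos a0, VTy L cE (fun _ => True) sw Pos a0 := by
  choose sw Pos a0 H using h
  refine ⟨fun t => sw (rp M (L.home t)) t, fun t => Pos (rp M (L.home t)) t,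
    fun t => a0 (rp M (L.home t)) t, ?_⟩
  have hl : ∀ t : L.Tok, rp M (L.home (L.lam t)) = rp M (L.home t) := fun t =>
    (rp_eq (home_lam t)).symm
  have hd : ∀ t : L.Tok, dtL L cE (fun t => sw (rp M (L.home t)) t) t ↔
      dtL L cE (sw (rp M (L.home t))) t := fun t => Iff.rfl
  have hd' : ∀ t : L.Tok, dtL L cE (fun t => sw (rp M (L.home t)) t) (L.lam t) ↔
      dtL L cE (sw (rp M (L.home t))) (L.lam t) := by
    intro t
    have := hd (L.lam t)
    rwa [hl] at this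
  have hadj : ∀ {t u : L.Tok}, AdjL L u t ∨ AdjL L t u → L.home u = L.home t := by
    rintro t u (h | h)
    · exact h.home
    · exact h.home.symm
  refine ⟨?_, ?_, ?_, ?_, ?_, ?_, ?_⟩
  · intro t _ ht
    obtain ⟨u, h1, h2⟩ := (H _).swp t (rp_vtx _) ht
    refine ⟨u, h1, ?_⟩
    show sw (rp M (L.home u)) u
    rw [hadj h1]
    exact h2
  · intro t _ ht
    rw [hd, hd']
    exact (H _).nosink t (rp_vtx _) ht
  · intro t _ ht h1 h2
    rw [hd] at h1
    rw [hd'] at h2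
    have h3 := (H _).src t (rp_vtx _) ht h1 h2
    show L.okt t (a0 (rp M (L.home t)) t) (a0 (rp M (L.home (L.lam t))) (L.lam t)) ∧
      Pos (rp M (L.home t)) t (a0 (rp M (L.home t)) t)
    rw [hl]
    exact h3
  · intro t _ ht h1 h2 b hb
    rw [hd] at h1
    rw [hd'] at h2
    change Pos (rp M (L.home (L.lam t))) (L.lam t) b at hb
    rw [hl] at hb
    exact (H _).flow t (rp_vtx _) ht h1 h2 b hb
  · intro t _ ht h1
    rw [hd] at h1
    rcases (H _).strand t (rp_vtx _) ht h1 with h2 | ⟨u, h2, h3⟩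
    · exact Or.inl h2
    · refine Or.inr ⟨u, h2, ?_⟩
      intro a ha
      change Pos (rp M (L.home u)) u a at ha
      rw [hadj h2] at ha
      exact h3 a ha
  · intro t _ ht
    exact (H _).pos t (rp_vtx _) ht
  · intro t u _ h1 h2 h3 h4 a b ha hb
    have h5 : L.home u = L.home t := by
      obtain ⟨⟨k, x, i⟩, hv⟩ := t
      obtain ⟨⟨k', x', i'⟩, hv'⟩ := u
      simp only at h1 h2 h3
      subst h1 h2 h3
      rfl
    change Pos (rp M (L.home u)) u b at hb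
    rw [h5] at hb
    exact (H _).mono t u (rp_vtx _) h1 h2 h3 h4 a b ha hb

/-! ## One vertex -/

variable (L)

/-- The tokens at the corners in `V` are the tokens of the system `S` and the tokens in `EX`: the
extra lanes over real edges between corners of different classes. -/
structure Rep (cE V : X → Prop) (EX : L.Tok → Prop) (S : Sy) (th : List (ℕ × ℕ)) (xk : ℕ → X)
    (m : L.Tok → Tk) : Prop where
  Vl : ∀ t, V (L.home t) → V (L.home (L.lam t))
  exl : ∀ t, EX (L.lam t) ↔ EX t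
  exd : ∀ t, V (L.home t) → EX t → (cE (L.home t) ↔ ¬ cE (L.home (L.lam t)))
  exo : ∀ t, V (L.home t) → EX t → ∀ a, L.okt t a a
  ext : ∀ t, EX t → t.1.1 ≠ .tn
  tok : ∀ t, V (L.home t) → ¬ EX t → L.wt t ≠ 0 → m t ∈ S.toks
  ot : ∀ t, V (L.home t) → ¬ EX t → L.wt t ≠ 0 → m (L.lam t) = Sy.ot (m t)
  sg : ∀ t, V (L.home t) → ¬ EX t → L.wt t ≠ 0 → (L.wt t = 1 ↔ S.sg (m t) = true)
  co : ∀ t, V (L.home t) → ¬ EX t → L.wt t ≠ 0 → L.home t = xk (S.co (m t))
  rl : ∀ t, V (L.home t) → ¬ EX t → L.wt t ≠ 0 → ∀ a b, S.rl (m t) a b = true → L.okt t a b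
  W : ∀ k, S.W.getD k [] = [] ∨ (V (xk k) ∧ ∃ pre mid post,
    nz L.wt (L.W (xk k)) = pre ++ (mid ++ post) ∧ (∀ t ∈ mid, ¬ EX t) ∧
      mid.map m = S.W.getD k [])
  inj : ∀ t u, V (L.home t) → V (L.home u) → ¬ EX t → ¬ EX u → L.wt t ≠ 0 → L.wt u ≠ 0 →
    m t = m u → t = u
  th : ∀ t u : L.Tok, V (L.home t) → t.1.1 = .tn → u.1.1 = .tn → t.1.2.1 = u.1.2.1 →
    t.1.2.2 < u.1.2.2 → (∃ p ∈ th, m t = (p.1, false) ∧ m u = (p.2, false)) ∨
      ∃ p ∈ th, m t = (p.2, true) ∧ m u = (p.1, true)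

variable {L}

/-- a part of a mapped list -/
lemma map_split {α β : Type*} {f : α → β} {l : List α} {l₁ l₂ : List β} {a b : β}
    (h : l.map f = l₁ ++ a :: b :: l₂) :
    ∃ k₁ u t k₂, l = k₁ ++ u :: t :: k₂ ∧ f u = a ∧ f t = b := by
  obtain ⟨k₁, k', rfl, h1, h2⟩ := List.map_eq_append_iff.1 h
  obtain ⟨u, k'', rfl, h3, h4⟩ := List.map_eq_cons_iff.1 h2
  obtain ⟨t, k₂, rfl, h5, h6⟩ := List.map_eq_cons_iff.1 h4
  exact ⟨k₁, u, t, k₂, rfl, h3, h5⟩

/-- **the local conditions of the vertex** -/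
theorem Rep.vty {V cE : X → Prop} {EX : L.Tok → Prop} {S : Sy} {th : List (ℕ × ℕ)} {xk : ℕ → X}
    {m : L.Tok → Tk} (H : Rep L cE V EX S th xk m) {c : ℕ → Bool}
    (hc : ∀ t, V (L.home t) → ¬ EX t → L.wt t ≠ 0 → (cE (L.home t) ↔ c (S.co (m t)) = true))
    {sw : Tk → Prop} {Pos : Tk → Bool → Prop} {a0 : Tk → Bool} (hT : S.LTy c th sw Pos a0) :
    VTy L cE V (fun t => ¬ EX t ∧ L.wt t ≠ 0 ∧ sw (m t)) (fun t a => EX t ∨ Pos (m t) a)
      (fun t => a0 (m t)) := by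
  have hd : ∀ t, V (L.home t) → ¬ EX t → L.wt t ≠ 0 →
      (dtL L cE (fun t => ¬ EX t ∧ L.wt t ≠ 0 ∧ sw (m t)) t ↔ S.Dt c sw (m t)) := by
    intro t hV hX ht
    have h1 := H.sg t hV hX ht
    have h2 := hc t hV hX ht
    unfold dtL dts Det Sy.Dt
    have h3 : (L.wt t = 1 ↔ cE (L.home t)) ↔ S.sg (m t) = c (S.co (m t)) := by
      rw [h1, h2]
      exact Bool.eq_iff_iff.symm
    rw [h3]
    constructor
    · intro h4
      rw [h4]
      exact ⟨fun h5 h6 => h5 ⟨hX, ht, h6⟩, fun h5 h6 => h5 h6.2.2⟩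
    · intro h4
      rw [h4]
      exact ⟨fun h5 h6 => h5 h6.2.2, fun h5 h6 => h5 ⟨hX, ht, h6⟩⟩
  have hlt : ∀ t, L.wt t ≠ 0 → L.wt (L.lam t) ≠ 0 := fun t ht => by rw [Layt.wt_lam]; exact ht
  have hlX : ∀ t, ¬ EX t → ¬ EX (L.lam t) := fun t ht => by rw [H.exl]; exact ht
  have hdl : ∀ t, V (L.home t) → ¬ EX t → L.wt t ≠ 0 →
      (dtL L cE (fun t => ¬ EX t ∧ L.wt t ≠ 0 ∧ sw (m t)) (L.lam t) ↔
        S.Dt c sw (Sy.ot (m t))) := by
    intro t hV hX ht
    rw [hd _ (H.Vl t hV) (hlX t hX) (hlt t ht), H.ot t hV hX ht]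
  -- the extra tokens
  have hdX : ∀ t, V (L.home t) → EX t →
      (dtL L cE (fun t => ¬ EX t ∧ L.wt t ≠ 0 ∧ sw (m t)) t ↔
        ¬ dtL L cE (fun t => ¬ EX t ∧ L.wt t ≠ 0 ∧ sw (m t)) (L.lam t)) := by
    intro t hV hX
    have h1 : ¬ (¬ EX t ∧ L.wt t ≠ 0 ∧ sw (m t)) := fun h => h.1 hX
    have h2 : ¬ (¬ EX (L.lam t) ∧ L.wt (L.lam t) ≠ 0 ∧ sw (m (L.lam t))) := fun h =>
      h.1 ((H.exl t).2 hX)
    have e1 := dts_of_not (w := L.wt) (cls := fun t => cE (L.home t))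
      (sw := fun t => ¬ EX t ∧ L.wt t ≠ 0 ∧ sw (m t)) h1
    have e2 := dts_of_not (w := L.wt) (cls := fun t => cE (L.home t))
      (sw := fun t => ¬ EX t ∧ L.wt t ≠ 0 ∧ sw (m t)) h2
    unfold dtL
    rw [e1, e2]
    unfold Det
    have h3 := H.exd t hV hX
    rw [Layt.wt_lam]
    tauto
  -- neighbours
  have hadj : ∀ {u' t'}, S.Adj u' t' → ∃ u t, AdjL L u t ∧ V (L.home u) ∧ V (L.home t) ∧
      ¬ EX u ∧ ¬ EX t ∧ m u = u' ∧ m t = t' := by
    rintro u' t' ⟨h1, h2, k, l₁, l₂, h3⟩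
    rcases H.W k with h4 | ⟨hV, pre, mid, post, g1, g2, h4⟩
    · rw [h4] at h3
      simp at h3
    · rw [h3] at h4
      obtain ⟨k₁, u, t, k₂, h5, h6, h7⟩ := map_split h4
      have hum : u ∈ mid := by rw [h5]; simp
      have htm : t ∈ mid := by rw [h5]; simp
      have hu : u ∈ nz L.wt (L.W (xk k)) := by
        rw [g1]; exact List.mem_append_right _ (List.mem_append_left _ hum)
      have ht : t ∈ nz L.wt (L.W (xk k)) := by
        rw [g1]; exact List.mem_append_right _ (List.mem_append_left _ htm)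
      rw [mem_nz] at hu ht
      have hVu : V (L.home u) := by rw [Layt.mem_W.1 hu.1]; exact hV
      have hVt : V (L.home t) := by rw [Layt.mem_W.1 ht.1]; exact hV
      refine ⟨u, t, ⟨?_, ?_, xk k, pre ++ k₁, k₂ ++ post, ?_⟩, hVu, hVt, g2 u hum, g2 t htm, h6,
        h7⟩
      · have h8 := H.sg u hVu (g2 u hum) hu.2
        rw [h6, h1] at h8
        have h9 : L.wt u ≠ 1 := fun h => absurd (h8.1 h) (by simp)
        rcases Layt.wt_or u with h10 | h10 | h10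
        · exact h10
        · exact absurd h10 hu.2
        · exact absurd h10 h9
      · exact (H.sg t hVt (g2 t htm) ht.2).2 (by rw [h7]; exact h2)
      · rw [g1, h5]
        simp
  have hadj' : ∀ {t : L.Tok} {u'}, V (L.home t) → ¬ EX t → L.wt t ≠ 0 →
      (S.Adj u' (m t) ∨ S.Adj (m t) u') →
      ∃ u, (AdjL L u t ∨ AdjL L t u) ∧ V (L.home u) ∧ ¬ EX u ∧ L.wt u ≠ 0 ∧ m u = u' := by
    rintro t u' hV hX ht (h | h)
    · obtain ⟨u, t1, h1, h2, h3, g1, g2, h4, h5⟩ := hadj h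
      have h6 : t1 = t := H.inj t1 t h3 hV g2 hX (by rw [h1.2.1]; norm_num) ht h5
      subst h6
      exact ⟨u, Or.inl h1, h2, g1, by rw [h1.1]; norm_num, h4⟩
    · obtain ⟨t1, u, h1, h2, h3, g1, g2, h4, h5⟩ := hadj h
      have h6 : t1 = t := H.inj t1 t h2 hV g1 hX (by rw [h1.1]; norm_num) ht h4
      subst h6
      exact ⟨u, Or.inr h1, h3, g2, by rw [h1.2.1]; norm_num, h5⟩
  refine ⟨?_, ?_, ?_, ?_, ?_, ?_, ?_⟩
  · rintro t hV ⟨hX, ht, hs⟩
    obtain ⟨u', h1, h2⟩ := hT.swp _ hs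
    obtain ⟨u, h3, -, g1, h5, h6⟩ := hadj' hV hX ht h1
    exact ⟨u, h3, g1, h5, by rw [h6]; exact h2⟩
  · intro t hV ht
    by_cases hX : EX t
    · rw [hdX t hV hX]
      tauto
    · rw [hd t hV hX ht, hdl t hV hX ht]
      exact hT.nosink _ (H.tok t hV hX ht)
  · intro t hV ht h1 h2
    by_cases hX : EX t
    · exact absurd h2 ((hdX t hV hX).1 h1)
    · rw [hd t hV hX ht] at h1
      rw [hdl t hV hX ht] at h2
      obtain ⟨h3, h4⟩ := hT.src _ (H.tok t hV hX ht) h1 h2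
      refine ⟨?_, Or.inr h4⟩
      have h5 := H.rl t hV hX ht _ _ h3
      rw [← H.ot t hV hX ht] at h5
      exact h5
  · intro t hV ht h1 h2 b hb
    by_cases hX : EX t
    · exact ⟨b, Or.inl hX, H.exo t hV hX b⟩
    · rw [hd t hV hX ht] at h1
      rw [hdl t hV hX ht] at h2
      rcases hb with hb | hb
      · exact absurd hb (hlX t hX)
      rw [H.ot t hV hX ht] at hb
      obtain ⟨a, h3, h4⟩ := hT.flow _ (H.tok t hV hX ht) h1 h2 b hb
      exact ⟨a, Or.inr h3, H.rl t hV hX ht _ _ h4⟩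
  · intro t hV ht h1
    by_cases hX : EX t
    · exact Or.inl fun a => Or.inl hX
    rw [hd t hV hX ht] at h1
    rcases hT.strand _ (H.tok t hV hX ht) h1 with h2 | ⟨u', h2, h3⟩
    · exact Or.inl fun a => Or.inr (h2 a)
    · obtain ⟨u, h4, -, g1, -, h6⟩ := hadj' hV hX ht h2
      refine Or.inr ⟨u, h4, fun a ha => ?_⟩
      rcases ha with ha | ha
      · exact absurd ha g1
      · exact Or.inr (h3 a (by rw [← h6]; exact ha))
  · intro t hV ht
    by_cases hX : EX t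
    · exact ⟨true, Or.inl hX⟩
    · obtain ⟨a, ha⟩ := hT.pos _ (H.tok t hV hX ht)
      exact ⟨a, Or.inr ha⟩
  · intro t u hV h1 h2 h3 h4 a b ha hb hab
    have ha : Pos (m t) a := by
      rcases ha with ha | ha
      · exact absurd h1 (H.ext t ha)
      · exact ha
    have hb : Pos (m u) b := by
      rcases hb with hb | hb
      · exact absurd h2 (H.ext u hb)
      · exact hb
    rcases H.th t u hV h1 h2 h3 h4 with ⟨p, hp, h5, h6⟩ | ⟨p, hp, h5, h6⟩
    · rw [h5] at ha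
      rw [h6] at hb
      exact hT.mono p hp a b ha hb hab
    · rw [h5] at ha
      rw [h6] at hb
      exact hT.mono' p hp a b ha hb hab

/-- a vertex without crossings -/
theorem vty_empty {cE V : X → Prop} (h : ∀ t : L.Tok, V (L.home t) → L.wt t = 0) :
    VTy L cE V (fun _ => False) (fun _ _ => True) (fun _ => true) := by
  refine ⟨?_, ?_, ?_, ?_, ?_, ?_, ?_⟩
  · intro t _ ht; exact ht.elim
  · intro t hV ht; exact absurd (h t hV) ht
  · intro t hV ht; exact absurd (h t hV) ht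
  · intro t hV ht; exact absurd (h t hV) ht
  · intro t hV ht; exact absurd (h t hV) ht
  · intro t hV ht; exact absurd (h t hV) ht
  · intro t u hV h1
    exfalso
    have h2 := h t hV
    exact (Layt.wt_ne.2 (by rw [h1]; simp)) h2

end Pool.Agent.MP42.GZ
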