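import Pool.Agent.MP42.GZ.TypD

/-!
# Visible words of all vertex states, second form (owner helper28)
-/

set_option autoImplicit false

namespace Pool.Agent.MP42.GZ

open Pool.Agent.MP42.O3 (EK Lab)
open Pool.Agent.MP42.U

/-- the reduced word at the corner `k` -/
def Loc4.vsB (l : Loc4) (N k : ℕ) : Wd :=
  (redB (fun p q => l.nmt p == l.nmt q) (l.stw N k)).1.map fun q => (q.1, l.nmt q.2)

/-- names of the lanes: `8`, `9` are free -/
def Loc4.n89 (l : Loc4) : Bool := l.sn.all fun q => !(q.2 == 8) && !(q.2 == 9)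

theorem u3 : (allK3.all fun q => q.lc.n89 && (List.range 3).all fun k =>
    decide (q.lc.vsB 3 k = q.vis k)) = true := by
  decide +kernel

/-- the check for one combination -/
def chkU (q : Sq) (gm ga : M9) : Bool :=
  !(okQ q gm ga) || ((locS q gm ga).n89 &&
    (List.range 4).all fun k => decide ((locS q gm ga).vsB 4 k = visQ q gm ga k))

theorem u4a : (allQ.all fun q => allG.all fun gm => chkU q gm none) = true := by
  decide +kernel

theorem u4b : (allQ.all fun q => allG.all fun ga => chkU q none ga) = true := by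
  decide +kernel

theorem u4c : (allG.all fun gm => allG.all fun ga => chkU .non gm ga && chkU (.b .non) gm ga) =
    true := by
  decide +kernel

/-- **vertices of valence three** -/
theorem uq3 (ky a : Bool) (st : LS) : (Sq.l ky a st).lc.n89 = true ∧
    ∀ k < 3, (Sq.l ky a st).lc.vsB 3 k = (Sq.l ky a st).vis k := by
  have t := u3
  rw [List.all_eq_true] at t
  have hm : Sq.l ky a st ∈ allK3 := by cases ky <;> cases a <;> cases st <;> decide
  have t1 := t _ hm
  simp only [Bool.and_eq_true, List.all_eq_true, decide_eq_true_eq, List.mem_range] at t1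
  exact ⟨t1.1, fun k hk => t1.2 k hk⟩

theorem chkU_all {q : Sq} {gm ga : M9} (h : okQ q gm ga = true) : chkU q gm ga = true := by
  have hq : ∀ ky a st, q ≠ .l ky a st := by
    rintro ky a st rfl
    exact absurd h (by simp [okQ])
  rcases gm with _ | g
  · have t := u4b
    simp only [List.all_eq_true] at t
    exact t q (mem_allQ q hq) ga (mem_allG ga)
  · rcases ga with _ | g'
    · have t := u4a
      simp only [List.all_eq_true] at t
      exact t q (mem_allQ q hq) _ (mem_allG _)
    · have hN : q.isN = true := by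
        unfold okQ at h
        simp only [Option.isNone_some, Bool.false_or, Bool.or_false, Bool.and_eq_true] at h
        exact h.2
      have t := u4c
      simp only [List.all_eq_true, Bool.and_eq_true] at t
      have t1 := t _ (mem_allG (some g)) _ (mem_allG (some g'))
      rcases q with _ | ⟨ky, a, st⟩ | m | x
      · exact t1.1
      · exact absurd rfl (hq ky a st)
      · rcases m with _ | s | s | s | s | s | s | s | s
        · exact t1.2
        all_goals exact absurd hN (by simp [Sq.isN])
      · exact absurd hN (by simp [Sq.isN])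

/-- **bad tripods** -/
theorem uq4 {q : Sq} {gm ga : M9} (h : okQ q gm ga = true) : (locS q gm ga).n89 = true ∧
    ∀ k < 4, (locS q gm ga).vsB 4 k = visQ q gm ga k := by
  have t := chkU_all h
  unfold chkU at t
  rw [h, Bool.not_true, Bool.false_or] at t
  simp only [Bool.and_eq_true, List.all_eq_true, decide_eq_true_eq, List.mem_range] at t
  exact t

/-- the names `8`, `9` are free -/
theorem Loc4.n89_spec {l : Loc4} (h : l.n89 = true) (c : ℕ) (hc : c < l.sn.length) :
    (l.sn.getD c (true, 0)).2 ≠ 8 ∧ (l.sn.getD c (true, 0)).2 ≠ 9 := by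
  unfold Loc4.n89 at h
  rw [List.all_eq_true] at h
  have h1 := h _ (List.getElem_mem hc)
  rw [List.getD_eq_getElem _ _ hc]
  simpa using h1

/-- crossings with the same name are joined -/
theorem Loc4.con_spec {l : Loc4} {N : ℕ} (h : l.chk N = true) {c c' : ℕ} (hc : c < l.off 6)
    (hc' : c' < l.off 6) (hne : c ≠ c') (hn : l.nmt (c, false) = l.nmt (c', false)) :
    ∃ k < N, ∃ p ∈ l.hid N k, (p.1.1 = c ∧ p.2.1 = c') ∨ (p.1.1 = c' ∧ p.2.1 = c) := by
  unfold Loc4.chk at h
  simp only [Bool.and_eq_true] at h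
  have h1 := h.1.1
  unfold Loc4.con at h1
  simp only [List.all_eq_true, List.mem_range] at h1
  have key : ∀ c c', c < l.off 6 → c' < c → l.nmt (c, false) = l.nmt (c', false) →
      ∃ k < N, ∃ p ∈ l.hid N k, (p.1.1 = c ∧ p.2.1 = c') ∨ (p.1.1 = c' ∧ p.2.1 = c) := by
    intro c c' hc hc' hn
    have h2 := h1 c hc c' hc'
    rw [hn, beq_self_eq_true, Bool.not_true, Bool.false_or, List.any_eq_true] at h2
    obtain ⟨k, hk, h3⟩ := h2
    refine ⟨k, List.mem_range.1 hk, ?_⟩
    unfold jnd at h3
    rw [List.any_eq_true] at h3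
    obtain ⟨p, hp, h4⟩ := h3
    refine ⟨p, hp, ?_⟩
    simpa using h4
  rcases lt_or_gt_of_ne hne with h2 | h2
  · obtain ⟨k, hk, p, hp, h3⟩ := key c' c hc' h2 hn.symm
    exact ⟨k, hk, p, hp, h3.symm⟩
  · exact key c c' hc h2 hn

/-- every lane is visible -/
theorem Loc4.vsb_spec {l : Loc4} {N : ℕ} (h : l.chk N = true) {c : ℕ} (hc : c < l.off 6) :
    ∃ k < N, ∃ q ∈ red (l.cwN N k), q.2 = l.nmt (c, false) := by
  unfold Loc4.chk at h
  simp only [Bool.and_eq_true] at h
  have h1 := h.1.2
  unfold Loc4.vsb at h1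
  simp only [List.all_eq_true, List.mem_range] at h1
  have h2 := h1 c hc
  rw [List.any_eq_true] at h2
  obtain ⟨k, hk, h3⟩ := h2
  rw [List.any_eq_true] at h3
  obtain ⟨q, hq, h4⟩ := h3
  exact ⟨k, List.mem_range.1 hk, q, hq, by simpa using h4⟩

end Pool.Agent.MP42.GZ
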