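import Pool.Agent.MP42.GZ.LyC
import Pool.Agent.MP42.GZ.TypE
import Pool.Agent.MP42.TQ.LayK

/-!
# Words of the layout of a global state (owner helper28)

`qt t`: the crossing of a token.  `VxOK.corner`: the word of a corner reduces to the visible word of
the vertex, with the extra lanes outside; the removed pairs are the hidden pairs of the vertex.
-/

set_option autoImplicit false

namespace Pool.Agent.MP42.GZ

open Pool.Agent.MP42.O3 (EK Lab BM)
open Pool.Agent.MP42.EO
open Pool.Agent.MP42.U (Red redB red_redB tw lv Eqs B)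

/-- **reductions can be lifted** -/
theorem red_lift {T T' : Type*} {m : T → T'} {w w' : List (Bool × T')} {P : List (T' × T')}
    (h : Red w w' P) : ∀ v : List (Bool × T), v.map (Prod.map id m) = w →
    ∃ v' Q, Red v v' Q ∧ v'.map (Prod.map id m) = w' ∧ Q.map (Prod.map m m) = P := by
  induction h with
  | refl w => exact fun v hv => ⟨v, [], Red.refl v, hv, rfl⟩
  | @step w₁ w₂ w' p q P h ih =>
    intro v hv
    obtain ⟨v₁, v', rfl, h1, h2⟩ := List.map_eq_append_iff.1 hv
    obtain ⟨⟨b1, p'⟩, v'', rfl, h3, h4⟩ := List.map_eq_cons_iff.1 h2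
    obtain ⟨⟨b2, q'⟩, v₂, rfl, h5, h6⟩ := List.map_eq_cons_iff.1 h4
    simp only [Prod.map, id, Prod.mk.injEq] at h3 h5
    obtain ⟨rfl, rfl⟩ := h3
    obtain ⟨rfl, rfl⟩ := h5
    obtain ⟨v', Q, h7, h8, h9⟩ := ih (v₁ ++ v₂) (by rw [List.map_append, h1, h6])
    exact ⟨v', (p', q') :: Q, Red.step h7, h8, by rw [List.map_cons, h9]; rfl⟩

/-- the letters of a list of tokens -/
lemma tw_flat {T : Type*} {w : T → ℤ} (w1 : ∀ t, w t = -1 ∨ w t = 0 ∨ w t = 1) (l : List T) :
    l.flatMap (tw w) = (nz w l).map fun t => (decide (w t = 1), t) := by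
  induction l with
  | nil => rfl
  | cons t l ih =>
    rw [List.flatMap_cons, ih]
    rcases w1 t with h | h | h
    · rw [nz_cons_ne (by rw [h]; norm_num)]
      simp [tw, h]
    · rw [nz_cons_eq h]
      simp [tw, h]
    · rw [nz_cons_ne (by rw [h]; norm_num)]
      simp [tw, h]

variable {X : Type*} {M : BM X}

section

variable {L : Layt M}

/-- the crossing of a token -/
def qt (t : L.Tok) : Bool × ℕ :=
  match t.1.1 with
  | .cr => (L.w t.1.2.1).getD t.1.2.2 (true, 0)
  | .cl => (L.w t.1.2.1).getD t.1.2.2 (true, 0)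
  | .tn => (L.th t.1.2.1).getD t.1.2.2 (true, 0)
  | .id => (true, 0)

/-- the name of a token -/
def nmT (t : L.Tok) : ℕ := (qt t).2

lemma qt_sg {t : L.Tok} (h : L.wt t ≠ 0) : (decide (L.wt t = 1)) = (qt t).1 := by
  have key : ∀ q : Bool × ℕ, decide (sgq q = 1) = q.1 := by
    rintro ⟨_ | _, n⟩ <;> simp [sgq]
  obtain ⟨⟨k, x, i⟩, hv⟩ := t
  cases k
  · exact key _
  · exact key _
  · exact key _
  · exact absurd rfl h

lemma qt_lam (t : L.Tok) : qt (L.lam t) = qt t := by
  obtain ⟨⟨k, x, i⟩, hv⟩ := t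
  cases k
  · rfl
  · rfl
  · have h' : i < (L.th x).length := hv
    show (L.th (M.ν (M.ν x))).getD ((L.th x).length - 1 - i) (true, 0) =
      (L.th x).getD i (true, 0)
    rw [L.thr, List.getD_eq_getElem _ _ (by rw [List.length_reverse]; omega),
      List.getD_eq_getElem _ _ h', List.getElem_reverse]
    congr 1
    omega
  · rfl

lemma qt_crs (x : X) : (L.crs x).map qt = L.w x := by
  apply List.ext_getElem
  · rw [List.length_map, crs_len]
  · intro i h1 h2
    rw [List.length_map] at h1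
    obtain ⟨h3, h4⟩ := crs_get h1
    rw [List.getElem_map, h4]
    exact List.getD_eq_getElem _ _ h2

lemma qt_cls (x : X) : (L.cls x).map qt = L.w x := by
  apply List.ext_getElem
  · rw [List.length_map, cls_len]
  · intro i h1 h2
    rw [List.length_map] at h1
    obtain ⟨h3, h4⟩ := cls_get h1
    rw [List.getElem_map, h4]
    exact List.getD_eq_getElem _ _ h2

/-- the letters of a list of tokens which are not idle -/
lemma ltr_map {l : List L.Tok} (h : ∀ t ∈ l, L.wt t ≠ 0) :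
    (l.map fun t => (decide (L.wt t = 1), t)).map (Prod.map id nmT) = l.map qt := by
  rw [List.map_map]
  refine List.map_congr_left fun t ht => ?_
  show (decide (L.wt t = 1), (qt t).2) = qt t
  rw [qt_sg (h t ht)]

end

/-! ### Numbers and crossings -/

lemma sn_len (l : Loc4) : l.sn.length = l.off 6 := by
  simp [Loc4.sn, Loc4.off]
  omega

lemma sn_e (l : Loc4) {k i : ℕ} (h : i < (l.e k).length) :
    l.sn.getD (l.off k + i) (true, 0) = (l.e k)[i] := by
  have key : ∀ (A C w : Wd) (h : i < w.length), (A ++ w ++ C).getD (A.length + i) (true, 0) =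
      w[i] := by
    intro A C w h
    rw [List.getD_eq_getElem _ _ (by simp; omega), List.getElem_append_left (by simp; omega),
      List.getElem_append_right (by omega)]
    simp
  rcases k with _ | _ | _ | _ | k
  · have h' : i < l.e1.length := h
    have h1 := key [] (l.e2 ++ l.e3 ++ l.e4 ++ l.t1 ++ l.t2) l.e1 h'
    refine Eq.trans ?_ h1
    simp [Loc4.sn, Loc4.off, List.append_assoc]
  · have h' : i < l.e2.length := h
    have h1 := key l.e1 (l.e3 ++ l.e4 ++ l.t1 ++ l.t2) l.e2 h'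
    refine Eq.trans ?_ h1
    simp [Loc4.sn, Loc4.off, List.append_assoc]
  · have h' : i < l.e3.length := h
    have h1 := key (l.e1 ++ l.e2) (l.e4 ++ l.t1 ++ l.t2) l.e3 h'
    refine Eq.trans ?_ h1
    simp [Loc4.sn, Loc4.off, List.append_assoc]
  · have h' : i < l.e4.length := h
    have h1 := key (l.e1 ++ l.e2 ++ l.e3) (l.t1 ++ l.t2) l.e4 h'
    refine Eq.trans ?_ h1
    simp [Loc4.sn, Loc4.off, List.append_assoc, add_assoc]
  · exact absurd h (by simp [Loc4.e])

lemma sn_t1 (l : Loc4) {i : ℕ} (h : i < l.t1.length) :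
    l.sn.getD (l.off 4 + i) (true, 0) = l.t1[i] := by
  have key : ∀ (A C w : Wd) (h : i < w.length), (A ++ w ++ C).getD (A.length + i) (true, 0) =
      w[i] := by
    intro A C w h
    rw [List.getD_eq_getElem _ _ (by simp; omega), List.getElem_append_left (by simp; omega),
      List.getElem_append_right (by omega)]
    simp
  have h1 := key (l.e1 ++ l.e2 ++ l.e3 ++ l.e4) l.t2 l.t1 h
  refine Eq.trans ?_ h1
  simp [Loc4.sn, Loc4.off, List.append_assoc, add_assoc]

lemma sn_t2 (l : Loc4) {i : ℕ} (h : i < l.t2.length) :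
    l.sn.getD (l.off 5 + i) (true, 0) = l.t2[i] := by
  have key : ∀ (A C w : Wd) (h : i < w.length), (A ++ w ++ C).getD (A.length + i) (true, 0) =
      w[i] := by
    intro A C w h
    rw [List.getD_eq_getElem _ _ (by simp; omega), List.getElem_append_left (by simp; omega),
      List.getElem_append_right (by omega)]
    simp
  have h1 := key (l.e1 ++ l.e2 ++ l.e3 ++ l.e4 ++ l.t1) [] l.t2 h
  refine Eq.trans ?_ h1
  simp [Loc4.sn, Loc4.off, List.append_assoc, add_assoc]

section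

variable {L : Layt M} {cE : X → Prop} {b : X} {N : ℕ} {l : Loc4} {R : ℕ → ℕ → Bool → Rel}
  {S : Sy} (H : VxOK L cE b N l R) (hS : SyOf N S l R)

include H hS

/-- the crossing of a token at the vertex -/
lemma VxOK.qt_eq {t : L.Tok} (hV : vtx M b (L.home t)) (hX : ¬ exk l (ixf M b) t)
    (ht : L.wt t ≠ 0) : qt t = l.sn.getD (mtk l (ixf M b) t).1 (true, 0) ∧
      (mtk l (ixf M b) t).1 < l.off 6 := by
  obtain ⟨k, hk, hx⟩ := H.hx t hV
  obtain ⟨⟨kd, x, i⟩, h⟩ := t
  simp only at hx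
  subst hx
  cases kd
  · have hi := H.cr_lt hk hX
    rw [H.mcr hk]
    refine ⟨?_, off_lt l hi⟩
    show (L.w (M.ν^[k] b)).getD i (true, 0) = _
    rw [H.wtk hk hi, sn_e l hi]
  · have hi := H.cl_lt hk hX
    rw [H.mcl hk]
    refine ⟨?_, off_lt l hi⟩
    show (L.w (M.ν^[k] b)).getD i (true, 0) = _
    rw [H.wtk hk hi, sn_e l hi]
  · rw [H.mtn hk]
    obtain ⟨h4, h5⟩ := H.tn_cases hS hk (i := i) h
    have e0 : qt (⟨(.tn, M.ν^[k] b, i), h⟩ : L.Tok) = (l.t k).getD i (true, 0) := by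
      show (L.th (M.ν^[k] b)).getD i (true, 0) = _
      rw [H.th k hk]
    rw [e0]
    rcases h5 with ⟨rfl, h1⟩ | ⟨rfl, h1⟩ | ⟨rfl, h1⟩ | ⟨rfl, h1⟩
    · refine ⟨?_, off_lt1 l h1⟩
      show l.t1.getD i (true, 0) = l.sn.getD (l.off 4 + i) (true, 0)
      rw [sn_t1 l h1, List.getD_eq_getElem _ _ h1]
    · refine ⟨?_, off_lt2 l h1⟩
      show l.t2.getD i (true, 0) = l.sn.getD (l.off 5 + i) (true, 0)
      rw [sn_t2 l h1, List.getD_eq_getElem _ _ h1]
    · have h2 : l.t1.length - 1 - i < l.t1.length := by omega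
      refine ⟨?_, off_lt1 l h2⟩
      show l.t1.reverse.getD i (true, 0) = l.sn.getD (l.off 4 + (l.t1.length - 1 - i)) (true, 0)
      rw [sn_t1 l h2, List.getD_eq_getElem _ _ (by rw [List.length_reverse]; exact h1),
        List.getElem_reverse]
    · have h2 : l.t2.length - 1 - i < l.t2.length := by omega
      refine ⟨?_, off_lt2 l h2⟩
      show l.t2.reverse.getD i (true, 0) = l.sn.getD (l.off 5 + (l.t2.length - 1 - i)) (true, 0)
      rw [sn_t2 l h2, List.getD_eq_getElem _ _ (by rw [List.length_reverse]; exact h1),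
        List.getElem_reverse]
  · exact absurd rfl ht

/-- the name of a token at the vertex -/
lemma VxOK.nm_eq {t : L.Tok} (hV : vtx M b (L.home t)) (hX : ¬ exk l (ixf M b) t)
    (ht : L.wt t ≠ 0) : nmT t = l.nmt (mtk l (ixf M b) t) := by
  unfold nmT Loc4.nmt
  rw [(H.qt_eq hS hV hX ht).1]

omit H in
/-- the tokens of the system at a corner -/
lemma SyOf.tkw_eq {k : ℕ} (hk : k < N) : S.W.getD k [] = l.tkw N k := hS.W k hk

/-- **the word of a corner** reduces to the visible word -/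
theorem VxOK.corner {k : ℕ} (hk : k < N) : ∃ w' P,
    Red ((L.W (M.ν^[k] b)).flatMap (tw L.wt)) w' P ∧
    w'.map (Prod.map id nmT) =
      ((L.w (M.ν^[(k + N - 1) % N] b)).drop (l.e ((k + N - 1) % N)).length).reverse ++
        (l.vsB N k ++ (L.w (M.ν^[k] b)).drop (l.e k).length) ∧
    P.map (Prod.map (mtk l (ixf M b)) (mtk l (ixf M b))) = l.hid N k ∧
    ∀ p ∈ P, (vtx M b (L.home p.1) ∧ ¬ exk l (ixf M b) p.1 ∧ L.wt p.1 ≠ 0) ∧
      (vtx M b (L.home p.2) ∧ ¬ exk l (ixf M b) p.2 ∧ L.wt p.2 ≠ 0) := by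
  obtain ⟨pre, mid, post, h1, h2, h3, h4, h5⟩ := H.word hS hk
  obtain ⟨m, hm⟩ : ∃ m, m = mtk (L := L) l (ixf M b) := ⟨_, rfl⟩
  rw [← hm] at h3 ⊢
  have hmem : ∀ t ∈ pre ++ (mid ++ post), vtx M b (L.home t) ∧ L.wt t ≠ 0 := by
    intro t ht
    rw [← h1, mem_nz] at ht
    refine ⟨?_, ht.2⟩
    rw [Layt.mem_W.1 ht.1]
    exact ⟨k, rfl⟩
  have hmid : ∀ t ∈ mid, vtx M b (L.home t) ∧ ¬ exk l (ixf M b) t ∧ L.wt t ≠ 0 := by
    intro t ht
    obtain ⟨g1, g2⟩ := hmem t (by simp [ht])
    exact ⟨g1, h2 t ht, g2⟩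
  have e0 : (mid.map fun t => (decide (L.wt t = 1), t)).map (Prod.map id m) = l.stw N k := by
    unfold Loc4.stw
    rw [← hS.tkw_eq hk, ← h3, List.map_map, List.map_map]
    refine List.map_congr_left fun t ht => ?_
    obtain ⟨g1, g2, g3⟩ := hmid t ht
    show (decide (L.wt t = 1), m t) = (l.sgt (m t), m t)
    rw [qt_sg g3, (H.qt_eq hS g1 g2 g3).1, hm]
    rfl
  obtain ⟨v', Q, r1, r2, r3⟩ := red_lift
    (red_redB (fun p q => l.nmt p == l.nmt q) (l.stw N k)) _ e0
  have hv' : ∀ q ∈ v', q.2 ∈ mid := by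
    intro q hq
    have := r1.sublist.subset hq
    rw [List.mem_map] at this
    obtain ⟨t, ht, rfl⟩ := this
    exact ht
  have hQ : ∀ p ∈ Q, p.1 ∈ mid ∧ p.2 ∈ mid := by
    intro p hp
    obtain ⟨g1, g2⟩ := r1.mem_of hp
    rw [List.mem_map] at g1 g2
    obtain ⟨t, ht, h⟩ := g1
    obtain ⟨u, hu, h'⟩ := g2
    refine ⟨?_, ?_⟩
    · have h3 : t = p.1 := congrArg Prod.snd h
      rw [← h3]; exact ht
    · have h3 : u = p.2 := congrArg Prod.snd h'
      rw [← h3]; exact hu
  refine ⟨(pre.map fun t => (decide (L.wt t = 1), t)) ++ (v' ++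
    post.map fun t => (decide (L.wt t = 1), t)), Q, ?_, ?_, r3, ?_⟩
  · rw [tw_flat Layt.wt_or, h1, List.map_append, List.map_append]
    exact (r1.append_right _).append_left _
  · rw [List.map_append, List.map_append, ltr_map (fun t ht => (hmem t (by simp [ht])).2),
      ltr_map (fun t ht => (hmem t (by simp [ht])).2), h4, h5, List.map_reverse, List.map_drop,
      List.map_drop, qt_cls, qt_crs]
    congr 2
    unfold Loc4.vsB
    rw [← r2, List.map_map]
    refine List.map_congr_left fun q hq => ?_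
    obtain ⟨g1, g2, g3⟩ := hmid q.2 (hv' q hq)
    show (q.1, nmT q.2) = (q.1, l.nmt (m q.2))
    rw [H.nm_eq hS g1 g2 g3, hm]
  · exact fun p hp => ⟨hmid _ (hQ p hp).1, hmid _ (hQ p hp).2⟩

end

end Pool.Agent.MP42.GZ
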