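import Pool.Agent.MP42.GZ.LyD

/-!
# Values of the lanes of a global state (owner helper28)

`TVal`: values of the tokens of the layout which satisfy the equalities at all corners.
`Ok.val_nm`: tokens with the same name at a vertex have the same value.  `Vn`: the values of the
names; `Ok.word_eq`: the reduced word of a corner is the visible word `vx`.
-/

set_option autoImplicit false

namespace Pool.Agent.MP42.GZ

open Pool.Agent.MP42.O3 (EK Lab BM)
open Pool.Agent.MP42.O3.BM
open Pool.Agent.MP42.EO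
open Pool.Agent.MP42.PL (SV)
open Pool.Agent.MP42.U (Red redB red_redB tw lv Eqs B)

variable {D : Type*} {M : BM D}

/-- **values of the tokens** which satisfy the equalities at the corners -/
structure TVal (L : Layt M) (V : L.Tok → B) : Prop where
  lam : ∀ t, V (L.lam t) = V t
  eqs : ∀ x w' P, Red ((L.W x).flatMap (tw L.wt)) w' P → Eqs V P

/-- names of the extra lanes -/
structure GS.Exn (M : BM D) (G : GS D) : Prop where
  e89 : ∀ y, ∀ q ∈ G.ex y, q.2 = 8 ∨ q.2 = 9
  nd : ∀ y, ((G.ex y).map Prod.snd).Nodup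
  dis : ∀ y z, SV M y z → y ≠ z → ∀ q ∈ G.ex y, ∀ q' ∈ G.ex z, q.2 ≠ q'.2

namespace GS

variable {G : GS D}

/-- the vertex of the layout, without relations -/
theorem Ok.vxs (H : G.Ok M) {b : D} (hb : G.bs M b = b) : ∃ R S,
    VxOK (lay H) (fun x => G.cE x = true) b (nco M b) (G.vl M b) R ∧
      SyOf (nco M b) S (G.vl M b) R := by
  have h0 : VxOK (lay H) (fun x => G.cE x = true) b (nco M b) (G.vl M b)
      (R4 (fun _ _ _ _ => false) (fun _ _ _ _ => false) (fun _ _ _ _ => false)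
        (fun _ _ _ _ => false)) := by
    refine H.vx hb ?_
    intro k hk i h a c hr
    exfalso
    rcases k with _ | _ | _ | k <;> exact absurd hr (by simp [R4])
  rcases hB : (M.lab b).isB with _ | _
  · have hN : nco M b = 3 := by unfold nco; rw [hB]; rfl
    have hvl : G.vl M b = (G.mn b).lc := by
      unfold vl; rw [if_neg (by rw [hB]; simp)]
    obtain ⟨l3, hl⟩ : ∃ l3 : Loc3, G.vl M b = l3.to4 := by
      rcases H.mn3 hB with hm | ⟨ky, a, st, hm⟩
      · exact ⟨⟨[], [], []⟩, by rw [hvl, hm]; rfl⟩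
      · exact ⟨_, by rw [hvl, hm]; rfl⟩
    refine ⟨_, sy3 l3 (fun _ _ _ _ => false) (fun _ _ _ _ => false) (fun _ _ _ _ => false), h0, ?_⟩
    rw [hN, hl]
    exact sy3_of l3 _ _ _
  · have hN : nco M b = 4 := by unfold nco; rw [hB]; rfl
    refine ⟨_, sy4 (G.vl M b) (fun _ _ _ _ => false) (fun _ _ _ _ => false)
      (fun _ _ _ _ => false) (fun _ _ _ _ => false), h0, ?_⟩
    rw [hN]
    exact sy4_of _ _ _ _ _

/-- the names `8`, `9` are not used by the states -/
lemma Ok.n89 (H : G.Ok M) {b : D} (hb : G.bs M b = b) : (G.vl M b).n89 = true := by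
  rcases hB : (M.lab b).isB with _ | _
  · have hvl : G.vl M b = (G.mn b).lc := by
      unfold vl; rw [if_neg (by rw [hB]; simp)]
    rw [hvl]
    rcases H.mn3 hB with hm | ⟨ky, a, st, hm⟩
    · rw [hm]; decide
    · rw [hm]; exact (uq3 ky a st).1
  · rw [H.vl4 hB]
    exact (uq4 (H.okQ4 hb hB)).1

/-- the extra tokens of the layout -/
lemma Ok.ex_tok (H : G.Ok M) {b : D} (hb : G.bs M b = b) {t : (lay H).Tok}
    (hV : vtx M b ((lay H).home t)) (hX : exk (G.vl M b) (ixf M b) t) :
    ∃ k < nco M b, t.1.2.1 = M.ν^[k] b ∧ ∃ j, ∃ hj : j < (G.ex (M.ν^[k] b)).length,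
      t.1.2.2 = ((G.vl M b).e k).length + j ∧ qt t = (G.ex (M.ν^[k] b))[j] := by
  obtain ⟨R, S, hV0, -⟩ := H.vxs hb
  obtain ⟨k, hk, hx⟩ := hV0.hx t hV
  obtain ⟨⟨kd, x, i⟩, h⟩ := t
  simp only at hx
  subst hx
  refine ⟨k, hk, rfl, ?_⟩
  have h1 : ((G.vl M b).e k).length ≤ i := by
    have := hX.2
    simp only at this
    rwa [hV0.ix hk] at this
  have h2 : i < ((lay H).w (M.ν^[k] b)).length := by
    cases kd
    · exact h
    · exact h
    · rcases hX.1 with h3 | h3 <;> cases h3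
    · rcases hX.1 with h3 | h3 <;> cases h3
  have h3 := h2
  rw [lay_w H hb hk, List.length_append] at h3
  refine ⟨i - ((G.vl M b).e k).length, by omega, ?_, ?_⟩
  · show i = _
    omega
  · have e0 : qt (⟨(kd, M.ν^[k] b, i), h⟩ : (lay H).Tok) =
        ((lay H).w (M.ν^[k] b)).getD i (true, 0) := by
      cases kd
      · rfl
      · rfl
      · rcases hX.1 with h4 | h4 <;> cases h4
      · rcases hX.1 with h4 | h4 <;> cases h4
    rw [e0, lay_w H hb hk, List.getD_eq_getElem _ _ (by rw [List.length_append]; omega),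
      List.getElem_append_right h1]

/-- **tokens with the same name have the same value** -/
theorem Ok.val_nm (H : G.Ok M) (E : G.Exn M) {V : (lay H).Tok → B} (hV : TVal (lay H) V)
    {t u : (lay H).Tok} (h : vtx M ((lay H).home t) ((lay H).home u))
    (ht : (lay H).wt t ≠ 0) (hu : (lay H).wt u ≠ 0) (hn : nmT t = nmT u) : V t = V u := by
  obtain ⟨b, hb0⟩ : ∃ b, b = G.bs M ((lay H).home t) := ⟨_, rfl⟩
  have hb : G.bs M b = b := by rw [hb0]; exact H.bs_bs _
  have hVt : vtx M b ((lay H).home t) := by rw [hb0]; exact H.bs_sv _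
  have hVu : vtx M b ((lay H).home u) := vtx_trans hVt h
  obtain ⟨R, S, hVx, hS⟩ := H.vxs hb
  have hR := hVx.rep hS
  obtain ⟨m, hm⟩ : ∃ m, m = mtk (L := lay H) (G.vl M b) (ixf M b) := ⟨_, rfl⟩
  -- the same crossing
  have hc : ∀ t u : (lay H).Tok, vtx M b ((lay H).home t) → vtx M b ((lay H).home u) →
      ¬ exk (G.vl M b) (ixf M b) t → ¬ exk (G.vl M b) (ixf M b) u → (lay H).wt t ≠ 0 →
      (lay H).wt u ≠ 0 → (m t).1 = (m u).1 → V t = V u := by
    intro t u h1 h2 h3 h4 h5 h6 h7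
    by_cases h8 : (m t).2 = (m u).2
    · have h9 : m t = m u := Prod.ext h7 h8
      rw [hm] at h9
      rw [hR.inj t u h1 h2 h3 h4 h5 h6 h9]
    · have h9 : m (( lay H).lam t) = m u := by
        rw [hm, hR.ot t h1 h3 h5, ← hm]
        refine Prod.ext h7 ?_
        show (!(m t).2) = (m u).2
        revert h8
        cases (m t).2 <;> cases (m u).2 <;> simp
      rw [hm] at h9
      rw [← hV.lam t, hR.inj _ u (hR.Vl t h1) h2 (fun hx => h3 ((hR.exl t).1 hx)) h4
        (by rw [Layt.wt_lam]; exact h5) h6 h9]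
  have hnx : ∀ t : (lay H).Tok, vtx M b ((lay H).home t) → ¬ exk (G.vl M b) (ixf M b) t →
      (lay H).wt t ≠ 0 → nmT t ≠ 8 ∧ nmT t ≠ 9 := by
    intro t h1 h2 h3
    obtain ⟨h4, h5⟩ := hVx.qt_eq hS h1 h2 h3
    have h6 := Loc4.n89_spec (H.n89 hb) _ (by rw [sn_len]; exact h5)
    unfold nmT
    rw [h4]
    exact h6
  have hxx : ∀ t : (lay H).Tok, vtx M b ((lay H).home t) → exk (G.vl M b) (ixf M b) t →
      nmT t = 8 ∨ nmT t = 9 := by
    intro t h1 h2
    obtain ⟨k, hk, -, j, hj, -, h3⟩ := H.ex_tok hb h1 h2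
    have h4 := E.e89 _ _ (List.getElem_mem hj)
    rw [← h3] at h4
    exact h4
  by_cases hX : exk (G.vl M b) (ixf M b) t
  · by_cases hX' : exk (G.vl M b) (ixf M b) u
    · obtain ⟨k, hk, hx, j, hj, hi, hq⟩ := H.ex_tok hb hVt hX
      obtain ⟨k', hk', hx', j', hj', hi', hq'⟩ := H.ex_tok hb hVu hX'
      have hkk : k = k' := by
        by_contra hne
        have h1 : M.ν^[k] b ≠ M.ν^[k'] b := fun h2 =>
          hne (nco_inj H.n1 H.n2 b k k' hk hk' h2)
        refine E.dis _ _ ?_ h1 _ (List.getElem_mem hj) _ (List.getElem_mem hj') ?_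
        · exact vtx_trans (vtx_symm ⟨k, rfl⟩) ⟨k', rfl⟩
        · rw [← hq, ← hq']; exact hn
      subst hkk
      have hjj : j = j' := by
        have h1 := E.nd (M.ν^[k] b)
        have h2 : ((G.ex (M.ν^[k] b)).map Prod.snd)[j]'(by simpa using hj) =
            ((G.ex (M.ν^[k] b)).map Prod.snd)[j']'(by simpa using hj') := by
          rw [List.getElem_map, List.getElem_map, ← hq, ← hq']
          exact hn
        exact (List.Nodup.getElem_inj_iff h1).1 h2
      subst hjj
      have e2 : t.1.2.1 = u.1.2.1 := by rw [hx, hx']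
      have e3 : t.1.2.2 = u.1.2.2 := by rw [hi, hi']
      by_cases e1 : t.1.1 = u.1.1
      · rw [Layt.tok_ext e1 e2 e3]
      · rw [← hV.lam t]
        congr 1
        obtain ⟨⟨kd, x, i⟩, hv⟩ := t
        obtain ⟨⟨kd', x', i'⟩, hv'⟩ := u
        simp only at e1 e2 e3
        subst e2 e3
        rcases hX.1 with g | g <;> rcases hX'.1 with g' | g' <;> simp only at g g' <;>
          subst g g'
        · exact absurd rfl e1
        · rfl
        · rfl
        · exact absurd rfl e1
    · exfalso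
      have h1 := hxx t hVt hX
      have h2 := hnx u hVu hX' hu
      rw [hn] at h1
      rcases h1 with h1 | h1
      · exact h2.1 h1
      · exact h2.2 h1
  · by_cases hX' : exk (G.vl M b) (ixf M b) u
    · exfalso
      have h1 := hxx u hVu hX'
      have h2 := hnx t hVt hX ht
      rw [hn] at h2
      rcases h1 with h1 | h1
      · exact h2.1 h1
      · exact h2.2 h1
    · by_cases hcc : (m t).1 = (m u).1
      · exact hc t u hVt hVu hX hX' ht hu hcc
      · obtain ⟨-, h1⟩ := hVx.qt_eq hS hVt hX ht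
        obtain ⟨-, h2⟩ := hVx.qt_eq hS hVu hX' hu
        have h3 := hVx.nm_eq hS hVt hX ht
        have h4 := hVx.nm_eq hS hVu hX' hu
        rw [← hm] at h1 h2 h3 h4
        obtain ⟨k, hk, p, hp, h5⟩ := Loc4.con_spec (H.chkb hb) h1 h2 hcc (by
          show ((G.vl M b).sn.getD (m t).1 (true, 0)).2 = ((G.vl M b).sn.getD (m u).1 (true, 0)).2
          exact h3.symm.trans (hn.trans h4))
        obtain ⟨w', P, r1, -, r3, r4⟩ := hVx.corner hS hk
        rw [← r3, List.mem_map] at hp
        obtain ⟨p', hp', rfl⟩ := hp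
        have h6 := hV.eqs _ _ _ r1 p' hp'
        obtain ⟨⟨a1, a2, a3⟩, c1, c2, c3⟩ := r4 p' hp'
        rw [← hm] at h5
        rcases h5 with ⟨h7, h8⟩ | ⟨h7, h8⟩
        · rw [← hc p'.1 t a1 hVt a2 hX a3 ht h7, h6, hc p'.2 u c1 hVu c2 hX' c3 hu h8]
        · rw [← hc p'.1 u a1 hVu a2 hX' a3 hu h7, h6, hc p'.2 t c1 hVt c2 hX c3 ht h8]

end GS

end Pool.Agent.MP42.GZ
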