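import Pool.Agent.MP42.GZ.LyE

/-!
# Visible words and values of a global state (owner helper28)

`nmv y n`: the name of the lane `(y, n)` in the layout.  `Vn`: the values of the names.
`Ok.word_eq`: the word of a corner with the values of the tokens reduces to the visible word `vx`.
-/

set_option autoImplicit false

namespace Pool.Agent.MP42.GZ

open Pool.Agent.MP42.O3 (EK Lab BM)
open Pool.Agent.MP42.O3.BM
open Pool.Agent.MP42.EO
open Pool.Agent.MP42.PL (SV)
open Pool.Agent.MP42.U (Red redB red_redB tw lv Eqs B)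

variable {D : Type*} {M : BM D}

/-- names of the visible words of the main states -/
theorem tvis : ((allQ ++ allK3).all fun q => (List.range 4).all fun k =>
    (q.vis k).all fun p => decide (p.2 < 8)) = true := by
  decide +kernel

theorem vis_lt (q : Sq) (k : ℕ) (hk : k < 4) : ∀ p ∈ q.vis k, p.2 < 8 := by
  have t := tvis
  simp only [List.all_eq_true, List.mem_range, decide_eq_true_eq] at t
  refine fun p hp => t q ?_ k hk p hp
  rcases q with _ | ⟨ky, a, st⟩ | m | x_
  · exact List.mem_append_left _ (mem_allQ _ (by simp))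
  · exact List.mem_append_right _ (by cases ky <;> cases a <;> cases st <;> decide)
  · exact List.mem_append_left _ (mem_allQ _ (by simp))
  · exact List.mem_append_left _ (mem_allQ _ (by simp))

theorem tgv : (allG.all fun g => decide (gv g 0 = visGM g 1) && decide (gv g 1 = visGM g 2) &&
    decide ((gv g 0).map (fun q => (q.1, q.2 + 10)) = visGA g 3) &&
    decide ((gv g 1).map (fun q => (q.1, q.2 + 10)) = visGA g 0) &&
    ((gv g 0).all fun q => decide (10 ≤ q.2)) && ((gv g 1).all fun q => decide (10 ≤ q.2))) =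
    true := by
  decide +kernel

theorem gv_spec (g : M9) : gv g 0 = visGM g 1 ∧ gv g 1 = visGM g 2 ∧
    (gv g 0).map (fun q => (q.1, q.2 + 10)) = visGA g 3 ∧
    (gv g 1).map (fun q => (q.1, q.2 + 10)) = visGA g 0 ∧
    (∀ q ∈ gv g 0, 10 ≤ q.2) ∧ ∀ q ∈ gv g 1, 10 ≤ q.2 := by
  have t := tgv
  simp only [List.all_eq_true, Bool.and_eq_true, decide_eq_true_eq] at t
  obtain ⟨⟨⟨⟨⟨t1, t2⟩, t3⟩, t4⟩, t5⟩, t6⟩ := t g (mem_allG g)
  exact ⟨t1, t2, t3, t4, t5, t6⟩

namespace GS

variable (M) (G : GS D)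

/-- the name of a lane in the layout -/
noncomputable def nmv (y : D) (n : ℕ) : ℕ :=
  if n < 10 then n else
    if ixf M (G.bs M y) y = 1 ∨ ixf M (G.bs M y) y = 2 then n else n + 10

variable {M G}

open Classical in
/-- the value at a point with a given property -/
noncomputable def pick {T : Type*} (V : T → B) (P : T → Prop) : B :=
  if h : ∃ t, P t then V h.choose else 0

/-- the value of a name -/
noncomputable def Vn (H : G.Ok M) (V : (lay H).Tok → B) (p : D × ℕ) : B :=
  pick V fun t => vtx M p.1 ((lay H).home t) ∧ (lay H).wt t ≠ 0 ∧ nmT t = G.nmv M p.1 p.2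

lemma Vn_eq (H : G.Ok M) (E : G.Exn M) {V : (lay H).Tok → B} (hV : TVal (lay H) V)
    {t : (lay H).Tok} {y : D} {n : ℕ} (h1 : vtx M y ((lay H).home t)) (h2 : (lay H).wt t ≠ 0)
    (h3 : nmT t = G.nmv M y n) : Vn H V (y, n) = V t := by
  have h : ∃ t : (lay H).Tok, vtx M (y, n).1 ((lay H).home t) ∧ (lay H).wt t ≠ 0 ∧
    nmT t = G.nmv M (y, n).1 (y, n).2 := ⟨t, h1, h2, h3⟩
  unfold Vn pick
  rw [dif_pos h]
  obtain ⟨g1, g2, g3⟩ := h.choose_spec
  exact H.val_nm E hV (vtx_trans (vtx_symm g1) h1) g2 h2 (g3.trans h3.symm)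

lemma Vn_congr (H : G.Ok M) {V : (lay H).Tok → B} {y z : D} {n n' : ℕ} (h : vtx M y z)
    (hn : G.nmv M y n = G.nmv M z n') : Vn H V (y, n) = Vn H V (z, n') := by
  have e : (fun t : (lay H).Tok => vtx M (y, n).1 ((lay H).home t) ∧ (lay H).wt t ≠ 0 ∧
      nmT t = G.nmv M (y, n).1 (y, n).2) = (fun t : (lay H).Tok => vtx M (z, n').1
      ((lay H).home t) ∧ (lay H).wt t ≠ 0 ∧ nmT t = G.nmv M (z, n').1 (z, n').2) := by
    funext t
    simp only
    rw [hn]
    have h1 : vtx M y ((lay H).home t) ↔ vtx M z ((lay H).home t) :=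
      ⟨fun h2 => vtx_trans (vtx_symm h) h2, fun h2 => vtx_trans h h2⟩
    rw [h1]
  exact congrArg (pick V) e

/-- **the values of the names are values of the lanes** -/
theorem Vn_lam (H : G.Ok M) (V : (lay H).Tok → B) : LamInv M (Vn H V) where
  m y n hn := by
    refine Vn_congr H (vtx_symm ⟨1, rfl⟩) ?_
    unfold nmv
    rw [if_pos hn, if_pos hn]
  g y n hn hy := by
    refine Vn_congr H (vtx_symm ⟨1, rfl⟩) ?_
    have hbn : G.bs M (M.ν y) = G.bs M y := (bs_congr (⟨1, rfl⟩ : SV M y (M.ν y))).symm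
    have hn' : ¬ n < 10 := by omega
    simp only [nmv, if_neg hn', hbn]
    obtain ⟨b, k, hb, hk, rfl, hb'⟩ := H.num y
    rw [hb']
    have hB : (M.lab b).isB = true := by
      have := PL.isB_iter (M := M) b k
      rw [hy] at this
      exact this.symm
    obtain ⟨l1, l2, l3, l4⟩ := H.lab4 hb hB
    have hN : nco M b = 4 := by unfold nco; rw [hB]; rfl
    have hper : M.ν (M.ν (M.ν (M.ν b))) = b := M.n4 b hB
    have e0 : ixf M b b = 0 := by
      have := ixf_iter (M := M) H.n1 H.n2 (b := b) (k := 0) (by rw [hN]; omega)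
      exact this
    have e1 : ixf M b (M.ν b) = 1 := ixf_iter (M := M) H.n1 H.n2 (b := b) (k := 1) (by rw [hN]; omega)
    have e2 : ixf M b (M.ν (M.ν b)) = 2 :=
      ixf_iter (M := M) H.n1 H.n2 (b := b) (k := 2) (by rw [hN]; omega)
    have e3 : ixf M b (M.ν (M.ν (M.ν b))) = 3 :=
      ixf_iter (M := M) H.n1 H.n2 (b := b) (k := 3) (by rw [hN]; omega)
    have hk' : k = 0 ∨ k = 1 ∨ k = 2 ∨ k = 3 := by rw [hN] at hk; omega
    rcases hk' with rfl | rfl | rfl | rfl
    · exact absurd (l1.symm.trans hy) (by simp)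
    · show (if ixf M b (M.ν (M.ν b)) = 1 ∨ ixf M b (M.ν (M.ν b)) = 2 then n else n + 10) =
        if ixf M b (M.ν b) = 1 ∨ ixf M b (M.ν b) = 2 then n else n + 10
      rw [e1, e2]
      simp
    · exact absurd (l3.symm.trans hy) (by simp)
    · show (if ixf M b (M.ν (M.ν (M.ν (M.ν b)))) = 1 ∨ ixf M b (M.ν (M.ν (M.ν (M.ν b)))) = 2
        then n else n + 10) = if ixf M b (M.ν (M.ν (M.ν b))) = 1 ∨
          ixf M b (M.ν (M.ν (M.ν b))) = 2 then n else n + 10
      rw [hper, e0, e3]
      simp

/-! ### The visible words -/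

/-- the main word -/
lemma Ok.mw_eq (H : G.Ok M) {b : D} (hb : G.bs M b = b) {k : ℕ} (hk : k < nco M b) :
    mw tb M G.mn (M.ν^[k] b) = (G.mn b).vis k := by
  have hN := nco_or (M := M) b
  have hg : ∀ y, SV M b y → G.mn y ≠ .non → y = b := by
    have := (H.bs_spec b).2.1
    rw [hb] at this
    exact this
  have hμν : ∀ (i : ℕ) (z : D), M.ν^[i] (M.μ^[i] z) = z := by
    intro i
    induction i with
    | zero => intro z; rfl
    | succ i ih =>
      intro z
      rw [Function.iterate_succ_apply, Function.iterate_succ_apply', ν_μ, ih]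
  have key : ∀ i < 4, tb.vis (G.mn (M.μ^[i] (M.ν^[k] b))) i =
      if i = k then (G.mn b).vis k else [] := by
    intro i hi
    by_cases hz : M.μ^[i] (M.ν^[k] b) = b
    · rw [hz]
      have h1 : M.ν^[k] b = M.ν^[i] b := by
        conv_rhs => rw [← hz]
        rw [hμν]
      by_cases hiN : i < nco M b
      · have h2 : k = i := nco_inj H.n1 H.n2 b k i hk hiN h1
        rw [if_pos h2.symm, h2]
        rfl
      · have h3 : nco M b = 3 := by omega
        have h4 : i = 3 := by omega
        have hB : (M.lab b).isB = false := by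
          rcases hB : (M.lab b).isB with _ | _
          · rfl
          · unfold nco at h3; rw [hB] at h3; simp at h3
        rw [if_neg (by omega), h4]
        rcases H.mn3 hB with hm | ⟨ky, a, st, hm⟩
        · rw [hm]; rfl
        · rw [hm]; rfl
    · have h1 : G.mn (M.μ^[i] (M.ν^[k] b)) = .non := by
        by_contra hc
        refine hz (hg _ ?_ hc)
        have h2 : vtx M (M.μ^[i] (M.ν^[k] b)) (M.ν^[k] b) := ⟨i, (hμν i _).symm⟩
        exact vtx_trans ⟨k, rfl⟩ (vtx_symm h2)
      rw [h1]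
      by_cases hik : i = k
      · exfalso
        apply hz
        rw [hik]
        clear hz h1 hik hk
        induction k with
        | zero => rfl
        | succ k ih =>
          rw [Function.iterate_succ_apply, Function.iterate_succ_apply', μ_ν]
          exact ih
      · rw [if_neg hik]; rfl
  have hk4 : k < 4 := by omega
  unfold mw
  have e : (List.range 4).flatMap (fun i => tb.vis (G.mn (M.μ^[i] (M.ν^[k] b))) i) =
      (List.range 4).flatMap (fun i => if i = k then (G.mn b).vis k else []) :=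
    List.flatMap_congr fun i hi => key i (List.mem_range.1 hi)
  rw [e]
  generalize (G.mn b).vis k = c
  interval_cases k <;> simp [List.range_succ]

/-- no gate links at other corners -/
lemma Ok.gt_none (H : G.Ok M) {y : D} (h : M.lab y ≠ .B2) : G.gt y = none := by
  rcases hg : G.gt y with _ | ⟨a, st⟩
  · rfl
  · exact absurd (H.lG y a st hg).1 h

lemma nmv_iter (H : G.Ok M) {b : D} (hb : G.bs M b = b) {k : ℕ} (hk : k < nco M b) (n : ℕ) :
    G.nmv M (M.ν^[k] b) n = if n < 10 then n else if k = 1 ∨ k = 2 then n else n + 10 := by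
  unfold nmv
  have h1 := H.bs_iter b k
  rw [hb] at h1
  rw [h1, ixf_iter H.n1 H.n2 hk]

/-- names below `10` do not change -/
lemma nmv_low {y : D} {n : ℕ} (h : n < 10) : G.nmv M y n = n := by
  unfold nmv; rw [if_pos h]

/-- **the visible word of the states** -/
theorem Ok.asm_eq (H : G.Ok M) {b : D} (hb : G.bs M b = b) {k : ℕ} (hk : k < nco M b) :
    (asm M (M.ν^[k] b) (mw tb M G.mn (M.ν^[k] b)) [] (gw M G.gt (M.ν^[k] b))).map
      (fun q => (q.1, G.nmv M (M.ν^[k] b) q.2)) = (G.vl M b).vsB (nco M b) k := by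
  have hlow : ((G.mn b).vis k).map (fun q => (q.1, G.nmv M (M.ν^[k] b) q.2)) =
      (G.mn b).vis k := by
    conv_rhs => rw [← List.map_id ((G.mn b).vis k)]
    refine List.map_congr_left fun q hq => ?_
    have h1 := vis_lt (G.mn b) k (by have := nco_or (M := M) b; omega) q hq
    rw [nmv_low (by omega)]
    rfl
  rw [H.mw_eq hb hk]
  rcases hB : (M.lab b).isB with _ | _
  · have hN : nco M b = 3 := by unfold nco; rw [hB]; rfl
    have hvl : G.vl M b = (G.mn b).lc := by
      unfold vl; rw [if_neg (by rw [hB]; simp)]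
    have hBy : ∀ y, SV M b y → (M.lab y).isB = false := by
      rintro y ⟨j, rfl⟩
      rw [PL.isB_iter]; exact hB
    have hl : M.lab (M.ν^[k] b) ≠ .B3 := by
      intro h
      have := hBy (M.ν^[k] b) ⟨k, rfl⟩
      rw [h] at this
      exact absurd this (by decide)
    have hg1 : G.gt (M.ν^[k] b) = none := H.gt_none fun h => by
      have := hBy (M.ν^[k] b) ⟨k, rfl⟩
      rw [h] at this
      exact absurd this (by decide)
    have hg2 : G.gt (M.μ (M.ν^[k] b)) = none := H.gt_none fun h => by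
      have h1 : vtx M (M.μ (M.ν^[k] b)) (M.ν^[k] b) := ⟨1, (ν_μ _).symm⟩
      have := hBy (M.μ (M.ν^[k] b)) (vtx_trans ⟨k, rfl⟩ (vtx_symm h1))
      rw [h] at this
      exact absurd this (by decide)
    have e : asm M (M.ν^[k] b) ((G.mn b).vis k) [] (gw M G.gt (M.ν^[k] b)) = (G.mn b).vis k := by
      unfold asm gw
      rw [if_neg hl, hg1, hg2]
      show ((G.mn b).vis k ++ []) ++ (gv none 0 ++ gv none 1) = _
      rw [show gv none 0 = [] from rfl, show gv none 1 = [] from rfl]
      simp
    rw [e, hlow, hN, hvl]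
    rcases H.mn3 hB with hm | ⟨ky, a, st, hm⟩
    · rw [hm]
      rw [hN] at hk
      interval_cases k <;> decide
    · rw [hm]; exact ((uq3 ky a st).2 k (by omega)).symm
  · obtain ⟨l1, l2, l3, l4⟩ := H.lab4 hb hB
    have hN : nco M b = 4 := by unfold nco; rw [hB]; rfl
    rw [hN, H.vl4 hB, (uq4 (H.okQ4 hb hB)).2 k (by omega)]
    have hper : M.ν (M.ν (M.ν (M.ν b))) = b := M.n4 b hB
    have m0 : M.μ b = M.ν (M.ν (M.ν b)) := by
      conv_lhs => rw [← hper]
      rw [μ_ν]
    have g0 : G.gt b = none := H.gt_none (by rw [l1]; simp)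
    have g2 : G.gt (M.ν (M.ν b)) = none := H.gt_none (by rw [l3]; simp)
    have hn : ∀ n, G.nmv M (M.ν^[k] b) n =
      if n < 10 then n else if k = 1 ∨ k = 2 then n else n + 10 := fun n => nmv_iter H hb hk n
    have hk' : k = 0 ∨ k = 1 ∨ k = 2 ∨ k = 3 := by omega
    rcases hk' with rfl | rfl | rfl | rfl
    · show (asm M b ((G.mn b).vis 0) [] (gw M G.gt b)).map _ = _
      unfold asm gw visQ gQ
      rw [if_pos l1, g0, m0, if_pos (Or.inl rfl), if_pos rfl]
      rw [show gv none 0 = [] from rfl, List.nil_append, List.map_append, List.nil_append, hlow]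
      congr 1
      rw [← (gv_spec _).2.2.2.1]
      refine List.map_congr_left fun q hq => ?_
      have h1 := (gv_spec _).2.2.2.2.2 q hq
      rw [hn, if_neg (by omega), if_neg (by omega)]
    · show (asm M (M.ν b) ((G.mn b).vis 1) [] (gw M G.gt (M.ν b))).map _ = _
      unfold asm gw visQ gQ
      rw [if_neg (by rw [l2]; simp), μ_ν, g0, if_neg (by omega), if_neg (by omega), if_pos rfl]
      rw [show gv none 1 = [] from rfl, List.append_nil, List.append_nil, List.map_append, hlow]
      congr 1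
      rw [← (gv_spec _).1]
      conv_rhs => rw [← List.map_id (gv (G.gt (M.ν b)) 0)]
      refine List.map_congr_left fun q hq => ?_
      have h1 := (gv_spec _).2.2.2.2.1 q hq
      rw [hn, if_neg (by omega), if_pos (by omega)]
      rfl
    · show (asm M (M.ν (M.ν b)) ((G.mn b).vis 2) [] (gw M G.gt (M.ν (M.ν b)))).map _ = _
      unfold asm gw visQ gQ
      rw [if_pos l3, g2, μ_ν, if_pos (Or.inr rfl), if_neg (by omega), if_neg (by omega),
        if_pos rfl]
      rw [show gv none 0 = [] from rfl, List.nil_append, List.map_append, List.nil_append, hlow]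
      congr 1
      rw [← (gv_spec _).2.1]
      conv_rhs => rw [← List.map_id (gv (G.gt (M.ν b)) 1)]
      refine List.map_congr_left fun q hq => ?_
      have h1 := (gv_spec _).2.2.2.2.2 q hq
      rw [hn, if_neg (by omega), if_pos (by omega)]
      rfl
    · show (asm M (M.ν (M.ν (M.ν b))) ((G.mn b).vis 3) [] (gw M G.gt (M.ν (M.ν (M.ν b))))).map _
        = _
      unfold asm gw visQ gQ
      rw [if_neg (by rw [l4]; simp), μ_ν, g2, if_neg (by omega), if_neg (by omega),
        if_neg (by omega), if_neg (by omega)]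
      rw [show gv none 1 = [] from rfl, List.append_nil, List.append_nil, List.map_append, hlow]
      congr 1
      rw [← (gv_spec _).2.2.1]
      refine List.map_congr_left fun q hq => ?_
      have h1 := (gv_spec _).2.2.2.2.1 q hq
      rw [hn, if_neg (by omega), if_neg (by omega)]

variable (M G) in
/-- the visible word -/
noncomputable abbrev vwd (x : D) : List (Bool × (D × ℕ)) := GZ.vx tb M G.mn G.gt G.ex x

/-- equal images of two lists -/
lemma map_eq_map_of {α β γ δ : Type*} {f : α → γ} {g : β → γ} {F : α → δ} {F' : β → δ} :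
    ∀ {l : List α} {l' : List β}, l.map f = l'.map g →
      (∀ a ∈ l, ∀ b ∈ l', f a = g b → F a = F' b) → l.map F = l'.map F' := by
  intro l
  induction l with
  | nil =>
    intro l' h _
    rw [List.map_nil, List.nil_eq, List.map_eq_nil_iff] at h
    rw [h]; rfl
  | cons a l ih =>
    intro l' h hF
    rcases l' with _ | ⟨b, l'⟩
    · simp at h
    · rw [List.map_cons, List.map_cons, List.cons.injEq] at h
      rw [List.map_cons, List.map_cons, hF a List.mem_cons_self b List.mem_cons_self h.1,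
        ih h.2 fun a ha b hb => hF a (List.mem_cons_of_mem _ ha) b (List.mem_cons_of_mem _ hb)]

/-- **the word of a corner** -/
theorem Ok.word_eq (H : G.Ok M) (E : G.Exn M) (x : D) : ∃ w' P,
    Red (((lay H).W x).flatMap (tw (lay H).wt)) w' P ∧
    w'.map (Prod.map id nmT) = (vwd M G x).map (fun q => (q.1, G.nmv M x q.2.2)) ∧
    (∀ q ∈ vwd M G x, q.2.1 = x) ∧
    (∀ q ∈ w', (lay H).home q.2 = x ∧ (lay H).wt q.2 ≠ 0) ∧
    ∀ V : (lay H).Tok → B, TVal (lay H) V → lv V w' = lv (Vn H V) (vwd M G x) := by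
  obtain ⟨b, k, hb, hk, rfl, -⟩ := H.num x
  obtain ⟨R, S, hVx, hS⟩ := H.vxs hb
  obtain ⟨w', P, h1, h2, -, -⟩ := hVx.corner hS hk
  have hjN : (k + nco M b - 1) % nco M b < nco M b := Nat.mod_lt _ hVx.pos
  have hμ := hVx.dn hk
  have e1 : ((lay H).w (M.ν^[(k + nco M b - 1) % nco M b] b)).drop
      ((G.vl M b).e ((k + nco M b - 1) % nco M b)).length = G.ex (M.μ (M.ν^[k] b)) := by
    rw [lay_w H hb hjN, List.drop_left, hμ]
  have e2 : ((lay H).w (M.ν^[k] b)).drop ((G.vl M b).e k).length = G.ex (M.ν^[k] b) := by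
    rw [lay_w H hb hk, List.drop_left]
  rw [e1, e2] at h2
  have hexl : ∀ (w : Wd), (∀ q ∈ w, q.2 = 8 ∨ q.2 = 9) →
      w = (tag (M.ν^[k] b) w).map (fun q => (q.1, G.nmv M (M.ν^[k] b) q.2.2)) := by
    intro w hw
    unfold tag
    rw [List.map_map]
    conv_lhs => rw [← List.map_id w]
    refine List.map_congr_left fun q hq => ?_
    show q = (q.1, G.nmv M (M.ν^[k] b) q.2)
    have := hw q hq
    rw [nmv_low (by omega)]
  have h3 : w'.map (Prod.map id nmT) = (vwd M G (M.ν^[k] b)).map
      (fun q => (q.1, G.nmv M (M.ν^[k] b) q.2.2)) := by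
    rw [h2]
    unfold vwd GZ.vx
    rw [List.map_append, List.map_append]
    congr 1
    · exact hexl _ fun q hq => E.e89 _ q (List.mem_reverse.1 hq)
    · congr 1
      · rw [← H.asm_eq hb hk]
        unfold vw tag
        rw [List.map_map]
        rfl
      · exact hexl _ fun q hq => E.e89 _ q hq
  have h4 : ∀ q ∈ vwd M G (M.ν^[k] b), q.2.1 = M.ν^[k] b := by
    intro q hq
    unfold vwd GZ.vx vw tag at hq
    simp only [List.mem_append, List.mem_map] at hq
    rcases hq with ⟨a, -, rfl⟩ | ⟨a, -, rfl⟩ | ⟨a, -, rfl⟩ <;> rfl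
  have h5 : ∀ q ∈ w', (lay H).home q.2 = M.ν^[k] b ∧ (lay H).wt q.2 ≠ 0 := by
    intro q hq
    have h6 := h1.sublist.subset hq
    rw [tw_flat Layt.wt_or, List.mem_map] at h6
    obtain ⟨t, ht, rfl⟩ := h6
    rw [mem_nz] at ht
    exact ⟨Layt.mem_W.1 ht.1, ht.2⟩
  refine ⟨w', P, h1, h3, h4, h5, fun V hV => ?_⟩
  unfold lv
  refine map_eq_map_of h3 ?_
  rintro ⟨s, t⟩ ha ⟨s', y, n⟩ hb' he
  obtain ⟨h7, h8⟩ := h5 _ ha
  have h9 : y = M.ν^[k] b := h4 _ hb'
  simp only [Prod.map, id, Prod.mk.injEq] at he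
  obtain ⟨rfl, h10⟩ := he
  simp only at h7 h8 h10
  show (s, V t) = (s, Vn H V (y, n))
  rw [Vn_eq H E hV (t := t) (by rw [h7, h9]; exact vtx_refl _) h8 (by rw [h9]; exact h10)]

end GS

end Pool.Agent.MP42.GZ
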