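import Pool.Agent.MP42.GZ.LyF

/-!
# Stacks of the layout of a global state (owner helper28)

`tvl S`: the values of the tokens of a system of stacks.  `runV`: the visible walk of a circle.
`dp_root`: the walk along the root circle is deep if the walks along all other circles are deep.
-/

set_option autoImplicit false
set_option linter.unusedSectionVars false

namespace Pool.Agent.MP42.GZ

open Pool.Agent.MP42.O3 (EK Lab BM)
open Pool.Agent.MP42.O3.BM
open Pool.Agent.MP42.EO
open Pool.Agent.MP42.NE (TS)
open Pool.Agent.MP42.PL (SV)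
open Pool.Agent.MP42.U

/-! ### Words -/

/-- the values of a reduced word have the same sum -/
lemma red_vs {T : Type*} {w w' : List (Bool × T)} {P : List (T × T)} (h : Red w w' P) {V : T → B}
    (hP : Eqs V P) : vs (lv V w) = vs (lv V w') := by
  induction h with
  | refl w => rfl
  | @step w₁ w₂ w' p q P h ih =>
    rw [eqs_cons] at hP
    rw [← ih hP.2]
    simp only [lv_append, lv_cons, vs_append, vs_cons]
    have h1 : V p + V q = 0 := by rw [hP.1]; exact b_add_self _
    linear_combination h1

/-- parity for the heights `2` and `-2` -/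
lemma run_par {w : List (Bool × B)} {S : ℕ → B} (h : Run w S S) (h2 : ht w = 2 ∨ ht w = -2) {K : ℕ}
    (hK : w.length ≤ K) : vs w = S K + S (K + 1) := by
  rcases h2 with h2 | h2
  · exact run_parity h h2 hK
  · have h1 := run_sum h K (K + 2) (by omega) (by push_cast; rw [h2]; ring)
    rw [Finset.sum_range_succ, Finset.sum_range_succ] at h1
    linear_combination -h1

/-- deep walks have sum zero -/
lemma vs_of_deep {w : List (Bool × B)} {S : ℕ → B} (h : Run w S S) (h2 : ht w = 2 ∨ ht w = -2)
    (hd : Deep S) : vs w = 0 := by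
  obtain ⟨K, c, hc⟩ := hd
  have h1 := run_par h h2 (K := max K w.length) (le_max_right _ _)
  rw [h1, hc _ (le_max_left _ _), hc _ (by have := le_max_left K w.length; omega)]
  exact b_add_self _

/-- walks with sum zero are deep -/
lemma deep_of_vs {w : List (Bool × B)} {S : ℕ → B} (h : Run w S S) (h2 : ht w = 2 ∨ ht w = -2)
    (h0 : vs w = 0) : Deep S := by
  have key : ∀ K, w.length ≤ K → S (K + 1) = S K := by
    intro K hK
    have h3 := run_par h h2 hK
    rw [h0] at h3
    have h4 := b_add_self (S K)
    linear_combination -h3 - h4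
  refine ⟨w.length, S w.length, ?_⟩
  intro j hj
  induction j, hj using Nat.le_induction with
  | base => rfl
  | succ j hj ih => rw [key j hj, ih]

lemma vs_flatMap {X T : Type*} (V : T → B) (xs : List X) (f : X → List (Bool × T)) :
    vs (lv V (xs.flatMap f)) = (xs.map fun x => vs (lv V (f x))).sum := by
  induction xs with
  | nil => rfl
  | cons x xs ih => rw [List.flatMap_cons, lv_append, vs_append, ih]; rfl

lemma hl_flatMap {X T : Type*} (xs : List X) (f : X → List (Bool × T)) :
    hl (xs.flatMap f) = (xs.map fun x => hl (f x)).sum := by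
  induction xs with
  | nil => rfl
  | cons x xs ih => rw [List.flatMap_cons, hl_append, ih]; rfl

lemma hl_of_map {α β : Type*} {w : List (Bool × α)} {w' : List (Bool × β)}
    (h : w.map Prod.fst = w'.map Prod.fst) : hl w = hl w' := by
  have e : ∀ {γ : Type _} (w : List (Bool × γ)), hl w =
      ((w.map Prod.fst).map fun b => if b then (1 : ℤ) else -1).sum := by
    intro γ w
    unfold hl
    rw [List.map_map]
    rfl
  rw [e w]
  have e' : hl w' = ((w'.map Prod.fst).map fun b => if b then (1 : ℤ) else -1).sum := by
    unfold hl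
    rw [List.map_map]
    rfl
  rw [e', h]

/-! ### Circles -/

section

variable {D : Type*} {M : BM D}

/-- sums over a circle -/
lemma cir_sum [Fintype D] {A : Type*} [AddCommMonoid A] (f : D → A) (x : D)
    [DecidablePred fun y => M.E.SameCycle x y] :
    ∑ y ∈ Finset.univ.filter (fun y => M.E.SameCycle x y), f y = ((cir M x).map f).sum := by
  classical
  have hnd : (cir M x).Nodup := by
    unfold cir orb
    refine List.Nodup.map_on ?_ List.nodup_range
    intro i hi j hj h
    rw [List.mem_range] at hi hj
    exact Function.iterate_injOn_Iio_minimalPeriod hi hj h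
  have e : Finset.univ.filter (fun y => M.E.SameCycle x y) = (cir M x).toFinset := by
    ext y
    simp only [Finset.mem_filter, Finset.mem_univ, true_and, List.mem_toFinset]
    exact mem_cir.symm
  rw [e, List.sum_toFinset _ hnd]

open Classical in
/-- if all circles but one have sum zero, and the total sum is zero, then all have sum zero -/
lemma sum_rest [Fintype D] (f : D → B) (r : D) (h0 : ∑ y, f y = 0)
    (h : ∀ x, ¬ M.E.SameCycle r x → ((cir M x).map f).sum = 0) : ((cir M r).map f).sum = 0 := by
  rw [← cir_sum f r]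
  let st : Setoid D := Equiv.Perm.SameCycle.setoid M.E
  have h1 := Finset.sum_fiberwise (s := Finset.univ) (g := fun y => (Quotient.mk st y)) f
  rw [h0, Finset.sum_eq_single (Quotient.mk st r)] at h1
  · rw [← h1]
    refine Finset.sum_congr ?_ fun _ _ => rfl
    ext y
    simp only [Finset.mem_filter, Finset.mem_univ, true_and]
    constructor
    · intro h2
      exact Quotient.sound (s := st) (show M.E.SameCycle y r from h2.symm)
    · intro h2
      have h3 : M.E.SameCycle y r := Quotient.exact (s := st) h2
      exact h3.symm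
  · intro q _ hq
    induction q using Quotient.inductionOn with
    | h x =>
      have hx : ¬ M.E.SameCycle r x := fun h2 =>
        hq (Quotient.sound (s := st) (show M.E.SameCycle x r from h2.symm))
      rw [← h x hx, ← cir_sum f x]
      refine Finset.sum_congr ?_ fun _ _ => rfl
      ext y
      simp only [Finset.mem_filter, Finset.mem_univ, true_and]
      constructor
      · intro h2
        have h3 : M.E.SameCycle y x := Quotient.exact (s := st) h2
        exact h3.symm
      · intro h2
        exact Quotient.sound (s := st) (show M.E.SameCycle y x from h2.symm)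
  · intro h2
    exact absurd (Finset.mem_univ _) h2

end

/-! ### Values of stacks -/

section

variable {D : Type*} {M : BM D} {L : Layt M}

open Classical in
/-- the values of the tokens -/
noncomputable def tvl [Finite D] (S : L.Tok → ℕ → Prop) (t : L.Tok) : B :=
  if L.wt t = 0 then 0 else ind (Layt.val S t)

lemma tvl_ne [Finite D] {S : L.Tok → ℕ → Prop} {t : L.Tok} (h : L.wt t ≠ 0) :
    tvl S t = ind (tv L.F L.wt S t) := by
  unfold tvl
  rw [if_neg h]
  rfl

/-- the stack before a corner -/
noncomputable def Sxy [Finite D] (S : L.Tok → ℕ → Prop) (x : D) : ℕ → B := fun j =>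
  ind (S (L.F.symm ((L.W x).head (Layt.W_ne x))) j)

/-- **the walk over a corner** -/
theorem run_cor [Finite D] {S : L.Tok → ℕ → Prop} (hS : TS L.F L.lam L.wt S) (x : D) :
    Run (lv (tvl S) ((L.W x).flatMap (tw L.wt))) (Sxy S x) (Sxy S (M.E x)) := by
  have h1 : TkS L.F L.wt S := TkS.of_ts (fun t => by
    rcases Layt.wt_or t with h | h | h
    · exact Or.inr (Or.inl h)
    · exact Or.inr (Or.inr h)
    · exact Or.inl h) hS
  exact h1.run_corner ind (V := tvl S) (fun t ht => tvl_ne ht)
    (List.head?_eq_some_head (Layt.W_ne x)) (Layt.fol (L := L) x)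

/-- **values of stacks are values of the tokens** -/
theorem tvl_val [Finite D] {S : L.Tok → ℕ → Prop} (hS : TS L.F L.lam L.wt S) :
    TVal L (tvl S) where
  lam t := by
    by_cases h : L.wt t = 0
    · unfold tvl
      rw [Layt.wt_lam, if_pos h, if_pos h]
    · unfold tvl
      rw [Layt.wt_lam, if_neg h, if_neg h, Layt.val_lam hS h]
  eqs x w' P hP := hP.eqs (run_cor hS x)

end

namespace GS

variable {D : Type*} [Fintype D] {M : BM D} {G : GS D}

/-- the values of the lanes -/
noncomputable def VS (H : G.Ok M) (S : (lay H).Tok → ℕ → Prop) : D × ℕ → B := Vn H (tvl S)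

/-- **the visible walk over a corner** -/
theorem Ok.run_vis (H : G.Ok M) (E : G.Exn M) {S : (lay H).Tok → ℕ → Prop}
    (hS : TS (lay H).F (lay H).lam (lay H).wt S) (x : D) :
    Run (lv (VS H S) (vwd M G x)) (Sxy S x) (Sxy S (M.E x)) := by
  obtain ⟨w', P, h1, -, -, -, h5⟩ := H.word_eq E x
  have h6 := h1.run (run_cor hS x)
  rw [h5 _ (tvl_val hS)] at h6
  exact h6

/-- **the visible walk along a circle** -/
theorem Ok.run_cir (H : G.Ok M) (E : G.Exn M) {S : (lay H).Tok → ℕ → Prop}
    (hS : TS (lay H).F (lay H).lam (lay H).wt S) (x : D) :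
    Run (lv (VS H S) (cx tb M G.mn G.gt G.ex x)) (Sxy S x) (Sxy S x) := by
  have h1 := run_orb (ρ := M.E) (cw := vwd M G) (Sx := Sxy S) (H.run_vis E hS) x
    (Function.minimalPeriod M.E x)
  have h2 : M.E^[Function.minimalPeriod M.E x] x = x := Function.iterate_minimalPeriod
  rw [h2] at h1
  exact h1

/-- the sum of the values at a corner -/
theorem Ok.vs_cor (H : G.Ok M) (E : G.Exn M) {S : (lay H).Tok → ℕ → Prop}
    (hS : TS (lay H).F (lay H).lam (lay H).wt S) (x : D) :
    vs (lv (VS H S) (vwd M G x)) = (((lay H).W x).map (tvl S)).sum := by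
  obtain ⟨w', P, h1, -, -, -, h5⟩ := H.word_eq E x
  have h6 := red_vs h1 ((tvl_val hS).eqs _ _ _ h1)
  rw [h5 _ (tvl_val hS)] at h6
  refine h6.symm.trans ?_
  clear h6 h5 h1
  induction (lay H).W x with
  | nil => rfl
  | cons t l ih =>
    rw [List.flatMap_cons, lv_append, vs_append, ih, List.map_cons, List.sum_cons]
    congr 1
    rcases Layt.wt_or t with h | h | h
    · rw [tw_neg h]; simp [lv, vs]
    · rw [tw_zero h]
      show (0 : B) = _
      unfold tvl
      rw [if_pos h]
    · rw [tw_one h]; simp [lv, vs]

/-- the height at a corner -/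
theorem Ok.hl_cor (H : G.Ok M) (E : G.Exn M) (x : D) :
    hl (vwd M G x) = (((lay H).W x).map (lay H).wt).sum := by
  obtain ⟨w', P, h1, h2, -⟩ := H.word_eq E x
  have h3 : hl w' = hl (vwd M G x) := by
    refine hl_of_map ?_
    have h4 := congrArg (List.map Prod.fst) h2
    rw [List.map_map, List.map_map] at h4
    exact h4
  rw [← h3, ← h1.hl_eq]
  clear h1 h2 h3
  induction (lay H).W x with
  | nil => rfl
  | cons t l ih =>
    rw [List.flatMap_cons, hl_append, ih, List.map_cons, List.sum_cons]
    congr 1
    rcases Layt.wt_or t with h | h | h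
    · rw [tw_neg h, h]; rfl
    · rw [tw_zero h, h]; rfl
    · rw [tw_one h, h]; rfl

/-- the sum of all values is zero -/
theorem Ok.sum_all (H : G.Ok M) {S : (lay H).Tok → ℕ → Prop}
    (hS : TS (lay H).F (lay H).lam (lay H).wt S) : ∑ t, tvl S t = 0 := by
  classical
  refine Finset.sum_involution (fun t _ => (lay H).lam t) ?_ ?_ ?_ ?_
  · intro t _
    rw [(tvl_val hS).lam t]
    exact b_add_self _
  · intro t _ h
    have h1 : (lay H).wt t ≠ 0 := fun h2 => h (by unfold tvl; rw [if_pos h2])
    obtain ⟨⟨k, x, i⟩, hv⟩ := t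
    cases k
    · intro h2
      have := congrArg (fun t : (lay H).Tok => t.1.1) h2
      cases this
    · intro h2
      have := congrArg (fun t : (lay H).Tok => t.1.1) h2
      cases this
    · intro h2
      have := congrArg (fun t : (lay H).Tok => t.1.2.1) h2
      exact H.n2 x this
    · exact absurd rfl h1
  · intro t _
    exact Finset.mem_univ _
  · intro t _
    refine Layt.lam_lam (fun x hx => ?_) t
    by_contra hc
    have := H.ok.thB x hc
    rw [hx] at this
    exact absurd this (by simp)

/-- the sum over all corners -/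
theorem Ok.sum_cor (H : G.Ok M) (V : (lay H).Tok → B) :
    ∑ x, (((lay H).W x).map V).sum = ∑ t, V t := by
  classical
  have e1 : ∀ y, (((lay H).W y).map V).sum = ∑ t ∈ ((lay H).W y).toFinset, V t := fun y =>
    (List.sum_toFinset V (Layt.W_blk.nd y)).symm
  rw [Finset.sum_congr rfl (fun y _ => e1 y), ← Finset.sum_biUnion]
  · refine Finset.sum_congr ?_ (fun _ _ => rfl)
    ext u
    simp only [Finset.mem_biUnion, Finset.mem_univ, true_and, List.mem_toFinset, iff_true]
    exact Layt.W_blk.ex u
  · intro y _ z _ hyz
    rw [Function.onFun, Finset.disjoint_left]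
    intro u hu hu'
    rw [List.mem_toFinset] at hu hu'
    exact hyz (Layt.W_blk.uq u _ _ hu hu')

/-- **all visible walks are deep** if they are deep on all circles but one -/
theorem Ok.cl_all (H : G.Ok M) (E : G.Exn M) {r : D}
    (htot : ∀ x, hl (cx tb M G.mn G.gt G.ex x) = 2 ∨ hl (cx tb M G.mn G.gt G.ex x) = -2)
    {S : (lay H).Tok → ℕ → Prop} (hS : TS (lay H).F (lay H).lam (lay H).wt S)
    (hd : ∀ x, ¬ M.E.SameCycle r x → Deep (Sxy S x)) (x : D) :
    Cl (VS H S) (cx tb M G.mn G.gt G.ex x) := by
  have hht : ∀ x, ht (lv (VS H S) (cx tb M G.mn G.gt G.ex x)) = 2 ∨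
      ht (lv (VS H S) (cx tb M G.mn G.gt G.ex x)) = -2 := fun x => by
    rw [ht_lv]; exact htot x
  have hvs : ∀ x, vs (lv (VS H S) (cx tb M G.mn G.gt G.ex x)) =
      ((cir M x).map fun y => vs (lv (VS H S) (vwd M G y))).sum := fun x => vs_flatMap _ _ _
  refine ⟨Sxy S x, H.run_cir E hS x, ?_⟩
  by_cases hx : M.E.SameCycle r x
  · refine deep_of_vs (H.run_cir E hS x) (hht x) ?_
    rw [hvs]
    refine sum_rest _ x ?_ fun z hz => ?_
    · rw [Finset.sum_congr rfl fun y _ => H.vs_cor E hS y, H.sum_cor, H.sum_all hS]
    · rw [← hvs]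
      exact vs_of_deep (H.run_cir E hS z) (hht z) (hd z fun h => hz (hx.symm.trans h))
  · exact hd x hx

end GS

end Pool.Agent.MP42.GZ
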