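import Pool.Agent.MP42.GZ.Ly

/-!
# The tokens at a vertex of a layout (owner helper28)

`SyOf N S l R`: the system `S` has the crossings of `l : Loc4` (for `N = 3` without the fourth edge
and thin ribbons).  `VxOK`: the layout `L` has the crossings `l` at the vertex with the base corner
`b`, and extra outermost crossings over real edges.  `VxOK.rep`: the tokens at the vertex are the
tokens of `S`.
-/

set_option autoImplicit false

namespace Pool.Agent.MP42.GZ

open Pool.Agent.MP42.O3 (EK Lab BM)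
open Pool.Agent.MP42.EO

/-- edge words -/
def Loc4.e (l : Loc4) : ℕ → Wd
  | 0 => l.e1
  | 1 => l.e2
  | 2 => l.e3
  | 3 => l.e4
  | _ => []

/-- thin words -/
def Loc4.t (l : Loc4) : ℕ → Wd
  | 0 => l.t1
  | 1 => l.t2
  | 2 => l.t1.reverse
  | 3 => l.t2.reverse
  | _ => []

/-- the first number of a block -/
def Loc4.off (l : Loc4) : ℕ → ℕ
  | 0 => 0
  | 1 => l.e1.length
  | 2 => l.e1.length + l.e2.length
  | 3 => l.e1.length + l.e2.length + l.e3.length
  | 4 => l.e1.length + l.e2.length + l.e3.length + l.e4.length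
  | 5 => l.e1.length + l.e2.length + l.e3.length + l.e4.length + l.t1.length
  | _ => l.e1.length + l.e2.length + l.e3.length + l.e4.length + l.t1.length + l.t2.length

/-- thin tokens at a corner -/
def Loc4.thn (l : Loc4) : ℕ → List Tk
  | 0 => nrs (l.off 4) l.t1.length false
  | 1 => nrs (l.off 5) l.t2.length false
  | 2 => (nrs (l.off 4) l.t1.length true).reverse
  | 3 => (nrs (l.off 5) l.t2.length true).reverse
  | _ => []

/-- a system with the crossings of `l` -/
structure SyOf (N : ℕ) (S : Sy) (l : Loc4) (R : ℕ → ℕ → Bool → Rel) : Prop where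
  len : S.cr.length = l.off 6
  c : ∀ k < N, ∀ i (h : i < (l.e k).length), S.c (l.off k + i) =
    ⟨(l.e k)[i].1, (l.e k)[i].2, R k (l.e k)[i].2 (l.e k)[i].1, k, (k + 1) % N⟩
  c1 : ∀ i (h : i < l.t1.length), S.c (l.off 4 + i) = ⟨l.t1[i].1, l.t1[i].2, rF, 0, 2⟩
  c2 : ∀ i (h : i < l.t2.length), S.c (l.off 5 + i) = ⟨l.t2[i].1, l.t2[i].2, rF, 1, 3⟩
  W : ∀ k < N, S.W.getD k [] = (nrs (l.off ((k + N - 1) % N)) (l.e ((k + N - 1) % N)).length
    true).reverse ++ (l.thn k ++ nrs (l.off k) (l.e k).length false)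
  W' : ∀ k, N ≤ k → S.W.getD k [] = []
  th3 : N = 3 → l.e4 = [] ∧ l.t1 = [] ∧ l.t2 = []

lemma getD_blk (A C : List Cr) (w : Wd) (cb ca : ℕ) (R : ℕ → Bool → Rel) (d : Cr) {i : ℕ}
    (h : i < w.length) : (A ++ mkc cb ca R w ++ C).getD (A.length + i) d =
      ⟨w[i].1, w[i].2, R w[i].2 w[i].1, cb, ca⟩ := by
  rw [getD_mid A (mkc cb ca R w) C d (by rw [mkc_length]; exact h)]
  simp [mkc]

/-- the relations of the edges -/
def R4 (R0 R1 R2 R3 : ℕ → Bool → Rel) : ℕ → ℕ → Bool → Rel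
  | 0 => R0
  | 1 => R1
  | 2 => R2
  | _ => R3

theorem sy4_of (l : Loc4) (R0 R1 R2 R3 : ℕ → Bool → Rel) :
    SyOf 4 (sy4 l R0 R1 R2 R3) l (R4 R0 R1 R2 R3) where
  len := by
    simp [sy4, mkc_length, Loc4.off]
    omega
  c := by
    intro k hk i h
    have hk' : k = 0 ∨ k = 1 ∨ k = 2 ∨ k = 3 := by omega
    rcases hk' with rfl | rfl | rfl | rfl
    · have h' : i < l.e1.length := h
      have h1 := getD_blk [] (mkc 1 2 R1 l.e2 ++ mkc 2 3 R2 l.e3 ++ mkc 3 0 R3 l.e4 ++
        mkc 0 2 (fun _ _ => rF) l.t1 ++ mkc 1 3 (fun _ _ => rF) l.t2) l.e1 0 1 R0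
        ⟨true, 0, rK, 0, 0⟩ h'
      refine Eq.trans ?_ h1
      simp [Sy.c, sy4, Loc4.off]
    · have h' : i < l.e2.length := h
      have h1 := getD_blk (mkc 0 1 R0 l.e1) (mkc 2 3 R2 l.e3 ++ mkc 3 0 R3 l.e4 ++
        mkc 0 2 (fun _ _ => rF) l.t1 ++ mkc 1 3 (fun _ _ => rF) l.t2) l.e2 1 2 R1
        ⟨true, 0, rK, 0, 0⟩ h'
      refine Eq.trans ?_ h1
      simp [Sy.c, sy4, Loc4.off, mkc_length, add_assoc]
    · have h' : i < l.e3.length := h
      have h1 := getD_blk (mkc 0 1 R0 l.e1 ++ mkc 1 2 R1 l.e2) (mkc 3 0 R3 l.e4 ++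
        mkc 0 2 (fun _ _ => rF) l.t1 ++ mkc 1 3 (fun _ _ => rF) l.t2) l.e3 2 3 R2
        ⟨true, 0, rK, 0, 0⟩ h'
      refine Eq.trans ?_ h1
      simp [Sy.c, sy4, Loc4.off, mkc_length, add_assoc]
    · have h' : i < l.e4.length := h
      have h1 := getD_blk (mkc 0 1 R0 l.e1 ++ mkc 1 2 R1 l.e2 ++ mkc 2 3 R2 l.e3)
        (mkc 0 2 (fun _ _ => rF) l.t1 ++ mkc 1 3 (fun _ _ => rF) l.t2) l.e4 3 0 R3
        ⟨true, 0, rK, 0, 0⟩ h'
      refine Eq.trans ?_ h1
      simp [Sy.c, sy4, Loc4.off, mkc_length, add_assoc]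
  c1 := by
    intro i h
    have h1 := getD_blk (mkc 0 1 R0 l.e1 ++ mkc 1 2 R1 l.e2 ++ mkc 2 3 R2 l.e3 ++ mkc 3 0 R3 l.e4)
      (mkc 1 3 (fun _ _ => rF) l.t2) l.t1 0 2 (fun _ _ => rF) ⟨true, 0, rK, 0, 0⟩ h
    refine Eq.trans ?_ h1
    simp [Sy.c, sy4, Loc4.off, mkc_length, add_assoc]
  c2 := by
    intro i h
    have h1 := getD_blk (mkc 0 1 R0 l.e1 ++ mkc 1 2 R1 l.e2 ++ mkc 2 3 R2 l.e3 ++ mkc 3 0 R3 l.e4 ++
      mkc 0 2 (fun _ _ => rF) l.t1) [] l.t2 1 3 (fun _ _ => rF) ⟨true, 0, rK, 0, 0⟩ h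
    refine Eq.trans ?_ h1
    simp [Sy.c, sy4, Loc4.off, mkc_length, add_assoc]
  W := by
    intro k hk
    have hk' : k = 0 ∨ k = 1 ∨ k = 2 ∨ k = 3 := by omega
    rcases hk' with rfl | rfl | rfl | rfl
    · simp [sy4, Loc4.off, Loc4.e, Loc4.thn]
    · simp [sy4, Loc4.off, Loc4.e, Loc4.thn]
    · simp [sy4, Loc4.off, Loc4.e, Loc4.thn]
    · simp [sy4, Loc4.off, Loc4.e, Loc4.thn]
  W' := by
    intro k hk
    obtain ⟨j, rfl⟩ : ∃ j, k = j + 4 := ⟨k - 4, by omega⟩
    simp [sy4]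
  th3 := fun h => absurd h (by omega)

/-- a vertex of valence three as a vertex of valence four -/
def Loc3.to4 (l : Loc3) : Loc4 := ⟨l.ep, l.es, l.et, [], [], []⟩

theorem sy3_of (l : Loc3) (R0 R1 R2 : ℕ → Bool → Rel) :
    SyOf 3 (sy3 l R0 R1 R2) l.to4 (R4 R0 R1 R2 R2) where
  len := by
    simp [sy3, mkc_length, Loc4.off, Loc3.to4]
    omega
  c := by
    intro k hk i h
    have hk' : k = 0 ∨ k = 1 ∨ k = 2 := by omega
    rcases hk' with rfl | rfl | rfl
    · have h' : i < l.ep.length := h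
      have h1 := getD_blk [] (mkc 1 2 R1 l.es ++ mkc 2 0 R2 l.et) l.ep 0 1 R0
        ⟨true, 0, rK, 0, 0⟩ h'
      refine Eq.trans ?_ h1
      simp [Sy.c, sy3, Loc4.off]
    · have h' : i < l.es.length := h
      have h1 := getD_blk (mkc 0 1 R0 l.ep) (mkc 2 0 R2 l.et) l.es 1 2 R1
        ⟨true, 0, rK, 0, 0⟩ h'
      refine Eq.trans ?_ h1
      simp [Sy.c, sy3, Loc4.off, mkc_length, Loc3.to4]
    · have h' : i < l.et.length := h
      have h1 := getD_blk (mkc 0 1 R0 l.ep ++ mkc 1 2 R1 l.es) [] l.et 2 0 R2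
        ⟨true, 0, rK, 0, 0⟩ h'
      refine Eq.trans ?_ h1
      simp [Sy.c, sy3, Loc4.off, mkc_length, Loc3.to4]
  c1 := by
    intro i h
    exact absurd h (by simp [Loc3.to4])
  c2 := by
    intro i h
    exact absurd h (by simp [Loc3.to4])
  W := by
    intro k hk
    have hk' : k = 0 ∨ k = 1 ∨ k = 2 := by omega
    rcases hk' with rfl | rfl | rfl
    · simp [sy3, Loc4.off, Loc4.e, Loc4.thn, Loc3.to4, nrs]
    · simp [sy3, Loc4.off, Loc4.e, Loc4.thn, Loc3.to4, nrs]
    · simp [sy3, Loc4.off, Loc4.e, Loc4.thn, Loc3.to4, nrs]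
  W' := by
    intro k hk
    obtain ⟨j, rfl⟩ : ∃ j, k = j + 3 := ⟨k - 3, by omega⟩
    simp [sy3]
  th3 := fun _ => ⟨rfl, rfl, rfl⟩

/-! ## The vertex -/

variable {X : Type*} {M : BM X}

/-- the layout `L` at the vertex with the base corner `b` -/
structure VxOK (L : Layt M) (cE : X → Prop) (b : X) (N : ℕ) (l : Loc4)
    (R : ℕ → ℕ → Bool → Rel) : Prop where
  N34 : N = 3 ∨ N = 4
  per : M.ν^[N] b = b
  inj : ∀ j k, j < N → k < N → M.ν^[j] b = M.ν^[k] b → j = k
  w : ∀ k < N, ∃ ex, L.w (M.ν^[k] b) = l.e k ++ ex ∧ (ex ≠ [] →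
    M.ek (M.ν^[k + 1] b) = .R ∧ (cE (M.ν^[k] b) ↔ ¬ cE (M.ν^[k + 1] b)))
  th : ∀ k < N, L.th (M.ν^[k] b) = l.t k
  rl : ∀ k < N, ∀ i (h : i < (l.e k).length), ∀ a c,
    R k (l.e k)[i].2 (l.e k)[i].1 a c = true → L.okc (M.ν^[k] b) i a c

open Classical in
variable (M) in
/-- number of a corner -/
noncomputable def ixf (b y : X) : ℕ :=
  if y = b then 0 else if y = M.ν b then 1 else if y = M.ν (M.ν b) then 2 else 3

/-- the token of the system -/
def mtk {L : Layt M} (l : Loc4) (ix : X → ℕ) (t : L.Tok) : Tk :=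
  match t.1.1 with
  | .cr => (l.off (ix t.1.2.1) + t.1.2.2, false)
  | .cl => (l.off (ix t.1.2.1) + t.1.2.2, true)
  | .tn => if ix t.1.2.1 = 0 then (l.off 4 + t.1.2.2, false)
      else if ix t.1.2.1 = 1 then (l.off 5 + t.1.2.2, false)
      else if ix t.1.2.1 = 2 then (l.off 4 + (l.t1.length - 1 - t.1.2.2), true)
      else (l.off 5 + (l.t2.length - 1 - t.1.2.2), true)
  | .id => (0, false)

/-- the extra tokens -/
def exk {L : Layt M} (l : Loc4) (ix : X → ℕ) (t : L.Tok) : Prop :=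
  (t.1.1 = .cr ∨ t.1.1 = .cl) ∧ (l.e (ix t.1.2.1)).length ≤ t.1.2.2

lemma vtx_lt {b x : X} {N : ℕ} (hN : 0 < N) (hp : M.ν^[N] b = b) (h : vtx M b x) :
    ∃ k < N, x = M.ν^[k] b := by
  obtain ⟨k, rfl⟩ := h
  refine ⟨k % N, Nat.mod_lt _ hN, ?_⟩
  have h1 : ∀ j, M.ν^[N * j] b = b := by
    intro j
    induction j with
    | zero => rfl
    | succ j ih => rw [Nat.mul_succ, Function.iterate_add_apply, hp, ih]
  conv_lhs => rw [← Nat.mod_add_div k N, Function.iterate_add_apply, h1]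

variable {L : Layt M} {cE : X → Prop} {b : X} {N : ℕ} {l : Loc4} {R : ℕ → ℕ → Bool → Rel}

lemma VxOK.ix (H : VxOK L cE b N l R) {k : ℕ} (hk : k < N) : ixf M b (M.ν^[k] b) = k := by
  have key : ∀ j, j < N → M.ν^[k] b = M.ν^[j] b → k = j := fun j hj h => H.inj k j hk hj h
  have h3 : N = 3 ∨ N = 4 := H.N34
  unfold ixf
  split_ifs with h0 h1 h2
  · exact (key 0 (by omega) h0).symm
  · exact (key 1 (by omega) h1).symm
  · exact (key 2 (by omega) h2).symm
  · have n0 : k ≠ 0 := by rintro rfl; exact h0 rfl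
    have n1 : k ≠ 1 := by rintro rfl; exact h1 rfl
    have n2 : k ≠ 2 := by rintro rfl; exact h2 rfl
    omega

lemma VxOK.up (H : VxOK L cE b N l R) {k : ℕ} (hk : k < N) :
    M.ν (M.ν^[k] b) = M.ν^[(k + 1) % N] b := by
  rw [← Function.iterate_succ_apply' M.ν]
  by_cases h : k + 1 < N
  · rw [Nat.mod_eq_of_lt h]
  · have h1 : k + 1 = N := by omega
    rw [Nat.succ_eq_add_one, h1, Nat.mod_self, H.per]
    rfl

lemma VxOK.dn (H : VxOK L cE b N l R) {k : ℕ} (hk : k < N) :
    M.μ (M.ν^[k] b) = M.ν^[(k + N - 1) % N] b := by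
  have h3 : N = 3 ∨ N = 4 := H.N34
  have h1 := H.up (k := (k + N - 1) % N) (Nat.mod_lt _ (by omega))
  have h2 : ((k + N - 1) % N + 1) % N = k := by
    rcases h3 with rfl | rfl <;> omega
  rw [h2] at h1
  rw [← h1, M.μ_ν]

lemma VxOK.hx (H : VxOK L cE b N l R) (t : L.Tok) (hV : vtx M b (L.home t)) :
    ∃ k < N, t.1.2.1 = M.ν^[k] b := by
  have h3 : N = 3 ∨ N = 4 := H.N34
  have h1 : vtx M b t.1.2.1 := by
    obtain ⟨⟨kd, x, i⟩, hv⟩ := t
    cases kd
    · exact hV
    · exact vtx_trans hV (vtx_symm ⟨1, rfl⟩)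
    · exact hV
    · exact hV
  exact vtx_lt (by omega) H.per h1

/-! ### The map to the tokens of the system -/

lemma off_lt (l : Loc4) {k i : ℕ} (h : i < (l.e k).length) : l.off k + i < l.off 6 := by
  rcases k with _ | _ | _ | _ | k
  · have h' : i < l.e1.length := h
    simp only [Loc4.off]; omega
  · have h' : i < l.e2.length := h
    simp only [Loc4.off]; omega
  · have h' : i < l.e3.length := h
    simp only [Loc4.off]; omega
  · have h' : i < l.e4.length := h
    simp only [Loc4.off]; omega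
  · exact absurd h (by simp [Loc4.e])

lemma off_lt1 (l : Loc4) {i : ℕ} (h : i < l.t1.length) : l.off 4 + i < l.off 6 := by
  simp only [Loc4.off]; omega

lemma off_lt2 (l : Loc4) {i : ℕ} (h : i < l.t2.length) : l.off 5 + i < l.off 6 := by
  simp only [Loc4.off]; omega

/-- the block of a number -/
lemma off_inj (l : Loc4) {k k' i i' : ℕ} (h : i < (l.e k).length) (h' : i' < (l.e k').length)
    (he : l.off k + i = l.off k' + i') : k = k' ∧ i = i' := by
  have key : ∀ {k i : ℕ}, i < (l.e k).length → (k = 0 ∧ i < l.e1.length) ∨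
      (k = 1 ∧ i < l.e2.length) ∨ (k = 2 ∧ i < l.e3.length) ∨ (k = 3 ∧ i < l.e4.length) := by
    intro k i h
    rcases k with _ | _ | _ | _ | k
    · exact Or.inl ⟨rfl, h⟩
    · exact Or.inr (Or.inl ⟨rfl, h⟩)
    · exact Or.inr (Or.inr (Or.inl ⟨rfl, h⟩))
    · exact Or.inr (Or.inr (Or.inr ⟨rfl, h⟩))
    · exact absurd h (by simp [Loc4.e])
  rcases key h with ⟨rfl, h1⟩ | ⟨rfl, h1⟩ | ⟨rfl, h1⟩ | ⟨rfl, h1⟩ <;>
    rcases key h' with ⟨rfl, h2⟩ | ⟨rfl, h2⟩ | ⟨rfl, h2⟩ | ⟨rfl, h2⟩ <;>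
    simp only [Loc4.off] at he <;> first | exact ⟨rfl, by omega⟩ | omega

lemma off_ne1 (l : Loc4) {k i i' : ℕ} (h : i < (l.e k).length) : l.off k + i ≠ l.off 4 + i' := by
  rcases k with _ | _ | _ | _ | k
  · have h' : i < l.e1.length := h
    simp only [Loc4.off]; omega
  · have h' : i < l.e2.length := h
    simp only [Loc4.off]; omega
  · have h' : i < l.e3.length := h
    simp only [Loc4.off]; omega
  · have h' : i < l.e4.length := h
    simp only [Loc4.off]; omega
  · exact absurd h (by simp [Loc4.e])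

lemma off_ne2 (l : Loc4) {k i i' : ℕ} (h : i < (l.e k).length) : l.off k + i ≠ l.off 5 + i' := by
  have h1 := off_ne1 l (i' := l.t1.length + i') h
  simp only [Loc4.off] at h1 ⊢
  omega

lemma off_ne3 (l : Loc4) {i i' : ℕ} (h : i < l.t1.length) : l.off 4 + i ≠ l.off 5 + i' := by
  simp only [Loc4.off]; omega

section

variable (H : VxOK L cE b N l R) {S : Sy} (hS : SyOf N S l R)

include H

lemma VxOK.pos : 0 < N := by have := H.N34; omega

/-- the sign of a crossing -/
lemma VxOK.wtk {k : ℕ} (hk : k < N) {i : ℕ} (hi : i < (l.e k).length) :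
    (L.w (M.ν^[k] b)).getD i (true, 0) = (l.e k)[i] := by
  obtain ⟨ex, h1, -⟩ := H.w k hk
  rw [h1, List.getD_eq_getElem _ _ (by rw [List.length_append]; omega),
    List.getElem_append_left hi]

lemma VxOK.lenw {k : ℕ} (hk : k < N) : (l.e k).length ≤ (L.w (M.ν^[k] b)).length := by
  obtain ⟨ex, h1, -⟩ := H.w k hk
  rw [h1, List.length_append]; omega

lemma VxOK.exw {k : ℕ} (hk : k < N) {i : ℕ} (hi : i < (L.w (M.ν^[k] b)).length)
    (h : (l.e k).length ≤ i) :
    M.ek (M.ν^[k + 1] b) = .R ∧ (cE (M.ν^[k] b) ↔ ¬ cE (M.ν^[k + 1] b)) := by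
  obtain ⟨ex, h1, h2⟩ := H.w k hk
  refine h2 ?_
  rintro rfl
  rw [h1, List.append_nil] at hi
  omega

/-- thin tokens are at vertices of valence four -/
lemma VxOK.th4 (hS : SyOf N S l R) {k : ℕ} (hk : k < N) {i : ℕ}
    (hi : i < (L.th (M.ν^[k] b)).length) : N = 4 := by
  rcases H.N34 with h | h
  · exfalso
    rw [H.th k hk] at hi
    obtain ⟨-, h1, h2⟩ := hS.th3 h
    rcases k with _ | _ | _ | k
    · rw [show l.t 0 = l.t1 from rfl, h1] at hi; simp at hi
    · rw [show l.t 1 = l.t2 from rfl, h2] at hi; simp at hi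
    · rw [show l.t 2 = l.t1.reverse from rfl, h1] at hi; simp at hi
    · omega
  · exact h

omit H in
/-- the corner after a corner with a number -/
lemma VxOK.succ {k : ℕ} : M.ν (M.ν^[k] b) = M.ν^[k + 1] b :=
  (Function.iterate_succ_apply' M.ν k b).symm

/-- the tokens which are not extra -/
lemma VxOK.cr_lt {k i : ℕ} (hk : k < N) {h : L.Val .cr (M.ν^[k] b) i}
    (hX : ¬ exk l (ixf M b) ⟨(.cr, M.ν^[k] b, i), h⟩) : i < (l.e k).length := by
  by_contra hc
  refine hX ⟨Or.inl rfl, ?_⟩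
  show (l.e (ixf M b (M.ν^[k] b))).length ≤ i
  rw [H.ix hk]
  omega

lemma VxOK.cl_lt {k i : ℕ} (hk : k < N) {h : L.Val .cl (M.ν^[k] b) i}
    (hX : ¬ exk l (ixf M b) ⟨(.cl, M.ν^[k] b, i), h⟩) : i < (l.e k).length := by
  by_contra hc
  refine hX ⟨Or.inr rfl, ?_⟩
  show (l.e (ixf M b (M.ν^[k] b))).length ≤ i
  rw [H.ix hk]
  omega

lemma VxOK.mcr {k i : ℕ} (hk : k < N) {h : L.Val .cr (M.ν^[k] b) i} :
    mtk l (ixf M b) (⟨(.cr, M.ν^[k] b, i), h⟩ : L.Tok) = (l.off k + i, false) := by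
  show (l.off (ixf M b (M.ν^[k] b)) + i, false) = _
  rw [H.ix hk]

lemma VxOK.mcl {k i : ℕ} (hk : k < N) {h : L.Val .cl (M.ν^[k] b) i} :
    mtk l (ixf M b) (⟨(.cl, M.ν^[k] b, i), h⟩ : L.Tok) = (l.off k + i, true) := by
  show (l.off (ixf M b (M.ν^[k] b)) + i, true) = _
  rw [H.ix hk]

/-- thin tokens at a corner with a number -/
lemma VxOK.mtn {k i : ℕ} (hk : k < N) {h : L.Val .tn (M.ν^[k] b) i} :
    mtk l (ixf M b) (⟨(.tn, M.ν^[k] b, i), h⟩ : L.Tok) = if k = 0 then (l.off 4 + i, false)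
      else if k = 1 then (l.off 5 + i, false)
      else if k = 2 then (l.off 4 + (l.t1.length - 1 - i), true)
      else (l.off 5 + (l.t2.length - 1 - i), true) := by
  unfold mtk
  show (if ixf M b (M.ν^[k] b) = 0 then _ else _) = _
  rw [H.ix hk]

include hS

/-- cases of the thin tokens -/
lemma VxOK.tn_cases {k i : ℕ} (hk : k < N) (h : L.Val .tn (M.ν^[k] b) i) :
    N = 4 ∧ ((k = 0 ∧ i < l.t1.length) ∨ (k = 1 ∧ i < l.t2.length) ∨
      (k = 2 ∧ i < l.t1.length) ∨ (k = 3 ∧ i < l.t2.length)) := by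
  have h0 : i < (L.th (M.ν^[k] b)).length := h
  have h1 := H.th4 hS hk h0
  refine ⟨h1, ?_⟩
  rw [H.th k hk] at h0
  rcases k with _ | _ | _ | _ | k
  · exact Or.inl ⟨rfl, h0⟩
  · exact Or.inr (Or.inl ⟨rfl, h0⟩)
  · refine Or.inr (Or.inr (Or.inl ⟨rfl, ?_⟩))
    have h2 : i < l.t1.reverse.length := h0
    rwa [List.length_reverse] at h2
  · refine Or.inr (Or.inr (Or.inr ⟨rfl, ?_⟩))
    have h2 : i < l.t2.reverse.length := h0
    rwa [List.length_reverse] at h2
  · omega

omit H hS in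
lemma crs_get {x : X} {i : ℕ} (h : i < (L.crs x).length) :
    ∃ h' : L.Val .cr x i, (L.crs x)[i] = ⟨(.cr, x, i), h'⟩ := by
  have h1 : i < (L.w x).length := by
    unfold Layt.crs at h
    rwa [List.length_ofFn] at h
  refine ⟨h1, ?_⟩
  unfold Layt.crs
  rw [List.getElem_ofFn]
  rfl

omit H hS in
lemma cls_get {x : X} {i : ℕ} (h : i < (L.cls x).length) :
    ∃ h' : L.Val .cl x i, (L.cls x)[i] = ⟨(.cl, x, i), h'⟩ := by
  have h1 : i < (L.w x).length := by
    unfold Layt.cls at h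
    rwa [List.length_ofFn] at h
  refine ⟨h1, ?_⟩
  unfold Layt.cls
  rw [List.getElem_ofFn]
  rfl

omit H hS in
lemma tns_get {x : X} {i : ℕ} (h : i < (L.tns x).length) :
    ∃ h' : L.Val .tn x i, (L.tns x)[i] = ⟨(.tn, x, i), h'⟩ := by
  have h1 : i < (L.th x).length := by
    unfold Layt.tns at h
    rwa [List.length_ofFn] at h
  refine ⟨h1, ?_⟩
  unfold Layt.tns
  rw [List.getElem_ofFn]
  rfl

omit H hS in
lemma crs_len (x : X) : (L.crs x).length = (L.w x).length := by
  unfold Layt.crs; rw [List.length_ofFn]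

omit H hS in
lemma cls_len (x : X) : (L.cls x).length = (L.w x).length := by
  unfold Layt.cls; rw [List.length_ofFn]

omit H hS in
lemma tns_len (x : X) : (L.tns x).length = (L.th x).length := by
  unfold Layt.tns; rw [List.length_ofFn]

omit hS in
lemma VxOK.map_crs {k : ℕ} (hk : k < N) :
    ((L.crs (M.ν^[k] b)).take (l.e k).length).map (mtk l (ixf M b)) =
      nrs (l.off k) (l.e k).length false := by
  have hl := H.lenw hk
  apply List.ext_getElem
  · unfold nrs
    rw [List.length_map, List.length_take, crs_len, List.length_map, List.length_range]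
    omega
  · intro i h1 h2
    have h3 : i < (L.crs (M.ν^[k] b)).length := by
      rw [List.length_map, List.length_take] at h1
      omega
    obtain ⟨h4, h5⟩ := crs_get h3
    rw [List.getElem_map, List.getElem_take, h5, H.mcr hk]
    simp [nrs]

omit hS in
lemma VxOK.map_cls {k : ℕ} (hk : k < N) :
    ((L.cls (M.ν^[k] b)).take (l.e k).length).map (mtk l (ixf M b)) =
      nrs (l.off k) (l.e k).length true := by
  have hl := H.lenw hk
  apply List.ext_getElem
  · unfold nrs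
    rw [List.length_map, List.length_take, cls_len, List.length_map, List.length_range]
    omega
  · intro i h1 h2
    have h3 : i < (L.cls (M.ν^[k] b)).length := by
      rw [List.length_map, List.length_take] at h1
      omega
    obtain ⟨h4, h5⟩ := cls_get h3
    rw [List.getElem_map, List.getElem_take, h5, H.mcl hk]
    simp [nrs]

/-- the thin tokens -/
lemma VxOK.map_tns {k : ℕ} (hk : k < N) :
    (L.tns (M.ν^[k] b)).map (mtk l (ixf M b)) = l.thn k := by
  have hlen : (L.tns (M.ν^[k] b)).length = (l.t k).length := by rw [tns_len, H.th k hk]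
  have hlen2 : (l.thn k).length = (l.t k).length := by
    rcases k with _ | _ | _ | _ | k <;> simp [Loc4.thn, Loc4.t, nrs]
  apply List.ext_getElem
  · rw [List.length_map, hlen, hlen2]
  · intro i h1 h2
    rw [List.length_map] at h1
    obtain ⟨h4, h5⟩ := tns_get h1
    rw [List.getElem_map, h5, H.mtn hk]
    rcases (H.tn_cases hS hk (i := i) h4).2 with ⟨rfl, h6⟩ | ⟨rfl, h6⟩ | ⟨rfl, h6⟩ | ⟨rfl, h6⟩
    · simp [Loc4.thn, nrs]
    · simp [Loc4.thn, nrs]
    · simp only [Loc4.thn, nrs, List.getElem_reverse, List.getElem_map, List.getElem_range,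
        List.length_map, List.length_range]
      rfl
    · simp only [Loc4.thn, nrs, List.getElem_reverse, List.getElem_map, List.getElem_range,
        List.length_map, List.length_range]
      rfl

/-- **the word of a corner** -/
theorem VxOK.word {k : ℕ} (hk : k < N) : ∃ pre mid post,
    nz L.wt (L.W (M.ν^[k] b)) = pre ++ (mid ++ post) ∧
    (∀ t ∈ mid, ¬ exk l (ixf M b) t) ∧ mid.map (mtk l (ixf M b)) = S.W.getD k [] ∧
    pre = ((L.cls (M.ν^[(k + N - 1) % N] b)).drop
      (l.e ((k + N - 1) % N)).length).reverse ∧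
    post = (L.crs (M.ν^[k] b)).drop (l.e k).length := by
  have hj : (k + N - 1) % N < N := Nat.mod_lt _ H.pos
  have hμ := H.dn hk
  obtain ⟨j, hj'⟩ : ∃ j, j = (k + N - 1) % N := ⟨_, rfl⟩
  rw [← hj'] at hj hμ ⊢
  refine ⟨_, ((L.cls (M.ν^[j] b)).take (l.e j).length).reverse ++
    (L.tns (M.ν^[k] b) ++ (L.crs (M.ν^[k] b)).take (l.e k).length), _, ?_, ?_, ?_, rfl, rfl⟩
  · have n1 : ∀ {w : List L.Tok}, (∀ t ∈ w, L.wt t ≠ 0) → nz L.wt w = w := by
      intro w hw
      unfold nz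
      exact List.filter_eq_self.2 fun t ht => by simpa using hw t ht
    unfold Layt.W
    rw [hμ, nz_append]
    have n2 : nz L.wt (L.idt (M.ν^[k] b) :: (L.tns (M.ν^[k] b) ++ L.crs (M.ν^[k] b))) =
        L.tns (M.ν^[k] b) ++ L.crs (M.ν^[k] b) := by
      have e0 : nz L.wt (L.idt (M.ν^[k] b) :: (L.tns (M.ν^[k] b) ++ L.crs (M.ν^[k] b))) =
          nz L.wt (L.tns (M.ν^[k] b) ++ L.crs (M.ν^[k] b)) := by
        unfold nz
        rw [List.filter_cons_of_neg]
        simp [Layt.wt, Layt.idt]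
      rw [e0]
      refine n1 fun t ht => ?_
      rw [Layt.wt_ne]
      rcases List.mem_append.1 ht with h | h
      · rw [(Layt.mem_tns.1 h).1]; simp
      · rw [(Layt.mem_crs.1 h).1]; simp
    rw [n2, n1 (fun t ht => by
      rw [Layt.wt_ne, (Layt.mem_cls.1 (List.mem_reverse.1 ht)).1]; simp)]
    conv_lhs => rw [← List.take_append_drop (l.e j).length (L.cls (M.ν^[j] b)),
      ← List.take_append_drop (l.e k).length (L.crs (M.ν^[k] b))]
    simp only [List.reverse_append, List.append_assoc]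
  · intro t ht
    rcases List.mem_append.1 ht with h | h
    · rw [List.mem_reverse] at h
      obtain ⟨i, h1, h2⟩ := List.mem_iff_getElem.1 h
      rw [List.getElem_take] at h2
      rw [List.length_take] at h1
      obtain ⟨h3, h4⟩ := cls_get (L := L) (x := M.ν^[j] b) (i := i) (by omega)
      rw [h4] at h2
      rw [← h2]
      rintro ⟨-, h5⟩
      have h6 : (l.e (ixf M b (M.ν^[j] b))).length ≤ i := h5
      rw [H.ix hj] at h6
      omega
    · rcases List.mem_append.1 h with h | h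
      · rintro ⟨h5 | h5, -⟩
        · rw [(Layt.mem_tns.1 h).1] at h5; cases h5
        · rw [(Layt.mem_tns.1 h).1] at h5; cases h5
      · obtain ⟨i, h1, h2⟩ := List.mem_iff_getElem.1 h
        rw [List.getElem_take] at h2
        rw [List.length_take] at h1
        obtain ⟨h3, h4⟩ := crs_get (L := L) (x := M.ν^[k] b) (i := i) (by omega)
        rw [h4] at h2
        rw [← h2]
        rintro ⟨-, h5⟩
        have h6 : (l.e (ixf M b (M.ν^[k] b))).length ≤ i := h5
        rw [H.ix hk] at h6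
        omega
  · rw [List.map_append, List.map_append, List.map_reverse, H.map_cls hj, H.map_tns hS hk,
      H.map_crs hk, hS.W k hk, ← hj']

/-- **the tokens at the vertex** -/
theorem VxOK.rep : Rep L cE (vtx M b) (exk l (ixf M b)) S (thp l) (fun k => M.ν^[k] b)
    (mtk l (ixf M b)) where
  Vl t ht := vtx_trans ht (home_lam t)
  exl t := by
    obtain ⟨⟨kd, x, i⟩, h⟩ := t
    cases kd
    · exact ⟨fun h => ⟨Or.inl rfl, h.2⟩, fun h => ⟨Or.inr rfl, h.2⟩⟩
    · exact ⟨fun h => ⟨Or.inr rfl, h.2⟩, fun h => ⟨Or.inl rfl, h.2⟩⟩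
    · constructor
      · rintro ⟨h1 | h1, -⟩ <;> cases h1
      · rintro ⟨h1 | h1, -⟩ <;> cases h1
    · constructor
      · rintro ⟨h1 | h1, -⟩ <;> cases h1
      · rintro ⟨h1 | h1, -⟩ <;> cases h1
  exd t hV hX := by
    obtain ⟨k, hk, hx⟩ := H.hx t hV
    obtain ⟨⟨kd, x, i⟩, h⟩ := t
    simp only at hx
    subst hx
    have h1 : (l.e k).length ≤ i := by
      have := hX.2
      simp only at this
      rwa [H.ix hk] at this
    cases kd
    · have h2 := H.exw hk h h1
      show cE (M.ν^[k] b) ↔ ¬ cE (M.ν (M.ν^[k] b))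
      rw [VxOK.succ]
      exact h2.2
    · have h2 := H.exw hk h h1
      show cE (M.ν (M.ν^[k] b)) ↔ ¬ cE (M.ν^[k] b)
      rw [VxOK.succ]
      have h3 := h2.2
      tauto
    · rcases hX.1 with h1 | h1 <;> cases h1
    · rcases hX.1 with h1 | h1 <;> cases h1
  exo t hV hX a := by
    obtain ⟨k, hk, hx⟩ := H.hx t hV
    obtain ⟨⟨kd, x, i⟩, h⟩ := t
    simp only at hx
    subst hx
    have h1 : (l.e k).length ≤ i := by
      have := hX.2
      simp only at this
      rwa [H.ix hk] at this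
    have key : ∀ (hi : i < (L.w (M.ν^[k] b)).length), L.okc (M.ν^[k] b) i a a := by
      intro hi
      have h2 := H.exw hk hi h1
      unfold Layt.okc
      rw [VxOK.succ, if_pos h2.1]
    cases kd
    · exact key h
    · exact key h
    · rcases hX.1 with h1 | h1 <;> cases h1
    · rcases hX.1 with h1 | h1 <;> cases h1
  ext t hX h := by
    rcases hX.1 with h1 | h1 <;> rw [h] at h1 <;> cases h1
  tok t hV hX ht := by
    obtain ⟨k, hk, hx⟩ := H.hx t hV
    obtain ⟨⟨kd, x, i⟩, h⟩ := t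
    simp only at hx
    subst hx
    have key : ∀ (c : ℕ) (s : Bool), c < l.off 6 → (c, s) ∈ S.toks := by
      intro c s hc
      unfold Sy.toks
      rw [List.mem_flatMap]
      refine ⟨c, List.mem_range.2 (by rw [hS.len]; exact hc), ?_⟩
      cases s <;> simp
    cases kd
    · rw [H.mcr hk]
      exact key _ _ (off_lt l (H.cr_lt hk hX))
    · rw [H.mcl hk]
      exact key _ _ (off_lt l (H.cl_lt hk hX))
    · rw [H.mtn hk]
      rcases (H.tn_cases hS hk (i := i) h).2 with ⟨rfl, h1⟩ | ⟨rfl, h1⟩ | ⟨rfl, h1⟩ | ⟨rfl, h1⟩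
      · exact key _ _ (off_lt1 l h1)
      · exact key _ _ (off_lt2 l h1)
      · exact key _ _ (off_lt1 l (by omega))
      · exact key _ _ (off_lt2 l (by omega))
    · exact absurd rfl ht
  ot t hV hX ht := by
    obtain ⟨k, hk, hx⟩ := H.hx t hV
    obtain ⟨⟨kd, x, i⟩, h⟩ := t
    simp only at hx
    subst hx
    cases kd
    · show mtk l (ixf M b) (⟨(.cl, M.ν^[k] b, i), h⟩ : L.Tok) = _
      rw [H.mcr hk, H.mcl hk]
      rfl
    · show mtk l (ixf M b) (⟨(.cr, M.ν^[k] b, i), h⟩ : L.Tok) = _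
      rw [H.mcr hk, H.mcl hk]
      rfl
    · obtain ⟨h4, h5⟩ := H.tn_cases hS hk (i := i) h
      have hlen : (L.th (M.ν^[k] b)).length = (l.t k).length := by rw [H.th k hk]
      have e1 : M.ν (M.ν (M.ν^[k] b)) = M.ν^[(k + 2) % N] b := by
        have e2 : ((k + 1) % N + 1) % N = (k + 2) % N := by subst h4; omega
        rw [H.up hk, H.up (Nat.mod_lt _ H.pos), e2]
      have hk2 : (k + 2) % N < N := Nat.mod_lt _ H.pos
      have key : mtk l (ixf M b) (L.lam ⟨(.tn, M.ν^[k] b, i), h⟩) =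
          (if (k + 2) % N = 0 then (l.off 4 + ((l.t k).length - 1 - i), false)
          else if (k + 2) % N = 1 then (l.off 5 + ((l.t k).length - 1 - i), false)
          else if (k + 2) % N = 2 then
            (l.off 4 + (l.t1.length - 1 - ((l.t k).length - 1 - i)), true)
          else (l.off 5 + (l.t2.length - 1 - ((l.t k).length - 1 - i)), true)) := by
        unfold mtk
        simp only [Layt.lam, hlen]
        rw [e1, H.ix hk2]
      rw [key, H.mtn hk]
      subst h4
      rcases h5 with ⟨rfl, h1⟩ | ⟨rfl, h1⟩ | ⟨rfl, h1⟩ | ⟨rfl, h1⟩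
      · show (l.off 4 + (l.t1.length - 1 - (l.t1.length - 1 - i)), true) = (l.off 4 + i, true)
        rw [show l.t1.length - 1 - (l.t1.length - 1 - i) = i by omega]
      · show (l.off 5 + (l.t2.length - 1 - (l.t2.length - 1 - i)), true) = (l.off 5 + i, true)
        rw [show l.t2.length - 1 - (l.t2.length - 1 - i) = i by omega]
      · show (l.off 4 + (l.t1.reverse.length - 1 - i), false) =
          (l.off 4 + (l.t1.length - 1 - i), false)
        rw [List.length_reverse]
      · show (l.off 5 + (l.t2.reverse.length - 1 - i), false) =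
          (l.off 5 + (l.t2.length - 1 - i), false)
        rw [List.length_reverse]
    · exact absurd rfl ht
  sg t hV hX ht := by
    obtain ⟨k, hk, hx⟩ := H.hx t hV
    obtain ⟨⟨kd, x, i⟩, h⟩ := t
    simp only at hx
    subst hx
    have key : ∀ q : Bool × ℕ, sgq q = 1 ↔ q.1 = true := by
      rintro ⟨_ | _, n⟩ <;> simp [sgq]
    have key2 : ∀ (w : Wd) (d : Bool × ℕ) (hi : i < w.length), w.getD i d = w[i] :=
      fun w d hi => List.getD_eq_getElem _ _ hi
    cases kd
    · have hi := H.cr_lt hk hX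
      rw [H.mcr hk]
      show sgq ((L.w (M.ν^[k] b)).getD i (true, 0)) = 1 ↔ (S.c (l.off k + i)).s = true
      rw [hS.c k hk i hi, key, H.wtk hk hi]
    · have hi := H.cl_lt hk hX
      rw [H.mcl hk]
      show sgq ((L.w (M.ν^[k] b)).getD i (true, 0)) = 1 ↔ (S.c (l.off k + i)).s = true
      rw [hS.c k hk i hi, key, H.wtk hk hi]
    · rw [H.mtn hk]
      obtain ⟨h4, h5⟩ := H.tn_cases hS hk (i := i) h
      have e0 : L.wt ⟨(.tn, M.ν^[k] b, i), h⟩ = sgq ((l.t k).getD i (true, 0)) := by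
        show sgq ((L.th (M.ν^[k] b)).getD i (true, 0)) = _
        rw [H.th k hk]
      rw [e0, key]
      rcases h5 with ⟨rfl, h1⟩ | ⟨rfl, h1⟩ | ⟨rfl, h1⟩ | ⟨rfl, h1⟩
      · show (l.t1.getD i (true, 0)).1 = true ↔ (S.c (l.off 4 + i)).s = true
        rw [hS.c1 i h1, key2 _ _ h1]
      · show (l.t2.getD i (true, 0)).1 = true ↔ (S.c (l.off 5 + i)).s = true
        rw [hS.c2 i h1, key2 _ _ h1]
      · show (l.t1.reverse.getD i (true, 0)).1 = true ↔
          (S.c (l.off 4 + (l.t1.length - 1 - i))).s = true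
        rw [hS.c1 _ (by omega), key2 _ _ (by rw [List.length_reverse]; exact h1),
          List.getElem_reverse]
      · show (l.t2.reverse.getD i (true, 0)).1 = true ↔
          (S.c (l.off 5 + (l.t2.length - 1 - i))).s = true
        rw [hS.c2 _ (by omega), key2 _ _ (by rw [List.length_reverse]; exact h1),
          List.getElem_reverse]
    · exact absurd rfl ht
  co t hV hX ht := by
    obtain ⟨k, hk, hx⟩ := H.hx t hV
    obtain ⟨⟨kd, x, i⟩, h⟩ := t
    simp only at hx
    subst hx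
    cases kd
    · have hi := H.cr_lt hk hX
      rw [H.mcr hk]
      show M.ν^[k] b = M.ν^[(S.c (l.off k + i)).cb] b
      rw [hS.c k hk i hi]
    · have hi := H.cl_lt hk hX
      rw [H.mcl hk]
      show M.ν (M.ν^[k] b) = M.ν^[(S.c (l.off k + i)).ca] b
      rw [hS.c k hk i hi, H.up hk]
    · rw [H.mtn hk]
      obtain ⟨h4, h5⟩ := H.tn_cases hS hk (i := i) h
      show M.ν^[k] b = M.ν^[S.co _] b
      rcases h5 with ⟨rfl, h1⟩ | ⟨rfl, h1⟩ | ⟨rfl, h1⟩ | ⟨rfl, h1⟩
      · show M.ν^[0] b = M.ν^[(S.c (l.off 4 + i)).cb] b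
        rw [hS.c1 i h1]
      · show M.ν^[1] b = M.ν^[(S.c (l.off 5 + i)).cb] b
        rw [hS.c2 i h1]
      · show M.ν^[2] b = M.ν^[(S.c (l.off 4 + (l.t1.length - 1 - i))).ca] b
        rw [hS.c1 _ (by omega)]
      · show M.ν^[3] b = M.ν^[(S.c (l.off 5 + (l.t2.length - 1 - i))).ca] b
        rw [hS.c2 _ (by omega)]
    · exact absurd rfl ht
  rl t hV hX ht a c hr := by
    obtain ⟨k, hk, hx⟩ := H.hx t hV
    obtain ⟨⟨kd, x, i⟩, h⟩ := t
    simp only at hx
    subst hx
    have keyF : ∀ a c : Bool, rF a c = true → c = !a := by decide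
    have keyF' : ∀ a c : Bool, rF c a = true → c = !a := by decide
    cases kd
    · have hi := H.cr_lt hk hX
      rw [H.mcr hk] at hr
      have hr' : (S.c (l.off k + i)).r a c = true := hr
      rw [hS.c k hk i hi] at hr'
      exact H.rl k hk i hi a c hr'
    · have hi := H.cl_lt hk hX
      rw [H.mcl hk] at hr
      have hr' : (S.c (l.off k + i)).r c a = true := hr
      rw [hS.c k hk i hi] at hr'
      exact H.rl k hk i hi c a hr'
    · rw [H.mtn hk] at hr
      obtain ⟨h4, h5⟩ := H.tn_cases hS hk (i := i) h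
      show c = !a
      rcases h5 with ⟨rfl, h1⟩ | ⟨rfl, h1⟩ | ⟨rfl, h1⟩ | ⟨rfl, h1⟩
      · have hr' : (S.c (l.off 4 + i)).r a c = true := hr
        rw [hS.c1 i h1] at hr'
        exact keyF _ _ hr'
      · have hr' : (S.c (l.off 5 + i)).r a c = true := hr
        rw [hS.c2 i h1] at hr'
        exact keyF _ _ hr'
      · have hr' : (S.c (l.off 4 + (l.t1.length - 1 - i))).r c a = true := hr
        rw [hS.c1 _ (by omega)] at hr'
        exact keyF' _ _ hr'
      · have hr' : (S.c (l.off 5 + (l.t2.length - 1 - i))).r c a = true := hr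
        rw [hS.c2 _ (by omega)] at hr'
        exact keyF' _ _ hr'
    · exact absurd rfl ht
  W k := by
    by_cases hk : k < N
    · right
      obtain ⟨pre, mid, post, h1, h2, h3, -⟩ := H.word hS hk
      exact ⟨⟨k, rfl⟩, pre, mid, post, h1, h2, h3⟩
    · left
      exact hS.W' k (by omega)
  inj t u hV hV' hX hX' ht hu he := by
    obtain ⟨k, hk, hx⟩ := H.hx t hV
    obtain ⟨⟨kd, x, i⟩, h⟩ := t
    simp only at hx
    subst hx
    obtain ⟨k', hk', hx'⟩ := H.hx u hV'
    obtain ⟨⟨kd', x', i'⟩, h'⟩ := u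
    simp only at hx'
    subst hx'
    cases kd
    · have hi := H.cr_lt hk hX
      rw [H.mcr hk] at he
      cases kd'
      · have hi' := H.cr_lt hk' hX'
        rw [H.mcr hk'] at he
        obtain ⟨rfl, rfl⟩ := off_inj l hi hi' (congrArg Prod.fst he)
        rfl
      · rw [H.mcl hk'] at he
        exact absurd (congrArg Prod.snd he) (by simp)
      · rw [H.mtn hk'] at he
        exfalso
        split_ifs at he
        · exact off_ne1 l hi (congrArg Prod.fst he)
        · exact off_ne2 l hi (congrArg Prod.fst he)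
        · exact absurd (congrArg Prod.snd he) (by simp)
        · exact absurd (congrArg Prod.snd he) (by simp)
      · exact absurd rfl hu
    · have hi := H.cl_lt hk hX
      rw [H.mcl hk] at he
      cases kd'
      · rw [H.mcr hk'] at he
        exact absurd (congrArg Prod.snd he) (by simp)
      · have hi' := H.cl_lt hk' hX'
        rw [H.mcl hk'] at he
        obtain ⟨rfl, rfl⟩ := off_inj l hi hi' (congrArg Prod.fst he)
        rfl
      · rw [H.mtn hk'] at he
        exfalso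
        split_ifs at he
        · exact absurd (congrArg Prod.snd he) (by simp)
        · exact absurd (congrArg Prod.snd he) (by simp)
        · exact off_ne1 l hi (congrArg Prod.fst he)
        · exact off_ne2 l hi (congrArg Prod.fst he)
      · exact absurd rfl hu
    · rw [H.mtn hk] at he
      cases kd'
      · have hi' := H.cr_lt hk' hX'
        rw [H.mcr hk'] at he
        exfalso
        split_ifs at he
        · exact off_ne1 l hi' (congrArg Prod.fst he).symm
        · exact off_ne2 l hi' (congrArg Prod.fst he).symm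
        · exact absurd (congrArg Prod.snd he) (by simp)
        · exact absurd (congrArg Prod.snd he) (by simp)
      · have hi' := H.cl_lt hk' hX'
        rw [H.mcl hk'] at he
        exfalso
        split_ifs at he
        · exact absurd (congrArg Prod.snd he) (by simp)
        · exact absurd (congrArg Prod.snd he) (by simp)
        · exact off_ne1 l hi' (congrArg Prod.fst he).symm
        · exact off_ne2 l hi' (congrArg Prod.fst he).symm
      · rw [H.mtn hk'] at he
        have h5 := (H.tn_cases hS hk (i := i) h).2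
        have h5' := (H.tn_cases hS hk' (i := i') h').2
        have key : k = k' ∧ i = i' := by
          rcases h5 with ⟨rfl, h1⟩ | ⟨rfl, h1⟩ | ⟨rfl, h1⟩ | ⟨rfl, h1⟩ <;>
            rcases h5' with ⟨rfl, h2⟩ | ⟨rfl, h2⟩ | ⟨rfl, h2⟩ | ⟨rfl, h2⟩ <;>
            simp [Loc4.off] at he <;> omega
        obtain ⟨rfl, rfl⟩ := key
        rfl
      · exact absurd rfl hu
    · exact absurd rfl ht
  th t u hV h1 h2 h3 h4 := by
    obtain ⟨k, hk, hx⟩ := H.hx t hV
    obtain ⟨⟨kd, x, i⟩, h⟩ := t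
    simp only at hx
    subst hx
    obtain ⟨⟨kd', x', i'⟩, h'⟩ := u
    simp only at h1 h2 h3 h4
    subst h1 h2 h3
    have g1 := (H.tn_cases hS hk (i := i) h).2
    have g2 := (H.tn_cases hS hk (i := i') h').2
    rw [H.mtn hk, H.mtn hk]
    have key : ∀ (n m a c : ℕ), a < c → c < m → (n + a, n + c) ∈ ((List.range m).flatMap fun j =>
        (List.range j).map fun i => (n + i, n + j)) := by
      intro n m a c hac hc
      rw [List.mem_flatMap]
      refine ⟨c, List.mem_range.2 hc, ?_⟩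
      rw [List.mem_map]
      exact ⟨a, List.mem_range.2 hac, rfl⟩
    have mem1 : ∀ a c, a < c → c < l.t1.length → (l.off 4 + a, l.off 4 + c) ∈ thp l :=
      fun a c hac hc => List.mem_append_left _ (key _ _ _ _ hac hc)
    have mem2 : ∀ a c, a < c → c < l.t2.length → (l.off 5 + a, l.off 5 + c) ∈ thp l :=
      fun a c hac hc => List.mem_append_right _ (key _ _ _ _ hac hc)
    rcases g1 with ⟨rfl, g3⟩ | ⟨rfl, g3⟩ | ⟨rfl, g3⟩ | ⟨rfl, g3⟩
    · left
      have g4 : i' < l.t1.length := by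
        rcases g2 with ⟨-, g2⟩ | ⟨g2, -⟩ | ⟨g2, -⟩ | ⟨g2, -⟩
        · exact g2
        all_goals omega
      exact ⟨_, mem1 i i' h4 g4, rfl, rfl⟩
    · left
      have g4 : i' < l.t2.length := by
        rcases g2 with ⟨g2, -⟩ | ⟨-, g2⟩ | ⟨g2, -⟩ | ⟨g2, -⟩
        · omega
        · exact g2
        all_goals omega
      exact ⟨_, mem2 i i' h4 g4, rfl, rfl⟩
    · right
      have g4 : i' < l.t1.length := by
        rcases g2 with ⟨g2, -⟩ | ⟨g2, -⟩ | ⟨-, g2⟩ | ⟨g2, -⟩
        · omega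
        · omega
        · exact g2
        · omega
      exact ⟨_, mem1 (l.t1.length - 1 - i') (l.t1.length - 1 - i) (by omega) (by omega), rfl, rfl⟩
    · right
      have g4 : i' < l.t2.length := by
        rcases g2 with ⟨g2, -⟩ | ⟨g2, -⟩ | ⟨g2, -⟩ | ⟨-, g2⟩
        · omega
        · omega
        · omega
        · exact g2
      exact ⟨_, mem2 (l.t2.length - 1 - i') (l.t2.length - 1 - i) (by omega) (by omega), rfl, rfl⟩

/-- the corners of the tokens -/
theorem VxOK.co_lt {t : L.Tok} (hV : vtx M b (L.home t)) (hX : ¬ exk l (ixf M b) t)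
    (ht : L.wt t ≠ 0) : S.co (mtk l (ixf M b) t) < N := by
  obtain ⟨k, hk, hx⟩ := H.hx t hV
  obtain ⟨⟨kd, x, i⟩, h⟩ := t
  simp only at hx
  subst hx
  cases kd
  · have hi := H.cr_lt hk hX
    rw [H.mcr hk]
    show (S.c (l.off k + i)).cb < N
    rw [hS.c k hk i hi]
    exact hk
  · have hi := H.cl_lt hk hX
    rw [H.mcl hk]
    show (S.c (l.off k + i)).ca < N
    rw [hS.c k hk i hi]
    exact Nat.mod_lt _ H.pos
  · rw [H.mtn hk]
    obtain ⟨h4, h5⟩ := H.tn_cases hS hk (i := i) h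
    rcases h5 with ⟨rfl, h1⟩ | ⟨rfl, h1⟩ | ⟨rfl, h1⟩ | ⟨rfl, h1⟩
    · show (S.c (l.off 4 + i)).cb < N
      rw [hS.c1 i h1, h4]
      norm_num
    · show (S.c (l.off 5 + i)).cb < N
      rw [hS.c2 i h1, h4]
      norm_num
    · show (S.c (l.off 4 + (l.t1.length - 1 - i))).ca < N
      rw [hS.c1 _ (by omega), h4]
      norm_num
    · show (S.c (l.off 5 + (l.t2.length - 1 - i))).ca < N
      rw [hS.c2 _ (by omega), h4]
      norm_num
  · exact absurd rfl ht

/-- **the local conditions at the vertex** -/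
theorem VxOK.vty {c : ℕ → Bool} (hc : ∀ k < N, (cE (M.ν^[k] b) ↔ c k = true))
    (hT : ∃ sw Pos a0, S.LTy c (thp l) sw Pos a0) :
    ∃ sw Pos a0, VTy L cE (vtx M b) sw Pos a0 := by
  obtain ⟨sw, Pos, a0, hT⟩ := hT
  refine ⟨_, _, _, (H.rep hS).vty (c := c) ?_ hT⟩
  intro t hV hX ht
  have h1 := (H.rep hS).co t hV hX ht
  rw [h1]
  exact hc _ (H.co_lt hS hV hX ht)

end

end Pool.Agent.MP42.GZ
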