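import Pool.Agent.MP42.GZ.Lvl
import Pool.Agent.MP42.GZ.LAbs

/-!
# The main states of all vertices and the kinds of links (owner helper30)

`Sq`: main states at a vertex of valence three (`l`) or at a bad tripod (`b`, `s`).  `LKd`: kinds of
links with the numbers of the host corner and of the child corner relative to the base corner.
`hostW`, `childW`: the visible words in reading order have the form of `il`, `ol`.
-/

set_option autoImplicit false

namespace Pool.Agent.MP42.GZ

/-- further states of a bad tripod.  `s P k w`: a single lane of a box: `P` = the box is at the corner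
`2` (`false`: at `1`), `k = 0, 1, 2`: the lane goes to the host `y` (corner `1` resp. `2`), to `3`, to
`4`; `w` = class of the box.  `p P st t o`: the plain link `M3` (`P = true`) or `M4` in the state `st`
(lane `0` = far, lane `3` = near) together with a star: the box at the corner `2` (resp. `1`), the lane
`1` goes from the box to the host corner `1` (resp. `2`), the lane `2` to the corner `3` (`t = false`)
or `4`; `o` = the sign of the lane `1` at the host corner in reading order.  `h P i`: a box as an
even child: `i = 0`: box at the corner `3` (resp. `4`), child of `1` (resp. `2`); `i = 1`: box at `2`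
(resp. `1`), child of `4` in the class `O` (resp. of `3` in `E`); `i = 2`: box at `2` (resp. `1`),
child of `3` in the class `E` (resp. of `4` in `O`). -/
inductive Sx
  | s (P : Bool) (k : Fin 3) (w : Bool)
  | p (P : Bool) (st : LS) (t o : Bool)
  | h (P : Bool) (i : Fin 3)
  deriving DecidableEq

/-- main states; `l ky a st`: link over the edge `(p, s)` at a vertex of valence three; `b m`, `s x`: a
bad tripod -/
inductive Sq
  | non
  | l (ky a : Bool) (st : LS)
  | b (m : Mn)
  | s (x : Sx)
  deriving DecidableEq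

/-- the crossings of a single lane of a box -/
def sloc : Bool → Fin 3 → Bool → Loc4
  | true, 0, true => ⟨[pl 1], [], [], [], [], []⟩
  | true, 0, false => ⟨[mi 1], [], [], [], [], []⟩
  | true, 1, true => ⟨[pl 2], [], [], [], [mi 2], []⟩
  | true, 1, false => ⟨[], [mi 2], [], [], [], []⟩
  | true, 2, true => ⟨[], [], [], [], [], [pl 2]⟩
  | true, 2, false => ⟨[], [mi 2], [pl 2], [], [], []⟩
  | false, 0, true => ⟨[pl 1], [], [], [], [], []⟩
  | false, 0, false => ⟨[mi 1], [], [], [], [], []⟩
  | false, 1, true => ⟨[], [], [mi 2], [pl 2], [], []⟩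
  | false, 1, false => ⟨[], [], [], [], [mi 2], []⟩
  | false, 2, true => ⟨[], [], [], [pl 2], [], []⟩
  | false, 2, false => ⟨[mi 2], [], [], [], [], [pl 2]⟩

/-- the opposite signs -/
def flp (w : Wd) : Wd := w.map fun q => (!q.1, q.2)

/-- mirror image: the corners `1, 2` and `3, 4` are exchanged -/
def Loc4.mir (l : Loc4) : Loc4 :=
  ⟨flp l.e1, flp l.e4, flp l.e3, flp l.e2, (flp l.t2).reverse, (flp l.t1).reverse⟩

/-- is there a near lane (`M3`, `M4`)? -/
def nrl : LS → Bool
  | .near => true
  | .even => true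
  | _ => false

/-- is there a far lane? -/
def frl : LS → Bool
  | .far => true
  | .even => true
  | _ => false

/-- `M3` with a star -/
def ploc (st : LS) : Bool → Bool → Loc4
  | false, true => ⟨(if nrl st then [mi 3] else []) ++ [pl 1], [], [mi 2],
      if frl st then [pl 0] else [], [], (if nrl st then [pl 3] else []) ++ [pl 2]⟩
  | false, false => ⟨(if nrl st then [mi 3] else []) ++ [mi 1], [mi 2], [],
      if frl st then [pl 0] else [], [], if nrl st then [pl 3] else []⟩
  | true, true => ⟨(if nrl st then [mi 3] else []) ++ [pl 1], [], [],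
      if frl st then [pl 0] else [], [], (if nrl st then [pl 3] else []) ++ [pl 2]⟩
  | true, false => ⟨(if nrl st then [mi 3] else []) ++ [mi 1], [mi 2], [pl 2],
      if frl st then [pl 0] else [], [], if nrl st then [pl 3] else []⟩

/-- a box as an even child -/
def hloc : Fin 3 → Loc4
  | 0 => ⟨[], [], [mi 1], [pl 1], [mi 2], []⟩
  | 1 => ⟨[pl 1], [], [], [mi 1], [], [pl 2]⟩
  | 2 => ⟨[], [pl 1], [mi 2], [], [], [pl 2]⟩

/-- the crossings -/
def Sx.loc : Sx → Loc4
  | .s P k w => sloc P k w
  | .p P st t o => if P then ploc st t o else (ploc st (!t) o).mir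
  | .h P i => if P then hloc i else (hloc i).mir

/-- `Fin 4` -/
def f4 (i : ℕ) : Fin 4 := ⟨i % 4, Nat.mod_lt _ (by norm_num)⟩

/-- the visible words of the main states -/
def Sq.vis : Sq → ℕ → Wd
  | .non, _ => []
  | .l ky a st, i => if i < 2 then
      red ((if ky then ky3 a st else eo3 a st).cw ⟨i % 3, Nat.mod_lt _ (by norm_num)⟩) else []
  | .b m, i => if i < 4 then m.vis (f4 i) else []
  | .s x, i => if i < 4 then red (x.loc.cw (f4 i)) else []

/-- the table -/
def tb : Tbl := ⟨Sq, .non, Sq.vis, fun _ => rfl⟩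

/-- the sign of the letters of a star at the corners of the level and the riders -/
def Sx.lvis : Sx → ℕ → Wd
  | .s _ _ _, _ => []
  | .p true _ _ o, 0 => [(o, 1)]
  | .p false _ _ o, 1 => [(!o, 1)]
  | .p _ _ false _, 2 => [(false, 2)]
  | .p _ _ true _, 3 => [(true, 2)]
  | .h true 0, 0 => [pl 1, mi 2]
  | .h false 0, 1 => [pl 2, mi 1]
  | .h true 1, 3 => [pl 2, mi 1]
  | .h false 1, 2 => [pl 1, mi 2]
  | .h true 2, 2 => [pl 1, mi 2]
  | .h false 2, 3 => [pl 2, mi 1]
  | _, _ => []

/-- the letters of the stars -/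
def Sx.svis : Sx → ℕ → Wd
  | .h _ _, _ => []
  | x, i => x.lvis i

/-- letters of stars and riders at the corners of the level -/
def Sq.lvis : Sq → ℕ → Wd
  | .s x, i => x.lvis i
  | _, _ => []

/-- letters of the stars -/
def Sq.svis : Sq → ℕ → Wd
  | .s x, i => x.svis i
  | _, _ => []

/-- the table of the letters and riders -/
def tl : Tbl := ⟨Sq, .non, Sq.lvis, fun _ => rfl⟩

/-- the table of the letters -/
def ts : Tbl := ⟨Sq, .non, Sq.svis, fun _ => rfl⟩

/-- kinds of links and vertices: over an edge at a vertex of valence three (`a`: the child is behind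
the host), completing links (`a`: class `O`), plain links `M1` - `M4`, links `M1` - `M4` with a box
(`z`: the fourth corner is present), `M3` (`P = true`) or `M4` with a star (`t`: the port is at the
corner `4`, `o` = sign of the letter at the host), gate links -/
inductive LKd
  | e (a : Bool)
  | k (a : Bool)
  | m (i : Fin 4)
  | w (i : Fin 4) (z : Bool)
  | q (P t o : Bool)
  | g (a : Bool)
  deriving DecidableEq

namespace LKd

/-- number of the host corner -/
def hi : LKd → ℕ
  | .e a => if a then 0 else 1
  | .k a => if a then 0 else 1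
  | .m i => if i = 0 ∨ i = 2 then 0 else 1
  | .w i _ => if i = 0 ∨ i = 2 then 0 else 1
  | .q P _ _ => if P then 0 else 1
  | .g a => if a then 0 else 1

/-- number of the child corner -/
def ci : LKd → ℕ
  | .e a => if a then 1 else 0
  | .k a => if a then 1 else 0
  | .m i => if i = 0 ∨ i = 3 then 2 else 3
  | .w i _ => if i = 0 ∨ i = 3 then 2 else 3
  | .q P _ _ => if P then 3 else 2
  | .g a => if a then 1 else 0

/-- class of the host (`true` = `E`) -/
def hc : LKd → Bool
  | .e a => a
  | .k a => !a
  | .m i => i = 0 ∨ i = 2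
  | .w i _ => i = 0 ∨ i = 2
  | .q P _ _ => P
  | .g a => a

/-- class of the child -/
def cc : LKd → Bool
  | .e a => !a
  | .k a => !a
  | .m i => i = 1 ∨ i = 2
  | .w i _ => i = 1 ∨ i = 2
  | .q P _ _ => P
  | .g a => !a

/-- is there a box? -/
def bx : LKd → Bool
  | .w _ _ => true
  | .q _ _ _ => true
  | _ => false

/-- number of the corner of the box -/
def bi (κ : LKd) (st : LS) : ℕ :=
  match κ with
  | .w i z => if st = .drop ∧ z = false ∧ i = 2 then 2 else
      if st = .drop ∧ z = false ∧ i = 3 then 3 else if i = 0 ∨ i = 2 then 1 else 0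
  | .q P _ _ => if P then 1 else 0
  | _ => 0

/-- is the word of the link before the letter at the host, and behind it at the child? -/
def bef : LKd → Bool
  | .q P _ _ => P
  | _ => true

/-- the main state -/
def sq : LKd → LS → Sq
  | .e a, st => .l false a st
  | .k a, st => .l true a st
  | .m 0, st => .b (.m1 st)
  | .m 1, st => .b (.m2 st)
  | .m 2, st => .b (.m3 st)
  | .m 3, st => .b (.m4 st)
  | .w 0 _, .drop => .s (.h true 1)
  | .w 1 _, .drop => .s (.h false 1)
  | .w 2 true, .drop => .s (.h true 2)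
  | .w 2 false, .drop => .s (.h true 0)
  | .w 3 true, .drop => .s (.h false 2)
  | .w 3 false, .drop => .s (.h false 0)
  | .w 0 _, st => .b (.g1 st)
  | .w 1 _, st => .b (.g2 st)
  | .w 2 _, st => .b (.g3 st)
  | .w 3 _, st => .b (.g4 st)
  | .q P t o, st => .s (.p P st t o)
  | .g _, _ => .non

/-- the visible word at the corner number `i` -/
def wv (κ : LKd) (st : LS) (i : ℕ) : Wd :=
  match κ with
  | .g a => gv (some (a, st)) i
  | _ => (κ.sq st).vis i

/-- legal states -/
def ok (κ : LKd) (st : LS) : Bool :=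
  match κ with
  | .e _ => true
  | .g _ => true
  | _ => st ≠ .nn

/-- numbers of the lanes on the side of the host; `1` = far, `0` = near, `2` = second near lane -/
def nh (κ : LKd) (st : LS) (n : ℕ) : ℕ :=
  match κ with
  | .e _ => n
  | .k _ => 1 - n
  | .m _ => 1 - n
  | .w _ _ => if st = .far then 1 else 1 - n
  | .q _ _ _ => if n = 1 then 0 else 3
  | .g _ => 10 + n

/-- numbers of the lanes on the side of the child -/
def nc (κ : LKd) (st : LS) (n : ℕ) : ℕ :=
  match κ with
  | .e _ => n
  | .k _ => 1 - n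
  | .m _ => 1 - n
  | .w _ _ => match st with
    | .far => 2
    | .near => 2
    | _ => if n = 0 then 2 else 0
  | .q _ _ _ => if n = 1 then 0 else 3
  | .g _ => 10 + n

end LKd

/-- reading direction -/
def dirw (c : Bool) (w : Wd) : Wd := if c then w else bk w

/-- the letters of an item with given lane numbers -/
def ilN (f : ℕ → ℕ) : LS → Wd
  | .drop => []
  | .far => [(true, f 1)]
  | .near => [(false, f 0)]
  | .even => [(true, f 1), (false, f 0)]
  | .nn => [(false, f 0), (false, f 2)]

/-- the own letters with given lane numbers -/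
def olN (sw : Bool) (f : ℕ → ℕ) : LS → Wd
  | .drop => []
  | .far => [(true, f 1)]
  | .near => [(true, f 0)]
  | .even => if sw then [(true, f 0), (true, f 1)] else [(true, f 1), (true, f 0)]
  | .nn => [(true, f 0), (true, f 2)]

lemma bk_bk (w : Wd) : bk (bk w) = w := by
  unfold bk
  rw [List.map_reverse, List.reverse_reverse, List.map_map]
  conv_rhs => rw [← List.map_id w]
  refine List.map_congr_left fun q _ => ?_
  simp

lemma dirw_dirw (c : Bool) (w : Wd) : dirw c (dirw c w) = w := by
  unfold dirw
  cases c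
  · simp [bk_bk]
  · simp

/-- all states -/
def allS' : List LS := [.drop, .far, .near, .even, .nn]

/-- all kinds -/
def allκ : List LKd := [.e true, .e false, .k true, .k false, .m 0, .m 1, .m 2, .m 3, .g true, .g false] ++
  (([0, 1, 2, 3] : List (Fin 4)).flatMap fun i => [.w i true, .w i false]) ++
  ([true, false].flatMap fun P => [true, false].flatMap fun t => [.q P t true, .q P t false])

theorem mem_allκ (κ : LKd) : κ ∈ allκ := by
  rcases κ with a | a | i | ⟨i, z⟩ | ⟨P, t, o⟩ | a
  · cases a <;> decide
  · cases a <;> decide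
  · fin_cases i <;> decide
  · fin_cases i <;> cases z <;> decide
  · cases P <;> cases t <;> cases o <;> decide
  · cases a <;> decide

theorem mem_allS' (s : LS) : s ∈ allS' := by cases s <;> decide

namespace LKd

/-- the word of the link at the host -/
def hv (κ : LKd) (st : LS) : Wd := dirw κ.hc (ilN (κ.nh st) st)

/-- the word of the link at the child -/
def cv (κ : LKd) (st : LS) : Wd := dirw κ.cc (olN (κ.hc == κ.cc) (κ.nc st) st)

/-- letters and riders -/
def lv' (κ : LKd) (st : LS) (k : ℕ) : Wd := (κ.sq st).lvis k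

/-- the word at a host corner -/
def wh (κ : LKd) (st : LS) : Wd :=
  if κ.bef then κ.hv st ++ κ.lv' st κ.hi else κ.lv' st κ.hi ++ κ.hv st

/-- the word at a child corner -/
def wc (κ : LKd) (st : LS) : Wd :=
  if κ.bef then κ.lv' st κ.ci ++ κ.cv st else κ.cv st ++ κ.lv' st κ.ci

/-- no letters at the corners of the link -/
def nl (κ : LKd) (st : LS) : Bool := (κ.lv' st κ.hi).isEmpty && (κ.lv' st κ.ci).isEmpty

/-- the class of the box -/
def bc (κ : LKd) (st : LS) : Bool :=
  match κ with
  | .w i z => if i = 0 then st = .far || st = .drop else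
      if i = 1 then !(st = .far || st = .drop) else
      if i = 2 then st = .far || (st = .drop && z) else !(st = .far || (st = .drop && z))
  | .q P _ o => P == o
  | _ => true

/-- a box as an even child -/
def isR (κ : LKd) (st : LS) : Bool :=
  match κ with
  | .w _ _ => st = .drop
  | _ => false

/-- number of the corner of the rider -/
def rn : LKd → ℕ
  | .w i z => if i = 0 then 3 else if i = 1 then 2 else if i = 2 then (if z then 2 else 0) else
      (if z then 3 else 1)
  | _ => 0

/-- the class of the circle with the rider -/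
def rcl : LKd → Bool
  | .w i _ => i = 1 ∨ i = 2
  | _ => true

/-- a corner of the level with a lane of the box -/
def vk (κ : LKd) (st : LS) : ℕ := if κ.isR st then κ.rn else κ.hi

/-- the fourth corner and its class -/
def th : LKd → Option (ℕ × Bool)
  | .w i z => if i = 0 then some (3, false) else if i = 1 then some (2, true) else
      if i = 2 then (if z then some (2, true) else none) else (if z then some (3, false) else none)
  | .q P _ _ => if P then some (2, false) else some (3, true)
  | _ => none

/-- number of the corner of the port -/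
def tn : LKd → ℕ
  | .q _ t _ => if t then 3 else 2
  | _ => 0

/-- the checks for one kind in one state -/
def chk (κ : LKd) (st : LS) : Bool :=
  !(κ.ok st) ||
  (decide (κ.wv st κ.hi = κ.wh st) && decide (κ.wv st κ.ci = κ.wc st) &&
  ((List.range 4).all fun i => i == κ.hi || i == κ.ci || (κ.bx && i == κ.bi st) ||
    decide (κ.wv st i = κ.lv' st i)) &&
  (!(κ.bx) || (κ.bi st != κ.hi && κ.bi st != κ.ci && κ.bi st < 4)) &&
  (!(κ.bx) || decide (κ.wv st (κ.bi st) = [(κ.bc st, 1), (κ.bc st, 2)]) ||
    decide (κ.wv st (κ.bi st) = [(κ.bc st, 2), (κ.bc st, 1)])) &&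
  (!(κ.bx) || ((κ.wv st (κ.vk st)).any fun q => q.2 == 1 || q.2 == 2)) &&
  ((List.range 4).all fun i => !(κ.isR st) || (i != κ.rn && decide (κ.lv' st i = [])) ||
    (i == κ.rn && (decide (dirw κ.rcl (κ.lv' st i) = [pl 1, mi 2]) ||
      decide (dirw κ.rcl (κ.lv' st i) = [pl 2, mi 1])))))

theorem chk_all : (allκ.all fun κ => allS'.all fun st => κ.chk st) = true := by
  decide +kernel

/-- the checks for the stars -/
theorem chk_q : ([true, false].all fun P => [true, false].all fun t => [true, false].all fun o =>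
    allS'.all fun st => (List.range 4).all fun i =>
      (i == (LKd.q P t o).hi && decide (dirw P ((LKd.q P t o).lv' st i) = [(o, 1)])) ||
      (i == (LKd.q P t o).tn && decide (dirw t ((LKd.q P t o).lv' st i) = [pl 2])) ||
      (i != (LKd.q P t o).hi && i != (LKd.q P t o).tn &&
        decide ((LKd.q P t o).lv' st i = []))) = true := by
  decide +kernel

/-- the other kinds have no letters -/
theorem chk_n : (allκ.all fun κ => allS'.all fun st => κ.isR st || (match κ with | .q _ _ _ => true | _ => false) ||
    (List.range 4).all fun i => decide (κ.lv' st i = [])) = true := by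
  decide +kernel

/-! ## The facts -/

lemma lvis_ge (x : Sx) {i : ℕ} (hi : ¬ i < 4) : x.lvis i = [] := by
  rcases x with ⟨P, k, w⟩ | ⟨P, st, t, o⟩ | ⟨P, k⟩
  · rfl
  · obtain ⟨j, rfl⟩ : ∃ j, i = j + 4 := ⟨i - 4, by omega⟩
    cases P <;> cases t <;> rfl
  · obtain ⟨j, rfl⟩ : ∃ j, i = j + 4 := ⟨i - 4, by omega⟩
    cases P <;> fin_cases k <;> rfl

lemma lv'_ge (κ : LKd) (st : LS) {i : ℕ} (hi : ¬ i < 4) : κ.lv' st i = [] := by
  unfold lv'
  rcases h : κ.sq st with _ | ⟨ky, a, st⟩ | m | x
  · rfl
  · rfl
  · rfl
  · exact lvis_ge x hi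

lemma wv_ge (κ : LKd) (st : LS) {i : ℕ} (hi : ¬ i < 4) : κ.wv st i = [] := by
  have key : ∀ q : Sq, q.vis i = [] := by
    intro q
    rcases q with _ | ⟨ky, a, st⟩ | m | x
    · rfl
    · show (if i < 2 then _ else _) = _
      rw [if_neg (by omega)]
    · show (if i < 4 then _ else _) = _
      rw [if_neg hi]
    · show (if i < 4 then _ else _) = _
      rw [if_neg hi]
  rcases κ with a | a | j | ⟨j, z⟩ | ⟨P, t, o⟩ | a
  · exact key ((LKd.e a).sq st)
  · exact key ((LKd.k a).sq st)
  · exact key ((LKd.m j).sq st)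
  · exact key ((LKd.w j z).sq st)
  · exact key ((LKd.q P t o).sq st)
  · obtain ⟨j, rfl⟩ : ∃ j, i = j + 4 := ⟨i - 4, by omega⟩
    rfl

/-- the content of `chk` -/
structure Chk (κ : LKd) (st : LS) : Prop where
  host : κ.wv st κ.hi = κ.wh st
  child : κ.wv st κ.ci = κ.wc st
  oth : ∀ i < 4, i ≠ κ.hi → i ≠ κ.ci → (κ.bx = false ∨ i ≠ κ.bi st) → κ.wv st i = κ.lv' st i
  bne : κ.bx = true → κ.bi st ≠ κ.hi ∧ κ.bi st ≠ κ.ci ∧ κ.bi st < 4
  box : κ.bx = true → κ.wv st (κ.bi st) = [(κ.bc st, 1), (κ.bc st, 2)] ∨
    κ.wv st (κ.bi st) = [(κ.bc st, 2), (κ.bc st, 1)]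
  vk : κ.bx = true → ∃ q ∈ κ.wv st (κ.vk st), q.2 = 1 ∨ q.2 = 2
  rid : κ.isR st = true → ∀ i < 4, (i ≠ κ.rn ∧ κ.lv' st i = []) ∨
    (i = κ.rn ∧ (dirw κ.rcl (κ.lv' st i) = [pl 1, mi 2] ∨ dirw κ.rcl (κ.lv' st i) = [pl 2, mi 1]))

theorem chk_of (κ : LKd) (st : LS) (h : κ.ok st = true) : κ.Chk st := by
  have h1 := chk_all
  simp only [List.all_eq_true] at h1
  have h2 := h1 κ (mem_allκ κ) st (mem_allS' st)
  unfold chk at h2
  rw [h, Bool.not_true, Bool.false_or] at h2
  simp only [Bool.and_eq_true, Bool.or_eq_true, decide_eq_true_eq, List.all_eq_true,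
    List.mem_range, beq_iff_eq, bne_iff_ne, ne_eq, Bool.not_eq_true', List.any_eq_true] at h2
  obtain ⟨⟨⟨⟨⟨⟨a1, a2⟩, a3⟩, a4⟩, a5⟩, a6⟩, a7⟩ := h2
  refine ⟨a1, a2, ?_, ?_, ?_, ?_, ?_⟩
  · intro i hi h3 h4 h5
    rcases a3 i hi with ((h6 | h6) | h6) | h6
    · exact absurd h6 h3
    · exact absurd h6 h4
    · rcases h5 with h5 | h5
      · rw [h5] at h6; exact absurd h6.1 (by decide)
      · exact absurd h6.2 h5
    · exact h6
  · intro h3
    rcases a4 with h4 | h4
    · rw [h3] at h4; exact absurd h4 (by decide)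
    · exact ⟨h4.1.1, h4.1.2, h4.2⟩
  · intro h3
    rcases a5 with (h4 | h4) | h4
    · rw [h3] at h4; exact absurd h4 (by decide)
    · exact Or.inl h4
    · exact Or.inr h4
  · intro h3
    rcases a6 with h4 | h4
    · rw [h3] at h4; exact absurd h4 (by decide)
    · obtain ⟨q, h5, h6⟩ := h4
      exact ⟨q, h5, h6⟩
  · intro h3 i hi
    rcases a7 i hi with (h4 | h4) | h4
    · rw [h3] at h4; exact absurd h4 (by decide)
    · exact Or.inl h4
    · exact Or.inr h4

/-- **the other corners** -/
theorem otherW (κ : LKd) (st : LS) (h : κ.ok st = true) (i : ℕ) (h1 : i ≠ κ.hi) (h2 : i ≠ κ.ci)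
    (h3 : κ.bx = false ∨ i ≠ κ.bi st) : κ.wv st i = κ.lv' st i := by
  by_cases hi : i < 4
  · exact (κ.chk_of st h).oth i hi h1 h2 h3
  · rw [wv_ge κ st hi, lv'_ge κ st hi]

/-- the word at the child corner without letters there -/
lemma hv_drop (κ : LKd) : κ.hv .drop = [] := by
  unfold hv dirw ilN
  split_ifs <;> rfl

lemma cv_drop (κ : LKd) : κ.cv .drop = [] := by
  unfold cv dirw olN
  split_ifs <;> rfl

/-- the letters of a star -/
theorem starW (P t o : Bool) (st : LS) (i : ℕ) :
    (i = (LKd.q P t o).hi ∧ dirw P ((LKd.q P t o).lv' st i) = [(o, 1)]) ∨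
    (i = (LKd.q P t o).tn ∧ dirw t ((LKd.q P t o).lv' st i) = [pl 2]) ∨
    (i ≠ (LKd.q P t o).hi ∧ i ≠ (LKd.q P t o).tn ∧ (LKd.q P t o).lv' st i = []) := by
  by_cases hi : i < 4
  · have h1 := chk_q
    simp only [List.all_eq_true] at h1
    have h2 := h1 P (by cases P <;> decide) t (by cases t <;> decide) o (by cases o <;> decide) st
      (mem_allS' st) i (List.mem_range.2 hi)
    simp only [Bool.and_eq_true, Bool.or_eq_true, decide_eq_true_eq, beq_iff_eq, bne_iff_ne,
      ne_eq] at h2
    rcases h2 with (h2 | h2) | h2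
    · exact Or.inl h2
    · exact Or.inr (Or.inl h2)
    · exact Or.inr (Or.inr ⟨h2.1.1, h2.1.2, h2.2⟩)
  · refine Or.inr (Or.inr ⟨?_, ?_, lv'_ge _ _ hi⟩)
    · rintro rfl
      apply hi
      cases P
      · show 1 < 4; omega
      · show 0 < 4; omega
    · rintro rfl
      apply hi
      cases t
      · show 2 < 4; omega
      · show 3 < 4; omega

/-- the kinds without letters -/
theorem noL (κ : LKd) (st : LS) (h : κ.isR st = false) (hq : ∀ P t o, κ ≠ .q P t o) (i : ℕ) :
    κ.lv' st i = [] := by
  by_cases hi : i < 4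
  · have h1 := chk_n
    simp only [List.all_eq_true] at h1
    have h2 := h1 κ (mem_allκ κ) st (mem_allS' st)
    rw [h, Bool.false_or, Bool.or_eq_true] at h2
    rcases h2 with h2 | h2
    · exfalso
      rcases κ with a | a | j | ⟨j, z⟩ | ⟨P, t, o⟩ | a
      · exact absurd h2 (by simp)
      · exact absurd h2 (by simp)
      · exact absurd h2 (by simp)
      · exact absurd h2 (by simp)
      · exact hq P t o rfl
      · exact absurd h2 (by simp)
    · simp only [List.all_eq_true, List.mem_range, decide_eq_true_eq] at h2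
      exact h2 i hi
  · exact lv'_ge _ _ hi

end LKd
end Pool.Agent.MP42.GZ
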