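import Pool.Agent.MP42.GZ.TypC

/-!
# Legality of the states of a kind (owner helper48)
-/

set_option autoImplicit false

namespace Pool.Agent.MP42.GZ

namespace LKd

/-- kinds at bad tripods -/
def is4 : LKd → Bool
  | .m _ => true
  | .w _ _ => true
  | .q _ _ _ => true
  | _ => false

/-- the class of the fourth corner -/
def thC (κ : LKd) (c : ℕ → Bool) : Bool :=
  match κ.th with
  | some (n, b) => c n == b
  | none => true

/-- the check -/
def legC (κ : LKd) (st : LS) (c1 c2 c3 c4 : Bool) : Bool :=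
  !(κ.is4) || !(κ.ok st) || !(cl4 c1 c2 c3 c4 κ.hi == κ.hc) || !(cl4 c1 c2 c3 c4 κ.ci == κ.cc) ||
  (κ.bx && !(cl4 c1 c2 c3 c4 (κ.bi st) == κ.bc st)) || !(κ.thC (cl4 c1 c2 c3 c4)) ||
  clQ (κ.sq st) c1 c2 c3 c4

theorem legC_all : (allκ.all fun κ => allS'.all fun st => bb.all fun c1 => bb.all fun c2 =>
    bb.all fun c3 => bb.all fun c4 => κ.legC st c1 c2 c3 c4) = true := by
  decide +kernel

/-- **the states of the kinds at bad tripods are legal** -/
theorem leg4 (κ : LKd) (st : LS) (c : ℕ → Bool) (h4 : κ.is4 = true) (hok : κ.ok st = true)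
    (hh : c κ.hi = κ.hc) (hc : c κ.ci = κ.cc) (hb : κ.bx = true → c (κ.bi st) = κ.bc st)
    (ht : ∀ n b, κ.th = some (n, b) → c n = b) : clQ (κ.sq st) (c 0) (c 1) (c 2) (c 3) = true := by
  have h1 := legC_all
  simp only [List.all_eq_true] at h1
  have h2 := h1 κ (mem_allκ κ) st (mem_allS' st) (c 0) (mem_bb _) (c 1) (mem_bb _) (c 2) (mem_bb _)
    (c 3) (mem_bb _)
  have hcl : ∀ n, n < 4 → cl4 (c 0) (c 1) (c 2) (c 3) n = c n := by
    intro n hn
    interval_cases n <;> rfl
  have hlt : κ.hi < 4 ∧ κ.ci < 4 ∧ κ.bi st < 4 := by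
    rcases κ with a | a | j | ⟨j, z⟩ | ⟨P, t, o⟩ | a
    · cases a <;> cases st <;> decide
    · cases a <;> cases st <;> decide
    · fin_cases j <;> cases st <;> decide
    · fin_cases j <;> cases z <;> cases st <;> decide
    · cases P <;> cases t <;> cases o <;> cases st <;> decide
    · cases a <;> cases st <;> decide
  have hth : κ.thC (cl4 (c 0) (c 1) (c 2) (c 3)) = true := by
    unfold thC
    cases h : κ.th with
    | none => rfl
    | some p =>
      obtain ⟨n, b⟩ := p
      have hn : n < 4 := by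
        rcases κ with a | a | j | ⟨j, z⟩ | ⟨P, t, o⟩ | a
        · exact absurd h (by simp [th])
        · exact absurd h (by simp [th])
        · exact absurd h (by simp [th])
        · fin_cases j <;> cases z <;> simp [th] at h <;> omega
        · cases P <;> simp [th] at h <;> omega
        · exact absurd h (by simp [th])
      show (cl4 (c 0) (c 1) (c 2) (c 3) n == b) = true
      rw [hcl n hn, ht n b h]
      simp
  unfold legC at h2
  rw [h4, hok, hcl _ hlt.1, hcl _ hlt.2.1, hh, hc, hth] at h2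
  simp only [Bool.not_true, beq_self_eq_true, Bool.false_or, Bool.or_false, Bool.or_eq_true,
    Bool.and_eq_true, Bool.not_eq_true', beq_eq_false_iff_ne, ne_eq] at h2
  rcases h2 with ⟨h5, h6⟩ | h2
  · rw [hcl _ hlt.2.2] at h6
    exact absurd (hb h5) h6
  · exact h2

end LKd

end Pool.Agent.MP42.GZ
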