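import Mathlib

/-!
# The lanes at the vertices: tables (owner helper30)

The corners of a vertex are numbered in the order `ν` (`1, 2, 3, 4` at a bad tripod `B`, where `1` is
the corner after a gate and before a real ribbon; `p, s, t` at a vertex of valence three).  A
crossing is a pair `(sign, lane)`, `true` = `+` = pop on both sides, `false` = `-` = push.

`e1` = the crossings of the edge between the corners `1` and `2` which belong to this vertex, from
the vertex outwards; `e2, e3, e4` similarly; `t1` = the thin lanes at the corner `1` in the order of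
its circle (reversed at `3`), `t2` at the corner `2` (reversed at `4`).

`cw k` = word of the circle at the corner `k`: the crossings of the arriving edge, the thin lanes,
the crossings of the departing edge.  `red` removes the adjacent pairs (push a, pop a): a strand
which passes over a third corner.  What is left are the ends of the lanes (`vis`): the lane `n` has
exactly two ends, at two corners of the vertex.
-/

set_option autoImplicit false

namespace Pool.Agent.MP42.GZ

/-- the state of a link: dropped, far, near, far and near, near and near -/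
inductive LS | drop | far | near | even | nn
  deriving DecidableEq, Repr

/-- words of crossings -/
abbrev Wd := List (Bool × ℕ)

/-- removal of the adjacent pairs (push a, pop a); `st` is the reversed reduced prefix -/
def redAux : Wd → Wd → Wd
  | st, [] => st.reverse
  | [], q :: w => redAux [q] w
  | r :: st, q :: w => if r.1 = false ∧ q.1 = true ∧ r.2 = q.2 then redAux st w
      else redAux (q :: r :: st) w

/-- removal of the adjacent pairs (push a, pop a) -/
def red (w : Wd) : Wd := redAux [] w

/-- the word read backwards: push and pop are exchanged (circles of the class O) -/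
def bk (w : Wd) : Wd := (w.map fun q => (!q.1, q.2)).reverse

/-! ## Vertices of valence three

`p` the corner before the edge of the link, `s` after it, `t` the third corner.  Lane `0` = the lane
over the edge `(p, s)`, lane `1` = the lane over `t`, lane `2` = second lane over the edge. -/

/-- crossings at a vertex of valence three -/
structure Loc3 where
  ep : Wd
  es : Wd
  et : Wd

/-- the words at the corners `p, s, t` -/
def Loc3.cw (l : Loc3) : Fin 3 → Wd
  | 0 => l.et.reverse ++ l.ep
  | 1 => l.ep.reverse ++ l.es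
  | 2 => l.es.reverse ++ l.et

/-- The link over the edge `(p, s)`; `a` = the child is `s`; `D`, `R` = which lanes are there. -/
def lnk3 (a : Bool) (D R : Bool) (DD : Bool) : Loc3 where
  ep := (if D then [(!a, 0)] else []) ++ (if DD then [(!a, 2)] else [])
  es := if R then [(false, 1)] else []
  et := if R then [(true, 1)] else []

/-- the `E`-`O` link (`p` in `E`, `s` in `O`) in a state -/
def eo3 (a : Bool) : LS → Loc3
  | .drop => lnk3 a false false false
  | .far => lnk3 a false true false
  | .near => lnk3 a true false false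
  | .even => lnk3 a true true false
  | .nn => lnk3 a true false true

/-- the completing link at `K_y` (both circles of the same class: `E` if `a = false`, `O` if
`a = true`) in a state -/
def ky3 (a : Bool) : LS → Loc3
  | .drop => lnk3 a false false false
  | .far => lnk3 a true false false
  | .near => lnk3 a false true false
  | .even => lnk3 a true true false
  | .nn => lnk3 a false false false

theorem red_t3 (a D R DD : Bool) : red ((lnk3 a D R DD).cw 2) = [] := by
  revert a D R DD; decide

/-- the visible words of an `E`-`O` link: `p` in the direction of `E` -/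
theorem vis_p (a : Bool) (s : LS) : red ((eo3 a s).cw 0) = match s with
    | .drop => []
    | .far => [(true, 1)]
    | .near => [(!a, 0)]
    | .even => [(true, 1), (!a, 0)]
    | .nn => [(!a, 0), (!a, 2)] := by
  cases s <;> revert a <;> decide

/-- the visible words of an `E`-`O` link: `s`, read backwards -/
theorem vis_s (a : Bool) (s : LS) : bk (red ((eo3 a s).cw 1)) = match s with
    | .drop => []
    | .far => [(true, 1)]
    | .near => [(a, 0)]
    | .even => [(true, 1), (a, 0)]
    | .nn => [(a, 0), (a, 2)] := by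
  cases s <;> revert a <;> decide

/-- `K_y`, both in `E` (child `p`): the child, in the direction of `E` -/
theorem vis_ky_p (s : LS) (h : s ≠ .nn) : red ((ky3 false s).cw 0) = match s with
    | .drop => []
    | .far => [(true, 0)]
    | .near => [(true, 1)]
    | .even => [(true, 1), (true, 0)]
    | .nn => [] := by
  revert h; cases s <;> decide

/-- `K_y`, both in `E` (child `p`): the host `s`, in the direction of `E` -/
theorem vis_ky_s (s : LS) (h : s ≠ .nn) : red ((ky3 false s).cw 1) = match s with
    | .drop => []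
    | .far => [(true, 0)]
    | .near => [(false, 1)]
    | .even => [(true, 0), (false, 1)]
    | .nn => [] := by
  revert h; cases s <;> decide

/-- `K_y`, both in `O` (child `s`): the host `p`, read backwards -/
theorem vis_ky_p' (s : LS) (h : s ≠ .nn) : bk (red ((ky3 true s).cw 0)) = match s with
    | .drop => []
    | .far => [(true, 0)]
    | .near => [(false, 1)]
    | .even => [(true, 0), (false, 1)]
    | .nn => [] := by
  revert h; cases s <;> decide

/-- `K_y`, both in `O` (child `s`): the child, read backwards -/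
theorem vis_ky_s' (s : LS) (h : s ≠ .nn) : bk (red ((ky3 true s).cw 1)) = match s with
    | .drop => []
    | .far => [(true, 0)]
    | .near => [(true, 1)]
    | .even => [(true, 1), (true, 0)]
    | .nn => [] := by
  revert h; cases s <;> decide

/-! ## Bad tripods -/

/-- crossings at a bad tripod -/
structure Loc4 where
  e1 : Wd
  e2 : Wd
  e3 : Wd
  e4 : Wd
  t1 : Wd
  t2 : Wd

/-- the words at the corners `1, 2, 3, 4` -/
def Loc4.cw (l : Loc4) : Fin 4 → Wd
  | 0 => l.e4.reverse ++ l.t1 ++ l.e1
  | 1 => l.e1.reverse ++ l.t2 ++ l.e2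
  | 2 => l.e2.reverse ++ l.t1.reverse ++ l.e3
  | 3 => l.e3.reverse ++ l.t2.reverse ++ l.e4

/-- The main use of a bad tripod.  Plain links `m1 : 1E → 3O`, `m2 : 2O → 4E`, `m3 : 1E → 4E`,
`m4 : 2O → 3O` (lane `0` = far, lane `1` = near); links with a box `W`: `g1 : 1E → 3O`,
`g3 : 1E → 4E` with `W` at `2`, `g2 : 2O → 4E`, `g4 : 2O → 3O` with `W` at `1` (lane `0` = host -
child, lane `1` = host - `W`, lane `2` = `W` - child; in the state `drop` the lanes `1`, `2` both go
from `W` to the child).  A chord dock is `g1 .. g4` in the state `far` (`y = o`) or `near` (`y = c`),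
where the `child` is the other end of the chord. -/
inductive Mn | non | m1 (s : LS) | m2 (s : LS) | m3 (s : LS) | m4 (s : LS)
  | g1 (s : LS) | g2 (s : LS) | g3 (s : LS) | g4 (s : LS)
  deriving DecidableEq, Repr

/-- lane with a sign -/
abbrev pl (n : ℕ) : Bool × ℕ := (true, n)
/-- lane with a sign -/
abbrev mi (n : ℕ) : Bool × ℕ := (false, n)

/-- the crossings of the main use -/
def Mn.loc : Mn → Loc4
  | .non => ⟨[], [], [], [], [], []⟩
  | .m1 .far => ⟨[], [], [mi 0], [pl 0], [], []⟩
  | .m1 .near => ⟨[], [], [], [], [mi 1], []⟩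
  | .m1 .even => ⟨[], [], [mi 0], [pl 0], [mi 1], []⟩
  | .m2 .far => ⟨[], [mi 0], [pl 0], [], [], []⟩
  | .m2 .near => ⟨[], [], [], [], [], [pl 1]⟩
  | .m2 .even => ⟨[], [mi 0], [pl 0], [], [], [pl 1]⟩
  | .m3 .far => ⟨[], [], [], [pl 0], [], []⟩
  | .m3 .near => ⟨[], [], [pl 1], [], [mi 1], []⟩
  | .m3 .even => ⟨[], [], [pl 1], [pl 0], [mi 1], []⟩
  | .m4 .far => ⟨[], [mi 0], [], [], [], []⟩
  | .m4 .near => ⟨[], [], [mi 1], [], [], [pl 1]⟩
  | .m4 .even => ⟨[], [mi 0], [mi 1], [], [], [pl 1]⟩
  | .g1 .even => ⟨[mi 1], [mi 2], [mi 0], [pl 0], [], []⟩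
  | .g1 .far => ⟨[pl 2, pl 1], [], [], [], [mi 2], []⟩
  | .g1 .near => ⟨[mi 1], [mi 2], [], [], [], []⟩
  | .g1 .drop => ⟨[], [mi 1, mi 2], [], [], [], []⟩
  | .g3 .even => ⟨[mi 1], [mi 2], [pl 2], [pl 0], [], []⟩
  | .g3 .far => ⟨[pl 1], [], [], [], [], [pl 2]⟩
  | .g3 .near => ⟨[mi 1], [mi 2], [pl 2], [], [], []⟩
  | .g3 .drop => ⟨[], [], [], [], [], [pl 1, pl 2]⟩
  | .g2 .even => ⟨[pl 1], [mi 0], [pl 0], [pl 2], [], []⟩
  | .g2 .far => ⟨[mi 2, mi 1], [], [], [], [], [pl 2]⟩
  | .g2 .near => ⟨[pl 1], [], [], [pl 2], [], []⟩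
  | .g2 .drop => ⟨[], [], [], [pl 1, pl 2], [], []⟩
  | .g4 .even => ⟨[pl 1], [mi 0], [mi 2], [pl 2], [], []⟩
  | .g4 .far => ⟨[mi 1], [], [], [], [mi 2], []⟩
  | .g4 .near => ⟨[pl 1], [], [mi 2], [pl 2], [], []⟩
  | .g4 .drop => ⟨[], [], [], [], [mi 1, mi 2], []⟩
  | .m1 .drop => ⟨[], [], [], [], [], []⟩
  | .m2 .drop => ⟨[], [], [], [], [], []⟩
  | .m3 .drop => ⟨[], [], [], [], [], []⟩
  | .m4 .drop => ⟨[], [], [], [], [], []⟩
  | .m1 .nn => ⟨[], [], [], [], [], []⟩
  | .m2 .nn => ⟨[], [], [], [], [], []⟩
  | .m3 .nn => ⟨[], [], [], [], [], []⟩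
  | .m4 .nn => ⟨[], [], [], [], [], []⟩
  | .g1 .nn => ⟨[], [], [], [], [], []⟩
  | .g2 .nn => ⟨[], [], [], [], [], []⟩
  | .g3 .nn => ⟨[], [], [], [], [], []⟩
  | .g4 .nn => ⟨[], [], [], [], [], []⟩

/-- the thin lanes join the corners `1` and `3` (`true`) or `2` and `4` (`false`) -/
def Mn.mode : Mn → Bool
  | .m1 _ => true | .m3 _ => true | .g1 _ => true | .g4 _ => true
  | _ => false

/-- The link over a gate of the bad tripod: none, or state and `a` = the child is the corner after
the gate.  Lanes: `D` = `10` (`12` the second one), `R` = `11` for the gate `(2,3)`, `20`, `22`, `21`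
for the gate `(4,1)`. -/
abbrev M9 := Option (Bool × LS)

/-- the crossings of the gate -/
def M9.D (g : M9) (k : ℕ) : Wd := match g with
  | some (a, .near) => [(!a, k)]
  | some (a, .even) => [(!a, k)]
  | some (a, .nn) => [(!a, k), (!a, k + 2)]
  | _ => []

/-- is there a far lane -/
def M9.R (g : M9) : Bool := match g with
  | some (_, .far) => true
  | some (_, .even) => true
  | _ => false

/-- The crossings at a bad tripod: main use, link over the gate `(2,3)`, link over the gate `(4,1)`;
`m` = the thin lanes join `1` and `3`. -/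
def loc4 (m : Bool) (M : Mn) (gm ga : M9) : Loc4 where
  e1 := (if m && gm.R then [pl 11] else []) ++ (if !m && ga.R then [mi 21] else []) ++ M.loc.e1
  e2 := gm.D 10 ++ M.loc.e2
  e3 := (if !m && gm.R then [mi 11] else []) ++ (if m && ga.R then [pl 21] else []) ++ M.loc.e3
  e4 := ga.D 20 ++ M.loc.e4
  t1 := (if m && ga.R then [mi 21] else []) ++ M.loc.t1 ++ (if m && gm.R then [mi 11] else [])
  t2 := (if !m && ga.R then [pl 21] else []) ++ M.loc.t2 ++ (if !m && gm.R then [pl 11] else [])

/-- visible words of the main use, in the direction of the circles -/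
def Mn.vis : Mn → Fin 4 → Wd
  | .m1 .far, 0 => [pl 0] | .m1 .far, 2 => [mi 0]
  | .m1 .near, 0 => [mi 1] | .m1 .near, 2 => [mi 1]
  | .m1 .even, 0 => [pl 0, mi 1] | .m1 .even, 2 => [mi 1, mi 0]
  | .m2 .far, 1 => [mi 0] | .m2 .far, 3 => [pl 0]
  | .m2 .near, 1 => [pl 1] | .m2 .near, 3 => [pl 1]
  | .m2 .even, 1 => [pl 1, mi 0] | .m2 .even, 3 => [pl 0, pl 1]
  | .m3 .far, 0 => [pl 0] | .m3 .far, 3 => [pl 0]
  | .m3 .near, 0 => [mi 1] | .m3 .near, 3 => [pl 1]
  | .m3 .even, 0 => [pl 0, mi 1] | .m3 .even, 3 => [pl 1, pl 0]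
  | .m4 .far, 1 => [mi 0] | .m4 .far, 2 => [mi 0]
  | .m4 .near, 1 => [pl 1] | .m4 .near, 2 => [mi 1]
  | .m4 .even, 1 => [pl 1, mi 0] | .m4 .even, 2 => [mi 0, mi 1]
  | .g1 .even, 0 => [pl 0, mi 1] | .g1 .even, 1 => [mi 1, mi 2] | .g1 .even, 2 => [mi 2, mi 0]
  | .g1 .far, 0 => [pl 1] | .g1 .far, 1 => [pl 1, pl 2] | .g1 .far, 2 => [mi 2]
  | .g1 .near, 0 => [mi 1] | .g1 .near, 1 => [mi 1, mi 2] | .g1 .near, 2 => [mi 2]
  | .g1 .drop, 1 => [mi 1, mi 2] | .g1 .drop, 2 => [mi 2, mi 1]
  | .g3 .even, 0 => [pl 0, mi 1] | .g3 .even, 1 => [mi 1, mi 2] | .g3 .even, 3 => [pl 2, pl 0]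
  | .g3 .far, 0 => [pl 1] | .g3 .far, 1 => [pl 1, pl 2] | .g3 .far, 3 => [pl 2]
  | .g3 .near, 0 => [mi 1] | .g3 .near, 1 => [mi 1, mi 2] | .g3 .near, 3 => [pl 2]
  | .g3 .drop, 1 => [pl 1, pl 2] | .g3 .drop, 3 => [pl 2, pl 1]
  | .g2 .even, 1 => [pl 1, mi 0] | .g2 .even, 0 => [pl 2, pl 1] | .g2 .even, 3 => [pl 0, pl 2]
  | .g2 .far, 1 => [mi 1] | .g2 .far, 0 => [mi 2, mi 1] | .g2 .far, 3 => [pl 2]
  | .g2 .near, 1 => [pl 1] | .g2 .near, 0 => [pl 2, pl 1] | .g2 .near, 3 => [pl 2]
  | .g2 .drop, 0 => [pl 2, pl 1] | .g2 .drop, 3 => [pl 1, pl 2]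
  | .g4 .even, 1 => [pl 1, mi 0] | .g4 .even, 0 => [pl 2, pl 1] | .g4 .even, 2 => [mi 0, mi 2]
  | .g4 .far, 1 => [mi 1] | .g4 .far, 0 => [mi 2, mi 1] | .g4 .far, 2 => [mi 2]
  | .g4 .near, 1 => [pl 1] | .g4 .near, 0 => [pl 2, pl 1] | .g4 .near, 2 => [mi 2]
  | .g4 .drop, 0 => [mi 1, mi 2] | .g4 .drop, 2 => [mi 2, mi 1]
  | _, _ => []

/-- the visible words of the main use -/
theorem Mn.red_loc (M : Mn) (k : Fin 4) : red (M.loc.cw k) = M.vis k := by
  rcases M with _ | s | s | s | s | s | s | s | s
  · revert k; decide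
  all_goals cases s <;> revert k <;> decide

/-- A link over the gate `(2,3)`: `2` in `E`, `3` in `O`; only together with `m1`, `m3`, `g3 far`,
`g3 drop` (box in the class `E`) or nothing. -/
def okGM : Mn → Bool
  | .non => true | .m1 _ => true | .m3 _ => true | .g3 .far => true | .g3 .drop => true
  | .g1 .far => true | _ => false

/-- A link over the gate `(4,1)`: `4` in `E`, `1` in `O`. -/
def okGA : Mn → Bool
  | .non => true | .m2 _ => true | .m4 _ => true | .g4 .far => true | .g4 .drop => true
  | .g2 .far => true | _ => false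

/-- visible words of the link over the gate `(2,3)` -/
def visGM (g : M9) : Fin 4 → Wd
  | 1 => (if g.R then [pl 11] else []) ++ g.D 10
  | 2 => (g.D 10).reverse ++ (if g.R then [mi 11] else [])
  | _ => []

/-- visible words of the link over the gate `(4,1)` -/
def visGA (g : M9) : Fin 4 → Wd
  | 3 => (if g.R then [pl 21] else []) ++ g.D 20
  | 0 => (g.D 20).reverse ++ (if g.R then [mi 21] else [])
  | _ => []

/-- **Visible words at a bad tripod with a link over the gate `(2,3)`**: the tokens of the gate link
stand behind the others at the corner `2` and before the others at the corner `3`. -/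
theorem red_gm (M : Mn) (gm : M9) (k : Fin 4) (h : okGM M = true) :
    red ((loc4 M.mode M gm none).cw k) =
      if k = 2 then visGM gm k ++ M.vis k else M.vis k ++ visGM gm k := by
  revert h
  rcases gm with _ | ⟨a, s'⟩
  · rcases M with _ | s | s | s | s | s | s | s | s
    · revert k; decide
    all_goals cases s <;> revert k <;> decide
  · rcases M with _ | s | s | s | s | s | s | s | s
    · cases s' <;> cases a <;> revert k <;> decide
    all_goals cases s <;> cases s' <;> cases a <;> revert k <;> decide

/-- **Visible words at a bad tripod with a link over the gate `(4,1)`**: the tokens of the gate link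
stand behind the others at the corner `4` and before the others at the corner `1`. -/
theorem red_ga (M : Mn) (ga : M9) (k : Fin 4) (h : okGA M = true) :
    red ((loc4 M.mode M none ga).cw k) =
      if k = 0 then visGA ga k ++ M.vis k else M.vis k ++ visGA ga k := by
  revert h
  rcases ga with _ | ⟨a, s'⟩
  · rcases M with _ | s | s | s | s | s | s | s | s
    · revert k; decide
    all_goals cases s <;> revert k <;> decide
  · rcases M with _ | s | s | s | s | s | s | s | s
    · cases s' <;> cases a <;> revert k <;> decide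
    all_goals cases s <;> cases s' <;> cases a <;> revert k <;> decide

/-- both gates -/
theorem red_both (m : Bool) (gm ga : M9) (k : Fin 4) :
    red ((loc4 m .non gm ga).cw k) = visGM gm k ++ visGA ga k := by
  rcases gm with _ | ⟨a, s⟩ <;> rcases ga with _ | ⟨a', s'⟩
  · cases m <;> revert k <;> decide
  · cases m <;> cases s' <;> cases a' <;> revert k <;> decide
  · cases m <;> cases s <;> cases a <;> revert k <;> decide
  · cases m <;> cases s <;> cases a <;> cases s' <;> cases a' <;> revert k <;> decide

end Pool.Agent.MP42.GZ
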