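import Pool.Agent.MP42.O3.Def
import Pool.Agent.MP42.GZ.Tab

/-!
# The types of the lanes at the vertices (owner helper28)

Types: `true` = `z`, `false` = `x`; signs: `true` = `+`.  A relation `Rel` of a crossing says which
types are allowed before and after the edge (in the order of the corners).  `relS k p s`: static
relation of a crossing of sign `s` over the edge of kind `k` whose end at this vertex is `p`
(the unit next to the vertex; real unit for the kind `R`); `relD k p s`: relation of the `D` lane of
a link over the edge (union of the allowed units).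

`Sy` = crossings at a vertex and the words of the corners; a token is a pair (number of the
crossing, side), side `false` = at the corner before the edge.  `LTy` = local conditions on the
types as in `TkE`.
-/

set_option autoImplicit false

namespace Pool.Agent.MP42.GZ

open Pool.Agent.MP42.O3 (EK Lab)

/-- relation of a crossing: types before and after the edge -/
abbrev Rel := Bool → Bool → Bool

/-- a real unit -/
def rK : Rel := fun a b => a == b
/-- the type changes -/
def rF : Rel := fun a b => a != b
/-- a gate which leaves the vertex -/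
def rO : Rel := fun a b => !a && b
/-- a gate which enters the vertex -/
def rI : Rel := fun a b => a && !b
/-- a `ZZ` unit -/
def rZ (s : Bool) : Rel := fun a b => if s then a == b else !a && !b
/-- an `XX` unit -/
def rX (s : Bool) : Rel := fun a b => if s then a && b else a == b

/-- static relation -/
def relS : EK → O3.Pos → Bool → Rel
  | .R, _, _ => rK
  | .z, _, s => rZ s
  | .x, _, s => rX s
  | .a, .z, s => rZ s
  | .b, .x, s => rX s
  | _, .h, _ => rI
  | _, _, _ => rO

/-- relation of the lane of a link over the edge -/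
def relD : EK → O3.Pos → Bool → Rel
  | .R, _, _ => rK
  | .G, _, _ => rF
  | .z, _, s => rZ s
  | .x, _, s => rX s
  | .a, _, true => rK
  | .a, .z, false => fun _ b => !b
  | .b, _, false => rK
  | .b, .x, true => fun a _ => a
  | _, .h, _ => rI
  | _, _, _ => rO

/-- which kinds of edges may end at this end -/
def okp : EK → O3.Pos → Bool
  | .R, _ => true
  | .G, .t => true
  | .T, .t => true | .T, .h => true
  | .a, .t => true | .a, .z => true
  | .b, .t => true | .b, .x => true
  | .z, .z => true
  | .x, .x => true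
  | .P, .t => true
  | _, _ => false

theorem okp_of (k : EK) (p q : O3.Pos) (h : k.ok p q = true) : okp k p = true := by
  cases k <;> cases p <;> cases q <;> first | rfl | exact absurd h (by decide)

/-- a crossing: sign, name of the lane, relation, corner before, corner after -/
structure Cr where
  s : Bool
  nm : ℕ
  r : Rel
  cb : ℕ
  ca : ℕ

/-- a token: number of the crossing and side -/
abbrev Tk := ℕ × Bool

/-- crossings and words of the corners -/
structure Sy where
  cr : List Cr
  W : List (List Tk)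

namespace Sy

variable (S : Sy)

/-- the crossing with the number `c` -/
def c (c : ℕ) : Cr := S.cr.getD c ⟨true, 0, rK, 0, 0⟩

/-- sign of a token -/
def sg (t : Tk) : Bool := (S.c t.1).s

/-- corner of a token -/
def co (t : Tk) : ℕ := if t.2 then (S.c t.1).ca else (S.c t.1).cb

/-- relation as seen from the token -/
def rl (t : Tk) (a b : Bool) : Bool := if t.2 then (S.c t.1).r b a else (S.c t.1).r a b

/-- the other side -/
def ot (t : Tk) : Tk := (t.1, !t.2)

/-- the tokens -/
def toks : List Tk := (List.range S.cr.length).flatMap fun c => [(c, false), (c, true)]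

/-- the neighbour of the push `u` in a word, if it is a pop -/
def nxt (u : Tk) : List Tk → Option Tk
  | a :: b :: w => if a = u then (if S.sg u = false ∧ S.sg b = true then some b else none)
      else nxt u (b :: w)
  | _ => none

/-- the neighbour of the pop `u` in a word, if it is a push -/
def prv (u : Tk) : List Tk → Option Tk
  | a :: b :: w => if b = u then (if S.sg u = true ∧ S.sg a = false then some a else none)
      else prv u (b :: w)
  | _ => none

/-- the other end of the short strand -/
def nb (u : Tk) : Option Tk :=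
  if S.sg u then prv S u (S.W.getD (S.co u) []) else nxt S u (S.W.getD (S.co u) [])

/-- does the token determine the type of its strand? `cl` = classes of the corners (`true` = `E`),
`sw` = exchanged tokens -/
def dt (cl : ℕ → Bool) (sw : List Tk) (t : Tk) : Bool :=
  (S.sg t == cl (S.co t)) != sw.contains t

/-- a set of types -/
abbrev Ts := Bool × Bool

/-- membership -/
def Ts.m (P : Ts) (a : Bool) : Bool := if a then P.2 else P.1

/-- types at a source; `ch` = choice of the type before the edge -/
def src (ch : ℕ → Bool) (t : Tk) : Bool :=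
  if t.2 then !((S.c t.1).r (ch t.1) false) else ch t.1

/-- the allowed types -/
def ev (cl : ℕ → Bool) (sw : List Tk) (ch : ℕ → Bool) : ℕ → Tk → Ts
  | 0, _ => (true, true)
  | f + 1, t =>
    if S.dt cl sw t then
      (if S.dt cl sw (ot t) then (!(S.src ch t), S.src ch t)
      else
        let P := ev cl sw ch f (ot t)
        ((P.1 && S.rl t false false) || (P.2 && S.rl t false true),
          (P.1 && S.rl t true false) || (P.2 && S.rl t true true)))
    else match S.nb t with
      | some u => ev cl sw ch f u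
      | none => (true, true)

/-- the local conditions, as a computation -/
def good (cl : ℕ → Bool) (sw : List Tk) (P : Tk → Ts) (a0 : Tk → Bool) (th : List (ℕ × ℕ)) :
    Bool :=
  (S.toks.all fun t =>
    (S.dt cl sw t || S.dt cl sw (ot t)) &&
    ((P t).1 || (P t).2) &&
    (!(S.dt cl sw t && S.dt cl sw (ot t)) || (S.rl t (a0 t) (a0 (ot t)) && Ts.m (P t) (a0 t))) &&
    (!(S.dt cl sw t && !(S.dt cl sw (ot t))) ||
      ((!(P (ot t)).1 || ((P t).1 && S.rl t false false) || ((P t).2 && S.rl t true false)) &&
      (!(P (ot t)).2 || ((P t).1 && S.rl t false true) || ((P t).2 && S.rl t true true)))) &&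
    (S.dt cl sw t || ((P t).1 && (P t).2) || match S.nb t with
      | some u => (!(P u).1 || (P t).1) && (!(P u).2 || (P t).2)
      | none => false)) &&
  (sw.all fun t => match S.nb t with
    | some u => sw.contains u
    | none => false) &&
  th.all fun p => !((P (p.1, false)).2 && (P (p.2, false)).1) &&
    !((P (p.2, true)).2 && (P (p.1, true)).1)

/-- the pairs (push, pop) of neighbours -/
def prs : List (List Tk) := S.toks.filterMap fun t =>
  if S.sg t then none else (S.nb t).map fun u => [t, u]

/-- search for a choice -/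
def srch (cl : ℕ → Bool) (th : List (ℕ × ℕ)) (l : List (ℕ → Bool)) : Bool :=
  ([] :: S.prs).any fun sw => l.any fun ch => S.good cl sw (S.ev cl sw ch 8) (S.src ch) th

end Sy

/-! ## The local conditions -/

namespace Sy

variable (S : Sy)

/-- the push `u` and the pop `t` are neighbours at a corner -/
def Adj (u t : Tk) : Prop :=
  S.sg u = false ∧ S.sg t = true ∧ ∃ k l₁ l₂, S.W.getD k [] = l₁ ++ u :: t :: l₂

/-- the token determines the type of its strand -/
def Dt (cl : ℕ → Bool) (sw : Tk → Prop) (t : Tk) : Prop := (S.sg t = cl (S.co t)) ↔ ¬ sw t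

/-- **local conditions on the types**: `cl` = classes of the corners, `th` = pairs of thin
crossings, `sw` = exchanged tokens, `Pos` = allowed types, `a0` = types of the sources -/
structure LTy (cl : ℕ → Bool) (th : List (ℕ × ℕ)) (sw : Tk → Prop) (Pos : Tk → Bool → Prop)
    (a0 : Tk → Bool) : Prop where
  nosink : ∀ t ∈ S.toks, S.Dt cl sw t ∨ S.Dt cl sw (ot t)
  src : ∀ t ∈ S.toks, S.Dt cl sw t → S.Dt cl sw (ot t) →
    S.rl t (a0 t) (a0 (ot t)) = true ∧ Pos t (a0 t)
  flow : ∀ t ∈ S.toks, S.Dt cl sw t → ¬ S.Dt cl sw (ot t) → ∀ b, Pos (ot t) b →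
    ∃ a, Pos t a ∧ S.rl t a b = true
  strand : ∀ t ∈ S.toks, ¬ S.Dt cl sw t → (∀ a, Pos t a) ∨
    ∃ u, (S.Adj u t ∨ S.Adj t u) ∧ ∀ a, Pos u a → Pos t a
  swp : ∀ t, sw t → ∃ u, (S.Adj u t ∨ S.Adj t u) ∧ sw u
  pos : ∀ t ∈ S.toks, ∃ a, Pos t a
  mono : ∀ p ∈ th, ∀ a b, Pos (p.1, false) a → Pos (p.2, false) b → a = true → b = true
  mono' : ∀ p ∈ th, ∀ a b, Pos (p.2, true) a → Pos (p.1, true) b → a = true → b = true

variable {S}

lemma nxt_spec {u b : Tk} {w : List Tk} (h : S.nxt u w = some b) :
    ∃ l₁ l₂, w = l₁ ++ u :: b :: l₂ ∧ S.sg u = false ∧ S.sg b = true := by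
  induction w with
  | nil => simp [nxt] at h
  | cons a w ih =>
    cases w with
    | nil => simp [nxt] at h
    | cons b' w =>
      unfold nxt at h
      split_ifs at h with h1 h2
      · simp only [Option.some.injEq] at h
        subst h1 h
        exact ⟨[], w, rfl, h2.1, h2.2⟩
      · obtain ⟨l₁, l₂, h3, h4⟩ := ih h
        exact ⟨a :: l₁, l₂, by rw [h3]; rfl, h4⟩

lemma prv_spec {u b : Tk} {w : List Tk} (h : S.prv u w = some b) :
    ∃ l₁ l₂, w = l₁ ++ b :: u :: l₂ ∧ S.sg b = false ∧ S.sg u = true := by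
  induction w with
  | nil => simp [prv] at h
  | cons a w ih =>
    cases w with
    | nil => simp [prv] at h
    | cons b' w =>
      unfold prv at h
      split_ifs at h with h1 h2
      · simp only [Option.some.injEq] at h
        subst h1 h
        exact ⟨[], w, rfl, h2.2, h2.1⟩
      · obtain ⟨l₁, l₂, h3, h4⟩ := ih h
        exact ⟨a :: l₁, l₂, by rw [h3]; rfl, h4⟩

lemma nb_spec {u b : Tk} (h : S.nb u = some b) : S.Adj b u ∨ S.Adj u b := by
  unfold nb at h
  split_ifs at h with h1
  · obtain ⟨l₁, l₂, h2, h3, h4⟩ := prv_spec h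
    exact Or.inl ⟨h3, h4, _, l₁, l₂, h2⟩
  · obtain ⟨l₁, l₂, h2, h3, h4⟩ := nxt_spec h
    exact Or.inr ⟨h3, h4, _, l₁, l₂, h2⟩

lemma dt_spec {cl : ℕ → Bool} {sw : List Tk} {t : Tk} :
    S.dt cl sw t = true ↔ S.Dt cl (fun t => t ∈ sw) t := by
  unfold dt Dt
  by_cases h1 : t ∈ sw <;> by_cases h2 : S.sg t = cl (S.co t) <;> simp [h1, h2]

/-- **the check is correct** -/
theorem good_spec {cl : ℕ → Bool} {sw : List Tk} {P : Tk → Ts} {a0 : Tk → Bool}
    {th : List (ℕ × ℕ)} (h : S.good cl sw P a0 th = true) :
    S.LTy cl th (fun t => t ∈ sw) (fun t a => Ts.m (P t) a = true) a0 := by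
  unfold good at h
  simp only [Bool.and_eq_true, List.all_eq_true] at h
  obtain ⟨⟨h1, h2⟩, h3⟩ := h
  have key : ∀ (x : Ts) (a : Bool), Ts.m x a = true ↔ (a = true ∧ x.2 = true) ∨
      (a = false ∧ x.1 = true) := by
    rintro ⟨x, y⟩ a
    cases a <;> simp [Ts.m]
  refine ⟨?_, ?_, ?_, ?_, ?_, ?_, ?_, ?_⟩
  · intro t ht
    have h4 := (h1 t ht).1.1.1.1
    rw [← dt_spec, ← dt_spec]
    simpa using h4
  · intro t ht h5 h6
    have h4 := (h1 t ht).1.1.2
    rw [← dt_spec] at h5 h6
    rw [h5, h6] at h4
    simpa using h4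
  · intro t ht h5 h6 b hb
    have h4 := (h1 t ht).1.2
    rw [← dt_spec] at h5
    have h6' : S.dt cl sw (ot t) = false := by
      rw [← dt_spec] at h6
      simpa using h6
    rw [h5, h6'] at h4
    rw [key] at hb
    have h7 : ((!(P (ot t)).1 || ((P t).1 && S.rl t false false) ||
      ((P t).2 && S.rl t true false)) = true) ∧ ((!(P (ot t)).2 || ((P t).1 && S.rl t false true) ||
        ((P t).2 && S.rl t true true)) = true) := by
      simpa using h4
    rcases hb with ⟨rfl, hb⟩ | ⟨rfl, hb⟩
    · have h8 := h7.2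
      rw [hb] at h8
      simp only [Bool.not_true, Bool.false_or, Bool.or_eq_true, Bool.and_eq_true] at h8
      rcases h8 with h8 | h8
      · exact ⟨false, (key _ _).2 (Or.inr ⟨rfl, h8.1⟩), h8.2⟩
      · exact ⟨true, (key _ _).2 (Or.inl ⟨rfl, h8.1⟩), h8.2⟩
    · have h8 := h7.1
      rw [hb] at h8
      simp only [Bool.not_true, Bool.false_or, Bool.or_eq_true, Bool.and_eq_true] at h8
      rcases h8 with h8 | h8
      · exact ⟨false, (key _ _).2 (Or.inr ⟨rfl, h8.1⟩), h8.2⟩
      · exact ⟨true, (key _ _).2 (Or.inl ⟨rfl, h8.1⟩), h8.2⟩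
  · intro t ht h5
    have h4 := (h1 t ht).2
    have h5' : S.dt cl sw t = false := by
      rw [← dt_spec] at h5
      simpa using h5
    rw [h5', Bool.false_or, Bool.or_eq_true, Bool.and_eq_true] at h4
    rcases h4 with h4 | h4
    · left
      intro a
      rw [key]
      cases a
      · exact Or.inr ⟨rfl, h4.1⟩
      · exact Or.inl ⟨rfl, h4.2⟩
    · right
      rcases hn : S.nb t with _ | u
      · rw [hn] at h4
        exact absurd h4 (by simp)
      · rw [hn] at h4
        refine ⟨u, nb_spec hn, ?_⟩
        intro a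
        rw [key, key]
        simp only [Bool.and_eq_true, Bool.or_eq_true, Bool.not_eq_true'] at h4
        rintro (⟨ha, h6⟩ | ⟨ha, h6⟩)
        · rcases h4.2 with h7 | h7
          · rw [h7] at h6; exact absurd h6 (by simp)
          · exact Or.inl ⟨ha, h7⟩
        · rcases h4.1 with h7 | h7
          · rw [h7] at h6; exact absurd h6 (by simp)
          · exact Or.inr ⟨ha, h7⟩
  · intro t ht
    have h4 := h2 t ht
    rcases hn : S.nb t with _ | u
    · rw [hn] at h4
      exact absurd h4 (by simp)
    · rw [hn] at h4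
      exact ⟨u, nb_spec hn, by simpa using h4⟩
  · intro t ht
    have h4 := (h1 t ht).1.1.1.2
    rw [Bool.or_eq_true] at h4
    rcases h4 with h4 | h4
    · exact ⟨false, (key _ _).2 (Or.inr ⟨rfl, h4⟩)⟩
    · exact ⟨true, (key _ _).2 (Or.inl ⟨rfl, h4⟩)⟩
  · intro p hp a b ha hb h5
    have h4 := (h3 p hp).1
    subst h5
    cases b
    · rw [key] at ha hb
      simp only [Bool.not_eq_true', Bool.and_eq_false_iff] at h4
      simp only [true_and, Bool.true_eq_false, false_and, or_false] at ha
      simp only [Bool.false_eq_true, false_and, true_and, false_or] at hb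
      rw [ha, hb] at h4
      exact absurd h4 (by simp)
    · rfl
  · intro p hp a b ha hb h5
    have h4 := (h3 p hp).2
    subst h5
    cases b
    · rw [key] at ha hb
      simp only [Bool.not_eq_true', Bool.and_eq_false_iff] at h4
      simp only [true_and, Bool.true_eq_false, false_and, or_false] at ha
      simp only [Bool.false_eq_true, false_and, true_and, false_or] at hb
      rw [ha, hb] at h4
      exact absurd h4 (by simp)
    · rfl

/-- **the search is correct** -/
theorem srch_spec {cl : ℕ → Bool} {th : List (ℕ × ℕ)} {l : List (ℕ → Bool)}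
    (h : S.srch cl th l = true) : ∃ sw Pos a0, S.LTy cl th sw Pos a0 := by
  unfold srch at h
  obtain ⟨sw, -, h1⟩ := List.any_eq_true.1 h
  obtain ⟨ch, -, h2⟩ := List.any_eq_true.1 h1
  exact ⟨_, _, _, good_spec h2⟩

end Sy

/-- numbered crossings -/
def mkc (cb ca : ℕ) (R : ℕ → Bool → Rel) (w : Wd) : List Cr :=
  w.map fun q => ⟨q.1, q.2, R q.2 q.1, cb, ca⟩

/-- numbers `n, .., n + l - 1` on the side `s` -/
def nrs (n l : ℕ) (s : Bool) : List Tk := (List.range l).map fun j => (n + j, s)

/-- a vertex of valence three -/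
def sy3 (l : Loc3) (R0 R1 R2 : ℕ → Bool → Rel) : Sy where
  cr := mkc 0 1 R0 l.ep ++ mkc 1 2 R1 l.es ++ mkc 2 0 R2 l.et
  W :=
    let a := l.ep.length
    let b := l.es.length
    let c := l.et.length
    [(nrs (a + b) c true).reverse ++ nrs 0 a false,
      (nrs 0 a true).reverse ++ nrs a b false,
      (nrs a b true).reverse ++ nrs (a + b) c false]

/-- a bad tripod -/
def sy4 (l : Loc4) (R0 R1 R2 R3 : ℕ → Bool → Rel) : Sy where
  cr := mkc 0 1 R0 l.e1 ++ mkc 1 2 R1 l.e2 ++ mkc 2 3 R2 l.e3 ++ mkc 3 0 R3 l.e4 ++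
    mkc 0 2 (fun _ _ => rF) l.t1 ++ mkc 1 3 (fun _ _ => rF) l.t2
  W :=
    let a := l.e1.length
    let b := a + l.e2.length
    let c := b + l.e3.length
    let d := c + l.e4.length
    let e := d + l.t1.length
    [(nrs c l.e4.length true).reverse ++ nrs d l.t1.length false ++ nrs 0 a false,
      (nrs 0 a true).reverse ++ nrs e l.t2.length false ++ nrs a l.e2.length false,
      (nrs a l.e2.length true).reverse ++ (nrs d l.t1.length true).reverse ++
        nrs b l.e3.length false,
      (nrs b l.e3.length true).reverse ++ (nrs e l.t2.length true).reverse ++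
        nrs c l.e4.length false]

/-- pairs `i < j` of thin crossings -/
def thp (l : Loc4) : List (ℕ × ℕ) :=
  let d := l.e1.length + l.e2.length + l.e3.length + l.e4.length
  let e := d + l.t1.length
  let f (n m : ℕ) : List (ℕ × ℕ) := (List.range m).flatMap fun j =>
    (List.range j).map fun i => (n + i, n + j)
  f d l.t1.length ++ f e l.t2.length

/-- all choices on the numbers `< n` -/
def chs : ℕ → List (ℕ → Bool)
  | 0 => [fun _ => false]
  | n + 1 => (chs n).flatMap fun f => [f, fun k => if k = n then true else f k]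

/-- all kinds -/
def allK : List EK := [.R, .G, .T, .a, .b, .z, .x, .P]

/-- all states -/
def allS : List LS := [.drop, .far, .near, .even, .nn]

/-- minus links -/
def mk (k : EK) (p : O3.Pos) : Bool :=
  match k, p with
  | .R, _ => true | .G, _ => true | .x, _ => true | .b, _ => true | .a, .z => true | _, _ => false

/-- plus links -/
def pk (k : EK) (p : O3.Pos) : Bool :=
  match k, p with
  | .R, _ => true | .G, _ => true | .z, _ => true | .a, _ => true | .b, .x => true | _, _ => false

/-- relations at the edge of a link -/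
def Rl (k : EK) (p : O3.Pos) (n : ℕ) (s : Bool) : Rel := if n = 1 then relS k p s else relD k p s

/-- the system of an `E`-`O` link; `L` = name of the corner before the edge of the link, `k0, k1, k2`
the kinds of the edges behind the corners `0, 1, 2` -/
def sEO (L : Lab) (k0 k1 k2 : EK) (a : Bool) (st : LS) : Sy :=
  sy3 (eo3 a st) (Rl k0 L.nx.pos) (Rl k1 L.nx.nx.pos) (Rl k2 L.pos)

/-- is the link allowed? -/
def legEO (L : Lab) (k0 k1 k2 : EK) (a : Bool) (st : LS) : Bool :=
  !L.isB && okp k0 L.nx.pos && okp k1 L.nx.nx.pos && okp k2 L.pos &&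
    (if a then mk k0 L.nx.pos else pk k0 L.nx.pos) &&
    (L != .YG || k1 == .R || k2 == .R) && (st != .nn || k0 == .R)

/-- classes of the corners of an `E`-`O` link -/
def clEO (c : Bool) (n : ℕ) : Bool := if n = 0 then true else if n = 1 then false else c

/-- names at the vertices of valence three -/
def allL3 : List Lab := [.TX, .TM, .TZ, .XU, .XL, .XA, .ZA, .ZL, .ZU, .YF, .YT, .YG, .Vb, .Vc, .Va,
  .Wb, .Wc, .Wa]

/-- the kinds with the end `p` -/
def kof (p : O3.Pos) : List EK := allK.filter fun k => okp k p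

/-- the system of the completing link at `K_y`: `a = false`: over the edge between `F` and `T`,
child `F`, both in `E`; `a = true`: over the edge between `T` and `G`, child `G`, both in `O` -/
def sKY (k0 k1 k2 : EK) (a : Bool) (st : LS) : Sy :=
  let L : Lab := if a then .YT else .YF
  sy3 (ky3 a st) (Rl k0 L.nx.pos) (Rl k1 L.nx.nx.pos) (Rl k2 L.pos)

/-- classes of the corners -/
def clKY (a c : Bool) (n : ℕ) : Bool := if n = 2 then c else !a

/-! ## Bad tripods -/

/-- relations at a gate -/
def RB (k : EK) (n : ℕ) (s : Bool) : Rel :=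
  if n = 10 ∨ n = 12 ∨ n = 20 ∨ n = 22 then relD k .t s else relS k .t s

/-- the system at a bad tripod; `km`, `ka` = kinds of the edges over the gates `(2,3)`, `(4,1)` -/
def sB (km ka : EK) (l : Loc4) : Sy := sy4 l (fun _ _ => rK) (RB km) (fun _ _ => rK) (RB ka)

/-- is the link over the gate allowed? -/
def legG (k : EK) : M9 → Bool
  | none => true
  | some (a, st) => (if a then mk k .t else pk k .t) && (st != .nn || k == .R)

/-- classes of the corners `1, 2, 3, 4` in the main use -/
def clM : Mn → Bool → Bool → Bool → Bool → Bool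
  | .non, _, _, _, _ => true
  | .m1 _, c1, _, c3, _ => c1 && !c3
  | .m2 _, _, c2, _, c4 => !c2 && c4
  | .m3 _, c1, _, _, c4 => c1 && c4
  | .m4 _, _, c2, c3, _ => !c2 && !c3
  | .g1 s, c1, c2, c3, _ => c1 && !c3 && (c2 == (s == .far))
  | .g3 s, c1, c2, _, c4 => c1 && c4 && (c2 == (s == .far || s == .drop))
  | .g2 s, c1, c2, _, c4 => !c2 && c4 && (c1 == !(s == .far))
  | .g4 s, c1, c2, c3, _ => !c2 && !c3 && (c1 == !(s == .far || s == .drop))

/-- is the state allowed? `m` = mode -/
def legB (m : Bool) (M : Mn) (gm ga : M9) (km ka : EK) (c1 c2 c3 c4 : Bool) : Bool :=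
  okp km .t && okp ka .t && legG km gm && legG ka ga && clM M c1 c2 c3 c4 &&
    (M == .non || m == M.mode) &&
    (gm.isNone || (okGM M && c2 && !c3)) && (ga.isNone || (okGA M && c4 && !c1)) &&
    (M == .non || gm.isNone || ga.isNone)

/-- classes as a function -/
def cl4 (c1 c2 c3 c4 : Bool) (n : ℕ) : Bool :=
  if n = 0 then c1 else if n = 1 then c2 else if n = 2 then c3 else c4

/-- all main uses -/
def allM : List Mn := .non :: allS.flatMap fun s =>
  [.m1 s, .m2 s, .m3 s, .m4 s, .g1 s, .g2 s, .g3 s, .g4 s]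

/-- all links over a gate -/
def allG : List M9 := none :: allS.flatMap fun s => [some (true, s), some (false, s)]

/-- all Booleans -/
def bb : List Bool := [true, false]

/-! ## The words -/

lemma getD_mid {α : Type*} (A Bl C : List α) (d : α) {j : ℕ} (h : j < Bl.length) :
    (A ++ Bl ++ C).getD (A.length + j) d = Bl[j] := by
  rw [List.getD_eq_getElem?_getD, List.append_assoc, List.getElem?_append_right (by omega),
    List.getElem?_append_left (by omega)]
  simp [h]

/-- the crossings with the numbers of a block -/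
lemma map_nrs {β : Type*} (A Bl C : List Cr) (s : Bool) (f : Cr → β) :
    (nrs A.length Bl.length s).map (fun t => f ((A ++ Bl ++ C).getD t.1 ⟨true, 0, rK, 0, 0⟩)) =
      Bl.map f := by
  unfold nrs
  rw [List.map_map]
  apply List.ext_getElem
  · simp
  · intro j h1 h2
    simp only [List.length_map, List.length_range] at h1 h2
    simp only [List.getElem_map, List.getElem_range, Function.comp_apply]
    rw [getD_mid A Bl C _ h2]

/-- sign and lane of a token -/
def Sy.sn (S : Sy) (t : Tk) : Bool × ℕ := (S.sg t, (S.c t.1).nm)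

lemma mkc_sn (cb ca : ℕ) (R : ℕ → Bool → Rel) (w : Wd) :
    (mkc cb ca R w).map (fun c => (c.s, c.nm)) = w := by
  unfold mkc
  rw [List.map_map]
  exact List.map_id w

lemma mkc_length (cb ca : ℕ) (R : ℕ → Bool → Rel) (w : Wd) : (mkc cb ca R w).length = w.length := by
  simp [mkc]

/-- **the words of a vertex of valence three** -/
theorem sy3_cw (l : Loc3) (R0 R1 R2 : ℕ → Bool → Rel) (k : Fin 3) :
    ((sy3 l R0 R1 R2).W.getD k []).map (sy3 l R0 R1 R2).sn = l.cw k := by
  have h0 : ∀ s, (nrs 0 l.ep.length s).map (sy3 l R0 R1 R2).sn = l.ep := by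
    intro s
    have h := map_nrs [] (mkc 0 1 R0 l.ep) (mkc 1 2 R1 l.es ++ mkc 2 0 R2 l.et) s
      (fun c => (c.s, c.nm))
    rw [mkc_sn, mkc_length] at h
    refine Eq.trans ?_ h
    refine List.map_congr_left fun t _ => ?_
    simp [Sy.sn, Sy.sg, Sy.c, sy3]
  have h1 : ∀ s, (nrs l.ep.length l.es.length s).map (sy3 l R0 R1 R2).sn = l.es := by
    intro s
    have h := map_nrs (mkc 0 1 R0 l.ep) (mkc 1 2 R1 l.es) (mkc 2 0 R2 l.et) s
      (fun c => (c.s, c.nm))
    rw [mkc_sn, mkc_length, mkc_length] at h
    refine Eq.trans ?_ h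
    refine List.map_congr_left fun t _ => ?_
    simp [Sy.sn, Sy.sg, Sy.c, sy3]
  have h2 : ∀ s, (nrs (l.ep.length + l.es.length) l.et.length s).map (sy3 l R0 R1 R2).sn =
      l.et := by
    intro s
    have h := map_nrs (mkc 0 1 R0 l.ep ++ mkc 1 2 R1 l.es) (mkc 2 0 R2 l.et) [] s
      (fun c => (c.s, c.nm))
    rw [mkc_sn, mkc_length, List.length_append, mkc_length, mkc_length] at h
    refine Eq.trans ?_ h
    refine List.map_congr_left fun t _ => ?_
    simp [Sy.sn, Sy.sg, Sy.c, sy3]
  fin_cases k
  · show ((nrs (l.ep.length + l.es.length) l.et.length true).reverse ++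
      nrs 0 l.ep.length false).map (sy3 l R0 R1 R2).sn = l.et.reverse ++ l.ep
    rw [List.map_append, List.map_reverse, h0, h2]
  · show ((nrs 0 l.ep.length true).reverse ++ nrs l.ep.length l.es.length false).map
      (sy3 l R0 R1 R2).sn = l.ep.reverse ++ l.es
    rw [List.map_append, List.map_reverse, h0, h1]
  · show ((nrs l.ep.length l.es.length true).reverse ++
      nrs (l.ep.length + l.es.length) l.et.length false).map (sy3 l R0 R1 R2).sn =
        l.es.reverse ++ l.et
    rw [List.map_append, List.map_reverse, h1, h2]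

/-- **the words of a bad tripod** -/
theorem sy4_cw (l : Loc4) (R0 R1 R2 R3 : ℕ → Bool → Rel) (k : Fin 4) :
    ((sy4 l R0 R1 R2 R3).W.getD k []).map (sy4 l R0 R1 R2 R3).sn = l.cw k := by
  have e0 : ∀ s, (nrs 0 l.e1.length s).map (sy4 l R0 R1 R2 R3).sn = l.e1 := by
    intro s
    have h := map_nrs [] (mkc 0 1 R0 l.e1) (mkc 1 2 R1 l.e2 ++ mkc 2 3 R2 l.e3 ++ mkc 3 0 R3 l.e4 ++
      mkc 0 2 (fun _ _ => rF) l.t1 ++ mkc 1 3 (fun _ _ => rF) l.t2) s (fun c => (c.s, c.nm))
    rw [mkc_sn, mkc_length] at h
    refine Eq.trans ?_ h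
    refine List.map_congr_left fun t _ => ?_
    simp [Sy.sn, Sy.sg, Sy.c, sy4]
  have e1 : ∀ s, (nrs l.e1.length l.e2.length s).map (sy4 l R0 R1 R2 R3).sn = l.e2 := by
    intro s
    have h := map_nrs (mkc 0 1 R0 l.e1) (mkc 1 2 R1 l.e2) (mkc 2 3 R2 l.e3 ++ mkc 3 0 R3 l.e4 ++
      mkc 0 2 (fun _ _ => rF) l.t1 ++ mkc 1 3 (fun _ _ => rF) l.t2) s (fun c => (c.s, c.nm))
    rw [mkc_sn, mkc_length, mkc_length] at h
    refine Eq.trans ?_ h
    refine List.map_congr_left fun t _ => ?_
    simp [Sy.sn, Sy.sg, Sy.c, sy4]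
  have e2 : ∀ s, (nrs (l.e1.length + l.e2.length) l.e3.length s).map (sy4 l R0 R1 R2 R3).sn =
      l.e3 := by
    intro s
    have h := map_nrs (mkc 0 1 R0 l.e1 ++ mkc 1 2 R1 l.e2) (mkc 2 3 R2 l.e3) (mkc 3 0 R3 l.e4 ++
      mkc 0 2 (fun _ _ => rF) l.t1 ++ mkc 1 3 (fun _ _ => rF) l.t2) s (fun c => (c.s, c.nm))
    rw [mkc_sn, mkc_length, List.length_append, mkc_length, mkc_length] at h
    refine Eq.trans ?_ h
    refine List.map_congr_left fun t _ => ?_
    simp [Sy.sn, Sy.sg, Sy.c, sy4]
  have e3 : ∀ s, (nrs (l.e1.length + l.e2.length + l.e3.length) l.e4.length s).map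
      (sy4 l R0 R1 R2 R3).sn = l.e4 := by
    intro s
    have h := map_nrs (mkc 0 1 R0 l.e1 ++ mkc 1 2 R1 l.e2 ++ mkc 2 3 R2 l.e3) (mkc 3 0 R3 l.e4)
      (mkc 0 2 (fun _ _ => rF) l.t1 ++ mkc 1 3 (fun _ _ => rF) l.t2) s (fun c => (c.s, c.nm))
    rw [mkc_sn, mkc_length, List.length_append, List.length_append, mkc_length, mkc_length,
      mkc_length] at h
    refine Eq.trans ?_ h
    refine List.map_congr_left fun t _ => ?_
    simp [Sy.sn, Sy.sg, Sy.c, sy4]
  have e4 : ∀ s, (nrs (l.e1.length + l.e2.length + l.e3.length + l.e4.length) l.t1.length s).map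
      (sy4 l R0 R1 R2 R3).sn = l.t1 := by
    intro s
    have h := map_nrs (mkc 0 1 R0 l.e1 ++ mkc 1 2 R1 l.e2 ++ mkc 2 3 R2 l.e3 ++ mkc 3 0 R3 l.e4)
      (mkc 0 2 (fun _ _ => rF) l.t1) (mkc 1 3 (fun _ _ => rF) l.t2) s (fun c => (c.s, c.nm))
    rw [mkc_sn, mkc_length, List.length_append, List.length_append, List.length_append, mkc_length,
      mkc_length, mkc_length, mkc_length] at h
    refine Eq.trans ?_ h
    refine List.map_congr_left fun t _ => ?_
    simp [Sy.sn, Sy.sg, Sy.c, sy4]
  have e5 : ∀ s, (nrs (l.e1.length + l.e2.length + l.e3.length + l.e4.length + l.t1.length)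
      l.t2.length s).map (sy4 l R0 R1 R2 R3).sn = l.t2 := by
    intro s
    have h := map_nrs (mkc 0 1 R0 l.e1 ++ mkc 1 2 R1 l.e2 ++ mkc 2 3 R2 l.e3 ++ mkc 3 0 R3 l.e4 ++
      mkc 0 2 (fun _ _ => rF) l.t1) (mkc 1 3 (fun _ _ => rF) l.t2) [] s (fun c => (c.s, c.nm))
    rw [mkc_sn, mkc_length, List.length_append, List.length_append, List.length_append,
      List.length_append, mkc_length, mkc_length, mkc_length, mkc_length, mkc_length] at h
    refine Eq.trans ?_ h
    refine List.map_congr_left fun t _ => ?_
    simp [Sy.sn, Sy.sg, Sy.c, sy4]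
  fin_cases k
  · show ((nrs (l.e1.length + l.e2.length + l.e3.length) l.e4.length true).reverse ++
      nrs (l.e1.length + l.e2.length + l.e3.length + l.e4.length) l.t1.length false ++
      nrs 0 l.e1.length false).map (sy4 l R0 R1 R2 R3).sn = l.e4.reverse ++ l.t1 ++ l.e1
    rw [List.map_append, List.map_append, List.map_reverse, e0, e3, e4]
  · show ((nrs 0 l.e1.length true).reverse ++
      nrs (l.e1.length + l.e2.length + l.e3.length + l.e4.length + l.t1.length) l.t2.length false ++
      nrs l.e1.length l.e2.length false).map (sy4 l R0 R1 R2 R3).sn = l.e1.reverse ++ l.t2 ++ l.e2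
    rw [List.map_append, List.map_append, List.map_reverse, e0, e1, e5]
  · show ((nrs l.e1.length l.e2.length true).reverse ++
      (nrs (l.e1.length + l.e2.length + l.e3.length + l.e4.length) l.t1.length true).reverse ++
      nrs (l.e1.length + l.e2.length) l.e3.length false).map (sy4 l R0 R1 R2 R3).sn =
        l.e2.reverse ++ l.t1.reverse ++ l.e3
    rw [List.map_append, List.map_append, List.map_reverse, List.map_reverse, e1, e2, e4]
  · show ((nrs (l.e1.length + l.e2.length) l.e3.length true).reverse ++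
      (nrs (l.e1.length + l.e2.length + l.e3.length + l.e4.length + l.t1.length) l.t2.length
        true).reverse ++
      nrs (l.e1.length + l.e2.length + l.e3.length) l.e4.length false).map (sy4 l R0 R1 R2 R3).sn =
        l.e3.reverse ++ l.t2.reverse ++ l.e4
    rw [List.map_append, List.map_append, List.map_reverse, List.map_reverse, e2, e3, e5]

end Pool.Agent.MP42.GZ
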