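import Pool.Agent.MP42.GZ.Typ

/-!
# The types at the vertices of valence three (owner helper28)

`eo_types`: every allowed state of an `E`-`O` link, both classes of the third corner.
`ky_types`: every state of the completing link at `K_y`, both classes of the third corner.
-/

set_option autoImplicit false

namespace Pool.Agent.MP42.GZ

open Pool.Agent.MP42.O3 (EK Lab)

theorem mem_allK (k : EK) : k ∈ allK := by cases k <;> decide

theorem mem_kof {k : EK} {p : O3.Pos} (h : okp k p = true) : k ∈ kof p :=
  List.mem_filter.2 ⟨mem_allK k, h⟩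

theorem mem_allS (s : LS) : s ∈ allS := by cases s <;> decide

theorem mem_bool (b : Bool) : b ∈ [true, false] := by cases b <;> decide

theorem mem_allL3 {L : Lab} (h : L.isB = false) : L ∈ allL3 := by
  cases L <;> first | decide | exact absurd h (by decide)

theorem tEO : (allL3.all fun L => (kof L.nx.pos).all fun k0 => (kof L.nx.nx.pos).all fun k1 =>
    (kof L.pos).all fun k2 =>
    [true, false].all fun a => allS.all fun st => !(legEO L k0 k1 k2 a st) ||
      [true, false].all fun c => (sEO L k0 k1 k2 a st).srch (clEO c) [] (chs 3)) = true := by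
  decide +kernel

/-- **types for the states of an `E`-`O` link** -/
theorem eo_types {L : Lab} {k0 k1 k2 : EK} {a : Bool} {st : LS} (c : Bool)
    (h : legEO L k0 k1 k2 a st = true) :
    ∃ sw Pos a0, (sEO L k0 k1 k2 a st).LTy (clEO c) [] sw Pos a0 := by
  have h0 := h
  unfold legEO at h0
  simp only [Bool.and_eq_true, Bool.not_eq_true'] at h0
  obtain ⟨⟨⟨⟨⟨⟨hL, h1⟩, h2⟩, h3⟩, -⟩, -⟩, -⟩ := h0
  have t := tEO
  simp only [List.all_eq_true] at t
  have t1 := t L (mem_allL3 hL) k0 (mem_kof h1) k1 (mem_kof h2) k2 (mem_kof h3) a (mem_bool a) st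
    (mem_allS st)
  rw [h, Bool.not_true, Bool.false_or, List.all_eq_true] at t1
  exact Sy.srch_spec (t1 c (mem_bool c))

theorem tKY : ([true, false].all fun a =>
    (kof (if a then Lab.YT else Lab.YF).nx.pos).all fun k0 =>
    (kof (if a then Lab.YT else Lab.YF).nx.nx.pos).all fun k1 =>
    (kof (if a then Lab.YT else Lab.YF).pos).all fun k2 =>
      allS.all fun st => [true, false].all fun c =>
        (sKY k0 k1 k2 a st).srch (clKY a c) [] (chs 3)) = true := by
  decide +kernel

/-- **types for the states of the completing link at `K_y`** -/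
theorem ky_types {k0 k1 k2 : EK} {a : Bool} (st : LS) (c : Bool)
    (h0 : okp k0 (if a then Lab.YT else Lab.YF).nx.pos = true)
    (h1 : okp k1 (if a then Lab.YT else Lab.YF).nx.nx.pos = true)
    (h2 : okp k2 (if a then Lab.YT else Lab.YF).pos = true) :
    ∃ sw Pos a0, (sKY k0 k1 k2 a st).LTy (clKY a c) [] sw Pos a0 := by
  have t := tKY
  simp only [List.all_eq_true] at t
  exact Sy.srch_spec (t a (mem_bool a) k0 (mem_kof h0) k1 (mem_kof h1) k2 (mem_kof h2) st
    (mem_allS st) c (mem_bool c))

end Pool.Agent.MP42.GZ
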