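import Pool.Agent.MP42.GZ.LyV
import Pool.Agent.MP42.GZ.Slots

/-!
# Tables of all vertex states: types, words, lanes (owner helper28)

`locS q gm ga`: the crossings at a bad tripod with the main state `q` and the links `gm`, `ga` over
the gates.  `okQ`: the possible combinations; `legQ`: legal states with classes and kinds.
`q_types`: types; `red_locS`: the words reduce to the visible words; `chk_locS`: every lane is
connected and visible, few crossings, signs of the thin crossings.
-/

set_option autoImplicit false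

namespace Pool.Agent.MP42.GZ

open Pool.Agent.MP42.O3 (EK Lab)

/-- the crossings of a main state -/
def Sq.lc : Sq → Loc4
  | .non => ⟨[], [], [], [], [], []⟩
  | .l ky a st => (if ky then ky3 a st else eo3 a st).to4
  | .b m => m.loc
  | .s x => x.loc

/-- the thin lanes join the corners `1` and `3` (`true`) or `2` and `4` (`false`) -/
def Sx.md : Sx → Bool
  | .s true 2 true => false
  | .s false 2 false => false
  | .s _ _ _ => true
  | .p P _ _ _ => !P
  | .h P i => if i = 0 then P else !P

/-- the thin lanes join the corners `1` and `3` (`true`) or `2` and `4` (`false`) -/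
def Sq.md : Sq → Bool
  | .b m => m.mode
  | .s x => x.md
  | _ => true

/-- crossings at a bad tripod -/
def locx (m : Bool) (L : Loc4) (gm ga : M9) : Loc4 where
  e1 := (if m && gm.R then [pl 11] else []) ++ (if !m && ga.R then [mi 21] else []) ++ L.e1
  e2 := gm.D 10 ++ L.e2
  e3 := (if !m && gm.R then [mi 11] else []) ++ (if m && ga.R then [pl 21] else []) ++ L.e3
  e4 := ga.D 20 ++ L.e4
  t1 := (if m && ga.R then [mi 21] else []) ++ L.t1 ++ (if m && gm.R then [mi 11] else [])
  t2 := (if !m && ga.R then [pl 21] else []) ++ L.t2 ++ (if !m && gm.R then [pl 11] else [])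

/-- crossings at a bad tripod -/
def locS (q : Sq) (gm ga : M9) : Loc4 := locx q.md q.lc gm ga

/-- classes of the corners `1, 2, 3, 4` -/
def Sx.cl : Sx → Bool → Bool → Bool → Bool → Bool
  | .s P k w, c1, c2, c3, c4 => (if P then c1 && (c2 == w) else !c2 && (c1 == w)) &&
      (k != 1 || !c3) && (k != 2 || c4)
  | .p P _ _ o, c1, c2, c3, c4 => if P then c1 && c4 && !c3 && (c2 == o) else
      !c2 && !c3 && c4 && (c1 == !o)
  | .h true 0, c1, _, c3, c4 => c1 && !c3 && c4
  | .h false 0, _, c2, c3, c4 => !c2 && c4 && !c3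
  | .h true 1, c1, c2, c3, c4 => c1 && c2 && !c3 && !c4
  | .h false 1, c1, c2, c3, c4 => !c2 && !c1 && c4 && c3
  | .h true 2, c1, c2, c3, c4 => c1 && c2 && c3 && c4
  | .h false 2, c1, c2, c3, c4 => !c1 && !c2 && !c3 && !c4

/-- classes of the corners `1, 2, 3, 4` -/
def clQ : Sq → Bool → Bool → Bool → Bool → Bool
  | .non, _, _, _, _ => true
  | .l _ _ _, _, _, _, _ => false
  | .b m, c1, c2, c3, c4 => clM m c1 c2 c3 c4
  | .s x, c1, c2, c3, c4 => x.cl c1 c2 c3 c4

/-- a link over the gate `(2, 3)` is possible -/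
def Sx.gm : Sx → Bool
  | .s P _ w => P && w
  | .p P _ _ o => P && o
  | .h P i => P && (i = 0 || i = 1)

/-- a link over the gate `(4, 1)` is possible -/
def Sx.ga : Sx → Bool
  | .s P _ w => !P && !w
  | .p P _ _ o => !P && o
  | .h P i => !P && (i = 0 || i = 1)

/-- a link over the gate `(2, 3)` is possible -/
def Sq.gm : Sq → Bool
  | .non => true
  | .l _ _ _ => false
  | .b m => okGM m
  | .s x => x.gm

/-- a link over the gate `(4, 1)` is possible -/
def Sq.ga : Sq → Bool
  | .non => true
  | .l _ _ _ => false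
  | .b m => okGA m
  | .s x => x.ga

/-- nothing -/
def Sq.isN : Sq → Bool
  | .non => true
  | .b .non => true
  | _ => false

/-- possible combinations -/
def okQ (q : Sq) (gm ga : M9) : Bool :=
  (match q with | .l _ _ _ => false | _ => true) &&
  (gm.isNone || q.gm) && (ga.isNone || q.ga) && (q.isN || gm.isNone || ga.isNone)

/-- legal states -/
def legQ (q : Sq) (gm ga : M9) (km ka : EK) (c1 c2 c3 c4 : Bool) : Bool :=
  okp km .t && okp ka .t && legG km gm && legG ka ga && clQ q c1 c2 c3 c4 &&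
    (gm.isNone || (c2 && !c3)) && (ga.isNone || (c4 && !c1))

/-- all further states -/
def allX : List Sx := (bb.flatMap fun P => bb.flatMap fun w => [.s P 0 w, .s P 1 w, .s P 2 w]) ++
  ((bb.flatMap fun P => bb.flatMap fun t => bb.flatMap fun o => allS.map fun st => .p P st t o) ++
  bb.flatMap fun P => [.h P 0, .h P 1, .h P 2])

theorem mem_allX (x : Sx) : x ∈ allX := by
  rcases x with ⟨P, k, w⟩ | ⟨P, st, t, o⟩ | ⟨P, i⟩
  · cases P <;> cases w <;> fin_cases k <;> decide
  · cases P <;> cases t <;> cases o <;> cases st <;> decide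
  · cases P <;> fin_cases i <;> decide

/-- all main states of bad tripods -/
def allQ : List Sq := .non :: (allM.map .b ++ allX.map .s)

theorem mem_allQ (q : Sq) (h : ∀ ky a st, q ≠ .l ky a st) : q ∈ allQ := by
  rcases q with _ | ⟨ky, a, st⟩ | m | x
  · exact List.mem_cons_self
  · exact absurd rfl (h ky a st)
  · exact List.mem_cons_of_mem _ (List.mem_append_left _ (List.mem_map.2 ⟨m, mem_allM m, rfl⟩))
  · exact List.mem_cons_of_mem _ (List.mem_append_right _ (List.mem_map.2 ⟨x, mem_allX x, rfl⟩))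

theorem tcl : (allQ.all fun q => bb.all fun c1 => bb.all fun c2 => bb.all fun c3 =>
    bb.all fun c4 => !(clQ q c1 c2 c3 c4) || ((!(c2 && !c3) || q.gm) && (!(c4 && !c1) || q.ga) &&
      (!(c2 && !c3 && (c4 && !c1)) || q.isN))) = true := by
  decide +kernel

/-- the legal combinations -/
theorem okQ_of {q : Sq} {gm ga : M9} {c1 c2 c3 c4 : Bool} (h : clQ q c1 c2 c3 c4 = true)
    (h1 : (gm.isNone || (c2 && !c3)) = true) (h2 : (ga.isNone || (c4 && !c1)) = true) :
    okQ q gm ga = true := by
  have hq : ∀ ky a st, q ≠ .l ky a st := by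
    rintro ky a st rfl
    exact absurd h (by simp [clQ])
  have t := tcl
  simp only [List.all_eq_true] at t
  have t1 := t q (mem_allQ q hq) c1 (mem_bb _) c2 (mem_bb _) c3 (mem_bb _) c4 (mem_bb _)
  rw [h, Bool.not_true, Bool.false_or] at t1
  simp only [Bool.and_eq_true, Bool.or_eq_true, Bool.not_eq_true'] at t1 h1 h2
  unfold okQ
  simp only [Bool.and_eq_true, Bool.or_eq_true]
  obtain ⟨⟨t1, t2⟩, t3⟩ := t1
  refine ⟨⟨⟨?_, ?_⟩, ?_⟩, ?_⟩
  · rcases q with _ | ⟨ky, a, st⟩ | m | x
    · trivial
    · exact absurd rfl (hq ky a st)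
    · trivial
    · trivial
  · rcases h1 with h1 | h1
    · exact Or.inl h1
    · rcases t1 with t1 | t1
      · rw [Bool.and_eq_false_iff] at t1
        rcases t1 with t1 | t1
        · rw [h1.1] at t1; exact absurd t1 (by simp)
        · rw [h1.2] at t1; exact absurd t1 (by simp)
      · exact Or.inr t1
  · rcases h2 with h2 | h2
    · exact Or.inl h2
    · rcases t2 with t2 | t2
      · rw [Bool.and_eq_false_iff] at t2
        rcases t2 with t2 | t2
        · rw [h2.1] at t2; exact absurd t2 (by simp)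
        · rw [h2.2] at t2; exact absurd t2 (by simp)
      · exact Or.inr t2
  · rcases h1 with h1 | h1
    · exact Or.inl (Or.inr h1)
    · rcases h2 with h2 | h2
      · exact Or.inr h2
      · refine Or.inl (Or.inl ?_)
        rcases t3 with t3 | t3
        · rw [h1.1, h1.2, h2.1, h2.2] at t3
          exact absurd t3 (by simp)
        · exact t3

/-! ## Types -/

/-- the check for one further state and two links -/
def tP (x : Sx) (gm ga : M9) : Bool := !(okQ (.s x) gm ga) ||
    (ks (locS (.s x) gm ga).e2).all fun km => (ks (locS (.s x) gm ga).e4).all fun ka =>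
    bb.all fun c1 => bb.all fun c2 => bb.all fun c3 => bb.all fun c4 =>
      !(legQ (.s x) gm ga km ka c1 c2 c3 c4) ||
      (sB km ka (locS (.s x) gm ga)).srch (cl4 c1 c2 c3 c4) (thp (locS (.s x) gm ga))
        (chs (sB km ka (locS (.s x) gm ga)).cr.length)

/-- the check for one further state -/
def tX (x : Sx) : Bool := allG.all fun gm => allG.all fun ga => tP x gm ga

/-! The tables are cut into small pieces (little memory in the kernel). -/

theorem tX_s (P : Bool) (k : Fin 3) (w : Bool) : tX (.s P k w) = true := by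
  cases P <;> cases w <;> fin_cases k <;> decide +kernel

theorem tX_h (P : Bool) (i : Fin 3) : tX (.h P i) = true := by
  cases P <;> fin_cases i <;> decide +kernel

theorem tX_p0 (P t o : Bool) : tX (.p P .drop t o) = true := by
  cases P <;> cases t <;> cases o <;> decide +kernel

theorem tX_p1 (P t o : Bool) : tX (.p P .far t o) = true := by
  cases P <;> cases t <;> cases o <;> decide +kernel

theorem tX_p2 (P t o : Bool) : tX (.p P .near t o) = true := by
  cases P <;> cases t <;> cases o <;> decide +kernel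

theorem tX_p4 (P t o : Bool) : tX (.p P .nn t o) = true := by
  cases P <;> cases t <;> cases o <;> decide +kernel

theorem tP_ok {x : Sx} {gm ga : M9} (h : okQ (.s x) gm ga = false) : tP x gm ga = true := by
  unfold tP
  rw [h, Bool.not_false, Bool.true_or]

theorem tP_n (P t o : Bool) : tP (.p P .even t o) none none = true := by
  cases P <;> cases t <;> cases o <;> decide +kernel

theorem tP_m (P t o a : Bool) (s : LS) : tP (.p P .even t o) (some (a, s)) none = true := by
  by_cases h : (P && o) = true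
  · rw [Bool.and_eq_true] at h
    obtain ⟨rfl, rfl⟩ := h
    cases t <;> cases a <;> cases s <;> decide +kernel
  · apply tP_ok
    rw [Bool.not_eq_true] at h
    show (true && (false || (P && o)) && true && (false || false || true)) = false
    rw [h]
    rfl

theorem tP_a (P t o a : Bool) (s : LS) : tP (.p P .even t o) none (some (a, s)) = true := by
  by_cases h : (!P && o) = true
  · rw [Bool.and_eq_true, Bool.not_eq_true'] at h
    obtain ⟨rfl, rfl⟩ := h
    cases t <;> cases a <;> cases s <;> decide +kernel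
  · apply tP_ok
    rw [Bool.not_eq_true] at h
    show (true && true && (false || (!P && o)) && (false || true || false)) = false
    rw [h]
    rfl

theorem tP_b (P t o a a' : Bool) (s s' : LS) :
    tP (.p P .even t o) (some (a, s)) (some (a', s')) = true := by
  apply tP_ok
  show (_ && _ && _ && false) = false
  rw [Bool.and_false]

theorem tX_p3 (P t o : Bool) : tX (.p P .even t o) = true := by
  unfold tX
  simp only [List.all_eq_true]
  intro gm _ ga _
  rcases gm with _ | ⟨a, s⟩ <;> rcases ga with _ | ⟨a', s'⟩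
  · exact tP_n P t o
  · exact tP_a P t o a' s'
  · exact tP_m P t o a s
  · exact tP_b P t o a a' s s'

theorem tX_all (x : Sx) : tX x = true := by
  rcases x with ⟨P, k, w⟩ | ⟨P, st, t, o⟩ | ⟨P, i⟩
  · exact tX_s P k w
  · cases st
    · exact tX_p0 P t o
    · exact tX_p1 P t o
    · exact tX_p2 P t o
    · exact tX_p3 P t o
    · exact tX_p4 P t o
  · exact tX_h P i

/-- the check for the further states -/
theorem tS : (allX.all fun x => allG.all fun gm => allG.all fun ga => !(okQ (.s x) gm ga) ||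
    (ks (locS (.s x) gm ga).e2).all fun km => (ks (locS (.s x) gm ga).e4).all fun ka =>
    bb.all fun c1 => bb.all fun c2 => bb.all fun c3 => bb.all fun c4 =>
      !(legQ (.s x) gm ga km ka c1 c2 c3 c4) ||
      (sB km ka (locS (.s x) gm ga)).srch (cl4 c1 c2 c3 c4) (thp (locS (.s x) gm ga))
        (chs (sB km ka (locS (.s x) gm ga)).cr.length)) = true :=
  List.all_eq_true.2 fun x _ => tX_all x

theorem loc4_eq (M : Mn) (gm ga : M9) : loc4 M.mode M gm ga = locS (.b M) gm ga := rfl

theorem loc4_non (gm ga : M9) : loc4 true .non gm ga = locS .non gm ga := rfl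

theorem legQ_mono {q : Sq} {gm ga : M9} {km ka : EK} {c1 c2 c3 c4 : Bool}
    (h : legQ q gm ga km ka c1 c2 c3 c4 = true) : legQ q gm ga .R ka c1 c2 c3 c4 = true ∧
      legQ q gm ga km .R c1 c2 c3 c4 = true ∧ legQ q gm ga .R .R c1 c2 c3 c4 = true := by
  unfold legQ at h ⊢
  simp only [Bool.and_eq_true] at h ⊢
  obtain ⟨⟨⟨⟨⟨⟨h1, h2⟩, h3⟩, h4⟩, h5⟩, h6⟩, h7⟩ := h
  exact ⟨⟨⟨⟨⟨⟨⟨rfl, h2⟩, legG_R gm⟩, h4⟩, h5⟩, h6⟩, h7⟩,
    ⟨⟨⟨⟨⟨⟨h1, rfl⟩, h3⟩, legG_R ga⟩, h5⟩, h6⟩, h7⟩,
    ⟨⟨⟨⟨⟨⟨rfl, rfl⟩, legG_R gm⟩, legG_R ga⟩, h5⟩, h6⟩, h7⟩⟩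

/-- **types for all states of a bad tripod** -/
theorem q_types {q : Sq} {gm ga : M9} {km ka : EK} {c1 c2 c3 c4 : Bool}
    (h : legQ q gm ga km ka c1 c2 c3 c4 = true) :
    ∃ sw Pos a0, (sB km ka (locS q gm ga)).LTy (cl4 c1 c2 c3 c4) (thp (locS q gm ga))
      sw Pos a0 := by
  have h0 := h
  unfold legQ at h0
  simp only [Bool.and_eq_true] at h0
  obtain ⟨⟨⟨⟨⟨⟨k1, k2⟩, g1⟩, g2⟩, hc⟩, hgm⟩, hga⟩ := h0
  have hok := okQ_of hc hgm hga
  have hok' := hok
  unfold okQ at hok
  simp only [Bool.and_eq_true] at hok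
  obtain ⟨⟨⟨-, o1⟩, o2⟩, o3⟩ := hok
  rcases q with _ | ⟨ky, a, st⟩ | m | x
  · rw [← loc4_non]
    refine b_types ?_
    unfold legB
    simp only [Bool.and_eq_true]
    refine ⟨⟨⟨⟨⟨⟨⟨⟨k1, k2⟩, g1⟩, g2⟩, rfl⟩, rfl⟩, ?_⟩, ?_⟩, rfl⟩
    · rw [Bool.or_eq_true] at hgm ⊢
      refine hgm.imp id fun h => ?_
      simp only [Bool.and_eq_true] at h ⊢
      exact ⟨⟨rfl, h.1⟩, h.2⟩
    · rw [Bool.or_eq_true] at hga ⊢
      refine hga.imp id fun h => ?_
      simp only [Bool.and_eq_true] at h ⊢
      exact ⟨⟨rfl, h.1⟩, h.2⟩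
  · exact absurd hc (by simp [clQ])
  · rw [← loc4_eq]
    refine b_types ?_
    unfold legB
    simp only [Bool.and_eq_true]
    refine ⟨⟨⟨⟨⟨⟨⟨⟨k1, k2⟩, g1⟩, g2⟩, hc⟩, ?_⟩, ?_⟩, ?_⟩, ?_⟩
    · rw [Bool.or_eq_true]; right; simp
    · rw [Bool.or_eq_true] at hgm o1 ⊢
      rcases hgm with hgm | hgm
      · exact Or.inl hgm
      · rcases o1 with o1 | o1
        · exact Or.inl o1
        · right
          simp only [Bool.and_eq_true] at hgm ⊢
          exact ⟨⟨o1, hgm.1⟩, hgm.2⟩
    · rw [Bool.or_eq_true] at hga o2 ⊢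
      rcases hga with hga | hga
      · exact Or.inl hga
      · rcases o2 with o2 | o2
        · exact Or.inl o2
        · right
          simp only [Bool.and_eq_true] at hga ⊢
          exact ⟨⟨o2, hga.1⟩, hga.2⟩
    · simp only [Bool.or_eq_true] at o3 ⊢
      refine o3.imp (Or.imp ?_ id) id
      intro h
      rcases m with _ | s | s | s | s | s | s | s | s
      · rfl
      all_goals exact absurd h (by simp [Sq.isN])
  · have t := tS
    simp only [List.all_eq_true] at t
    have t1 := t x (mem_allX x) gm (mem_allG _) ga (mem_allG _)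
    rw [hok', Bool.not_true, Bool.false_or] at t1
    simp only [List.all_eq_true] at t1
    obtain ⟨l, hl⟩ : ∃ l, l = locS (.s x) gm ga := ⟨_, rfl⟩
    rw [← hl] at t1 ⊢
    have key : ∀ km' ∈ ks l.e2, ∀ ka' ∈ ks l.e4,
        legQ (.s x) gm ga km' ka' c1 c2 c3 c4 = true →
        ∃ sw Pos a0, (sB km' ka' l).LTy (cl4 c1 c2 c3 c4) (thp l) sw Pos a0 := by
      intro km' hk ka' hk' hl
      have t2 := t1 km' hk ka' hk' c1 (mem_bb _) c2 (mem_bb _) c3 (mem_bb _) c4 (mem_bb _)
      rw [hl, Bool.not_true, Bool.false_or] at t2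
      exact Sy.srch_spec t2
    have ks0 : ∀ {w : Wd}, w = [] → EK.R ∈ ks w := by
      intro w hw
      rw [hw]
      exact List.mem_singleton.2 rfl
    have ks1 : ∀ {w : Wd} {k : EK}, w ≠ [] → okp k .t = true → k ∈ ks w := by
      intro w k hw hk
      unfold ks
      rw [if_neg (by simpa using hw)]
      exact mem_kof hk
    obtain ⟨hR1, hR2, hR3⟩ := legQ_mono h
    by_cases e2 : l.e2 = []
    · by_cases e4 : l.e4 = []
      · rw [sB_e2 e2, sB_e4 e4]
        exact key .R (ks0 e2) .R (ks0 e4) hR3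
      · rw [sB_e2 e2]
        exact key .R (ks0 e2) ka (ks1 e4 k2) hR1
    · by_cases e4 : l.e4 = []
      · rw [sB_e4 e4]
        exact key km (ks1 e2 k1) .R (ks0 e4) hR2
      · exact key km (ks1 e2 k1) ka (ks1 e4 k2) h

end Pool.Agent.MP42.GZ
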