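import Pool.Agent.MP42.GZ.TypC

/-!
# Tables of all vertex states: words and lanes (owner helper28)

`Loc4.cwN N k`: the word at the corner `k` of a vertex with `N` corners.  `visQ`: the visible words.
`Loc4.con`: two crossings with the same name are joined by a hidden pair.  `Loc4.chk`: all checks.
-/

set_option autoImplicit false

namespace Pool.Agent.MP42.GZ

open Pool.Agent.MP42.O3 (EK Lab)
open Pool.Agent.MP42.U

/-- the word at the corner `k` -/
def Loc4.cwN (l : Loc4) (N k : ℕ) : Wd := (l.e ((k + N - 1) % N)).reverse ++ (l.t k ++ l.e k)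

/-- the tokens at the corner `k` -/
def Loc4.tkw (l : Loc4) (N k : ℕ) : List Tk :=
  (nrs (l.off ((k + N - 1) % N)) (l.e ((k + N - 1) % N)).length true).reverse ++
    (l.thn k ++ nrs (l.off k) (l.e k).length false)

/-- sign and name of the numbers -/
def Loc4.sn (l : Loc4) : Wd := l.e1 ++ l.e2 ++ l.e3 ++ l.e4 ++ l.t1 ++ l.t2

/-- name of a token -/
def Loc4.nmt (l : Loc4) (t : Tk) : ℕ := (l.sn.getD t.1 (true, 0)).2

/-- sign of a token -/
def Loc4.sgt (l : Loc4) (t : Tk) : Bool := (l.sn.getD t.1 (true, 0)).1

/-- the signed tokens at the corner `k` -/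
def Loc4.stw (l : Loc4) (N k : ℕ) : List (Bool × Tk) := (l.tkw N k).map fun t => (l.sgt t, t)

/-- the hidden pairs of the corner `k` -/
def Loc4.hid (l : Loc4) (N k : ℕ) : List (Tk × Tk) :=
  (redB (fun p q => l.nmt p == l.nmt q) (l.stw N k)).2

/-- the crossings with the numbers `c`, `c'` are joined by a hidden pair -/
def jnd (P : List (Tk × Tk)) (c c' : ℕ) : Bool :=
  P.any fun p => (p.1.1 == c && p.2.1 == c') || (p.1.1 == c' && p.2.1 == c)

/-- crossings with the same name are joined -/
def Loc4.con (l : Loc4) (N : ℕ) : Bool :=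
  (List.range (l.off 6)).all fun c => (List.range c).all fun c' =>
    !(l.nmt (c, false) == l.nmt (c', false)) || (List.range N).any fun k => jnd (l.hid N k) c c'

/-- every lane is visible at some corner -/
def Loc4.vsb (l : Loc4) (N : ℕ) : Bool :=
  (List.range (l.off 6)).all fun c => (List.range N).any fun k =>
    (red (l.cwN N k)).any fun q => q.2 == l.nmt (c, false)

/-- short words, signs of the thin crossings -/
def Loc4.sml (l : Loc4) (N : ℕ) : Bool :=
  ((List.range N).all fun k => decide ((l.cwN N k).length ≤ 8)) &&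
    (l.t1.all fun q => !q.1) && (l.t2.all fun q => q.1) && (l.t1.isEmpty || l.t2.isEmpty)

/-- all checks -/
def Loc4.chk (l : Loc4) (N : ℕ) : Bool := l.con N && l.vsb N && l.sml N

/-- visible words of the gate links -/
def gQ (gm ga : M9) (k : ℕ) : Wd := if k = 0 then visGA ga 0 else if k = 1 then visGM gm 1 else
  if k = 2 then visGM gm 2 else visGA ga 3

/-- visible words -/
def visQ (q : Sq) (gm ga : M9) (k : ℕ) : Wd :=
  if k = 0 ∨ k = 2 then gQ gm ga k ++ q.vis k else q.vis k ++ gQ gm ga k

/-- all main states of vertices of valence three -/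
def allK3 : List Sq := bb.flatMap fun ky => bb.flatMap fun a => allS.map fun st => .l ky a st

theorem t3 : (allK3.all fun q => q.lc.chk 3 && (List.range 3).all fun k =>
    decide (red (q.lc.cwN 3 k) = q.vis k)) = true := by
  decide +kernel

/-- the check for one combination -/
def chkQ (q : Sq) (gm ga : M9) : Bool :=
  !(okQ q gm ga) || ((locS q gm ga).chk 4 &&
    (gm.isNone || q.lc.e2.isEmpty) && (ga.isNone || q.lc.e4.isEmpty) &&
    (List.range 4).all fun k => decide (red ((locS q gm ga).cwN 4 k) = visQ q gm ga k))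

theorem t4a : (allQ.all fun q => allG.all fun gm => chkQ q gm none) = true := by
  decide +kernel

theorem t4b : (allQ.all fun q => allG.all fun ga => chkQ q none ga) = true := by
  decide +kernel

theorem t4c : (allG.all fun gm => allG.all fun ga => chkQ .non gm ga && chkQ (.b .non) gm ga) =
    true := by
  decide +kernel

/-- **vertices of valence three** -/
theorem q3 (ky a : Bool) (st : LS) : (Sq.l ky a st).lc.chk 3 = true ∧
    ∀ k < 3, red ((Sq.l ky a st).lc.cwN 3 k) = (Sq.l ky a st).vis k := by
  have t := t3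
  rw [List.all_eq_true] at t
  have hm : Sq.l ky a st ∈ allK3 := by cases ky <;> cases a <;> cases st <;> decide
  have t1 := t _ hm
  simp only [Bool.and_eq_true, List.all_eq_true, decide_eq_true_eq, List.mem_range] at t1
  exact ⟨t1.1, fun k hk => t1.2 k hk⟩

theorem chkQ_all {q : Sq} {gm ga : M9} (h : okQ q gm ga = true) : chkQ q gm ga = true := by
  have hq : ∀ ky a st, q ≠ .l ky a st := by
    rintro ky a st rfl
    exact absurd h (by simp [okQ])
  rcases gm with _ | g
  · have t := t4b
    simp only [List.all_eq_true] at t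
    exact t q (mem_allQ q hq) ga (mem_allG ga)
  · rcases ga with _ | g'
    · have t := t4a
      simp only [List.all_eq_true] at t
      exact t q (mem_allQ q hq) _ (mem_allG _)
    · have hN : q.isN = true := by
        unfold okQ at h
        simp only [Option.isNone_some, Bool.false_or, Bool.or_false, Bool.and_eq_true] at h
        exact h.2
      have t := t4c
      simp only [List.all_eq_true, Bool.and_eq_true] at t
      have t1 := t _ (mem_allG (some g)) _ (mem_allG (some g'))
      rcases q with _ | ⟨ky, a, st⟩ | m | x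
      · exact t1.1
      · exact absurd rfl (hq ky a st)
      · rcases m with _ | s | s | s | s | s | s | s | s
        · exact t1.2
        all_goals exact absurd hN (by simp [Sq.isN])
      · exact absurd hN (by simp [Sq.isN])

/-- **bad tripods** -/
theorem q4 {q : Sq} {gm ga : M9} (h : okQ q gm ga = true) : (locS q gm ga).chk 4 = true ∧
    (gm = none ∨ q.lc.e2 = []) ∧ (ga = none ∨ q.lc.e4 = []) ∧
    ∀ k < 4, red ((locS q gm ga).cwN 4 k) = visQ q gm ga k := by
  have t := chkQ_all h
  unfold chkQ at t
  rw [h, Bool.not_true, Bool.false_or] at t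
  simp only [Bool.and_eq_true, List.all_eq_true, decide_eq_true_eq, List.mem_range,
    Bool.or_eq_true, Option.isNone_iff_eq_none, List.isEmpty_iff] at t
  exact ⟨t.1.1.1, t.1.1.2, t.1.2, t.2⟩

/-- the thin crossings -/
theorem Loc4.chk_thin {l : Loc4} {N : ℕ} (h : l.chk N = true) : (∀ q ∈ l.t1, q.1 = false) ∧
    (∀ q ∈ l.t2, q.1 = true) ∧ (l.t1 = [] ∨ l.t2 = []) := by
  unfold Loc4.chk Loc4.sml at h
  simp only [Bool.and_eq_true, List.all_eq_true, Bool.or_eq_true, List.isEmpty_iff,
    Bool.not_eq_true'] at h
  exact ⟨h.2.1.1.2, h.2.1.2, h.2.2⟩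

theorem Loc4.chk_len {l : Loc4} {N : ℕ} (h : l.chk N = true) :
    ∀ k < N, (l.cwN N k).length ≤ 8 := by
  unfold Loc4.chk Loc4.sml at h
  simp only [Bool.and_eq_true, List.all_eq_true, decide_eq_true_eq, List.mem_range] at h
  exact h.2.1.1.1

end Pool.Agent.MP42.GZ
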